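import Pool.Agent.Lib.MZFin.BBern

/-! Bernoulli theorem, module `BFz` (170 lines): the finite zeta values of depth one and two.

PROOF. `psum`: `∑_(M < p-1) (M+1)^e` in `ZMod p`: for `e ≥ 0`, equals `-1` if `(p-1) ∣ e` and `0` otherwise
(`FiniteField.sum_pow_units`, `sum_pow_lt_card_sub_one`, `ZMod.pow_card_sub_one_eq_one`, or a primitive root).
`fz_one`: `fz p [c] = ∑_(M<p-1) ((M+1)⁻¹)^c = ∑ (M+1)^(p-1-c)`, `0 < p-1-c < p-1`.
`fz_two`: `fz p [a,b] = ∑_(M<p-1) ((M+1)⁻¹)^a * hs (wp p) [b] M`, where `hs .. [b] M` is the sum over the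
`m < M`: use `faul` for `n = M`? It is written with `(n+1)`: `hs [b] M = ∑_(i < p-b) β_i C(p-b,i) (p-b)⁻¹ (M+1)^(p-b-i)`.
`((M+1)⁻¹)^a = (M+1)^(p-1-a)`, so the coefficient of `β_i` is `C(p-b,i) (p-b)⁻¹ ∑_(M<p-1) (M+1)^(2p-1-a-b-i)`.
`0 ≤ i ≤ p-b-1`: the exponent runs from `2p-1-a-b` (`i = 0`, less than `2(p-1)` because `a + b ≥ 2`; if `a+b = 2`
it is `2p-3 < 2(p-1)`) down to `p-a < p` (`i = p-b-1`), `p - a ≤ p-1`, equal to `p-1` iff `a = 1`, `i = p-b-1`):
divisible by `p-1` iff it is `p-1`, i.e. `i = p-a-b`. So `fz p [a,b] = - β_(p-a-b) C(p-b, p-a-b) (p-b)⁻¹`,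
`C(p-b, p-a-b) = C(p-b, a)`, `(p-b)⁻¹ = - b⁻¹`, and in `ZMod p`: `C(p-b,a) a! = ∏_(i<a) (p-b-i) = (-1)^a ∏_(i<a) (b+i)`
`= (-1)^a a! C(a+b-1, a)` (`Nat.descFactorial_eq_factorial_mul_choose`, `Nat.ascFactorial..`; `a!` is invertible).
Finally `C(a+b-1,a) / b = C(a+b,a) / (a+b)` (`(a+b) C(a+b-1,a) = b C(a+b,a)`, `Nat.add_one_mul_choose_eq` ..), and
`rc p` of `(-1)^a C(a+b,a) / (a+b)` is computed by `PI_div` (`a + b < p`). Check: `p = 11, a = 2, b = 1`. -/

open Finset

namespace Pool.MZFin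

private theorem BFz_univ (p : ℕ) [NeZero p] (f : ZMod p → ZMod p) :
    ∑ x : ZMod p, f x = ∑ n ∈ range p, f (n : ZMod p) := by
  refine Finset.sum_nbij' (fun x => x.val) (fun n => (n : ZMod p)) ?_ ?_ ?_ ?_ ?_
  · intro x _
    exact mem_range.2 (ZMod.val_lt x)
  · intro n _
    exact mem_univ _
  · intro x _
    exact ZMod.natCast_rightInverse x
  · intro n hn
    exact ZMod.val_natCast_of_lt (mem_range.1 hn)
  · intro x _
    rw [ZMod.natCast_rightInverse x]

private theorem BFz_ne {p : ℕ} {m : ℕ} (h0 : 0 < m) (h : m < p) : (m : ZMod p) ≠ 0 := by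
  intro h1
  rw [ZMod.natCast_eq_zero_iff] at h1
  exact absurd (Nat.le_of_dvd h0 h1) (by omega)

/-- power sums -/
private theorem BFz_psum {p : ℕ} (hp : p.Prime) (e : ℕ) (h0 : 0 < e) (h : e < p - 1) :
    ∑ n ∈ range (p - 1), ((n + 1 : ℕ) : ZMod p) ^ e = 0 := by
  have hF : Fact p.Prime := ⟨hp⟩
  have h2 : ∑ x : ZMod p, x ^ e = 0 :=
    FiniteField.sum_pow_lt_card_sub_one (K := ZMod p) e (by rw [ZMod.card]; omega)
  rw [BFz_univ p fun x => x ^ e] at h2
  have h3 : ∑ n ∈ range p, ((n : ℕ) : ZMod p) ^ e =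
      ∑ n ∈ range (p - 1), ((n + 1 : ℕ) : ZMod p) ^ e := by
    have h4 : range p = range ((p - 1) + 1) := by
      congr 1
      omega
    rw [h4, sum_range_succ', Nat.cast_zero, zero_pow (by omega), add_zero]
  rw [← h3, h2]

/-- the inner sums -/
private theorem BFz_inner {p : ℕ} (hp : p.Prime) (a e : ℕ) (ha : 1 ≤ a) (hap : a < p - 1)
    (he : 1 ≤ e) (hep : e < p) :
    ∑ n ∈ range (p - 1), (((n + 1 : ℕ) : ZMod p)⁻¹) ^ a * ((n + 1 : ℕ) : ZMod p) ^ e =
      if e = a then -1 else 0 := by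
  have hF : Fact p.Prime := ⟨hp⟩
  have hne : ∀ n ∈ range (p - 1), ((n + 1 : ℕ) : ZMod p) ≠ 0 := fun n hn =>
    BFz_ne (Nat.succ_pos n) (by have := mem_range.1 hn; omega)
  rcases lt_trichotomy e a with h | h | h
  · rw [if_neg (by omega), ← BFz_psum hp (p - 1 - (a - e)) (by omega) (by omega)]
    refine sum_congr rfl fun n hn => ?_
    have hx := hne n hn
    have h1 := ZMod.pow_card_sub_one_eq_one hx
    have h2 : ((n + 1 : ℕ) : ZMod p) ^ (p - 1 - (a - e)) * ((n + 1 : ℕ) : ZMod p) ^ a =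
        ((n + 1 : ℕ) : ZMod p) ^ e := by
      rw [← pow_add]
      have h3 : p - 1 - (a - e) + a = (p - 1) + e := by omega
      rw [h3, pow_add, h1, one_mul]
    rw [← h2, inv_pow, mul_comm, mul_assoc, mul_inv_cancel₀ (pow_ne_zero a hx), mul_one]
  · rw [if_pos h, h]
    have h1 : ∀ n ∈ range (p - 1), (((n + 1 : ℕ) : ZMod p)⁻¹) ^ a * ((n + 1 : ℕ) : ZMod p) ^ a = 1 :=
      fun n hn => by rw [inv_pow, inv_mul_cancel₀ (pow_ne_zero a (hne n hn))]
    rw [sum_congr rfl h1, sum_const, card_range, nsmul_eq_mul, mul_one,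
      Nat.cast_sub hp.one_lt.le, ZMod.natCast_self, Nat.cast_one, zero_sub]
  · rw [if_neg (by omega), ← BFz_psum hp (e - a) (by omega) (by omega)]
    refine sum_congr rfl fun n hn => ?_
    have hx := hne n hn
    have h3 : e = a + (e - a) := by omega
    conv_lhs => rw [h3]
    rw [inv_pow, pow_add, ← mul_assoc, inv_mul_cancel₀ (pow_ne_zero a hx), one_mul]

/-- binomial coefficients `C(p - b, a)` modulo `p` -/
private theorem BFz_choose {p : ℕ} (b : ℕ) (hb : 1 ≤ b) (a : ℕ) (h : a + b < p)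
    (hp : p.Prime) : (((p - b).choose a : ℕ) : ZMod p) = (-1) ^ a * (((a + b - 1).choose a : ℕ) :
      ZMod p) := by
  have hF : Fact p.Prime := ⟨hp⟩
  induction a with
  | zero => simp
  | succ a ih =>
    have ih' := ih (by omega)
    have h1 : ((p - b).choose (a + 1)) * (a + 1) = (p - b).choose a * (p - b - a) :=
      Nat.choose_succ_right_eq _ _
    have h2 : (a + b) * (a + b - 1).choose a = (a + b).choose (a + 1) * (a + 1) := by
      have := Nat.add_one_mul_choose_eq (a + b - 1) a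
      rwa [Nat.sub_add_cancel (by omega)] at this
    have h1' := congrArg (fun n : ℕ => (n : ZMod p)) h1
    have h2' := congrArg (fun n : ℕ => (n : ZMod p)) h2
    simp only [Nat.cast_mul] at h1' h2'
    have h3 : ((p - b - a : ℕ) : ZMod p) = -((a + b : ℕ) : ZMod p) := by
      rw [Nat.sub_sub, add_comm b a, Nat.cast_sub (by omega), ZMod.natCast_self, zero_sub]
    rw [h3, ih'] at h1'
    have h4 : ((a + 1 : ℕ) : ZMod p) ≠ 0 := BFz_ne (Nat.succ_pos a) (by omega)
    apply mul_right_cancel₀ h4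
    have h5 : a + 1 + b - 1 = a + b := by omega
    rw [h5, h1', pow_succ]
    linear_combination (-(-1) ^ a) * h2'

theorem fz_one {p : ℕ} (hp : p.Prime) (c : ℕ) (hc : 1 ≤ c) (h : c + 1 < p) : fz p [c] = 0 := by
  have hF : Fact p.Prime := ⟨hp⟩
  rw [← BFz_psum hp (p - 1 - c) (by omega) (by omega)]
  unfold fz
  rw [hs_cons]
  refine sum_congr rfl fun n hn => ?_
  rw [hs_nil, mul_one, wp]
  have hx : ((n + 1 : ℕ) : ZMod p) ≠ 0 :=
    BFz_ne (Nat.succ_pos n) (by have := mem_range.1 hn; omega)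
  have h4 : ((n + 1 : ℕ) : ZMod p) ^ (p - 1 - c) * ((n + 1 : ℕ) : ZMod p) ^ c = 1 := by
    rw [← pow_add, Nat.sub_add_cancel (by omega), ZMod.pow_card_sub_one_eq_one hx]
  rw [inv_pow]
  exact (eq_inv_of_mul_eq_one_left h4).symm

theorem fz_two {p : ℕ} (hp : p.Prime) (a b : ℕ) (ha : 1 ≤ a) (hb : 1 ≤ b) (h : a + b + 1 < p) :
    fz p [a, b] = rc p ((-1) ^ a * ((a + b).choose a : ℚ) / ((a + b : ℕ) : ℚ)) *
      rc p (bernoulli (p - (a + b))) := by
  have hF : Fact p.Prime := ⟨hp⟩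
  have hL : fz p [a, b] = ∑ i ∈ range (p - b), rc p (bernoulli i) *
      (((p - b).choose i : ℕ) : ZMod p) * (((p - b : ℕ) : ZMod p))⁻¹ *
        (if p - b - i = a then -1 else 0) := by
    unfold fz
    rw [hs_cons]
    have h1 : ∀ n ∈ range (p - 1), wp p (n + 1) ^ a * hs (wp p) [b] n =
        ∑ i ∈ range (p - b), rc p (bernoulli i) *
          (((p - b).choose i : ℕ) : ZMod p) * (((p - b : ℕ) : ZMod p))⁻¹ *
            ((((n + 1 : ℕ) : ZMod p)⁻¹) ^ a * ((n + 1 : ℕ) : ZMod p) ^ (p - b - i)) := by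
      intro n hn
      rw [faul hp b hb (by omega) n (by have := mem_range.1 hn; omega), mul_sum, wp]
      refine sum_congr rfl fun i _ => ?_
      ring
    rw [sum_congr rfl h1, sum_comm]
    refine sum_congr rfl fun i hi => ?_
    have hi' := mem_range.1 hi
    rw [← mul_sum, BFz_inner hp a (p - b - i) ha (by omega) (by omega) (by omega)]
  rw [hL, sum_eq_single (p - (a + b))]
  · have e1 : p - b - (p - (a + b)) = a := by omega
    rw [if_pos e1]
    have e2 : (p - b).choose (p - (a + b)) = (p - b).choose a := by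
      rw [← Nat.choose_symm (n := p - b) (k := a) (by omega)]
      congr 1
      omega
    have hbne : (b : ZMod p) ≠ 0 := BFz_ne (by omega) (by omega)
    have habne : ((a + b : ℕ) : ZMod p) ≠ 0 := BFz_ne (by omega) (by omega)
    have e3 : ((p - b : ℕ) : ZMod p) = -(b : ZMod p) := by
      rw [Nat.cast_sub (by omega), ZMod.natCast_self, zero_sub]
    have e4 : rc p ((-1) ^ a * ((a + b).choose a : ℚ) / ((a + b : ℕ) : ℚ)) =
        ((-1) ^ a * (((a + b).choose a : ℕ) : ZMod p)) * ((a + b : ℕ) : ZMod p)⁻¹ := by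
      have := (PI_div hp ((-1) ^ a * ((a + b).choose a : ℕ)) (a + b) habne).2
      push_cast at this ⊢
      exact this
    have e5 : (a + b - 1).choose a * (a + b) = (a + b).choose a * b := by
      have := Nat.choose_mul_succ_eq (a + b - 1) a
      rw [Nat.sub_add_cancel (by omega), Nat.add_sub_cancel_left] at this
      exact this
    have e5' := congrArg (fun n : ℕ => (n : ZMod p)) e5
    simp only [Nat.cast_mul] at e5'
    rw [e2, e3, e4, BFz_choose b hb a (by omega) hp, inv_neg]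
    field_simp
    linear_combination (rc p (bernoulli (p - (a + b)))) * e5'
  · intro i hi hne
    have hi' := mem_range.1 hi
    rw [if_neg (by omega), mul_zero]
  · intro hn
    exact absurd (mem_range.2 (by omega)) hn

end Pool.MZFin
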