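import Pool.Agent.Lib.MZFin.Defs

/-! MP_c511df_nt: the stuffle product of nested sums. -/

open Finset

namespace Pool.MZFin

private lemma ds_zero {R : Type*} [CommRing R] (w : ℕ → R) (c : ℕ) (l : List ℕ) :
    hs w (c :: l) 0 = 0 := by
  simp [hs]

private lemma ds_succ {R : Type*} [CommRing R] (w : ℕ → R) (c : ℕ) (l : List ℕ) (M : ℕ) :
    hs w (c :: l) (M + 1) = hs w (c :: l) M + w (M + 1) ^ c * hs w l M := by
  simp [hs, Finset.sum_range_succ]

private lemma ds_map {R : Type*} [CommRing R] (w : ℕ → R) (L : List (List ℕ)) (c : ℕ) (M : ℕ) :
    ((L.map fun g => c :: g).map fun g => hs w g (M + 1)).sum =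
      ((L.map fun g => c :: g).map fun g => hs w g M).sum +
      w (M + 1) ^ c * (L.map fun g => hs w g M).sum := by
  induction L with
  | nil => simp
  | cons g L ih =>
    simp only [List.map_cons, List.sum_cons]
    rw [ih, ds_succ]
    ring

private lemma ds_map_zero {R : Type*} [CommRing R] (w : ℕ → R) (L : List (List ℕ)) (c : ℕ) :
    ((L.map fun g => c :: g).map fun g => hs w g 0).sum = 0 := by
  induction L with
  | nil => simp
  | cons g L ih =>
    simp only [List.map_cons, List.sum_cons]
    rw [ih, ds_zero, add_zero]

/-- the words of the stuffle product of two words do not depend on the sequence and the ring -/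
theorem stuffle_hs (l l' : List ℕ) (hl : ∀ a ∈ l, 1 ≤ a) (hl' : ∀ a ∈ l', 1 ≤ a) :
    ∃ L : List (List ℕ), (∀ g ∈ L, (∀ a ∈ g, 1 ≤ a) ∧ g.sum = l.sum + l'.sum) ∧
      ∀ (R : Type) [CommRing R] (w : ℕ → R) (M : ℕ),
        hs w l M * hs w l' M = (L.map fun g => hs w g M).sum := by
  have key : ∀ (n : ℕ) (l l' : List ℕ), l.length + l'.length = n → (∀ a ∈ l, 1 ≤ a) →
      (∀ a ∈ l', 1 ≤ a) →
      ∃ L : List (List ℕ), (∀ g ∈ L, (∀ a ∈ g, 1 ≤ a) ∧ g.sum = l.sum + l'.sum) ∧
      ∀ (R : Type) [CommRing R] (w : ℕ → R) (M : ℕ),
        hs w l M * hs w l' M = (L.map fun g => hs w g M).sum := by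
    intro n
    induction n using Nat.strong_induction_on with
    | _ n ih =>
      intro l l' hn hl hl'
      cases l with
      | nil =>
        refine ⟨[l'], ?_, ?_⟩
        · intro g hg
          rw [List.mem_singleton] at hg
          subst hg
          exact ⟨hl', by simp⟩
        · intro R _ w M
          simp [hs]
      | cons a u =>
        cases l' with
        | nil =>
          refine ⟨[a :: u], ?_, ?_⟩
          · intro g hg
            rw [List.mem_singleton] at hg
            subst hg
            exact ⟨hl, by simp⟩
          · intro R _ w M
            simp [hs]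
        | cons b v =>
          simp only [List.length_cons] at hn
          have ha : 1 ≤ a := hl a List.mem_cons_self
          have hb : 1 ≤ b := hl' b List.mem_cons_self
          have hu : ∀ x ∈ u, 1 ≤ x := fun x hx => hl x (List.mem_cons_of_mem _ hx)
          have hv : ∀ x ∈ v, 1 ≤ x := fun x hx => hl' x (List.mem_cons_of_mem _ hx)
          obtain ⟨L1, h1, e1⟩ := ih ((a :: u).length + v.length)
            (by simp only [List.length_cons]; omega) (a :: u) v rfl hl hv
          obtain ⟨L2, h2, e2⟩ := ih (u.length + (b :: v).length)
            (by simp only [List.length_cons]; omega) u (b :: v) rfl hu hl'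
          obtain ⟨L3, h3, e3⟩ := ih (u.length + v.length) (by omega) u v rfl hu hv
          refine ⟨(L1.map fun g => b :: g) ++ (L2.map fun g => a :: g) ++
            (L3.map fun g => (a + b) :: g), ?_, ?_⟩
          · intro g hg
            rw [List.mem_append, List.mem_append, List.mem_map, List.mem_map, List.mem_map] at hg
            rcases hg with (⟨g', hg', rfl⟩ | ⟨g', hg', rfl⟩) | ⟨g', hg', rfl⟩
            · obtain ⟨h4, h5⟩ := h1 g' hg'
              refine ⟨fun x hx => ?_, ?_⟩
              · rcases List.mem_cons.1 hx with rfl | hx
                · exact hb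
                · exact h4 x hx
              · simp only [List.sum_cons] at h5 ⊢
                omega
            · obtain ⟨h4, h5⟩ := h2 g' hg'
              refine ⟨fun x hx => ?_, ?_⟩
              · rcases List.mem_cons.1 hx with rfl | hx
                · exact ha
                · exact h4 x hx
              · simp only [List.sum_cons] at h5 ⊢
                omega
            · obtain ⟨h4, h5⟩ := h3 g' hg'
              refine ⟨fun x hx => ?_, ?_⟩
              · rcases List.mem_cons.1 hx with rfl | hx
                · omega
                · exact h4 x hx
              · simp only [List.sum_cons] at h5 ⊢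
                omega
          · intro R _ w M
            induction M with
            | zero =>
              rw [List.map_append, List.map_append, List.sum_append, List.sum_append, ds_map_zero,
                ds_map_zero, ds_map_zero, ds_zero]
              ring
            | succ M ihM =>
              rw [List.map_append, List.map_append, List.sum_append, List.sum_append, ds_map,
                ds_map, ds_map, ds_succ, ds_succ]
              rw [List.map_append, List.map_append, List.sum_append, List.sum_append] at ihM
              rw [← e1 R w M, ← e2 R w M, ← e3 R w M]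
              linear_combination ihM
  exact key _ l l' rfl hl hl'

end Pool.MZFin
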