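import Pool.Agent.Lib.MZFin.Defs

/-! MP_c511df_nt, finite multiple zeta values: the sums of S18415 are the values `fz`. -/

open Finset

namespace Pool.MZFin

/-- the sum of S18415: largest variable first -/
def fsum (p r : ℕ) (kk : Fin r → ℕ) : ZMod p :=
  ∑ m : Fin r → Fin p,
    (if (∀ a b : Fin r, a < b → m b < m a) ∧ (∀ a, 0 < (m a : ℕ))
      then ∏ a, ((((m a : ℕ) : ZMod p)) ^ kk a)⁻¹ else 0)

private def gsum (p r : ℕ) (kk : Fin r → ℕ) (t : ℕ) : ZMod p :=
  ∑ m : Fin r → Fin p,
    (if (∀ a b : Fin r, a < b → m b < m a) ∧ (∀ a, 0 < (m a : ℕ)) ∧ (∀ a, (m a : ℕ) < t)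
      then ∏ a, ((((m a : ℕ) : ZMod p)) ^ kk a)⁻¹ else 0)

private theorem gsum_eq (p : ℕ) [Fact p.Prime] : ∀ (r : ℕ) (kk : Fin r → ℕ) (t : ℕ), t ≤ p →
    gsum p r kk t = hs (wp p) (List.ofFn kk) (t - 1) := by
  intro r
  induction r with
  | zero =>
    intro kk t _
    simp [gsum, hs]
  | succ r ih =>
    intro kk t ht
    rw [List.ofFn_succ, hs, gsum, ← (Fin.consEquiv (fun _ : Fin (r + 1) => Fin p)).sum_comp,
      Fintype.sum_prod_type]
    have h1 : ∀ m0 : Fin p, (∑ m' : Fin r → Fin p,
        (if (∀ a b : Fin (r + 1), a < b →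
            (Fin.consEquiv (fun _ : Fin (r + 1) => Fin p)) (m0, m') b <
            (Fin.consEquiv (fun _ : Fin (r + 1) => Fin p)) (m0, m') a) ∧
          (∀ a, 0 < ((Fin.consEquiv (fun _ : Fin (r + 1) => Fin p)) (m0, m') a : ℕ)) ∧
          (∀ a, ((Fin.consEquiv (fun _ : Fin (r + 1) => Fin p)) (m0, m') a : ℕ) < t)
        then ∏ a, (((((Fin.consEquiv (fun _ : Fin (r + 1) => Fin p)) (m0, m') a : ℕ) :
          ZMod p)) ^ kk a)⁻¹ else 0)) =
        if 0 < (m0 : ℕ) ∧ (m0 : ℕ) < t then
          (((m0 : ℕ) : ZMod p) ^ kk 0)⁻¹ * hs (wp p) (List.ofFn fun i => kk i.succ) (m0 - 1)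
          else 0 := by
      intro m0
      by_cases h0 : 0 < (m0 : ℕ) ∧ (m0 : ℕ) < t
      · rw [if_pos h0, ← ih (fun i => kk i.succ) m0 (by omega), gsum, Finset.mul_sum]
        refine Finset.sum_congr rfl fun m' _ => ?_
        have hiff : ((∀ a b : Fin (r + 1), a < b →
            (Fin.consEquiv (fun _ : Fin (r + 1) => Fin p)) (m0, m') b <
            (Fin.consEquiv (fun _ : Fin (r + 1) => Fin p)) (m0, m') a) ∧
          (∀ a, 0 < ((Fin.consEquiv (fun _ : Fin (r + 1) => Fin p)) (m0, m') a : ℕ)) ∧
          (∀ a, ((Fin.consEquiv (fun _ : Fin (r + 1) => Fin p)) (m0, m') a : ℕ) < t)) ↔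
          ((∀ a b : Fin r, a < b → m' b < m' a) ∧ (∀ a, 0 < (m' a : ℕ)) ∧
            (∀ a, (m' a : ℕ) < (m0 : ℕ))) := by
          simp only [Fin.consEquiv_apply]
          constructor
          · rintro ⟨h1, h2, h3⟩
            refine ⟨fun a b hab => ?_, fun a => ?_, fun a => ?_⟩
            · have := h1 a.succ b.succ (Fin.succ_lt_succ_iff.2 hab)
              rw [Fin.cons_succ, Fin.cons_succ] at this
              exact this
            · have := h2 a.succ
              rw [Fin.cons_succ] at this
              exact this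
            · have := h1 0 a.succ (Fin.succ_pos a)
              rw [Fin.cons_succ, Fin.cons_zero] at this
              exact this
          · rintro ⟨h1, h2, h3⟩
            refine ⟨fun a b hab => ?_, fun a => ?_, fun a => ?_⟩
            · refine Fin.cases (fun hab => ?_) (fun b' hab => ?_) b hab
              · exact absurd hab (Fin.not_lt_zero _)
              · revert hab
                refine Fin.cases (fun hab => ?_) (fun a' hab => ?_) a
                · rw [Fin.cons_succ, Fin.cons_zero]
                  exact h3 b'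
                · have := h1 a' b' (Fin.succ_lt_succ_iff.1 hab)
                  rw [Fin.cons_succ, Fin.cons_succ]
                  exact this
            · refine Fin.cases ?_ (fun a' => ?_) a
              · rw [Fin.cons_zero]
                exact h0.1
              · rw [Fin.cons_succ]
                exact h2 a'
            · refine Fin.cases ?_ (fun a' => ?_) a
              · rw [Fin.cons_zero]
                exact h0.2
              · rw [Fin.cons_succ]
                exact (h3 a').trans h0.2
        by_cases hc : ((∀ a b : Fin r, a < b → m' b < m' a) ∧ (∀ a, 0 < (m' a : ℕ)) ∧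
            (∀ a, (m' a : ℕ) < (m0 : ℕ)))
        · rw [if_pos (hiff.2 hc), if_pos hc, Fin.prod_univ_succ]
          simp [Fin.consEquiv_apply]
        · rw [if_neg (fun h => hc (hiff.1 h)), if_neg hc, mul_zero]
      · rw [if_neg h0]
        refine Finset.sum_eq_zero fun m' _ => ?_
        rw [if_neg]
        rintro ⟨_, h2, h3⟩
        apply h0
        have h4 := h2 0
        have h5 := h3 0
        simp only [Fin.consEquiv_apply, Fin.cons_zero] at h4 h5
        exact ⟨h4, h5⟩
    rw [Finset.sum_congr rfl fun m0 _ => h1 m0]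
    rw [← Finset.sum_filter]
    refine Finset.sum_bij (fun (m0 : Fin p) _ => (m0 : ℕ) - 1) ?_ ?_ ?_ ?_
    · intro m0 hm0
      rw [Finset.mem_filter] at hm0
      rw [Finset.mem_range]
      omega
    · intro a ha b hb hab
      rw [Finset.mem_filter] at ha hb
      apply Fin.ext
      omega
    · intro b hb
      rw [Finset.mem_range] at hb
      refine ⟨⟨b + 1, by omega⟩, ?_, ?_⟩
      · rw [Finset.mem_filter]
        refine ⟨Finset.mem_univ _, ?_, ?_⟩
        · show 0 < b + 1
          omega
        · show b + 1 < t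
          omega
      · show b + 1 - 1 = b
        omega
    · intro m0 hm0
      rw [Finset.mem_filter] at hm0
      have h2 : (m0 : ℕ) - 1 + 1 = m0 := by omega
      simp only [wp]
      rw [h2, inv_pow]

/-- the sum of S18415 is the finite multiple zeta value -/
theorem fsum_eq (p : ℕ) (hp : p.Prime) (r : ℕ) (kk : Fin r → ℕ) :
    fsum p r kk = fz p (List.ofFn kk) := by
  haveI := Fact.mk hp
  rw [fz, ← gsum_eq p r kk p le_rfl, fsum, gsum]
  refine Finset.sum_congr rfl fun m _ => ?_
  by_cases h : (∀ a b : Fin r, a < b → m b < m a) ∧ (∀ a, 0 < (m a : ℕ))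
  · rw [if_pos h, if_pos ⟨h.1, h.2, fun a => (m a).2⟩]
  · rw [if_neg h, if_neg (fun h' => h ⟨h'.1, h'.2.1⟩)]

end Pool.MZFin
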