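import Pool.Agent.Lib.MZFin.BTheta

/-! Bernoulli theorem, module `BCons` (230 lines): the consequences in terms of densities.

`H c` = for every set `P` of relative upper density at least `δ` and every `K ≥ 3` there is an independent set
`S` of odd `k ≤ K` with at least `c δ √(K / log K) - 2` elements.
Basic remark (R): if `BInd P S`, `k ∈ S` (so `k ≠ 0`), then for every `N` there is a prime `p ∈ P`, `p > N`, with
`¬ Dv p k` (take `c` = indicator of `k`: the sum is `0 + 1 * B_(p-k)`).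

`dens_zero` (B): suppose not: for all `X0` there is `X ≥ X0` with `cnt P X > (3/c) √(log K / K) * cnt univ X`,
`P = {p | ∀ k ∈ Od K, Dv p k}`. So `UD P δ`, `δ = (3/c) √(log K/K) > 0`; `H` gives `S ⊆ Od K` with
`|S| + 2 ≥ c δ √(K/log K) = 3`, so there is `k ∈ S`, contradiction with (R).
`dens_pos` (C): `T = {k ∈ Od K | ¬ UD {p | ¬ Dv p k} (1/K)}`: for `k ∈ T`, for large `X`,
`cnt {p | ¬ Dv p k} X < (1/K) cnt univ X`. `P = {p | ∀ k ∈ T, Dv p k}`, its complement is the union of these sets,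
so (`cnt_compl`, `cnt_biUnion`) for large `X`: `cnt P X ≥ (1 - |T|/K) cnt univ X ≥ (1/2) cnt univ X`, as
`|T| ≤ |Od K| ≤ K/2`. `H` with `δ = 1/2`: `S`; by (R) `S ∩ T = ∅`, so `S ⊆ Od K \ T` = the set of the claim.
`dens_many` (D): first (block): for all `K1` and `ε > 0` there is `K2 ≥ K1` such that for large `X`:
`cnt {p | ∀ k ∈ Od K2, K1 < k → Dv p k} X ≤ ε cnt univ X`: choose `K2 ≥ max K1 3` with
`c ε √(K2/log K2) > K1 + 2` (the left side tends to infinity); otherwise `UD P ε`, `S ⊆ Od K2` with `|S| > K1`, so some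
`k ∈ S` is `> K1` (`S ⊆ Icc 1 K1` otherwise), contradiction with (R). Then `K_0 = 0 < K_1 < .. < K_(s+1)` with (block) for
`ε/(s+1)` (induction on `s`: the statement `D(s) : ∀ ε > 0, ∃ K X0, ∀ X ≥ X0, cnt {p | #{k ∈ Od K | ¬ Dv p k} ≤ s} X ≤ ε cnt univ X`;
from `D(s)` with `ε/2`, `K1`, and (block) with `K1`, `ε/2`, `K2`: if `#{k ∈ Od K2 | ¬ Dv p k} ≤ s+1` then either
`#{k ∈ Od K1 | ¬ Dv p k} ≤ s` or all the `k` of the first set are `≤ K1`). -/

open Finset

namespace Pool.MZFin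

/-- the statement (A) with the constant `c` -/
def HA (c : ℝ) : Prop :=
  ∀ (P : Set ℕ) (δ : ℝ), 0 < δ → UD P δ → ∀ K : ℕ, 3 ≤ K → ∃ S : Finset ℕ, S ⊆ Od K ∧
    c * δ * √((K : ℝ) / Real.log K) ≤ (S.card : ℝ) + 2 ∧ BInd P S

private theorem bcons_rem {P : Set ℕ} {S : Finset ℕ} (h : BInd P S) {k : ℕ} (hk : k ∈ S)
    (hk0 : k ≠ 0) : ∃ p ∈ P, p.Prime ∧ ¬ Dv p k := by
  obtain ⟨p, hp, -, hpp, hd⟩ := h (fun j => if j = k then 1 else 0)
    (Or.inr ⟨k, hk, by simp⟩) 0
  refine ⟨p, hp, hpp, ?_⟩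
  have e : ((((fun j => if j = k then (1 : ℤ) else 0) 0 : ℤ) : ℚ) +
      ∑ j ∈ S, (((fun j => if j = k then (1 : ℤ) else 0) j : ℤ) : ℚ) * bernoulli (p - j)) =
      bernoulli (p - k) := by
    have h0 : (0 : ℕ) ≠ k := hk0.symm
    simp only [h0, if_false, Int.cast_zero, zero_add, Int.cast_ite, Int.cast_one, ite_mul, one_mul,
      zero_mul]
    rw [Finset.sum_ite_eq' S k]
    rw [if_pos hk]
  rw [e] at hd
  exact hd

private theorem bcons_od {K k : ℕ} (h : k ∈ Od K) : 3 ≤ k ∧ k ≤ K := by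
  unfold Od at h
  rw [mem_filter, mem_Icc] at h
  exact h.1

private theorem bcons_od_mono {K L : ℕ} (h : K ≤ L) : Od K ⊆ Od L := by
  intro k hk
  unfold Od at hk ⊢
  rw [mem_filter, mem_Icc] at hk ⊢
  exact ⟨⟨hk.1.1, hk.1.2.trans h⟩, hk.2⟩

private theorem bcons_card (K : ℕ) : 2 * (Od K).card ≤ K := by
  have h : (Od K).card ≤ (Icc 1 (K / 2)).card := by
    refine Finset.card_le_card_of_injOn (fun k => k / 2) ?_ ?_
    · intro k hk
      have hk' : k ∈ Od K := hk
      have := bcons_od hk'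
      simp only [coe_Icc, Set.mem_Icc]
      omega
    · intro a ha b hb hab
      have ha' : a ∈ Od K := ha
      have hb' : b ∈ Od K := hb
      unfold Od at ha' hb'
      rw [mem_filter] at ha' hb'
      have h1 := ha'.2
      have h2 := hb'.2
      have h3 : a / 2 = b / 2 := hab
      omega
  rw [Nat.card_Icc] at h
  omega

private theorem bcons_log {K : ℕ} (hK : 3 ≤ K) : 0 < Real.log K := by
  apply Real.log_pos
  exact_mod_cast (by omega : 1 < K)

private theorem bcons_sq {K : ℕ} (hK : 3 ≤ K) :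
    √(Real.log K / K) * √((K : ℝ) / Real.log K) = 1 := by
  have h1 := bcons_log hK
  have h2 : (0 : ℝ) < K := by exact_mod_cast (by omega : 0 < K)
  rw [← Real.sqrt_mul (by positivity)]
  rw [div_mul_div_cancel₀ h2.ne', div_self h1.ne', Real.sqrt_one]

theorem dens_zero {c : ℝ} (hc : 0 < c) (H : HA c) (K : ℕ) (hK : 3 ≤ K) :
    ∃ X0 : ℕ, ∀ X : ℕ, X0 ≤ X → (cnt {p | ∀ k ∈ Od K, Dv p k} X : ℝ) ≤
      3 / c * √(Real.log K / K) * (cnt Set.univ X : ℝ) := by
  by_contra hcon
  push Not at hcon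
  have h1 := bcons_log hK
  have h2 : (0 : ℝ) < K := by exact_mod_cast (by omega : 0 < K)
  have hδ : 0 < 3 / c * √(Real.log K / K) := by positivity
  have hUD : UD {p | ∀ k ∈ Od K, Dv p k} (3 / c * √(Real.log K / K)) := by
    intro X0
    obtain ⟨X, hX, hlt⟩ := hcon X0
    exact ⟨X, hX, hlt.le⟩
  obtain ⟨S, hS, hcard, hB⟩ := H _ _ hδ hUD K hK
  have e : c * (3 / c * √(Real.log K / K)) * √((K : ℝ) / Real.log K) = 3 := by
    have h3 := bcons_sq hK
    calc c * (3 / c * √(Real.log K / K)) * √((K : ℝ) / Real.log K)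
        = 3 * (c / c) * (√(Real.log K / K) * √((K : ℝ) / Real.log K)) := by ring
      _ = 3 := by rw [h3, div_self hc.ne']; norm_num
  rw [e] at hcard
  have hne : S.Nonempty := by
    rw [Finset.nonempty_iff_ne_empty]
    rintro rfl
    rw [Finset.card_empty] at hcard
    norm_num at hcard
  obtain ⟨k, hk⟩ := hne
  have hk3 := bcons_od (hS hk)
  obtain ⟨p, hp, -, hd⟩ := bcons_rem hB hk (by omega)
  exact hd (hp k (hS hk))

open Classical in
theorem dens_pos {c : ℝ} (hc : 0 < c) (H : HA c) (K : ℕ) (hK : 3 ≤ K) :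
    c / 2 * √((K : ℝ) / Real.log K) ≤
      (((Od K).filter fun k => UD {p | ¬ Dv p k} (1 / K)).card : ℝ) + 2 := by
  have h2 : (0 : ℝ) < K := by exact_mod_cast (by omega : 0 < K)
  set T := (Od K).filter fun k => ¬ UD {p | ¬ Dv p k} (1 / K) with hT
  have hex : ∀ k ∈ T, ∃ X0 : ℕ, ∀ X, X0 ≤ X →
      (cnt {p | ¬ Dv p k} X : ℝ) ≤ 1 / K * (cnt Set.univ X : ℝ) := by
    intro k hk
    rw [hT, mem_filter] at hk
    have h3 := hk.2
    unfold UD at h3
    push Not at h3
    obtain ⟨X0, h4⟩ := h3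
    exact ⟨X0, fun X hX => (h4 X hX).le⟩
  choose! X0 hX0 using hex
  have hUD : UD {p | ∀ k ∈ T, Dv p k} (1 / 2) := by
    intro Y
    refine ⟨max Y (T.sup X0), le_max_left _ _, ?_⟩
    set X := max Y (T.sup X0) with hX
    have hcomp : ({p | ∀ k ∈ T, Dv p k} : Set ℕ)ᶜ = ⋃ k ∈ T, {p | ¬ Dv p k} := by
      ext p
      simp only [Set.mem_compl_iff, Set.mem_ofPred_eq, Set.mem_iUnion, exists_prop]
      push Not
      rfl
    have h3 := cnt_compl {p | ∀ k ∈ T, Dv p k} X
    have h4 : (cnt ({p | ∀ k ∈ T, Dv p k} : Set ℕ)ᶜ X : ℝ) ≤ 1 / 2 * (cnt Set.univ X : ℝ) := by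
      rw [hcomp]
      have h5 : (cnt (⋃ k ∈ T, {p | ¬ Dv p k}) X : ℝ) ≤
          ∑ k ∈ T, (cnt {p | ¬ Dv p k} X : ℝ) := by
        exact_mod_cast cnt_biUnion T (fun k => {p | ¬ Dv p k}) X
      refine h5.trans ?_
      have h6 : ∑ k ∈ T, (cnt {p | ¬ Dv p k} X : ℝ) ≤
          ∑ _k ∈ T, 1 / (K : ℝ) * (cnt Set.univ X : ℝ) := by
        refine Finset.sum_le_sum fun k hk => hX0 k hk X ?_
        exact (Finset.le_sup hk).trans (le_max_right _ _)
      refine h6.trans ?_
      rw [Finset.sum_const, nsmul_eq_mul]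
      have h7 : T.card ≤ (Od K).card := Finset.card_le_card (Finset.filter_subset _ _)
      have h8 := bcons_card K
      have h9 : (2 : ℝ) * T.card ≤ K := by exact_mod_cast (by omega : 2 * T.card ≤ K)
      have h10 : (0 : ℝ) ≤ cnt Set.univ X := Nat.cast_nonneg _
      have h11 : (T.card : ℝ) * (1 / K) ≤ 1 / 2 := by
        rw [mul_one_div, div_le_div_iff₀ h2 (by norm_num)]
        linarith
      calc (T.card : ℝ) * (1 / K * (cnt Set.univ X : ℝ))
          = (T.card : ℝ) * (1 / K) * (cnt Set.univ X : ℝ) := by ring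
        _ ≤ 1 / 2 * (cnt Set.univ X : ℝ) := mul_le_mul_of_nonneg_right h11 h10
    have h12 : (cnt {p | ∀ k ∈ T, Dv p k} X : ℝ) + (cnt ({p | ∀ k ∈ T, Dv p k} : Set ℕ)ᶜ X : ℝ) =
        (cnt Set.univ X : ℝ) := by exact_mod_cast h3
    linarith
  obtain ⟨S, hS, hcard, hB⟩ := H _ _ (by norm_num : (0 : ℝ) < 1 / 2) hUD K hK
  have hsub : S ⊆ (Od K).filter fun k => UD {p | ¬ Dv p k} (1 / K) := by
    intro k hk
    rw [mem_filter]
    refine ⟨hS hk, ?_⟩
    by_contra hn
    have hk3 := bcons_od (hS hk)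
    obtain ⟨p, hp, -, hd⟩ := bcons_rem hB hk (by omega)
    apply hd
    refine hp k ?_
    rw [hT, mem_filter]
    exact ⟨hS hk, hn⟩
  have h13 : (S.card : ℝ) ≤
      (((Od K).filter fun k => UD {p | ¬ Dv p k} (1 / K)).card : ℝ) := by
    exact_mod_cast Finset.card_le_card hsub
  have h14 : c * (1 / 2) * √((K : ℝ) / Real.log K) = c / 2 * √((K : ℝ) / Real.log K) := by ring
  rw [h14] at hcard
  linarith

private theorem bcons_large (M : ℝ) (K1 : ℕ) : ∃ K : ℕ, K1 ≤ K ∧ 3 ≤ K ∧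
    M < √((K : ℝ) / Real.log K) := by
  obtain ⟨n, hn⟩ := exists_nat_gt (4 * M ^ 4)
  refine ⟨max (max K1 3) n, ?_, ?_, ?_⟩
  · exact (le_max_left _ _).trans (le_max_left _ _)
  · exact (le_max_right _ _).trans (le_max_left _ _)
  · set K := max (max K1 3) n with hKdef
    have hK3 : 3 ≤ K := (le_max_right _ _).trans (le_max_left _ _)
    have hKn : n ≤ K := le_max_right _ _
    have hpos : (0 : ℝ) < K := by exact_mod_cast (by omega : 0 < K)
    have hlog := bcons_log hK3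
    have hs : 0 < √(K : ℝ) := Real.sqrt_pos.2 hpos
    have h1 : Real.log K ≤ 2 * √(K : ℝ) := by
      have h2 : Real.log K = 2 * Real.log √(K : ℝ) := by
        rw [Real.log_sqrt hpos.le]
        ring
      have h3 := Real.log_le_sub_one_of_pos hs
      rw [h2]
      linarith
    have h4 : √(K : ℝ) / 2 ≤ (K : ℝ) / Real.log K := by
      rw [div_le_div_iff₀ (by norm_num) hlog]
      have h5 : √(K : ℝ) * √(K : ℝ) = K := Real.mul_self_sqrt hpos.le
      nlinarith
    have h6 : 4 * M ^ 4 < (K : ℝ) := hn.trans_le (by exact_mod_cast hKn)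
    have h7 : 2 * M ^ 2 < √(K : ℝ) := by
      apply Real.lt_sqrt_of_sq_lt
      have h8 : (2 * M ^ 2) ^ 2 = 4 * M ^ 4 := by ring
      rw [h8]
      exact h6
    apply Real.lt_sqrt_of_sq_lt
    linarith

private theorem bcons_block {c : ℝ} (hc : 0 < c) (H : HA c) (K1 : ℕ) {ε : ℝ} (hε : 0 < ε) :
    ∃ K2 X0 : ℕ, K1 ≤ K2 ∧ ∀ X : ℕ, X0 ≤ X →
      (cnt {p | ∀ k ∈ Od K2, K1 < k → Dv p k} X : ℝ) ≤ ε * (cnt Set.univ X : ℝ) := by
  obtain ⟨K2, hK12, hK3, hlt⟩ := bcons_large (((K1 : ℝ) + 2) / (c * ε)) K1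
  by_contra hcon
  push Not at hcon
  have hUD : UD {p | ∀ k ∈ Od K2, K1 < k → Dv p k} ε := by
    intro X0
    obtain ⟨X, hX, h⟩ := hcon K2 X0 hK12
    exact ⟨X, hX, h.le⟩
  obtain ⟨S, hS, hcard, hB⟩ := H _ _ hε hUD K2 hK3
  rw [div_lt_iff₀ (by positivity)] at hlt
  have h1 : (K1 : ℝ) < S.card := by nlinarith
  have h2 : K1 < S.card := by exact_mod_cast h1
  have h3 : ∃ k ∈ S, K1 < k := by
    by_contra hn
    push Not at hn
    have h4 : S ⊆ Icc 1 K1 := by
      intro k hk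
      rw [mem_Icc]
      have := bcons_od (hS hk)
      exact ⟨by omega, hn k hk⟩
    have h5 := Finset.card_le_card h4
    rw [Nat.card_Icc] at h5
    omega
  obtain ⟨k, hk, hk1⟩ := h3
  obtain ⟨p, hp, -, hd⟩ := bcons_rem hB hk (by omega)
  exact hd (hp k (hS hk) hk1)

private theorem bcons_union (P Q R : Set ℕ) (h : P ⊆ Q ∪ R) (X : ℕ) :
    (cnt P X : ℝ) ≤ cnt Q X + cnt R X := by
  classical
  have h1 : cnt P X ≤ cnt Q X + cnt R X := by
    unfold cnt
    refine le_trans (Finset.card_le_card ?_) (Finset.card_union_le _ _)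
    intro p hp
    rw [mem_filter] at hp
    rw [mem_union, mem_filter, mem_filter]
    rcases h hp.2.1 with h2 | h2
    · exact Or.inl ⟨hp.1, h2, hp.2.2⟩
    · exact Or.inr ⟨hp.1, h2, hp.2.2⟩
  exact_mod_cast h1

open Classical in
theorem dens_many {c : ℝ} (hc : 0 < c) (H : HA c) (s : ℕ) (ε : ℝ) (hε : 0 < ε) :
    ∃ K X0 : ℕ, ∀ X : ℕ, X0 ≤ X →
      (cnt {p | ((Od K).filter fun k => ¬ Dv p k).card ≤ s} X : ℝ) ≤
        ε * (cnt Set.univ X : ℝ) := by
  induction s generalizing ε with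
  | zero =>
    obtain ⟨K2, X0, -, h⟩ := bcons_block hc H 0 hε
    refine ⟨K2, X0, fun X hX => le_trans ?_ (h X hX)⟩
    have := cnt_mono (P := {p | ((Od K2).filter fun k => ¬ Dv p k).card ≤ 0})
      (Q := {p | ∀ k ∈ Od K2, 0 < k → Dv p k}) (by
        intro p hp k hk _
        have hp' : ((Od K2).filter fun k => ¬ Dv p k).card ≤ 0 := hp
        rw [Nat.le_zero, Finset.card_eq_zero] at hp'
        by_contra hn
        have : k ∈ (Od K2).filter fun k => ¬ Dv p k := by
          rw [mem_filter]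
          exact ⟨hk, hn⟩
        rw [hp'] at this
        exact absurd this (Finset.notMem_empty k)) X
    exact_mod_cast this
  | succ s ih =>
    obtain ⟨K1, X1, h1⟩ := ih (ε / 2) (by positivity)
    obtain ⟨K2, X2, hK, h2⟩ := bcons_block hc H K1 (half_pos hε)
    refine ⟨K2, max X1 X2, fun X hX => ?_⟩
    have h3 := bcons_union {p | ((Od K2).filter fun k => ¬ Dv p k).card ≤ s + 1}
      {p | ((Od K1).filter fun k => ¬ Dv p k).card ≤ s}
      {p | ∀ k ∈ Od K2, K1 < k → Dv p k} (by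
        intro p hp
        have hp' : ((Od K2).filter fun k => ¬ Dv p k).card ≤ s + 1 := hp
        by_cases hq : ∀ k ∈ Od K2, K1 < k → Dv p k
        · exact Or.inr hq
        · left
          push Not at hq
          obtain ⟨k, hk, hk1, hkd⟩ := hq
          show ((Od K1).filter fun k => ¬ Dv p k).card ≤ s
          have h4 : (Od K1).filter (fun k => ¬ Dv p k) ⊆
              ((Od K2).filter fun k => ¬ Dv p k).erase k := by
            intro j hj
            rw [mem_filter] at hj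
            rw [mem_erase, mem_filter]
            refine ⟨?_, bcons_od_mono hK hj.1, hj.2⟩
            rintro rfl
            have := bcons_od hj.1
            omega
          have h5 := Finset.card_le_card h4
          have h6 : k ∈ (Od K2).filter fun k => ¬ Dv p k := by
            rw [mem_filter]
            exact ⟨hk, hkd⟩
          rw [Finset.card_erase_of_mem h6] at h5
          omega) X
    have h7 := h1 X ((le_max_left _ _).trans hX)
    have h8 := h2 X ((le_max_right _ _).trans hX)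
    linarith

end Pool.MZFin
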