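import Pool.Agent.Lib.MZFin.BFz

/-! Bernoulli theorem, module `BSpan` (230 lines): the dimension and independent sets of Bernoulli classes.

PROOF. `BInd P ∅` holds: `c 0 ≠ 0`, take `p ∈ P` prime with `p > |c 0|` and `p > N`. Let `S ⊆ Od K` have maximal
cardinality among the subsets with `BInd P S` (`Finset.exists_max_image` on the filtered powerset).
(1) For every `k ∈ Od K` there are `r : ℕ → ℚ` and `N` with, for all primes `p ∈ P`, `p > N`:
`rc p (bernoulli (p-k)) = rc p (r 0) + ∑_(j ∈ S) rc p (r j) * rc p (bernoulli (p-j))`. If `k ∈ S`: `r` = indicator of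
`k` (`r 0 = 0`; `0 ∉ S`). If `k ∉ S`: `insert k S` is not independent (maximality): there are `c`, `N` with
`p ∣ (c 0 + ∑_(j ∈ insert k S) c j B_(p-j)).num` for all primes `p ∈ P`, `p > N`, and `c ≠ 0` on `{0} ∪ insert k S`.
`c k ≠ 0` because of `BInd P S`. By `rc_zero_iff`, `rc_sum'`, `rc_mul'`, `bern_PI` (`p - j + 1 < p` as `j ≥ 2`) this is
`c 0 + ∑_(j ∈ insert k S) c j rc p (B_(p-j)) = 0` in `ZMod p`; divide by `c k` (`p > |c k|`), `r j = - c j / c k`
(`PI_div`, or `PI_ev`).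
(2) For every word `l ∈ W2 K` there is such an `r` for `fz p l`: `l = []`: `fz = 1`, `r = indicator of 0`;
`l = [c]`: `r = 0` (`fz_one`); `l = [a,b]`: `fz_two` with `k = a+b ≤ K`: if `k` is odd, `k ≥ 3`, `k ∈ Od K`, multiply the
`r` of (1) by the rational number of `fz_two` (`rc_mul'`, `PI_ev`); if `k` is even, `p - k` is odd and `≥ 3` for large
`p`, `bernoulli (p-k) = 0` (`bernoulli_eq_zero_of_odd` or `bernoulli'_eq_zero_of_odd`; `bernoulli_eq_bernoulli'..`).
(3) `T : (W2 K → ℚ) →ₗ (Option S → ℚ)` (or `({0} ∪ S) → ℚ`), `T c j = ∑_l c l * r_l j`. If `T c = 0` then for large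
`p ∈ P`: `∑_l rc (c l) fz p l = ∑_j (∑_l rc (c l) rc (r_l j)) β_j = ∑_j rc (∑_l c l r_l j) β_j = 0` (`rc_ev_sum`), so
`ker T ≤ Rel P (W2 K)`, and `finrank` of the quotient by `Rel` is at most the one of the quotient by `ker T`
(`Submodule.factor` surjective), which is `finrank (range T) ≤ |S| + 1` (`LinearMap.quotKerEquivRange`). -/

open Finset

namespace Pool.MZFin

private theorem mem_W2' {n : ℕ} {l : List ℕ} :
    l ∈ W2 n ↔ (∀ a ∈ l, 1 ≤ a) ∧ l.sum ≤ n ∧ l.length ≤ 2 := by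
  unfold W2
  rw [mem_filter, mem_Wd, and_assoc]

private def bb (p j : ℕ) : ZMod p := if j = 0 then 1 else rc p (bernoulli (p - j))

private theorem bb_zero (p : ℕ) : bb p 0 = 1 := by simp [bb]

private theorem bb_ne (p : ℕ) {j : ℕ} (hj : j ≠ 0) : bb p j = rc p (bernoulli (p - j)) := by
  simp [bb, hj]

private theorem zero_nmem {S : Finset ℕ} (hS : ∀ k ∈ S, 3 ≤ k) : 0 ∉ S := fun h => by
  have := hS 0 h
  omega

/-- divisibility of the numerator as a linear relation modulo `p` -/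
private theorem dvd_iff {p : ℕ} (hp : p.Prime) (S : Finset ℕ) (hS : ∀ k ∈ S, 3 ≤ k)
    (c : ℕ → ℤ) :
    (p : ℤ) ∣ ((c 0 : ℚ) + ∑ k ∈ S, (c k : ℚ) * bernoulli (p - k)).num ↔
      ∑ j ∈ insert 0 S, (c j : ZMod p) * bb p j = 0 := by
  have h1 : ∀ k ∈ S, PI p (bernoulli (p - k)) := fun k hk =>
    bern_PI hp _ (by
      have h1 := hS k hk
      have h2 := hp.two_le
      omega)
  have h2 : ∀ k ∈ S, PI p ((c k : ℚ) * bernoulli (p - k)) := fun k hk =>
    PI_mul hp (PI_int hp _) (h1 k hk)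
  have h3 : PI p (∑ k ∈ S, (c k : ℚ) * bernoulli (p - k)) := PI_sum hp _ _ h2
  rw [← rc_zero_iff hp (PI_add hp (PI_int hp _) h3), rc_add' hp (PI_int hp _) h3,
    rc_sum' hp _ _ h2, sum_insert (zero_nmem hS), bb_zero, mul_one, rc_intCast]
  have h4 : ∑ k ∈ S, rc p ((c k : ℚ) * bernoulli (p - k)) =
      ∑ k ∈ S, (c k : ZMod p) * bb p k := by
    refine sum_congr rfl fun k hk => ?_
    have h5 := hS k hk
    rw [rc_mul' hp (PI_int hp _) (h1 k hk), rc_intCast, bb_ne p (by omega)]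
  rw [h4]

private def Rep (P : Set ℕ) (S : Finset ℕ) (φ : (p : ℕ) → ZMod p) : Prop :=
  ∃ r : ℕ → ℚ, ∃ N : ℕ, ∀ p ∈ P, p.Prime → N < p →
    φ p = ∑ j ∈ insert 0 S, rc p (r j) * bb p j

private theorem rc_zero (p : ℕ) : rc p 0 = 0 := by simp [rc]

private theorem rc_one (p : ℕ) (hp : p.Prime) : rc p 1 = 1 := by
  have := Fact.mk hp
  simp [rc]

private theorem Rep_bb (P : Set ℕ) (S : Finset ℕ) {k : ℕ} (hk : k ∈ insert 0 S) :
    Rep P S (fun p => bb p k) := by
  refine ⟨fun j => if j = k then 1 else 0, 0, fun p _ hp _ => ?_⟩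
  rw [sum_eq_single k]
  · simp [rc_one p hp]
  · intro j _ hj
    simp [hj, rc_zero]
  · intro h
    exact absurd hk h

private theorem Rep_zero (P : Set ℕ) (S : Finset ℕ) : Rep P S (fun _ => 0) :=
  ⟨fun _ => 0, 0, fun p _ _ _ => by simp [rc_zero]⟩

private theorem Rep_congr {P : Set ℕ} {S : Finset ℕ} {φ ψ : (p : ℕ) → ZMod p} (h : Rep P S φ)
    (N : ℕ) (hN : ∀ p ∈ P, p.Prime → N < p → ψ p = φ p) : Rep P S ψ := by
  obtain ⟨r, M, hM⟩ := h
  exact ⟨r, max N M, fun p hP hp hpp => (hN p hP hp (lt_of_le_of_lt (le_max_left _ _) hpp)).trans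
    (hM p hP hp (lt_of_le_of_lt (le_max_right _ _) hpp))⟩

private theorem Rep_mul {P : Set ℕ} {S : Finset ℕ} {φ : (p : ℕ) → ZMod p} (h : Rep P S φ)
    (q : ℚ) : Rep P S (fun p => rc p q * φ p) := by
  obtain ⟨r, M, hM⟩ := h
  refine ⟨fun j => q * r j, max M (q.den + ∑ j ∈ insert 0 S, (r j).den),
    fun p hP hp hpp => ?_⟩
  have h1 : q.den + ∑ j ∈ insert 0 S, (r j).den < p := lt_of_le_of_lt (le_max_right _ _) hpp
  show rc p q * φ p = ∑ j ∈ insert 0 S, rc p (q * r j) * bb p j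
  rw [hM p hP hp (lt_of_le_of_lt (le_max_left _ _) hpp), mul_sum]
  refine sum_congr rfl fun j hj => ?_
  have h2 : (r j).den ≤ ∑ j ∈ insert 0 S, (r j).den :=
    single_le_sum (f := fun j => (r j).den) (fun _ _ => Nat.zero_le _) hj
  rw [rc_mul' hp (PI_ev q p hp (by omega)) (PI_ev (r j) p hp (by omega))]
  ring

private theorem BInd_empty (P : Set ℕ) (hP : ∀ N : ℕ, ∃ p ∈ P, N < p ∧ p.Prime) : BInd P ∅ := by
  intro c hc N
  have h0 : c 0 ≠ 0 := by
    rcases hc with h | ⟨k, hk, _⟩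
    · exact h
    · simp at hk
  obtain ⟨p, hpP, h1, hp⟩ := hP (N + (c 0).natAbs)
  refine ⟨p, hpP, by omega, hp, ?_⟩
  rw [sum_empty, add_zero, Rat.num_intCast]
  intro h2
  have h3 := Int.natAbs_dvd_natAbs.2 h2
  have h4 := Nat.le_of_dvd (Int.natAbs_pos.2 h0) h3
  simp only [Int.natAbs_natCast] at h4
  omega

private theorem Rep_of_not {P : Set ℕ} {S : Finset ℕ} (hS : ∀ k ∈ S, 3 ≤ k) (hi : BInd P S)
    {k : ℕ} (hk : 3 ≤ k) (hkS : k ∉ S) (hn : ¬ BInd P (insert k S)) :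
    Rep P S (fun p => bb p k) := by
  have hS' : ∀ j ∈ insert k S, 3 ≤ j := by
    intro j hj
    rcases mem_insert.1 hj with rfl | h
    · exact hk
    · exact hS j h
  unfold BInd at hn
  push Not at hn
  obtain ⟨c, hc, N, hN⟩ := hn
  have hk0 : (0 : ℕ) ≠ k := by omega
  have hck : c k ≠ 0 := by
    intro h0
    have h1 : c 0 ≠ 0 ∨ ∃ j ∈ S, c j ≠ 0 := by
      rcases hc with h | ⟨j, hj, h⟩
      · exact Or.inl h
      · rcases mem_insert.1 hj with rfl | h'
        · exact absurd h0 h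
        · exact Or.inr ⟨j, h', h⟩
    obtain ⟨p, hpP, hNp, hp, hnd⟩ := hi c h1 N
    apply hnd
    have h2 := hN p hpP hNp hp
    rwa [sum_insert hkS, h0, Int.cast_zero, zero_mul, zero_add] at h2
  refine ⟨fun j => -(c j : ℚ) / (c k : ℚ), max N ((c k).natAbs +
    ∑ j ∈ insert 0 S, (-(c j : ℚ) / (c k : ℚ)).den), fun p hpP hp hpp => ?_⟩
  have h1 : N < p := lt_of_le_of_lt (le_max_left _ _) hpp
  have h2 : (c k).natAbs + ∑ j ∈ insert 0 S, (-(c j : ℚ) / (c k : ℚ)).den < p :=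
    lt_of_le_of_lt (le_max_right _ _) hpp
  have hF := Fact.mk hp
  have hckp : (c k : ZMod p) ≠ 0 := by
    intro h
    rw [ZMod.intCast_zmod_eq_zero_iff_dvd] at h
    have h3 := Int.natAbs_dvd_natAbs.2 h
    have h4 := Nat.le_of_dvd (Int.natAbs_pos.2 hck) h3
    simp only [Int.natAbs_natCast] at h4
    omega
  have h3 := (dvd_iff hp _ hS' c).1 (hN p hpP h1 hp)
  show bb p k = ∑ j ∈ insert 0 S, rc p (-(c j : ℚ) / (c k : ℚ)) * bb p j
  rw [Finset.insert_comm, sum_insert (by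
    rw [mem_insert, not_or]
    exact ⟨by omega, hkS⟩)] at h3
  apply mul_left_cancel₀ hckp
  rw [eq_neg_of_add_eq_zero_left h3, mul_sum, ← sum_neg_distrib]
  refine sum_congr rfl fun j hj => ?_
  have h4 : (-(c j : ℚ) / (c k : ℚ)).den ≤ ∑ j ∈ insert 0 S, (-(c j : ℚ) / (c k : ℚ)).den :=
    single_le_sum (f := fun j => (-(c j : ℚ) / (c k : ℚ)).den) (fun _ _ => Nat.zero_le _) hj
  have h5 : (c k : ZMod p) * rc p (-(c j : ℚ) / (c k : ℚ)) = -(c j : ZMod p) := by
    have hq : (c k : ℚ) ≠ 0 := by exact_mod_cast hck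
    have h6 : (c k : ℚ) * (-(c j : ℚ) / (c k : ℚ)) = ((-(c j) : ℤ) : ℚ) := by
      push_cast
      field_simp
    rw [← rc_intCast p (c k), ← rc_mul' hp (PI_int hp _) (PI_ev _ p hp (by omega)), h6,
      rc_intCast, Int.cast_neg]
  rw [← mul_assoc, h5]
  ring

theorem dimF_le_ind (P : Set ℕ) (hP : ∀ N : ℕ, ∃ p ∈ P, N < p ∧ p.Prime) (K : ℕ) :
    ∃ S : Finset ℕ, S ⊆ Od K ∧ BInd P S ∧ dimF P (W2 K) ≤ S.card + 1 := by
  classical
  obtain ⟨S, hS, hmax⟩ := exists_max_image ((Od K).powerset.filter (BInd P)) card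
    ⟨∅, mem_filter.2 ⟨mem_powerset.2 (empty_subset _), BInd_empty P hP⟩⟩
  rw [mem_filter, mem_powerset] at hS
  obtain ⟨hSO, hi⟩ := hS
  have hOd : ∀ k, k ∈ Od K ↔ 3 ≤ k ∧ k ≤ K ∧ k % 2 = 1 := by
    intro k
    unfold Od
    rw [mem_filter, mem_Icc]
    tauto
  have hS3 : ∀ k ∈ S, 3 ≤ k := fun k hk => ((hOd k).1 (hSO hk)).1
  refine ⟨S, hSO, hi, ?_⟩
  -- step (1)
  have step1 : ∀ k ∈ Od K, Rep P S (fun p => bb p k) := by
    intro k hk
    by_cases hkS : k ∈ S
    · exact Rep_bb P S (mem_insert_of_mem hkS)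
    · refine Rep_of_not hS3 hi ((hOd k).1 hk).1 hkS fun hb => ?_
      have h1 := hmax (insert k S) (mem_filter.2 ⟨mem_powerset.2 (insert_subset hk hSO), hb⟩)
      rw [card_insert_of_notMem hkS] at h1
      omega
  -- step (2)
  have step2 : ∀ l : W2 K, Rep P S (fun p => fz p (l : List ℕ)) := by
    rintro ⟨l, hl⟩
    obtain ⟨h1, h2, h3⟩ := mem_W2'.1 hl
    match l, h1, h2, h3 with
    | [], _, _, _ =>
      refine Rep_congr (Rep_bb P S (mem_insert_self 0 S)) 0 fun p _ _ _ => ?_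
      simp only [fz_nil, bb_zero]
    | [c], h1, h2, _ =>
      refine Rep_congr (Rep_zero P S) (c + 1) fun p _ hp hpc => ?_
      exact fz_one hp c (h1 c (by simp)) hpc
    | [a, b], h1, h2, _ =>
      have ha : 1 ≤ a := h1 a (by simp)
      have hb : 1 ≤ b := h1 b (by simp)
      have hab : a + b ≤ K := by simpa using h2
      by_cases hodd : (a + b) % 2 = 1
      · have hk : a + b ∈ Od K := (hOd _).2 ⟨by omega, hab, hodd⟩
        refine Rep_congr (Rep_mul (step1 _ hk)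
          ((-1) ^ a * ((a + b).choose a : ℚ) / ((a + b : ℕ) : ℚ))) (a + b + 1)
          fun p _ hp hpc => ?_
        simp only
        rw [fz_two hp a b ha hb hpc, bb_ne p (by omega)]
      · refine Rep_congr (Rep_zero P S) (a + b + 3) fun p _ hp hpc => ?_
        simp only
        rw [fz_two hp a b ha hb (by omega)]
        have hpo : p % 2 = 1 := by
          rcases hp.eq_two_or_odd with h | h
          · omega
          · exact h
        have h0 : bernoulli (p - (a + b)) = 0 := by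
          apply bernoulli_eq_zero_of_odd
          · rw [Nat.odd_iff]
            omega
          · omega
        rw [h0, rc_zero, mul_zero]
    | _ :: _ :: _ :: _, _, _, h3 =>
      simp at h3
  choose r N hN using step2
  replace hN : ∀ (l : W2 K), ∀ p ∈ P, p.Prime → N l < p →
      fz p (l : List ℕ) = ∑ j ∈ insert 0 S, rc p (r l j) * bb p j := hN
  -- step (3)
  let T : (W2 K → ℚ) →ₗ[ℚ] (↥(insert 0 S) → ℚ) :=
    Fintype.linearCombination ℚ (fun (l : W2 K) (j : ↥(insert 0 S)) => r l j)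
  have hker : LinearMap.ker T ≤ Rel P (W2 K) := by
    intro c hc
    rw [LinearMap.mem_ker] at hc
    have hc' : ∀ j : ↥(insert 0 S), ∑ l : W2 K, c l * r l j = 0 := by
      intro j
      have h := congrFun hc j
      simpa [T, Fintype.linearCombination_apply, Finset.sum_apply] using h
    obtain ⟨M, hM⟩ := rc_ev_sum c (fun (l : W2 K) (j : ↥(insert 0 S)) => r l j)
    rw [mem_Rel]
    refine ⟨M + ∑ l : W2 K, N l, fun p hpP hp hpp => ?_⟩
    have h1 : ∀ l : W2 K, rc p (c l) * fz p (l : List ℕ) =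
        ∑ j : ↥(insert 0 S), rc p (c l) * rc p (r l j) * bb p j := by
      intro l
      have h2 : N l ≤ ∑ l : W2 K, N l :=
        single_le_sum (f := fun l : W2 K => N l) (fun _ _ => Nat.zero_le _) (mem_univ l)
      rw [hN l p hpP hp (by omega), mul_sum, ← sum_coe_sort]
      exact sum_congr rfl fun j _ => (mul_assoc _ _ _).symm
    rw [sum_congr rfl fun l _ => h1 l, sum_comm]
    refine sum_eq_zero fun j _ => ?_
    rw [← sum_mul, ← hM p hp (by omega) j, hc' j, rc_zero, zero_mul]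
  have e1 := Submodule.finrank_quotient_add_finrank (Rel P (W2 K))
  have e2 := LinearMap.finrank_range_add_finrank_ker T
  have e3 := Submodule.finrank_mono hker
  have e4 := Submodule.finrank_le (LinearMap.range T)
  have e5 : Module.finrank ℚ (↥(insert 0 S) → ℚ) ≤ S.card + 1 := by
    rw [Module.finrank_fintype_fun_eq_card, Fintype.card_coe]
    exact card_insert_le _ _
  unfold dimF
  omega

end Pool.MZFin
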