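import Pool.Agent.Lib.MZFin.BAsy
import Pool.Agent.Lib.MZFin.BSpan
import Pool.Agent.Lib.MZFin.BCons

/-! Bernoulli theorem: from the reduction `HBern` to the statement (A). -/

open Finset

namespace Pool.MZFin

theorem bern_HA {mom : (List ℕ → ℚ) → List ℕ → List ℕ → ℕ → ℚ} (hm : HBern mom) :
    HA (1 / 640) := by
  intro P δ hδ hP K hK
  obtain ⟨S, hS, hI, hd⟩ := dimF_le_ind P (UD_inf P δ hδ hP) K
  refine ⟨S, hS, ?_, hI⟩
  have h1 := bern_dim hm P (1 / 8 * δ) (by positivity) (UT_of_UD P δ hδ hP) K hK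
  have h2 : (dimF P (W2 K) : ℝ) ≤ (S.card : ℝ) + 1 := by exact_mod_cast hd
  calc 1 / 640 * δ * √((K : ℝ) / Real.log K)
      = 1 / 80 * (1 / 8 * δ) * √((K : ℝ) / Real.log K) := by ring
    _ ≤ (dimF P (W2 K) : ℝ) + 1 := h1
    _ ≤ (S.card : ℝ) + 2 := by linarith

end Pool.MZFin
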