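import Pool.Agent.Lib.MZFin.BDefs

/-! Bernoulli theorem, module `BSize` (130 lines): size of the denominator.

PROOF. `1 ≤ lcmUpto` (`Nat.lcmUpto_pos`). `log (E2 n m) = 2 ψ(m) + ∑_(i<n) ψ(m/(i+1))` (natural division,
`Chebyshev.psi_eq_log_lcmUpto`, `Real.log_mul`, `Real.log_prod`, `Real.log_pow`). `Chebyshev.psi_le`:
`ψ x ≤ log 4 * x + 2 √x log x` for `x ≥ 1` (and `ψ 0 = 0`); for `1 ≤ y = m/(i+1) ≤ m` (as a real number
`y ≤ m/(i+1)`) this is at most `log 4 * m/(i+1) + 2 √m log m`. So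
`log (E2 n m) ≤ log 4 * m * (2 + ∑_(i<n) 1/(i+1)) + (n+2) * 2 √m log m`,
`∑_(i<n) 1/(i+1) = harmonic n ≤ 1 + log n` (`harmonic_le_one_add_log`), and
`(n+2) * 2 √m log m ≤ log 4 * m` for large `m` (`log m / √m → 0`: `isLittleO_log_rpow_atTop`, or
`Real.log m ≤ 4 m^(1/4)`). Exponentiate (`Real.log_le_iff_le_exp`). -/

open Finset

namespace Pool.MZFin

theorem one_le_E2 (n m : ℕ) : 1 ≤ E2 n m := by
  unfold E2 dq
  refine Nat.mul_pos (Nat.pow_pos (Nat.lcmUpto_pos m)) (Finset.prod_pos fun i _ => ?_)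
  exact Nat.lcmUpto_pos _

private theorem bsize_log {m : ℕ} (hm : 1 ≤ m) (i : ℕ) :
    Real.log (Nat.lcmUpto (m / (i + 1)) : ℕ) ≤
      Real.log 4 * m * ((i : ℝ) + 1)⁻¹ + 2 * Real.sqrt m * Real.log m := by
  have hm1 : (1 : ℝ) ≤ m := by exact_mod_cast hm
  have hlm : 0 ≤ Real.log m := Real.log_nonneg hm1
  have hl4 : 0 ≤ Real.log 4 := Real.log_nonneg (by norm_num)
  have hi : (0 : ℝ) ≤ (i : ℝ) := Nat.cast_nonneg i
  rw [← Chebyshev.psi_eq_log_lcmUpto]
  rcases Nat.eq_zero_or_pos (m / (i + 1)) with h0 | h0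
  · rw [h0, Nat.cast_zero, Chebyshev.psi_eq_zero_of_lt_two (by norm_num)]
    positivity
  · have h1 : (1 : ℝ) ≤ ((m / (i + 1) : ℕ) : ℝ) := by exact_mod_cast h0
    have h2 : ((m / (i + 1) : ℕ) : ℝ) ≤ m * ((i : ℝ) + 1)⁻¹ := by
      have := @Nat.cast_div_le ℝ _ _ _ m (i + 1)
      push_cast at this
      rwa [div_eq_mul_inv] at this
    have h3 : ((m / (i + 1) : ℕ) : ℝ) ≤ m := by exact_mod_cast Nat.div_le_self m (i + 1)
    refine (Chebyshev.psi_le h1).trans (add_le_add ?_ ?_)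
    · rw [mul_assoc]
      exact mul_le_mul_of_nonneg_left h2 hl4
    · have h4 : Real.sqrt ((m / (i + 1) : ℕ) : ℝ) ≤ Real.sqrt m := Real.sqrt_le_sqrt h3
      have h5 : Real.log ((m / (i + 1) : ℕ) : ℝ) ≤ Real.log m :=
        Real.log_le_log (by linarith) h3
      have h6 : 0 ≤ Real.log ((m / (i + 1) : ℕ) : ℝ) := Real.log_nonneg h1
      exact mul_le_mul (mul_le_mul_of_nonneg_left h4 (by norm_num)) h5 h6 (by positivity)

theorem E2_le (n : ℕ) (hn : 1 ≤ n) : ∃ m0 : ℕ, ∀ m : ℕ, m0 ≤ m →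
    (E2 n m : ℝ) ≤ Real.exp (Real.log 4 * (Real.log n + 4) * m) := by
  have hl4 : 0 < Real.log 4 := Real.log_pos (by norm_num)
  have hc : 0 < Real.log 4 / (2 * ((n : ℝ) + 2)) := by positivity
  have h1 := (isLittleO_log_rpow_atTop (show (0 : ℝ) < 1 / 2 by norm_num)).def hc
  have h2 := (tendsto_natCast_atTop_atTop (R := ℝ)).eventually h1
  obtain ⟨m1, hm1⟩ := Filter.eventually_atTop.1 h2
  refine ⟨max m1 1, fun m hm => ?_⟩
  have hmm1 : m1 ≤ m := (le_max_left _ _).trans hm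
  have hm1' : 1 ≤ m := (le_max_right _ _).trans hm
  have hmr : (1 : ℝ) ≤ m := by exact_mod_cast hm1'
  have h3 := hm1 m hmm1
  rw [Real.norm_eq_abs, Real.norm_eq_abs, abs_of_nonneg (Real.log_nonneg hmr),
    abs_of_nonneg (Real.rpow_nonneg (by linarith) _), ← Real.sqrt_eq_rpow] at h3
  have hE : 0 < (E2 n m : ℝ) := by exact_mod_cast one_le_E2 n m
  rw [← Real.log_le_iff_le_exp hE]
  have hlog : Real.log (E2 n m) = 2 * Real.log (Nat.lcmUpto m : ℕ) +
      ∑ i ∈ range n, Real.log (Nat.lcmUpto (m / (i + 1)) : ℕ) := by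
    unfold E2 dq
    have a1 : ((Nat.lcmUpto m : ℕ) : ℝ) ≠ 0 := by exact_mod_cast Nat.lcmUpto_ne_zero m
    have a2 : ∀ i ∈ range n, ((Nat.lcmUpto (m / (i + 1)) : ℕ) : ℝ) ≠ 0 := fun i _ => by
      exact_mod_cast Nat.lcmUpto_ne_zero _
    push_cast
    rw [Real.log_mul (pow_ne_zero 2 a1) (Finset.prod_ne_zero_iff.2 a2), Real.log_pow,
      Real.log_prod a2]
    push_cast
    ring
  rw [hlog]
  have h4 : Real.log (Nat.lcmUpto m : ℕ) ≤ Real.log 4 * m + 2 * Real.sqrt m * Real.log m := by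
    have := bsize_log hm1' 0
    simpa using this
  have h5 : ∑ i ∈ range n, Real.log (Nat.lcmUpto (m / (i + 1)) : ℕ) ≤
      Real.log 4 * m * (1 + Real.log n) + n * (2 * Real.sqrt m * Real.log m) := by
    refine (Finset.sum_le_sum fun i _ => bsize_log hm1' i).trans ?_
    rw [Finset.sum_add_distrib, Finset.sum_const, card_range, nsmul_eq_mul, ← Finset.mul_sum]
    refine add_le_add_left (mul_le_mul_of_nonneg_left ?_ (by positivity)) _
    have h6 := harmonic_le_one_add_log n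
    have h7 : ((harmonic n : ℚ) : ℝ) = ∑ i ∈ range n, ((i : ℝ) + 1)⁻¹ := by
      unfold harmonic
      push_cast
      rfl
    rw [← h7]
    exact h6
  have h8 : ((n : ℝ) + 2) * (2 * Real.sqrt m * Real.log m) ≤ Real.log 4 * m := by
    have h9 : Real.sqrt m * Real.log m ≤
        Real.sqrt m * (Real.log 4 / (2 * ((n : ℝ) + 2)) * Real.sqrt m) :=
      mul_le_mul_of_nonneg_left h3 (Real.sqrt_nonneg _)
    have h10 : Real.sqrt m * Real.sqrt m = m := Real.mul_self_sqrt (by linarith)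
    calc ((n : ℝ) + 2) * (2 * Real.sqrt m * Real.log m)
        = 2 * ((n : ℝ) + 2) * (Real.sqrt m * Real.log m) := by ring
      _ ≤ 2 * ((n : ℝ) + 2) * (Real.sqrt m * (Real.log 4 / (2 * ((n : ℝ) + 2)) * Real.sqrt m)) :=
        mul_le_mul_of_nonneg_left h9 (by positivity)
      _ = Real.log 4 * (Real.sqrt m * Real.sqrt m) := by
        field_simp
      _ = Real.log 4 * m := by rw [h10]
  nlinarith [h4, h5, h8]

end Pool.MZFin
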