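import Mathlib

/-! MP_c511df_nt, finite multiple zeta values, module `PChb` (120 lines, ONLY MATHLIB): Chebyshev
bounds.

PROOF. `lcm_exp`: `Chebyshev.psi_eq_log_lcmUpto`, `Chebyshev.psi_le : ψ x ≤ log 4 * x + 2 √x log x`
(`x ≥ 1`), and `2 √m log m ≤ ε m` for large `m` (`Real.isLittleO_log_id_atTop`-type lemma, or
`isLittleO_log_rpow_atTop`, composed with `tendsto_natCast_atTop_atTop`; `m = √m * √m`).
`prod_pow_self`: every `p ∈ Q` is `≤ n`, so `∏ p^p ≤ ∏ p^n = (∏ p)^n ≤ (primorial n)^n ≤ (4^n)^n`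
(`Finset.prod_le_prod_of_subset_of_one_le'`, `primorial_le_4_pow`, `Finset.prod_pow`).
`log_prod`: `log ∏ = ∑ log` (`Real.log_prod`), the primes of `P` up to `n` are those `≤ m` and those in
`(m, n]`; the sum over those `≤ m` is at most `θ m ≤ log 4 * m` (`Chebyshev.theta_le_log4_mul_x`,
`Chebyshev.theta_eq_sum_Icc`; the filter with `p ∈ P` is a subset, terms `≥ 0`); if `m > n` the
statement follows from `θ n ≤ log 4 * n` in the same way (the product is empty, `log 1 = 0`).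
`theta_freq`: `Chebyshev.theta_ge n : n log 2 - log (n+1) - 2 √n log n ≤ θ n`. -/

open Finset

namespace Pool.MZFin

private theorem pchb_sqrt_log (c : ℝ) (hc : 0 < c) : ∃ m0 : ℕ, ∀ m : ℕ, m0 ≤ m →
    2 * Real.sqrt m * Real.log m ≤ c * m := by
  have h := (isLittleO_log_rpow_atTop (r := 1 / 2) (by norm_num)).def
    (show (0 : ℝ) < c / 2 by positivity)
  have h2 := (tendsto_natCast_atTop_atTop (R := ℝ)).eventually h
  obtain ⟨m0, hm0⟩ := Filter.eventually_atTop.1 h2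
  refine ⟨max m0 1, fun m hm => ?_⟩
  have hm1 : 1 ≤ m := le_trans (le_max_right _ _) hm
  have hm0' := hm0 m (le_trans (le_max_left _ _) hm)
  have hlog : 0 ≤ Real.log (m : ℝ) := Real.log_nonneg (by exact_mod_cast hm1)
  rw [Real.norm_eq_abs, Real.norm_eq_abs, abs_of_nonneg hlog,
    ← Real.sqrt_eq_rpow, abs_of_nonneg (Real.sqrt_nonneg _)] at hm0'
  have hs : Real.sqrt (m : ℝ) * Real.sqrt (m : ℝ) = m := Real.mul_self_sqrt (Nat.cast_nonneg _)
  have hsn : 0 ≤ Real.sqrt (m : ℝ) := Real.sqrt_nonneg _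
  calc 2 * Real.sqrt m * Real.log m ≤ 2 * Real.sqrt m * (c / 2 * Real.sqrt m) := by
        exact mul_le_mul_of_nonneg_left hm0' (by positivity)
    _ = c * (Real.sqrt m * Real.sqrt m) := by ring
    _ = c * m := by rw [hs]

private theorem pchb_theta (n : ℕ) :
    Chebyshev.theta (n : ℝ) = ∑ p ∈ (range (n + 1)).filter (fun p => p.Prime), Real.log p := by
  rw [Chebyshev.theta_eq_sum_Icc, Nat.floor_natCast]
  refine Finset.sum_congr ?_ fun _ _ => rfl
  ext p
  simp only [mem_filter, mem_Icc, mem_range]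
  constructor
  · rintro ⟨⟨_, h⟩, hp⟩
    exact ⟨by omega, hp⟩
  · rintro ⟨h, hp⟩
    exact ⟨⟨by omega, by omega⟩, hp⟩

theorem lcm_exp (ε : ℝ) (hε : 0 < ε) : ∃ m0 : ℕ, ∀ m : ℕ, m0 ≤ m →
    ((Nat.lcmUpto m : ℕ) : ℝ) ≤ Real.exp ((Real.log 4 + ε) * m) := by
  obtain ⟨m0, hm0⟩ := pchb_sqrt_log ε hε
  refine ⟨max m0 1, fun m hm => ?_⟩
  have hm1 : 1 ≤ m := le_trans (le_max_right _ _) hm
  have h1 := hm0 m (le_trans (le_max_left _ _) hm)
  have h2 := Chebyshev.psi_le (x := (m : ℝ)) (by exact_mod_cast hm1)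
  rw [Chebyshev.psi_eq_log_lcmUpto] at h2
  have hpos : (0 : ℝ) < ((Nat.lcmUpto m : ℕ) : ℝ) := by
    exact_mod_cast Nat.pos_of_ne_zero (Nat.lcmUpto_ne_zero m)
  rw [← Real.log_le_iff_le_exp hpos]
  linarith [h1, h2]

theorem prod_pow_self (Q : Finset ℕ) (n : ℕ) (hQ : ∀ p ∈ Q, p.Prime ∧ p ≤ n) :
    ∏ p ∈ Q, p ^ p ≤ 4 ^ (n * n) := by
  have hsub : Q ⊆ (range (n + 1)).filter (fun p => p.Prime) := by
    intro p hp
    obtain ⟨h1, h2⟩ := hQ p hp
    exact mem_filter.2 ⟨mem_range.2 (by omega), h1⟩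
  calc ∏ p ∈ Q, p ^ p ≤ ∏ p ∈ Q, p ^ n :=
        Finset.prod_le_prod' fun p hp => Nat.pow_le_pow_right (hQ p hp).1.pos (hQ p hp).2
    _ = (∏ p ∈ Q, p) ^ n := Finset.prod_pow Q n fun p => p
    _ ≤ (primorial n) ^ n := by
        refine Nat.pow_le_pow_left ?_ n
        refine Finset.prod_le_prod_of_subset_of_one_le' hsub fun p hp _ => ?_
        exact (mem_filter.1 hp).2.one_lt.le
    _ ≤ (4 ^ n) ^ n := Nat.pow_le_pow_left (primorial_le_four_pow n) n
    _ = 4 ^ (n * n) := by rw [← pow_mul]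

open Classical in
theorem log_prod (P : Set ℕ) (m n : ℕ) :
    (∑ p ∈ (range (n + 1)).filter (fun p => p ∈ P ∧ p.Prime), Real.log p) - Real.log 4 * m ≤
      Real.log ((∏ p ∈ (range (n + 1)).filter (fun p => p ∈ P ∧ p.Prime ∧ m < p), p : ℕ) : ℝ) := by
  have hprod : Real.log ((∏ p ∈ (range (n + 1)).filter (fun p => p ∈ P ∧ p.Prime ∧ m < p), p :
      ℕ) : ℝ) = ∑ p ∈ (range (n + 1)).filter (fun p => p ∈ P ∧ p.Prime ∧ m < p), Real.log p := by
    rw [Nat.cast_prod, Real.log_prod]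
    intro p hp
    have := (mem_filter.1 hp).2.2.1.pos
    positivity
  rw [hprod]
  have hle : Chebyshev.theta (m : ℝ) ≤ Real.log 4 * m :=
    Chebyshev.theta_le_log4_mul_x (Nat.cast_nonneg _)
  rw [pchb_theta] at hle
  have hsub : (range (n + 1)).filter (fun p => p ∈ P ∧ p.Prime) ⊆
      (range (n + 1)).filter (fun p => p ∈ P ∧ p.Prime ∧ m < p) ∪
        (range (m + 1)).filter (fun p => p.Prime) := by
    intro p hp
    obtain ⟨h1, h2, h3⟩ := mem_filter.1 hp
    rcases Nat.lt_or_ge m p with h | h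
    · exact mem_union_left _ (mem_filter.2 ⟨h1, h2, h3, h⟩)
    · exact mem_union_right _ (mem_filter.2 ⟨mem_range.2 (by omega), h3⟩)
  have hnn : ∀ p : ℕ, 0 ≤ Real.log (p : ℝ) := fun p => Real.log_natCast_nonneg p
  have h1 : (∑ p ∈ (range (n + 1)).filter (fun p => p ∈ P ∧ p.Prime), Real.log p) ≤
      ∑ p ∈ (range (n + 1)).filter (fun p => p ∈ P ∧ p.Prime ∧ m < p) ∪
        (range (m + 1)).filter (fun p => p.Prime), Real.log p :=
    Finset.sum_le_sum_of_subset_of_nonneg hsub fun p _ _ => hnn p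
  have h2 : (∑ p ∈ (range (n + 1)).filter (fun p => p ∈ P ∧ p.Prime ∧ m < p) ∪
        (range (m + 1)).filter (fun p => p.Prime), Real.log p) ≤
      (∑ p ∈ (range (n + 1)).filter (fun p => p ∈ P ∧ p.Prime ∧ m < p), Real.log p) +
        ∑ p ∈ (range (m + 1)).filter (fun p => p.Prime), Real.log p := by
    rw [← Finset.sum_union_inter]
    exact le_add_of_nonneg_right (Finset.sum_nonneg fun p _ => hnn p)
  linarith [h1, h2, hle]

open Classical in
theorem theta_freq (δ : ℝ) (hδ : δ < Real.log 2) : ∃ n0 : ℕ, ∀ n : ℕ, n0 ≤ n →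
    δ * n ≤ ∑ p ∈ (range (n + 1)).filter (fun p => p ∈ (Set.univ : Set ℕ) ∧ p.Prime),
      Real.log p := by
  obtain ⟨m0, hm0⟩ := pchb_sqrt_log ((Real.log 2 - δ) / 2) (by linarith)
  -- `log (n + 1) ≤ ((log 2 - δ) / 2) n` for large `n`
  have hc : 0 < (Real.log 2 - δ) / 4 := by linarith
  have h := Real.isLittleO_log_id_atTop.def hc
  have h2 := (tendsto_natCast_atTop_atTop (R := ℝ)).eventually h
  obtain ⟨m1, hm1⟩ := Filter.eventually_atTop.1 h2
  refine ⟨max (max m0 m1) 1, fun n hn => ?_⟩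
  have hn1 : 1 ≤ n := le_trans (le_max_right _ _) hn
  have hnm0 : m0 ≤ n := le_trans (le_trans (le_max_left _ _) (le_max_left _ _)) hn
  have hnm1 : m1 ≤ n := le_trans (le_trans (le_max_right _ _) (le_max_left _ _)) hn
  have ha := hm0 n hnm0
  have hb := hm1 (n + 1) (by omega)
  have hn1' : (1 : ℝ) ≤ n := by exact_mod_cast hn1
  have hlog : 0 ≤ Real.log ((n + 1 : ℕ) : ℝ) := Real.log_natCast_nonneg _
  rw [Real.norm_eq_abs, abs_of_nonneg hlog, id, Real.norm_eq_abs,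
    abs_of_nonneg (Nat.cast_nonneg _)] at hb
  have hth := Chebyshev.theta_ge n
  rw [pchb_theta] at hth
  have heq : (range (n + 1)).filter (fun p => p ∈ (Set.univ : Set ℕ) ∧ p.Prime) =
      (range (n + 1)).filter (fun p => p.Prime) := by
    ext p
    simp only [mem_filter, Set.mem_univ, true_and]
  rw [heq]
  push_cast at hb
  have hb2 : (Real.log 2 - δ) / 4 * ((n : ℝ) + 1) ≤ (Real.log 2 - δ) / 2 * n := by
    nlinarith [hc, hn1']
  nlinarith [ha, hb, hth, hb2]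

end Pool.MZFin
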