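import Pool.Agent.Lib.MZFin.PCore
import Pool.Agent.Lib.MZFin.PChb

/-! MP_c511df_nt, finite multiple zeta values, module `PIneq` (180 lines): the main inequality.

PROOF. `η ≥ 0` because `1 ≤ E m ≤ exp (η m)` for one `m ≥ 1`. Put `r = dimF P W`,
`c = log 4 * (x + 1) + (3/2) * η ≥ 0` and suppose `g := δ * κ - (3/2) * log 4 - r * c > 0`. `κ ≥ 1` (if
`κ = 0` then the left side of the claim is negative). Take `C', D0, P0` from `core`. There is `D1` with:
for all `D ≥ D1`: `D ≥ D0`, `D ≥ P0`, `D ≥ 1`, `D + D/2 + 1 ≥ m0` and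
`(1 + r) * log C' + r * log D + δ * κ + log 4 + r * η < g * D` (`log D = o(D)`:
`Real.isLittleO_log_id_atTop`, `tendsto_natCast_atTop_atTop`; or `log D ≤ 2 √D`).
`hP (κ * D1)` gives `X ≥ κ * D1` with `δ X ≤ ∑_(p ∈ P, p ≤ X) log p`. Let `D = X / κ + 1`, so `D ≥ D1`,
`X ≤ κ * D =: n` and `κ * D ≤ X + κ`. `m = D + D/2 + 1 ≥ P0`. `Q = {p ≤ n : p ∈ P, p prime, m < p}`,
`Y = 4^(x D) ≥ 1`. Box condition: `∏ p^p ≤ 4^(n n)` (`prod_pow_self`), `n n = κ^2 D^2 ≤ x |A| D^2`, so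
`4^(n n) ≤ (4^(x D))^(D |A|) < (4^(x D) + 1)^(D |A|)` (`D * |A| ≥ 1`, `[] ∈ A`). `core`:
`∏ p ≤ C' * (C' * D * Y * 4^D * E m)^r`. Logarithms: by `log_prod P m n`, and since the sum over
`p ≤ n` is at least the sum over `p ≤ X` (terms `≥ 0`) `≥ δ X ≥ δ (κ D - κ)`:
`δ κ D - δ κ - log 4 * m ≤ log C' + r * (log C' + log D + x D log 4 + D log 4 + η m)`,
`m ≤ (3/2) D + 1`. So `D * (δ κ - (3/2) log 4 - r c) ≤ δ κ + log 4 + (1 + r) log C' + r log D + r η`:
contradiction to the choice of `D1`. (`Real.log_mul`, `Real.log_pow`, `Real.log_le_log`; the product is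
positive because all `p ∈ Q` are; `log (E m) ≤ η m` from `Real.log_le_iff_le_exp` or `Real.log_exp`.) -/

open Finset

namespace Pool.MZFin

private theorem pineq_asymp (r : ℕ) (K0 g : ℝ) (hg : 0 < g) : ∃ D1 : ℕ, ∀ D : ℕ, D1 ≤ D →
    K0 + (r : ℝ) * Real.log D < g * D := by
  have hr : (0 : ℝ) ≤ r := Nat.cast_nonneg r
  have hc : 0 < g / (2 * ((r : ℝ) + 1)) := by positivity
  have h := Real.isLittleO_log_id_atTop.def hc
  have h2 := (tendsto_natCast_atTop_atTop (R := ℝ)).eventually h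
  obtain ⟨m1, hm1⟩ := Filter.eventually_atTop.1 h2
  obtain ⟨m2, hm2⟩ := exists_nat_gt (2 * K0 / g)
  refine ⟨max m1 m2, fun D hD => ?_⟩
  have h3 := hm1 D ((le_max_left _ _).trans hD)
  rw [Real.norm_eq_abs, abs_of_nonneg (Real.log_natCast_nonneg D), id, Real.norm_eq_abs,
    abs_of_nonneg (Nat.cast_nonneg D)] at h3
  have h4 : (m2 : ℝ) ≤ D := by exact_mod_cast (le_max_right _ _).trans hD
  have h5 : 2 * K0 / g < D := lt_of_lt_of_le hm2 h4
  have h6 : 2 * K0 < D * g := (div_lt_iff₀ hg).mp h5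
  have h7 : (r : ℝ) * Real.log D ≤ g / 2 * D := by
    calc (r : ℝ) * Real.log D ≤ r * (g / (2 * ((r : ℝ) + 1)) * D) :=
          mul_le_mul_of_nonneg_left h3 hr
      _ = (r / ((r : ℝ) + 1)) * (g / 2 * D) := by
          field_simp
      _ ≤ 1 * (g / 2 * D) := by
          refine mul_le_mul_of_nonneg_right ?_ (by positivity)
          rw [div_le_one (by positivity)]
          linarith
      _ = g / 2 * D := one_mul _
  nlinarith [h6, h7]

open Classical in
theorem main_ineq (A B W : Finset (List ℕ)) (hA : TC1 A) (hB : TC1 B)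
    (h4 : 4 * A.card < B.card) (hW : [] ∈ W)
    (mom : (List ℕ → ℚ) → List ℕ → List ℕ → ℕ → ℚ)
    (hmom : ∀ φ : List ℕ → ℚ, φ [] = 1 → (∀ c, 1 ≤ c → φ [c] = 0) → RecM (mom φ))
    (E : ℕ → ℕ) (hE : ∀ m, 1 ≤ E m) (C : ℕ) (h : HRed A B W mom E C) (η : ℝ)
    (hη : ∃ m0 : ℕ, ∀ m : ℕ, m0 ≤ m → (E m : ℝ) ≤ Real.exp (η * m))
    (P : Set ℕ) (δ : ℝ) (hδ : 0 ≤ δ)
    (hP : ∀ X0 : ℕ, ∃ X : ℕ, X0 ≤ X ∧
      δ * X ≤ ∑ p ∈ (range (X + 1)).filter (fun p => p ∈ P ∧ p.Prime), Real.log p)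
    (κ x : ℕ) (hκ : κ ^ 2 ≤ x * A.card) :
    δ * κ - 3 / 2 * Real.log 4 ≤
      (dimF P W : ℝ) * (Real.log 4 * ((x : ℝ) + 1) + 3 / 2 * η) := by
  have hl4 : 0 < Real.log 4 := Real.log_pos (by norm_num)
  have hη0 : 0 ≤ η := by
    obtain ⟨m0, hm0⟩ := hη
    have h1 := hm0 (max m0 1) (le_max_left _ _)
    have h2 : (1 : ℝ) ≤ (E (max m0 1) : ℝ) := by exact_mod_cast hE _
    have h3 : Real.exp 0 ≤ Real.exp (η * ((max m0 1 : ℕ) : ℝ)) := by
      rw [Real.exp_zero]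
      exact h2.trans h1
    have h4 : 0 ≤ η * ((max m0 1 : ℕ) : ℝ) := Real.exp_le_exp.mp h3
    have h5 : (0 : ℝ) < ((max m0 1 : ℕ) : ℝ) := by
      exact_mod_cast lt_of_lt_of_le Nat.zero_lt_one (le_max_right m0 1)
    by_contra hneg
    push Not at hneg
    nlinarith [h4, h5, hneg]
  have hr : (0 : ℝ) ≤ (dimF P W : ℝ) := Nat.cast_nonneg _
  have hx : (0 : ℝ) ≤ (x : ℝ) := Nat.cast_nonneg _
  have hc0 : 0 ≤ Real.log 4 * ((x : ℝ) + 1) + 3 / 2 * η := by positivity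
  by_contra hcon
  push Not at hcon
  have hκ1 : 1 ≤ κ := by
    by_contra hlt
    have hκ0 : κ = 0 := by omega
    rw [hκ0] at hcon
    have h1 : 0 ≤ (dimF P W : ℝ) * (Real.log 4 * ((x : ℝ) + 1) + 3 / 2 * η) :=
      mul_nonneg hr hc0
    simp only [Nat.cast_zero, mul_zero] at hcon
    linarith [h1, hcon, hl4]
  have hA1 : 1 ≤ A.card := by
    by_contra hlt
    have hA0 : A.card = 0 := by omega
    rw [hA0, mul_zero] at hκ
    have h1 : 0 < κ ^ 2 := by positivity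
    omega
  obtain ⟨C', D0, P0, hC', hcore⟩ := core A B W hA hB h4 hW mom hmom E hE C h P
  obtain ⟨m0, hm0⟩ := hη
  set r := dimF P W with hrdef
  set g : ℝ := δ * κ - 3 / 2 * Real.log 4 -
    (r : ℝ) * (Real.log 4 * ((x : ℝ) + 1) + 3 / 2 * η) with hgdef
  have hg : 0 < g := by
    rw [hgdef]
    linarith
  obtain ⟨D1, hD1⟩ := pineq_asymp r (δ * κ + Real.log 4 + (1 + (r : ℝ)) * Real.log C' + r * η) g hg
  obtain ⟨X, hX, hXs⟩ := hP (κ * (D1 + D0 + P0 + m0))
  have hκpos : 0 < κ := hκ1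
  obtain ⟨D, hDdef⟩ : ∃ D, D = X / κ + 1 := ⟨_, rfl⟩
  have hD2 : D1 + D0 + P0 + m0 ≤ X / κ := by
    rw [Nat.le_div_iff_mul_le hκpos, mul_comm]
    exact hX
  have hXle : X ≤ κ * D := by
    have h1 := Nat.lt_div_mul_add (a := X) hκpos
    rw [hDdef]
    have h2 : κ * (X / κ + 1) = X / κ * κ + κ := by ring
    omega
  have hleX : κ * D ≤ X + κ := by
    have h1 := Nat.div_mul_le_self X κ
    rw [hDdef]
    have h2 : κ * (X / κ + 1) = X / κ * κ + κ := by ring
    omega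
  have hDpos : 1 ≤ D := by omega
  obtain ⟨m, hmdef⟩ : ∃ m, m = D + D / 2 + 1 := ⟨_, rfl⟩
  obtain ⟨n, hndef⟩ : ∃ n, n = κ * D := ⟨_, rfl⟩
  have hlog := log_prod P m n
  have hcore2 := hcore D (by omega) (4 ^ (x * D)) (Nat.one_le_pow _ _ (by norm_num))
    ((range (n + 1)).filter (fun p => p ∈ P ∧ p.Prime ∧ m < p)) (by
      intro p hp
      obtain ⟨_, hp1, hp2, hp3⟩ := mem_filter.1 hp
      exact ⟨hp1, hp2, by omega, by omega⟩) (by
      refine lt_of_le_of_lt (prod_pow_self _ n ?_) ?_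
      · intro p hp
        obtain ⟨hp0, _, hp2, _⟩ := mem_filter.1 hp
        exact ⟨hp2, by have := mem_range.1 hp0; omega⟩
      · have h1 : n * n ≤ x * D * (D * A.card) := by
          rw [hndef]
          calc κ * D * (κ * D) = κ ^ 2 * (D * D) := by ring
            _ ≤ x * A.card * (D * D) := Nat.mul_le_mul_right _ hκ
            _ = x * D * (D * A.card) := by ring
        calc 4 ^ (n * n) ≤ 4 ^ (x * D * (D * A.card)) :=
              Nat.pow_le_pow_right (by norm_num) h1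
          _ = (4 ^ (x * D)) ^ (D * A.card) := pow_mul _ _ _
          _ < (4 ^ (x * D) + 1) ^ (D * A.card) :=
              Nat.pow_lt_pow_left (Nat.lt_succ_self _)
                (Nat.mul_ne_zero (by omega) (by omega)))
  rw [← hmdef] at hcore2
  -- the sum over the primes up to `n`
  have hsum : δ * X ≤ ∑ p ∈ (range (n + 1)).filter (fun p => p ∈ P ∧ p.Prime), Real.log p := by
    refine hXs.trans (Finset.sum_le_sum_of_subset_of_nonneg ?_ fun p _ _ =>
      Real.log_natCast_nonneg p)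
    intro p hp
    obtain ⟨h1, h2⟩ := mem_filter.1 hp
    refine mem_filter.2 ⟨mem_range.2 ?_, h2⟩
    have := mem_range.1 h1
    omega
  have hprodpos : 0 < ∏ p ∈ (range (n + 1)).filter (fun p => p ∈ P ∧ p.Prime ∧ m < p), p := by
    refine Finset.prod_pos fun p hp => ?_
    exact (mem_filter.1 hp).2.2.1.pos
  have hDr : (1 : ℝ) ≤ D := by exact_mod_cast hDpos
  have hC'r : (1 : ℝ) ≤ C' := by exact_mod_cast hC'
  have hEr : (1 : ℝ) ≤ (E m : ℝ) := by exact_mod_cast hE m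
  have hup : Real.log ((∏ p ∈ (range (n + 1)).filter (fun p => p ∈ P ∧ p.Prime ∧ m < p), p : ℕ) :
      ℝ) ≤ Real.log C' + r * (Real.log C' + Real.log D + (x * D) * Real.log 4 +
        D * Real.log 4 + Real.log (E m)) := by
    have h1 : Real.log ((∏ p ∈ (range (n + 1)).filter (fun p => p ∈ P ∧ p.Prime ∧ m < p), p :
        ℕ) : ℝ) ≤ Real.log ((C' * (C' * D * 4 ^ (x * D) * 4 ^ D * E m) ^ r : ℕ) : ℝ) :=
      Real.log_le_log (by exact_mod_cast hprodpos) (by exact_mod_cast hcore2)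
    refine h1.trans (le_of_eq ?_)
    push_cast
    rw [Real.log_mul (by positivity) (by positivity), Real.log_pow,
      Real.log_mul (by positivity) (by positivity), Real.log_mul (by positivity) (by positivity),
      Real.log_mul (by positivity) (by positivity), Real.log_mul (by positivity) (by positivity),
      Real.log_pow, Real.log_pow]
    push_cast
    ring
  have hlogE : Real.log (E m) ≤ η * m := by
    have h1 := hm0 m (by omega)
    exact (Real.log_le_iff_le_exp (by linarith)).mpr h1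
  have hmr : (m : ℝ) ≤ 3 / 2 * D + 1 := by
    have h1 : 2 * m ≤ 3 * D + 2 := by omega
    have h2 : (2 : ℝ) * m ≤ 3 * D + 2 := by exact_mod_cast h1
    linarith
  have hXr : δ * (κ * D - κ) ≤ δ * X := by
    refine mul_le_mul_of_nonneg_left ?_ hδ
    have h2 : (κ : ℝ) * D ≤ X + κ := by exact_mod_cast hleX
    linarith
  have hlogE2 : Real.log (E m) ≤ η * (3 / 2 * D + 1) :=
    hlogE.trans (mul_le_mul_of_nonneg_left hmr hη0)
  have h4m : Real.log 4 * m ≤ Real.log 4 * (3 / 2 * D + 1) :=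
    mul_le_mul_of_nonneg_left hmr hl4.le
  have hfin := hD1 D (by omega)
  have h9 : (r : ℝ) * (Real.log C' + Real.log D + (x * D) * Real.log 4 +
        D * Real.log 4 + Real.log (E m)) ≤ r * (Real.log C' + Real.log D + (x * D) * Real.log 4 +
        D * Real.log 4 + η * (3 / 2 * D + 1)) :=
    mul_le_mul_of_nonneg_left (by linarith) hr
  rw [hgdef] at hfin
  linarith [hlog, hup, hsum, hXr, h4m, h9, hfin]

end Pool.MZFin
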