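import Pool.Agent.Lib.MZFin.Defs

/-! MP_c511df_nt, finite multiple zeta values, module `PMono` (90 lines): the dimension grows with
the set of words and with the set of primes.

PROOF. `dimF_mono`: `W ⊆ W'`. Extension by zero `ε : (W → ℚ) →ₗ[ℚ] (W' → ℚ)`,
`ε c l = if h : l.1 ∈ W then c ⟨l.1, h⟩ else 0`. `∑_(l : W') rc p (ε c l) * fz p l = ∑_(l : W) rc p (c l) * fz p l`
(`rc p 0 = 0`; `Finset.sum_coe_sort`, `Finset.sum_subset`), so `ε c ∈ Rel P W' ↔ c ∈ Rel P W`, i.e.
`Rel P W = (Rel P W').comap ε`, and `ε` induces an injective linear map of the quotients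
(`Submodule.mapQ`, kernel: `Submodule.ker_mapQ..`, or `Submodule.liftQ` of `mkQ ∘ ε` with kernel
`Rel P W`: `LinearMap.quotKerEquivRange`, `(mkQ ∘ ε).ker = Rel P W`, so the quotient is isomorphic to a
subspace of the quotient for `W'`): `LinearMap.finrank_le_finrank_of_injective`.
`dimF_mono_P`: `P ⊆ P'` gives `Rel P' W ≤ Rel P W`, `Submodule.factor` is surjective
(`LinearMap.finrank_le_of_surjective..`). -/

open Finset

namespace Pool.MZFin

/-- extension by zero -/
private def extz (W W' : Finset (List ℕ)) : (W → ℚ) →ₗ[ℚ] (W' → ℚ) where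
  toFun c l := if h : l.1 ∈ W then c ⟨l.1, h⟩ else 0
  map_add' c d := by
    funext l
    by_cases h : l.1 ∈ W <;> simp [h]
  map_smul' q c := by
    funext l
    by_cases h : l.1 ∈ W <;> simp [h]

private theorem extz_apply (W W' : Finset (List ℕ)) (c : W → ℚ) (l : W') :
    extz W W' c l = if h : l.1 ∈ W then c ⟨l.1, h⟩ else 0 := rfl

private theorem sum_extz (p : ℕ) {W W' : Finset (List ℕ)} (h : W ⊆ W') (c : W → ℚ) :
    ∑ l : W', rc p (extz W W' c l) * fz p l = ∑ l : W, rc p (c l) * fz p l := by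
  have e1 : ∑ l : W', rc p (extz W W' c l) * fz p l =
      ∑ l ∈ W', rc p (if h : l ∈ W then c ⟨l, h⟩ else 0) * fz p l := by
    rw [← Finset.sum_coe_sort W' (fun l => rc p (if h : l ∈ W then c ⟨l, h⟩ else 0) * fz p l)]
    rfl
  have e2 : ∑ l : W, rc p (c l) * fz p l =
      ∑ l ∈ W, rc p (if h : l ∈ W then c ⟨l, h⟩ else 0) * fz p l := by
    rw [← Finset.sum_coe_sort W (fun l => rc p (if h : l ∈ W then c ⟨l, h⟩ else 0) * fz p l)]
    refine Finset.sum_congr rfl fun l _ => ?_
    rw [dif_pos l.2]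
  rw [e1, e2]
  symm
  refine Finset.sum_subset h fun l _ hl => ?_
  rw [dif_neg hl]
  simp [rc]

theorem dimF_mono (P : Set ℕ) {W W' : Finset (List ℕ)} (h : W ⊆ W') :
    dimF P W ≤ dimF P W' := by
  have hc : Rel P W = (Rel P W').comap (extz W W') := by
    ext c
    rw [Submodule.mem_comap, mem_Rel, mem_Rel]
    simp only [sum_extz _ h]
  unfold dimF
  have hle : Rel P W ≤ (Rel P W').comap (extz W W') := hc.le
  have hinj : Function.Injective ((Rel P W).mapQ (Rel P W') (extz W W') hle) := by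
    rw [← LinearMap.ker_eq_bot, LinearMap.ker_eq_bot']
    intro x hx
    obtain ⟨c, rfl⟩ := Submodule.mkQ_surjective (Rel P W) x
    rw [Submodule.mkQ_apply, Submodule.mapQ_apply, Submodule.Quotient.mk_eq_zero] at hx
    rw [Submodule.mkQ_apply, Submodule.Quotient.mk_eq_zero, hc, Submodule.mem_comap]
    exact hx
  exact LinearMap.finrank_le_finrank_of_injective hinj

theorem dimF_mono_P {P P' : Set ℕ} (h : P ⊆ P') (W : Finset (List ℕ)) :
    dimF P W ≤ dimF P' W := by
  have hle : Rel P' W ≤ Rel P W := by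
    intro c hc
    rw [mem_Rel] at hc ⊢
    obtain ⟨P0, h0⟩ := hc
    exact ⟨P0, fun p hp => h0 p (h hp)⟩
  unfold dimF
  exact LinearMap.finrank_le_finrank_of_surjective (f := Submodule.factor hle)
    (Submodule.factor_surjective hle)

end Pool.MZFin
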