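import Pool.Agent.Lib.MZFin.BWord
import Pool.Agent.Lib.MZFin.BSize
import Pool.Agent.Lib.MZFin.PIneq
import Pool.Agent.Lib.MZFin.PMono

/-! Bernoulli theorem, module `BAsy` (170 lines): parameters.

PROOF. `UT P δ` gives `δ ≤ log 4 ≤ 2` (`Chebyshev.theta_le_log4_mul_x`: the sum is at most `θ(X) ≤ log 4 * X`).
Let `K ≥ 9`, `w = (K - 4) / 5`, so `1 ≤ w`, `5 w + 4 ≤ K`, `w + 1 ≥ K / 10` (real numbers; `5 (w+1) > K - 4`,
`K - 4 ≥ K / 2`), `n = 5 w + 4`, `η = log 4 * (log n + 4) ≤ log 4 * (log K + 4)`, `x = ⌈log K⌉₊ ≤ log K + 1`,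
`κ = Nat.sqrt (x * (w + 1))`, `κ + 1 > √(x (w+1)) ≥ √(K log K / 10)` (`Nat.lt_succ_sqrt'`). `main_ineq` with
`A = A1 w`, `B = A1 (4w+4)`, `W = W2 n`, `E = E2 n` (`A1_TC1`, `A1_card`, `nil_mem_W2`, `one_le_E2`, `E2_le`) gives
`δ κ - (3/2) log 4 ≤ dimF P (W2 n) * (log 4 * (x + 1) + (3/2) η)`, `dimF P (W2 n) ≤ dimF P (W2 K)`
(`dimF_mono`, `W2_mono`), and the last factor is at most
`log 4 * (log K + 2) + (3/2) log 4 (log K + 4) ≤ 20 log K` (`log K ≥ 1`, `log 4 ≤ 1.4`). So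
`dimF * 20 log K ≥ δ √(K log K / 10) - δ - 3 ≥ δ √(K log K) / 4 - 5`, `dimF + 1 ≥ δ √(K / log K) / 80`
(`√(K log K) / log K = √(K / log K)`, `5 / (20 log K) ≤ 1`). For `3 ≤ K < 9`: `√(K / log K) ≤ 3`, `δ ≤ 2`, so
`δ √(K/log K) / 80 ≤ 1`. So `c = 1/80` works. -/

open Finset

namespace Pool.MZFin

/-- the interface of the reduction (module `BRed`) -/
def HBern (mom : (List ℕ → ℚ) → List ℕ → List ℕ → ℕ → ℚ) : Prop :=
  (∀ φ : List ℕ → ℚ, φ [] = 1 → (∀ c, 1 ≤ c → φ [c] = 0) → RecM (mom φ)) ∧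
    ∀ w : ℕ, ∃ C : ℕ, HRed (A1 w) (A1 (4 * w + 4)) (W2 (5 * w + 4)) mom (E2 (5 * w + 4)) C

private theorem basy_log4 : Real.log 4 ≤ 7 / 5 := by
  have h1 : Real.log 4 = 2 * Real.log 2 := by
    rw [show (4 : ℝ) = 2 ^ 2 by norm_num, Real.log_pow]
    norm_num
  have h2 := Real.log_two_lt_d9
  rw [h1]
  linarith

private theorem basy_one_le_log {K : ℕ} (hK : 3 ≤ K) : 1 ≤ Real.log K := by
  have h1 : (3 : ℝ) ≤ K := by exact_mod_cast hK
  rw [Real.le_log_iff_exp_le (by linarith)]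
  have h2 := Real.exp_one_lt_d9
  linarith

open Classical in
private theorem basy_delta {P : Set ℕ} {δ : ℝ} (hP : UT P δ) : δ ≤ 2 := by
  obtain ⟨X, hX, h⟩ := hP 1
  have h1 : ∑ p ∈ (range (X + 1)).filter (fun p => p ∈ P ∧ p.Prime), Real.log p ≤
      Chebyshev.theta (X : ℝ) := by
    rw [Chebyshev.theta_eq_sum_Icc, Nat.floor_natCast]
    refine Finset.sum_le_sum_of_subset_of_nonneg ?_ fun p _ _ => Real.log_natCast_nonneg p
    intro p hp
    obtain ⟨h2, _, h3⟩ := mem_filter.1 hp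
    refine mem_filter.2 ⟨mem_Icc.2 ⟨Nat.zero_le _, ?_⟩, h3⟩
    have := mem_range.1 h2
    omega
  have h2 := Chebyshev.theta_le_log4_mul_x (x := (X : ℝ)) (Nat.cast_nonneg _)
  have h3 : (1 : ℝ) ≤ X := by exact_mod_cast hX
  have h4 := basy_log4
  by_contra h5
  push Not at h5
  nlinarith [h, h1, h2, h3, h4, h5]

theorem bern_dim {mom : (List ℕ → ℚ) → List ℕ → List ℕ → ℕ → ℚ} (hm : HBern mom)
    (P : Set ℕ) (δ : ℝ) (hδ : 0 ≤ δ) (hP : UT P δ) (K : ℕ) (hK : 3 ≤ K) :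
    1 / 80 * δ * √((K : ℝ) / Real.log K) ≤ (dimF P (W2 K) : ℝ) + 1 := by
  have hδ2 := basy_delta hP
  have hL := basy_one_le_log hK
  set L : ℝ := Real.log K with hLdef
  have hq0 : 0 ≤ √((K : ℝ) / L) := Real.sqrt_nonneg _
  have hR : (0 : ℝ) ≤ (dimF P (W2 K) : ℝ) := Nat.cast_nonneg _
  rcases Nat.lt_or_ge K 9 with hK9 | hK9
  · have h1 : √((K : ℝ) / L) ≤ 3 := by
      rw [Real.sqrt_le_left (by norm_num)]
      have h2 : (K : ℝ) ≤ 9 := by exact_mod_cast hK9.le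
      calc (K : ℝ) / L ≤ K := div_le_self (Nat.cast_nonneg _) hL
        _ ≤ 3 ^ 2 := by linarith
    nlinarith [mul_le_mul hδ2 h1 hq0 (by norm_num : (0 : ℝ) ≤ 2)]
  · obtain ⟨w, hw⟩ : ∃ w, w = (K - 4) / 5 := ⟨_, rfl⟩
    have hwK : 5 * w + 4 ≤ K := by omega
    have hw10 : K ≤ 10 * (w + 1) := by omega
    obtain ⟨hm1, hm2⟩ := hm
    obtain ⟨C, hC⟩ := hm2 w
    set x : ℕ := ⌈L⌉₊ with hxdef
    have hx1 : L ≤ x := Nat.le_ceil L
    have hx2 : (x : ℝ) < L + 1 := Nat.ceil_lt_add_one (by linarith)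
    set κ : ℕ := Nat.sqrt (x * (w + 1)) with hκdef
    have hκ1 : κ ^ 2 ≤ x * (w + 1) := Nat.sqrt_le' _
    have hκ2 : x * (w + 1) < (κ + 1) ^ 2 := Nat.lt_succ_sqrt' _
    have hmain := main_ineq (A1 w) (A1 (4 * w + 4)) (W2 (5 * w + 4)) (A1_TC1 w)
      (A1_TC1 (4 * w + 4)) (by rw [A1_card, A1_card]; omega) (nil_mem_W2 _) mom hm1
      (E2 (5 * w + 4)) (one_le_E2 (5 * w + 4)) C hC
      (Real.log 4 * (Real.log (5 * w + 4 : ℕ) + 4)) (E2_le (5 * w + 4) (by omega)) P δ hδ hP κ x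
      (by rw [A1_card]; exact hκ1)
    have hdim : (dimF P (W2 (5 * w + 4)) : ℝ) ≤ (dimF P (W2 K) : ℝ) := by
      exact_mod_cast dimF_mono P (W2_mono hwK)
    set R : ℝ := (dimF P (W2 K) : ℝ) with hRdef
    have hl4 : 0 ≤ Real.log 4 := Real.log_nonneg (by norm_num)
    have hl4' := basy_log4
    have hlogn : Real.log (5 * w + 4 : ℕ) ≤ L := by
      refine Real.log_le_log ?_ ?_
      · have : 0 < 5 * w + 4 := by omega
        exact_mod_cast this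
      · exact_mod_cast hwK
    have hlogn0 : 0 ≤ Real.log (5 * w + 4 : ℕ) := Real.log_natCast_nonneg _
    have hfac : Real.log 4 * ((x : ℝ) + 1) + 3 / 2 * (Real.log 4 *
        (Real.log (5 * w + 4 : ℕ) + 4)) ≤ 20 * L := by
      calc Real.log 4 * ((x : ℝ) + 1) + 3 / 2 * (Real.log 4 * (Real.log (5 * w + 4 : ℕ) + 4))
          = Real.log 4 * (((x : ℝ) + 1) + 3 / 2 * (Real.log (5 * w + 4 : ℕ) + 4)) := by ring
        _ ≤ Real.log 4 * ((L + 2) + 3 / 2 * (L + 4)) := by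
            apply mul_le_mul_of_nonneg_left _ hl4
            linarith
        _ ≤ 7 / 5 * ((L + 2) + 3 / 2 * (L + 4)) := by
            apply mul_le_mul_of_nonneg_right hl4'
            linarith
        _ ≤ 20 * L := by linarith
    have hfac0 : 0 ≤ Real.log 4 * ((x : ℝ) + 1) + 3 / 2 * (Real.log 4 *
        (Real.log (5 * w + 4 : ℕ) + 4)) := by positivity
    have h1 : δ * κ - 3 / 2 * Real.log 4 ≤ R * (20 * L) := by
      refine hmain.trans ?_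
      exact mul_le_mul hdim hfac hfac0 hR
    -- the square root
    set q : ℝ := √((K : ℝ) / L) with hqdef
    have hq2 : q ^ 2 = (K : ℝ) / L := Real.sq_sqrt (by positivity)
    have hqL : (q * L) ^ 2 = K * L := by
      rw [mul_pow, hq2]
      field_simp
    have hκ3 : (K : ℝ) * L ≤ 10 * ((κ : ℝ) + 1) ^ 2 := by
      have h2 : (x : ℝ) * ((w : ℝ) + 1) ≤ ((κ : ℝ) + 1) ^ 2 := by exact_mod_cast hκ2.le
      have h3 : (K : ℝ) ≤ 10 * ((w : ℝ) + 1) := by exact_mod_cast hw10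
      calc (K : ℝ) * L ≤ (10 * ((w : ℝ) + 1)) * x :=
            mul_le_mul h3 hx1 (by linarith) (by positivity)
        _ = 10 * ((x : ℝ) * ((w : ℝ) + 1)) := by ring
        _ ≤ 10 * ((κ : ℝ) + 1) ^ 2 := by linarith
    have hκ4 : q * L / 4 ≤ (κ : ℝ) + 1 := by
      refine le_of_sq_le_sq ?_ (by positivity)
      rw [div_pow, hqL]
      nlinarith [hκ3, sq_nonneg ((κ : ℝ) + 1)]
    have h5 : δ * (q * L / 4) ≤ δ * ((κ : ℝ) + 1) := mul_le_mul_of_nonneg_left hκ4 hδ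
    by_contra hcon
    push Not at hcon
    have h6 : L * (R + 1) < L * (1 / 80 * δ * q) := mul_lt_mul_of_pos_left hcon (by linarith)
    nlinarith [h1, h5, h6, hδ2, hl4', hL]

end Pool.MZFin
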