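import Pool.Agent.Lib.MZFin.PCore
import Pool.Agent.Lib.MZFin.PChb

/-! The main inequality with the sparse box principle: only the primes of `P` cost something. -/

open Finset

namespace Pool.MZFin

open Classical in
/-- the sum of `log p` over the primes `p ≤ X` of `P` -/
noncomputable def tP (P : Set ℕ) (X : ℕ) : ℝ :=
  ∑ p ∈ (range (X + 1)).filter (fun p => p ∈ P ∧ p.Prime), Real.log p

theorem tP_nonneg (P : Set ℕ) (X : ℕ) : 0 ≤ tP P X :=
  Finset.sum_nonneg fun p _ => Real.log_natCast_nonneg p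

theorem tP_mono (P : Set ℕ) {X Y : ℕ} (h : X ≤ Y) : tP P X ≤ tP P Y := by
  classical
  refine Finset.sum_le_sum_of_subset_of_nonneg ?_ fun p _ _ => Real.log_natCast_nonneg p
  intro p hp
  obtain ⟨h1, h2⟩ := mem_filter.1 hp
  refine mem_filter.2 ⟨mem_range.2 ?_, h2⟩
  have := mem_range.1 h1
  omega

private theorem bineq_asymp (r : ℕ) (K0 g : ℝ) (hg : 0 < g) : ∃ D1 : ℕ, ∀ D : ℕ, D1 ≤ D →
    K0 + (r : ℝ) * Real.log D < g * D := by
  have hr : (0 : ℝ) ≤ r := Nat.cast_nonneg r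
  have hc : 0 < g / (2 * ((r : ℝ) + 1)) := by positivity
  have h := Real.isLittleO_log_id_atTop.def hc
  have h2 := (tendsto_natCast_atTop_atTop (R := ℝ)).eventually h
  obtain ⟨m1, hm1⟩ := Filter.eventually_atTop.1 h2
  obtain ⟨m2, hm2⟩ := exists_nat_gt (2 * K0 / g)
  refine ⟨max m1 m2, fun D hD => ?_⟩
  have h3 := hm1 D ((le_max_left _ _).trans hD)
  rw [Real.norm_eq_abs, abs_of_nonneg (Real.log_natCast_nonneg D), id, Real.norm_eq_abs,
    abs_of_nonneg (Nat.cast_nonneg D)] at h3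
  have h4 : (m2 : ℝ) ≤ D := by exact_mod_cast (le_max_right _ _).trans hD
  have h5 : 2 * K0 / g < D := lt_of_lt_of_le hm2 h4
  have h6 : 2 * K0 < D * g := (div_lt_iff₀ hg).mp h5
  have h7 : (r : ℝ) * Real.log D ≤ g / 2 * D := by
    calc (r : ℝ) * Real.log D ≤ r * (g / (2 * ((r : ℝ) + 1)) * D) :=
          mul_le_mul_of_nonneg_left h3 hr
      _ = (r / ((r : ℝ) + 1)) * (g / 2 * D) := by
          field_simp
      _ ≤ 1 * (g / 2 * D) := by
          refine mul_le_mul_of_nonneg_right ?_ (by positivity)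
          rw [div_le_one (by positivity)]
          linarith
      _ = g / 2 * D := one_mul _
  nlinarith [h6, h7]

theorem main_ineq2 (A B W : Finset (List ℕ)) (hA : TC1 A) (hB : TC1 B)
    (h4 : 4 * A.card < B.card) (hW : [] ∈ W)
    (mom : (List ℕ → ℚ) → List ℕ → List ℕ → ℕ → ℚ)
    (hmom : ∀ φ : List ℕ → ℚ, φ [] = 1 → (∀ c, 1 ≤ c → φ [c] = 0) → RecM (mom φ))
    (E : ℕ → ℕ) (hE : ∀ m, 1 ≤ E m) (C : ℕ) (h : HRed A B W mom E C) (η : ℝ)
    (hη : ∃ m0 : ℕ, ∀ m : ℕ, m0 ≤ m → (E m : ℝ) ≤ Real.exp (η * m))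
    (P : Set ℕ) (L : ℝ)
    (hP : ∀ ε : ℝ, 0 < ε → ∀ X0 : ℕ, ∃ X : ℕ, X0 ≤ X ∧ (L - ε) * X ≤ tP P X)
    (hP' : ∀ ε : ℝ, 0 < ε → ∃ X0 : ℕ, ∀ X : ℕ, X0 ≤ X → tP P X ≤ (L + ε) * X)
    (κ : ℕ) (x : ℝ) (hx : 0 ≤ x) (hκ : L * (κ : ℝ) ^ 2 < x * A.card) :
    L * ((κ : ℝ) - 3 / 2) ≤
      (dimF P W : ℝ) * (x + Real.log 4 + 3 / 2 * η) := by
  classical
  have hl4 : 0 < Real.log 4 := Real.log_pos (by norm_num)
  have hη0 : 0 ≤ η := by
    obtain ⟨m0, hm0⟩ := hη
    have h1 := hm0 (max m0 1) (le_max_left _ _)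
    have h2 : (1 : ℝ) ≤ (E (max m0 1) : ℝ) := by exact_mod_cast hE _
    have h3 : Real.exp 0 ≤ Real.exp (η * ((max m0 1 : ℕ) : ℝ)) := by
      rw [Real.exp_zero]
      exact h2.trans h1
    have h4 : 0 ≤ η * ((max m0 1 : ℕ) : ℝ) := Real.exp_le_exp.mp h3
    have h5 : (0 : ℝ) < ((max m0 1 : ℕ) : ℝ) := by
      exact_mod_cast lt_of_lt_of_le Nat.zero_lt_one (le_max_right m0 1)
    by_contra hneg
    push Not at hneg
    nlinarith [h4, h5, hneg]
  have hL0 : 0 ≤ L := by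
    by_contra hneg
    push Not at hneg
    obtain ⟨X0, hX0⟩ := hP' (-L / 2) (by linarith)
    have h1 := hX0 (max X0 1) (le_max_left _ _)
    have h2 := tP_nonneg P (max X0 1)
    have h3 : (1 : ℝ) ≤ ((max X0 1 : ℕ) : ℝ) := by exact_mod_cast le_max_right X0 1
    nlinarith
  have hr : (0 : ℝ) ≤ (dimF P W : ℝ) := Nat.cast_nonneg _
  have hc0 : 0 ≤ x + Real.log 4 + 3 / 2 * η := by positivity
  by_contra hcon
  push Not at hcon
  have hpos : 0 < L * ((κ : ℝ) - 3 / 2) := lt_of_le_of_lt (mul_nonneg hr hc0) hcon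
  have hLpos : 0 < L := by
    rcases hL0.lt_or_eq with h | h
    · exact h
    · rw [← h] at hpos
      simp at hpos
  have hκ32 : (3 : ℝ) / 2 < κ := by
    by_contra hlt
    push Not at hlt
    have : L * ((κ : ℝ) - 3 / 2) ≤ 0 := mul_nonpos_of_nonneg_of_nonpos hLpos.le (by linarith)
    linarith
  have hκ1 : 1 ≤ κ := by
    by_contra hlt
    have hκ0 : κ = 0 := by omega
    rw [hκ0] at hκ32
    norm_num at hκ32
  have hκr : (1 : ℝ) ≤ κ := by exact_mod_cast hκ1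
  have hA1 : 1 ≤ A.card := by
    by_contra hlt
    have hA0 : A.card = 0 := by omega
    rw [hA0, Nat.cast_zero, mul_zero] at hκ
    have : 0 ≤ L * (κ : ℝ) ^ 2 := by positivity
    linarith
  obtain ⟨C', D0, P0, hC', hcore⟩ := core A B W hA hB h4 hW mom hmom E hE C h P
  obtain ⟨m0, hm0⟩ := hη
  set r := dimF P W with hrdef
  set g : ℝ := L * ((κ : ℝ) - 3 / 2) - (r : ℝ) * (x + Real.log 4 + 3 / 2 * η) with hgdef
  have hg : 0 < g := by
    rw [hgdef]
    linarith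
  -- the choice of `ε`
  obtain ⟨ε, hε, hεL, hε1, hε2⟩ : ∃ ε : ℝ, 0 < ε ∧ ε ≤ L ∧
      (L + ε) * (κ : ℝ) ^ 2 ≤ x * A.card ∧ ε * ((κ : ℝ) + 3 / 2) ≤ g / 2 := by
    have h1 : 0 < (x * A.card - L * (κ : ℝ) ^ 2) / (κ : ℝ) ^ 2 := by
      apply div_pos (by linarith)
      positivity
    refine ⟨min L (min ((x * A.card - L * (κ : ℝ) ^ 2) / (κ : ℝ) ^ 2) (g / (2 * ((κ : ℝ) + 3 / 2)))),
      lt_min hLpos (lt_min h1 (by positivity)), min_le_left _ _, ?_, ?_⟩
    · have h2 : min L (min ((x * A.card - L * (κ : ℝ) ^ 2) / (κ : ℝ) ^ 2)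
          (g / (2 * ((κ : ℝ) + 3 / 2)))) ≤ (x * A.card - L * (κ : ℝ) ^ 2) / (κ : ℝ) ^ 2 :=
        (min_le_right _ _).trans (min_le_left _ _)
      have h3 : (0 : ℝ) < (κ : ℝ) ^ 2 := by positivity
      rw [le_div_iff₀ h3] at h2
      linarith
    · have h2 : min L (min ((x * A.card - L * (κ : ℝ) ^ 2) / (κ : ℝ) ^ 2)
          (g / (2 * ((κ : ℝ) + 3 / 2)))) ≤ g / (2 * ((κ : ℝ) + 3 / 2)) :=
        (min_le_right _ _).trans (min_le_right _ _)
      have h3 : (0 : ℝ) < (κ : ℝ) + 3 / 2 := by positivity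
      calc _ ≤ g / (2 * ((κ : ℝ) + 3 / 2)) * ((κ : ℝ) + 3 / 2) :=
            mul_le_mul_of_nonneg_right h2 h3.le
        _ = g / 2 := by field_simp
  obtain ⟨X1, hX1⟩ := hP' ε hε
  obtain ⟨D1, hD1⟩ := bineq_asymp r (L * κ + (L + ε) + (1 + (r : ℝ)) * Real.log C' + r * η)
    (g / 2) (by positivity)
  obtain ⟨X, hX, hXs⟩ := hP ε hε (κ * (D1 + D0 + P0 + m0 + X1))
  have hκpos : 0 < κ := hκ1
  obtain ⟨D, hDdef⟩ : ∃ D, D = X / κ + 1 := ⟨_, rfl⟩
  have hD2 : D1 + D0 + P0 + m0 + X1 ≤ X / κ := by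
    rw [Nat.le_div_iff_mul_le hκpos, mul_comm]
    exact hX
  have hXle : X ≤ κ * D := by
    have h1 := Nat.lt_div_mul_add (a := X) hκpos
    rw [hDdef]
    have h2 : κ * (X / κ + 1) = X / κ * κ + κ := by ring
    omega
  have hleX : κ * D ≤ X + κ := by
    have h1 := Nat.div_mul_le_self X κ
    rw [hDdef]
    have h2 : κ * (X / κ + 1) = X / κ * κ + κ := by ring
    omega
  have hDpos : 1 ≤ D := by omega
  obtain ⟨m, hmdef⟩ : ∃ m, m = D + D / 2 + 1 := ⟨_, rfl⟩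
  obtain ⟨n, hndef⟩ : ∃ n, n = κ * D := ⟨_, rfl⟩
  have hnD : D ≤ n := by
    rw [hndef]
    exact Nat.le_mul_of_pos_left D hκpos
  have hDr : (1 : ℝ) ≤ D := by exact_mod_cast hDpos
  obtain ⟨Y, hYdef⟩ : ∃ Y : ℕ, Y = ⌊Real.exp (x * D)⌋₊ := ⟨_, rfl⟩
  have hexp1 : (1 : ℝ) ≤ Real.exp (x * D) := Real.one_le_exp (by positivity)
  have hY1 : 1 ≤ Y := by
    rw [hYdef]
    exact Nat.le_floor (by exact_mod_cast hexp1)
  have hYle : (Y : ℝ) ≤ Real.exp (x * D) := by
    rw [hYdef]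
    exact Nat.floor_le (by positivity)
  have hYlt : Real.exp (x * D) < (Y : ℝ) + 1 := by
    rw [hYdef]
    exact Nat.lt_floor_add_one _
  set Q := (range (n + 1)).filter (fun p => p ∈ P ∧ p.Prime ∧ m < p) with hQ
  have hQmem : ∀ p ∈ Q, p ≤ n ∧ p ∈ P ∧ p.Prime ∧ m < p := fun p hp => by
    obtain ⟨h0, h1, h2, h3⟩ := mem_filter.1 hp
    exact ⟨by have := mem_range.1 h0; omega, h1, h2, h3⟩
  have hsumQ : ∑ p ∈ Q, Real.log p ≤ tP P n := by
    refine Finset.sum_le_sum_of_subset_of_nonneg ?_ fun p _ _ => Real.log_natCast_nonneg p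
    intro p hp
    obtain ⟨h0, h1, h2, _⟩ := mem_filter.1 hp
    exact mem_filter.2 ⟨h0, h1, h2⟩
  have hn1 := hX1 n (by omega)
  have hnr : (n : ℝ) = κ * D := by
    rw [hndef]
    push_cast
    ring
  have hcore2 := hcore D (by omega) Y hY1 Q (by
      intro p hp
      obtain ⟨_, hp1, hp2, hp3⟩ := hQmem p hp
      exact ⟨hp1, hp2, by omega, by omega⟩) (by
      have h1 : ((∏ p ∈ Q, p ^ p : ℕ) : ℝ) ≤ Real.exp (x * D) ^ (D * A.card) := by
        have h2 : ((∏ p ∈ Q, p ^ p : ℕ) : ℝ) = Real.exp (∑ p ∈ Q, (p : ℝ) * Real.log p) := by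
          rw [Real.exp_sum, Nat.cast_prod]
          refine Finset.prod_congr rfl fun p hp => ?_
          have hp0 : (0 : ℝ) < p := by exact_mod_cast (hQmem p hp).2.2.1.pos
          rw [mul_comm, Real.exp_mul, Real.exp_log hp0, Nat.cast_pow, Real.rpow_natCast]
        rw [h2, ← Real.exp_nat_mul]
        apply Real.exp_le_exp.2
        have h3 : ∑ p ∈ Q, (p : ℝ) * Real.log p ≤ n * ∑ p ∈ Q, Real.log p := by
          rw [Finset.mul_sum]
          refine Finset.sum_le_sum fun p hp => ?_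
          exact mul_le_mul_of_nonneg_right (by exact_mod_cast (hQmem p hp).1)
            (Real.log_natCast_nonneg p)
        refine h3.trans ?_
        have hn0 : (0 : ℝ) ≤ n := Nat.cast_nonneg n
        calc (n : ℝ) * ∑ p ∈ Q, Real.log p ≤ n * ((L + ε) * n) :=
              mul_le_mul_of_nonneg_left (hsumQ.trans hn1) hn0
          _ = (L + ε) * (κ : ℝ) ^ 2 * ((D : ℝ) * D) := by
              rw [hnr]
              ring
          _ ≤ x * A.card * ((D : ℝ) * D) := mul_le_mul_of_nonneg_right hε1 (by positivity)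
          _ = _ := by
              push_cast
              ring
      have h2 : Real.exp (x * D) ^ (D * A.card) < ((Y : ℝ) + 1) ^ (D * A.card) :=
        pow_lt_pow_left₀ hYlt (by positivity) (Nat.mul_ne_zero (by omega) (by omega))
      have h3 : ((∏ p ∈ Q, p ^ p : ℕ) : ℝ) < (((Y + 1) ^ (D * A.card) : ℕ) : ℝ) := by
        refine lt_of_le_of_lt h1 ?_
        push_cast
        exact h2
      exact_mod_cast h3)
  rw [← hmdef] at hcore2
  -- the sum over the primes up to `n`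
  have hsum : (L - ε) * X ≤ tP P n := hXs.trans (tP_mono P (by omega))
  have hsplit : tP P n ≤ ∑ p ∈ Q, Real.log p + tP P m := by
    have hsub : (range (n + 1)).filter (fun p => p ∈ P ∧ p.Prime) ⊆
        Q ∪ (range (m + 1)).filter (fun p => p ∈ P ∧ p.Prime) := by
      intro p hp
      obtain ⟨h1, h2, h3⟩ := mem_filter.1 hp
      rcases Nat.lt_or_ge m p with h | h
      · exact mem_union_left _ (mem_filter.2 ⟨h1, h2, h3, h⟩)
      · exact mem_union_right _ (mem_filter.2 ⟨mem_range.2 (by omega), h2, h3⟩)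
    have hnn : ∀ p : ℕ, 0 ≤ Real.log (p : ℝ) := fun p => Real.log_natCast_nonneg p
    refine (Finset.sum_le_sum_of_subset_of_nonneg hsub fun p _ _ => hnn p).trans ?_
    unfold tP
    rw [← Finset.sum_union_inter]
    exact le_add_of_nonneg_right (Finset.sum_nonneg fun p _ => hnn p)
  have hm1 := hX1 m (by omega)
  have hprodpos : 0 < ∏ p ∈ Q, p := Finset.prod_pos fun p hp => (hQmem p hp).2.2.1.pos
  have hC'r : (1 : ℝ) ≤ C' := by exact_mod_cast hC'
  have hEr : (1 : ℝ) ≤ (E m : ℝ) := by exact_mod_cast hE m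
  have hYr : (1 : ℝ) ≤ (Y : ℝ) := by exact_mod_cast hY1
  have hlogY : Real.log Y ≤ x * D := (Real.log_le_iff_le_exp (by linarith)).mpr hYle
  have hprod : Real.log ((∏ p ∈ Q, p : ℕ) : ℝ) = ∑ p ∈ Q, Real.log p := by
    rw [Nat.cast_prod, Real.log_prod]
    intro p hp
    have := (hQmem p hp).2.2.1.pos
    positivity
  have hup : ∑ p ∈ Q, Real.log p ≤ Real.log C' + r * (Real.log C' + Real.log D + Real.log Y +
        D * Real.log 4 + Real.log (E m)) := by
    rw [← hprod]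
    have h1 : Real.log ((∏ p ∈ Q, p : ℕ) : ℝ) ≤
        Real.log ((C' * (C' * D * Y * 4 ^ D * E m) ^ r : ℕ) : ℝ) :=
      Real.log_le_log (by exact_mod_cast hprodpos) (by exact_mod_cast hcore2)
    refine h1.trans (le_of_eq ?_)
    push_cast
    rw [Real.log_mul (by positivity) (by positivity), Real.log_pow,
      Real.log_mul (by positivity) (by positivity), Real.log_mul (by positivity) (by positivity),
      Real.log_mul (by positivity) (by positivity), Real.log_mul (by positivity) (by positivity),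
      Real.log_pow]
  have hlogE : Real.log (E m) ≤ η * m := by
    have h1 := hm0 m (by omega)
    exact (Real.log_le_iff_le_exp (by linarith)).mpr h1
  have hmr : (m : ℝ) ≤ 3 / 2 * D + 1 := by
    have h1 : 2 * m ≤ 3 * D + 2 := by omega
    have h2 : (2 : ℝ) * m ≤ 3 * D + 2 := by exact_mod_cast h1
    linarith
  have hXr : (L - ε) * (κ * D - κ) ≤ (L - ε) * X := by
    refine mul_le_mul_of_nonneg_left ?_ (by linarith)
    have h2 : (κ : ℝ) * D ≤ X + κ := by exact_mod_cast hleX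
    linarith
  have hlogE2 : Real.log (E m) ≤ η * (3 / 2 * D + 1) :=
    hlogE.trans (mul_le_mul_of_nonneg_left hmr hη0)
  have h4m : (L + ε) * m ≤ (L + ε) * (3 / 2 * D + 1) :=
    mul_le_mul_of_nonneg_left hmr (by linarith)
  have hfin := hD1 D (by omega)
  have h9 : (r : ℝ) * (Real.log C' + Real.log D + Real.log Y +
        D * Real.log 4 + Real.log (E m)) ≤ r * (Real.log C' + Real.log D + x * D +
        D * Real.log 4 + η * (3 / 2 * D + 1)) :=
    mul_le_mul_of_nonneg_left (by linarith) hr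
  have h10 : ε * ((κ : ℝ) + 3 / 2) * D ≤ g / 2 * D := mul_le_mul_of_nonneg_right hε2 (by linarith)
  have h11 : 0 ≤ ε * κ := by positivity
  rw [hgdef] at hfin h10
  linarith [hsplit, hup, hsum, hXr, h4m, h9, hfin, h10, hm1, h11]

end Pool.MZFin
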