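import Pool.Agent.Lib.MZFin.BAsy
import Pool.Agent.Lib.MZFin.BIneq
import Pool.Agent.Lib.MZFin.BSpan
import Pool.Agent.Lib.MZFin.BCons

/-! Bernoulli theorem, sharp form in the density: `c √(δ K / log K)`. -/

open Finset

namespace Pool.MZFin

private theorem basb_log4 : Real.log 4 ≤ 7 / 5 := by
  have h1 : Real.log 4 = 2 * Real.log 2 := by
    rw [show (4 : ℝ) = 2 ^ 2 by norm_num, Real.log_pow]
    norm_num
  have h2 := Real.log_two_lt_d9
  rw [h1]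
  linarith

private theorem basb_one_le_log {K : ℕ} (hK : 3 ≤ K) : 1 ≤ Real.log K := by
  have h1 : (3 : ℝ) ≤ K := by exact_mod_cast hK
  rw [Real.le_log_iff_exp_le (by linarith)]
  have h2 := Real.exp_one_lt_d9
  linarith

theorem tP_le (P : Set ℕ) (X : ℕ) : tP P X ≤ Real.log 4 * X := by
  classical
  have h1 : tP P X ≤ Chebyshev.theta (X : ℝ) := by
    rw [Chebyshev.theta_eq_sum_Icc, Nat.floor_natCast]
    refine Finset.sum_le_sum_of_subset_of_nonneg ?_ fun p _ _ => Real.log_natCast_nonneg p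
    intro p hp
    obtain ⟨h2, _, h3⟩ := mem_filter.1 hp
    refine mem_filter.2 ⟨mem_Icc.2 ⟨Nat.zero_le _, ?_⟩, h3⟩
    have := mem_range.1 h2
    omega
  exact h1.trans (Chebyshev.theta_le_log4_mul_x (Nat.cast_nonneg _))

/-- the upper limit of `tP P X / X` -/
theorem exists_limsup (P : Set ℕ) (δ : ℝ) (hP : UT P δ) : ∃ L : ℝ, δ ≤ L ∧ L ≤ 7 / 5 ∧
    (∀ ε : ℝ, 0 < ε → ∀ X0 : ℕ, ∃ X : ℕ, X0 ≤ X ∧ (L - ε) * X ≤ tP P X) ∧
    (∀ ε : ℝ, 0 < ε → ∃ X0 : ℕ, ∀ X : ℕ, X0 ≤ X → tP P X ≤ (L + ε) * X) := by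
  classical
  set S : Set ℝ := {a | ∃ X0 : ℕ, ∀ X : ℕ, X0 ≤ X → tP P X ≤ a * X} with hS
  have h4 : Real.log 4 ∈ S := ⟨0, fun X _ => tP_le P X⟩
  have hlow : ∀ a ∈ S, δ ≤ a := by
    rintro a ⟨X0, hX0⟩
    obtain ⟨X, hX, h1⟩ := hP (max X0 1)
    have h2 := hX0 X ((le_max_left _ _).trans hX)
    have h3 : (1 : ℝ) ≤ X := by exact_mod_cast (le_max_right _ _).trans hX
    have h5 : δ * X ≤ a * X := by
      refine le_trans ?_ h2
      exact h1
    exact le_of_mul_le_mul_right h5 (by linarith)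
  have hbdd : BddBelow S := ⟨δ, hlow⟩
  refine ⟨sInf S, le_csInf ⟨_, h4⟩ hlow, (csInf_le hbdd h4).trans basb_log4, ?_, ?_⟩
  · intro ε hε X0
    by_contra hcon
    push Not at hcon
    have h1 : sInf S - ε ∈ S := ⟨X0, fun X hX => (hcon X hX).le⟩
    have h2 := csInf_le hbdd h1
    linarith
  · intro ε hε
    obtain ⟨a, ⟨X0, hX0⟩, ha⟩ := exists_lt_of_csInf_lt ⟨_, h4⟩
      (show sInf S < sInf S + ε by linarith)
    exact ⟨X0, fun X hX => (hX0 X hX).trans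
      (mul_le_mul_of_nonneg_right ha.le (Nat.cast_nonneg _))⟩

theorem bern_dim2 {mom : (List ℕ → ℚ) → List ℕ → List ℕ → ℕ → ℚ} (hm : HBern mom)
    (P : Set ℕ) (δ : ℝ) (hδ : 0 < δ) (hP : UT P δ) (K : ℕ) (hK : 3 ≤ K) :
    1 / 80 * √(δ * K / Real.log K) ≤ (dimF P (W2 K) : ℝ) + 1 := by
  obtain ⟨L, hδL, hL75, hL1, hL2⟩ := exists_limsup P δ hP
  have hℓ := basb_one_le_log hK
  set l : ℝ := Real.log K with hldef
  have hR : (0 : ℝ) ≤ (dimF P (W2 K) : ℝ) := Nat.cast_nonneg _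
  have hL0 : 0 < L := lt_of_lt_of_le hδ hδL
  rcases Nat.lt_or_ge K 9 with hK9 | hK9
  · have h1 : √(δ * K / l) ≤ 5 := by
      rw [Real.sqrt_le_left (by norm_num)]
      have h2 : (K : ℝ) ≤ 9 := by exact_mod_cast hK9.le
      calc δ * K / l ≤ δ * K := div_le_self (by positivity) hℓ
        _ ≤ 7 / 5 * 9 := mul_le_mul (hδL.trans hL75) h2 (Nat.cast_nonneg _) (by norm_num)
        _ ≤ 5 ^ 2 := by norm_num
    linarith
  · obtain ⟨w, hw⟩ : ∃ w, w = (K - 4) / 5 := ⟨_, rfl⟩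
    have hwK : 5 * w + 4 ≤ K := by omega
    have hw10 : K ≤ 10 * (w + 1) := by omega
    obtain ⟨hm1, hm2⟩ := hm
    obtain ⟨C, hC⟩ := hm2 w
    set s : ℝ := √(l * ((w : ℝ) + 1) / L) with hs
    have hs0 : 0 < s := Real.sqrt_pos.2 (by positivity)
    have hs2 : s ^ 2 = l * ((w : ℝ) + 1) / L := Real.sq_sqrt (by positivity)
    obtain ⟨κ, hκdef⟩ : ∃ κ : ℕ, κ = ⌈s⌉₊ - 1 := ⟨_, rfl⟩
    have hceil : 1 ≤ ⌈s⌉₊ := Nat.one_le_iff_ne_zero.2 (Nat.ceil_pos.2 hs0).ne'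
    have hκs : (κ : ℝ) < s := by
      have h1 := Nat.ceil_lt_add_one hs0.le
      have h2 : (κ : ℝ) + 1 = (⌈s⌉₊ : ℝ) := by
        rw [hκdef]
        have : ((⌈s⌉₊ - 1 : ℕ) : ℝ) = (⌈s⌉₊ : ℝ) - 1 := by
          rw [Nat.cast_sub hceil, Nat.cast_one]
        rw [this]
        ring
      linarith
    have hsκ : s ≤ (κ : ℝ) + 1 := by
      have h1 := Nat.le_ceil s
      have h2 : (κ : ℝ) + 1 = (⌈s⌉₊ : ℝ) := by
        rw [hκdef]
        have : ((⌈s⌉₊ - 1 : ℕ) : ℝ) = (⌈s⌉₊ : ℝ) - 1 := by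
          rw [Nat.cast_sub hceil, Nat.cast_one]
        rw [this]
        ring
      linarith
    have hκ0 : (0 : ℝ) ≤ κ := Nat.cast_nonneg _
    have hmain := main_ineq2 (A1 w) (A1 (4 * w + 4)) (W2 (5 * w + 4)) (A1_TC1 w)
      (A1_TC1 (4 * w + 4)) (by rw [A1_card, A1_card]; omega) (nil_mem_W2 _) mom hm1
      (E2 (5 * w + 4)) (one_le_E2 (5 * w + 4)) C hC
      (Real.log 4 * (Real.log (5 * w + 4 : ℕ) + 4)) (E2_le (5 * w + 4) (by omega)) P L hL1 hL2 κ l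
      (by linarith) (by
        rw [A1_card]
        have h1 : (κ : ℝ) ^ 2 < s ^ 2 := pow_lt_pow_left₀ hκs hκ0 (by norm_num)
        rw [hs2] at h1
        have h2 := mul_lt_mul_of_pos_left h1 hL0
        have h3 : L * (l * ((w : ℝ) + 1) / L) = l * ((w : ℝ) + 1) := by
          field_simp
        rw [h3] at h2
        push_cast
        exact h2)
    have hdim : (dimF P (W2 (5 * w + 4)) : ℝ) ≤ (dimF P (W2 K) : ℝ) := by
      exact_mod_cast dimF_mono P (W2_mono hwK)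
    set R : ℝ := (dimF P (W2 K) : ℝ) with hRdef
    have hl4 : 0 ≤ Real.log 4 := Real.log_nonneg (by norm_num)
    have hl4' := basb_log4
    have hlogn : Real.log (5 * w + 4 : ℕ) ≤ l := by
      refine Real.log_le_log ?_ ?_
      · have : 0 < 5 * w + 4 := by omega
        exact_mod_cast this
      · exact_mod_cast hwK
    have hlogn0 : 0 ≤ Real.log (5 * w + 4 : ℕ) := Real.log_natCast_nonneg _
    have hfac : l + Real.log 4 + 3 / 2 * (Real.log 4 * (Real.log (5 * w + 4 : ℕ) + 4)) ≤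
        20 * l := by
      have h1 : Real.log 4 * (Real.log (5 * w + 4 : ℕ) + 4) ≤ 7 / 5 * (l + 4) :=
        mul_le_mul hl4' (by linarith) (by linarith) (by norm_num)
      linarith
    have hfac0 : 0 ≤ l + Real.log 4 + 3 / 2 * (Real.log 4 *
        (Real.log (5 * w + 4 : ℕ) + 4)) := by positivity
    have h1 : L * ((κ : ℝ) - 3 / 2) ≤ R * (20 * l) := by
      refine hmain.trans ?_
      exact mul_le_mul hdim hfac hfac0 hR
    -- the square root
    set q : ℝ := √(δ * K / l) with hqdef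
    have hq0 : 0 ≤ q := Real.sqrt_nonneg _
    have hq2 : q ^ 2 = δ * K / l := Real.sq_sqrt (by positivity)
    have hqL : (q * l) ^ 2 = δ * K * l := by
      rw [mul_pow, hq2]
      field_simp
    have hLs : (L * s) ^ 2 = L * (l * ((w : ℝ) + 1)) := by
      rw [mul_pow, hs2]
      field_simp
    have h3 : q * l / 4 ≤ L * s := by
      refine le_of_sq_le_sq ?_ (by positivity)
      rw [div_pow, hqL, hLs]
      have h4 : (K : ℝ) ≤ 10 * ((w : ℝ) + 1) := by exact_mod_cast hw10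
      have h5 : δ * K ≤ L * (10 * ((w : ℝ) + 1)) :=
        mul_le_mul hδL h4 (Nat.cast_nonneg _) hL0.le
      have h6 := mul_le_mul_of_nonneg_right h5 (by linarith : 0 ≤ l)
      have h7 : 0 ≤ L * (l * ((w : ℝ) + 1)) := by positivity
      nlinarith
    have h8 : L * (s - 5 / 2) ≤ L * ((κ : ℝ) - 3 / 2) :=
      mul_le_mul_of_nonneg_left (by linarith) hL0.le
    by_contra hcon
    push Not at hcon
    have h9 : l * (R + 1) < l * (1 / 80 * q) := mul_lt_mul_of_pos_left hcon (by linarith)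
    nlinarith [h1, h3, h8, h9, hL75, hℓ]

/-- the statement (A) with `√δ` -/
def HA2 (c : ℝ) : Prop :=
  ∀ (P : Set ℕ) (δ : ℝ), 0 < δ → UD P δ → ∀ K : ℕ, 3 ≤ K → ∃ S : Finset ℕ, S ⊆ Od K ∧
    c * √(δ * K / Real.log K) ≤ (S.card : ℝ) + 2 ∧ BInd P S

theorem bern_HA2 {mom : (List ℕ → ℚ) → List ℕ → List ℕ → ℕ → ℚ} (hm : HBern mom) :
    HA2 (1 / 240) := by
  intro P δ hδ hP K hK
  obtain ⟨S, hS, hI, hd⟩ := dimF_le_ind P (UD_inf P δ hδ hP) K
  refine ⟨S, hS, ?_, hI⟩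
  have h1 := bern_dim2 hm P (1 / 8 * δ) (by positivity) (UT_of_UD P δ hδ hP) K hK
  have h2 : (dimF P (W2 K) : ℝ) ≤ (S.card : ℝ) + 1 := by exact_mod_cast hd
  have hℓ := basb_one_le_log hK
  have h3 : √(δ * K / Real.log K) / 3 ≤ √(1 / 8 * δ * K / Real.log K) := by
    refine le_of_sq_le_sq ?_ (Real.sqrt_nonneg _)
    rw [div_pow, Real.sq_sqrt (by positivity), Real.sq_sqrt (by positivity)]
    have h4 : 0 ≤ δ * K / Real.log K := by positivity
    have h5 : 1 / 8 * δ * K / Real.log K = 1 / 8 * (δ * K / Real.log K) := by ring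
    rw [h5]
    linarith
  linarith

theorem UD_le_one {P : Set ℕ} {δ : ℝ} (hP : UD P δ) : δ ≤ 1 := by
  classical
  obtain ⟨X, hX, h⟩ := hP 2
  have h1 : (cnt P X : ℝ) ≤ (cnt Set.univ X : ℝ) := by
    exact_mod_cast cnt_mono (Set.subset_univ P) X
  have h2' : ∀ Q : Set ℕ, 2 ∈ Q → 0 < cnt Q X := by
    intro Q hQ
    unfold cnt
    refine Finset.card_pos.2 ⟨2, mem_filter.2 ⟨mem_range.2 (by omega), hQ, Nat.prime_two⟩⟩
  have h2 : 0 < cnt Set.univ X := h2' _ (Set.mem_univ _)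
  have h3 : (0 : ℝ) < (cnt Set.univ X : ℝ) := by exact_mod_cast h2
  have h4 : δ * (cnt Set.univ X : ℝ) ≤ 1 * (cnt Set.univ X : ℝ) := by
    rw [one_mul]
    exact h.trans h1
  exact le_of_mul_le_mul_right h4 h3

theorem HA_of_HA2 {c : ℝ} (hc : 0 ≤ c) (H : HA2 c) : HA c := by
  intro P δ hδ hP K hK
  obtain ⟨S, hS, h1, h2⟩ := H P δ hδ hP K hK
  refine ⟨S, hS, le_trans ?_ h1, h2⟩
  have hδ1 := UD_le_one hP
  have hℓ := basb_one_le_log hK
  have h3 : δ * √((K : ℝ) / Real.log K) ≤ √(δ * K / Real.log K) := by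
    refine le_of_sq_le_sq ?_ (Real.sqrt_nonneg _)
    rw [mul_pow, Real.sq_sqrt (by positivity), Real.sq_sqrt (by positivity)]
    have h4 : 0 ≤ δ * ((K : ℝ) / Real.log K) := by positivity
    calc δ ^ 2 * ((K : ℝ) / Real.log K) = δ * (δ * ((K : ℝ) / Real.log K)) := by ring
      _ ≤ 1 * (δ * ((K : ℝ) / Real.log K)) := mul_le_mul_of_nonneg_right hδ1 h4
      _ = δ * K / Real.log K := by ring
  calc c * δ * √((K : ℝ) / Real.log K) = c * (δ * √((K : ℝ) / Real.log K)) := by ring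
    _ ≤ c * √(δ * K / Real.log K) := mul_le_mul_of_nonneg_left h3 hc

/-- (B), sharp form -/
theorem dens_zero2 {c : ℝ} (hc : 0 < c) (H : HA2 c) (K : ℕ) (hK : 3 ≤ K) :
    ∃ X0 : ℕ, ∀ X : ℕ, X0 ≤ X → (cnt {p | ∀ k ∈ Od K, Dv p k} X : ℝ) ≤
      (3 / c) ^ 2 * (Real.log K / K) * (cnt Set.univ X : ℝ) := by
  by_contra hcon
  push Not at hcon
  have hℓ := basb_one_le_log hK
  have hK0 : (0 : ℝ) < K := by exact_mod_cast (by omega : 0 < K)
  have hδ : 0 < (3 / c) ^ 2 * (Real.log K / K) := by positivity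
  obtain ⟨S, hS, h1, h2⟩ := H {p | ∀ k ∈ Od K, Dv p k} _ hδ (fun X0 => by
    obtain ⟨X, hX, h⟩ := hcon X0
    exact ⟨X, hX, h.le⟩) K hK
  have h3 : (3 / c) ^ 2 * (Real.log K / K) * K / Real.log K = (3 / c) ^ 2 := by
    field_simp
  rw [h3, Real.sqrt_sq (by positivity)] at h1
  have h4 : c * (3 / c) = 3 := by field_simp
  rw [h4] at h1
  have h5 : 0 < S.card := by
    by_contra h
    have : S.card = 0 := by omega
    rw [this] at h1
    norm_num at h1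
  obtain ⟨k, hk⟩ := Finset.card_pos.1 h5
  have hk0 : k ≠ 0 := by
    have := (mem_Icc.1 (mem_filter.1 (hS hk)).1).1
    omega
  obtain ⟨p, hp, hp1, hp2, hp3⟩ :=
    h2 (fun j => if j = k then 1 else 0) (Or.inr ⟨k, hk, by simp⟩) 0
  apply hp3
  have h6 : (((if (0 : ℕ) = k then (1 : ℤ) else 0 : ℤ) : ℚ) + ∑ j ∈ S,
      (((if j = k then (1 : ℤ) else 0 : ℤ)) : ℚ) * bernoulli (p - j)) = bernoulli (p - k) := by
    rw [if_neg (fun h => hk0 h.symm), Finset.sum_eq_single k]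
    · simp
    · intro j _ hj
      rw [if_neg hj]
      simp
    · intro h
      exact absurd hk h
  rw [h6]
  exact hp k (hS hk)

end Pool.MZFin
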