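import Pool.Agent.Lib.MZFin.BCast

/-! Bernoulli theorem, module `BBern` (160 lines): Bernoulli numbers modulo `p`.

PROOF. `bern_PI` by strong induction on `j`: `j = 0`: `B_0 = 1`. `j ≥ 1`: `∑_(k ≤ j) C(j+1,k) B_k = 0`
(`sum_bernoulli`, `Finset.sum_range_succ`), so `(j+1) B_j = - ∑_(k<j) C(j+1,k) B_k`, and `j + 1 < p` is
invertible mod `p`: `B_j = (1/(j+1)) * (- ∑ ..)` is `p`-integral by `PI_mul`, `PI_sum`, `PI_div`.
`faul`: `wp p (m+1) = (m+1)⁻¹`, and `((m+1)⁻¹)^b = (m+1)^(p-1-b)` for `m + 1 < p` (`ZMod.pow_card_sub_one_eq_one`);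
`hs (wp p) [b] n = ∑_(m<n) (m+1)^(p-1-b) = ∑_(k<n+1) k^(p-1-b)` (`Finset.sum_range_succ'`, `p-1-b ≥ 1`). In
`ℚ`: `∑_(k ∈ range (n+1)) k^e = ∑_(i ∈ range (e+1)) bernoulli i * (e+1).choose i * (n+1)^(e+1-i) / (e+1)`
(`sum_range_pow`), `e = p-1-b`, `e + 1 = p - b`. All terms are `p`-integral (`bern_PI`: `i ≤ e`, so
`i + 1 ≤ p - b < p`; `e + 1 < p`), apply `rc p` (`rc_sum'`, `rc_mul'`, `PI_div`, `rc_intCast`); the left side is
`rc p` of an integer. -/

open Finset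

namespace Pool.MZFin

private theorem BBern_ne {p : ℕ} {m : ℕ} (h0 : 0 < m) (h : m < p) : (m : ZMod p) ≠ 0 := by
  intro h1
  rw [ZMod.natCast_eq_zero_iff] at h1
  exact absurd (Nat.le_of_dvd h0 h1) (by omega)

private theorem BBern_nat {p : ℕ} (hp : p.Prime) (m : ℕ) : PI p (m : ℚ) := by
  have h := PI_int hp (m : ℤ)
  rwa [Int.cast_natCast] at h

private theorem BBern_rcnat (p : ℕ) (m : ℕ) : rc p (m : ℚ) = (m : ZMod p) := by
  have h := rc_intCast p (m : ℤ)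
  rwa [Int.cast_natCast, Int.cast_natCast] at h

theorem bern_PI {p : ℕ} (hp : p.Prime) (j : ℕ) (hj : j + 1 < p) : PI p (bernoulli j) := by
  induction j using Nat.strong_induction_on with
  | _ j ih =>
    rcases Nat.eq_zero_or_pos j with rfl | hj0
    · rw [bernoulli_zero]
      have h := BBern_nat hp 1
      rwa [Nat.cast_one] at h
    · have h := sum_bernoulli (j + 1)
      rw [Finset.sum_range_succ, if_neg (by omega), Nat.choose_succ_self_right] at h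
      have hne : ((j + 1 : ℕ) : ℚ) ≠ 0 := Nat.cast_ne_zero.2 (by omega)
      have hb : bernoulli j = ((1 : ℤ) : ℚ) / ((j + 1 : ℕ) : ℚ) *
          (((-1 : ℤ) : ℚ) * ∑ k ∈ range j, ((j + 1).choose k : ℚ) * bernoulli k) := by
        rw [div_mul_eq_mul_div, eq_div_iff hne, Int.cast_one, one_mul, Int.cast_neg, Int.cast_one,
          neg_one_mul]
        linarith
      rw [hb]
      refine PI_mul hp (PI_div hp 1 (j + 1) (BBern_ne (by omega) hj)).1
        (PI_mul hp (PI_int hp _) (PI_sum hp _ _ fun k hk => ?_))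
      exact PI_mul hp (BBern_nat hp _) (ih k (mem_range.1 hk) (by have := mem_range.1 hk; omega))

theorem faul {p : ℕ} (hp : p.Prime) (b : ℕ) (hb : 1 ≤ b) (h : b + 1 < p) (n : ℕ) (hn : n < p) :
    hs (wp p) [b] n = ∑ i ∈ range (p - b), rc p (bernoulli i) *
      (((p - b).choose i : ℕ) : ZMod p) * (((p - b : ℕ) : ZMod p))⁻¹ *
        ((n + 1 : ℕ) : ZMod p) ^ (p - b - i) := by
  have := Fact.mk hp
  obtain ⟨e, he⟩ : ∃ e, e + 1 = p - b := ⟨p - b - 1, by omega⟩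
  have he1 : 1 ≤ e := by omega
  have hep : e + b = p - 1 := by omega
  -- the left side
  have hL : hs (wp p) [b] n = ((∑ k ∈ range (n + 1), k ^ e : ℕ) : ZMod p) := by
    rw [hs_cons, Finset.sum_range_succ', zero_pow (by omega), add_zero, Nat.cast_sum]
    refine sum_congr rfl fun m hm => ?_
    have hm' := mem_range.1 hm
    have hne : ((m + 1 : ℕ) : ZMod p) ≠ 0 := BBern_ne (by omega) (by omega)
    have h1 := ZMod.pow_card_sub_one_eq_one hne
    rw [← hep, pow_add] at h1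
    rw [hs_nil, mul_one, wp, inv_pow, Nat.cast_pow]
    exact (eq_inv_of_mul_eq_one_left h1).symm
  have hQ : ((∑ k ∈ range (n + 1), k ^ e : ℕ) : ℚ) = ∑ i ∈ range (e + 1),
      (bernoulli i * (((e + 1).choose i : ℕ) : ℚ)) * (((1 : ℤ) : ℚ) / ((e + 1 : ℕ) : ℚ)) *
        (((n + 1) ^ (e + 1 - i) : ℕ) : ℚ) := by
    rw [Nat.cast_sum]
    have h2 := sum_range_pow (n + 1) e
    have h3 : (∑ k ∈ range (n + 1), ((k ^ e : ℕ) : ℚ)) = ∑ k ∈ range (n + 1), (k : ℚ) ^ e :=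
      sum_congr rfl fun k _ => Nat.cast_pow k e
    rw [h3, h2]
    refine sum_congr rfl fun i _ => ?_
    push_cast
    ring
  have hd : ((e + 1 : ℕ) : ZMod p) ≠ 0 := BBern_ne (by omega) (by omega)
  obtain ⟨hdP, hdR⟩ := PI_div hp 1 (e + 1) hd
  rw [hL, ← BBern_rcnat, hQ, ← he]
  have hP : ∀ i ∈ range (e + 1), PI p (bernoulli i) := fun i hi =>
    bern_PI hp i (by have := mem_range.1 hi; omega)
  have hP1 : ∀ i ∈ range (e + 1), PI p (bernoulli i * (((e + 1).choose i : ℕ) : ℚ)) := fun i hi =>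
    PI_mul hp (hP i hi) (BBern_nat hp _)
  have hP2 : ∀ i ∈ range (e + 1), PI p ((bernoulli i * (((e + 1).choose i : ℕ) : ℚ)) *
      (((1 : ℤ) : ℚ) / ((e + 1 : ℕ) : ℚ))) := fun i hi => PI_mul hp (hP1 i hi) hdP
  rw [rc_sum' hp _ _ fun i hi => PI_mul hp (hP2 i hi) (BBern_nat hp _)]
  refine sum_congr rfl fun i hi => ?_
  rw [rc_mul' hp (hP2 i hi) (BBern_nat hp _), rc_mul' hp (hP1 i hi) hdP,
    rc_mul' hp (hP i hi) (BBern_nat hp _), hdR, BBern_rcnat, BBern_rcnat, Int.cast_one, one_mul,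
    Nat.cast_pow]

end Pool.MZFin
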