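import Pool.Agent.Lib.MZFin.BDefs

/-! Bernoulli theorem, module `BCast` (120 lines): rational numbers modulo `p`.

PROOF. With `Fact p.Prime`, `rc p q = (q : ZMod p)` (`rc_eq`). `PI_add`, `PI_mul`: the denominator of `q + r`
and of `q * r` divides `q.den * r.den` (`Rat.add_den_dvd`, `Rat.mul_den_dvd`) and `ZMod p` is a field.
`rc_add'`: `Rat.cast_add_of_ne_zero`, `rc_mul'`: `Rat.cast_mul_of_ne_zero`. Sums: induction on the finite set.
`PI_of_den`: if `(d : ZMod p) ≠ 0` then `a / d` is `p`-integral (`Rat.den_dvd`: `(a / d).den ∣ d`) and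
`rc p (a / d) = a * d⁻¹` (`d * (a / d) = a`, `rc_mul'`). `rc_zero_iff`: `q.den` is a unit mod `p`,
`ZMod.intCast_zmod_eq_zero_iff_dvd` / `ZMod.intCast_eq_zero_iff_dvd..`. `PI_ev`: `N = q.den` (`den_ne`).
`rc_ev_sum`: `N` larger than all the denominators of the `c i`, `r i j`. -/

open Finset

namespace Pool.MZFin

theorem PI_int {p : ℕ} (hp : p.Prime) (z : ℤ) : PI p (z : ℚ) := by
  have : Fact p.Prime := ⟨hp⟩
  simp [PI]

theorem PI_add {p : ℕ} (hp : p.Prime) {q r : ℚ} (hq : PI p q) (hr : PI p r) : PI p (q + r) := by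
  have : Fact p.Prime := ⟨hp⟩
  unfold PI at *
  intro h
  have h1 : ((q.den * r.den : ℕ) : ZMod p) = 0 := by
    obtain ⟨k, hk⟩ := Rat.add_den_dvd q r
    rw [hk, Nat.cast_mul, h, zero_mul]
  rw [Nat.cast_mul] at h1
  rcases mul_eq_zero.1 h1 with h2 | h2
  · exact hq h2
  · exact hr h2

theorem PI_mul {p : ℕ} (hp : p.Prime) {q r : ℚ} (hq : PI p q) (hr : PI p r) : PI p (q * r) := by
  have : Fact p.Prime := ⟨hp⟩
  unfold PI at *
  intro h
  have h1 : ((q.den * r.den : ℕ) : ZMod p) = 0 := by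
    obtain ⟨k, hk⟩ := Rat.mul_den_dvd q r
    rw [hk, Nat.cast_mul, h, zero_mul]
  rw [Nat.cast_mul] at h1
  rcases mul_eq_zero.1 h1 with h2 | h2
  · exact hq h2
  · exact hr h2

theorem PI_sum {p : ℕ} (hp : p.Prime) {ι : Type*} (s : Finset ι) (f : ι → ℚ)
    (h : ∀ i ∈ s, PI p (f i)) : PI p (∑ i ∈ s, f i) := by
  classical
  induction s using Finset.induction_on with
  | empty =>
    have h0 := PI_int hp 0
    simpa using h0
  | insert a s ha ih =>
    rw [Finset.sum_insert ha]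
    exact PI_add hp (h a (Finset.mem_insert_self _ _))
      (ih fun i hi => h i (Finset.mem_insert_of_mem hi))

theorem rc_add' {p : ℕ} (hp : p.Prime) {q r : ℚ} (hq : PI p q) (hr : PI p r) :
    rc p (q + r) = rc p q + rc p r := by
  have : Fact p.Prime := ⟨hp⟩
  rw [rc_eq, rc_eq, rc_eq, Rat.cast_add_of_ne_zero hq hr]

theorem rc_mul' {p : ℕ} (hp : p.Prime) {q r : ℚ} (hq : PI p q) (hr : PI p r) :
    rc p (q * r) = rc p q * rc p r := by
  have : Fact p.Prime := ⟨hp⟩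
  rw [rc_eq, rc_eq, rc_eq, Rat.cast_mul_of_ne_zero hq hr]

theorem rc_sum' {p : ℕ} (hp : p.Prime) {ι : Type*} (s : Finset ι) (f : ι → ℚ)
    (h : ∀ i ∈ s, PI p (f i)) : rc p (∑ i ∈ s, f i) = ∑ i ∈ s, rc p (f i) := by
  classical
  induction s using Finset.induction_on with
  | empty =>
    have h0 := rc_intCast p 0
    simpa using h0
  | insert a s ha ih =>
    rw [Finset.sum_insert ha, Finset.sum_insert ha,
      rc_add' hp (h a (Finset.mem_insert_self _ _))
        (PI_sum hp s f fun i hi => h i (Finset.mem_insert_of_mem hi)),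
      ih fun i hi => h i (Finset.mem_insert_of_mem hi)]

theorem PI_div {p : ℕ} (hp : p.Prime) (z : ℤ) (d : ℕ) (hd : (d : ZMod p) ≠ 0) :
    PI p ((z : ℚ) / d) ∧ rc p ((z : ℚ) / d) = (z : ZMod p) * (d : ZMod p)⁻¹ := by
  have : Fact p.Prime := ⟨hp⟩
  have h1 : PI p ((z : ℚ) / d) := by
    unfold PI
    intro h
    have h2 : ((((z : ℚ) / (d : ℤ)).den : ℤ)) ∣ (d : ℤ) := by
      have h3 := Rat.den_dvd z (d : ℤ)
      rwa [Rat.divInt_eq_div] at h3
    rw [Int.cast_natCast] at h2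
    obtain ⟨k, hk⟩ := Int.natCast_dvd_natCast.1 h2
    apply hd
    rw [hk, Nat.cast_mul, h, zero_mul]
  refine ⟨h1, ?_⟩
  have hd0 : (d : ℚ) ≠ 0 := by
    intro h0
    apply hd
    have h4 : d = 0 := by exact_mod_cast h0
    rw [h4, Nat.cast_zero]
  have h5 : PI p (d : ℚ) := by
    have := PI_int hp (d : ℤ)
    simpa using this
  have h6 := rc_mul' hp h5 h1
  rw [mul_div_cancel₀ _ hd0, rc_intCast] at h6
  have h7 : rc p (d : ℚ) = (d : ZMod p) := by
    have := rc_intCast p (d : ℤ)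
    simpa using this
  rw [h7] at h6
  rw [h6, mul_comm, ← mul_assoc, inv_mul_cancel₀ hd, one_mul]

theorem rc_zero_iff {p : ℕ} (hp : p.Prime) {q : ℚ} (hq : PI p q) :
    rc p q = 0 ↔ (p : ℤ) ∣ q.num := by
  have : Fact p.Prime := ⟨hp⟩
  unfold rc
  rw [mul_eq_zero, or_iff_left (inv_ne_zero hq), ZMod.intCast_zmod_eq_zero_iff_dvd]

theorem PI_ev (q : ℚ) : ∀ p : ℕ, p.Prime → q.den < p → PI p q := by
  intro p hp h
  exact den_ne p hp q h

theorem rc_ev_sum {ι κ : Type*} [Fintype ι] [Fintype κ] (c : ι → ℚ) (r : ι → κ → ℚ) :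
    ∃ N : ℕ, ∀ p : ℕ, p.Prime → N < p → ∀ j : κ,
      rc p (∑ i, c i * r i j) = ∑ i, rc p (c i) * rc p (r i j) := by
  classical
  refine ⟨(∑ i, (c i).den) + ∑ i, ∑ j, (r i j).den, fun p hp hN j => ?_⟩
  have h1 : ∀ i, PI p (c i) := fun i => PI_ev _ p hp (by
    have := Finset.single_le_sum (f := fun i => (c i).den) (fun i _ => Nat.zero_le _)
      (Finset.mem_univ i)
    omega)
  have h2 : ∀ i, PI p (r i j) := fun i => PI_ev _ p hp (by
    have h3 := Finset.single_le_sum (f := fun i => ∑ j, (r i j).den) (fun i _ => Nat.zero_le _)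
      (Finset.mem_univ i)
    have h4 := Finset.single_le_sum (f := fun j => (r i j).den) (fun i _ => Nat.zero_le _)
      (Finset.mem_univ j)
    omega)
  rw [rc_sum' hp _ _ fun i _ => PI_mul hp (h1 i) (h2 i)]
  exact Finset.sum_congr rfl fun i _ => rc_mul' hp (h1 i) (h2 i)

end Pool.MZFin
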