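import Pool.Agent.Lib.MZFin.Defs

/-! Bernoulli numbers `B_(p-k)` modulo `p` (helper93's theorem, for MP_a3a416_nt, infinitude of regular
primes): definitions. The engine is the one of the finite multiple zeta values (`MZFin`), with words of
depth at most one, so that only the finite double zeta values occur, which are rational multiples of
`B_(p-k)` modulo `p`, and with sharp denominators. -/

open Finset

namespace Pool.MZFin

/-- the words of depth at most one with letter `≤ n` -/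
def A1 (n : ℕ) : Finset (List ℕ) := (range (n + 1)).image fun a => if a = 0 then [] else [a]

/-- the words of depth at most two and weight `≤ n` -/
def W2 (n : ℕ) : Finset (List ℕ) := (Wd n).filter fun l => l.length ≤ 2

/-- `∏_(i=1)^n lcm(1, .., [m/i])` -/
def dq (n m : ℕ) : ℕ := ∏ i ∈ range n, Nat.lcmUpto (m / (i + 1))

/-- the common denominator of the forms with words of depth `≤ 2` and weight `≤ n` -/
def E2 (n m : ℕ) : ℕ := Nat.lcmUpto m ^ 2 * dq n m

/-- `N` is a multiple of `d_m^r` times the product of any set of at most `n` integers `1 ≤ s ≤ k` -/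
def Good (m r n k N : ℕ) : Prop :=
  ∀ S : Finset ℕ, (∀ s ∈ S, 1 ≤ s ∧ s ≤ k) → S.card ≤ n → Nat.lcmUpto m ^ r * ∏ s ∈ S, s ∣ N

/-- the denominator of `q` is prime to `p` -/
def PI (p : ℕ) (q : ℚ) : Prop := (q.den : ZMod p) ≠ 0

/-- the odd numbers `3 ≤ k ≤ K` -/
def Od (K : ℕ) : Finset ℕ := (Icc 3 K).filter fun k => k % 2 = 1

/-- `1` and the classes of `B_(p-k)`, `k ∈ S`, are linearly independent over `ℚ` (equivalently `ℤ`)
along the primes of `P` -/
def BInd (P : Set ℕ) (S : Finset ℕ) : Prop :=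
  ∀ c : ℕ → ℤ, (c 0 ≠ 0 ∨ ∃ k ∈ S, c k ≠ 0) → ∀ N : ℕ, ∃ p ∈ P, N < p ∧ p.Prime ∧
    ¬ (p : ℤ) ∣ ((c 0 : ℚ) + ∑ k ∈ S, (c k : ℚ) * bernoulli (p - k)).num

/-- `p` divides the numerator of `B_(p-k)` -/
def Dv (p k : ℕ) : Prop := (p : ℤ) ∣ (bernoulli (p - k)).num

open Classical in
/-- the number of primes `p ≤ X` in `P` -/
noncomputable def cnt (P : Set ℕ) (X : ℕ) : ℕ :=
  ((range (X + 1)).filter fun p => p ∈ P ∧ p.Prime).card

/-- the set `P` contains at least the proportion `δ` of the primes `≤ X` for arbitrarily large `X` -/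
def UD (P : Set ℕ) (δ : ℝ) : Prop :=
  ∀ X0 : ℕ, ∃ X : ℕ, X0 ≤ X ∧ δ * (cnt Set.univ X : ℝ) ≤ (cnt P X : ℝ)

open Classical in
/-- the same in the sense of Chebyshev's function (hypothesis of `main_ineq`) -/
def UT (P : Set ℕ) (δ : ℝ) : Prop :=
  ∀ X0 : ℕ, ∃ X : ℕ, X0 ≤ X ∧
    δ * X ≤ ∑ p ∈ (range (X + 1)).filter (fun p => p ∈ P ∧ p.Prime), Real.log p

end Pool.MZFin
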