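import Pool.Agent.Lib.MZFin.BAsyB

/-! Bernoulli theorem: an explicit form. -/

open Finset

namespace Pool.MZFin

private theorem bexp_UT : UT Set.univ (69 / 100) := by
  classical
  intro X0
  obtain ⟨n0, hn0⟩ := theta_freq (69 / 100) (by linarith [Real.log_two_gt_d9])
  refine ⟨max X0 n0, le_max_left _ _, (hn0 _ (le_max_right _ _)).trans (le_of_eq ?_)⟩
  refine Finset.sum_congr ?_ fun _ _ => rfl
  ext p
  simp only [Finset.mem_filter]

theorem dim_explicit {mom : (List ℕ → ℚ) → List ℕ → List ℕ → ℕ → ℚ} (hm : HBern mom) :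
    2 ≤ dimF Set.univ (W2 999) := by
  obtain ⟨n, hn⟩ : ∃ n : ℕ, n = 999 := ⟨_, rfl⟩
  rw [← hn]
  obtain ⟨w, hw⟩ : ∃ w : ℕ, w = 199 := ⟨_, rfl⟩
  have hnw : n = 5 * w + 4 := by omega
  by_contra hcon
  have hd : (dimF Set.univ (W2 n) : ℝ) ≤ 1 := by
    exact_mod_cast (by omega : dimF Set.univ (W2 n) ≤ 1)
  obtain ⟨L, hδL, hL75, hL1, hL2⟩ := exists_limsup Set.univ (69 / 100) bexp_UT
  have hL0 : 0 < L := by linarith
  obtain ⟨C, hC⟩ := hm.2 w
  rw [← hnw] at hC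
  set s : ℝ := √(24 * 200 / L) with hs
  have hs0 : 0 < s := Real.sqrt_pos.2 (by positivity)
  have hs2 : s ^ 2 = 24 * 200 / L := Real.sq_sqrt (by positivity)
  obtain ⟨κ, hκdef⟩ : ∃ κ : ℕ, κ = ⌈s⌉₊ - 1 := ⟨_, rfl⟩
  have hceil : 1 ≤ ⌈s⌉₊ := Nat.one_le_iff_ne_zero.2 (Nat.ceil_pos.2 hs0).ne'
  have hκc : (κ : ℝ) + 1 = (⌈s⌉₊ : ℝ) := by
    rw [hκdef]
    have : ((⌈s⌉₊ - 1 : ℕ) : ℝ) = (⌈s⌉₊ : ℝ) - 1 := by
      rw [Nat.cast_sub hceil, Nat.cast_one]
    rw [this]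
    ring
  have hκs : (κ : ℝ) < s := by
    have h1 := Nat.ceil_lt_add_one hs0.le
    linarith
  have hsκ : s ≤ (κ : ℝ) + 1 := by
    have h1 := Nat.le_ceil s
    linarith
  have hκ0 : (0 : ℝ) ≤ κ := Nat.cast_nonneg _
  have hwr : (w : ℝ) = 199 := by
    rw [hw]
    norm_num
  have h := main_ineq2 (A1 w) (A1 (4 * w + 4)) (W2 n) (A1_TC1 _) (A1_TC1 _)
    (by rw [A1_card, A1_card]; omega) (nil_mem_W2 _) mom hm.1 (E2 n) (one_le_E2 n) C hC
    (Real.log 4 * (Real.log (n : ℕ) + 4)) (E2_le n (by omega)) Set.univ L hL1 hL2 κ 24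
    (by norm_num) (by
      rw [A1_card]
      have h1 : (κ : ℝ) ^ 2 < s ^ 2 := pow_lt_pow_left₀ hκs hκ0 (by norm_num)
      rw [hs2] at h1
      have h2 := mul_lt_mul_of_pos_left h1 hL0
      have h3 : L * (24 * 200 / L) = 24 * 200 := by
        field_simp
      rw [h3] at h2
      push_cast
      rw [hwr]
      linarith)
  have hl2 := Real.log_two_lt_d9
  have hl2' := Real.log_two_gt_d9
  have hl4 : Real.log 4 = 2 * Real.log 2 := by
    have : (4 : ℝ) = 2 ^ 2 := by norm_num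
    rw [this, Real.log_pow]
    norm_num
  have hn1 : (n : ℝ) = 999 := by
    rw [hn]
    norm_num
  have hK : Real.log ((n : ℕ) : ℝ) ≤ 10 * Real.log 2 := by
    have h1 : Real.log ((n : ℕ) : ℝ) ≤ Real.log (2 ^ 10) := by
      apply Real.log_le_log
      · rw [hn1]
        norm_num
      · rw [hn1]
        norm_num
    rwa [Real.log_pow] at h1
  have hK0 : 0 ≤ Real.log ((n : ℕ) : ℝ) := Real.log_nonneg (by rw [hn1]; norm_num)
  have hpos : 0 ≤ 24 + Real.log 4 + 3 / 2 * (Real.log 4 * (Real.log ((n : ℕ) : ℝ) + 4)) := by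
    rw [hl4]
    have : 0 < Real.log 2 := by linarith
    positivity
  have h2 := mul_le_mul_of_nonneg_right hd hpos
  rw [one_mul] at h2
  have h3 := h.trans h2
  rw [hl4] at h3
  have h4 : Real.log 2 * Real.log ((n : ℕ) : ℝ) ≤ 0.6931471808 * (10 * 0.6931471808) := by
    apply mul_le_mul hl2.le (hK.trans (by linarith)) hK0 (by norm_num)
  have h5 : L * (s - 5 / 2) ≤ L * ((κ : ℝ) - 3 / 2) :=
    mul_le_mul_of_nonneg_left (by linarith) hL0.le
  have h6 : 57 ≤ L * s := by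
    refine le_of_sq_le_sq ?_ (by positivity)
    have h7 : (L * s) ^ 2 = L * (24 * 200) := by
      rw [mul_pow, hs2]
      field_simp
    rw [h7]
    linarith
  nlinarith

/-- there is an odd `k ≤ 999` such that `p` does not divide `B_(p-k)` for infinitely many `p` -/
theorem bern_exists {mom : (List ℕ → ℚ) → List ℕ → List ℕ → ℕ → ℚ} (hm : HBern mom) :
    ∃ k ∈ Od 999, ∀ N : ℕ, ∃ p : ℕ, N < p ∧ p.Prime ∧ ¬ Dv p k := by
  obtain ⟨S, hS, hI, hd⟩ := dimF_le_ind Set.univ (fun N => by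
    obtain ⟨p, hp, hpp⟩ := Nat.exists_infinite_primes (N + 1)
    exact ⟨p, Set.mem_univ _, by omega, hpp⟩) 999
  have h1 := dim_explicit hm
  have h2 : S.Nonempty := by
    rw [← Finset.card_pos]
    omega
  obtain ⟨k, hk⟩ := h2
  refine ⟨k, hS hk, fun N => ?_⟩
  have hk0 : k ≠ 0 := by
    have := (mem_Icc.1 (mem_filter.1 (hS hk)).1).1
    omega
  obtain ⟨p, -, hp1, hp2, hp3⟩ := hI (fun j => if j = k then 1 else 0) (Or.inr ⟨k, hk, by simp⟩) N
  refine ⟨p, hp1, hp2, fun h => hp3 ?_⟩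
  have h3 : (((if (0 : ℕ) = k then (1 : ℤ) else 0 : ℤ) : ℚ) + ∑ j ∈ S,
      (((if j = k then (1 : ℤ) else 0 : ℤ)) : ℚ) * bernoulli (p - j)) = bernoulli (p - k) := by
    rw [if_neg (fun h => hk0 h.symm), Finset.sum_eq_single k]
    · simp
    · intro j _ hj
      rw [if_neg hj]
      simp
    · intro h
      exact absurd hk h
  rw [h3]
  exact h

end Pool.MZFin
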