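import Pool.Agent.Lib.MZFin.BDefs

/-! Bernoulli theorem, module `BGood` (150 lines): denominators.

PROOF. `good_mono`: clear. `good_div`: with `S = {k+1}` (card `1 ≤ n+1`): `d^r * (k+1) ∣ N`, so
`N = (k+1) * N'`; for `S ⊆ [1,k]`, `|S| ≤ n`, `insert (k+1) S` has card `≤ n+1` and product
`(k+1) * ∏ S`; cancel `k+1 > 0` (`Nat.dvd_of_mul_dvd_mul_left`). `good_abel`: if `k+1 ∈ S` then
`∏ S = (k+1) * ∏ (S.erase (k+1))`, `k+1 ∣ lcmUpto m` (`Finset.dvd_lcm`, `k + 1 ≤ m`), so
`d^r ∏ S ∣ d^(r+1) ∏ (S.erase (k+1)) ∣ N`; otherwise `S ⊆ [1,k]` and `d^r ∣ d^(r+1)`.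
`prod_dvd_dq`: both sides are nonzero, compare factorizations (`Nat.factorization_le_iff_dvd`,
`(Nat.factorization_prime_le_iff_dvd ..)`: for every prime `q`). `L = Nat.log q m`. For `1 ≤ s ≤ m`:
`s.factorization q = #{e ∈ Icc 1 L | q^e ∣ s}` (`Nat.factorization_eq_card_pow_dvd` or
`Nat.Prime.pow_dvd_iff_le_factorization`, the exponents `e` with `q^e ∣ s` are `1..v`, `v ≤ L`), so
`∑_(s ∈ S) v_q(s) = ∑_(e ∈ Icc 1 L) #{s ∈ S | q^e ∣ s} ≤ ∑_e min n (m / q^e)`
(the multiples of `q^e` in `[1,m]` are `m / q^e` many: `Nat.card_multiples` / `Nat.Ioc_filter_dvd_card_eq_div`).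
On the other side `v_q(dq n m) = ∑_(i < n) Nat.log q (m/(i+1))` (`Nat.factorization_prod`,
`Nat.factorization_lcmUpto`) `= ∑_(i<n) #{e ∈ Icc 1 L | q^e ≤ m/(i+1)}` (`Nat.le_log_iff_pow_le` /
`Nat.pow_le_iff_le_log`; if `m/(i+1) = 0` both are `0`) `= ∑_e #{i < n | (i+1) q^e ≤ m} = ∑_e min n (m/q^e)`
(`Nat.le_div_iff_mul_le`). `good_base` follows. -/

open Finset

namespace Pool.MZFin

theorem good_mono {m r n k j N : ℕ} (h : Good m r n k N) (hj : j ≤ k) : Good m r n j N :=
  fun S hS hc => h S (fun s hs => ⟨(hS s hs).1, (hS s hs).2.trans hj⟩) hc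

theorem good_div {m r n k N : ℕ} (h : Good m r (n + 1) (k + 1) N) :
    ∃ N' : ℕ, N = (k + 1) * N' ∧ Good m r n k N' := by
  have h1 : Nat.lcmUpto m ^ r * ∏ s ∈ ({k + 1} : Finset ℕ), s ∣ N := by
    apply h
    · intro s hs
      rw [mem_singleton] at hs
      omega
    · rw [card_singleton]
      omega
  rw [prod_singleton] at h1
  obtain ⟨N', hN'⟩ : (k + 1) ∣ N := (Dvd.intro_left _ rfl).trans h1
  refine ⟨N', hN', fun S hS hc => ?_⟩
  have hk : k + 1 ∉ S := by
    intro hk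
    have := (hS _ hk).2
    omega
  have h2 : Nat.lcmUpto m ^ r * ∏ s ∈ insert (k + 1) S, s ∣ N := by
    apply h
    · intro s hs
      rcases mem_insert.1 hs with h3 | h3
      · omega
      · have := hS s h3
        omega
    · rw [card_insert_of_notMem hk]
      omega
  rw [prod_insert hk, hN'] at h2
  have h3 : (k + 1) * (Nat.lcmUpto m ^ r * ∏ s ∈ S, s) ∣ (k + 1) * N' := by
    have e : Nat.lcmUpto m ^ r * ((k + 1) * ∏ s ∈ S, s) =
        (k + 1) * (Nat.lcmUpto m ^ r * ∏ s ∈ S, s) := by ring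
    rwa [e] at h2
  exact Nat.dvd_of_mul_dvd_mul_left (Nat.succ_pos k) h3

theorem good_abel {m r n k N : ℕ} (h : Good m (r + 1) n k N) (hk : k + 1 ≤ m) :
    Good m r n (k + 1) N := by
  intro S hS hc
  by_cases hS1 : k + 1 ∈ S
  · have h1 : Nat.lcmUpto m ^ (r + 1) * ∏ s ∈ S.erase (k + 1), s ∣ N := by
      apply h
      · intro s hs
        have h2 := mem_erase.1 hs
        have h3 := hS s h2.2
        have h4 := h2.1
        omega
      · exact (card_le_card (erase_subset _ _)).trans hc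
    have h2 : (k + 1) ∣ Nat.lcmUpto m := by
      unfold Nat.lcmUpto
      exact Finset.dvd_lcm (f := id) (mem_Icc.2 ⟨by omega, hk⟩)
    have h3 : ∏ s ∈ S, s = (k + 1) * ∏ s ∈ S.erase (k + 1), s :=
      (mul_prod_erase S (fun s => s) hS1).symm
    refine Dvd.dvd.trans ?_ h1
    rw [h3, pow_succ, mul_assoc]
    exact mul_dvd_mul_left _ (mul_dvd_mul_right h2 _)
  · have h1 : Nat.lcmUpto m ^ (r + 1) * ∏ s ∈ S, s ∣ N := by
      apply h
      · intro s hs
        have h3 := hS s hs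
        have h4 : s ≠ k + 1 := by
          rintro rfl
          exact hS1 hs
        omega
      · exact hc
    refine Dvd.dvd.trans ?_ h1
    exact mul_dvd_mul_right (pow_dvd_pow _ (Nat.le_succ r)) _

private theorem BGood_log {q : ℕ} (hq : q.Prime) {x m : ℕ} (hx : x ≤ m) :
    Nat.log q x = ((Ico 1 (Nat.log q m + 1)).filter fun e => q ^ e ≤ x).card := by
  rcases Nat.eq_zero_or_pos x with rfl | hx0
  · rw [Nat.log_zero_right]
    symm
    rw [card_eq_zero, filter_eq_empty_iff]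
    intro e _ he
    have := Nat.pow_pos (n := e) hq.pos
    omega
  · have h1 : (Ico 1 (Nat.log q m + 1)).filter (fun e => q ^ e ≤ x) =
        Ico 1 (Nat.log q x + 1) := by
      ext e
      rw [mem_filter, mem_Ico, mem_Ico]
      have h2 : q ^ e ≤ x ↔ e ≤ Nat.log q x :=
        (Nat.le_log_iff_pow_le hq.one_lt hx0.ne').symm
      have h3 : Nat.log q x ≤ Nat.log q m := Nat.log_mono_right hx
      rw [h2]
      omega
    rw [h1, Nat.card_Ico]
    omega

theorem prod_dvd_dq (m n : ℕ) (S : Finset ℕ) (hS : ∀ s ∈ S, 1 ≤ s ∧ s ≤ m) (hc : S.card ≤ n) :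
    ∏ s ∈ S, s ∣ dq n m := by
  have hS0 : ∏ s ∈ S, s ≠ 0 := by
    rw [prod_ne_zero_iff]
    intro s hs
    have := hS s hs
    omega
  have hd0 : dq n m ≠ 0 := by
    unfold dq
    rw [prod_ne_zero_iff]
    intro i _
    exact Nat.lcmUpto_ne_zero _
  rw [← Nat.factorization_prime_le_iff_dvd hS0 hd0]
  intro q hq
  set L := Nat.log q m with hL
  have e1 : (∏ s ∈ S, s).factorization q =
      ∑ e ∈ Ico 1 (L + 1), (S.filter fun s => q ^ e ∣ s).card := by
    rw [Nat.factorization_prod (fun s hs => by have := hS s hs; omega), Finsupp.coe_finsetSum,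
      Finset.sum_apply]
    have h1 : ∀ s ∈ S, s.factorization q = ∑ e ∈ Ico 1 (L + 1), if q ^ e ∣ s then 1 else 0 := by
      intro s hs
      have h2 := hS s hs
      rw [Nat.factorization_eq_card_pow_dvd_of_lt hq h2.1
        (lt_of_le_of_lt h2.2 (Nat.lt_pow_succ_log_self hq.one_lt m)), card_filter]
    rw [sum_congr rfl h1, sum_comm]
    refine sum_congr rfl fun e _ => ?_
    rw [card_filter]
  have e2 : (dq n m).factorization q =
      ∑ e ∈ Ico 1 (L + 1), ((range n).filter fun i => q ^ e ≤ m / (i + 1)).card := by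
    unfold dq
    rw [Nat.factorization_prod (fun i _ => Nat.lcmUpto_ne_zero _), Finsupp.coe_finsetSum,
      Finset.sum_apply]
    have h1 : ∀ i ∈ range n, (Nat.lcmUpto (m / (i + 1))).factorization q =
        ∑ e ∈ Ico 1 (L + 1), if q ^ e ≤ m / (i + 1) then 1 else 0 := by
      intro i _
      rw [Nat.factorization_lcmUpto _ hq, BGood_log hq (Nat.div_le_self m (i + 1)), card_filter]
    rw [sum_congr rfl h1, sum_comm]
    refine sum_congr rfl fun e _ => ?_
    rw [card_filter]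
  rw [e1, e2]
  refine sum_le_sum fun e _ => ?_
  have hqe : 0 < q ^ e := Nat.pow_pos hq.pos
  have h1 : (S.filter fun s => q ^ e ∣ s).card ≤ min n (m / q ^ e) := by
    apply le_min
    · exact (card_le_card (filter_subset _ _)).trans hc
    · rw [← Nat.Ioc_filter_dvd_card_eq_div m (q ^ e)]
      apply card_le_card
      intro s hs
      rw [mem_filter] at hs ⊢
      have := hS s hs.1
      exact ⟨mem_Ioc.2 ⟨this.1, this.2⟩, hs.2⟩
  refine h1.trans ?_
  have h2 : range (min n (m / q ^ e)) ⊆ (range n).filter fun i => q ^ e ≤ m / (i + 1) := by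
    intro i hi
    rw [mem_range, lt_min_iff] at hi
    rw [mem_filter, mem_range]
    refine ⟨hi.1, ?_⟩
    rw [Nat.le_div_iff_mul_le (Nat.succ_pos i), mul_comm, ← Nat.le_div_iff_mul_le hqe]
    exact hi.2
  have h3 := card_le_card h2
  rwa [card_range] at h3

theorem good_base (m n : ℕ) : Good m 2 n m (E2 n m) := by
  intro S hS hc
  unfold E2
  exact mul_dvd_mul_left _ (prod_dvd_dq m n S hS hc)

end Pool.MZFin
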