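import Pool.Agent.Lib.MZFin.DOne

/-! MP_c511df_nt: the dimension of the space of finite multiple zeta values of weight `k` in the terms of
S18415, and independent sets of words. -/

open Finset

namespace Pool.MZFin

/-- `S` is a set of words whose finite multiple zeta values, restricted to the primes of `P`, are linearly
independent over `ℚ` -/
def IndepP (P : Set ℕ) (S : Finset (List ℕ)) : Prop :=
  ∀ c : List ℕ → ℚ, (∃ N : ℕ, ∀ p ∈ P, p.Prime → N < p → ∑ l ∈ S, rc p (c l) * fz p l = 0) →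
    ∀ l ∈ S, c l = 0

/-- there is a family of `d` index tuples of weight `k` with linearly independent finite multiple zeta
values -/
def FamIndep (k d : ℕ) : Prop :=
  ∃ len : Fin d → ℕ, ∃ kk : (j : Fin d) → Fin (len j) → ℕ,
    (∀ j, (∀ a, 1 ≤ kk j a) ∧ ∑ a, kk j a = k) ∧
    ∀ c : Fin d → ℚ,
      (∃ N : ℕ, ∀ p : ℕ, p.Prime → N < p →
        ∑ j : Fin d, ((c j).num : ZMod p) * ((c j).den : ZMod p)⁻¹ * fsum p (len j) (kk j) = 0) →
      ∀ j, c j = 0

/-- `d` is the dimension of the space of finite multiple zeta values of weight `k` -/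
def IsDim (k d : ℕ) : Prop := FamIndep k d ∧ ¬ FamIndep k (d + 1)

theorem IndepP.subset {P : Set ℕ} {S T : Finset (List ℕ)} (hS : IndepP P S) (hT : T ⊆ S) :
    IndepP P T := by
  classical
  rintro c ⟨N, hN⟩ l hl
  have h := hS (fun l => if l ∈ T then c l else 0) ⟨N, fun p hP hp hNp => by
    rw [← hN p hP hp hNp]
    symm
    rw [← Finset.sum_subset hT (f := fun l => rc p (if l ∈ T then c l else 0) * fz p l)]
    · refine Finset.sum_congr rfl fun l hl => ?_
      rw [if_pos hl]
    · intro l _ hl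
      rw [if_neg hl]
      simp [rc]⟩ l (hT hl)
  rwa [if_pos hl] at h

theorem IndepP.mono {P Q : Set ℕ} {S : Finset (List ℕ)} (hS : IndepP P S) (h : P ⊆ Q) :
    IndepP Q S := by
  rintro c ⟨N, hN⟩ l hl
  exact hS c ⟨N, fun p hP hp hNp => hN p (h hP) hp hNp⟩ l hl

theorem famIndep_zero (k : ℕ) : FamIndep k 0 :=
  ⟨fun j => j.elim0, fun j => j.elim0, fun j => j.elim0, fun _ _ j => j.elim0⟩

theorem famIndep_mono {k d d' : ℕ} (h : FamIndep k d) (hd : d' ≤ d) : FamIndep k d' := by
  classical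
  obtain ⟨len, kk, h1, h2⟩ := h
  refine ⟨fun j => len (Fin.castLE hd j), fun j => kk (Fin.castLE hd j),
    fun j => h1 (Fin.castLE hd j), fun c hc j => ?_⟩
  obtain ⟨N, hN⟩ := hc
  have h3 := h2 (fun i => if h : (i : ℕ) < d' then c ⟨i, h⟩ else 0) ⟨N, fun p hp hNp => by
    rw [← hN p hp hNp]
    symm
    refine Finset.sum_of_injOn (Fin.castLE hd) (Fin.castLE_injective hd).injOn
      (fun _ _ => Finset.mem_coe.2 (Finset.mem_univ _)) ?_ ?_
    · intro i _ hi
      have h4 : ¬ (i : ℕ) < d' := by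
        intro h4
        apply hi
        exact ⟨⟨i, h4⟩, Finset.mem_coe.2 (Finset.mem_univ _), rfl⟩
      rw [dif_neg h4]
      simp
    · intro j _
      have h4 : ((Fin.castLE hd j : Fin d) : ℕ) < d' := j.2
      rw [dif_pos h4]
      rfl⟩ (Fin.castLE hd j)
  have h4 : ((Fin.castLE hd j : Fin d) : ℕ) < d' := j.2
  rw [dif_pos h4] at h3
  exact h3

theorem famIndep_card {k d : ℕ} (h : FamIndep k d) : d ≤ 2 ^ (k - 1) := by
  classical
  obtain ⟨len, kk, h1, h2⟩ := h
  by_contra hd
  rw [not_le] at hd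
  let F : Fin d → Composition k := fun j =>
    { blocks := List.ofFn (kk j)
      blocks_pos := by
        intro i hi
        rw [List.mem_ofFn] at hi
        obtain ⟨a, ha⟩ := hi
        rw [← ha]
        exact (h1 j).1 a
      blocks_sum := by
        rw [List.sum_ofFn]
        exact (h1 j).2 }
  have hcard : Fintype.card (Composition k) < Fintype.card (Fin d) := by
    rw [composition_card, Fintype.card_fin]
    exact hd
  obtain ⟨i, j, hij, hF⟩ := Fintype.exists_ne_map_eq_of_card_lt F hcard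
  have hb : List.ofFn (kk i) = List.ofFn (kk j) := congrArg Composition.blocks hF
  have hz0 := h2 (fun l => if l = i then 1 else if l = j then -1 else 0) ⟨0, fun p hp _ => by
    have h3 : ∀ l : Fin d, l ∉ ({i, j} : Finset (Fin d)) →
        (((if l = i then 1 else if l = j then -1 else 0 : ℚ).num : ℤ) : ZMod p) *
        (((if l = i then 1 else if l = j then -1 else 0 : ℚ).den : ℕ) : ZMod p)⁻¹ *
          fsum p (len l) (kk l) = 0 := by
      intro l hl
      rw [Finset.mem_insert, Finset.mem_singleton, not_or] at hl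
      rw [if_neg hl.1, if_neg hl.2]
      simp
    rw [← Finset.sum_subset (Finset.subset_univ ({i, j} : Finset (Fin d))) (fun l _ hl => h3 l hl),
      Finset.sum_pair hij, if_pos rfl, if_neg (Ne.symm hij), if_pos rfl, fsum_eq p hp,
      fsum_eq p hp, hb]
    simp⟩ i
  rw [if_pos rfl] at hz0
  exact one_ne_zero hz0

theorem exists_isDim (k : ℕ) : ∃ d, IsDim k d := by
  classical
  refine ⟨Nat.findGreatest (FamIndep k) (2 ^ (k - 1)), ?_, ?_⟩
  · exact Nat.findGreatest_spec (Nat.zero_le _) (famIndep_zero k)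
  · intro h
    have h1 := Nat.le_findGreatest (famIndep_card h) h
    omega

theorem isDim_unique {k d d' : ℕ} (h : IsDim k d) (h' : IsDim k d') : d = d' := by
  rcases lt_trichotomy d d' with h1 | h1 | h1
  · exact absurd (famIndep_mono h'.1 h1) h.2
  · exact h1
  · exact absurd (famIndep_mono h.1 h1) h'.2

theorem famIndep_of_indep {P : Set ℕ} {S : Finset (List ℕ)} (hS : IndepP P S) (k : ℕ)
    (hk : S ⊆ Ws k) : FamIndep k S.card := by
  classical
  let e : Fin S.card ≃ S := S.equivFin.symm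
  refine ⟨fun j => ((e j : List ℕ)).length, fun j a => (e j : List ℕ).get a, fun j => ⟨fun a => ?_, ?_⟩,
    fun c hc j => ?_⟩
  · exact (mem_Ws.1 (hk (e j).2)).1 _ (List.get_mem _ _)
  · have h := (mem_Ws.1 (hk (e j).2)).2
    rw [← List.sum_ofFn]
    have h2 : List.ofFn (fun a => (e j : List ℕ).get a) = (e j : List ℕ) := List.ofFn_get _
    rw [h2]
    exact h
  · obtain ⟨N, hN⟩ := hc
    have h3 := hS (fun l => if h : l ∈ S then c (e.symm ⟨l, h⟩) else 0) ⟨N, fun p _ hp hNp => by
      rw [← hN p hp hNp, ← Finset.sum_coe_sort S, ← e.sum_comp]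
      refine Finset.sum_congr rfl fun i _ => ?_
      rw [dif_pos (e i).2]
      have h5 : e.symm ⟨(e i : List ℕ), (e i).2⟩ = i := by simp
      rw [h5, fsum_eq p hp]
      have h2 : List.ofFn (fun a => (e i : List ℕ).get a) = (e i : List ℕ) := List.ofFn_get _
      rw [h2, rc]⟩ (e j) (e j).2
    rw [dif_pos (e j).2] at h3
    have h5 : e.symm ⟨(e j : List ℕ), (e j).2⟩ = j := by simp
    rwa [h5] at h3

theorem isDim_ge {P : Set ℕ} {S : Finset (List ℕ)} (hS : IndepP P S) {k d : ℕ}
    (hk : S ⊆ Ws k) (hd : IsDim k d) : S.card ≤ d := by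
  by_contra h
  rw [not_le] at h
  exact hd.2 (famIndep_mono (famIndep_of_indep hS k hk) h)

/-- some weight at most `K` has at least the average number of independent values -/
theorem exists_weight {P : Set ℕ} {S : Finset (List ℕ)} (hS : IndepP P S) (K : ℕ)
    (hK : S ⊆ Wd K) :
    ∃ k ≤ K, ∃ T, T ⊆ Ws k ∧ IndepP P T ∧ (S.card : ℝ) / (K + 1) ≤ (T.card : ℝ) := by
  classical
  have h1 : S.card = ∑ k ∈ range (K + 1), (S.filter fun l => l.sum = k).card :=
    Finset.card_eq_sum_card_fiberwise fun l hl => by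
      rw [Finset.mem_coe, Finset.mem_range]
      exact Nat.lt_succ_of_le (mem_Wd.1 (hK hl)).2
  have h2 : ∃ k ∈ range (K + 1), (S.card : ℝ) / (K + 1) ≤ ((S.filter fun l => l.sum = k).card : ℝ) := by
    by_contra hcon
    push Not at hcon
    have h3 : (∑ k ∈ range (K + 1), ((S.filter fun l => l.sum = k).card : ℝ)) <
        ∑ _k ∈ range (K + 1), (S.card : ℝ) / (K + 1) :=
      Finset.sum_lt_sum_of_nonempty ⟨0, by simp⟩ hcon
    rw [Finset.sum_const, Finset.card_range, nsmul_eq_mul] at h3
    have h4 : (S.card : ℝ) = ∑ k ∈ range (K + 1), ((S.filter fun l => l.sum = k).card : ℝ) := by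
      exact_mod_cast h1
    rw [← h4] at h3
    push_cast at h3
    have h5 : ((K : ℝ) + 1) * ((S.card : ℝ) / (K + 1)) = S.card := by
      field_simp
    rw [h5] at h3
    exact lt_irrefl _ h3
  obtain ⟨k, hk, h3⟩ := h2
  refine ⟨k, Nat.lt_succ_iff.1 (Finset.mem_range.1 hk), S.filter (fun l : List ℕ => l.sum = k),
    fun l hl => ?_, hS.subset (Finset.filter_subset (fun l : List ℕ => l.sum = k) S), h3⟩
  rw [Finset.mem_filter] at hl
  exact mem_Ws.2 ⟨(mem_Wd.1 (hK hl.1)).1, hl.2⟩

end Pool.MZFin
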