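import Pool.Agent.Lib.MZFin.BRed
import Pool.Agent.Lib.MZFin.BExp
import Pool.Agent.Lib.MZFin.DTwo

/-! Bernoulli theorem, assembly in the terms of the finite double zeta values. -/

open Finset

namespace Pool.MZFin

/-- `ζ_p(1, k - 1) = - B_(p-k)` modulo `p` -/
theorem fsum_bern {p : ℕ} (hp : p.Prime) (k : ℕ) (hk : 2 ≤ k) (h : k + 1 < p) :
    fsum p 2 ![1, k - 1] = - rc p (bernoulli (p - k)) := by
  have h0 : (((1 + (k - 1) : ℕ) : ZMod p)) ≠ 0 := by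
    intro h1
    rw [ZMod.natCast_eq_zero_iff] at h1
    have := Nat.le_of_dvd (by omega) h1
    omega
  rw [fsum_eq p hp]
  have h1 : List.ofFn ![1, k - 1] = [1, k - 1] := by
    simp [List.ofFn_succ]
  rw [h1, fz_two hp 1 (k - 1) le_rfl (by omega) (by omega)]
  have h2 : 1 + (k - 1) = k := by omega
  rw [h2]
  rw [h2] at h0
  have h3 : ((-1 : ℚ)) ^ 1 * ((k.choose 1 : ℕ) : ℚ) / ((k : ℕ) : ℚ) = ((-(k : ℤ) : ℤ) : ℚ) / (k : ℕ) := by
    rw [Nat.choose_one_right]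
    push_cast
    ring
  rw [h3, (PI_div hp (-(k : ℤ)) k h0).2]
  have := Fact.mk hp
  push_cast
  rw [neg_mul, mul_inv_cancel₀ h0]
  ring

theorem not_Dv_iff {p : ℕ} (hp : p.Prime) (k : ℕ) (hk : 2 ≤ k) (h : k + 1 < p) :
    ¬ Dv p k ↔ fsum p 2 ![1, k - 1] ≠ 0 := by
  rw [fsum_bern hp k hk h, Ne, neg_eq_zero, rc_zero_iff hp (bern_PI hp (p - k) (by omega))]
  rfl

theorem ind_fsum {P : Set ℕ} {S : Finset ℕ} {K : ℕ} (hS : S ⊆ Od K) (h : BInd P S)
    (c : ℕ → ℤ) (hc : c 0 ≠ 0 ∨ ∃ k ∈ S, c k ≠ 0) (N : ℕ) :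
    ∃ p ∈ P, N < p ∧ p.Prime ∧
      (c 0 : ZMod p) + ∑ k ∈ S, (c k : ZMod p) * fsum p 2 ![1, k - 1] ≠ 0 := by
  have hk3 : ∀ k ∈ S, 3 ≤ k ∧ k ≤ K := fun k hk => mem_Icc.1 (mem_filter.1 (hS hk)).1
  obtain ⟨p, hpP, hNp, hp, hd⟩ := h (fun k => if k = 0 then c 0 else - c k) (by
    rcases hc with h | ⟨k, hk, h⟩
    · exact Or.inl (by simpa using h)
    · refine Or.inr ⟨k, hk, ?_⟩
      have := hk3 k hk
      rw [if_neg (by omega)]
      exact neg_ne_zero.2 h) (max N (K + 2))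
  refine ⟨p, hpP, lt_of_le_of_lt (le_max_left _ _) hNp, hp, fun h0 => hd ?_⟩
  have hpK : K + 2 < p := lt_of_le_of_lt (le_max_right _ _) hNp
  have hB : ∀ k ∈ S, PI p (bernoulli (p - k)) := fun k hk =>
    bern_PI hp _ (by have := hk3 k hk; omega)
  have hT : ∀ k ∈ S, PI p ((((if k = 0 then c 0 else - c k : ℤ)) : ℚ) * bernoulli (p - k)) :=
    fun k hk => PI_mul hp (PI_int hp _) (hB k hk)
  rw [← rc_zero_iff hp (PI_add hp (PI_int hp _) (PI_sum hp S _ hT)),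
    rc_add' hp (PI_int hp _) (PI_sum hp S _ hT), rc_sum' hp S _ hT, rc_intCast]
  rw [← h0]
  congr 1
  refine sum_congr rfl fun k hk => ?_
  have := hk3 k hk
  rw [rc_mul' hp (PI_int hp _) (hB k hk), rc_intCast, fsum_bern hp k (by omega) (by omega),
    if_neg (by omega : ¬ k = 0)]
  push_cast
  ring

theorem one_le_of_isDim {k d : ℕ} (hk : 3 ≤ k) (hd : IsDim k d)
    (h : ∀ N : ℕ, ∃ p : ℕ, N < p ∧ p.Prime ∧ ¬ Dv p k) : 1 ≤ d := by
  by_contra hcon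
  have hd0 : d = 0 := by omega
  subst hd0
  apply hd.2
  refine ⟨fun _ => 2, fun _ => ![1, k - 1], fun j => ⟨fun a => ?_, ?_⟩, fun c hc j => ?_⟩
  · fin_cases a
    · simp
    · simp
      omega
  · rw [Fin.sum_univ_two]
    simp
    omega
  · by_contra hcj
    obtain ⟨N, hN⟩ := hc
    obtain ⟨p, hp1, hp2, hp3⟩ := h (max N (max (k + 1) ((c j).den + (c j).num.natAbs)))
    have h1 := hN p hp2 (lt_of_le_of_lt (le_max_left _ _) hp1)
    have h2 : k + 1 < p :=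
      lt_of_le_of_lt ((le_max_left _ _).trans (le_max_right _ _)) hp1
    have h3 : (c j).den + (c j).num.natAbs < p :=
      lt_of_le_of_lt ((le_max_right _ _).trans (le_max_right _ _)) hp1
    have hj : j = 0 := Fin.fin_one_eq_zero j
    subst hj
    rw [Fin.sum_univ_one] at h1
    have := Fact.mk hp2
    have h4 := (not_Dv_iff hp2 k (by omega) h2).1 hp3
    rcases mul_eq_zero.1 h1 with h5 | h5
    · rcases mul_eq_zero.1 h5 with h6 | h6
      · rw [ZMod.intCast_zmod_eq_zero_iff_dvd] at h6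
        have h7 : (c 0).num ≠ 0 := Rat.num_ne_zero.2 hcj
        have h8 := Nat.le_of_dvd (Int.natAbs_pos.2 h7) (Int.natCast_dvd.1 h6)
        omega
      · exact den_ne p hp2 (c 0) (by omega) (inv_eq_zero.1 h6)
    · exact h4 h5

end Pool.MZFin
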