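import Pool.Agent.Lib.MZFin.RedExp
import Pool.Agent.Lib.MZFin.BGood
import Pool.Agent.Lib.MZFin.BAsy

/-! Bernoulli theorem, module `BRed`: the reduction with the sharp denominators. -/

open Finset

namespace Pool.MZFin

theorem good_mono_all {m r r' n n' k k' N : ℕ} (h : Good m r n k N) (hr : r' ≤ r) (hn : n' ≤ n)
    (hk : k' ≤ k) : Good m r' n' k' N := fun S hS hc =>
  (Nat.mul_dvd_mul_right (pow_dvd_pow _ hr) _).trans
    (h S (fun s hs => ⟨(hS s hs).1, (hS s hs).2.trans hk⟩) (hc.trans hn))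

theorem denP_good (m : ℕ) : DenP m (Good m) where
  mono _ _ _ _ _ h hj := good_mono h hj
  div _ _ _ _ h := good_div h
  abel _ _ _ _ h hk := good_abel h hk

theorem hbern : HBern mom := by
  refine ⟨hexp.1, fun w => ⟨6 ^ 2, ?_⟩⟩
  refine hred_gen (A1 w) (A1 (4 * w + 4)) (W2 (5 * w + 4)) (5 * w + 4) 2 ?_ ?_ ?_ ?_ ?_
    Good denP_good (E2 (5 * w + 4)) ?_
  · exact (A1_TC1 w).2.1
  · exact (A1_TC1 _).2.1
  · intro u hu v hv
    rcases mem_A1.1 hu with rfl | ⟨a, ha1, ha2, rfl⟩ <;>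
      rcases mem_A1.1 hv with rfl | ⟨b, hb1, hb2, rfl⟩ <;> simp <;> omega
  · intro u hu v hv
    rcases mem_A1.1 hu with rfl | ⟨a, ha1, ha2, rfl⟩ <;>
      rcases mem_A1.1 hv with rfl | ⟨b, hb1, hb2, rfl⟩ <;> simp
  · intro l h1 h2 h3
    exact mem_W2.2 ⟨h1, h2, h3⟩
  · intro m r n k hr hn hk
    exact good_mono_all (good_base m (5 * w + 4)) hr hn hk

end Pool.MZFin
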