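import Pool.Agent.Lib.MZFin.BDefs

/-! Bernoulli theorem, module `BTheta` (150 lines): from the number of primes to Chebyshev's function.

PROOF. `UT_of_UD`. `cnt univ X = π(X)` (`Nat.primeCounting`, `Nat.primesLE`.. or prove directly from
`Chebyshev.theta_le_pi_mul_log`/`theta_ge`): for large `X`: `π(X) ≥ X / (2 log X)` (`Chebyshev.pi_ge`:
`(n log 2 - log (n+1)) / log n ≤ π n`, `log 2 ≥ 0.69`). Let `X` be large with `δ π(X) ≤ cnt P X`. The primes
`p ∈ P` with `√X < p ≤ X` (`p ^ 2 > X`) number at least `cnt P X - √X - 1 ≥ δ X / (2 log X) - √X - 1 ≥ δ X / (4 log X)`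
(for large `X`, depending on `δ`; `√X log X = o(X)`), each of them has `log p ≥ (1/2) log X`, and all the terms
are `≥ 0`: `∑_(p ∈ P, p ≤ X) log p ≥ δ X / 8`. So the constant is `1/8`.
`UD_inf`: if all primes of `P` were `≤ N`, `cnt P X ≤ N + 1` for all `X`, but `π(X) → ∞`
(`Nat.tendsto_primeCounting`, or `π(X) ≥ X/(2 log X)`), contradiction with `δ π(X) ≤ N + 1`.
`cnt_add`: every prime `≤ X` is in `P` or in the complement. `cnt_mono`, `cnt_union`: cards. -/

open Finset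

namespace Pool.MZFin

private theorem btheta_ex (P : Set ℕ) (X : ℕ) :
    ∃ A : Finset ℕ, cnt P X = A.card ∧ ∀ p, p ∈ A ↔ p ≤ X ∧ p ∈ P ∧ p.Prime := by
  refine ⟨_, rfl, fun p => ?_⟩
  simp only [Finset.mem_filter, Finset.mem_range, Nat.lt_succ_iff]

private theorem btheta_cnt_univ (X : ℕ) : cnt Set.univ X = Nat.primeCounting X := by
  classical
  rw [Nat.primeCounting, Nat.primeCounting', Nat.count_eq_card_filter_range]
  unfold cnt
  congr 1
  ext p
  simp

private theorem btheta_pi_log (X : ℕ) :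
    (X : ℝ) * Real.log 2 - Real.log (X + 1) ≤ (Nat.primeCounting X : ℝ) * Real.log X :=
  (Chebyshev.psi_ge X).trans (Chebyshev.psi_le_primeCounting_mul_log X)

open Classical in
private theorem btheta_sum_ge (P : Set ℕ) (X : ℕ) (hX : 1 ≤ X) :
    ((cnt P X : ℝ) - (Nat.sqrt X + 1)) * (1 / 2 * Real.log X) ≤
      ∑ p ∈ (range (X + 1)).filter (fun p => p ∈ P ∧ p.Prime), Real.log p := by
  set A := (range (X + 1)).filter (fun p => p ∈ P ∧ p.Prime) with hA
  have hcnt : cnt P X = A.card := rfl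
  set B := A.filter fun p => Nat.sqrt X < p with hB
  have hBA : B ⊆ A := Finset.filter_subset _ _
  have hcard : A.card ≤ B.card + (Nat.sqrt X + 1) := by
    have h1 : A ⊆ B ∪ range (Nat.sqrt X + 1) := by
      intro p hp
      rw [Finset.mem_union]
      by_cases h : Nat.sqrt X < p
      · left
        rw [hB, Finset.mem_filter]
        exact ⟨hp, h⟩
      · right
        rw [Finset.mem_range]
        omega
    calc A.card ≤ (B ∪ range (Nat.sqrt X + 1)).card := Finset.card_le_card h1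
      _ ≤ B.card + (range (Nat.sqrt X + 1)).card := Finset.card_union_le _ _
      _ = B.card + (Nat.sqrt X + 1) := by rw [Finset.card_range]
  have hlogX : 0 ≤ Real.log X := Real.log_natCast_nonneg X
  have hterm : ∀ p ∈ B, 1 / 2 * Real.log X ≤ Real.log p := by
    intro p hp
    rw [hB, Finset.mem_filter] at hp
    have hlt : X < p * p := Nat.sqrt_lt.mp hp.2
    have hXpos : (0 : ℝ) < X := by exact_mod_cast hX
    have hle : (X : ℝ) ≤ (p : ℝ) * p := by exact_mod_cast hlt.le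
    have hp0 : (p : ℝ) ≠ 0 := by
      have : p ≠ 0 := by
        rintro rfl
        simp at hlt
      exact_mod_cast this
    have h2 := Real.log_le_log hXpos hle
    rw [Real.log_mul hp0 hp0] at h2
    linarith
  have hsumB : (B.card : ℝ) * (1 / 2 * Real.log X) ≤ ∑ p ∈ B, Real.log p := by
    have := Finset.card_nsmul_le_sum B (fun p => Real.log (p : ℝ)) (1 / 2 * Real.log X) hterm
    rwa [nsmul_eq_mul] at this
  have hsumA : ∑ p ∈ B, Real.log p ≤ ∑ p ∈ A, Real.log (p : ℝ) :=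
    Finset.sum_le_sum_of_subset_of_nonneg hBA fun p _ _ => Real.log_natCast_nonneg p
  refine le_trans ?_ (hsumB.trans hsumA)
  apply mul_le_mul_of_nonneg_right _ (by positivity)
  rw [hcnt]
  have : (A.card : ℝ) ≤ B.card + (Nat.sqrt X + 1) := by exact_mod_cast hcard
  linarith

private theorem btheta_log_le (ε : ℝ) (hε : 0 < ε) :
    ∃ X1 : ℕ, ∀ X : ℕ, X1 ≤ X → Real.log X ≤ ε * Real.sqrt X := by
  have h := (isLittleO_log_rpow_atTop (show (0 : ℝ) < 1 / 2 by norm_num)).bound hε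
  have h' := tendsto_natCast_atTop_atTop (R := ℝ) |>.eventually h
  rw [Filter.eventually_atTop] at h'
  obtain ⟨X1, h1⟩ := h'
  refine ⟨X1, fun X hX => ?_⟩
  have h2 := h1 X hX
  rw [Real.norm_eq_abs, Real.norm_eq_abs, abs_of_nonneg (Real.log_natCast_nonneg X),
    abs_of_nonneg (Real.rpow_nonneg (Nat.cast_nonneg X) _), ← Real.sqrt_eq_rpow] at h2
  exact h2

theorem UT_of_UD (P : Set ℕ) (δ : ℝ) (hδ : 0 < δ) (h : UD P δ) : UT P (1 / 8 * δ) := by
  intro X0
  obtain ⟨X1, h1⟩ := btheta_log_le (δ / 20) (by positivity)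
  obtain ⟨X2, h2⟩ := btheta_log_le (1 / 20) (by norm_num)
  obtain ⟨X, hX, hc⟩ := h (max X0 (max X1 (max X2 4)))
  have hX0 : X0 ≤ X := (le_max_left _ _).trans hX
  have hX1 : X1 ≤ X := ((le_max_left _ _).trans (le_max_right _ _)).trans hX
  have hX2 : X2 ≤ X :=
    (((le_max_left _ _).trans (le_max_right _ _)).trans (le_max_right _ _)).trans hX
  have hX4 : 4 ≤ X :=
    (((le_max_right _ _).trans (le_max_right _ _)).trans (le_max_right _ _)).trans hX
  refine ⟨X, hX0, ?_⟩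
  refine le_trans ?_ (btheta_sum_ge P X (by omega))
  rw [btheta_cnt_univ] at hc
  have hL1 := h1 X hX1
  have hL2 := h2 X hX2
  have hxr : (4 : ℝ) ≤ X := by exact_mod_cast hX4
  have hpi := btheta_pi_log X
  have hs : (Nat.sqrt X : ℝ) ≤ Real.sqrt X := Real.nat_sqrt_le_real_sqrt
  have hss : Real.sqrt X * Real.sqrt X = X := Real.mul_self_sqrt (by positivity)
  have hs1 : 1 ≤ Real.sqrt X := by
    rw [Real.one_le_sqrt]
    linarith
  have hlog2 : (0.69 : ℝ) < Real.log 2 := by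
    have := Real.log_two_gt_d9
    linarith
  have hlog0 : 0 ≤ Real.log X := Real.log_natCast_nonneg X
  have hlog1 : Real.log ((X : ℝ) + 1) ≤ 1 + Real.log X := by
    have hx0 : (0 : ℝ) < X := by linarith
    have h3 : Real.log ((X : ℝ) + 1) - Real.log X = Real.log (1 + 1 / X) := by
      rw [← Real.log_div (by positivity) (by positivity)]
      congr 1
      field_simp
    have h4 : Real.log (1 + 1 / (X : ℝ)) ≤ (1 + 1 / (X : ℝ)) - 1 :=
      Real.log_le_sub_one_of_pos (by positivity)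
    have h5 : 1 / (X : ℝ) ≤ 1 := by
      rw [div_le_one hx0]
      linarith
    linarith
  set L := Real.log X with hLdef
  set S := Real.sqrt X with hSdef
  have hSX : S ≤ X := by nlinarith
  -- lower bound for the main term
  have e1 : δ * ((X : ℝ) * Real.log 2 - Real.log ((X : ℝ) + 1)) ≤
      δ * ((Nat.primeCounting X : ℝ) * L) := mul_le_mul_of_nonneg_left hpi hδ.le
  have e2 : δ * ((Nat.primeCounting X : ℝ)) * L ≤ (cnt P X : ℝ) * L :=
    mul_le_mul_of_nonneg_right hc hlog0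
  have e3 : ((Nat.sqrt X : ℝ) + 1) * L ≤ 2 * S * (δ / 20 * S) := by
    apply mul_le_mul _ hL1 hlog0 (by positivity)
    linarith
  have e4 : 2 * S * (δ / 20 * S) = δ / 10 * X := by
    rw [← hss]
    ring
  have e5 : 0.69 * (X : ℝ) ≤ X * Real.log 2 := by nlinarith
  have e6 : Real.log ((X : ℝ) + 1) ≤ 1 + 1 / 20 * X := by linarith
  have e7 : δ * (0.69 * (X : ℝ) - (1 + 1 / 20 * X)) ≤
      δ * ((X : ℝ) * Real.log 2 - Real.log ((X : ℝ) + 1)) :=
    mul_le_mul_of_nonneg_left (by linarith) hδ.le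
  have e8 : 0 ≤ δ * ((X : ℝ) - 4) := mul_nonneg hδ.le (by linarith)
  nlinarith [e1, e2, e3, e4, e7, e8]

theorem UD_inf (P : Set ℕ) (δ : ℝ) (hδ : 0 < δ) (h : UD P δ) :
    ∀ N : ℕ, ∃ p ∈ P, N < p ∧ p.Prime := by
  intro N
  by_contra hcon
  push Not at hcon
  have hcnt : ∀ X : ℕ, cnt P X ≤ N + 1 := by
    intro X
    obtain ⟨A, hA, hm⟩ := btheta_ex P X
    rw [hA, ← Finset.card_range (N + 1)]
    apply Finset.card_le_card
    intro p hp
    rw [hm] at hp
    rw [Finset.mem_range]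
    by_contra hlt
    exact hcon p hp.2.1 (by omega) hp.2.2
  obtain ⟨X1, hX1⟩ := Filter.eventually_atTop.mp
    ((Nat.tendsto_primeCounting).eventually_ge_atTop (Nat.ceil (((N : ℝ) + 2) / δ)))
  obtain ⟨X, hX, hc⟩ := h X1
  rw [btheta_cnt_univ] at hc
  have h3 := hX1 X hX
  have h4 : ((N : ℝ) + 2) / δ ≤ (Nat.primeCounting X : ℝ) := Nat.ceil_le.mp h3
  rw [div_le_iff₀ hδ] at h4
  have h5 : (cnt P X : ℝ) ≤ (N : ℝ) + 1 := by exact_mod_cast hcnt X
  linarith

theorem cnt_mono {P Q : Set ℕ} (h : P ⊆ Q) (X : ℕ) : cnt P X ≤ cnt Q X := by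
  obtain ⟨A, hA, hmA⟩ := btheta_ex P X
  obtain ⟨B, hB, hmB⟩ := btheta_ex Q X
  rw [hA, hB]
  apply Finset.card_le_card
  intro p hp
  rw [hmA] at hp
  rw [hmB]
  exact ⟨hp.1, h hp.2.1, hp.2.2⟩

theorem cnt_compl (P : Set ℕ) (X : ℕ) : cnt P X + cnt Pᶜ X = cnt Set.univ X := by
  obtain ⟨A, hA, hmA⟩ := btheta_ex P X
  obtain ⟨B, hB, hmB⟩ := btheta_ex Pᶜ X
  obtain ⟨C, hC, hmC⟩ := btheta_ex Set.univ X
  rw [hA, hB, hC, ← Finset.card_union_of_disjoint]
  · apply congrArg
    ext p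
    rw [Finset.mem_union, hmA, hmB, hmC, Set.mem_compl_iff]
    constructor
    · rintro (h | h)
      · exact ⟨h.1, Set.mem_univ _, h.2.2⟩
      · exact ⟨h.1, Set.mem_univ _, h.2.2⟩
    · intro h
      by_cases hp : p ∈ P
      · exact Or.inl ⟨h.1, hp, h.2.2⟩
      · exact Or.inr ⟨h.1, hp, h.2.2⟩
  · rw [Finset.disjoint_left]
    intro p hp hq
    rw [hmA] at hp
    rw [hmB] at hq
    exact hq.2.1 hp.2.1

theorem cnt_biUnion {ι : Type*} (s : Finset ι) (P : ι → Set ℕ) (X : ℕ) :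
    cnt (⋃ i ∈ s, P i) X ≤ ∑ i ∈ s, cnt (P i) X := by
  classical
  obtain ⟨A, hA, hmA⟩ := btheta_ex (⋃ i ∈ s, P i) X
  choose B hB hmB using fun i => btheta_ex (P i) X
  have hsub : A ⊆ s.biUnion B := by
    intro p hp
    rw [hmA] at hp
    obtain ⟨h1, h2, h3⟩ := hp
    rw [Set.mem_iUnion] at h2
    obtain ⟨i, h2⟩ := h2
    rw [Set.mem_iUnion] at h2
    obtain ⟨hi, h2⟩ := h2
    rw [Finset.mem_biUnion]
    exact ⟨i, hi, (hmB i p).mpr ⟨h1, h2, h3⟩⟩
  rw [hA]
  refine ((Finset.card_le_card hsub).trans Finset.card_biUnion_le).trans (le_of_eq ?_)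
  exact Finset.sum_congr rfl fun i _ => (hB i).symm

end Pool.MZFin
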