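import Pool.Agent.Lib.MZFin.YLau

/-! MP_c511df_nt, finite multiple zeta values, ZERO ESTIMATE AT INFINITY, module `YPad` (150 lines): from
vanishing moments to a Pade approximation at infinity.

PROOF. Let `F = ∑ u, iota ((a u).comp (-X)) * ser (fun n => (-1)^n * m u n)`. The coefficients of
`(a u).comp (-X)` are `(-1)^k * (a u).coeff k` (`comp_neg_X_coeff` or `coeff_comp_neg_X`-type lemma,
or expand `a u` in monomials). Coefficient `n + 1` (`n ≥ 0`) of `iota q * ser g`:
`∑_(k ≤ natDegree q) q.coeff k * g (n + k)` (write `iota q = ∑ q.coeff k • (iota X)^k`,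
`(iota X)^k = single (-k) 1`, `HahnSeries.coeff_single_mul_add`, `ser_coeff`). So the coefficient
`n+1` of `F` is `∑ u ∑_k (-1)^k (a u).coeff k * (-1)^(n+k) * m u (n+k)
= (-1)^n * ∑ u ∑_k (a u).coeff k * m u (k+n)`, zero for `n ≤ M` by hypothesis. Let
`b = ∑ k ∈ range (D+1), C (F.coeff (-k)) * X^k`; `F` has `Fil (-D + 1)`, in particular `Fil (-D)`
(`Fil_iota`, `Fil 1 (ser g)`, `Fil_mul`), so `F - iota b` has vanishing coefficients at all indices
`≤ 0` (`iota_coeff_neg`) and at `1, .., M + 1` (`iota_coeff_pos`). -/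

open Polynomial Pool.MZExp

namespace Pool.MZFin

private lemma ypad_coeff_sum {ι : Type} (s : Finset ι) (f : ι → LS) (n : ℤ) :
    (∑ u ∈ s, f u).coeff n = ∑ u ∈ s, (f u).coeff n := by
  classical
  induction s using Finset.induction_on with
  | empty => simp
  | insert a s ha ih => rw [Finset.sum_insert ha, Finset.sum_insert ha, HahnSeries.coeff_add, ih]

private lemma ypad_iota_monomial (k : ℕ) (c : ℚ) :
    iota (monomial k c) = HahnSeries.single (-(k : ℤ)) c := by
  apply LS_ext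
  · intro n hn
    obtain ⟨j, rfl⟩ : ∃ j : ℕ, n = -(j : ℤ) := ⟨n.natAbs, by omega⟩
    rw [iota_coeff_neg, coeff_monomial]
    by_cases h : k = j
    · subst h
      rw [if_pos rfl, HahnSeries.coeff_single_same]
    · rw [if_neg h, HahnSeries.coeff_single_of_ne]
      intro h'
      apply h
      omega
  · intro n
    rw [iota_coeff_pos _ _ (by omega), HahnSeries.coeff_single_of_ne]
    omega

private lemma ypad_coeff (D : ℕ) (q : ℚ[X]) (hq : q.natDegree ≤ D) (g : ℕ → ℚ) (n : ℕ) :
    (iota q * ser g).coeff ((n : ℤ) + 1) =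
      ∑ k ∈ Finset.range (D + 1), q.coeff k * g (k + n) := by
  have h1 : iota q = ∑ k ∈ Finset.range (D + 1), HahnSeries.single (-(k : ℤ)) (q.coeff k) := by
    conv_lhs => rw [q.as_sum_range' (D + 1) (by omega)]
    rw [map_sum]
    exact Finset.sum_congr rfl fun k _ => ypad_iota_monomial k _
  rw [h1, Finset.sum_mul, ypad_coeff_sum]
  apply Finset.sum_congr rfl
  intro k _
  have h2 : ((n : ℤ) + 1) = (((k + n : ℕ) : ℤ) + 1) + (-(k : ℤ)) := by
    push_cast
    ring
  rw [h2, HahnSeries.coeff_single_mul_add, ser_coeff]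

private lemma ypad_comp_coeff (q : ℚ[X]) (k : ℕ) :
    (q.comp (-X)).coeff k = (-1) ^ k * q.coeff k := by
  induction q using Polynomial.induction_on' with
  | add p q hp hq => rw [add_comp, coeff_add, hp, hq, coeff_add]; ring
  | monomial n c =>
    rw [← C_mul_X_pow_eq_monomial, mul_comp, C_comp, X_pow_comp, neg_pow, ← mul_assoc,
      show (C c * (-1) ^ n : ℚ[X]) = C (c * (-1) ^ n) by simp, coeff_C_mul_X_pow, coeff_C_mul_X_pow]
    by_cases h : k = n
    · subst h
      rw [if_pos rfl, if_pos rfl]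
      ring
    · rw [if_neg h, if_neg h, mul_zero]

theorem exists_pade {ι : Type} [Fintype ι] (D M : ℕ) (a : ι → ℚ[X])
    (ha : ∀ u, (a u).natDegree ≤ D) (m : ι → ℕ → ℚ)
    (h : ∀ n ≤ M, ∑ u, ∑ k ∈ Finset.range (D + 1), (a u).coeff k * m u (k + n) = 0) :
    ∃ b : ℚ[X], b.natDegree ≤ D ∧ Fil ((M : ℤ) + 2)
      (∑ u, iota ((a u).comp (-X)) * ser (fun n => (-1) ^ n * m u n) - iota b) := by
  classical
  have hdeg : ∀ u, ((a u).comp (-X)).natDegree ≤ D := by
    intro u
    refine (natDegree_le_iff_coeff_eq_zero.2 fun k hk => ?_)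
    rw [ypad_comp_coeff, coeff_eq_zero_of_natDegree_lt ((ha u).trans_lt hk), mul_zero]
  set F : LS := ∑ u, iota ((a u).comp (-X)) * ser (fun n => (-1) ^ n * m u n) with hF
  have hlow : ∀ n : ℤ, n < -(D : ℤ) + 1 → F.coeff n = 0 := by
    intro n hn
    rw [hF, ypad_coeff_sum]
    apply Finset.sum_eq_zero
    intro u _
    exact Fil_mul (Fil_iota (hdeg u))
      (fun k hk => ser_coeff_nonpos _ k (by omega) : Fil 1 (ser fun n => (-1) ^ n * m u n)) n hn
  have hmid : ∀ n : ℕ, n ≤ M → F.coeff ((n : ℤ) + 1) = 0 := by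
    intro n hn
    rw [hF, ypad_coeff_sum]
    have h1 : ∀ u, (iota ((a u).comp (-X)) * ser (fun n => (-1) ^ n * m u n)).coeff ((n : ℤ) + 1) =
        (-1) ^ n * ∑ k ∈ Finset.range (D + 1), (a u).coeff k * m u (k + n) := by
      intro u
      rw [ypad_coeff D _ (hdeg u), Finset.mul_sum]
      apply Finset.sum_congr rfl
      intro k _
      rw [ypad_comp_coeff, pow_add]
      have h2 : ((-1 : ℚ) ^ k) * (-1) ^ k = 1 := by
        rw [← mul_pow]
        norm_num
      calc (-1 : ℚ) ^ k * (a u).coeff k * ((-1) ^ k * (-1) ^ n * m u (k + n))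
          = ((-1 : ℚ) ^ k * (-1) ^ k) * ((-1) ^ n * ((a u).coeff k * m u (k + n))) := by ring
        _ = _ := by rw [h2, one_mul]
    rw [Finset.sum_congr rfl fun u _ => h1 u, ← Finset.mul_sum, h n hn, mul_zero]
  refine ⟨∑ k ∈ Finset.range (D + 1), monomial k (F.coeff (-(k : ℤ))), ?_, ?_⟩
  · refine natDegree_sum_le_of_forall_le _ _ fun k hk => ?_
    exact (natDegree_monomial_le _).trans (by
      have := Finset.mem_range.1 hk
      omega)
  · intro n hn
    rw [HahnSeries.coeff_sub]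
    by_cases hn0 : n ≤ 0
    · obtain ⟨j, rfl⟩ : ∃ j : ℕ, n = -(j : ℤ) := ⟨n.natAbs, by omega⟩
      rw [iota_coeff_neg, finset_sum_coeff]
      simp only [coeff_monomial]
      rw [Finset.sum_ite_eq' (Finset.range (D + 1)) j fun k => F.coeff (-(k : ℤ))]
      by_cases hj : j ∈ Finset.range (D + 1)
      · rw [if_pos hj, sub_self]
      · rw [if_neg hj, sub_zero]
        apply hlow
        rw [Finset.mem_range] at hj
        omega
    · obtain ⟨j, rfl⟩ : ∃ j : ℕ, n = (j : ℤ) + 1 := ⟨(n - 1).natAbs, by omega⟩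
      rw [iota_coeff_pos _ _ (by omega), sub_zero]
      exact hmid j (by omega)

end Pool.MZFin
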