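import Pool.Agent.Lib.MZFin.YLau
import Pool.Agent.Lib.MZExp.ZUnip

/-! MP_c511df_nt, finite multiple zeta values, ZERO ESTIMATE AT INFINITY, module `YRec`: the
recursion of the moments as a recursion of Laurent series. The operator `Tm (iota X) S` acts on the
series `∑ (-1)^n f_n u^(n+1)` as the operator `tq`, `σ` acts as the binomial transform. -/

open Polynomial Pool.MZExp

namespace Pool.MZFin

private theorem ser_add (g h : ℕ → ℚ) : ser (fun n => g n + h n) = ser g + ser h := by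
  refine LS_ext (fun n hn => ?_) fun n => ?_
  · rw [HahnSeries.coeff_add, ser_coeff_nonpos _ _ hn, ser_coeff_nonpos _ _ hn,
      ser_coeff_nonpos _ _ hn, add_zero]
  · rw [HahnSeries.coeff_add, ser_coeff, ser_coeff, ser_coeff]

private theorem pow_single (l : ℕ) :
    (-(iota X)⁻¹) ^ l = HahnSeries.single (l : ℤ) ((-1 : ℚ) ^ l) := by
  have h1 : (-(iota X)⁻¹ : LS) = HahnSeries.single (1 : ℤ) (-1 : ℚ) := by
    rw [iota_X_inv]
    ext n
    rw [HahnSeries.coeff_neg, HahnSeries.coeff_single, HahnSeries.coeff_single]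
    split_ifs <;> simp
  rw [h1, HahnSeries.single_pow, nsmul_eq_mul, mul_one]

private theorem pow_mul_ser (l : ℕ) (g : ℕ → ℚ) :
    (-(iota X)⁻¹) ^ l * ser g = ser (fun n => if l ≤ n then (-1) ^ l * g (n - l) else 0) := by
  rw [pow_single]
  have key : ∀ n : ℤ, (HahnSeries.single (l : ℤ) ((-1 : ℚ) ^ l) * ser g).coeff n =
      (-1) ^ l * (ser g).coeff (n - l) := by
    intro n
    have h := HahnSeries.coeff_single_mul_add (r := (-1 : ℚ) ^ l) (x := ser g) (a := n - l)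
      (b := (l : ℤ))
    rw [sub_add_cancel] at h
    exact h
  refine LS_ext (fun n hn => ?_) fun n => ?_
  · rw [key, ser_coeff_nonpos _ _ (by omega), ser_coeff_nonpos _ _ hn, mul_zero]
  · rw [key, ser_coeff]
    by_cases h : l ≤ n
    · rw [if_pos h]
      have h1 : (n : ℤ) + 1 - l = ((n - l : ℕ) : ℤ) + 1 := by omega
      rw [h1, ser_coeff]
    · rw [if_neg h, ser_coeff_nonpos _ _ (by omega), mul_zero]

private theorem sum_Tm (S : Finset (List ℕ)) (hS : ∀ a l, a :: l ∈ S → l ∈ S)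
    (f : List ℕ → ℕ → ℚ) (v : S) :
    ∑ v' : S, Tm (iota X) S v' v * ser (fun n => (-1) ^ n * f v' n) =
      ser (fun n => (-1) ^ n * tq f v n) := by
  have h0 : ∑ v' : S, Tm (iota X) S v' v * ser (fun n => (-1) ^ n * f v' n) =
      Matrix.vecMul (fun v' : S => ser (fun n => (-1) ^ n * f v' n)) (Tm (iota X) S) v := by
    rw [Matrix.vecMul, dotProduct]
    exact Finset.sum_congr rfl fun v' _ => mul_comm _ _
  rw [h0]
  rcases v with ⟨v, hv⟩
  rcases v with _ | ⟨l, w⟩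
  · rw [Tm_vecMul_nil _ _ _ _ rfl]
    rfl
  · rw [Tm_vecMul_cons _ _ _ ⟨l :: w, hv⟩ ⟨w, hS l w hv⟩ l rfl, pow_mul_ser, ← ser_add]
    congr 1
    funext n
    change (-1) ^ n * f (l :: w) n + (if l ≤ n then (-1) ^ l * ((-1) ^ (n - l) * f w (n - l)) else 0) =
      (-1) ^ n * (f (l :: w) n + if l ≤ n then f w (n - l) else 0)
    by_cases h : l ≤ n
    · rw [if_pos h, if_pos h]
      have h1 : (-1 : ℚ) ^ n = (-1) ^ l * (-1) ^ (n - l) := by
        rw [← pow_add, Nat.add_sub_cancel' h]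
      rw [h1]
      ring
    · rw [if_neg h, if_neg h, add_zero, add_zero]

private theorem eval_inv (R : ℚ[X]) (hR : R.coeff 0 = 0) :
    R.eval₂ (algebraMap ℚ LS) (iota X)⁻¹ = ser (fun n => R.coeff (n + 1)) := by
  have h1 : (eval₂RingHom (algebraMap ℚ LS) (iota X)⁻¹ : ℚ[X] →+* LS) =
      (HahnSeries.ofPowerSeries ℤ ℚ).comp (Polynomial.coeToPowerSeries.ringHom (R := ℚ)) := by
    refine Polynomial.ringHom_ext (fun a => ?_) ?_
    · exact congrFun (congrArg DFunLike.coe (RingHom.ext_rat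
        ((eval₂RingHom (algebraMap ℚ LS) (iota X)⁻¹ : ℚ[X] →+* LS).comp C)
        (((HahnSeries.ofPowerSeries ℤ ℚ).comp
          (Polynomial.coeToPowerSeries.ringHom (R := ℚ))).comp C))) a
    · rw [RingHom.comp_apply, coe_eval₂RingHom, eval₂_X, iota_X_inv,
        Polynomial.coeToPowerSeries.ringHom_apply, Polynomial.coe_X, HahnSeries.ofPowerSeries_X]
  have h2 := congrFun (congrArg DFunLike.coe h1) R
  rw [RingHom.comp_apply, coe_eval₂RingHom, Polynomial.coeToPowerSeries.ringHom_apply] at h2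
  rw [h2, ser]
  congr 1
  ext n
  rcases n with _ | n
  · rw [PowerSeries.coeff_zero_X_mul, Polynomial.coeff_coe, hR]
  · rw [PowerSeries.coeff_succ_X_mul, PowerSeries.coeff_mk, Polynomial.coeff_coe]

theorem rec_series (σ : LS →+* LS)
    (hσ : ∀ g : ℕ → ℚ, σ (ser g) = ser (fun n => ∑ k ∈ Finset.range (n + 1), (n.choose k : ℚ) * g k))
    (S0 S1 : Finset (List ℕ)) (hS0 : ∀ a l, a :: l ∈ S0 → l ∈ S0)
    (hS1 : ∀ a l, a :: l ∈ S1 → l ∈ S1) (m : List ℕ → List ℕ → ℕ → ℚ) (R : ℚ[X])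
    (hR : R.coeff 0 = 0) (u : S0) (v : S1)
    (hrec : ∀ n : ℕ, ∑ k ∈ Finset.range (n + 1), (n.choose k : ℚ) * (-1) ^ (n - k) * m u v k =
        tq (fun u' n' => tq (fun v' n'' => m u' v' n'') v n') u n + (-1) ^ n * R.coeff (n + 1)) :
    σ (ser fun n => (-1) ^ n * m u v n) = (∑ u' : S0, ∑ v' : S1,
      Tm (iota X) S0 u' u * Tm (iota X) S1 v' v * ser (fun n => (-1) ^ n * m u' v' n)) +
        R.eval₂ (algebraMap ℚ LS) (iota X)⁻¹ := by
  have h1 : ∀ u' : S0, ∑ v' : S1,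
      Tm (iota X) S0 u' u * Tm (iota X) S1 v' v * ser (fun n => (-1) ^ n * m u' v' n) =
      Tm (iota X) S0 u' u *
        ser (fun n => (-1) ^ n * tq (fun v' n'' => m u' v' n'') v n) := by
    intro u'
    rw [← sum_Tm S1 hS1 (fun v' n'' => m u' v' n'') v, Finset.mul_sum]
    exact Finset.sum_congr rfl fun v' _ => mul_assoc _ _ _
  rw [Finset.sum_congr rfl fun u' _ => h1 u',
    sum_Tm S0 hS0 (fun u' n' => tq (fun v' n'' => m u' v' n'') v n') u, eval_inv R hR, ← ser_add, hσ]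
  congr 1
  funext n
  have h2 := congrArg (fun z => (-1 : ℚ) ^ n * z) (hrec n)
  have hnn : (-1 : ℚ) ^ n * (-1) ^ n = 1 := by
    rw [← mul_pow, neg_one_mul, neg_neg, one_pow]
  rw [mul_add, ← mul_assoc ((-1 : ℚ) ^ n) ((-1) ^ n), hnn, one_mul, Finset.mul_sum] at h2
  rw [← h2]
  refine Finset.sum_congr rfl fun k hk => ?_
  have hk' : k ≤ n := Nat.lt_succ_iff.1 (Finset.mem_range.1 hk)
  have h3 : (-1 : ℚ) ^ n * (-1) ^ (n - k) = (-1) ^ k := by
    have h4 : (-1 : ℚ) ^ n = (-1) ^ k * (-1) ^ (n - k) := by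
      rw [← pow_add, Nat.add_sub_cancel' hk']
    rw [h4, mul_assoc, ← mul_pow, neg_one_mul, neg_neg, one_pow, mul_one]
  rw [← h3]
  ring

end Pool.MZFin
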