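import Pool.Agent.Lib.MZFin.YLau

/-! MP_c511df_nt, finite multiple zeta values, ZERO ESTIMATE AT INFINITY, module `YSig` (220 lines).

The substitution `x ↦ x - 1`, i.e. `u ↦ u/(1-u)`, as a ring homomorphism of Laurent series.
PROOF. On power series: `σ₀ = PowerSeries.substAlgHom` for `s = X * (1 - X)⁻¹ = X * mk 1`
(`PowerSeries.HasSubst.of_constantCoeff_zero`), `σ₀ X = s` (`subst_X`), and
`σ₀ g = ∑ g_k s^k`: `coeff n (σ₀ g) = ∑_(k ≤ n) g_k coeff n (s^k)` (`PowerSeries.coeff_subst`,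
finite because `X^k ∣ s^k`), `coeff (n+1) (s^(k+1)) = C(n, k)`
(`s^(k+1) = X^(k+1) * (1-X)^(-(k+1))`, `PowerSeries.invOneSubPow`, `mk_one_pow_eq_mk_choose_add`:
`coeff j ((mk 1)^(k+1)) = C(k + j, k)`). `LS` is the localization of the power series away from `X`
(`LaurentSeries.of_powerSeries_localization`) and `ofPowerSeries s` is a unit of the field `LS`
(`s ≠ 0`), so `σ = IsLocalization.Away.lift`/`IsLocalization.lift` of `ofPowerSeries ∘ σ₀`:
`σ (ofPowerSeries g) = ofPowerSeries (σ₀ g)`.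
(1) `σ (iota p) = iota (p.comp (X - 1))`: both sides are ring homomorphisms in `p`
(`Polynomial.ringHom_ext'`; homomorphisms from `ℚ` are unique); at `X`: `σ (u⁻¹) = (σ u)⁻¹ =
(u/(1-u))⁻¹ = u⁻¹ - 1` (`u = ofPowerSeries X`, `ofPowerSeries s * (u⁻¹ - 1) = 1` since
`s * (1 - X) = X`).
(2) `Fil m f → Fil m (σ f)`: for `m = k` or `-k` write `f = u^m * ofPowerSeries g`
(`single (-m) 1 * f` has only nonnegative coefficients, hence is `ofPowerSeries` of something:
`g = PowerSeries.mk fun n => f.coeff (n + m)`; `HahnSeries.ext`), then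
`σ f = (σ u)^m * ofPowerSeries (σ₀ g)`, `σ u = u * ofPowerSeries (mk 1)` has `Fil 1` and
`(σ u)⁻¹ = u⁻¹ - 1` has `Fil (-1)`, powers by `Fil_mul`, power series have `Fil 0`.
(3) `σ (ser g)`: `ser g = ofPowerSeries (X * mk g)`, coefficient formula of `σ₀`. -/

open Polynomial Pool.MZExp

namespace Pool.MZFin

/-- the power series `X / (1 - X)` -/
private noncomputable def ysig_s : PowerSeries ℚ := PowerSeries.X * PowerSeries.mk 1

private theorem ysig_hs : PowerSeries.HasSubst ysig_s :=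
  PowerSeries.HasSubst.of_constantCoeff_zero' (by simp [ysig_s])

/-- the substitution on power series -/
private noncomputable def ysig0 : PowerSeries ℚ →+* PowerSeries ℚ :=
  (PowerSeries.substAlgHom (R := ℚ) ysig_hs).toRingHom

private theorem ysig0_X : ysig0 PowerSeries.X = ysig_s :=
  PowerSeries.substAlgHom_X (R := ℚ) ysig_hs

private theorem ysig_coeff_pow (n k : ℕ) (hk : k ≤ n) :
    PowerSeries.coeff (n + 1) (ysig_s ^ (k + 1)) = (n.choose k : ℚ) := by
  obtain ⟨j, rfl⟩ := Nat.exists_eq_add_of_le hk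
  have h1 : k + j + 1 = j + (k + 1) := by ring
  rw [ysig_s, mul_pow, h1, PowerSeries.coeff_X_pow_mul, PowerSeries.mk_one_pow_eq_mk_choose_add,
    PowerSeries.coeff_mk]

private theorem ysig_coeff_pow_zero (n d : ℕ) (hd : n < d) :
    PowerSeries.coeff n (ysig_s ^ d) = 0 := by
  rw [ysig_s, mul_pow, PowerSeries.coeff_X_pow_mul', if_neg (by omega)]

private theorem ysig0_coeff (f : PowerSeries ℚ) (n : ℕ) :
    PowerSeries.coeff n (ysig0 f) =
      ∑ d ∈ Finset.range (n + 1), PowerSeries.coeff d f * PowerSeries.coeff n (ysig_s ^ d) := by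
  have h1 : ysig0 f = PowerSeries.subst ysig_s f := by
    have := PowerSeries.coe_substAlgHom (R := ℚ) ysig_hs
    exact congrFun this f
  rw [h1, PowerSeries.coeff_subst' ysig_hs]
  have h2 : (Function.support fun d : ℕ => PowerSeries.coeff d f • PowerSeries.coeff n (ysig_s ^ d)) ⊆
      ↑(Finset.range (n + 1)) := by
    intro d hd
    rw [Function.mem_support] at hd
    rw [Finset.coe_range, Set.mem_Iio]
    by_contra h
    apply hd
    rw [ysig_coeff_pow_zero n d (by omega), smul_zero]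
  rw [finsum_eq_sum_of_support_subset _ h2]
  simp only [smul_eq_mul]

private theorem ysig0_ser (g : ℕ → ℚ) :
    ysig0 (PowerSeries.X * PowerSeries.mk g) = PowerSeries.X * PowerSeries.mk
      (fun n => ∑ k ∈ Finset.range (n + 1), (n.choose k : ℚ) * g k) := by
  ext n
  rw [ysig0_coeff, Finset.sum_range_succ', PowerSeries.coeff_zero_X_mul, zero_mul, add_zero]
  rcases n with _ | n
  · rw [Finset.range_zero, Finset.sum_empty, PowerSeries.coeff_zero_X_mul]
  · rw [PowerSeries.coeff_succ_X_mul, PowerSeries.coeff_mk]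
    apply Finset.sum_congr rfl
    intro k hk
    rw [PowerSeries.coeff_succ_X_mul, PowerSeries.coeff_mk,
      ysig_coeff_pow n k (by have := Finset.mem_range.mp hk; omega), mul_comm]

private theorem ysig_X : HahnSeries.ofPowerSeries ℤ ℚ PowerSeries.X =
    HahnSeries.single (1 : ℤ) (1 : ℚ) :=
  HahnSeries.ofPowerSeries_X

private theorem ysig_key : HahnSeries.ofPowerSeries ℤ ℚ ysig_s *
    (HahnSeries.single (-1 : ℤ) (1 : ℚ) - 1) = 1 := by
  have h1 : HahnSeries.single (1 : ℤ) (1 : ℚ) * HahnSeries.single (-1 : ℤ) (1 : ℚ) = 1 := by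
    rw [HahnSeries.single_mul_single]
    simp
  have h2 : HahnSeries.ofPowerSeries ℤ ℚ (PowerSeries.mk 1) *
      (1 - HahnSeries.single (1 : ℤ) (1 : ℚ)) = 1 := by
    have := congrArg (HahnSeries.ofPowerSeries ℤ ℚ) (PowerSeries.mk_one_mul_one_sub_eq_one ℚ)
    rwa [map_mul, map_sub, map_one, ysig_X] at this
  rw [ysig_s, map_mul, ysig_X]
  calc HahnSeries.single (1 : ℤ) (1 : ℚ) * HahnSeries.ofPowerSeries ℤ ℚ (PowerSeries.mk 1) *
        (HahnSeries.single (-1 : ℤ) (1 : ℚ) - 1)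
      = HahnSeries.ofPowerSeries ℤ ℚ (PowerSeries.mk 1) *
        (HahnSeries.single (1 : ℤ) (1 : ℚ) * HahnSeries.single (-1 : ℤ) (1 : ℚ) -
          HahnSeries.single (1 : ℤ) (1 : ℚ)) := by ring
    _ = 1 := by rw [h1, h2]

private theorem ysig_unit (y : Submonoid.powers (PowerSeries.X : PowerSeries ℚ)) :
    IsUnit (((HahnSeries.ofPowerSeries ℤ ℚ).comp ysig0) y) := by
  obtain ⟨y, n, rfl⟩ := y
  simp only [RingHom.coe_comp, Function.comp_apply, map_pow]
  rw [ysig0_X]
  exact (IsUnit.of_mul_eq_one _ ysig_key).pow n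

/-- the substitution on Laurent series -/
private noncomputable def ysig : LS →+* LS :=
  IsLocalization.lift (M := Submonoid.powers (PowerSeries.X : PowerSeries ℚ))
    (g := (HahnSeries.ofPowerSeries ℤ ℚ).comp ysig0) ysig_unit

private theorem ysig_of (g : PowerSeries ℚ) :
    ysig (HahnSeries.ofPowerSeries ℤ ℚ g) = HahnSeries.ofPowerSeries ℤ ℚ (ysig0 g) :=
  IsLocalization.lift_eq (M := Submonoid.powers (PowerSeries.X : PowerSeries ℚ)) ysig_unit g

private theorem ysig_u : ysig (HahnSeries.single (1 : ℤ) (1 : ℚ)) =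
    HahnSeries.ofPowerSeries ℤ ℚ ysig_s := by
  rw [← ysig_X, ysig_of, ysig0_X]

private theorem ysig_w : ysig (HahnSeries.single (-1 : ℤ) (1 : ℚ)) =
    HahnSeries.single (-1 : ℤ) (1 : ℚ) - 1 := by
  have h1 : HahnSeries.single (1 : ℤ) (1 : ℚ) * HahnSeries.single (-1 : ℤ) (1 : ℚ) = 1 := by
    rw [HahnSeries.single_mul_single]
    simp
  have h2 : HahnSeries.ofPowerSeries ℤ ℚ ysig_s * ysig (HahnSeries.single (-1 : ℤ) (1 : ℚ)) = 1 := by
    rw [← ysig_u, ← map_mul, h1, map_one]
  have h3 : HahnSeries.ofPowerSeries ℤ ℚ ysig_s ≠ 0 := left_ne_zero_of_mul_eq_one h2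
  exact mul_left_cancel₀ h3 (h2.trans ysig_key.symm)

private theorem ysig_Fil_of (g : PowerSeries ℚ) : Fil 0 (HahnSeries.ofPowerSeries ℤ ℚ g) := by
  intro n hn
  rw [HahnSeries.ofPowerSeries_apply, HahnSeries.embDomain_of_notMem_range]
  rintro ⟨m, hm⟩
  have h2 : ((m : ℕ) : ℤ) = n := hm
  omega

private theorem ysig_Fil_s : Fil 1 (HahnSeries.ofPowerSeries ℤ ℚ ysig_s) := by
  rw [ysig_s, map_mul, ysig_X]
  have h1 : Fil 1 (HahnSeries.single (1 : ℤ) (1 : ℚ)) := by
    intro n hn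
    rw [HahnSeries.coeff_single, if_neg (by omega)]
  have h2 := Fil_mul h1 (ysig_Fil_of (PowerSeries.mk 1))
  rwa [add_zero] at h2

private theorem ysig_Fil_one : Fil 0 (1 : LS) := by
  intro n hn
  rw [HahnSeries.coeff_one, if_neg (by omega)]

private theorem ysig_Fil_pow {a : ℤ} {f : LS} (h : Fil a f) (k : ℕ) : Fil (k * a) (f ^ k) := by
  induction k with
  | zero => simpa using ysig_Fil_one
  | succ k ih =>
    rw [pow_succ]
    have := Fil_mul ih h
    have h2 : ((k + 1 : ℕ) : ℤ) * a = k * a + a := by push_cast; ring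
    rwa [h2]

private theorem ysig_Fil_single (m : ℤ) : Fil m (ysig (HahnSeries.single m (1 : ℚ))) := by
  rcases Int.le_total 0 m with h | h
  · obtain ⟨k, rfl⟩ := Int.eq_ofNat_of_zero_le h
    have h1 : HahnSeries.single ((k : ℕ) : ℤ) (1 : ℚ) = (HahnSeries.single (1 : ℤ) (1 : ℚ)) ^ k := by
      rw [HahnSeries.single_pow]
      simp
    rw [h1, map_pow, ysig_u]
    have := ysig_Fil_pow ysig_Fil_s k
    rwa [mul_one] at this
  · obtain ⟨k, hk⟩ : ∃ k : ℕ, m = -(k : ℤ) := ⟨(-m).toNat, by omega⟩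
    subst hk
    have h1 : HahnSeries.single (-(k : ℤ)) (1 : ℚ) = (HahnSeries.single (-1 : ℤ) (1 : ℚ)) ^ k := by
      rw [HahnSeries.single_pow]
      simp
    rw [h1, map_pow, ysig_w]
    have h2 : Fil (-1) (HahnSeries.single (-1 : ℤ) (1 : ℚ) - 1 : LS) := by
      apply Fil_sub
      · intro n hn
        rw [HahnSeries.coeff_single, if_neg (by omega)]
      · exact Fil_mono (by omega) ysig_Fil_one
    have := ysig_Fil_pow h2 k
    rwa [mul_neg_one] at this

private theorem ysig_Fil (m : ℤ) (f : LS) (hf : Fil m f) : Fil m (ysig f) := by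
  have h0 : Fil 0 (HahnSeries.single (-m) (1 : ℚ) * f) := by
    have h1 : Fil (-m) (HahnSeries.single (-m) (1 : ℚ)) := by
      intro n hn
      rw [HahnSeries.coeff_single, if_neg (by omega)]
    have := Fil_mul h1 hf
    rwa [neg_add_cancel] at this
  obtain ⟨g, hg⟩ : ∃ g : PowerSeries ℚ, HahnSeries.ofPowerSeries ℤ ℚ g =
      HahnSeries.single (-m) (1 : ℚ) * f := by
    refine ⟨PowerSeries.mk fun n => (HahnSeries.single (-m) (1 : ℚ) * f).coeff n, ?_⟩
    ext n
    rcases lt_or_ge n 0 with hn | hn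
    · rw [ysig_Fil_of _ n hn, h0 n hn]
    · obtain ⟨k, rfl⟩ := Int.eq_ofNat_of_zero_le hn
      have := HahnSeries.ofPowerSeries_apply_coeff (Γ := ℤ)
        (PowerSeries.mk fun n => (HahnSeries.single (-m) (1 : ℚ) * f).coeff (n : ℤ)) k
      rw [PowerSeries.coeff_mk] at this
      exact this
  have h2 : f = HahnSeries.single m (1 : ℚ) * HahnSeries.ofPowerSeries ℤ ℚ g := by
    rw [hg, ← mul_assoc, HahnSeries.single_mul_single]
    simp
  rw [h2, map_mul, ysig_of]
  have := Fil_mul (ysig_Fil_single m) (ysig_Fil_of (ysig0 g))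
  rwa [add_zero] at this

theorem exists_sigma : ∃ σ : LS →+* LS,
    (∀ p : ℚ[X], σ (iota p) = iota (p.comp (X - 1))) ∧
    (∀ (m : ℤ) (f : LS), Fil m f → Fil m (σ f)) ∧
    ∀ g : ℕ → ℚ, σ (ser g) = ser (fun n => ∑ k ∈ Finset.range (n + 1), (n.choose k : ℚ) * g k) := by
  refine ⟨ysig, ?_, ysig_Fil, ?_⟩
  · intro p
    have h : ysig.comp iota = iota.comp (Polynomial.compRingHom (X - 1)) := by
      apply Polynomial.ringHom_ext'
      · exact Subsingleton.elim _ _
      · simp only [RingHom.coe_comp, Function.comp_apply, Polynomial.coe_compRingHom_apply, X_comp,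
          map_sub, map_one]
        rw [iota_X, ysig_w]
    exact RingHom.congr_fun h p
  · intro g
    rw [ser, ser, ysig_of, ysig0_ser]

end Pool.MZFin
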