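import Pool.Agent.Lib.MZFin.YAlg
import Pool.Agent.Lib.MZFin.YSig
import Pool.Agent.Lib.MZFin.YRec
import Pool.Agent.Lib.MZFin.YPad

/-! MP_c511df_nt, finite multiple zeta values: the ZERO ESTIMATE AT INFINITY, interface. -/

open Polynomial Pool.MZExp

namespace Pool.MZFin

/-- closed under taking tails, all letters at least `1`, contains the empty word -/
def TC1 (A : Finset (List ℕ)) : Prop :=
  [] ∈ A ∧ (∀ l ∈ A, ∀ a ∈ l, 1 ≤ a) ∧ ∀ a l, a :: l ∈ A → l ∈ A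

theorem zero_estM (A B : Finset (List ℕ)) (hA : TC1 A) (hB : TC1 B) (h : 4 * A.card < B.card) :
    ∃ D0 : ℕ, ∀ D : ℕ, D0 ≤ D → ∀ m : List ℕ → List ℕ → ℕ → ℚ, RecM m →
      ∀ a : A → ℚ[X], a ≠ 0 → (∀ u, (a u).natDegree ≤ D) →
        ∃ n, n ≤ D / 2 ∧ ∃ v ∈ B,
          ∑ u : A, ∑ k ∈ Finset.range (D + 1), (a u).coeff k * m u v (k + n) ≠ 0 := by
  obtain ⟨hA0, hA1, hA2⟩ := hA
  obtain ⟨hB0, hB1, hB2⟩ := hB
  obtain ⟨D0, hD0⟩ := zero_algM A B hA2 hB2 hA1 hB1 hA0 hB0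
    (A.sup List.sum + B.sup List.sum + 1) h
  obtain ⟨σ, hσ1, hσ2, hσ3⟩ := exists_sigma
  refine ⟨D0, fun D hD m hm a ha hdeg => ?_⟩
  by_contra hcon
  push Not at hcon
  obtain ⟨R, hR0, hR1, hR2, hR3⟩ := hm
  refine hD0 D hD σ (fun u v => ser fun n => (-1) ^ n * m u v n) R hσ1 hσ2 (fun u hu v hv => ?_)
    hR0 hR1 (fun u v => ?_) (fun u => (a u).comp (-X)) (fun h0 => ha ?_) (fun u => ?_) (fun v => ?_)
  · have h1 : u.sum ≤ A.sup List.sum := Finset.le_sup (f := List.sum) hu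
    have h2 : v.sum ≤ B.sup List.sum := Finset.le_sup (f := List.sum) hv
    exact (hR2 u v).1.trans (by omega)
  · exact rec_series σ hσ3 A B hA2 hB2 m (R u v) (hR2 u v).2 u v
      (hR3 u v (hA1 u u.2) (hB1 v v.2))
  · funext u
    have h1 : ((a u).comp (-X)).comp (-X) = a u := by
      rw [comp_assoc]
      simp
    have h2 : (a u).comp (-X) = 0 := congrFun h0 u
    rw [← h1, h2]
    simp
  · refine natDegree_comp_le.trans ?_
    rw [natDegree_neg, natDegree_X, mul_one]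
    exact hdeg u
  · exact exists_pade D (D / 2) a hdeg (fun u => m u v) (fun n hn => hcon n hn v v.2)

end Pool.MZFin
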