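import Pool.Agent.Lib.MZFin.BDefs
import Pool.Agent.Lib.MZFin.YMain

/-! Bernoulli theorem, module `BWord` (70 lines): the word sets. -/

open Finset

namespace Pool.MZFin

theorem mem_A1 {n : ℕ} {l : List ℕ} : l ∈ A1 n ↔ l = [] ∨ ∃ a, 1 ≤ a ∧ a ≤ n ∧ l = [a] := by
  unfold A1
  rw [mem_image]
  constructor
  · rintro ⟨a, ha, rfl⟩
    have h1 := mem_range.1 ha
    by_cases h0 : a = 0
    · exact Or.inl (if_pos h0)
    · exact Or.inr ⟨a, by omega, by omega, if_neg h0⟩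
  · rintro (rfl | ⟨a, h1, h2, rfl⟩)
    · exact ⟨0, mem_range.2 (by omega), if_pos rfl⟩
    · exact ⟨a, mem_range.2 (by omega), if_neg (by omega)⟩

theorem A1_TC1 (n : ℕ) : TC1 (A1 n) := by
  refine ⟨mem_A1.2 (Or.inl rfl), fun l hl a ha => ?_, fun a l hl => ?_⟩
  · rcases mem_A1.1 hl with rfl | ⟨b, h1, -, rfl⟩
    · simp at ha
    · rw [List.mem_singleton] at ha
      omega
  · rcases mem_A1.1 hl with h | ⟨b, -, -, h⟩
    · simp at h
    · have h2 : l = [] := by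
        have h3 := (List.cons.inj h).2
        exact h3
      exact mem_A1.2 (Or.inl h2)

theorem A1_card (n : ℕ) : (A1 n).card = n + 1 := by
  unfold A1
  rw [card_image_of_injOn, card_range]
  intro a _ b _ hab
  by_cases h0 : a = 0 <;> by_cases h1 : b = 0 <;> simp_all

theorem nil_mem_W2 (n : ℕ) : [] ∈ W2 n := by
  unfold W2
  rw [mem_filter, mem_Wd]
  simp

theorem mem_W2 {n : ℕ} {l : List ℕ} :
    l ∈ W2 n ↔ (∀ a ∈ l, 1 ≤ a) ∧ l.sum ≤ n ∧ l.length ≤ 2 := by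
  unfold W2
  rw [mem_filter, mem_Wd, and_assoc]

theorem W2_mono {n n' : ℕ} (h : n ≤ n') : W2 n ⊆ W2 n' := by
  intro l hl
  obtain ⟨h1, h2, h3⟩ := mem_W2.1 hl
  exact mem_W2.2 ⟨h1, h2.trans h, h3⟩

end Pool.MZFin
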