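import Pool.Agent.Lib.MZFin.PExp

/-! MP_c511df_nt, finite multiple zeta values, module `PNum`: the explicit lower bound
`2^(K/4) / (16 √K)` of the dimension of the span of the finite multiple zeta values of weight
`≤ K`. -/

open Finset

namespace Pool.MZFin

theorem dimF_pos (P : Set ℕ) (hP : ∀ n : ℕ, ∃ p ∈ P, p.Prime ∧ n < p) {W : Finset (List ℕ)}
    (hW : [] ∈ W) : 1 ≤ dimF P W := by
  classical
  have hne : (Pi.single (⟨[], hW⟩ : W) 1 : W → ℚ) ∉ Rel P W := by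
    intro h
    obtain ⟨P0, h0⟩ := mem_Rel.1 h
    obtain ⟨p, hp1, hp2, hp3⟩ := hP P0
    have h1 := h0 p hp1 hp2 hp3
    rw [Finset.sum_eq_single (⟨[], hW⟩ : W)] at h1
    · have : Fact p.Prime := ⟨hp2⟩
      rw [Pi.single_eq_same, fz_nil, mul_one, rc_eq, Rat.cast_one] at h1
      exact one_ne_zero h1
    · intro b _ hb
      rw [Pi.single_eq_of_ne hb]
      simp [rc]
    · intro h2
      exact absurd (mem_univ _) h2
  have hnt : Nontrivial ((W → ℚ) ⧸ Rel P W) := by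
    refine ⟨Submodule.Quotient.mk (Pi.single (⟨[], hW⟩ : W) 1), 0, fun h => hne ?_⟩
    exact (Submodule.Quotient.mk_eq_zero _).1 h
  exact Nat.one_le_iff_ne_zero.2 (Nat.pos_iff_ne_zero.1 (Module.finrank_pos (R := ℚ)
    (M := (W → ℚ) ⧸ Rel P W)))

theorem dimF_ge {mom : (List ℕ → ℚ) → List ℕ → List ℕ → ℕ → ℚ} (hm : HExp mom)
    (K : ℕ) (hK : 1 ≤ K) :
    (2 : ℝ) ^ ((K : ℝ) / 4) / (16 * √(K : ℝ)) ≤ (dimF Set.univ (Wd K) : ℝ) := by
  have hK1 : (1 : ℝ) ≤ K := by exact_mod_cast hK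
  have hsK : (1 : ℝ) ≤ √(K : ℝ) := by
    rw [Real.one_le_sqrt]
    exact hK1
  have hpos : 0 < 16 * √(K : ℝ) := by positivity
  have hd1 : (1 : ℝ) ≤ (dimF Set.univ (Wd K) : ℝ) := by
    have h1 := dimF_pos Set.univ (fun n => by
      obtain ⟨p, hp, hpp⟩ := Nat.exists_infinite_primes (n + 1)
      exact ⟨p, Set.mem_univ _, hpp, by omega⟩) (tc1_Wd K).1
    exact_mod_cast h1
  rcases Nat.lt_or_ge 24 K with h | h
  · obtain ⟨w, hw⟩ : ∃ w, w = (K - 3) / 2 := ⟨_, rfl⟩
    have hw1 : 2 * w + 3 ≤ K := by omega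
    have hw2 : K ≤ 2 * w + 4 := by omega
    have hw3 : 11 ≤ w := by omega
    have hwR : (11 : ℝ) ≤ w := by exact_mod_cast hw3
    have hmono : (dimF Set.univ (Wd (2 * w + 3)) : ℝ) ≤ (dimF Set.univ (Wd K) : ℝ) := by
      have h1 : Wd (2 * w + 3) ⊆ Wd K := fun l hl =>
        mem_Wd.2 ⟨(mem_Wd.1 hl).1, (mem_Wd.1 hl).2.trans hw1⟩
      exact_mod_cast dimF_mono Set.univ h1
    set r : ℝ := (dimF Set.univ (Wd (2 * w + 3)) : ℝ) with hr
    obtain ⟨κ, hκ⟩ : ∃ κ, κ = Nat.sqrt ((3 * w + 6) * 2 ^ w) := ⟨_, rfl⟩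
    have hκ1 : κ ^ 2 ≤ (3 * w + 6) * 2 ^ w := by
      rw [hκ]
      exact Nat.sqrt_le' _
    have hκ2 : (3 * w + 6) * 2 ^ w < (κ + 1) ^ 2 := by
      rw [hκ]
      exact Nat.lt_succ_sqrt' _
    have h1 := exp_ineq_univ hm w κ (3 * w + 6) hκ1
    push_cast at h1
    rw [← hr] at h1
    set S : ℝ := (2 : ℝ) ^ ((w : ℝ) / 2) with hS
    have hS0 : 0 < S := by positivity
    have hS2 : S * S = 2 ^ w := by
      rw [hS, ← Real.rpow_add (by norm_num), ← Real.rpow_natCast]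
      congr 1
      ring
    have hS45 : 45 ≤ S := by
      have h2 : (45 : ℝ) * 45 ≤ S * S := by
        rw [hS2]
        have h3 : (2 : ℝ) ^ 11 ≤ 2 ^ w := pow_le_pow_right₀ (by norm_num) hw3
        norm_num at h3
        linarith
      nlinarith
    have h2K : (2 : ℝ) ^ ((K : ℝ) / 4) ≤ 2 * S := by
      have h2 : (2 : ℝ) ^ ((K : ℝ) / 4) ≤ 2 ^ ((w : ℝ) / 2 + 1) := by
        apply Real.rpow_le_rpow_of_exponent_le (by norm_num)
        have : (K : ℝ) ≤ 2 * w + 4 := by exact_mod_cast hw2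
        linarith
      rw [Real.rpow_add (by norm_num), Real.rpow_one] at h2
      linarith
    set u : ℝ := √(2 * (w : ℝ) + 3) with hu
    have hu2 : u * u = 2 * w + 3 := Real.mul_self_sqrt (by positivity)
    have hu0 : 0 < u := Real.sqrt_pos.2 (by positivity)
    have hu1 : u ≤ 2 * w + 3 := by
      have : 1 ≤ u := by
        rw [hu, Real.one_le_sqrt]
        linarith
      nlinarith
    have huK : u ≤ √(K : ℝ) := by
      apply Real.sqrt_le_sqrt
      exact_mod_cast hw1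
    have hκR : (6 / 5) * u * S ≤ (κ : ℝ) + 1 := by
      have h3 : ((6 / 5) * u * S) * ((6 / 5) * u * S) ≤ ((κ : ℝ) + 1) * ((κ : ℝ) + 1) := by
        have h4 : (((3 * w + 6) * 2 ^ w : ℕ) : ℝ) ≤ (((κ + 1) ^ 2 : ℕ) : ℝ) := by
          exact_mod_cast hκ2.le
        push_cast at h4
        have h5 : ((6 / 5) * u * S) * ((6 / 5) * u * S) = (36 / 25) * (u * u) * (S * S) := by ring
        rw [h5, hu2, hS2]
        have h6 : (0 : ℝ) < 2 ^ w := by positivity
        nlinarith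
      have h7 : 0 ≤ (κ : ℝ) + 1 := by positivity
      nlinarith [abs_le_of_sq_le_sq' (a := (6 / 5) * u * S) (b := (κ : ℝ) + 1) (by nlinarith) h7]
    have hmain : 2 * S * (12 * w + 23) ≤ 16 * u * ((κ : ℝ) - 3) := by
      have h3 : 16 * u * ((6 / 5) * u * S - 4) ≤ 16 * u * ((κ : ℝ) - 3) := by
        apply mul_le_mul_of_nonneg_left _ (by positivity)
        linarith
      have h4 : 16 * u * ((6 / 5) * u * S - 4) = (96 / 5) * (u * u) * S - 64 * u := by ring
      rw [h4, hu2] at h3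
      nlinarith
    have hden : (0 : ℝ) < 12 * w + 23 := by positivity
    have hr1 : ((κ : ℝ) - 3) / (12 * w + 23) ≤ r := by
      rw [div_le_iff₀ hden]
      linarith
    refine le_trans ?_ (hr1.trans hmono)
    rw [div_le_div_iff₀ hpos hden]
    have hκ3 : 0 ≤ (κ : ℝ) - 3 := by
      by_contra hc
      push Not at hc
      have : 16 * u * ((κ : ℝ) - 3) < 0 := by
        apply mul_neg_of_pos_of_neg (by positivity) hc
      have : 0 < 2 * S * (12 * w + 23) := by positivity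
      linarith
    calc (2 : ℝ) ^ ((K : ℝ) / 4) * (12 * w + 23) ≤ 2 * S * (12 * w + 23) :=
          mul_le_mul_of_nonneg_right h2K hden.le
      _ ≤ 16 * u * ((κ : ℝ) - 3) := hmain
      _ ≤ 16 * √(K : ℝ) * ((κ : ℝ) - 3) :=
          mul_le_mul_of_nonneg_right (by linarith) hκ3
      _ = ((κ : ℝ) - 3) * (16 * √(K : ℝ)) := by ring
  · refine le_trans ?_ hd1
    rw [div_le_one hpos]
    rcases Nat.lt_or_ge K 16 with h2 | h2
    · calc (2 : ℝ) ^ ((K : ℝ) / 4) ≤ (2 : ℝ) ^ (4 : ℝ) := by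
            apply Real.rpow_le_rpow_of_exponent_le (by norm_num)
            have : (K : ℝ) ≤ 16 := by exact_mod_cast h2.le
            linarith
        _ = 16 := by norm_num
        _ ≤ 16 * √(K : ℝ) := by linarith
    · have h3 : (4 : ℝ) ≤ √(K : ℝ) := by
        apply Real.le_sqrt_of_sq_le
        have : (16 : ℝ) ≤ K := by exact_mod_cast h2
        linarith
      calc (2 : ℝ) ^ ((K : ℝ) / 4) ≤ (2 : ℝ) ^ (6 : ℝ) := by
            apply Real.rpow_le_rpow_of_exponent_le (by norm_num)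
            have : (K : ℝ) ≤ 24 := by exact_mod_cast h
            linarith
        _ = 64 := by norm_num
        _ ≤ 16 * √(K : ℝ) := by linarith

end Pool.MZFin
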