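import Pool.Agent.Lib.MZFin.DMul
import Pool.Agent.Lib.MZFin.PNum

/-! MP_c511df_nt: primes at which all values of small weight vanish; a value which does not vanish at a set
of primes of positive upper density; growth of the dimensions. -/

open Finset

namespace Pool.MZFin

open Classical in
/-- `∑_{p ∈ P, p ≤ X} log p` -/
noncomputable def lsum (P : Set ℕ) (X : ℕ) : ℝ :=
  ∑ p ∈ (range (X + 1)).filter (fun p => p ∈ P ∧ p.Prime), Real.log p

theorem lsum_eq (P : Set ℕ) (X : ℕ) [DecidablePred fun p => p ∈ P ∧ p.Prime] :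
    lsum P X = ∑ p ∈ (range (X + 1)).filter (fun p => p ∈ P ∧ p.Prime), Real.log p := by
  unfold lsum
  exact Finset.sum_congr (by ext p; simp only [mem_filter]) fun _ _ => rfl

/-- one term -/
noncomputable def lterm (P : Set ℕ) (p : ℕ) : ℝ := by
  classical
  exact if p ∈ P ∧ p.Prime then Real.log p else 0

theorem lterm_pos {P : Set ℕ} {p : ℕ} (h : p ∈ P) (hp : p.Prime) : lterm P p = Real.log p := by
  unfold lterm
  exact if_pos ⟨h, hp⟩

theorem lterm_neg {P : Set ℕ} {p : ℕ} (h : ¬ (p ∈ P ∧ p.Prime)) : lterm P p = 0 := by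
  unfold lterm
  exact if_neg h

theorem lterm_nonneg (P : Set ℕ) (p : ℕ) : 0 ≤ lterm P p := by
  by_cases h : p ∈ P ∧ p.Prime
  · rw [lterm_pos h.1 h.2]
    exact Real.log_natCast_nonneg p
  · rw [lterm_neg h]

theorem lsum_lterm (P : Set ℕ) (X : ℕ) : lsum P X = ∑ p ∈ range (X + 1), lterm P p := by
  classical
  rw [lsum_eq, Finset.sum_filter]
  refine Finset.sum_congr rfl fun p _ => ?_
  split_ifs with h
  · rw [lterm_pos h.1 h.2]
  · rw [lterm_neg h]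

/-- `∑_{p ∈ P, p ≤ X} log p ≥ δ X` for arbitrarily large `X` -/
def Freq (P : Set ℕ) (δ : ℝ) : Prop := ∀ X0 : ℕ, ∃ X : ℕ, X0 ≤ X ∧ δ * X ≤ lsum P X

theorem lsum_mono {P Q : Set ℕ} (h : P ⊆ Q) (X : ℕ) : lsum P X ≤ lsum Q X := by
  classical
  refine Finset.sum_le_sum_of_subset_of_nonneg ?_ fun p _ _ => Real.log_natCast_nonneg p
  intro p hp
  rw [mem_filter] at hp ⊢
  exact ⟨hp.1, h hp.2.1, hp.2.2⟩

/-- the main inequality -/
theorem freq_ineq {mom : (List ℕ → ℚ) → List ℕ → List ℕ → ℕ → ℚ} (hm : HExp mom) (w : ℕ)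
    {P : Set ℕ} {δ : ℝ} (hδ : 0 ≤ δ) (hP : Freq P δ) (κ x : ℕ) (hκ : κ ^ 2 ≤ x * 2 ^ w) :
    δ * κ - 3 / 2 * Real.log 4 ≤
      (dimF P (Wd (2 * w + 3)) : ℝ) * (Real.log 4 * ((x : ℝ) + 1 + 3 / 2 * (2 * w + 3))) := by
  classical
  refine exp_ineq hm P δ hδ (fun X0 => ?_) w κ x hκ
  obtain ⟨X, h1, h2⟩ := hP X0
  refine ⟨X, h1, ?_⟩
  rw [lsum_eq] at h2
  exact h2

theorem Freq.mono {P Q : Set ℕ} {δ : ℝ} (h : Freq P δ) (hPQ : P ⊆ Q) : Freq Q δ := by
  intro X0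
  obtain ⟨X, h1, h2⟩ := h X0
  exact ⟨X, h1, h2.trans (lsum_mono hPQ X)⟩

theorem not_freq {P : Set ℕ} {δ : ℝ} (h : ¬ Freq P δ) : ∃ X0 : ℕ, ∀ X : ℕ, X0 ≤ X →
    lsum P X < δ * X := by
  unfold Freq at h
  push Not at h
  exact h

/-- the set contains arbitrarily large primes -/
theorem Freq.exists_prime {P : Set ℕ} {δ : ℝ} (h : Freq P δ) (hδ : 0 < δ) (N : ℕ) :
    ∃ p ∈ P, p.Prime ∧ N < p := by
  classical
  by_contra hcon
  push Not at hcon
  obtain ⟨X1, hX1⟩ := exists_nat_gt ((∑ p ∈ range (N + 1), Real.log p) / δ)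
  obtain ⟨X, h1, h2⟩ := h X1
  have h3 : lsum P X ≤ ∑ p ∈ range (N + 1), Real.log p := by
    refine Finset.sum_le_sum_of_subset_of_nonneg ?_ fun p _ _ => Real.log_natCast_nonneg p
    intro p hp
    rw [mem_filter] at hp
    exact mem_range.2 (Nat.lt_succ_of_le (hcon p hp.2.1 hp.2.2))
  rw [div_lt_iff₀ hδ] at hX1
  have h4 : (X1 : ℝ) ≤ X := by exact_mod_cast h1
  nlinarith

theorem nil_mem_Wd (K : ℕ) : [] ∈ Wd K := mem_Wd.2 ⟨by simp, by simp⟩

/-- the primes at which all values of the weights `1, .., K` vanish -/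
def Van (K : ℕ) : Set ℕ := {p | ∀ l ∈ Wd K, l ≠ [] → fz p l = 0}

theorem Wd_mono {K K' : ℕ} (h : K ≤ K') : Wd K ⊆ Wd K' := fun l hl => by
  have h1 := mem_Wd.1 hl
  exact mem_Wd.2 ⟨h1.1, h1.2.trans h⟩

theorem Van_anti {K K' : ℕ} (h : K ≤ K') : Van K' ⊆ Van K := fun _ hp l hl hne =>
  hp l (Wd_mono h hl) hne

theorem dimF_Van (K : ℕ) : dimF (Van K) (Wd K) ≤ 1 := by
  have hz : ∀ l ∈ Wd K, l ≠ [] → vq (Van K) (Wd K) l = 0 := by
    intro l hl hne
    rw [vq, ← LinearMap.mem_ker, Submodule.ker_mkQ, mem_Rel_iff (EvEq.uv hl)]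
    exact ⟨0, fun p hp _ _ => hp l hl hne⟩
  refine finrank_le_one (vq (Van K) (Wd K) []) fun y => ?_
  obtain ⟨x, rfl⟩ := (Rel (Van K) (Wd K)).mkQ_surjective y
  refine ⟨x ⟨[], nil_mem_Wd K⟩, ?_⟩
  have h1 : (Rel (Van K) (Wd K)).mkQ x = ∑ l : Wd K, x l • vq (Van K) (Wd K) l := by
    conv_lhs => rw [← sum_uv x]
    rw [map_sum]
    exact Finset.sum_congr rfl fun l _ => by rw [map_smul, vq]
  rw [h1, Finset.sum_eq_single (⟨[], nil_mem_Wd K⟩ : Wd K)]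
  · intro l _ hl
    rw [hz l l.2 fun h => hl (Subtype.ext h), smul_zero]
  · intro h
    exact absurd (Finset.mem_univ _) h

theorem indep_card_le {P : Set ℕ} {S W : Finset (List ℕ)} (hS : IndepP P S) (h : S ⊆ W) :
    S.card ≤ dimF P W := by
  have h1 := (indepP_iff h).1 hS
  have h2 := h1.fintype_card_le_finrank
  rwa [Fintype.card_coe] at h2

/-- one value which does not vanish at a set of primes of positive upper density -/
theorem exists_word_of_not_freq (K : ℕ) (δ : ℝ) (hδ : δ < Real.log 2) (h : ¬ Freq (Van K) δ) :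
    ∃ w ∈ Wd K, w ≠ [] ∧ ∃ ε : ℝ, 0 < ε ∧ Freq {p | fz p w ≠ 0} ε := by
  classical
  set δ2 : ℝ := (δ + Real.log 2) / 2 with hδ2
  set ε : ℝ := (δ2 - δ) / 2 ^ K with hε
  have hε0 : 0 < ε := by
    rw [hε]
    apply div_pos _ (by positivity)
    rw [hδ2]
    linarith
  by_contra hcon
  push Not at hcon
  have hnf : ∀ l : List ℕ, l ∈ Wd K → l ≠ [] → ∃ X0 : ℕ, ∀ X : ℕ, X0 ≤ X →
      lsum {p | fz p l ≠ 0} X < ε * X := fun l hl hne => not_freq (hcon l hl hne ε hε0)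
  choose! Xf hXf using hnf
  obtain ⟨n0, hn0⟩ := theta_freq δ2 (by rw [hδ2]; linarith)
  obtain ⟨X1, hX1⟩ := not_freq h
  set X : ℕ := n0 + X1 + ∑ l ∈ Wd K, Xf l with hX
  have h1 : δ2 * X ≤ lsum Set.univ X := by
    rw [lsum_eq]
    exact hn0 X (by omega)
  have h2 := hX1 X (by omega)
  have h3 : ∀ l ∈ (Wd K).erase [], lsum {p | fz p l ≠ 0} X ≤ ε * X := by
    intro l hl
    rw [mem_erase] at hl
    refine (hXf l hl.2 hl.1 X ?_).le
    have := single_le_sum (f := Xf) (fun _ _ => Nat.zero_le _) hl.2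
    omega
  have h4 : lsum Set.univ X ≤ lsum (Van K) X +
      ∑ l ∈ (Wd K).erase [], lsum {p | fz p l ≠ 0} X := by
    simp only [lsum_lterm]
    rw [Finset.sum_comm, ← Finset.sum_add_distrib]
    refine Finset.sum_le_sum fun p _ => ?_
    have hnn : ∀ l ∈ (Wd K).erase [], (0 : ℝ) ≤ lterm {p | fz p l ≠ 0} p :=
      fun l _ => lterm_nonneg _ _
    by_cases hp : p.Prime
    · rw [lterm_pos (Set.mem_univ _) hp]
      by_cases hv : p ∈ Van K
      · rw [lterm_pos hv hp]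
        exact le_add_of_nonneg_right (Finset.sum_nonneg hnn)
      · rw [lterm_neg fun h => hv h.1, zero_add]
        have hv2 : ∃ l ∈ Wd K, l ≠ [] ∧ fz p l ≠ 0 := by
          by_contra hc
          push Not at hc
          exact hv hc
        obtain ⟨l, hl, hne, hf⟩ := hv2
        have h5 := Finset.single_le_sum hnn (mem_erase.2 ⟨hne, hl⟩)
        rwa [lterm_pos (show p ∈ {p | fz p l ≠ 0} from hf) hp] at h5
    · rw [lterm_neg fun h => hp h.2, lterm_neg fun h => hp h.2, zero_add]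
      exact Finset.sum_nonneg hnn
  have h5 := Finset.sum_le_sum h3
  rw [Finset.sum_const, nsmul_eq_mul] at h5
  have h6 : (((Wd K).erase []).card : ℝ) ≤ 2 ^ K := by
    have h7 : ((Wd K).erase []).card ≤ 2 ^ K := by
      rw [← Wd_card K]
      exact Finset.card_le_card (Finset.erase_subset _ _)
    exact_mod_cast h7
  have h7 : (((Wd K).erase []).card : ℝ) * (ε * X) ≤ (δ2 - δ) * X := by
    have h8 : (2 : ℝ) ^ K * (ε * X) = (δ2 - δ) * X := by
      rw [hε]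
      field_simp
    rw [← h8]
    exact mul_le_mul_of_nonneg_right h6 (by positivity)
  linarith

/-- the explicit instance: weights at most `23` -/
theorem exists_word {mom : (List ℕ → ℚ) → List ℕ → List ℕ → ℕ → ℚ} (hm : HExp mom) :
    ∃ w ∈ Wd 23, w ≠ [] ∧ ∃ ε : ℝ, 0 < ε ∧ Freq {p | fz p w ≠ 0} ε := by
  have hl2 : 0 < Real.log 2 := Real.log_pos (by norm_num)
  have hl4 : Real.log 4 = 2 * Real.log 2 := by
    rw [show (4 : ℝ) = 2 ^ 2 by norm_num, Real.log_pow]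
    norm_num
  refine exists_word_of_not_freq 23 (9 / 10 * Real.log 2) (by linarith) fun hf => ?_
  have h1 := freq_ineq hm 10 (show 0 ≤ 9 / 10 * Real.log 2 by positivity) hf 128 16 (by norm_num)
  have h2 : (dimF (Van 23) (Wd (2 * 10 + 3)) : ℝ) ≤ 1 := by
    have := dimF_Van 23
    exact_mod_cast this
  rw [hl4] at h1
  push_cast at h1
  have h3 : (dimF (Van 23) (Wd (2 * 10 + 3)) : ℝ) *
      (2 * Real.log 2 * (16 + 1 + 3 / 2 * (2 * 10 + 3))) ≤
      1 * (2 * Real.log 2 * (16 + 1 + 3 / 2 * (2 * 10 + 3))) :=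
    mul_le_mul_of_nonneg_right h2 (by positivity)
  linarith

/-- the constant of the growth -/
theorem dimF_ge_aux {mom : (List ℕ → ℚ) → List ℕ → List ℕ → ℕ → ℚ} (hm : HExp mom) {P : Set ℕ} {δ : ℝ} (hδ : 0 < δ) (hP : Freq P δ) (w : ℕ) :
    δ * Real.sqrt ((2 * w + 3) * 2 ^ w) ≤
      (dimF P (Wd (2 * w + 3)) : ℝ) * ((9 / 2 * Real.log 4 + δ) * (2 * w + 3)) := by
  have hl4 : 0 < Real.log 4 := Real.log_pos (by norm_num)
  have h1 := freq_ineq hm w hδ.le hP (Nat.sqrt ((2 * w + 3) * 2 ^ w)) (2 * w + 3)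
    (by rw [pow_two]; exact Nat.sqrt_le _)
  have h2 : Real.sqrt ((2 * w + 3) * 2 ^ w) ≤ (Nat.sqrt ((2 * w + 3) * 2 ^ w) : ℝ) + 1 := by
    rw [Real.sqrt_le_left (by positivity)]
    have h3 := (Nat.lt_succ_sqrt ((2 * w + 3) * 2 ^ w)).le
    have h4 : (((2 * w + 3) * 2 ^ w : ℕ) : ℝ) ≤
        (((Nat.sqrt ((2 * w + 3) * 2 ^ w)).succ * (Nat.sqrt ((2 * w + 3) * 2 ^ w)).succ : ℕ) : ℝ) := by
      exact_mod_cast h3
    push_cast at h4
    rw [pow_two]
    exact h4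
  have h3 : (1 : ℝ) ≤ dimF P (Wd (2 * w + 3)) := by
    exact_mod_cast dimF_pos P (fun N => hP.exists_prime hδ N) (nil_mem_Wd (2 * w + 3))
  set D : ℝ := (dimF P (Wd (2 * w + 3)) : ℝ) with hD
  set κ : ℝ := ((Nat.sqrt ((2 * w + 3) * 2 ^ w) : ℕ) : ℝ) with hκ
  have hw : (0 : ℝ) ≤ w := Nat.cast_nonneg _
  push_cast at h1
  have h4 : δ * Real.sqrt ((2 * w + 3) * 2 ^ w) ≤ δ * κ + δ := by nlinarith
  have h5 : 3 / 2 * Real.log 4 + δ ≤ D * (3 / 2 * Real.log 4 + δ) := by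
    have : 0 ≤ (D - 1) * (3 / 2 * Real.log 4 + δ) := mul_nonneg (by linarith) (by positivity)
    linarith
  have h6 : D * (Real.log 4 * ((2 * w + 3 : ℝ) + 1 + 3 / 2 * (2 * w + 3))) +
      D * (3 / 2 * Real.log 4 + δ) ≤ D * ((9 / 2 * Real.log 4 + δ) * (2 * w + 3)) := by
    rw [← mul_add]
    refine mul_le_mul_of_nonneg_left ?_ (by linarith)
    nlinarith [mul_nonneg hl4.le hw, mul_nonneg hδ.le hw]
  linarith

theorem growth {mom : (List ℕ → ℚ) → List ℕ → List ℕ → ℕ → ℚ} (hm : HExp mom) {P : Set ℕ} {δ : ℝ} (hδ : 0 < δ) (hP : Freq P δ) :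
    ∃ c : ℝ, 0 < c ∧ ∀ K : ℕ, 1 ≤ K →
      c * (2 : ℝ) ^ ((K : ℝ) / 4) / Real.sqrt K ≤ dimF P (Wd K) := by
  have hl4 : 0 < Real.log 4 := Real.log_pos (by norm_num)
  set c1 : ℝ := δ / (9 / 2 * Real.log 4 + δ) with hc1
  have hc0 : 0 < c1 := by positivity
  have hc1' : c1 ≤ 1 := by
    rw [hc1, div_le_one (by positivity)]
    linarith
  refine ⟨c1 / 2, by positivity, fun K hK => ?_⟩
  have hK1 : (1 : ℝ) ≤ K := by exact_mod_cast hK
  have hs1 : 1 ≤ Real.sqrt K := by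
    rw [Real.one_le_sqrt]
    exact hK1
  rw [div_le_iff₀ (by linarith)]
  rcases Nat.lt_or_ge K 3 with hK3 | hK3
  · have h3 : (1 : ℝ) ≤ dimF P (Wd K) := by
      exact_mod_cast dimF_pos P (fun N => hP.exists_prime hδ N) (nil_mem_Wd K)
    have h4 : (2 : ℝ) ^ ((K : ℝ) / 4) ≤ 2 := by
      calc (2 : ℝ) ^ ((K : ℝ) / 4) ≤ (2 : ℝ) ^ (1 : ℝ) := by
            apply Real.rpow_le_rpow_of_exponent_le (by norm_num)
            have : (K : ℝ) < 3 := by exact_mod_cast hK3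
            linarith
        _ = 2 := Real.rpow_one 2
    have h5 : c1 / 2 * (2 : ℝ) ^ ((K : ℝ) / 4) ≤ 1 := by
      calc c1 / 2 * (2 : ℝ) ^ ((K : ℝ) / 4) ≤ c1 / 2 * 2 :=
            mul_le_mul_of_nonneg_left h4 (by positivity)
        _ = c1 := by ring
        _ ≤ 1 := hc1'
    nlinarith
  · obtain ⟨w, hw⟩ : ∃ w, w = (K - 3) / 2 := ⟨_, rfl⟩
    have hw1 : 2 * w + 3 ≤ K := by omega
    have hw2 : K ≤ 2 * w + 4 := by omega
    have h1 := dimF_ge_aux hm hδ hP w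
    have h2 : (dimF P (Wd (2 * w + 3)) : ℝ) ≤ dimF P (Wd K) := by
      exact_mod_cast dimF_mono P (Wd_mono hw1)
    have hw1' : (2 * w + 3 : ℝ) ≤ K := by exact_mod_cast hw1
    have hw2' : (K : ℝ) ≤ 2 * w + 4 := by exact_mod_cast hw2
    have hwn : (0 : ℝ) ≤ w := Nat.cast_nonneg _
    rw [Real.sqrt_mul (by positivity)] at h1
    have h3 : (2 : ℝ) ^ ((K : ℝ) / 4) ≤ 2 * Real.sqrt (2 ^ w) := by
      have e1 : Real.sqrt ((2 : ℝ) ^ w) = (2 : ℝ) ^ ((w : ℝ) / 2) := by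
        rw [Real.sqrt_eq_rpow, ← Real.rpow_natCast, ← Real.rpow_mul (by norm_num)]
        congr 1
        ring
      have e2 : (2 : ℝ) * (2 : ℝ) ^ ((w : ℝ) / 2) = (2 : ℝ) ^ ((w : ℝ) / 2 + 1) := by
        rw [Real.rpow_add (by norm_num), Real.rpow_one]
        ring
      rw [e1, e2]
      apply Real.rpow_le_rpow_of_exponent_le (by norm_num)
      linarith
    have hsq : Real.sqrt (2 * w + 3) * Real.sqrt (2 * w + 3) = 2 * w + 3 :=
      Real.mul_self_sqrt (by positivity)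
    have hs2 : Real.sqrt (2 * w + 3) ≤ Real.sqrt K := Real.sqrt_le_sqrt hw1'
    have hs3 : 0 < Real.sqrt (2 * (w : ℝ) + 3) := Real.sqrt_pos.2 (by positivity)
    -- divide `h1` by `√(2w+3)`
    have h4 : δ * Real.sqrt (2 ^ w) ≤ (dimF P (Wd (2 * w + 3)) : ℝ) *
        ((9 / 2 * Real.log 4 + δ) * Real.sqrt (2 * w + 3)) := by
      have h5 : (δ * Real.sqrt (2 ^ w)) * Real.sqrt (2 * w + 3) ≤
          ((dimF P (Wd (2 * w + 3)) : ℝ) *
            ((9 / 2 * Real.log 4 + δ) * Real.sqrt (2 * w + 3))) * Real.sqrt (2 * w + 3) := by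
        calc (δ * Real.sqrt (2 ^ w)) * Real.sqrt (2 * w + 3)
            = δ * (Real.sqrt (2 * w + 3) * Real.sqrt (2 ^ w)) := by ring
          _ ≤ (dimF P (Wd (2 * w + 3)) : ℝ) * ((9 / 2 * Real.log 4 + δ) * (2 * w + 3)) := h1
          _ = (dimF P (Wd (2 * w + 3)) : ℝ) *
              ((9 / 2 * Real.log 4 + δ) * (Real.sqrt (2 * w + 3) * Real.sqrt (2 * w + 3))) := by
              rw [hsq]
          _ = _ := by ring
      exact le_of_mul_le_mul_right h5 hs3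
    have h5 : δ * Real.sqrt (2 ^ w) ≤
        ((dimF P (Wd K) : ℝ) * Real.sqrt K) * (9 / 2 * Real.log 4 + δ) := by
      refine h4.trans ?_
      have hg : 0 < 9 / 2 * Real.log 4 + δ := by positivity
      have hprod : (dimF P (Wd (2 * w + 3)) : ℝ) * Real.sqrt (2 * w + 3) ≤
          (dimF P (Wd K) : ℝ) * Real.sqrt K :=
        mul_le_mul h2 hs2 hs3.le (Nat.cast_nonneg _)
      calc (dimF P (Wd (2 * w + 3)) : ℝ) * ((9 / 2 * Real.log 4 + δ) * Real.sqrt (2 * w + 3))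
          = ((dimF P (Wd (2 * w + 3)) : ℝ) * Real.sqrt (2 * w + 3)) *
            (9 / 2 * Real.log 4 + δ) := by ring
        _ ≤ _ := mul_le_mul_of_nonneg_right hprod hg.le
    have h6 : c1 * Real.sqrt (2 ^ w) ≤ (dimF P (Wd K) : ℝ) * Real.sqrt K := by
      rw [hc1, div_mul_eq_mul_div, div_le_iff₀ (by positivity)]
      exact h5
    calc c1 / 2 * (2 : ℝ) ^ ((K : ℝ) / 4) ≤ c1 / 2 * (2 * Real.sqrt (2 ^ w)) :=
          mul_le_mul_of_nonneg_left h3 (by positivity)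
      _ = c1 * Real.sqrt (2 ^ w) := by ring
      _ ≤ _ := h6

/-- exponential growth of the dimensions in every window of at most `23` consecutive weights -/
theorem dims_window {mom : (List ℕ → ℚ) → List ℕ → List ℕ → ℕ → ℚ} (hm : HExp mom) : ∃ c : ℝ, 0 < c ∧ ∃ g : ℕ, 1 ≤ g ∧ g ≤ 23 ∧
    ∀ n : ℕ, 1 ≤ n → ∃ k, n ≤ k ∧ k < n + g ∧
      ∀ d, IsDim k d → c * (2 : ℝ) ^ ((n : ℝ) / 4) / (n * Real.sqrt n) ≤ d := by
  obtain ⟨w0, hw0, hne, ε, hε, hF⟩ := exists_word hm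
  obtain ⟨c, hc, hg⟩ := growth hm hε hF
  obtain ⟨hw1, hw2⟩ := mem_Wd.1 hw0
  have hw3 : 1 ≤ w0.sum := by
    cases w0 with
    | nil => exact absurd rfl hne
    | cons a l =>
      rw [List.sum_cons]
      have := hw1 a List.mem_cons_self
      omega
  refine ⟨c / 2, by positivity, w0.sum, hw3, hw2, fun n hn => ?_⟩
  obtain ⟨T, hT, hi, hTc⟩ := exists_indep_dimF {p | fz p w0 ≠ 0} (Wd n)
  obtain ⟨k, hk, T', hT', hi', hc'⟩ := exists_weight hi n hT
  obtain ⟨k', hk1, hk2, T'', hT'', hi'', hc''⟩ :=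
    exists_indep_window hi' hT' w0 hw1 hw3 (fun p hp _ => hp) n hk
  refine ⟨k', hk1, hk2, fun d hd => ?_⟩
  have h1 : (T''.card : ℝ) ≤ d := by exact_mod_cast isDim_ge hi'' hT'' hd
  have h2 : (T'.card : ℝ) ≤ T''.card := by exact_mod_cast hc''
  have h3 := hg n hn
  rw [hTc] at hc'
  have hn1 : (1 : ℝ) ≤ n := by exact_mod_cast hn
  have hs1 : 0 < Real.sqrt n := Real.sqrt_pos.2 (by linarith)
  calc c / 2 * (2 : ℝ) ^ ((n : ℝ) / 4) / (n * Real.sqrt n)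
      = (c * (2 : ℝ) ^ ((n : ℝ) / 4) / Real.sqrt n) / (2 * n) := by
        field_simp
    _ ≤ (dimF {p | fz p w0 ≠ 0} (Wd n) : ℝ) / (2 * n) :=
        div_le_div_of_nonneg_right h3 (by positivity)
    _ ≤ (dimF {p | fz p w0 ≠ 0} (Wd n) : ℝ) / (n + 1) :=
        div_le_div_of_nonneg_left (Nat.cast_nonneg _) (by positivity) (by linarith)
    _ ≤ T'.card := hc'
    _ ≤ T''.card := h2
    _ ≤ d := h1

end Pool.MZFin
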