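import Pool.Agent.Lib.MZFin.DVan

/-! MP_c511df_nt: the final statements in the terms of the frozen statement S18415. -/

open Finset

namespace Pool.MZFin

/-- modulo `p` all sums of the weights `1, .., K` vanish -/
def Vanish (K p : ℕ) : Prop :=
  ∀ (r : ℕ) (kk : Fin r → ℕ), 1 ≤ r → (∀ i, 1 ≤ kk i) → ∑ i, kk i ≤ K → fsum p r kk = 0

theorem vanish_iff {K p : ℕ} (hp : p.Prime) : Vanish K p ↔ p ∈ Van K := by
  constructor
  · intro h l hl hne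
    obtain ⟨h1, h2⟩ := mem_Wd.1 hl
    have h3 : List.ofFn (fun a => l.get a) = l := List.ofFn_get _
    have h4 := h l.length (fun a => l.get a)
      (Nat.one_le_iff_ne_zero.2 fun h => hne (List.length_eq_zero_iff.1 h))
      (fun i => h1 _ (List.get_mem _ _)) (by rw [← List.sum_ofFn, h3]; exact h2)
    rw [fsum_eq p hp, h3] at h4
    exact h4
  · intro h r kk hr h1 h2
    rw [fsum_eq p hp]
    refine h _ (mem_Wd.2 ⟨?_, ?_⟩) ?_
    · intro a ha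
      rw [List.mem_ofFn] at ha
      obtain ⟨i, hi⟩ := ha
      rw [← hi]
      exact h1 i
    · rw [List.sum_ofFn]
      exact h2
    · intro h3
      have h4 := congrArg List.length h3
      rw [List.length_ofFn, List.length_nil] at h4
      omega

theorem dimF_le_sum {a : ℕ → ℕ} (ha : ∀ k, 1 ≤ k → IsDim k (a k)) (K : ℕ) :
    dimF Set.univ (Wd K) ≤ 1 + ∑ k ∈ Icc 1 K, a k := by
  classical
  obtain ⟨T, hT, hi, hc⟩ := exists_indep_dimF Set.univ (Wd K)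
  have h1 : T.card = ∑ k ∈ range (K + 1), (T.filter fun l => l.sum = k).card :=
    Finset.card_eq_sum_card_fiberwise fun l hl => by
      rw [Finset.mem_coe, Finset.mem_range]
      exact Nat.lt_succ_of_le (mem_Wd.1 (hT hl)).2
  have hsub : ∀ k, (T.filter fun l : List ℕ => l.sum = k) ⊆ Ws k := fun k l hl => by
    rw [Finset.mem_filter] at hl
    exact mem_Ws.2 ⟨(mem_Wd.1 (hT hl.1)).1, hl.2⟩
  rw [← hc, h1, Finset.sum_range_succ']
  have h2 : (T.filter fun l : List ℕ => l.sum = 0).card ≤ 1 := by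
    have h3 := Finset.card_le_card (hsub 0)
    rw [Ws_card] at h3
    simpa using h3
  have h3 : ∑ k ∈ range K, (T.filter fun l : List ℕ => l.sum = k + 1).card ≤
      ∑ k ∈ range K, a (k + 1) := by
    refine Finset.sum_le_sum fun k _ => ?_
    exact isDim_ge (hi.subset (Finset.filter_subset (fun l : List ℕ => l.sum = k + 1) T))
      (hsub (k + 1)) (ha (k + 1) (by omega))
  have h4 : ∑ k ∈ Icc 1 K, a k = ∑ k ∈ range K, a (k + 1) := by
    rw [Finset.range_eq_Ico, Finset.sum_Ico_add' (fun k => a k) 0 K 1]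
    refine Finset.sum_congr ?_ fun _ _ => rfl
    ext k
    simp only [mem_Icc, mem_Ico]
    omega
  rw [h4]
  omega

/-- the sum of the dimensions grows exponentially -/
theorem sum_dims_ge {mom : (List ℕ → ℚ) → List ℕ → List ℕ → ℕ → ℚ} (hm : HExp mom)
    {a : ℕ → ℕ} (ha : ∀ k, 1 ≤ k → IsDim k (a k)) (K : ℕ) (hK : 1 ≤ K) :
    (2 : ℝ) ^ ((K : ℝ) / 4) / (16 * √(K : ℝ)) ≤ 1 + ∑ k ∈ Icc 1 K, (a k : ℝ) := by
  refine (dimF_ge hm K hK).trans ?_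
  have h := dimF_le_sum ha K
  have h2 : (dimF Set.univ (Wd K) : ℝ) ≤ ((1 + ∑ k ∈ Icc 1 K, a k : ℕ) : ℝ) := by exact_mod_cast h
  push_cast at h2
  exact h2

theorem lsum_vanish (K X : ℕ) [DecidablePred fun p => p.Prime ∧ Vanish K p] :
    ∑ p ∈ (range (X + 1)).filter (fun p => p.Prime ∧ Vanish K p), Real.log p =
      lsum (Van K) X := by
  classical
  rw [lsum_eq]
  refine Finset.sum_congr ?_ fun _ _ => rfl
  ext p
  simp only [mem_filter]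
  constructor
  · rintro ⟨h1, h2, h3⟩
    exact ⟨h1, (vanish_iff h2).1 h3, h2⟩
  · rintro ⟨h1, h2, h3⟩
    exact ⟨h1, h3, (vanish_iff h3).2 h2⟩

theorem lsum_not_vanish (K X : ℕ) [DecidablePred fun p => p.Prime ∧ ¬ Vanish K p] :
    ∑ p ∈ (range (X + 1)).filter (fun p => p.Prime ∧ ¬ Vanish K p), Real.log p =
      lsum (Van K)ᶜ X := by
  classical
  rw [lsum_eq]
  refine Finset.sum_congr ?_ fun _ _ => rfl
  ext p
  simp only [mem_filter]
  constructor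
  · rintro ⟨h1, h2, h3⟩
    exact ⟨h1, fun h => h3 ((vanish_iff h2).2 h), h2⟩
  · rintro ⟨h1, h2, h3⟩
    exact ⟨h1, h3, fun h => h2 ((vanish_iff h3).1 h)⟩

open Classical in
/-- all results together -/
theorem final {mom : (List ℕ → ℚ) → List ℕ → List ℕ → ℕ → ℚ} (hm : HExp mom) :
    (∀ k : ℕ, ∃! d : ℕ, IsDim k d) ∧
    (∀ a : ℕ → ℕ, (∀ k, 1 ≤ k → IsDim k (a k)) →
      (∀ K : ℕ, 1 ≤ K →
        (2 : ℝ) ^ ((K : ℝ) / 4) / (16 * √(K : ℝ)) ≤ 1 + ∑ k ∈ Icc 1 K, (a k : ℝ)) ∧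
      ∃ c : ℝ, 0 < c ∧ ∃ g : ℕ, 1 ≤ g ∧ g ≤ 23 ∧ ∀ n : ℕ, 1 ≤ n → ∃ k, n ≤ k ∧ k < n + g ∧
        c * (2 : ℝ) ^ ((n : ℝ) / 4) / (n * √(n : ℝ)) ≤ (a k : ℝ)) ∧
    (∀ K : ℕ, 1 ≤ K → ∃ X0 : ℕ, ∀ X : ℕ, X0 ≤ X →
      ∑ p ∈ (range (X + 1)).filter (fun p => p.Prime ∧ Vanish K p), Real.log p ≤
        20 * √(K : ℝ) * (2 : ℝ) ^ (-((K : ℝ) / 4)) * X) ∧
    ∃ X0 : ℕ, ∀ X : ℕ, X0 ≤ X →
      4 / 25 * (X : ℝ) ≤
        ∑ p ∈ (range (X + 1)).filter (fun p => p.Prime ∧ ¬ Vanish 23 p), Real.log p := by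
  refine ⟨fun k => ?_, fun a ha => ⟨sum_dims_ge hm ha, ?_⟩, fun K hK => ?_, ?_⟩
  · obtain ⟨d, hd⟩ := exists_isDim k
    exact ⟨d, hd, fun d' hd' => isDim_unique hd' hd⟩
  · obtain ⟨c, hc, g, hg1, hg2, h⟩ := dims_window hm
    refine ⟨c, hc, g, hg1, hg2, fun n hn => ?_⟩
    obtain ⟨k, hk1, hk2, hk⟩ := h n hn
    exact ⟨k, hk1, hk2, hk (a k) (ha k (by omega))⟩
  · obtain ⟨X0, h⟩ := van_density hm K hK
    refine ⟨X0, fun X hX => ?_⟩
    rw [lsum_vanish]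
    exact h X hX
  · obtain ⟨X0, h⟩ := nonvan_density hm
    refine ⟨X0, fun X hX => ?_⟩
    rw [lsum_not_vanish]
    exact h X hX

end Pool.MZFin
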