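import Pool.Agent.Lib.MZFin.DTwo

/-! MP_c511df_nt: values of rational vectors modulo `p`, independent sets of words and dimensions. -/

open Finset

namespace Pool.MZFin

/-- the value of the vector `x` modulo `p` -/
noncomputable def ev {W : Finset (List ℕ)} (p : ℕ) (x : W → ℚ) : ZMod p :=
  ∑ l : W, rc p (x l) * fz p l

/-- for all large primes the value of `x` is `f p` -/
def EvEq {W : Finset (List ℕ)} (x : W → ℚ) (f : (p : ℕ) → ZMod p) : Prop :=
  ∃ N : ℕ, ∀ p : ℕ, p.Prime → N < p → ev p x = f p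

theorem EvEq.zero {W : Finset (List ℕ)} : EvEq (0 : W → ℚ) (fun _ => 0) :=
  ⟨0, fun p _ _ => by simp [ev, rc]⟩

theorem EvEq.add {W : Finset (List ℕ)} {x y : W → ℚ} {f g : (p : ℕ) → ZMod p} (h : EvEq x f)
    (h' : EvEq y g) : EvEq (x + y) (fun p => f p + g p) := by
  obtain ⟨N, hN⟩ := h
  obtain ⟨N', hN'⟩ := h'
  refine ⟨max (max N N') (∑ l : W, ((x l).den + (y l).den)), fun p hp hpp => ?_⟩
  have hb : ∀ l : W, (x l).den + (y l).den < p := fun l =>
    lt_of_le_of_lt (single_le_sum (f := fun l : W => (x l).den + (y l).den)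
      (fun _ _ => Nat.zero_le _) (mem_univ l)) (lt_of_le_of_lt (le_max_right _ _) hpp)
  have e : ∀ l : W, rc p ((x + y) l) * fz p l = rc p (x l) * fz p l + rc p (y l) * fz p l := by
    intro l
    have := hb l
    rw [Pi.add_apply, rc_add p hp _ _ (by omega) (by omega), add_mul]
  show ev p (x + y) = f p + g p
  rw [← hN p hp (lt_of_le_of_lt ((le_max_left _ _).trans (le_max_left _ _)) hpp),
    ← hN' p hp (lt_of_le_of_lt ((le_max_right _ _).trans (le_max_left _ _)) hpp), ev, ev, ev,
    sum_congr rfl fun l _ => e l, sum_add_distrib]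

theorem EvEq.smul {W : Finset (List ℕ)} {x : W → ℚ} {f : (p : ℕ) → ZMod p} (q : ℚ)
    (h : EvEq x f) : EvEq (q • x) (fun p => rc p q * f p) := by
  obtain ⟨N, hN⟩ := h
  refine ⟨max N (q.den + ∑ l : W, (x l).den), fun p hp hpp => ?_⟩
  have hq : q.den + ∑ l : W, (x l).den < p := lt_of_le_of_lt (le_max_right _ _) hpp
  have hb : ∀ l : W, (x l).den ≤ ∑ l : W, (x l).den := fun l =>
    single_le_sum (f := fun l : W => (x l).den) (fun _ _ => Nat.zero_le _) (mem_univ l)
  have e : ∀ l : W, rc p ((q • x) l) * fz p l = rc p q * (rc p (x l) * fz p l) := by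
    intro l
    have := hb l
    rw [Pi.smul_apply, smul_eq_mul, rc_mul p hp _ _ (by omega) (by omega), mul_assoc]
  show ev p (q • x) = rc p q * f p
  rw [← hN p hp (lt_of_le_of_lt (le_max_left _ _) hpp), ev, ev, sum_congr rfl fun l _ => e l,
    ← mul_sum]

theorem EvEq.congr {W : Finset (List ℕ)} {x : W → ℚ} {f g : (p : ℕ) → ZMod p} (h : EvEq x f)
    (hfg : ∀ p : ℕ, p.Prime → f p = g p) : EvEq x g := by
  obtain ⟨N, hN⟩ := h
  exact ⟨N, fun p hp hpp => (hN p hp hpp).trans (hfg p hp)⟩

/-- the unit vector of a word -/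
noncomputable def uv (W : Finset (List ℕ)) (l : List ℕ) : W → ℚ := by
  classical
  exact fun g => if (g : List ℕ) = l then 1 else 0

theorem EvEq.uv {W : Finset (List ℕ)} {l : List ℕ} (hl : l ∈ W) :
    EvEq (uv W l) (fun p => fz p l) := by
  classical
  refine ⟨0, fun p _ _ => ?_⟩
  rw [ev, Finset.sum_eq_single (⟨l, hl⟩ : W)]
  · unfold MZFin.uv
    rw [if_pos rfl]
    simp [rc]
  · intro b _ hb
    have h : ¬ (b : List ℕ) = l := fun h => hb (Subtype.ext h)
    unfold MZFin.uv
    rw [if_neg h]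
    simp [rc]
  · intro h
    exact absurd (Finset.mem_univ _) h

theorem EvEq.sum {W : Finset (List ℕ)} {ι : Type*} (s : Finset ι) (x : ι → W → ℚ)
    (f : ι → (p : ℕ) → ZMod p) (h : ∀ i ∈ s, EvEq (x i) (f i)) :
    EvEq (∑ i ∈ s, x i) (fun p => ∑ i ∈ s, f i p) := by
  classical
  induction s using Finset.induction_on with
  | empty =>
    simp only [Finset.sum_empty]
    exact EvEq.zero
  | insert a s ha ih =>
    rw [Finset.sum_insert ha]
    refine ((h a (Finset.mem_insert_self a s)).add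
      (ih fun i hi => h i (Finset.mem_insert_of_mem hi))).congr fun p _ => ?_
    rw [Finset.sum_insert ha]

theorem EvEq.listSum {W : Finset (List ℕ)} (L : List (List ℕ)) (hL : ∀ g ∈ L, g ∈ W) :
    EvEq ((L.map fun g => MZFin.uv W g).sum) (fun p => (L.map fun g => fz p g).sum) := by
  induction L with
  | nil =>
    simp only [List.map_nil, List.sum_nil]
    exact EvEq.zero
  | cons a L ih =>
    simp only [List.map_cons, List.sum_cons]
    exact (EvEq.uv (hL a List.mem_cons_self)).add
      (ih fun g hg => hL g (List.mem_cons_of_mem _ hg))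

theorem mem_Rel_iff {P : Set ℕ} {W : Finset (List ℕ)} {x : W → ℚ} {f : (p : ℕ) → ZMod p}
    (h : EvEq x f) : x ∈ Rel P W ↔ ∃ N : ℕ, ∀ p ∈ P, p.Prime → N < p → f p = 0 := by
  obtain ⟨N, hN⟩ := h
  rw [mem_Rel]
  constructor
  · rintro ⟨N', hN'⟩
    refine ⟨max N N', fun p hP hp hpp => ?_⟩
    rw [← hN p hp (lt_of_le_of_lt (le_max_left _ _) hpp)]
    exact hN' p hP hp (lt_of_le_of_lt (le_max_right _ _) hpp)
  · rintro ⟨N', hN'⟩
    refine ⟨max N N', fun p hP hp hpp => ?_⟩
    have h1 := hN p hp (lt_of_le_of_lt (le_max_left _ _) hpp)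
    have h2 := hN' p hP hp (lt_of_le_of_lt (le_max_right _ _) hpp)
    rw [h2] at h1
    exact h1

/-- the class of the word `l` in the space of values -/
noncomputable def vq (P : Set ℕ) (W : Finset (List ℕ)) (l : List ℕ) : (W → ℚ) ⧸ Rel P W :=
  (Rel P W).mkQ (uv W l)

theorem sum_uv {W : Finset (List ℕ)} (x : W → ℚ) : ∑ l : W, x l • uv W l = x := by
  classical
  funext g
  rw [Finset.sum_apply, Finset.sum_eq_single g]
  · simp [uv]
  · intro b _ hb
    have h : ¬ (g : List ℕ) = (b : List ℕ) := fun h => hb (Subtype.ext h.symm)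
    simp [uv, h]
  · intro h
    exact absurd (Finset.mem_univ _) h

/-- `IndepP` is linear independence of the classes -/
theorem indepP_iff {P : Set ℕ} {W S : Finset (List ℕ)} (hS : S ⊆ W) :
    IndepP P S ↔ LinearIndependent ℚ (fun l : S => vq P W l) := by
  classical
  have key : ∀ c : S → ℚ, ∑ l : S, c l • vq P W l = 0 ↔
      ∃ N : ℕ, ∀ p ∈ P, p.Prime → N < p → ∑ l : S, rc p (c l) * fz p l = 0 := by
    intro c
    have h1 : ∑ l : S, c l • vq P W l = (Rel P W).mkQ (∑ l : S, c l • uv W l) := by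
      rw [map_sum]
      exact Finset.sum_congr rfl fun l _ => by rw [map_smul, vq]
    have h2 : EvEq (∑ l : S, c l • uv W l) (fun p => ∑ l : S, rc p (c l) * fz p l) :=
      EvEq.sum _ _ _ fun l _ => (EvEq.uv (hS l.2)).smul (c l)
    rw [h1, ← mem_Rel_iff (P := P) h2, ← LinearMap.mem_ker, Submodule.ker_mkQ]
  rw [Fintype.linearIndependent_iff]
  constructor
  · intro h c hc i
    obtain ⟨N, hN⟩ := (key c).1 hc
    have h3 := h (fun l => if hl : l ∈ S then c ⟨l, hl⟩ else 0) ⟨N, fun p hP hp hpp => by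
      rw [← hN p hP hp hpp, ← Finset.sum_coe_sort S]
      refine Finset.sum_congr rfl fun l _ => ?_
      rw [dif_pos l.2]⟩ i i.2
    rw [dif_pos i.2] at h3
    exact h3
  · rintro h c ⟨N, hN⟩ l hl
    exact h (fun l => c l) ((key fun l => c l).2 ⟨N, fun p hP hp hpp => by
      rw [← hN p hP hp hpp, ← Finset.sum_coe_sort S]⟩) ⟨l, hl⟩

/-- an independent subset of `U` of maximal size -/
theorem exists_indep (P : Set ℕ) {W U : Finset (List ℕ)} (hU : U ⊆ W) :
    ∃ T ⊆ U, IndepP P T ∧ T.card =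
      Module.finrank ℚ (Submodule.span ℚ (Set.range fun l : U => vq P W l)) := by
  classical
  obtain ⟨κ, a, ha, hspan, hli⟩ := exists_linearIndependent' ℚ (fun l : U => vq P W l)
  have : Finite κ := Finite.of_injective a ha
  have : Fintype κ := Fintype.ofFinite κ
  have hinj : Function.Injective fun k : κ => (a k : List ℕ) :=
    fun k k' h => ha (Subtype.ext h)
  refine ⟨(univ : Finset κ).image fun k => (a k : List ℕ), ?_, ?_, ?_⟩
  · intro l hl
    rw [Finset.mem_image] at hl
    obtain ⟨k, _, rfl⟩ := hl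
    exact (a k).2
  · have hsub : ((univ : Finset κ).image fun k => (a k : List ℕ)) ⊆ W := by
      intro l hl
      rw [Finset.mem_image] at hl
      obtain ⟨k, _, rfl⟩ := hl
      exact hU (a k).2
    rw [indepP_iff hsub]
    let e : κ ≃ ((univ : Finset κ).image fun k => (a k : List ℕ)) :=
      Equiv.ofBijective (fun k => ⟨(a k : List ℕ), Finset.mem_image_of_mem _ (Finset.mem_univ k)⟩)
        ⟨fun k k' h => hinj (Subtype.mk.inj h), fun l => by
          obtain ⟨k, _, hk⟩ := Finset.mem_image.1 l.2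
          exact ⟨k, Subtype.ext hk⟩⟩
    rw [← linearIndependent_equiv e]
    exact hli
  · rw [Finset.card_image_of_injective _ hinj, Finset.card_univ, ← hspan]
    exact (finrank_span_eq_card hli).symm

/-- the whole space -/
theorem exists_indep_dimF (P : Set ℕ) (W : Finset (List ℕ)) :
    ∃ T ⊆ W, IndepP P T ∧ T.card = dimF P W := by
  obtain ⟨T, hT, hi, hc⟩ := exists_indep P (Finset.Subset.refl W)
  refine ⟨T, hT, hi, hc.trans ?_⟩
  have h : Submodule.span ℚ (Set.range fun l : W => vq P W l) = ⊤ := by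
    rw [eq_top_iff]
    rintro y -
    obtain ⟨x, rfl⟩ := (Rel P W).mkQ_surjective y
    rw [← sum_uv x, map_sum]
    refine Submodule.sum_mem _ fun l _ => ?_
    rw [map_smul]
    exact Submodule.smul_mem _ _ (Submodule.subset_span ⟨l, rfl⟩)
  rw [h, finrank_top, dimF]

/-- linearly independent vectors in the span of the classes of the words of `U` -/
theorem exists_indep_of_li (P : Set ℕ) {W U : Finset (List ℕ)} (hU : U ⊆ W) {ι : Type*} [Fintype ι]
    (y : ι → (W → ℚ) ⧸ Rel P W) (hy : LinearIndependent ℚ y)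
    (hs : ∀ i, y i ∈ Submodule.span ℚ (Set.range fun l : U => vq P W l)) :
    ∃ T ⊆ U, IndepP P T ∧ Fintype.card ι ≤ T.card := by
  obtain ⟨T, hT, hi, hc⟩ := exists_indep P hU
  refine ⟨T, hT, hi, ?_⟩
  rw [hc]
  have h1 : Submodule.span ℚ (Set.range y) ≤
      Submodule.span ℚ (Set.range fun l : U => vq P W l) := by
    rw [Submodule.span_le]
    rintro _ ⟨i, rfl⟩
    exact hs i
  rw [← finrank_span_eq_card hy]
  exact Submodule.finrank_mono h1

end Pool.MZFin
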