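import Pool.Agent.Lib.MZFin.DLin
import Pool.Agent.Lib.MZFin.DStuf

/-! MP_c511df_nt: multiplication by a value which does not vanish. -/

open Finset

namespace Pool.MZFin

theorem Ws_subset_Wd {n K : ℕ} (h : n ≤ K) : Ws n ⊆ Wd K := fun l hl => by
  have h1 := mem_Ws.1 hl
  exact mem_Wd.2 ⟨h1.1, by omega⟩

theorem vq_listSum_mem (P : Set ℕ) {W U : Finset (List ℕ)} (L : List (List ℕ))
    (hL : ∀ g ∈ L, g ∈ U) :
    (L.map fun g => vq P W g).sum ∈ Submodule.span ℚ (Set.range fun l : U => vq P W l) := by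
  induction L with
  | nil => simp
  | cons a L ih =>
    simp only [List.map_cons, List.sum_cons]
    exact Submodule.add_mem _ (Submodule.subset_span ⟨⟨a, hL a List.mem_cons_self⟩, rfl⟩)
      (ih fun g hg => hL g (List.mem_cons_of_mem _ hg))

theorem mkQ_listSum (P : Set ℕ) {W : Finset (List ℕ)} (L : List (List ℕ)) :
    (Rel P W).mkQ ((L.map fun g => uv W g).sum) = (L.map fun g => vq P W g).sum := by
  induction L with
  | nil => simp
  | cons a L ih =>
    simp only [List.map_cons, List.sum_cons]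
    rw [map_add, ih, vq]

/-- multiplication by a value which does not vanish at the primes of `P` -/
theorem exists_indep_mul {P : Set ℕ} {S : Finset (List ℕ)} {k : ℕ} (hS : IndepP P S)
    (hk : S ⊆ Ws k) (w : List ℕ) (hw : ∀ a ∈ w, 1 ≤ a) (hP : ∀ p ∈ P, p.Prime → fz p w ≠ 0) :
    ∃ T ⊆ Ws (k + w.sum), IndepP P T ∧ S.card ≤ T.card := by
  classical
  have hst : ∀ l : S, ∃ L : List (List ℕ), (∀ g ∈ L, g ∈ Ws (k + w.sum)) ∧
      ∀ p : ℕ, fz p w * fz p l = (L.map fun g => fz p g).sum := by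
    intro l
    obtain ⟨h1, h2⟩ := mem_Ws.1 (hk l.2)
    obtain ⟨L, hL, hL2⟩ := stuffle_hs w l hw h1
    refine ⟨L, fun g hg => mem_Ws.2 ⟨(hL g hg).1, ?_⟩, fun p => hL2 (ZMod p) (wp p) (p - 1)⟩
    rw [(hL g hg).2, h2, add_comm]
  choose L hL hL2 using hst
  have hli : LinearIndependent ℚ
      (fun l : S => ((L l).map fun g => vq P (Ws (k + w.sum)) g).sum) := by
    rw [Fintype.linearIndependent_iff]
    intro c hc
    have h1 : (Rel P (Ws (k + w.sum))).mkQ
        (∑ l : S, c l • ((L l).map fun g => uv (Ws (k + w.sum)) g).sum) = 0 := by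
      rw [← hc, map_sum]
      exact Finset.sum_congr rfl fun l _ => by rw [map_smul, mkQ_listSum]
    have h2 : EvEq (∑ l : S, c l • ((L l).map fun g => uv (Ws (k + w.sum)) g).sum)
        (fun p => ∑ l : S, rc p (c l) * ((L l).map fun g => fz p g).sum) :=
      EvEq.sum _ _ _ fun l _ => (EvEq.listSum (L l) (hL l)).smul (c l)
    rw [← LinearMap.mem_ker, Submodule.ker_mkQ, mem_Rel_iff h2] at h1
    obtain ⟨N, hN⟩ := h1
    have h3 := hS (fun l => if hl : l ∈ S then c ⟨l, hl⟩ else 0) ⟨N, fun p hPp hp hpp => by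
      have hF : Fact p.Prime := ⟨hp⟩
      have h4 := hN p hPp hp hpp
      have h5 : (∑ l : S, rc p (c l) * ((L l).map fun g => fz p g).sum) =
          fz p w * ∑ l : S, rc p (c l) * fz p l := by
        rw [Finset.mul_sum]
        refine Finset.sum_congr rfl fun l _ => ?_
        rw [← hL2 l p]
        ring
      rw [h5] at h4
      rcases mul_eq_zero.1 h4 with h6 | h6
      · exact absurd h6 (hP p hPp hp)
      · rw [← h6, ← Finset.sum_coe_sort S]
        refine Finset.sum_congr rfl fun l _ => ?_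
        rw [dif_pos l.2]⟩
    intro l
    have h7 := h3 l l.2
    rw [dif_pos l.2] at h7
    exact h7
  obtain ⟨T, hT, hi, hc⟩ := exists_indep_of_li P (Finset.Subset.refl (Ws (k + w.sum))) _ hli
    (fun l => vq_listSum_mem P (L l) (hL l))
  refine ⟨T, hT, hi, ?_⟩
  rw [Fintype.card_coe] at hc
  exact hc

/-- repeated multiplication -/
theorem exists_indep_pow {P : Set ℕ} {S : Finset (List ℕ)} {k : ℕ} (hS : IndepP P S)
    (hk : S ⊆ Ws k) (w : List ℕ) (hw : ∀ a ∈ w, 1 ≤ a) (hP : ∀ p ∈ P, p.Prime → fz p w ≠ 0)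
    (j : ℕ) : ∃ T ⊆ Ws (k + j * w.sum), IndepP P T ∧ S.card ≤ T.card := by
  induction j with
  | zero => exact ⟨S, by simpa using hk, hS, le_rfl⟩
  | succ j ih =>
    obtain ⟨T, hT, hi, hc⟩ := ih
    obtain ⟨T', hT', hi', hc'⟩ := exists_indep_mul hi hT w hw hP
    refine ⟨T', ?_, hi', hc.trans hc'⟩
    rw [add_assoc, ← Nat.succ_mul] at hT'
    exact hT'

/-- in every window of `w.sum` consecutive weights beyond `k` -/
theorem exists_indep_window {P : Set ℕ} {S : Finset (List ℕ)} {k : ℕ} (hS : IndepP P S)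
    (hk : S ⊆ Ws k) (w : List ℕ) (hw : ∀ a ∈ w, 1 ≤ a) (hw1 : 1 ≤ w.sum)
    (hP : ∀ p ∈ P, p.Prime → fz p w ≠ 0) (n : ℕ) (hn : k ≤ n) :
    ∃ k', n ≤ k' ∧ k' < n + w.sum ∧ ∃ T ⊆ Ws k', IndepP P T ∧ S.card ≤ T.card := by
  obtain ⟨T, hT, hi, hc⟩ := exists_indep_pow hS hk w hw hP ((n - k + w.sum - 1) / w.sum)
  refine ⟨k + (n - k + w.sum - 1) / w.sum * w.sum, ?_, ?_, T, hT, hi, hc⟩
  · have h1 := Nat.div_add_mod (n - k + w.sum - 1) w.sum
    have h2 := Nat.mod_lt (n - k + w.sum - 1) (show 0 < w.sum by omega)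
    rw [mul_comm] at h1
    omega
  · have h1 := Nat.div_mul_le_self (n - k + w.sum - 1) w.sum
    omega

end Pool.MZFin
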