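import Pool.Agent.Lib.MZFin.DDens

/-! MP_c511df_nt: the primes at which all values of weight `1, .., K` vanish are rare. -/

open Finset

namespace Pool.MZFin

theorem lsum_le (P : Set ℕ) (X : ℕ) : lsum P X ≤ Real.log 4 * X := by
  classical
  have h1 := log_prod P X X
  have h2 : (∏ p ∈ (range (X + 1)).filter (fun p => p ∈ P ∧ p.Prime ∧ X < p), p) = 1 := by
    rw [Finset.filter_false_of_mem, Finset.prod_empty]
    intro p hp h3
    have := mem_range.1 hp
    omega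
  rw [h2, Nat.cast_one, Real.log_one] at h1
  rw [lsum_eq]
  linarith

theorem not_freq_van {mom : (List ℕ → ℚ) → List ℕ → List ℕ → ℕ → ℚ} (hm : HExp mom) (K : ℕ)
    (hK : 1 ≤ K) : ¬ Freq (Van K) (20 * Real.sqrt K * (2 : ℝ) ^ (-((K : ℝ) / 4))) := by
  intro hF
  have hl2 : 0 < Real.log 2 := Real.log_pos (by norm_num)
  have hl2' : Real.log 2 < 0.6931471808 := Real.log_two_lt_d9
  have hl4 : Real.log 4 = 2 * Real.log 2 := by
    rw [show (4 : ℝ) = 2 ^ 2 by norm_num, Real.log_pow]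
    norm_num
  set δ : ℝ := 20 * Real.sqrt K * (2 : ℝ) ^ (-((K : ℝ) / 4)) with hδ
  have hK1 : (1 : ℝ) ≤ K := by exact_mod_cast hK
  have hs1 : 1 ≤ Real.sqrt K := by
    rw [Real.one_le_sqrt]
    exact hK1
  have hpow : (2 : ℝ) ^ (-((K : ℝ) / 4)) * (2 : ℝ) ^ ((K : ℝ) / 4) = 1 := by
    rw [← Real.rpow_add (by norm_num), neg_add_cancel, Real.rpow_zero]
  have hδ2 : δ * (2 : ℝ) ^ ((K : ℝ) / 4) = 20 * Real.sqrt K := by
    rw [hδ, mul_assoc, hpow, mul_one]
  have hp1 : 0 < (2 : ℝ) ^ (-((K : ℝ) / 4)) := by positivity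
  have hδ0 : 0 < δ := by positivity
  rcases Nat.lt_or_ge K 3 with hK3 | hK3
  · obtain ⟨X, hX1, hX2⟩ := hF 1
    have h1 := lsum_le (Van K) X
    have h2 : (1 : ℝ) ≤ X := by exact_mod_cast hX1
    have h3 : (2 : ℝ) ^ ((K : ℝ) / 4) ≤ 2 := by
      calc (2 : ℝ) ^ ((K : ℝ) / 4) ≤ (2 : ℝ) ^ (1 : ℝ) := by
            apply Real.rpow_le_rpow_of_exponent_le (by norm_num)
            have : (K : ℝ) < 3 := by exact_mod_cast hK3
            linarith
        _ = 2 := Real.rpow_one 2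
    have h4 : 10 ≤ δ := by
      by_contra hcon
      push Not at hcon
      have : δ * (2 : ℝ) ^ ((K : ℝ) / 4) < 20 := by
        calc δ * (2 : ℝ) ^ ((K : ℝ) / 4) ≤ δ * 2 := mul_le_mul_of_nonneg_left h3 hδ0.le
          _ < 20 := by linarith
      rw [hδ2] at this
      linarith
    rw [hl4] at h1
    nlinarith
  · obtain ⟨w, hw⟩ : ∃ w, w = (K - 3) / 2 := ⟨_, rfl⟩
    have hw1 : 2 * w + 3 ≤ K := by omega
    have hw2 : K ≤ 2 * w + 4 := by omega
    have hw1' : (2 * w + 3 : ℝ) ≤ K := by exact_mod_cast hw1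
    have hw2' : (K : ℝ) ≤ 2 * w + 4 := by exact_mod_cast hw2
    have hwn : (0 : ℝ) ≤ w := Nat.cast_nonneg _
    have h1 := freq_ineq hm w hδ0.le (hF.mono (Van_anti hw1))
      (Nat.sqrt ((2 * w + 3) * 2 ^ w)) (2 * w + 3) (by rw [pow_two]; exact Nat.sqrt_le _)
    have hd : (dimF (Van (2 * w + 3)) (Wd (2 * w + 3)) : ℝ) ≤ 1 := by
      exact_mod_cast dimF_Van (2 * w + 3)
    have hκ1 : 1 ≤ Nat.sqrt ((2 * w + 3) * 2 ^ w) := by
      rw [Nat.one_le_iff_ne_zero, Ne, Nat.sqrt_eq_zero]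
      positivity
    have h2 : Real.sqrt ((2 * w + 3) * 2 ^ w) ≤ (Nat.sqrt ((2 * w + 3) * 2 ^ w) : ℝ) + 1 := by
      rw [Real.sqrt_le_left (by positivity)]
      have h3 := (Nat.lt_succ_sqrt ((2 * w + 3) * 2 ^ w)).le
      have h4 : (((2 * w + 3) * 2 ^ w : ℕ) : ℝ) ≤
          (((Nat.sqrt ((2 * w + 3) * 2 ^ w)).succ * (Nat.sqrt ((2 * w + 3) * 2 ^ w)).succ : ℕ) : ℝ) := by
        exact_mod_cast h3
      push_cast at h4
      rw [pow_two]
      exact h4
    set κ : ℝ := ((Nat.sqrt ((2 * w + 3) * 2 ^ w) : ℕ) : ℝ) with hκ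
    have hκ1' : (1 : ℝ) ≤ κ := by
      rw [hκ]
      exact_mod_cast hκ1
    push_cast at h1
    have h3 : (dimF (Van (2 * w + 3)) (Wd (2 * w + 3)) : ℝ) *
        (Real.log 4 * ((2 * w + 3 : ℝ) + 1 + 3 / 2 * (2 * w + 3))) ≤
        1 * (Real.log 4 * ((2 * w + 3 : ℝ) + 1 + 3 / 2 * (2 * w + 3))) :=
      mul_le_mul_of_nonneg_right hd (by rw [hl4]; positivity)
    have h4 : δ * κ ≤ 7 / 2 * Real.log 4 * (2 * w + 3) := by
      rw [hl4] at h1 h3 ⊢
      nlinarith [mul_nonneg hl2.le hwn]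
    have h5 : δ * Real.sqrt ((2 * w + 3) * 2 ^ w) ≤ 7 * Real.log 4 * (2 * w + 3) := by
      have h6 : Real.sqrt ((2 * w + 3) * 2 ^ w) ≤ 2 * κ := by linarith
      calc δ * Real.sqrt ((2 * w + 3) * 2 ^ w) ≤ δ * (2 * κ) :=
            mul_le_mul_of_nonneg_left h6 hδ0.le
        _ = 2 * (δ * κ) := by ring
        _ ≤ 2 * (7 / 2 * Real.log 4 * (2 * w + 3)) := by linarith
        _ = _ := by ring
    rw [Real.sqrt_mul (by positivity)] at h5
    have h6 : (2 : ℝ) ^ ((K : ℝ) / 4) ≤ 2 * Real.sqrt (2 ^ w) := by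
      have e1 : Real.sqrt ((2 : ℝ) ^ w) = (2 : ℝ) ^ ((w : ℝ) / 2) := by
        rw [Real.sqrt_eq_rpow, ← Real.rpow_natCast, ← Real.rpow_mul (by norm_num)]
        congr 1
        ring
      have e2 : (2 : ℝ) * (2 : ℝ) ^ ((w : ℝ) / 2) = (2 : ℝ) ^ ((w : ℝ) / 2 + 1) := by
        rw [Real.rpow_add (by norm_num), Real.rpow_one]
        ring
      rw [e1, e2]
      apply Real.rpow_le_rpow_of_exponent_le (by norm_num)
      linarith
    have hsq : Real.sqrt (2 * w + 3) * Real.sqrt (2 * w + 3) = 2 * w + 3 :=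
      Real.mul_self_sqrt (by positivity)
    have hs2 : Real.sqrt (2 * w + 3) ≤ Real.sqrt K := Real.sqrt_le_sqrt hw1'
    have hs3 : 0 < Real.sqrt (2 * (w : ℝ) + 3) := Real.sqrt_pos.2 (by positivity)
    have h7 : δ * Real.sqrt (2 ^ w) ≤ 7 * Real.log 4 * Real.sqrt (2 * w + 3) := by
      have h8 : (δ * Real.sqrt (2 ^ w)) * Real.sqrt (2 * w + 3) ≤
          (7 * Real.log 4 * Real.sqrt (2 * w + 3)) * Real.sqrt (2 * w + 3) := by
        calc (δ * Real.sqrt (2 ^ w)) * Real.sqrt (2 * w + 3)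
            = δ * (Real.sqrt (2 * w + 3) * Real.sqrt (2 ^ w)) := by ring
          _ ≤ 7 * Real.log 4 * (2 * w + 3) := h5
          _ = 7 * Real.log 4 * (Real.sqrt (2 * w + 3) * Real.sqrt (2 * w + 3)) := by rw [hsq]
          _ = _ := by ring
      exact le_of_mul_le_mul_right h8 hs3
    have h8 : δ * (2 : ℝ) ^ ((K : ℝ) / 4) ≤ 14 * Real.log 4 * Real.sqrt K := by
      calc δ * (2 : ℝ) ^ ((K : ℝ) / 4) ≤ δ * (2 * Real.sqrt (2 ^ w)) :=
            mul_le_mul_of_nonneg_left h6 hδ0.le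
        _ = 2 * (δ * Real.sqrt (2 ^ w)) := by ring
        _ ≤ 2 * (7 * Real.log 4 * Real.sqrt (2 * w + 3)) := by linarith
        _ = 14 * Real.log 4 * Real.sqrt (2 * w + 3) := by ring
        _ ≤ 14 * Real.log 4 * Real.sqrt K := by
            apply mul_le_mul_of_nonneg_left hs2
            rw [hl4]
            positivity
    rw [hδ2, hl4] at h8
    have h9 : 14 * (2 * Real.log 2) < 20 := by linarith
    nlinarith

/-- the primes at which all values of weight `1, .., K` vanish have small upper density -/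
theorem van_density {mom : (List ℕ → ℚ) → List ℕ → List ℕ → ℕ → ℚ} (hm : HExp mom) (K : ℕ)
    (hK : 1 ≤ K) : ∃ X0 : ℕ, ∀ X : ℕ, X0 ≤ X →
      lsum (Van K) X ≤ 20 * Real.sqrt K * (2 : ℝ) ^ (-((K : ℝ) / 4)) * X := by
  obtain ⟨X0, h⟩ := not_freq (not_freq_van hm K hK)
  exact ⟨X0, fun X hX => (h X hX).le⟩

theorem not_freq_van23 {mom : (List ℕ → ℚ) → List ℕ → List ℕ → ℕ → ℚ} (hm : HExp mom) :
    ¬ Freq (Van 23) (153 / 200 * Real.log 2) := by
  intro hf
  have hl2 : 0 < Real.log 2 := Real.log_pos (by norm_num)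
  have hl4 : Real.log 4 = 2 * Real.log 2 := by
    rw [show (4 : ℝ) = 2 ^ 2 by norm_num, Real.log_pow]
    norm_num
  have h1 := freq_ineq hm 10 (show 0 ≤ 153 / 200 * Real.log 2 by positivity) hf 194 37
    (by norm_num)
  have h2 : (dimF (Van 23) (Wd (2 * 10 + 3)) : ℝ) ≤ 1 := by
    have := dimF_Van 23
    exact_mod_cast this
  rw [hl4] at h1
  push_cast at h1
  have h3 : (dimF (Van 23) (Wd (2 * 10 + 3)) : ℝ) *
      (2 * Real.log 2 * (37 + 1 + 3 / 2 * (2 * 10 + 3))) ≤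
      1 * (2 * Real.log 2 * (37 + 1 + 3 / 2 * (2 * 10 + 3))) :=
    mul_le_mul_of_nonneg_right h2 (by positivity)
  linarith

/-- a positive proportion of the primes have a value of weight at most `23` which is not `0` -/
theorem nonvan_density {mom : (List ℕ → ℚ) → List ℕ → List ℕ → ℕ → ℚ} (hm : HExp mom) :
    ∃ X0 : ℕ, ∀ X : ℕ, X0 ≤ X → 4 / 25 * (X : ℝ) ≤ lsum (Van 23)ᶜ X := by
  have hl2 : 0.6931471803 < Real.log 2 := Real.log_two_gt_d9
  obtain ⟨X1, h1⟩ := not_freq (not_freq_van23 hm)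
  obtain ⟨X2, h2⟩ := theta_freq (999 / 1000 * Real.log 2) (by linarith)
  refine ⟨max X1 X2, fun X hX => ?_⟩
  have h3 := h1 X (le_trans (le_max_left _ _) hX)
  have h4 : 999 / 1000 * Real.log 2 * X ≤ lsum Set.univ X := by
    classical
    rw [lsum_eq]
    refine (h2 X (le_trans (le_max_right _ _) hX)).trans (le_of_eq ?_)
    refine Finset.sum_congr ?_ fun _ _ => rfl
    ext p
    simp only [Finset.mem_filter]
  have h5 : lsum Set.univ X ≤ lsum (Van 23) X + lsum (Van 23)ᶜ X := by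
    simp only [lsum_lterm]
    rw [← Finset.sum_add_distrib]
    refine Finset.sum_le_sum fun p _ => ?_
    by_cases hp : p.Prime
    · rw [lterm_pos (Set.mem_univ _) hp]
      by_cases hv : p ∈ Van 23
      · rw [lterm_pos hv hp]
        exact le_add_of_nonneg_right (lterm_nonneg _ _)
      · rw [lterm_pos (show p ∈ (Van 23)ᶜ from hv) hp]
        exact le_add_of_nonneg_left (lterm_nonneg _ _)
    · rw [lterm_neg fun h => hp h.2]
      exact add_nonneg (lterm_nonneg _ _) (lterm_nonneg _ _)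
  have hX0 : (0 : ℝ) ≤ X := Nat.cast_nonneg _
  nlinarith

end Pool.MZFin
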