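import Mathlib

/-! MP_c511df_nt, exponential growth of the spaces of FINITE multiple zeta values: definitions.

Words are lists of natural numbers with letters `≥ 1`; the HEAD of the list is the exponent of the
LARGEST summation variable (`k_1` in the problem file). `h_l(t) = hs w l (t - 1)`, `t = M + 1`. -/

open Finset

namespace Pool.MZFin

/-- multiple harmonic sum with weights `w`:
`hs w (a₁ :: a₂ :: ..) M = ∑_{M ≥ n₁ > n₂ > .. ≥ 1} w(n₁)^a₁ w(n₂)^a₂ ..` -/
def hs {R : Type*} [CommRing R] (w : ℕ → R) : List ℕ → ℕ → R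
  | [], _ => 1
  | a :: l, M => ∑ n ∈ range M, w (n + 1) ^ a * hs w l n

/-- the weights `n ↦ 1 / n` modulo `p` -/
def wp (p : ℕ) (n : ℕ) : ZMod p := ((n : ZMod p))⁻¹

/-- the `p`-th entry of the finite multiple zeta value of the index `l` -/
def fz (p : ℕ) (l : List ℕ) : ZMod p := hs (wp p) l (p - 1)

/-- a rational number modulo `p` -/
def rc (p : ℕ) (q : ℚ) : ZMod p := (q.num : ZMod p) * (q.den : ZMod p)⁻¹

theorem hs_nil {R : Type*} [CommRing R] (w : ℕ → R) (M : ℕ) : hs w [] M = 1 := by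
  simp [hs]

theorem hs_cons {R : Type*} [CommRing R] (w : ℕ → R) (a : ℕ) (l : List ℕ) (M : ℕ) :
    hs w (a :: l) M = ∑ n ∈ range M, w (n + 1) ^ a * hs w l n := by
  simp [hs]

theorem hs_succ {R : Type*} [CommRing R] (w : ℕ → R) (a : ℕ) (l : List ℕ) (M : ℕ) :
    hs w (a :: l) (M + 1) = hs w (a :: l) M + w (M + 1) ^ a * hs w l M := by
  rw [hs_cons, hs_cons, sum_range_succ]

theorem fz_nil (p : ℕ) : fz p [] = 1 := by
  simp [fz, hs]

/-- the binomial polynomial `C(X, i)` -/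
noncomputable def bq (i : ℕ) : Polynomial ℚ :=
  Polynomial.C (1 / (i.factorial : ℚ)) * descPochhammer ℚ i

/-- the words with letters `≥ 1` and weight exactly `n` -/
def Ws (n : ℕ) : Finset (List ℕ) := (univ : Finset (Composition n)).image fun c => c.blocks

/-- the words with letters `≥ 1` and weight at most `K` -/
def Wd (K : ℕ) : Finset (List ℕ) := (range (K + 1)).biUnion Ws

theorem mem_Ws {n : ℕ} {l : List ℕ} : l ∈ Ws n ↔ (∀ a ∈ l, 1 ≤ a) ∧ l.sum = n := by
  unfold Ws
  rw [mem_image]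
  constructor
  · rintro ⟨c, -, rfl⟩
    exact ⟨fun a ha => c.one_le_blocks ha, c.blocks_sum⟩
  · rintro ⟨h1, h2⟩
    exact ⟨⟨l, fun {i} hi => h1 i hi, h2⟩, mem_univ _, rfl⟩

theorem mem_Wd {K : ℕ} {l : List ℕ} : l ∈ Wd K ↔ (∀ a ∈ l, 1 ≤ a) ∧ l.sum ≤ K := by
  unfold Wd
  rw [mem_biUnion]
  constructor
  · rintro ⟨n, hn, hl⟩
    have h1 := mem_Ws.1 hl
    have h2 := mem_range.1 hn
    exact ⟨h1.1, by omega⟩
  · rintro ⟨h1, h2⟩
    exact ⟨l.sum, mem_range.2 (by omega), mem_Ws.2 ⟨h1, rfl⟩⟩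

theorem Ws_card (n : ℕ) : (Ws n).card = 2 ^ (n - 1) := by
  unfold Ws
  rw [card_image_of_injective, card_univ, composition_card]
  intro c c' h
  exact Composition.ext h

theorem Wd_card (K : ℕ) : (Wd K).card = 2 ^ K := by
  unfold Wd
  rw [card_biUnion]
  · simp only [Ws_card]
    induction K with
    | zero => simp
    | succ K ih =>
      rw [sum_range_succ, ih, Nat.add_sub_cancel, pow_succ]
      ring
  · intro i _ j _ hij
    rw [Function.onFun, disjoint_left]
    intro l hl hl'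
    exact hij ((mem_Ws.1 hl).2.symm.trans (mem_Ws.1 hl').2)

theorem rc_eq (p : ℕ) [Fact p.Prime] (q : ℚ) : rc p q = (q : ZMod p) := by
  unfold rc
  rw [Rat.cast_def, div_eq_mul_inv]

theorem den_ne (p : ℕ) (_hp : p.Prime) (q : ℚ) (h : q.den < p) : (q.den : ZMod p) ≠ 0 := by
  intro h0
  rw [ZMod.natCast_eq_zero_iff] at h0
  exact absurd (Nat.le_of_dvd q.den_pos h0) (by omega)

theorem rc_add (p : ℕ) (hp : p.Prime) (q r : ℚ) (hq : q.den < p) (hr : r.den < p) :
    rc p (q + r) = rc p q + rc p r := by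
  have := Fact.mk hp
  rw [rc_eq, rc_eq, rc_eq, Rat.cast_add_of_ne_zero (den_ne p hp q hq) (den_ne p hp r hr)]

theorem rc_mul (p : ℕ) (hp : p.Prime) (q r : ℚ) (hq : q.den < p) (hr : r.den < p) :
    rc p (q * r) = rc p q * rc p r := by
  have := Fact.mk hp
  rw [rc_eq, rc_eq, rc_eq, Rat.cast_mul_of_ne_zero (den_ne p hp q hq) (den_ne p hp r hr)]

theorem rc_intCast (p : ℕ) (z : ℤ) : rc p (z : ℚ) = (z : ZMod p) := by
  simp [rc]

/-- the rational relations between the finite multiple zeta values of the words of the finite set `W`,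
where only the primes of the set `P` are taken into account (`P = Set.univ`: the ring `𝒜`) -/
def Rel (P : Set ℕ) (W : Finset (List ℕ)) : Submodule ℚ (W → ℚ) where
  carrier := {c | ∃ P0 : ℕ, ∀ p ∈ P, p.Prime → P0 < p → ∑ l : W, rc p (c l) * fz p l = 0}
  add_mem' := by
    rintro c d ⟨P0, h0⟩ ⟨P1, h1⟩
    refine ⟨max (max P0 P1) (∑ l : W, ((c l).den + (d l).den)), fun p hP hp hpp => ?_⟩
    have hb : ∀ l : W, (c l).den + (d l).den < p := fun l =>
      lt_of_le_of_lt (single_le_sum (f := fun l : W => (c l).den + (d l).den)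
        (fun _ _ => Nat.zero_le _) (mem_univ l)) (lt_of_le_of_lt (le_max_right _ _) hpp)
    have e : ∀ l : W, rc p ((c + d) l) * fz p l = rc p (c l) * fz p l + rc p (d l) * fz p l := by
      intro l
      have := hb l
      rw [Pi.add_apply, rc_add p hp _ _ (by omega) (by omega), add_mul]
    rw [sum_congr rfl fun l _ => e l, sum_add_distrib,
      h0 p hP hp (lt_of_le_of_lt ((le_max_left _ _).trans (le_max_left _ _)) hpp),
      h1 p hP hp (lt_of_le_of_lt ((le_max_right _ _).trans (le_max_left _ _)) hpp), add_zero]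
  zero_mem' := ⟨0, fun p _ _ _ => by simp [rc]⟩
  smul_mem' := by
    rintro q c ⟨P0, h0⟩
    refine ⟨max P0 (q.den + ∑ l : W, (c l).den), fun p hP hp hpp => ?_⟩
    have hq : q.den + ∑ l : W, (c l).den < p := lt_of_le_of_lt (le_max_right _ _) hpp
    have hb : ∀ l : W, (c l).den ≤ ∑ l : W, (c l).den := fun l =>
      single_le_sum (f := fun l : W => (c l).den) (fun _ _ => Nat.zero_le _) (mem_univ l)
    have e : ∀ l : W, rc p ((q • c) l) * fz p l = rc p q * (rc p (c l) * fz p l) := by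
      intro l
      have := hb l
      rw [Pi.smul_apply, smul_eq_mul, rc_mul p hp _ _ (by omega) (by omega), mul_assoc]
    rw [sum_congr rfl fun l _ => e l, ← mul_sum,
      h0 p hP hp (lt_of_le_of_lt (le_max_left _ _) hpp), mul_zero]

theorem mem_Rel {P : Set ℕ} {W : Finset (List ℕ)} {c : W → ℚ} : c ∈ Rel P W ↔
    ∃ P0 : ℕ, ∀ p ∈ P, p.Prime → P0 < p → ∑ l : W, rc p (c l) * fz p l = 0 := Iff.rfl

/-- the dimension of the `ℚ`-span of the finite multiple zeta values of the words of `W`, only the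
primes of `P` being taken into account -/
noncomputable def dimF (P : Set ℕ) (W : Finset (List ℕ)) : ℕ :=
  Module.finrank ℚ ((W → ℚ) ⧸ Rel P W)

/-- REDUCTION of the sums modulo `p` to finite multiple zeta values, for the words `u ∈ A`, `v ∈ B`,
with the common denominator `E m` and heights `≤ C 2^(i+2j) E m`: the same integers `n l` express
`E m ∑_{t ≤ p} C(t,i) C(t,j) h_u(t) h_v(t)` by the `fz p l` (all primes `p > m`) and the moments
`mom φ` of the polynomial `C(X,i) C(X,j)` by the `φ l` (all functions `φ` of words) -/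
def HRed (A B W : Finset (List ℕ))
    (mom : (List ℕ → ℚ) → List ℕ → List ℕ → ℕ → ℚ) (E : ℕ → ℕ) (C : ℕ) : Prop :=
  ∀ u ∈ A, ∀ v ∈ B, ∀ i j m : ℕ, 1 ≤ i → i + j + 1 ≤ m → ∃ n : W → ℤ,
    (∑ l : W, |n l| ≤ ((C * 2 ^ (i + 2 * j) * E m : ℕ) : ℤ)) ∧
    (∀ p : ℕ, p.Prime → m < p →
      (E m : ZMod p) * ∑ M ∈ range p, (((M + 1).choose i : ℕ) : ZMod p) *
        (((M + 1).choose j : ℕ) : ZMod p) * hs (wp p) u M * hs (wp p) v M =
      ∑ l : W, (n l : ZMod p) * fz p l) ∧
    ∀ φ : List ℕ → ℚ, (E m : ℚ) * ∑ k ∈ range (i + j + 1), (bq i * bq j).coeff k * mom φ u v k =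
      ∑ l : W, (n l : ℚ) * φ l

end Pool.MZFin
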