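import Pool.Agent.Lib.MZFin.YLau
import Pool.Agent.Lib.MZExp.ZTau
import Pool.Agent.Lib.MZExp.ZPol

/-! MP_c511df_nt, finite multiple zeta values, ZERO ESTIMATE AT INFINITY, module `YShift` (220 lines): the
shift acts on the spaces `QM`. Compare `MZExp/ZShift.lean`.

PROOF. `s = d + w + 1` with `w` a bound for all `u.headI` (`u ∈ S0`) and all `v.sum` (`v ∈ S1`)
(`Finset.sup`). Given `p ∈ QM .. m y z` with polynomials `a, b`, take `A, B` from `exists_polys`
(MZExp/ZPol). Put `q.1 u = (xx^s)⁻¹ * algebraMap (A u)`, `q.2 v = (xx^s)⁻¹ * algebraMap (B v)`.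
(1) `Rel tau xx S0 S1 _ p q`: exactly as in `MZExp/ZShift.lean` (`φ = algebraMap ℚ[X] KK`).
(2) `xx^s • q ∈ QM .. (m - s) (y+s) (z+s)`: degrees by `exists_polys`. Remainders: apply
`exists_polys` with `K = LS`, `φ = iota` (`iota X ≠ 0`: `iota_X_ne_zero`; `iota.comp C` and
`algebraMap ℚ LS` agree, `RingHom.ext_rat`). Let `E v = ∑ u, iota (a u) * Cs u v - iota (b v)` and
`E' v = ∑ u, iota (A u) * Cs u v - iota (B v)`, `T = Tm (iota X) S1`. Then
`vecMul E' T v = (iota X)^s * σ (E v)`: `∑ v' ∑ u, iota (A u) Cs u v' T v' v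
= (iota X)^s ∑ u' iota ((a u').comp (X-1)) ∑ u ∑ v' Tm0 u u' T v' v Cs u v'
= (iota X)^s ∑ u' σ (iota (a u')) (σ (Cs u' v) - (R u' v)(1/X))` by `hrec` and the first property of
`σ`, and the second part of `exists_polys` for `vecMul (iota ∘ B) T v`; the terms with `R` cancel.
So `Fil (m - s) (vecMul E' T v)` for all `v` (`Fil_X_pow`, second property of `σ`, `Fil_mul`).
`Fil (m-s) (E' v)` by induction on the word `v`: `Tm_vecMul_nil` for `[]`, and
`E' v = vecMul E' T v - (-(iota X)⁻¹)^l * E' v'` for `v = l :: v'` (`Tm_vecMul_cons`, `v' ∈ S1`;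
`Fil_Xinv_pow`, `Fil_mul`, `Fil_mono`). -/

open Polynomial Pool.MZExp

namespace Pool.MZFin

private lemma yshift_neg_pow (k : ℕ) : Fil k ((-(iota X)⁻¹) ^ k) := by
  rw [neg_pow]
  rcases neg_one_pow_eq_or LS k with h | h
  · rw [h, one_mul]
    exact Fil_Xinv_pow k
  · rw [h, neg_one_mul]
    exact Fil_neg (Fil_Xinv_pow k)

theorem exists_shiftM (S0 S1 : Finset (List ℕ)) (hS1 : ∀ a l, a :: l ∈ S1 → l ∈ S1) (d : ℕ) :
    ∃ s : ℕ, ∀ (σ : LS →+* LS) (Cs : List ℕ → List ℕ → LS) (R : List ℕ → List ℕ → ℚ[X]),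
      (∀ p : ℚ[X], σ (iota p) = iota (p.comp (X - 1))) →
      (∀ (m : ℤ) (f : LS), Fil m f → Fil m (σ f)) →
      (∀ u ∈ S0, ∀ v ∈ S1, (R u v).natDegree ≤ d) →
      (∀ (u : S0) (v : S1), σ (Cs u v) = (∑ u' : S0, ∑ v' : S1,
        Tm (iota X) S0 u' u * Tm (iota X) S1 v' v * Cs u' v') +
          (R u v).eval₂ (algebraMap ℚ LS) (iota X)⁻¹) →
      ∀ (m : ℤ) (y z : ℕ), y ≤ z → ∀ p ∈ QM S0 S1 Cs m y z,
        ∃ q : (S0 → KK) × (S1 → KK),
          Rel tau xx S0 S1 (fun u v => (R u v).eval₂ (algebraMap ℚ KK) xx⁻¹) p q ∧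
          xx ^ s • q ∈ QM S0 S1 Cs (m - s) (y + s) (z + s) := by
  classical
  obtain ⟨w, hw⟩ : ∃ w, w = max (S0.sup List.headI) (S1.sup List.sum) := ⟨_, rfl⟩
  have hw0 : ∀ u ∈ S0, u.headI ≤ w := fun u hu => by
    rw [hw]
    exact (Finset.le_sup (f := List.headI) hu).trans (le_max_left _ _)
  have hw1 : ∀ v ∈ S1, v.sum ≤ w := fun v hv => by
    rw [hw]
    exact (Finset.le_sup (f := List.sum) hv).trans (le_max_right _ _)
  refine ⟨d + w + 1, fun σ Cs R hσ hσF hR hrec m y z hyz p hp => ?_⟩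
  obtain ⟨a, b, ha, hb, hab, rfl⟩ := hp
  obtain ⟨A, B, hA, hB, hA0, hB0, hφ⟩ := exists_polys S0 S1 hS1 d w hw0 hw1 R hR y z hyz a b ha hb
  obtain ⟨s, hs⟩ : ∃ s, s = d + w + 1 := ⟨_, rfl⟩
  rw [← hs] at hA hB hφ ⊢
  have hxs : xx ^ s ≠ 0 := pow_ne_zero _ xx_ne_zero
  refine ⟨(fun u => (xx ^ s)⁻¹ * algebraMap ℚ[X] KK (A u),
    fun v => (xx ^ s)⁻¹ * algebraMap ℚ[X] KK (B v)), ⟨?_, ?_⟩, ?_⟩
  · have hk := (hφ KK (algebraMap ℚ[X] KK) xx_ne_zero).1
    funext u
    have h1 := hk u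
    show (xx ^ s)⁻¹ * algebraMap ℚ[X] KK (A u) =
      (Tm xx S0).mulVec (fun u' => tau (algebraMap ℚ[X] KK (a u'))) u
    simp only [tau_algebraMap]
    rw [h1]
    exact inv_mul_cancel_left₀ hxs _
  · have hk := (hφ KK (algebraMap ℚ[X] KK) xx_ne_zero).2
    intro v
    have h1 := hk v
    have hcomp : (algebraMap ℚ[X] KK).comp C = algebraMap ℚ KK := RingHom.ext_rat _ _
    rw [hcomp] at h1
    show Matrix.vecMul (fun v' => (xx ^ s)⁻¹ * algebraMap ℚ[X] KK (B v')) (Tm xx S1) v =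
      tau (algebraMap ℚ[X] KK (b v)) - ∑ u : S0, tau (algebraMap ℚ[X] KK (a u)) *
        (R u v).eval₂ (algebraMap ℚ KK) xx⁻¹
    have h2 : Matrix.vecMul (fun v' => (xx ^ s)⁻¹ * algebraMap ℚ[X] KK (B v')) (Tm xx S1) v =
        (xx ^ s)⁻¹ * Matrix.vecMul (fun v' => algebraMap ℚ[X] KK (B v')) (Tm xx S1) v := by
      simp only [Matrix.vecMul, dotProduct, mul_assoc, Finset.mul_sum]
    rw [h2]
    simp only [tau_algebraMap]
    have h3 : Matrix.vecMul (fun v' => algebraMap ℚ[X] KK (B v')) (Tm xx S1) v =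
        xx ^ s * (algebraMap ℚ[X] KK ((b v).comp (X - 1)) -
          ∑ u : S0, algebraMap ℚ[X] KK ((a u).comp (X - 1)) *
            (R u v).eval₂ (algebraMap ℚ KK) xx⁻¹) := h1
    rw [h3]
    exact inv_mul_cancel_left₀ hxs _
  · refine ⟨A, B, hA, hB, ?_, ?_⟩
    · have hAj := (hφ LS iota iota_X_ne_zero).1
      have hBj := (hφ LS iota iota_X_ne_zero).2
      have hcomp : iota.comp C = algebraMap ℚ LS := RingHom.ext_rat _ _
      rw [hcomp] at hBj
      simp only [← hσ] at hAj hBj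
      have hvec : ∀ v : S1, Matrix.vecMul (fun v : S1 => ∑ u : S0, iota (A u) * Cs u v - iota (B v))
          (Tm (iota X) S1) v =
          iota X ^ s * σ (∑ u : S0, iota (a u) * Cs u v - iota (b v)) := by
        intro v
        have h0 : Matrix.vecMul (fun v : S1 => ∑ u : S0, iota (A u) * Cs u v - iota (B v))
            (Tm (iota X) S1) v =
            Matrix.vecMul (fun v : S1 => ∑ u : S0, iota (A u) * Cs u v) (Tm (iota X) S1) v -
            Matrix.vecMul (fun v : S1 => iota (B v)) (Tm (iota X) S1) v := by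
          simp only [Matrix.vecMul, dotProduct, sub_mul, Finset.sum_sub_distrib]
        have h3 : Matrix.vecMul (fun v : S1 => ∑ u : S0, iota (A u) * Cs u v)
            (Tm (iota X) S1) v =
            iota X ^ s * ∑ u' : S0, σ (iota (a u')) *
              ∑ u : S0, ∑ v' : S1, Tm (iota X) S0 u u' * Tm (iota X) S1 v' v * Cs u v' := by
          simp only [Matrix.vecMul, dotProduct, hAj, Matrix.mulVec, Finset.mul_sum,
            Finset.sum_mul]
          rw [Finset.sum_comm]
          have e1 : ∀ u : S0, ∑ v' : S1, ∑ u' : S0,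
              iota X ^ s * (Tm (iota X) S0 u u' * σ (iota (a u'))) *
                Cs u v' * Tm (iota X) S1 v' v =
              ∑ u' : S0, ∑ v' : S1,
              iota X ^ s * (Tm (iota X) S0 u u' * σ (iota (a u'))) *
                Cs u v' * Tm (iota X) S1 v' v := fun u => Finset.sum_comm
          rw [Finset.sum_congr rfl fun u _ => e1 u, Finset.sum_comm]
          refine Finset.sum_congr rfl fun u' _ => Finset.sum_congr rfl fun u _ =>
            Finset.sum_congr rfl fun v' _ => ?_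
          ring
        have h4 : ∀ u' : S0, ∑ u : S0, ∑ v' : S1, Tm (iota X) S0 u u' *
            Tm (iota X) S1 v' v * Cs u v' =
            σ (Cs u' v) - (R u' v).eval₂ (algebraMap ℚ LS) (iota X)⁻¹ := by
          intro u'
          rw [hrec u' v]
          ring
        rw [h0, h3, hBj v, ← mul_sub]
        congr 1
        simp only [h4, mul_sub, Finset.sum_sub_distrib]
        rw [map_sub, map_sum]
        simp only [map_mul]
        ring
      have hF : ∀ v : S1, Fil (m - s) (Matrix.vecMul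
          (fun v : S1 => ∑ u : S0, iota (A u) * Cs u v - iota (B v)) (Tm (iota X) S1) v) := by
        intro v
        rw [hvec v]
        have h := Fil_mul (Fil_X_pow s) (hσF m _ (hab v))
        have e : -(s : ℤ) + m = m - s := by ring
        rwa [e] at h
      have key : ∀ (l : List ℕ) (hl : l ∈ S1), Fil (m - s)
          (∑ u : S0, iota (A u) * Cs u l - iota (B ⟨l, hl⟩)) := by
        intro l
        induction l with
        | nil =>
          intro hl
          have h := hF ⟨[], hl⟩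
          rw [Tm_vecMul_nil _ _ _ _ rfl] at h
          exact h
        | cons c l ih =>
          intro hl
          have hl' : l ∈ S1 := hS1 c l hl
          have h := hF ⟨c :: l, hl⟩
          rw [Tm_vecMul_cons (iota X) S1 _ ⟨c :: l, hl⟩ ⟨l, hl'⟩ c rfl] at h
          have h2 := Fil_mul (yshift_neg_pow c) (ih hl')
          have h3 := Fil_sub h (Fil_mono (by omega) h2)
          rw [add_sub_cancel_right] at h3
          exact h3
      intro v
      exact key v.1 v.2
    · refine Prod.ext ?_ ?_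
      · funext u
        show xx ^ s * ((xx ^ s)⁻¹ * algebraMap ℚ[X] KK (A u)) = algebraMap ℚ[X] KK (A u)
        exact mul_inv_cancel_left₀ hxs _
      · funext v
        show xx ^ s * ((xx ^ s)⁻¹ * algebraMap ℚ[X] KK (B v)) = algebraMap ℚ[X] KK (B v)
        exact mul_inv_cancel_left₀ hxs _

end Pool.MZFin
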