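import Pool.Agent.Lib.MZFin.YLau
import Pool.Agent.Lib.MZExp.ZTau

/-! MP_c511df_nt, finite multiple zeta values, ZERO ESTIMATE AT INFINITY, module `YUp` (220 lines): the
spaces `QM` (finite dimension, upper bound, monotonicity, multiplication by `X`, rank count).
COPY of the PROVED files `MZExp/ZUp.lean` and `MZExp/ZCnt.lean` with small changes.

PROOF. `QM_finite`, `QM_finrank_le`, `QM_mono`, `rank_countM`: as in `MZExp/ZUp.lean`,
`MZExp/ZCnt.lean` (monotonicity in `m`: `Fil_mono`). `QM_inj`: `p.1 = 0` gives `a u = 0` for all `u`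
(injectivity of `algebraMap`), so `Fil m (0 - iota (b v))`, `m ≥ 1`, so `Fil 1 (iota (b v))`
(`Fil_neg`, `Fil_mono`) and `b v = 0` by `iota_eq_zero`. `QM_pow`: `a ↦ X^j * a`, `b ↦ X^j * b`, the
remainder is multiplied by `iota X ^ j`, `Fil_X_pow`, `Fil_mul`. -/

open Polynomial Pool.MZExp

namespace Pool.MZFin

variable {S0 S1 : Finset (List ℕ)} {Cs : List ℕ → List ℕ → LS} {m : ℤ} {y z : ℕ}

private theorem mem_dlt {n : ℕ} {p : ℚ[X]} (h : p.natDegree ≤ n) : p ∈ degreeLT ℚ (n + 1) := by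
  rw [mem_degreeLT, degree_lt_iff_coeff_zero]
  intro m hm
  exact coeff_eq_zero_of_natDegree_lt (by omega)

private noncomputable def Lz (S : Finset (List ℕ)) (n : ℕ) :
    (S → degreeLT ℚ n) →ₗ[ℚ] (S → KK) where
  toFun p := fun u => algebraMap ℚ[X] KK (p u).1
  map_add' p q := by
    ext i
    simp
  map_smul' k p := by
    ext i
    exact map_rat_smul (algebraMap ℚ[X] KK) k (p i).1

private theorem dlt_fin (n : ℕ) : FiniteDimensional ℚ (degreeLT ℚ n) :=
  (degreeLTEquiv ℚ n).symm.finiteDimensional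

private theorem dlt_rank (n : ℕ) : Module.finrank ℚ (degreeLT ℚ n) = n := by
  rw [(degreeLTEquiv ℚ n).finrank_eq, Module.finrank_fin_fun]

private theorem Lz_rank (S : Finset (List ℕ)) (n : ℕ) :
    Module.finrank ℚ (LinearMap.range (Lz S n)) ≤ n * S.card := by
  have := dlt_fin n
  refine (LinearMap.finrank_range_le (Lz S n)).trans ?_
  rw [Module.finrank_pi_fintype]
  simp only [dlt_rank, Finset.sum_const, Finset.card_univ, Fintype.card_coe, smul_eq_mul]
  exact (mul_comm _ _).le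

private theorem Lz_fin (S : Finset (List ℕ)) (n : ℕ) :
    FiniteDimensional ℚ (LinearMap.range (Lz S n)) := by
  have := dlt_fin n
  infer_instance

theorem QM_finite : FiniteDimensional ℚ (QM S0 S1 Cs m y z) := by
  have h0 := dlt_fin (y + 1)
  have h1 := dlt_fin (z + 1)
  have hle : QM S0 S1 Cs m y z ≤
      LinearMap.range ((Lz S0 (y + 1)).prodMap (Lz S1 (z + 1))) := by
    rintro p ⟨a, b, ha, hb, -, rfl⟩
    exact ⟨(fun u => ⟨a u, mem_dlt (ha u)⟩, fun v => ⟨b v, mem_dlt (hb v)⟩), rfl⟩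
  exact Submodule.finiteDimensional_of_le hle

theorem QM_inj (hm : 1 ≤ m) {p : (S0 → KK) × (S1 → KK)} (hp : p ∈ QM S0 S1 Cs m y z)
    (h : p.1 = 0) : p = 0 := by
  obtain ⟨a, b, ha, hb, hc, rfl⟩ := hp
  have ha0 : ∀ u, a u = 0 := by
    intro u
    have h1 := congrFun h u
    exact (IsFractionRing.injective ℚ[X] KK) (by simpa using h1)
  have hb0 : ∀ v, b v = 0 := by
    intro v
    have h1 := hc v
    have h2 : (∑ u : S0, iota (a u) * Cs u v - iota (b v)) = -iota (b v) := by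
      rw [Finset.sum_eq_zero (fun u _ => by rw [ha0 u, map_zero, zero_mul]), zero_sub]
    rw [h2] at h1
    have h3 := Fil_neg h1
    rw [neg_neg] at h3
    exact iota_eq_zero (Fil_mono hm h3)
  refine Prod.ext ?_ ?_
  · ext u
    simp [ha0]
  · ext v
    simp [hb0]

theorem QM_finrank_le (hm : 1 ≤ m) :
    Module.finrank ℚ (QM S0 S1 Cs m y z) ≤ (y + 1) * S0.card := by
  have := Lz_fin S0 (y + 1)
  set f : QM S0 S1 Cs m y z →ₗ[ℚ] (S0 → KK) :=
    (LinearMap.fst ℚ (S0 → KK) (S1 → KK)).comp (QM S0 S1 Cs m y z).subtype with hf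
  have hinj : Function.Injective f := by
    rw [← LinearMap.ker_eq_bot, LinearMap.ker_eq_bot']
    intro p hp
    exact Subtype.ext (QM_inj hm p.2 hp)
  have hle : LinearMap.range f ≤ LinearMap.range (Lz S0 (y + 1)) := by
    rintro _ ⟨⟨p, a, b, ha, hb, -, rfl⟩, rfl⟩
    exact ⟨fun u => ⟨a u, mem_dlt (ha u)⟩, rfl⟩
  rw [← LinearMap.finrank_range_of_inj hinj]
  exact (Submodule.finrank_mono hle).trans (Lz_rank S0 (y + 1))

theorem QM_mono {m' : ℤ} {y' z' : ℕ} (hm : m' ≤ m) (hy : y ≤ y') (hz : z ≤ z') :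
    QM S0 S1 Cs m y z ≤ QM S0 S1 Cs m' y' z' := by
  rintro p ⟨a, b, ha, hb, hc, rfl⟩
  exact ⟨a, b, fun u => (ha u).trans hy, fun v => (hb v).trans hz,
    fun v => Fil_mono hm (hc v), rfl⟩

theorem QM_pow {p : (S0 → KK) × (S1 → KK)} (hp : p ∈ QM S0 S1 Cs m y z) (j : ℕ) :
    xx ^ j • p ∈ QM S0 S1 Cs (m - j) (y + j) (z + j) := by
  obtain ⟨a, b, ha, hb, hc, rfl⟩ := hp
  have hX : ∀ {n : ℕ} (q : ℚ[X]), q.natDegree ≤ n → (X ^ j * q).natDegree ≤ n + j := by
    intro n q hq
    refine (natDegree_mul_le).trans ?_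
    have := natDegree_X_pow_le (R := ℚ) j
    omega
  refine ⟨fun u => X ^ j * a u, fun v => X ^ j * b v, fun u => hX _ (ha u), fun v => hX _ (hb v),
    fun v => ?_, ?_⟩
  · have h1 : (∑ u : S0, iota (X ^ j * a u) * Cs u v - iota (X ^ j * b v)) =
        iota X ^ j * (∑ u : S0, iota (a u) * Cs u v - iota (b v)) := by
      simp only [map_mul, map_pow, mul_assoc, ← Finset.mul_sum]
      rw [mul_sub]
    rw [h1]
    have h2 := Fil_mul (Fil_X_pow j) (hc v)
    rw [show (m - (j : ℤ)) = -(j : ℤ) + m by ring]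
    exact h2
  · refine Prod.ext ?_ ?_
    · ext u
      simp [xx, smul_eq_mul]
    · ext v
      simp [xx, smul_eq_mul]

private lemma smulC (q : ℚ) (p : (S0 → KK) × (S1 → KK)) :
    algebraMap ℚ[X] KK (C q) • p = q • p := by
  have h : ∀ x : KK, algebraMap ℚ[X] KK (C q) * x = q • x := by
    intro x
    rw [← smul_one_mul q x]
    congr 1
    have h1 : (algebraMap ℚ[X] KK) (q • (1 : ℚ[X])) = q • (algebraMap ℚ[X] KK) 1 :=
      map_rat_smul (algebraMap ℚ[X] KK) q 1
    rw [map_one] at h1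
    rw [← h1, smul_eq_C_mul, mul_one]
  ext i
  · simp only [Prod.smul_fst, Pi.smul_apply, smul_eq_mul]
    exact h _
  · simp only [Prod.smul_snd, Pi.smul_apply, smul_eq_mul]
    exact h _

theorem rank_countM (i' : ℕ) :
    (i' + 1) *
      Module.finrank KK (Submodule.span KK (QM S0 S1 Cs m y z : Set ((S0 → KK) × (S1 → KK)))) ≤
      Module.finrank ℚ (QM S0 S1 Cs (m - i') (y + i') (z + i')) := by
  classical
  have := QM_finite (S0 := S0) (S1 := S1) (Cs := Cs) (m := m - i') (y := y + i') (z := z + i')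
  suffices key : ∀ (R : ℕ) (f : Fin R → (S0 → KK) × (S1 → KK)),
      (∀ i, f i ∈ QM S0 S1 Cs m y z) → LinearIndependent KK f →
      (i' + 1) * R ≤ Module.finrank ℚ (QM S0 S1 Cs (m - i') (y + i') (z + i')) by
    obtain ⟨f, hf, -, hli⟩ := Submodule.exists_fun_fin_finrank_span_eq KK
      (QM S0 S1 Cs m y z : Set ((S0 → KK) × (S1 → KK)))
    exact key _ f hf hli
  intro R f hf hli
  have hmem : ∀ p : Fin (i' + 1) × Fin R,
      xx ^ (p.1 : ℕ) • f p.2 ∈ QM S0 S1 Cs (m - i') (y + i') (z + i') := fun p =>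
    QM_mono (by have := p.1.2; omega) (Nat.add_le_add_left (Nat.lt_succ_iff.1 p.1.2) y)
      (Nat.add_le_add_left (Nat.lt_succ_iff.1 p.1.2) z) (QM_pow (hf p.2) p.1)
  let g : Fin (i' + 1) × Fin R → QM S0 S1 Cs (m - i') (y + i') (z + i') := fun p =>
    ⟨xx ^ (p.1 : ℕ) • f p.2, hmem p⟩
  have hg : LinearIndependent ℚ g := by
    rw [Fintype.linearIndependent_iff]
    intro r hr
    have h1 : ∑ p : Fin (i' + 1) × Fin R, r p • (xx ^ (p.1 : ℕ) • f p.2) = 0 := by
      have h0 := congrArg (Subtype.val) hr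
      rw [Submodule.coe_sum] at h0
      exact h0
    have h2 : ∑ k : Fin R, (∑ j : Fin (i' + 1),
        algebraMap ℚ[X] KK (C (r (j, k))) * xx ^ (j : ℕ)) • f k = 0 := by
      rw [← h1, Fintype.sum_prod_type_right]
      refine Finset.sum_congr rfl fun k _ => ?_
      rw [Finset.sum_smul]
      refine Finset.sum_congr rfl fun j _ => ?_
      rw [mul_smul]
      exact smulC _ _
    have h3 := Fintype.linearIndependent_iff.1 hli _ h2
    intro p
    have h4 := h3 p.2
    have h5 : (∑ j : Fin (i' + 1), C (r (j, p.2)) * X ^ (j : ℕ) : ℚ[X]) = 0 := by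
      apply IsFractionRing.injective ℚ[X] KK
      rw [map_sum, map_zero]
      simpa only [map_mul, map_pow, xx] using h4
    have h6 := congrArg (fun q => q.coeff (p.1 : ℕ)) h5
    simp only [finsetSum_coeff, coeff_C_mul, coeff_X_pow, coeff_zero] at h6
    rw [Finset.sum_eq_single p.1] at h6
    · simpa using h6
    · intro j _ hj
      rw [if_neg (fun h => hj (Fin.ext h.symm)), mul_zero]
    · intro h
      exact absurd (Finset.mem_univ _) h
  have h7 := hg.fintype_card_le_finrank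
  simpa using h7

end Pool.MZFin
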