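import Pool.Agent.Lib.MZFin.FLem
import Pool.Agent.Lib.MZFin.YUp
import Pool.Agent.Lib.MZFin.YShift
import Pool.Agent.Lib.MZExp.ZNo
import Pool.Agent.Lib.MZExp.ZGrow

/-! MP_c511df_nt, exponent 1/3, module `FAlg` (180 lines): COPY of the PROVED file `YAlg.lean` with small
changes (the degrees are `≤ D/2`, the order is `D + 1`, `lemZF` instead of `lemZ1`).

PROOF. `s` from `exists_shiftM S0 S1 hS1 d`; `D0 = 8 * (s * (2 * S0.card + 1)) + 8`. Let `D ≥ D0`,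
`m0 = D + 1`, `Q i = QM S0 S1 Cs (m0 - i) (D/2 + i) (D/2 + i)`, `J i = span KK (Q i)`.
(1) For `i ≤ D/8` and `i' = 7*D/8`: `m0 - i - i' ≥ 1`, so `rank_countM` and `QM_finrank_le` give
`(i'+1) * finrank (J i) ≤ (D/2 + i + i' + 1) * S0.card`. As `8*(i'+1) ≥ 7D+1`,
`8*(D/2+i+i'+1) ≤ 12D + 8`: `finrank (J i) ≤ 2 * S0.card` (if `≥ 2 c + 1` then
`(7D+1)(2c+1) ≤ (12D+8) c`, so `2Dc + 7D + 1 ≤ 6c`, false for `D ≥ 3`; case `c = 0` included).
(2) `exists_stable` with `R = 2 * S0.card`, `n = D/8`: `i` with `i + s ≤ D/8`, `J (i+s) = J i`.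
(3) Stability of `J i` as in `YAlg`.
(4) `(Pi.single [] 1, 0) ∈ J i`: it is in `QM` with `a = Pi.single [] 1`, `b = 0`, because
`Cs [] v = 0`.
(5) If `a (v0 ++ [L]) ≠ 0`: the pair `(algebraMap ∘ a, algebraMap ∘ b) ∈ Q 0 ⊆ Q i` (`b` chosen) has a
nonzero coordinate at `v0 ++ [L]`; `lemZF tau xx noSol ..` with `d0 := algebraMap ℚ KK d0`
(`tau (algebraMap ℚ KK d0) = algebraMap ℚ KK d0`: `map_ratCast`-type lemma or
`RingHom.ext_rat`) gives `S1.card ≤ finrank (J i) ≤ 2 * S0.card < S1.card`. -/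

open Polynomial Pool.MZExp

namespace Pool.MZFin

private lemma falg_zero {K : Type*} [Field K] (τ : K ≃+* K) (x : K) (S0 S1 : Finset (List ℕ))
    (Rx : List ℕ → List ℕ → K) : Pool.MZExp.Rel τ x S0 S1 Rx 0 0 := by
  refine ⟨?_, fun v => ?_⟩
  · ext u
    simp [Matrix.mulVec, dotProduct]
  · simp [Matrix.vecMul, dotProduct]

private lemma falg_add {K : Type*} [Field K] (τ : K ≃+* K) (x : K) (S0 S1 : Finset (List ℕ))
    (Rx : List ℕ → List ℕ → K) {p q p' q' : (S0 → K) × (S1 → K)}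
    (h : Pool.MZExp.Rel τ x S0 S1 Rx p q) (h' : Pool.MZExp.Rel τ x S0 S1 Rx p' q') :
    Pool.MZExp.Rel τ x S0 S1 Rx (p + p') (q + q') := by
  obtain ⟨h1, h2⟩ := h
  obtain ⟨h1', h2'⟩ := h'
  refine ⟨?_, fun v => ?_⟩
  · have e : (fun u => τ ((p + p').1 u)) = (fun u => τ (p.1 u)) + (fun u => τ (p'.1 u)) := by
      ext u
      simp
    rw [e, Matrix.mulVec_add, ← h1, ← h1']
    rfl
  · have e : Matrix.vecMul (q + q').2 (Tm x S1) v
        = Matrix.vecMul q.2 (Tm x S1) v + Matrix.vecMul q'.2 (Tm x S1) v := by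
      have e2 : (q + q').2 = q.2 + q'.2 := rfl
      rw [e2, Matrix.add_vecMul]
      rfl
    rw [e, h2 v, h2' v]
    have e3 : ∑ u : S0, τ ((p + p').1 u) * Rx u v
        = ∑ u : S0, τ (p.1 u) * Rx u v + ∑ u : S0, τ (p'.1 u) * Rx u v := by
      rw [← Finset.sum_add_distrib]
      refine Finset.sum_congr rfl fun u _ => ?_
      have : (p + p').1 u = p.1 u + p'.1 u := rfl
      rw [this, map_add, add_mul]
    rw [e3]
    have e4 : (p + p').2 v = p.2 v + p'.2 v := rfl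
    rw [e4, map_add]
    ring

private lemma falg_smul {K : Type*} [Field K] (τ : K ≃+* K) (x : K) (S0 S1 : Finset (List ℕ))
    (Rx : List ℕ → List ℕ → K) (k : K) {p q : (S0 → K) × (S1 → K)}
    (h : Pool.MZExp.Rel τ x S0 S1 Rx p q) : Pool.MZExp.Rel τ x S0 S1 Rx (k • p) (τ k • q) := by
  obtain ⟨h1, h2⟩ := h
  refine ⟨?_, fun v => ?_⟩
  · have e : (fun u => τ ((k • p).1 u)) = τ k • (fun u => τ (p.1 u)) := by
      ext u
      have : (k • p).1 u = k * p.1 u := rfl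
      rw [this, map_mul]
      rfl
    rw [e, Matrix.mulVec_smul, ← h1]
    rfl
  · have e : Matrix.vecMul (τ k • q).2 (Tm x S1) v
        = τ k * Matrix.vecMul q.2 (Tm x S1) v := by
      have e2 : (τ k • q).2 = τ k • q.2 := rfl
      rw [e2, Matrix.smul_vecMul]
      rfl
    rw [e, h2 v]
    have e3 : ∑ u : S0, τ ((k • p).1 u) * Rx u v = τ k * ∑ u : S0, τ (p.1 u) * Rx u v := by
      rw [Finset.mul_sum]
      refine Finset.sum_congr rfl fun u _ => ?_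
      have : (k • p).1 u = k * p.1 u := rfl
      rw [this, map_mul, mul_assoc]
    rw [e3]
    have e4 : (k • p).2 v = k * p.2 v := rfl
    rw [e4, map_mul]
    ring

private lemma falg_arith (N i r cd : ℕ) (hi : i ≤ N / 8) (hN : 8 ≤ N)
    (h : (7 * N / 8 + 1) * r ≤ (N / 2 + i + 7 * N / 8 + 1) * cd) : r ≤ 2 * cd := by
  by_contra hr
  push Not at hr
  have a1 : 7 * N + 1 ≤ 8 * (7 * N / 8 + 1) := by omega
  have a2 : 8 * (N / 2 + i + 7 * N / 8 + 1) ≤ 12 * N + 8 := by omega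
  have a3 : (7 * N + 1) * (2 * cd + 1) ≤ (12 * N + 8) * cd := by
    calc (7 * N + 1) * (2 * cd + 1) ≤ (8 * (7 * N / 8 + 1)) * r := Nat.mul_le_mul a1 hr
      _ = 8 * ((7 * N / 8 + 1) * r) := by ring
      _ ≤ 8 * ((N / 2 + i + 7 * N / 8 + 1) * cd) := Nat.mul_le_mul_left _ h
      _ = (8 * (N / 2 + i + 7 * N / 8 + 1)) * cd := by ring
      _ ≤ (12 * N + 8) * cd := Nat.mul_le_mul_right _ a2
  nlinarith

theorem zero_algF (S0 S1 : Finset (List ℕ)) (hS0 : ∀ a l, a :: l ∈ S0 → l ∈ S0)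
    (hS1 : ∀ a l, a :: l ∈ S1 → l ∈ S1) (hp0 : ∀ l ∈ S0, ∀ a ∈ l, 1 ≤ a)
    (hp1 : ∀ l ∈ S1, ∀ a ∈ l, 1 ≤ a) (h0 : [] ∈ S0) (h1 : [] ∈ S1) (d L : ℕ)
    (hcard : 2 * S0.card < S1.card) :
    ∃ D0 : ℕ, ∀ D : ℕ, D0 ≤ D → ∀ (σ : LS →+* LS) (Cs : List ℕ → List ℕ → LS)
      (R : List ℕ → List ℕ → ℚ[X]) (d0 : ℚ), d0 ≠ 0 →
      (∀ p : ℚ[X], σ (iota p) = iota (p.comp (X - 1))) →
      (∀ (m : ℤ) (f : LS), Fil m f → Fil m (σ f)) →
      (∀ u ∈ S0, ∀ v ∈ S1, (R u v).natDegree ≤ d) → (∀ a, L ≤ a → R [a] [] = 0) →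
      (∀ c : ℕ, 1 ≤ c → R [L] [c] = C ((-1) ^ (c + 1) * d0) * X ^ (c + 1)) →
      (∀ a c : ℕ, L < a → 1 ≤ c → R [a] [c] = 0) →
      (∀ v, Cs [] v = 0) →
      (∀ (u : S0) (v : S1), σ (Cs u v) = (∑ u' : S0, ∑ v' : S1,
        Tm (iota X) S0 u' u * Tm (iota X) S1 v' v * Cs u' v') +
          (R u v).eval₂ (algebraMap ℚ LS) (iota X)⁻¹) →
      ∀ a : S0 → ℚ[X], (∀ u, (a u).natDegree ≤ D / 2) →
      (∀ v : S1, ∃ b : ℚ[X], b.natDegree ≤ D / 2 ∧
        Fil ((D : ℤ) + 1) (∑ u : S0, iota (a u) * Cs u v - iota b)) →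
      ∀ (v0 : List ℕ) (hL : v0 ++ [L] ∈ S0),
        (∀ u, v0 ++ u ∈ S0 → u ≠ [] → ∃ a, L ≤ a ∧ u = [a]) → a ⟨v0 ++ [L], hL⟩ = 0 := by
  classical
  obtain ⟨s, hs⟩ := exists_shiftM S0 S1 hS1 d
  refine ⟨8 * (s * (2 * S0.card + 1)) + 8, ?_⟩
  intro D hD σ Cs R d0 hd0 hσ1 hσ2 hRd hRL hR1 hR2 hCs hrec a haN hab v0 hL hv0
  by_contra hne0
  choose b hb1 hb2 using hab
  let m0 : ℤ := (D : ℤ) + 1
  have hm0 : m0 = (D : ℤ) + 1 := rfl
  let Q : ℕ → Submodule ℚ ((S0 → KK) × (S1 → KK)) := fun i =>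
    QM S0 S1 Cs (m0 - (i : ℤ)) (D / 2 + i) (D / 2 + i)
  let J : ℕ → Submodule KK ((S0 → KK) × (S1 → KK)) := fun i => Submodule.span KK (Q i : Set _)
  have hfin : ∀ i, i ≤ D / 8 → Module.finrank KK (J i) ≤ 2 * S0.card := by
    intro i hi
    have h1 := rank_countM (S0 := S0) (S1 := S1) (Cs := Cs) (m := m0 - (i : ℤ)) (y := D / 2 + i)
      (z := D / 2 + i) (7 * D / 8)
    have h2 : Module.finrank ℚ (QM S0 S1 Cs (m0 - (i : ℤ) - ((7 * D / 8 : ℕ) : ℤ))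
        (D / 2 + i + 7 * D / 8) (D / 2 + i + 7 * D / 8))
        ≤ (D / 2 + i + 7 * D / 8 + 1) * S0.card := QM_finrank_le (by omega)
    exact falg_arith D i _ S0.card hi (by omega) (h1.trans h2)
  have hmono : ∀ i, J i ≤ J (i + 1) := by
    intro i
    exact Submodule.span_mono (QM_mono (by push_cast; omega) (by omega) (by omega))
  obtain ⟨i, hi1, hi2⟩ := exists_stable J hmono s (2 * S0.card) (D / 8) hfin (by omega)
  have hiN : i ≤ D / 8 := by omega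
  have hst : ∀ p ∈ J i, ∃ q ∈ J i, Pool.MZExp.Rel tau xx S0 S1
      (fun u v => (R u v).eval₂ (algebraMap ℚ KK) xx⁻¹) p q := by
    intro p hp
    induction hp using Submodule.span_induction with
    | mem p hp =>
      obtain ⟨q, hq1, hq2⟩ := hs σ Cs R hσ1 hσ2 hRd hrec (m0 - (i : ℤ)) (D / 2 + i) (D / 2 + i)
        le_rfl p hp
      refine ⟨q, ?_, hq1⟩
      rw [← hi2]
      have hx : (xx ^ s : KK) ≠ 0 := pow_ne_zero _ xx_ne_zero
      have e : q = (xx ^ s)⁻¹ • (xx ^ s • q) := by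
        rw [smul_smul, inv_mul_cancel₀ hx, one_smul]
      rw [e]
      refine Submodule.smul_mem _ _ (Submodule.subset_span ?_)
      exact QM_mono (by push_cast; omega) (by omega) (by omega) hq2
    | zero => exact ⟨0, Submodule.zero_mem _, falg_zero _ _ _ _ _⟩
    | add p p' _ _ h h' =>
      obtain ⟨q, hq, hr⟩ := h
      obtain ⟨q', hq', hr'⟩ := h'
      exact ⟨q + q', Submodule.add_mem _ hq hq', falg_add _ _ _ _ _ hr hr'⟩
    | smul k p _ h =>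
      obtain ⟨q, hq, hr⟩ := h
      exact ⟨tau k • q, Submodule.smul_mem _ _ hq, falg_smul _ _ _ _ _ k hr⟩
  have he : ((Pi.single (⟨[], h0⟩ : S0) 1 : S0 → KK), (0 : S1 → KK)) ∈ J i := by
    refine Submodule.subset_span ?_
    refine ⟨Pi.single (⟨[], h0⟩ : S0) 1, 0, fun u => ?_, fun v => ?_, fun v n _ => ?_, ?_⟩
    · by_cases hu : u = ⟨[], h0⟩
      · rw [hu, Pi.single_eq_same]
        simp
      · rw [Pi.single_eq_of_ne hu]
        simp
    · simp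
    · rw [Finset.sum_eq_single (⟨[], h0⟩ : S0)]
      · rw [hCs]
        simp
      · intro u _ hu
        rw [Pi.single_eq_of_ne hu, map_zero, zero_mul]
      · intro h
        exact absurd (Finset.mem_univ _) h
    · ext u
      · show (Pi.single (⟨[], h0⟩ : S0) 1 : S0 → KK) u =
          algebraMap ℚ[X] KK ((Pi.single (⟨[], h0⟩ : S0) 1 : S0 → ℚ[X]) u)
        by_cases hu : u = ⟨[], h0⟩
        · rw [hu, Pi.single_eq_same, Pi.single_eq_same, map_one]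
        · rw [Pi.single_eq_of_ne hu, Pi.single_eq_of_ne hu, map_zero]
      · simp
  have hne : ∃ p ∈ J i, p.1 ⟨v0 ++ [L], hL⟩ ≠ 0 := by
    refine ⟨(fun u => algebraMap ℚ[X] KK (a u), fun v => algebraMap ℚ[X] KK (b v)), ?_, ?_⟩
    · refine Submodule.subset_span ?_
      have h0 : ((fun u => algebraMap ℚ[X] KK (a u), fun v => algebraMap ℚ[X] KK (b v)) :
          (S0 → KK) × (S1 → KK)) ∈ QM S0 S1 Cs m0 (D / 2) (D / 2) :=
        ⟨a, b, haN, hb1, hb2, rfl⟩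
      exact QM_mono (by omega) (by omega) (by omega) h0
    · intro h
      apply hne0
      exact (map_eq_zero_iff _ (IsFractionRing.injective ℚ[X] KK)).1 h
  have hfinal := lemZF tau xx noSol S0 S1 hS0 hS1 hp0 hp1 h0 h1
    (fun u v => (R u v).eval₂ (algebraMap ℚ KK) xx⁻¹) L (algebraMap ℚ KK d0)
    (by
      intro h
      exact hd0 ((map_eq_zero (algebraMap ℚ KK)).1 h))
    (by rw [eq_ratCast, map_ratCast])
    (by
      intro a ha
      show (R [a] []).eval₂ (algebraMap ℚ KK) xx⁻¹ = 0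
      rw [hRL a ha, eval₂_zero])
    (by
      intro c hc
      show (R [L] [c]).eval₂ (algebraMap ℚ KK) xx⁻¹ = algebraMap ℚ KK d0 * (-xx⁻¹) ^ (c + 1)
      rw [hR1 c hc, eval₂_mul, eval₂_C, eval₂_X_pow, map_mul, map_pow, map_neg, map_one,
        neg_pow xx⁻¹]
      ring)
    (by
      intro a c ha hc
      show (R [a] [c]).eval₂ (algebraMap ℚ KK) xx⁻¹ = 0
      rw [hR2 a c ha hc, eval₂_zero])
    (J i) hst he v0 hL hv0 hne
  have := hfin i hiN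
  omega

end Pool.MZFin
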