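import Pool.Agent.Lib.MZFin.FDefs
import Pool.Agent.Lib.MZExp.ZUnip

/-! MP_c511df_nt / MP_301213_nt, exponent 1/3, module `FCon` (220 lines): helper56's lemma (CON). A
subspace `A` stable under `G f = Tm x S *ᵥ (τ ∘ f)` is spanned by invariant vectors and stable under all
the operators `(d_a f) u = f (a :: u)`.

PROOF. `(G f) u = τ (f u) + ∑_(w = a :: u) (-1/x)^a τ (f w)` (`Tm_mulVec`). Fix a bijection
`e : Fin n ≃ S` such that `i ≤ j` implies `length (e i) ≤ length (e j)` (e.g. `Tuple.sort`), write
`u < w` for `e⁻¹ u < e⁻¹ w`; longer words are larger.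
ECHELON BASIS. `w` is a pivot if some `f ∈ A` has `f w ≠ 0` and `f u = 0` for all `u > w`. By strong
induction on the position of the pivot `w` there is `F w ∈ A` with `F w w = 1`, `F w u = 0` for `u > w` and
`F w w' = 0` for all pivots `w' < w`: scale `f` and subtract `∑_(w' < w pivot) f w' • F w'` (the `F w'`
vanish at the other pivots: at the smaller ones by construction, at the larger ones because
`F w' u = 0` for `u > w'`). Every `f ∈ A` is `∑_(w pivot) f w • F w`: the difference `g ∈ A` vanishes at
all pivots, and if `g ≠ 0` the largest word of its support is a pivot.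
INVARIANCE. Strong induction on the pivot `w`: suppose `F w'` is invariant (`τ (F w' u) = F w' u` for all
`u`) for the pivots `w' < w`. `G (F w) ∈ A` expands as `∑_(w' pivot) (G (F w)) w' • F w'`, where
`(G (F w)) w' = 0` for `w' > w`, `= 1` for `w' = w` and `= ∑_(v = a :: w') (-1/x)^a τ (F w v)` for `w' < w`
(as `F w w' = 0`; for `w' ≥ w` the words `a :: w'` are longer, hence `> w`). At `u`:
`F w u - τ (F w u) = ∑_(v = a :: u) (-1/x)^a τ (F w v) - ∑_(w' < w) ∑_(v = a :: w') (-1/x)^a τ (F w v) F w' u`.
Now induction on `u`, downwards: in the second sum only `w' ≥ u` count (`F w' u = 0` for `u > w'`), so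
all words `v = a :: u`, `v = a :: w'` which occur are longer than `u`, hence `> u`, and
`τ (F w v) = F w v` by induction. The right side is `∑_m κ_m (-1/x)^m` with the invariant coefficients
`κ_m = F w (m :: u) - ∑_(w' < w) F w (m :: w') F w' u` (values at words outside `S` are `0`), `κ_0 = 0`
(letters `≥ 1`). `hNo` gives `κ = 0`, so `τ (F w u) = F w u` and, for all `m` and `u`,
`F w (m :: u) = ∑_(w' < w) F w (m :: w') F w' u`, i.e. `d_m (F w) = ∑_(w' < w) F w (m :: w') • F w' ∈ A`.
`con_inv`: `p = ∑ p w' • F w'`, `p w ≠ 0`, so some `F w' w ≠ 0`. `con_der`: `dder S a` is linear. -/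

open Polynomial Pool.MZExp

namespace Pool.MZFin

private theorem fcon_rank (S : Finset (List ℕ)) : ∃ r : S → ℕ, Function.Injective r ∧
    ∀ u w : S, u.1.length < w.1.length → r u < r w := by
  refine ⟨fun w => w.1.length * (S.card + 1) + (S.equivFin w).val, ?_, ?_⟩
  · intro u w h
    have hu := (S.equivFin u).isLt
    have hw := (S.equivFin w).isLt
    simp only at h
    have h1 : u.1.length = w.1.length := by
      rcases lt_trichotomy u.1.length w.1.length with h2 | h2 | h2
      · have h3 : (u.1.length + 1) * (S.card + 1) ≤ w.1.length * (S.card + 1) :=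
          Nat.mul_le_mul_right _ h2
        nlinarith
      · exact h2
      · have h3 : (w.1.length + 1) * (S.card + 1) ≤ u.1.length * (S.card + 1) :=
          Nat.mul_le_mul_right _ h2
        nlinarith
    have h2 : (S.equivFin u).val = (S.equivFin w).val := by
      rw [h1] at h
      omega
    exact S.equivFin.injective (Fin.ext h2)
  · intro u w h
    have hu := (S.equivFin u).isLt
    have h3 : (u.1.length + 1) * (S.card + 1) ≤ w.1.length * (S.card + 1) :=
      Nat.mul_le_mul_right _ h
    simp only
    nlinarith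

private theorem fcon_step {K : Type*} [Field K] (S : Finset (List ℕ)) (r : S → ℕ)
    (hr : Function.Injective r) (A : Submodule K (S → K)) (n : ℕ) :
    ∀ w : S, r w = n → (∃ f ∈ A, f w ≠ 0 ∧ ∀ u, r w < r u → f u = 0) →
      ∃ F ∈ A, F w = 1 ∧ (∀ u, r w < r u → F u = 0) ∧
        ∀ w' : S, (∃ f ∈ A, f w' ≠ 0 ∧ ∀ u, r w' < r u → f u = 0) → r w' < r w → F w' = 0 := by
  classical
  induction n using Nat.strong_induction_on with
  | _ n ih =>
    intro w hw hp
    obtain ⟨f, hf, hfw, hfu⟩ := hp
    have ih' : ∀ w' : S, ∃ F ∈ A, (∀ u, r w' < r u → F u = 0) ∧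
        (∀ w'' : S, (∃ f ∈ A, f w'' ≠ 0 ∧ ∀ u, r w'' < r u → f u = 0) → r w'' < r w' →
          F w'' = 0) ∧
        ((r w' < r w ∧ ∃ f ∈ A, f w' ≠ 0 ∧ ∀ u, r w' < r u → f u = 0) ∧ F w' = 1 ∨
          ¬ (r w' < r w ∧ ∃ f ∈ A, f w' ≠ 0 ∧ ∀ u, r w' < r u → f u = 0) ∧ F = 0) := by
      intro w'
      by_cases h : r w' < r w ∧ ∃ f ∈ A, f w' ≠ 0 ∧ ∀ u, r w' < r u → f u = 0
      · obtain ⟨F, hF, h1, h2, h3⟩ := ih (r w') (hw ▸ h.1) w' rfl h.2
        exact ⟨F, hF, h2, h3, Or.inl ⟨h, h1⟩⟩
      · exact ⟨0, A.zero_mem, fun _ _ => rfl, fun _ _ _ => rfl, Or.inr ⟨h, rfl⟩⟩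
    choose G hGA hG2 hG3 hG4 using ih'
    refine ⟨(f w)⁻¹ • f - ∑ w', ((f w)⁻¹ * f w') • G w', ?_, ?_, ?_, ?_⟩
    · exact A.sub_mem (A.smul_mem _ hf) (A.sum_mem fun w' _ => A.smul_mem _ (hGA w'))
    · have h1 : ∑ w', ((f w)⁻¹ * f w') • G w' w = 0 := by
        refine Finset.sum_eq_zero fun w' _ => ?_
        rcases hG4 w' with h | h
        · rw [hG2 w' w h.1.1, smul_zero]
        · rw [h.2, Pi.zero_apply, smul_zero]
      simp only [Pi.sub_apply, Pi.smul_apply, Finset.sum_apply, smul_eq_mul] at h1 ⊢
      rw [h1, sub_zero, inv_mul_cancel₀ hfw]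
    · intro u hu
      have h1 : ∑ w', ((f w)⁻¹ * f w') • G w' u = 0 := by
        refine Finset.sum_eq_zero fun w' _ => ?_
        rcases hG4 w' with h | h
        · rw [hG2 w' u (h.1.1.trans hu), smul_zero]
        · rw [h.2, Pi.zero_apply, smul_zero]
      simp only [Pi.sub_apply, Pi.smul_apply, Finset.sum_apply, smul_eq_mul] at h1 ⊢
      rw [h1, sub_zero, hfu u hu, mul_zero]
    · intro w' hw' hlt
      have h1 : ∑ w'', ((f w)⁻¹ * f w'') • G w'' w' = (f w)⁻¹ * f w' := by
        rw [Finset.sum_eq_single w']
        · rcases hG4 w' with h | h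
          · rw [h.2, smul_eq_mul, mul_one]
          · exact absurd ⟨hlt, hw'⟩ h.1
        · intro w'' _ hne
          rcases lt_trichotomy (r w') (r w'') with h2 | h2 | h2
          · rw [hG3 w'' w' hw' h2, smul_zero]
          · exact absurd (hr h2).symm hne
          · rw [hG2 w'' w' h2, smul_zero]
        · intro h2
          exact absurd (Finset.mem_univ _) h2
      simp only [Pi.sub_apply, Pi.smul_apply, Finset.sum_apply, smul_eq_mul] at h1 ⊢
      rw [h1, sub_self]

private theorem fcon_basis {K : Type*} [Field K] (S : Finset (List ℕ)) (r : S → ℕ)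
    (hr : Function.Injective r) (A : Submodule K (S → K)) :
    ∃ F : S → (S → K), (∀ w, F w ∈ A) ∧ (∀ w u, r w < r u → F w u = 0) ∧
      (∀ w, F w = 0 ∨ (F w w = 1 ∧ ∀ w', w' ≠ w → F w' w = 0)) ∧
      (∀ f ∈ A, f = ∑ w, f w • F w) := by
  classical
  have ih' : ∀ w' : S, ∃ F ∈ A, (∀ u, r w' < r u → F u = 0) ∧
      (∀ w'' : S, (∃ f ∈ A, f w'' ≠ 0 ∧ ∀ u, r w'' < r u → f u = 0) → r w'' < r w' →
        F w'' = 0) ∧
      ((∃ f ∈ A, f w' ≠ 0 ∧ ∀ u, r w' < r u → f u = 0) ∧ F w' = 1 ∨
        ¬ (∃ f ∈ A, f w' ≠ 0 ∧ ∀ u, r w' < r u → f u = 0) ∧ F = 0) := by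
    intro w'
    by_cases h : ∃ f ∈ A, f w' ≠ 0 ∧ ∀ u, r w' < r u → f u = 0
    · obtain ⟨F, hF, h1, h2, h3⟩ := fcon_step S r hr A (r w') w' rfl h
      exact ⟨F, hF, h2, h3, Or.inl ⟨h, h1⟩⟩
    · exact ⟨0, A.zero_mem, fun _ _ => rfl, fun _ _ _ => rfl, Or.inr ⟨h, rfl⟩⟩
  choose F hFA hF2 hF3 hF4 using ih'
  have hcol : ∀ w, (∃ f ∈ A, f w ≠ 0 ∧ ∀ u, r w < r u → f u = 0) →
      ∀ w', w' ≠ w → F w' w = 0 := by
    intro w hw w' hne
    rcases lt_trichotomy (r w) (r w') with h2 | h2 | h2
    · exact hF3 w' w hw h2
    · exact absurd (hr h2).symm hne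
    · exact hF2 w' w h2
  refine ⟨F, hFA, hF2, ?_, ?_⟩
  · intro w
    rcases hF4 w with h | h
    · exact Or.inr ⟨h.2, hcol w h.1⟩
    · exact Or.inl h.2
  · intro f hf
    have hg : f - ∑ w, f w • F w ∈ A :=
      A.sub_mem hf (A.sum_mem fun w _ => A.smul_mem _ (hFA w))
    have hz : ∀ w, (∃ f ∈ A, f w ≠ 0 ∧ ∀ u, r w < r u → f u = 0) →
        (f - ∑ w, f w • F w) w = 0 := by
      intro w hw
      rw [Pi.sub_apply, Finset.sum_apply, Finset.sum_eq_single w]
      · rcases hF4 w with h | h
        · rw [Pi.smul_apply, h.2, smul_eq_mul, mul_one, sub_self]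
        · exact absurd hw h.1
      · intro w' _ hne
        rw [Pi.smul_apply, hcol w hw w' hne, smul_zero]
      · intro h
        exact absurd (Finset.mem_univ _) h
    have h0 : f - ∑ w, f w • F w = 0 := by
      by_contra hne
      set g := f - ∑ w, f w • F w with hgdef
      have hs : (Finset.univ.filter fun u => g u ≠ 0).Nonempty := by
        obtain ⟨u, hu⟩ := Function.ne_iff.1 hne
        exact ⟨u, Finset.mem_filter.2 ⟨Finset.mem_univ _, hu⟩⟩
      obtain ⟨w, hw, hmax⟩ := Finset.exists_max_image _ r hs
      have hw' := (Finset.mem_filter.1 hw).2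
      refine hw' (hz w ⟨g, hg, hw', fun u hu => ?_⟩)
      by_contra h3
      exact absurd (hmax u (Finset.mem_filter.2 ⟨Finset.mem_univ _, h3⟩)) (not_le.2 hu)
    exact sub_eq_zero.1 h0

private theorem fcon_dder {K : Type*} [Field K] (S : Finset (List ℕ)) (y : K) (f : S → K) (u : S) :
    ∑ v : S, (if v.1 = v.1.headI :: u.1 then y ^ v.1.headI else 0) * f v =
      ∑ m ∈ S.image List.headI, dder S m f u * y ^ m := by
  classical
  have h1 : ∀ m, dder S m f u = ∑ v : S, if v.1 = m :: u.1 then f v else 0 := by
    intro m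
    unfold dder
    by_cases h : m :: u.1 ∈ S
    · rw [dif_pos h, Finset.sum_eq_single (⟨m :: u.1, h⟩ : S)]
      · rw [if_pos rfl]
      · intro v _ hv
        exact if_neg fun h2 => hv (Subtype.ext h2)
      · intro h2
        exact absurd (Finset.mem_univ _) h2
    · rw [dif_neg h]
      refine (Finset.sum_eq_zero fun v _ => if_neg fun h2 => h ?_).symm
      rw [← h2]
      exact v.2
  simp only [h1, Finset.sum_mul]
  rw [Finset.sum_comm]
  refine Finset.sum_congr rfl fun v _ => ?_
  by_cases h : v.1 = v.1.headI :: u.1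
  · rw [if_pos h, Finset.sum_eq_single v.1.headI]
    · rw [if_pos h, mul_comm]
    · intro m _ hm
      rw [if_neg, zero_mul]
      intro h2
      rw [h] at h2
      exact hm (List.cons.inj h2).1.symm
    · intro h2
      exact absurd (Finset.mem_image_of_mem _ v.2) h2
  · rw [if_neg h, zero_mul]
    refine (Finset.sum_eq_zero fun m _ => ?_).symm
    rw [if_neg, zero_mul]
    intro h2
    apply h
    rw [h2]
    rfl

private theorem fcon_dder_zero {K : Type*} [Field K] (S : Finset (List ℕ))
    (hpos : ∀ l ∈ S, ∀ a ∈ l, 1 ≤ a) (f : S → K) (u : S) : dder S 0 f u = 0 := by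
  unfold dder
  refine dif_neg fun h => ?_
  exact absurd (hpos _ h 0 List.mem_cons_self) (by norm_num)

private theorem fcon_dder_out {K : Type*} [Field K] (S : Finset (List ℕ)) (m : ℕ)
    (hm : m ∉ S.image List.headI) (f : S → K) (u : S) : dder S m f u = 0 := by
  unfold dder
  refine dif_neg fun h => hm ?_
  exact Finset.mem_image.2 ⟨_, h, rfl⟩

private theorem fcon_main {K : Type*} [Field K] (τ : K ≃+* K) (x : K) (hNo : NoSol τ x)
    (S : Finset (List ℕ)) (hpos : ∀ l ∈ S, ∀ a ∈ l, 1 ≤ a)
    (A : Submodule K (S → K)) (hst : ∀ f ∈ A, (Tm x S).mulVec (fun u => τ (f u)) ∈ A) :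
    ∃ F : S → (S → K), (∀ f ∈ A, f = ∑ w, f w • F w) ∧ (∀ w, F w ∈ A) ∧
      (∀ w u, τ (F w u) = F w u) ∧ (∀ w a, dder S a (F w) ∈ A) := by
  classical
  obtain ⟨r, hr, hlen⟩ := fcon_rank S
  obtain ⟨F, hFA, hF2, hF4, hsp⟩ := fcon_basis S r hr A
  have hcons : ∀ (m : ℕ) (u : S) (h : m :: u.1 ∈ S), r u < r ⟨m :: u.1, h⟩ := by
    intro m u h
    apply hlen
    simp
  -- values of the derivative
  have hdz : ∀ (m : ℕ) (w u : S), r w ≤ r u → dder S m (F w) u = 0 := by
    intro m w u hwu
    unfold dder
    by_cases h : m :: u.1 ∈ S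
    · rw [dif_pos h]
      exact hF2 _ _ (lt_of_le_of_lt hwu (hcons m u h))
    · exact dif_neg h
  have hmain : ∀ n : ℕ, ∀ w : S, r w = n → (∀ u, τ (F w u) = F w u) ∧
      ∀ (a : ℕ) (u : S), dder S a (F w) u = ∑ w', dder S a (F w) w' * F w' u := by
    intro n
    induction n using Nat.strong_induction_on with
    | _ n ih =>
      intro w hw
      rcases hF4 w with h0 | ⟨hw1, hwc⟩
      · rw [h0]
        have h1 : ∀ a, dder S a (0 : S → K) = 0 := by
          intro a
          funext u
          unfold dder
          by_cases h : a :: u.1 ∈ S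
          · rw [dif_pos h, Pi.zero_apply, Pi.zero_apply]
          · rw [dif_neg h, Pi.zero_apply]
        refine ⟨fun u => by rw [Pi.zero_apply, map_zero], fun a u => ?_⟩
        rw [h1]
        simp
      · -- the expansion of `G (F w)`
        have hexp : ∀ u, τ (F w u) +
            ∑ m ∈ S.image List.headI, dder S m (fun v => τ (F w v)) u * (-x⁻¹) ^ m =
            F w u + ∑ w', (∑ m ∈ S.image List.headI,
              dder S m (fun v => τ (F w v)) w' * (-x⁻¹) ^ m) * F w' u := by
          intro u
          have h1 := congrFun (hsp _ (hst (F w) (hFA w))) u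
          rw [Finset.sum_apply] at h1
          simp only [Pi.smul_apply, smul_eq_mul] at h1
          simp only [Tm_mulVec, fcon_dder] at h1
          rw [h1]
          simp only [add_mul, Finset.sum_add_distrib]
          congr 1
          rw [Finset.sum_eq_single w]
          · rw [hw1, map_one, one_mul]
          · intro w' _ hne
            rcases hF4 w' with h2 | h2
            · rw [h2, Pi.zero_apply, mul_zero]
            · rw [h2.2 w hne.symm, map_zero, zero_mul]
          · intro h2
            exact absurd (Finset.mem_univ _) h2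
        -- downward induction on `u`
        have hbd : ∃ N, ∀ u : S, r u ≤ N :=
          ⟨Finset.univ.sup r, fun u => Finset.le_sup (f := r) (Finset.mem_univ u)⟩
        obtain ⟨N, hN⟩ := hbd
        have hrec : ∀ k : ℕ, ∀ u : S, N - r u = k → τ (F w u) = F w u ∧
            ∀ a : ℕ, dder S a (F w) u = ∑ w', dder S a (F w) w' * F w' u := by
          intro k
          induction k using Nat.strong_induction_on with
          | _ k ihk =>
            intro u hu
            have hinv : ∀ u' : S, r u < r u' → τ (F w u') = F w u' := by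
              intro u' hlt
              have h1 := hN u'
              have h2 := hN u
              exact (ihk (N - r u') (by omega) u' rfl).1
            have hd : ∀ (m : ℕ) (u' : S), r u ≤ r u' →
                dder S m (fun v => τ (F w v)) u' = dder S m (F w) u' ∧
                τ (dder S m (F w) u') = dder S m (F w) u' := by
              intro m u' hle
              unfold dder
              by_cases h : m :: u'.1 ∈ S
              · rw [dif_pos h, dif_pos h]
                have h1 := hinv ⟨m :: u'.1, h⟩ (lt_of_le_of_lt hle (hcons m u' h))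
                exact ⟨h1, h1⟩
              · rw [dif_neg h, dif_neg h]
                exact ⟨rfl, map_zero τ⟩
            have hprod : ∀ (m : ℕ) (w' : S),
                dder S m (fun v => τ (F w v)) w' * F w' u = dder S m (F w) w' * F w' u ∧
                τ (dder S m (F w) w' * F w' u) = dder S m (F w) w' * F w' u := by
              intro m w'
              rcases lt_or_ge (r w') (r u) with h1 | h1
              · rw [hF2 w' u h1, mul_zero, mul_zero, map_zero]
                exact ⟨rfl, rfl⟩
              · rw [(hd m w' h1).1]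
                refine ⟨rfl, ?_⟩
                rcases lt_or_ge (r w') (r w) with h2 | h2
                · rw [map_mul, (hd m w' h1).2, (ih (r w') (hw ▸ h2) w' rfl).1 u]
                · rw [hdz m w w' h2, zero_mul, map_zero]
            let κf : ℕ → K := fun m => dder S m (F w) u - ∑ w', dder S m (F w) w' * F w' u
            have hsupp : ∀ m, κf m ≠ 0 → m ∈ S.image List.headI := by
              intro m hm
              by_contra hmem
              apply hm
              simp only [κf, fcon_dder_out S m hmem, zero_mul, Finset.sum_const_zero, sub_zero]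
            let κ : ℕ →₀ K := Finsupp.onFinset (S.image List.headI) κf hsupp
            have hκ : κ = 0 := by
              apply hNo κ (F w u)
              · intro m
                change τ (κf m) = κf m
                simp only [κf]
                rw [map_sub, map_sum, (hd m u le_rfl).2]
                congr 1
                exact Finset.sum_congr rfl fun w' _ => (hprod m w').2
              · change κf 0 = 0
                simp only [κf, fcon_dder_zero S hpos, zero_mul, Finset.sum_const_zero, sub_zero]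
              · rw [Finsupp.onFinset_sum _ (fun m => by rw [zero_mul])]
                have h1 := hexp u
                have h2 : ∑ m ∈ S.image List.headI, dder S m (fun v => τ (F w v)) u * (-x⁻¹) ^ m =
                    ∑ m ∈ S.image List.headI, dder S m (F w) u * (-x⁻¹) ^ m :=
                  Finset.sum_congr rfl fun m _ => by rw [(hd m u le_rfl).1]
                have h3 : ∑ w', (∑ m ∈ S.image List.headI,
                    dder S m (fun v => τ (F w v)) w' * (-x⁻¹) ^ m) * F w' u =
                    ∑ m ∈ S.image List.headI, (∑ w', dder S m (F w) w' * F w' u) *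
                      (-x⁻¹) ^ m := by
                  simp only [Finset.sum_mul]
                  rw [Finset.sum_comm]
                  refine Finset.sum_congr rfl fun m _ => Finset.sum_congr rfl fun w' _ => ?_
                  rw [mul_right_comm, (hprod m w').1]
                rw [h2, h3] at h1
                simp only [κf, sub_mul, Finset.sum_sub_distrib]
                linear_combination -h1
            have hκm : ∀ m, κf m = 0 := by
              intro m
              have h1 := DFunLike.congr_fun hκ m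
              exact h1
            refine ⟨?_, fun a => ?_⟩
            · have h1 := hexp u
              have h2 : ∑ m ∈ S.image List.headI, dder S m (fun v => τ (F w v)) u * (-x⁻¹) ^ m =
                  ∑ m ∈ S.image List.headI, dder S m (F w) u * (-x⁻¹) ^ m :=
                Finset.sum_congr rfl fun m _ => by rw [(hd m u le_rfl).1]
              have h3 : ∑ w', (∑ m ∈ S.image List.headI,
                  dder S m (fun v => τ (F w v)) w' * (-x⁻¹) ^ m) * F w' u =
                  ∑ m ∈ S.image List.headI, (∑ w', dder S m (F w) w' * F w' u) *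
                    (-x⁻¹) ^ m := by
                simp only [Finset.sum_mul]
                rw [Finset.sum_comm]
                refine Finset.sum_congr rfl fun m _ => Finset.sum_congr rfl fun w' _ => ?_
                rw [mul_right_comm, (hprod m w').1]
              have h4 : ∑ m ∈ S.image List.headI, dder S m (F w) u * (-x⁻¹) ^ m =
                  ∑ m ∈ S.image List.headI, (∑ w', dder S m (F w) w' * F w' u) *
                    (-x⁻¹) ^ m := by
                refine Finset.sum_congr rfl fun m _ => ?_
                rw [sub_eq_zero.1 (hκm m)]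
              rw [h2, h3, h4] at h1
              exact add_right_cancel h1
            · exact sub_eq_zero.1 (hκm a)
        exact ⟨fun u => (hrec _ u rfl).1, fun a u => (hrec _ u rfl).2 a⟩
  refine ⟨F, hsp, hFA, fun w => (hmain _ w rfl).1, fun w a => ?_⟩
  have h1 : dder S a (F w) = ∑ w', dder S a (F w) w' • F w' := by
    funext u
    rw [Finset.sum_apply]
    exact (hmain _ w rfl).2 a u
  rw [h1]
  exact A.sum_mem fun w' _ => A.smul_mem _ (hFA w')

theorem con_inv {K : Type*} [Field K] (τ : K ≃+* K) (x : K) (hNo : NoSol τ x)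
    (S : Finset (List ℕ)) (hS : ∀ a l, a :: l ∈ S → l ∈ S) (hpos : ∀ l ∈ S, ∀ a ∈ l, 1 ≤ a)
    (A : Submodule K (S → K)) (hst : ∀ f ∈ A, (Tm x S).mulVec (fun u => τ (f u)) ∈ A)
    (w : S) (hw : ∃ p ∈ A, p w ≠ 0) : ∃ f ∈ A, (∀ u, τ (f u) = f u) ∧ f w ≠ 0 := by
  obtain ⟨F, hsp, hFA, hinv, -⟩ := fcon_main τ x hNo S hpos A hst
  obtain ⟨p, hp, hpw⟩ := hw
  have h1 := congrFun (hsp p hp) w
  rw [Finset.sum_apply] at h1
  rw [h1] at hpw
  obtain ⟨w', -, hw'⟩ := Finset.exists_ne_zero_of_sum_ne_zero hpw
  refine ⟨F w', hFA w', hinv w', fun h => hw' ?_⟩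
  rw [Pi.smul_apply, h, smul_zero]

theorem con_der {K : Type*} [Field K] (τ : K ≃+* K) (x : K) (hNo : NoSol τ x)
    (S : Finset (List ℕ)) (hS : ∀ a l, a :: l ∈ S → l ∈ S) (hpos : ∀ l ∈ S, ∀ a ∈ l, 1 ≤ a)
    (A : Submodule K (S → K)) (hst : ∀ f ∈ A, (Tm x S).mulVec (fun u => τ (f u)) ∈ A)
    (a : ℕ) (f : S → K) (hf : f ∈ A) : dder S a f ∈ A := by
  obtain ⟨F, hsp, hFA, -, hder⟩ := fcon_main τ x hNo S hpos A hst
  have h1 : dder S a f = ∑ w, f w • dder S a (F w) := by
    funext u
    rw [Finset.sum_apply]
    unfold dder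
    by_cases h : a :: u.1 ∈ S
    · have h2 := congrFun (hsp f hf) ⟨a :: u.1, h⟩
      rw [Finset.sum_apply] at h2
      simp only [Pi.smul_apply, dif_pos h]
      exact h2
    · simp only [Pi.smul_apply, dif_neg h, smul_zero, Finset.sum_const_zero]
  rw [h1]
  exact A.sum_mem fun w _ => A.smul_mem _ (hder w a)

end Pool.MZFin
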