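import Mathlib

/-! MP_c511df_nt, exponent 1/3, module `FPig` (200 lines, ONLY MATHLIB): the box principle with exact
conditions. If the integer linear forms `b g` are linearly independent modulo the span of the forms
`a k`, there are two integer vectors in the same class of `F` whose difference is killed by all `a k`
but not by all `b g`.

PROOF. `Λa : (ι → ℚ) →ₗ (κ → ℚ)`, `Λa y k = ∑ q, y q * a k q`, in the same way `Λb`. Let
`ρ = finrank (range Λa)` (`≤ card κ`).
(1) `finrank (range (Λa.prod Λb)) = ρ + card γ`: the restriction of `Λb` to `ker Λa` is onto `γ → ℚ`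
(otherwise some functional `ζ ≠ 0` of `γ → ℚ` vanishes on its range, so `∑_g ζ g • b g` vanishes on
`ker Λa = ⋂_k ker (a k)`, hence is in the span of the `a k` (`mem_span_of_iInf_ker_le_ker`), which
contradicts `hind`); rank and nullity for `Λa` restricted to ... or: `ker (Λa.prod Λb)` is the kernel of
`Λb` on `ker Λa`, of dimension `(card ι - ρ) - card γ`.
(2) COLUMNS: `exists_linearIndependent'` for the family `q ↦ (Λa.prod Λb) (Pi.single q 1)`, which spans the
range: an injective `c : κ' → ι` with `(Λ (single (c j) 1))_j` linearly independent with the same span;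
`κ'` is finite and has `ρ + card γ` elements. An integer vector supported on `range c` which is killed
by all `a k` and all `b g` is `0`.
(3) In the same way (for the forms, elements of the dual, or the rows) choose `ρ` of the forms `a k`
with the same span as all the `a k`.
(4) PIGEONHOLE: the vectors `z` with `0 ≤ z q ≤ Y` on `range c` and `0` elsewhere: `(Y+1)^(ρ + card γ)`.
Class of `z`: `F z` and the integers `∑ q, z q * a k q` for the `ρ` chosen `k`, which lie in an interval
of length `≤ card ι * H * Y` (between `-∑ q, Y * (a k q)⁻` and `∑ q, Y * (a k q)⁺`; simpler: between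
`-(card ι * H * Y)` and `card ι * H * Y`, at most `2 * card ι * H * Y + 1` values). The number of classes
is at most `card Z * (2 * card ι * H * Y + 1)^ρ ≤ card Z * (2 * card ι * H + 1)^ρ * (Y+1)^ρ`, less than
`(Y+1)^(ρ + card γ)` by `h` (`ρ ≤ card κ`). So two different `z, z'` are in the same class
(`Fintype.exists_ne_map_eq_of_card_lt`). All `a k` kill `z - z'` (same span), and `z - z' ≠ 0` is supported
on `range c`, so some `b g` does not. -/

open Finset

namespace Pool.MZFin

private theorem FPig_sum_ext {ι κ R : Type*} [Fintype ι] [Fintype κ] [CommRing R] (c : κ → ι)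
    (hc : Function.Injective c) (f : κ → R) (g : ι → R) :
    ∑ q, Function.extend c f 0 q * g q = ∑ j, f j * g (c j) := by
  classical
  have h1 : ∑ j, f j * g (c j) = ∑ q ∈ univ.map ⟨c, hc⟩, Function.extend c f 0 q * g q := by
    rw [sum_map]
    apply sum_congr rfl
    intro j _
    show f j * g (c j) = Function.extend c f 0 (c j) * g (c j)
    rw [hc.extend_apply]
  rw [h1]
  symm
  apply sum_subset (subset_univ _)
  intro q _ hq
  have hq' : ¬ ∃ j, c j = q := by
    rintro ⟨j, hj⟩
    exact hq (mem_map.2 ⟨j, mem_univ _, hj⟩)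
  rw [Function.extend_apply' _ _ _ hq', Pi.zero_apply, zero_mul]

/-- selection of rows and columns -/
private theorem FPig_sel {ι κ γ : Type} [Fintype ι] [Fintype κ] [Fintype γ] (a : κ → ι → ℤ)
    (b : γ → ι → ℤ)
    (hind : ∀ (ξ : κ → ℚ) (ζ : γ → ℚ),
      (∀ q, ∑ k, ξ k * (a k q : ℚ) + ∑ g, ζ g * (b g q : ℚ) = 0) → ζ = 0) :
    ∃ (κ1 κ2 : Type) (_ : Fintype κ1) (_ : Fintype κ2) (r : κ1 → κ) (c : κ2 → ι),
      Function.Injective r ∧ Function.Injective c ∧
      Fintype.card κ1 + Fintype.card γ ≤ Fintype.card κ2 ∧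
      (∀ d : ι → ℚ, (∀ j, ∑ q, d q * (a (r j) q : ℚ) = 0) → ∀ k, ∑ q, d q * (a k q : ℚ) = 0) ∧
      ∀ x : κ2 → ℚ, (∀ k, ∑ j, x j * (a k (c j) : ℚ) = 0) →
        (∀ g, ∑ j, x j * (b g (c j) : ℚ) = 0) → x = 0 := by
  classical
  set A : κ → (ι → ℚ) := fun k q => (a k q : ℚ) with hA
  set B : γ → (ι → ℚ) := fun g q => (b g q : ℚ) with hB
  obtain ⟨κ1, r, hr, hrs, hri⟩ := exists_linearIndependent' ℚ A
  have hf1 : Finite κ1 := hri.finite
  have ft1 : Fintype κ1 := Fintype.ofFinite κ1
  set M : Matrix (κ ⊕ γ) ι ℚ := Matrix.of (Sum.elim A B) with hM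
  obtain ⟨κ2, c, hc, hcs, hci⟩ := exists_linearIndependent' ℚ M.col
  have hf2 : Finite κ2 := hci.finite
  have ft2 : Fintype κ2 := Fintype.ofFinite κ2
  refine ⟨κ1, κ2, ft1, ft2, r, c, hr, hc, ?_, ?_, ?_⟩
  · have e1 : M.rank = Fintype.card κ2 := by
      rw [Matrix.rank_eq_finrank_span_cols, ← hcs, finrank_span_eq_card hci]
    have hli : LinearIndependent ℚ (Sum.elim (A ∘ r) B) := by
      rw [Fintype.linearIndependent_iff]
      intro g hg
      have hg' : ∀ q, ∑ j, g (Sum.inl j) * A (r j) q + ∑ i, g (Sum.inr i) * B i q = 0 := by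
        intro q
        have h1 := congrFun hg q
        rw [Fintype.sum_sum_type] at h1
        simpa [Finset.sum_apply, Pi.smul_apply, smul_eq_mul] using h1
      have h2 : (fun i => g (Sum.inr i)) = (0 : γ → ℚ) := by
        apply hind (Function.extend r (fun j => g (Sum.inl j)) 0)
        intro q
        rw [FPig_sum_ext r hr (fun j => g (Sum.inl j)) (fun k => (a k q : ℚ))]
        exact hg' q
      have h3 : ∑ j, g (Sum.inl j) • (A ∘ r) j = 0 := by
        ext q
        have h4 := hg' q
        have h5 : ∑ i, g (Sum.inr i) * B i q = 0 := by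
          apply Finset.sum_eq_zero
          intro i _
          have := congrFun h2 i
          simp only [Pi.zero_apply] at this
          rw [this, zero_mul]
        rw [h5, add_zero] at h4
        simpa [Finset.sum_apply, Pi.smul_apply, smul_eq_mul] using h4
      have h6 := Fintype.linearIndependent_iff.1 hri (fun j => g (Sum.inl j)) h3
      rintro (j | i)
      · exact h6 j
      · exact congrFun h2 i
    have e2 : Fintype.card (κ1 ⊕ γ) ≤ M.rank := by
      rw [Matrix.rank_eq_finrank_span_row, ← finrank_span_eq_card hli]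
      apply Submodule.finrank_mono
      apply Submodule.span_mono
      rintro _ ⟨x, rfl⟩
      rcases x with j | i
      · exact ⟨Sum.inl (r j), rfl⟩
      · exact ⟨Sum.inr i, rfl⟩
    rw [Fintype.card_sum] at e2
    omega
  · intro d hd k
    have hk : A k ∈ Submodule.span ℚ (Set.range (A ∘ r)) := by
      rw [hrs]
      exact Submodule.subset_span ⟨k, rfl⟩
    have key : ∀ v ∈ Submodule.span ℚ (Set.range (A ∘ r)), ∑ q, d q * v q = 0 := by
      intro v hv
      induction hv using Submodule.span_induction with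
      | mem x hx =>
        obtain ⟨j, rfl⟩ := hx
        exact hd j
      | zero => simp
      | add x y _ _ hx hy =>
        simp only [Pi.add_apply, mul_add, Finset.sum_add_distrib, hx, hy, add_zero]
      | smul t x _ hx =>
        have : ∀ q, d q * (t • x) q = t * (d q * x q) := by
          intro q
          rw [Pi.smul_apply, smul_eq_mul]
          ring
        simp only [this, ← Finset.mul_sum, hx, mul_zero]
    exact key _ hk
  · intro x h1 h2
    have h3 : ∑ j, x j • (M.col ∘ c) j = 0 := by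
      ext i
      rcases i with k | g
      · have := h1 k
        simpa [Finset.sum_apply, Pi.smul_apply, smul_eq_mul, hM, Matrix.col_apply] using this
      · have := h2 g
        simpa [Finset.sum_apply, Pi.smul_apply, smul_eq_mul, hM, Matrix.col_apply] using this
    exact funext (Fintype.linearIndependent_iff.1 hci x h3)

theorem pig {ι κ γ Z : Type} [Fintype ι] [Fintype κ] [Fintype γ] [Fintype Z] (a : κ → ι → ℤ)
    (b : γ → ι → ℤ) (H : ℕ) (ha : ∀ k q, |a k q| ≤ (H : ℤ))
    (hind : ∀ (ξ : κ → ℚ) (ζ : γ → ℚ),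
      (∀ q, ∑ k, ξ k * (a k q : ℚ) + ∑ g, ζ g * (b g q : ℚ) = 0) → ζ = 0)
    (hγ : Nonempty γ) (F : (ι → ℕ) → Z) (Y : ℕ)
    (h : Fintype.card Z * (2 * Fintype.card ι * H + 1) ^ Fintype.card κ <
      (Y + 1) ^ Fintype.card γ) :
    ∃ z z' : ι → ℕ, (∀ q, z q ≤ Y) ∧ (∀ q, z' q ≤ Y) ∧ F z = F z' ∧
      (∀ k, ∑ q, ((z q : ℤ) - z' q) * a k q = 0) ∧
      ∃ g, ∑ q, ((z q : ℤ) - z' q) * b g q ≠ 0 := by
  classical
  obtain ⟨κ1, κ2, ft1, ft2, r, c, hr, hc, hcard, hA, hli⟩ := FPig_sel a b hind
  have hκ : Fintype.card κ1 ≤ Fintype.card κ := Fintype.card_le_of_injective r hr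
  set n := Fintype.card ι with hn
  -- the vectors
  let zv : (κ2 → Fin (Y + 1)) → ι → ℕ := fun u => Function.extend c (fun j => (u j : ℕ)) 0
  have hzle : ∀ u q, zv u q ≤ Y := by
    intro u q
    show Function.extend c (fun j => (u j : ℕ)) 0 q ≤ Y
    by_cases hq : ∃ j, c j = q
    · obtain ⟨j, rfl⟩ := hq
      rw [hc.extend_apply]
      have := (u j).2
      omega
    · rw [Function.extend_apply' _ _ _ hq]
      exact Nat.zero_le _
  have hzc : ∀ u (j : κ2), zv u (c j) = (u j : ℕ) := fun u j => hc.extend_apply _ _ j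
  have hz0 : ∀ u q, (¬ ∃ j, c j = q) → zv u q = 0 := by
    intro u q hq
    show Function.extend c (fun j => (u j : ℕ)) 0 q = 0
    rw [Function.extend_apply' _ _ _ hq]
    rfl
  have hbd : ∀ u (j : κ1), |∑ q, (zv u q : ℤ) * a (r j) q| ≤ (n * H * Y : ℕ) := by
    intro u j
    calc |∑ q, (zv u q : ℤ) * a (r j) q| ≤ ∑ q, |(zv u q : ℤ) * a (r j) q| :=
          Finset.abs_sum_le_sum_abs _ _
      _ ≤ ∑ _q : ι, ((Y : ℤ) * H) := by
          apply Finset.sum_le_sum
          intro q _
          rw [abs_mul]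
          have h1 : |(zv u q : ℤ)| ≤ Y := by
            rw [abs_of_nonneg (by positivity)]
            exact_mod_cast hzle u q
          exact mul_le_mul h1 (ha _ _) (abs_nonneg _) (by positivity)
      _ = (n * H * Y : ℕ) := by
          rw [Finset.sum_const, Finset.card_univ, nsmul_eq_mul]
          push_cast
          ring
  let G : (κ2 → Fin (Y + 1)) → Z × (κ1 → Fin (2 * (n * H * Y) + 1)) := fun u =>
    (F (zv u), fun j => ⟨(∑ q, (zv u q : ℤ) * a (r j) q + (n * H * Y : ℕ)).toNat, by
      have h1 := abs_le.1 (hbd u j)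
      omega⟩)
  have hG : Fintype.card (Z × (κ1 → Fin (2 * (n * H * Y) + 1))) <
      Fintype.card (κ2 → Fin (Y + 1)) := by
    rw [Fintype.card_prod, Fintype.card_fun, Fintype.card_fun, Fintype.card_fin, Fintype.card_fin]
    have h1 : 2 * (n * H * Y) + 1 ≤ (2 * n * H + 1) * (Y + 1) := by
      nlinarith [Nat.zero_le (n * H), Nat.zero_le Y]
    calc Fintype.card Z * (2 * (n * H * Y) + 1) ^ Fintype.card κ1
        ≤ Fintype.card Z * ((2 * n * H + 1) * (Y + 1)) ^ Fintype.card κ1 :=
          Nat.mul_le_mul_left _ (Nat.pow_le_pow_left h1 _)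
      _ = Fintype.card Z * (2 * n * H + 1) ^ Fintype.card κ1 * (Y + 1) ^ Fintype.card κ1 := by
          rw [mul_pow]; ring
      _ ≤ Fintype.card Z * (2 * n * H + 1) ^ Fintype.card κ * (Y + 1) ^ Fintype.card κ1 :=
          Nat.mul_le_mul_right _ (Nat.mul_le_mul_left _ (Nat.pow_le_pow_right (by omega) hκ))
      _ < (Y + 1) ^ Fintype.card γ * (Y + 1) ^ Fintype.card κ1 :=
          Nat.mul_lt_mul_of_pos_right h (by positivity)
      _ = (Y + 1) ^ (Fintype.card κ1 + Fintype.card γ) := by rw [pow_add]; ring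
      _ ≤ (Y + 1) ^ Fintype.card κ2 := Nat.pow_le_pow_right (by omega) hcard
  obtain ⟨u, u', hne, hGG⟩ := Fintype.exists_ne_map_eq_of_card_lt G hG
  have hF : F (zv u) = F (zv u') := congrArg Prod.fst hGG
  have hr0 : ∀ j : κ1, ∑ q, (zv u q : ℤ) * a (r j) q = ∑ q, (zv u' q : ℤ) * a (r j) q := by
    intro j
    have h1 := congrArg Fin.val (congrFun (congrArg Prod.snd hGG) j)
    have h2 : (∑ q, (zv u q : ℤ) * a (r j) q + (n * H * Y : ℕ)).toNat =
        (∑ q, (zv u' q : ℤ) * a (r j) q + (n * H * Y : ℕ)).toNat := h1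
    have h3 := abs_le.1 (hbd u j)
    have h4 := abs_le.1 (hbd u' j)
    omega
  have hall : ∀ k, ∑ q, ((zv u q : ℤ) - zv u' q) * a k q = 0 := by
    intro k
    have h1 := hA (fun q => ((zv u q : ℤ) - zv u' q : ℤ)) (by
      intro j
      have h2 := hr0 j
      have h3 : ∑ q, ((zv u q : ℤ) - zv u' q) * a (r j) q = 0 := by
        simp only [sub_mul, Finset.sum_sub_distrib]
        rw [h2, sub_self]
      have h4 := congrArg (Int.cast : ℤ → ℚ) h3
      push_cast at h4 ⊢
      exact h4) k
    have h5 : ((∑ q, ((zv u q : ℤ) - zv u' q) * a k q : ℤ) : ℚ) = 0 := by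
      push_cast at h1 ⊢
      exact h1
    exact_mod_cast h5
  refine ⟨zv u, zv u', hzle u, hzle u', hF, hall, ?_⟩
  by_contra hcon
  push Not at hcon
  apply hne
  have hx : (fun j => ((u j : ℕ) : ℚ) - ((u' j : ℕ) : ℚ)) = (0 : κ2 → ℚ) := by
    have hsum : ∀ w : ι → ℤ, ∑ q, ((zv u q : ℤ) - zv u' q) * w q =
        ∑ j, (((u j : ℕ) : ℤ) - ((u' j : ℕ) : ℤ)) * w (c j) := by
      intro w
      rw [← FPig_sum_ext c hc (fun j => ((u j : ℕ) : ℤ) - ((u' j : ℕ) : ℤ)) w]
      apply Finset.sum_congr rfl
      intro q _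
      congr 1
      by_cases hq : ∃ j, c j = q
      · obtain ⟨j, rfl⟩ := hq
        rw [hc.extend_apply, hzc, hzc]
      · rw [Function.extend_apply' _ _ _ hq, hz0 u q hq, hz0 u' q hq]
        simp
    apply hli
    · intro k
      have h1 := hall k
      rw [hsum] at h1
      have h2 := congrArg (Int.cast : ℤ → ℚ) h1
      push_cast at h2 ⊢
      exact h2
    · intro g
      have h1 := hcon g
      rw [hsum] at h1
      have h2 := congrArg (Int.cast : ℤ → ℚ) h1
      push_cast at h2 ⊢
      exact h2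
  funext j
  have h1 := congrFun hx j
  simp only [Pi.zero_apply] at h1
  have h2 : ((u j : ℕ) : ℚ) = ((u' j : ℕ) : ℚ) := by linarith
  exact Fin.ext (by exact_mod_cast h2)

end Pool.MZFin
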