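import Pool.Agent.Lib.MZFin.PRel

/-! MP_c511df_nt, exponent 1/3, module `FSat` (130 lines): integer relations hold for all primes of `P`
above one bound, and integer coordinates of the quotient by the relations.

PROOF. `rel_int`: the integer vectors `n` with `(n l : ℚ)_l ∈ Rel P W` form a `ℤ`-submodule `M` of `W → ℤ`,
which is finitely generated (`IsNoetherian ℤ (W → ℤ)`, `IsNoetherian.noetherian M` gives a finite set of
generators, `Submodule.fg_def`). Every generator `g` has a bound `P0 g` (`mem_Rel`, `rc_intCast`); let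
`P0` be the maximum (sum). `Submodule.span_induction`: the equation mod `p` is additive and is
preserved by integer multiples.
`coords`: `V = (W → ℚ) ⧸ Rel P W`, `e ∈ V` the class of the unit vector of `[]`, `e ≠ 0` (the unit vector is
not in `Rel P W`: proof of `dimF_pos` in `PNum.lean`, first step; here it is the hypothesis `hne`).
`V' = V ⧸ span {e}`, of dimension `dimF P W - 1`; `φ i`, `i : Fin (dimF P W - 1)`, the coordinates of a
basis of `V'` (`Module.finBasis`), pulled back to `W → ℚ`; `φ0` a linear functional of `V` with `φ0 e ≠ 0`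
(`Module.exists_dual_forall_apply_eq_zero_iff`-type lemma, or `Module.Dual` separating:
`(Module.forall_dual_apply_eq_zero_iff ℚ e).not`), pulled back. `ψ i l = N * φ i (Pi.single l 1)`,
`ψ0 l = N * φ0 (Pi.single l 1)` with a common denominator `N ≠ 0` of all these numbers
(`IsLocalization.exist_integer_multiples_of_finite (nonZeroDivisors ℤ)`, as in `PRel.lean`). So
`∑ l, ψ i l * x l = N * φ i x`. (a) all vanish on `Rel P W`; (b) `ψ i [] = N φ i e = 0`, `ψ0 [] = N φ0 e ≠ 0`;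
(c) if `φ i x = 0` for all `i` then the class of `x` in `V'` is `0`, so the class of `x` in `V` is `c • e`;
with `∑ ψ0 l * x l = N c φ0 e` the vector `ψ0 [] • x - (∑ ψ0 l x l) • unit` has the class
`N φ0 e * c • e - N c φ0 e • e = 0`, so it is in `Rel P W`. -/

open Finset

namespace Pool.MZFin

theorem rel_int (P : Set ℕ) (W : Finset (List ℕ)) : ∃ P0 : ℕ, ∀ n : W → ℤ,
    (fun l => (n l : ℚ)) ∈ Rel P W → ∀ p ∈ P, p.Prime → P0 < p →
      ∑ l : W, (n l : ZMod p) * fz p l = 0 := by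
  classical
  let M : Submodule ℤ (W → ℤ) :=
    { carrier := {n | (fun l => (n l : ℚ)) ∈ Rel P W}
      add_mem' := by
        intro a b ha hb
        have h := (Rel P W).add_mem ha hb
        have e : (fun l : W => (((a + b) l : ℤ) : ℚ)) =
            (fun l : W => (a l : ℚ)) + fun l : W => (b l : ℚ) := by
          funext l
          simp
        show (fun l : W => (((a + b) l : ℤ) : ℚ)) ∈ Rel P W
        rw [e]
        exact h
      zero_mem' := by
        have e : (fun l : W => (((0 : W → ℤ) l : ℤ) : ℚ)) = 0 := by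
          funext l
          simp
        show (fun l : W => (((0 : W → ℤ) l : ℤ) : ℚ)) ∈ Rel P W
        rw [e]
        exact (Rel P W).zero_mem
      smul_mem' := by
        intro c a ha
        have h := (Rel P W).smul_mem (c : ℚ) ha
        have e : (fun l : W => (((c • a) l : ℤ) : ℚ)) = (c : ℚ) • fun l : W => (a l : ℚ) := by
          funext l
          simp
        show (fun l : W => (((c • a) l : ℤ) : ℚ)) ∈ Rel P W
        rw [e]
        exact h }
  obtain ⟨S, hS⟩ := (IsNoetherian.noetherian M : M.FG)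
  have hmem : ∀ g : S, ∃ P0 : ℕ, ∀ p ∈ P, p.Prime → P0 < p →
      ∑ l : W, (((g : W → ℤ) l : ℤ) : ZMod p) * fz p l = 0 := by
    intro g
    have hg : (g : W → ℤ) ∈ M := by
      rw [← hS]
      exact Submodule.subset_span g.2
    obtain ⟨P0, h0⟩ := mem_Rel.1 (show (fun l => (((g : W → ℤ) l : ℤ) : ℚ)) ∈ Rel P W from hg)
    refine ⟨P0, fun p hp hpp hlt => ?_⟩
    have h1 := h0 p hp hpp hlt
    rw [← h1]
    exact Finset.sum_congr rfl fun l _ => by rw [rc_intCast]
  choose P0 hP0 using hmem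
  refine ⟨∑ g, P0 g, fun n hn p hp hpp hlt => ?_⟩
  have hn' : n ∈ Submodule.span ℤ (S : Set (W → ℤ)) := by
    rw [hS]
    exact hn
  clear hn
  induction hn' using Submodule.span_induction with
  | mem x hx =>
    exact hP0 ⟨x, hx⟩ p hp hpp (lt_of_le_of_lt
      (Finset.single_le_sum (f := P0) (fun _ _ => Nat.zero_le _) (mem_univ _)) hlt)
  | zero => simp
  | add x y _ _ hx hy =>
    simp only [Pi.add_apply, Int.cast_add, add_mul, Finset.sum_add_distrib]
    rw [hx, hy, add_zero]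
  | smul a x _ hx =>
    simp only [Pi.smul_apply, smul_eq_mul, Int.cast_mul, mul_assoc, ← Finset.mul_sum]
    rw [hx, mul_zero]

private theorem fsat_lin {W : Finset (List ℕ)} (g : (W → ℚ) →ₗ[ℚ] ℚ) (x : W → ℚ) :
    ∑ l : W, g (Pi.single l 1) * x l = g x := by
  classical
  have h : x = ∑ l : W, x l • (Pi.single l (1 : ℚ) : W → ℚ) := by
    funext j
    rw [Finset.sum_apply, Finset.sum_eq_single j]
    · simp
    · intro b _ hb
      rw [Pi.smul_apply, Pi.single_eq_of_ne hb.symm, smul_zero]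
    · intro h
      exact absurd (mem_univ _) h
  conv_rhs => rw [h]
  rw [map_sum]
  refine Finset.sum_congr rfl fun l _ => ?_
  rw [map_smul, smul_eq_mul, mul_comm]

theorem coords (P : Set ℕ) (W : Finset (List ℕ)) (hW : [] ∈ W)
    (hne : (Pi.single (⟨[], hW⟩ : W) 1 : W → ℚ) ∉ Rel P W) :
    ∃ (ψ0 : W → ℤ) (ψ : Fin (dimF P W - 1) → W → ℤ), ψ0 ⟨[], hW⟩ ≠ 0 ∧
      (∀ i, ψ i ⟨[], hW⟩ = 0) ∧
      (∀ x ∈ Rel P W, ∑ l : W, (ψ0 l : ℚ) * x l = 0 ∧ ∀ i, ∑ l : W, (ψ i l : ℚ) * x l = 0) ∧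
      ∀ n : W → ℤ, (∀ i, ∑ l : W, ψ i l * n l = 0) →
        (fun l => ((ψ0 ⟨[], hW⟩ * n l -
          (∑ l', ψ0 l' * n l') * (Pi.single (⟨[], hW⟩ : W) 1 : W → ℤ) l : ℤ) : ℚ)) ∈ Rel P W := by
  classical
  obtain ⟨π, hπ⟩ : ∃ π : (W → ℚ) →ₗ[ℚ] ((W → ℚ) ⧸ Rel P W), π = (Rel P W).mkQ := ⟨_, rfl⟩
  have hπ0 : ∀ x, π x = 0 ↔ x ∈ Rel P W := by
    intro x
    rw [hπ, Submodule.mkQ_apply]
    exact Submodule.Quotient.mk_eq_zero _
  obtain ⟨e, hedef⟩ : ∃ e, e = π (Pi.single ⟨[], hW⟩ 1) := ⟨_, rfl⟩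
  have he : e ≠ 0 := fun h => hne ((hπ0 _).1 (hedef ▸ h))
  obtain ⟨L, hLdef⟩ : ∃ L : Submodule ℚ ((W → ℚ) ⧸ Rel P W), L = Submodule.span ℚ {e} := ⟨_, rfl⟩
  have hL : Module.finrank ℚ L = 1 := by
    rw [hLdef]
    exact finrank_span_singleton he
  have hV' : Module.finrank ℚ (((W → ℚ) ⧸ Rel P W) ⧸ L) = dimF P W - 1 := by
    have h := Submodule.finrank_quotient_add_finrank L
    unfold dimF
    omega
  have b := Module.finBasisOfFinrankEq ℚ (((W → ℚ) ⧸ Rel P W) ⧸ L) hV'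
  obtain ⟨f0, hf0⟩ : ∃ f : Module.Dual ℚ ((W → ℚ) ⧸ Rel P W), f e ≠ 0 := by
    by_contra h
    push Not at h
    exact he ((Module.forall_dual_apply_eq_zero_iff ℚ e).1 h)
  obtain ⟨φ, hφ⟩ : ∃ φ : Fin (dimF P W - 1) → (W → ℚ) →ₗ[ℚ] ℚ,
      ∀ i x, φ i x = b.coord i (L.mkQ (π x)) :=
    ⟨fun i => (b.coord i) ∘ₗ L.mkQ ∘ₗ π, fun i x => rfl⟩
  obtain ⟨φ0, hφ0⟩ : ∃ φ0 : (W → ℚ) →ₗ[ℚ] ℚ, ∀ x, φ0 x = f0 (π x) := ⟨f0 ∘ₗ π, fun x => rfl⟩
  let F : Option (Fin (dimF P W - 1)) × W → ℚ := fun x =>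
    Option.elim x.1 (φ0 (Pi.single x.2 1)) fun i => φ i (Pi.single x.2 1)
  obtain ⟨q, hq⟩ := IsLocalization.exist_integer_multiples_of_finite (nonZeroDivisors ℤ) F
  have hq0 : ((q : ℤ) : ℚ) ≠ 0 := by
    have := nonZeroDivisors.coe_ne_zero q
    exact_mod_cast this
  choose w hw using hq
  have hw' : ∀ a, ((w a : ℤ) : ℚ) = ((q : ℤ) : ℚ) * F a := by
    intro a
    have := hw a
    rw [zsmul_eq_mul] at this
    simpa using this
  have h0 : ∀ l, ((w (none, l) : ℤ) : ℚ) = ((q : ℤ) : ℚ) * φ0 (Pi.single l 1) := fun l => hw' _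
  have h1 : ∀ i l, ((w (some i, l) : ℤ) : ℚ) = ((q : ℤ) : ℚ) * φ i (Pi.single l 1) :=
    fun i l => hw' _
  have s0 : ∀ x : W → ℚ, ∑ l : W, ((w (none, l) : ℤ) : ℚ) * x l = ((q : ℤ) : ℚ) * φ0 x := by
    intro x
    rw [← fsat_lin φ0 x, Finset.mul_sum]
    exact Finset.sum_congr rfl fun l _ => by rw [h0, mul_assoc]
  have s1 : ∀ i, ∀ x : W → ℚ, ∑ l : W, ((w (some i, l) : ℤ) : ℚ) * x l =
      ((q : ℤ) : ℚ) * φ i x := by
    intro i x
    rw [← fsat_lin (φ i) x, Finset.mul_sum]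
    exact Finset.sum_congr rfl fun l _ => by rw [h1, mul_assoc]
  have hLe : L.mkQ e = 0 := by
    rw [Submodule.mkQ_apply, Submodule.Quotient.mk_eq_zero, hLdef]
    exact Submodule.mem_span_singleton_self e
  refine ⟨fun l => w (none, l), fun i l => w (some i, l), ?_, ?_, ?_, ?_⟩
  · intro h
    have h2 := h0 ⟨[], hW⟩
    have h' : w (none, ⟨[], hW⟩) = 0 := h
    rw [h', hφ0, ← hedef, Int.cast_zero] at h2
    exact (mul_ne_zero hq0 hf0) h2.symm
  · intro i
    have h2 := h1 i ⟨[], hW⟩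
    rw [hφ, ← hedef, hLe, map_zero, mul_zero] at h2
    exact_mod_cast h2
  · intro x hx
    have h2 : π x = 0 := (hπ0 x).2 hx
    refine ⟨?_, fun i => ?_⟩
    · rw [s0, hφ0, h2, map_zero, mul_zero]
    · rw [s1, hφ, h2, map_zero, map_zero, mul_zero]
  · intro n hn
    obtain ⟨x, hx⟩ : ∃ x : W → ℚ, ∀ l, x l = (n l : ℚ) := ⟨fun l => (n l : ℚ), fun l => rfl⟩
    have h2 : ∀ i, φ i x = 0 := by
      intro i
      have h3 := s1 i x
      have h4 : ∑ l : W, ((w (some i, l) : ℤ) : ℚ) * x l = 0 := by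
        have h5 := hn i
        have h6 : ((∑ l : W, w (some i, l) * n l : ℤ) : ℚ) = 0 := by
          rw [h5, Int.cast_zero]
        rw [Int.cast_sum] at h6
        rw [← h6]
        exact Finset.sum_congr rfl fun l _ => by rw [Int.cast_mul, hx]
      rw [h4] at h3
      rcases mul_eq_zero.1 h3.symm with h | h
      · exact absurd h hq0
      · exact h
    have h3 : L.mkQ (π x) = 0 := by
      apply b.ext_elem
      intro i
      have h4 := h2 i
      rw [hφ, Module.Basis.coord_apply] at h4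
      rw [h4]
      simp
    have h4 : π x ∈ Submodule.span ℚ {e} := by
      rw [Submodule.mkQ_apply, Submodule.Quotient.mk_eq_zero, hLdef] at h3
      exact h3
    obtain ⟨c, hc⟩ := Submodule.mem_span_singleton.1 h4
    have hS : ((∑ l' : W, w (none, l') * n l' : ℤ) : ℚ) = ((q : ℤ) : ℚ) * (c * f0 e) := by
      have h5 := s0 x
      rw [hφ0, ← hc, map_smul, smul_eq_mul] at h5
      rw [← h5, Int.cast_sum]
      exact Finset.sum_congr rfl fun l _ => by rw [Int.cast_mul, hx]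
    have h00 : ((w (none, ⟨[], hW⟩) : ℤ) : ℚ) = ((q : ℤ) : ℚ) * f0 e := by
      rw [h0, hφ0, ← hedef]
    have hgoal : (fun l : W => ((w (none, ⟨[], hW⟩) * n l -
          (∑ l' : W, w (none, l') * n l') * (Pi.single (⟨[], hW⟩ : W) 1 : W → ℤ) l : ℤ) : ℚ)) =
        (((q : ℤ) : ℚ) * f0 e) • x -
          (((q : ℤ) : ℚ) * (c * f0 e)) • (Pi.single (⟨[], hW⟩ : W) 1 : W → ℚ) := by
      funext l
      rw [Int.cast_sub, Int.cast_mul, Int.cast_mul, hS, h00, Pi.sub_apply, Pi.smul_apply,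
        Pi.smul_apply, smul_eq_mul, smul_eq_mul, hx]
      congr 2
      by_cases h : l = ⟨[], hW⟩
      · subst h
        simp
      · rw [Pi.single_eq_of_ne h, Pi.single_eq_of_ne h, Int.cast_zero]
    show (fun l : W => ((w (none, ⟨[], hW⟩) * n l -
          (∑ l' : W, w (none, l') * n l') * (Pi.single (⟨[], hW⟩ : W) 1 : W → ℤ) l : ℤ) : ℚ)) ∈
        Rel P W
    rw [hgoal, ← hπ0, map_sub, map_smul, map_smul, ← hedef, ← hc, smul_smul, ← sub_smul]
    have : ((q : ℤ) : ℚ) * f0 e * c - ((q : ℤ) : ℚ) * (c * f0 e) = 0 := by ring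
    rw [this, zero_smul]

end Pool.MZFin
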