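import Pool.Agent.Lib.MZFin.FInd
import Pool.Agent.Lib.MZFin.FPig
import Pool.Agent.Lib.MZFin.FSat

/-! MP_c511df_nt, exponent 1/3, module `FCore` (200 lines): the product of the primes of the box is
bounded (pigeonhole with exact conditions instead of Cramer's rule).

PROOF. `hne`: the unit vector of `[]` is not in `Rel P W` (`hP`; as in `dimF_pos` of `PNum.lean`). So
`dimF P W ≥ 1`; let `r' = dimF P W - 1`, `r' + 1 = dimF P W`. `ψ0, ψ` from `coords`; `ψ [c] = 0` for `c ≥ 1`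
because the unit vector of `[c] ∈ W` is in `Rel P W` (`single_mem_Rel`, module `PPow`). `P0` from `rel_int`.
`H0 : ℕ`, `H0 ≥ 1`, bounds all `|ψ0 l|`, `|ψ i l|`. `D0` from `ind_forms`, at least `1`.
`C' = 2 * S0.card * H0 * C + 1`.
Let `D ≥ D0`, `Y ≥ 1`, `Q` be given, `m = D + D/2 + 1`, `G = Fin (D/2) × T`, `ι = Fin D × S0`. For
`g = (j, v)`, `q = (i, u)` let `n g q : W → ℤ` be the integers of `h` (`HRed`) for the words `v ∈ S`,
`u ∈ S0` and the exponents `j + 1`, `i` (`1 ≤ j + 1`, `(j+1) + i + 1 ≤ m`):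
`∑_l |n g q l| ≤ C 2^((j+1) + 2 i) E m ≤ C 2^(3 D) E m`. `a (i', g) q = ∑_l ψ i' l * n g q l`,
`b g q = ∑_l ψ0 l * n g q l`: `|a|, |b| ≤ H0 C 2^(3D) E m =: H`. `hind` of `pig` is `ind_forms` (`e0 = E m`,
the third clause of `HRed` and `Lmom_apply`). `Z = (p : Q) → Fin p → ZMod p`,
`F z p M = ∑ q, z q * (C(M+1, q.1) * hs (wp p) q.2 M)` (as in `PBox`), `card Z = ∏ p^p`;
`card κ = r' * (D/2 * T.card)`, `card γ = D/2 * T.card`, `2 * card ι * H + 1 ≤ C' D 2^(3D) E m`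
(`D, E m ≥ 1`): `hbox` gives the hypothesis of `pig` (if `D/2 = 0` the left side of `hbox` is `≥ 1` and the
right side is `1`, contradiction; so `γ` is nonempty, `hTn`).
Let `y = z - z'`, `|y q| ≤ Y`, `N l = ∑ q, y q * n g q l` for the `g = (j, v)` with
`b g (y) ≠ 0`: `∑_l ψ i' l N l = 0` for all `i'` and `Δ := ∑_l ψ0 l N l = ∑ q, y q * b g q ≠ 0`. `coords`:
`d0 N - Δ unit ∈ Rel P W` (`d0 = ψ0 []`), so by `rel_int` for `p ∈ Q`: `d0 ∑_l N l fz p l = Δ` in `ZMod p`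
(`fz_nil`). And `∑_l N l fz p l = ∑ q, y q * E m * ∑_(M < p) C(M+1, j+1) C(M+1, i) h_v h_u
= E m * ∑_(M < p) C(M+1, j+1) h_v(M) * ∑ q, y q C(M+1, q.1) h_(q.2)(M) = 0` by `F z = F z'`. So every `p ∈ Q`
divides `Δ ≠ 0`: `∏ p ≤ |Δ| ≤ card ι * Y * H ≤ C' D Y 2^(3D) E m` (`Finset.prod_primes_dvd`, as
`pcore_prod` in `PCore.lean`). -/

open Finset

namespace Pool.MZFin

private theorem FCore_prod (Q : Finset ℕ) (hQ : ∀ p ∈ Q, p.Prime) (Δ : ℤ) (hΔ : Δ ≠ 0)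
    (h : ∀ p ∈ Q, (Δ : ZMod p) = 0) (K : ℕ) (hK : |Δ| ≤ (K : ℤ)) : ∏ p ∈ Q, p ≤ K := by
  have h1 : ∏ p ∈ Q, p ∣ Δ.natAbs := by
    refine Finset.prod_primes_dvd _ (fun p hp => (hQ p hp).prime) fun p hp => ?_
    have h2 := (ZMod.intCast_zmod_eq_zero_iff_dvd Δ p).1 (h p hp)
    exact Int.natCast_dvd.1 h2
  have h2 : ∏ p ∈ Q, p ≤ Δ.natAbs := Nat.le_of_dvd (Int.natAbs_pos.2 hΔ) h1
  have h3 : Δ.natAbs ≤ K := by
    rw [Int.abs_eq_natAbs] at hK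
    exact_mod_cast hK
  exact h2.trans h3

/-- the unit vector of the empty word is not a relation -/
private theorem FCore_ne (P : Set ℕ) (hP : ∀ n : ℕ, ∃ p ∈ P, p.Prime ∧ n < p)
    {W : Finset (List ℕ)} (hW : [] ∈ W) :
    (Pi.single (⟨[], hW⟩ : W) 1 : W → ℚ) ∉ Rel P W := by
  classical
  intro h
  obtain ⟨P0, h0⟩ := mem_Rel.1 h
  obtain ⟨p, hp1, hp2, hp3⟩ := hP P0
  have h1 := h0 p hp1 hp2 hp3
  rw [Finset.sum_eq_single (⟨[], hW⟩ : W)] at h1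
  · have : Fact p.Prime := ⟨hp2⟩
    rw [Pi.single_eq_same, fz_nil, mul_one, rc_eq, Rat.cast_one] at h1
    exact one_ne_zero h1
  · intro b _ hb
    rw [Pi.single_eq_of_ne hb]
    simp [rc]
  · intro h2
    exact absurd (mem_univ _) h2

private theorem FCore_pos (P : Set ℕ) (hP : ∀ n : ℕ, ∃ p ∈ P, p.Prime ∧ n < p)
    {W : Finset (List ℕ)} (hW : [] ∈ W) : 1 ≤ dimF P W := by
  have hne := FCore_ne P hP hW
  have hnt : Nontrivial ((W → ℚ) ⧸ Rel P W) := by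
    refine ⟨Submodule.Quotient.mk (Pi.single (⟨[], hW⟩ : W) 1), 0, fun h => hne ?_⟩
    exact (Submodule.Quotient.mk_eq_zero _).1 h
  exact Nat.one_le_iff_ne_zero.2 (Nat.pos_iff_ne_zero.1 (Module.finrank_pos (R := ℚ)
    (M := (W → ℚ) ⧸ Rel P W)))

/-- the forms modulo `p` -/
private theorem FCore_modp {ι : Type} [Fintype ι] (W : Finset (List ℕ)) (hW : [] ∈ W) (p : ℕ)
    (d0 Δ : ℤ) (N : W → ℤ)
    (h1 : ∑ l : W, ((d0 * N l - Δ * (Pi.single (⟨[], hW⟩ : W) 1 : W → ℤ) l : ℤ) : ZMod p) *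
      fz p l = 0)
    (y : ι → ℤ) (n : ι → W → ℤ) (hN : ∀ l, N l = ∑ q, y q * n q l) (e : ZMod p)
    (R : Finset ℕ) (c : ℕ → ZMod p) (f : ι → ℕ → ZMod p)
    (hn : ∀ q, e * ∑ M ∈ R, c M * f q M = ∑ l : W, (n q l : ZMod p) * fz p l)
    (hy : ∀ M ∈ R, ∑ q, (y q : ZMod p) * f q M = 0) : (Δ : ZMod p) = 0 := by
  classical
  have h2 : ∑ l : W, (N l : ZMod p) * fz p l = 0 := by
    have h3 : ∀ l : W, (N l : ZMod p) * fz p l = ∑ q, (y q : ZMod p) * ((n q l : ZMod p) *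
        fz p l) := by
      intro l
      rw [hN l, Int.cast_sum, Finset.sum_mul]
      refine Finset.sum_congr rfl fun q _ => ?_
      rw [Int.cast_mul, mul_assoc]
    rw [Finset.sum_congr rfl fun l _ => h3 l, Finset.sum_comm]
    have h4 : ∀ q : ι, ∑ l : W, (y q : ZMod p) * ((n q l : ZMod p) * fz p l) =
        ∑ M ∈ R, e * c M * ((y q : ZMod p) * f q M) := by
      intro q
      rw [← Finset.mul_sum, ← hn q, Finset.mul_sum, Finset.mul_sum]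
      refine Finset.sum_congr rfl fun M _ => ?_
      ring
    rw [Finset.sum_congr rfl fun q _ => h4 q, Finset.sum_comm]
    refine Finset.sum_eq_zero fun M hM => ?_
    rw [← Finset.mul_sum, hy M hM, mul_zero]
  have h5 : ∑ l : W, ((d0 * N l - Δ * (Pi.single (⟨[], hW⟩ : W) 1 : W → ℤ) l : ℤ) : ZMod p) *
      fz p l = (d0 : ZMod p) * ∑ l : W, (N l : ZMod p) * fz p l - (Δ : ZMod p) := by
    have h6 : ∑ l : W, (((Δ * (Pi.single (⟨[], hW⟩ : W) 1 : W → ℤ) l : ℤ)) : ZMod p) * fz p l =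
        (Δ : ZMod p) := by
      rw [Finset.sum_eq_single (⟨[], hW⟩ : W)]
      · rw [Pi.single_eq_same, mul_one, fz_nil, mul_one]
      · intro l _ hl
        rw [Pi.single_eq_of_ne hl, mul_zero, Int.cast_zero, zero_mul]
      · intro h
        exact absurd (Finset.mem_univ _) h
    rw [Finset.mul_sum, ← h6, ← Finset.sum_sub_distrib]
    refine Finset.sum_congr rfl fun l _ => ?_
    rw [Int.cast_sub, Int.cast_mul]
    ring
  rw [h5, h2, mul_zero, zero_sub, neg_eq_zero] at h1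
  exact h1

private theorem FCore_abs (W : Finset (List ℕ)) (f n : W → ℤ) (H0 B : ℕ)
    (hf : ∀ l, |f l| ≤ (H0 : ℤ)) (hn : ∑ l : W, |n l| ≤ (B : ℤ)) :
    |∑ l : W, f l * n l| ≤ ((H0 * B : ℕ) : ℤ) := by
  calc |∑ l : W, f l * n l| ≤ ∑ l : W, |f l * n l| := Finset.abs_sum_le_sum_abs _ _
    _ ≤ ∑ l : W, (H0 : ℤ) * |n l| := Finset.sum_le_sum fun l _ => by
        rw [abs_mul]
        exact mul_le_mul_of_nonneg_right (hf l) (abs_nonneg _)
    _ = (H0 : ℤ) * ∑ l : W, |n l| := by rw [Finset.mul_sum]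
    _ ≤ (H0 : ℤ) * (B : ℤ) := mul_le_mul_of_nonneg_left hn (Int.natCast_nonneg _)
    _ = ((H0 * B : ℕ) : ℤ) := by push_cast; ring


theorem coreF (S S0 W : Finset (List ℕ)) (hS : TC1 S) (hS0 : TC1 S0) (T : Finset (List ℕ))
    (hT : ∀ v ∈ T, IsTop S v) (hTn : T.Nonempty) (hW : [] ∈ W)
    (mom : (List ℕ → ℚ) → List ℕ → List ℕ → ℕ → ℚ)
    (hmom : ∀ φ : List ℕ → ℚ, (∀ c, 1 ≤ c → φ [c] = 0) → RecE (φ []) (mom φ))
    (E : ℕ → ℕ) (hE : ∀ m, 1 ≤ E m) (C : ℕ) (h : HRed S S0 W mom E C) (P : Set ℕ)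
    (hP : ∀ n : ℕ, ∃ p ∈ P, p.Prime ∧ n < p)
    (hcard : 2 * (dimF P W * S.card + 1) < S0.card) :
    ∃ C' D0 P0 : ℕ, 1 ≤ C' ∧ ∀ D : ℕ, D0 ≤ D → ∀ Y : ℕ, 1 ≤ Y → ∀ Q : Finset ℕ,
      (∀ p ∈ Q, p ∈ P ∧ p.Prime ∧ P0 < p ∧ D + D / 2 + 1 < p) →
      (∏ p ∈ Q, p ^ p) * (C' * D * 2 ^ (3 * D) * E (D + D / 2 + 1)) ^
        ((dimF P W - 1) * (T.card * (D / 2))) < (Y + 1) ^ (T.card * (D / 2)) →
      ∏ p ∈ Q, p ≤ C' * D * Y * 2 ^ (3 * D) * E (D + D / 2 + 1) := by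
  classical
  have hne := FCore_ne P hP hW
  have hpos := FCore_pos P hP hW
  obtain ⟨ψ0, ψ, hψ0, hψ, hψR, hψN⟩ := coords P W hW hne
  obtain ⟨P0, hP0⟩ := rel_int P W
  obtain ⟨H0, h0, hb0, hb1⟩ : ∃ H0 : ℕ, 1 ≤ H0 ∧ (∀ l, |ψ0 l| ≤ (H0 : ℤ)) ∧
      ∀ i l, |ψ i l| ≤ (H0 : ℤ) := by
    refine ⟨1 + ∑ l, (ψ0 l).natAbs + ∑ i, ∑ l, (ψ i l).natAbs, by omega, fun l => ?_,
      fun i l => ?_⟩
    · have h1 : (ψ0 l).natAbs ≤ ∑ l, (ψ0 l).natAbs :=
        Finset.single_le_sum (f := fun l => (ψ0 l).natAbs) (fun _ _ => Nat.zero_le _)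
          (Finset.mem_univ l)
      rw [Int.abs_eq_natAbs]
      have h3 : (ψ0 l).natAbs ≤ 1 + ∑ l, (ψ0 l).natAbs + ∑ i, ∑ l, (ψ i l).natAbs := by omega
      exact_mod_cast h3
    · have h1 : (ψ i l).natAbs ≤ ∑ l, (ψ i l).natAbs :=
        Finset.single_le_sum (f := fun l => (ψ i l).natAbs) (fun _ _ => Nat.zero_le _)
          (Finset.mem_univ l)
      have h2 : ∑ l, (ψ i l).natAbs ≤ ∑ i, ∑ l, (ψ i l).natAbs :=
        Finset.single_le_sum (f := fun i => ∑ l, (ψ i l).natAbs) (fun _ _ => Nat.zero_le _)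
          (Finset.mem_univ i)
      rw [Int.abs_eq_natAbs]
      have h3 : (ψ i l).natAbs ≤ 1 + ∑ l, (ψ0 l).natAbs + ∑ i, ∑ l, (ψ i l).natAbs := by omega
      exact_mod_cast h3
  have hcard' : 2 * ((dimF P W - 1 + 1) * S.card + 1) < S0.card := by
    rw [Nat.sub_add_cancel hpos]
    exact hcard
  obtain ⟨D0, hD0⟩ := ind_forms S S0 hS hS0 T hT (dimF P W - 1) hcard'
  refine ⟨2 * S0.card * H0 * C + 1, max D0 1, P0, by omega, ?_⟩
  intro D hD Y hY Q hQ hbox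
  have hD1 : 1 ≤ D := (le_max_right _ _).trans hD
  obtain ⟨m, hm⟩ : ∃ m, m = D + D / 2 + 1 := ⟨_, rfl⟩
  rw [← hm] at hbox ⊢
  rw [← hm] at hQ
  have hE1 := hE m
  have key := fun (g : Fin (D / 2) × T) (q : Fin D × S0) =>
    h g.2 (hT g.2 g.2.2).1 q.2 q.2.2 ((g.1 : ℕ) + 1) (q.1 : ℕ) m (by omega)
      (by have := g.1.2; have := q.1.2; omega)
  choose n hn1 hn2 hn3 using key
  have hB : ∀ g q, ∑ l : W, |n g q l| ≤ ((C * 2 ^ (3 * D) * E m : ℕ) : ℤ) := by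
    intro g q
    refine (hn1 g q).trans ?_
    have h3 : (2 : ℕ) ^ ((g.1 : ℕ) + 1 + 2 * (q.1 : ℕ)) ≤ 2 ^ (3 * D) :=
      Nat.pow_le_pow_right (by norm_num) (by have := g.1.2; have := q.1.2; omega)
    exact_mod_cast Nat.mul_le_mul_right _ (Nat.mul_le_mul_left _ h3)
  have hEm : (E m : ℚ) ≠ 0 := by
    have : E m ≠ 0 := by omega
    exact_mod_cast this
  obtain ⟨a, ha⟩ : ∃ a : Fin (dimF P W - 1) × (Fin (D / 2) × T) → Fin D × S0 → ℤ,
    a = fun k q => ∑ l : W, ψ k.1 l * n k.2 q l := ⟨_, rfl⟩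
  obtain ⟨b, hb⟩ : ∃ b : Fin (D / 2) × T → Fin D × S0 → ℤ,
    b = fun g q => ∑ l : W, ψ0 l * n g q l := ⟨_, rfl⟩
  have haH : ∀ k q, |a k q| ≤ ((H0 * (C * 2 ^ (3 * D) * E m) : ℕ) : ℤ) := by
    intro k q
    rw [ha]
    exact FCore_abs W _ _ _ _ (hb1 k.1) (hB k.2 q)
  have hbH : ∀ g q, |b g q| ≤ ((H0 * (C * 2 ^ (3 * D) * E m) : ℕ) : ℤ) := by
    intro g q
    rw [hb]
    exact FCore_abs W _ _ _ _ hb0 (hB g q)
  have hsing : ∀ (f : W → ℤ) (c : ℕ) (hc : [c] ∈ W),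
      ∑ l : W, (f l : ℚ) * (Pi.single (⟨[c], hc⟩ : W) 1 : W → ℚ) l = (f ⟨[c], hc⟩ : ℚ) := by
    intro f c hc
    rw [Finset.sum_eq_single (⟨[c], hc⟩ : W)]
    · rw [Pi.single_eq_same, mul_one]
    · intro l _ hl
      rw [Pi.single_eq_of_ne hl, mul_zero]
    · intro h2
      exact absurd (Finset.mem_univ _) h2
  have hind : ∀ (ξ : Fin (dimF P W - 1) × (Fin (D / 2) × T) → ℚ) (ζ : Fin (D / 2) × T → ℚ),
      (∀ q, ∑ k, ξ k * (a k q : ℚ) + ∑ g, ζ g * (b g q : ℚ) = 0) → ζ = 0 := by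
    rw [ha, hb]
    refine hD0 D ((le_max_left _ _).trans hD) W hW mom hmom ψ0 ψ hψ0 hψ ?_ n (E m) hEm ?_
    · intro c hc hc1
      obtain ⟨h1, h2⟩ := hψR _ (single_mem_Rel P W c hc1 hc)
      rw [hsing] at h1
      refine ⟨by exact_mod_cast h1, fun i => ?_⟩
      have h3 := h2 i
      rw [hsing] at h3
      exact_mod_cast h3
    · intro g q φ
      rw [← hn3 g q φ, Lmom_apply _ _ ((g.1 : ℕ) + 1 + (q.1 : ℕ) + 1)]
      refine lt_of_le_of_lt Polynomial.natDegree_mul_le ?_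
      rw [bq_natDegree, bq_natDegree]
      omega
  have hNZ : ∀ p : Q, NeZero p.1 := fun p => ⟨(hQ p.1 p.2).2.1.ne_zero⟩
  let F : (Fin D × S0 → ℕ) → ((p : Q) → Fin p.1 → ZMod p.1) := fun z p M =>
    ∑ q : Fin D × S0, (((z q : ℕ) : ZMod p.1)) *
      (((((M : ℕ) + 1).choose (q.1 : ℕ) : ℕ) : ZMod p.1) * hs (wp p.1) q.2 (M : ℕ))
  have hcT : Fintype.card ((p : Q) → Fin p.1 → ZMod p.1) = ∏ p ∈ Q, p ^ p := by
    rw [Fintype.card_pi, ← Finset.prod_coe_sort Q (fun p => p ^ p)]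
    refine Finset.prod_congr rfl fun p _ => ?_
    rw [Fintype.card_fun, ZMod.card, Fintype.card_fin]
  have hcι : Fintype.card (Fin D × S0) = D * S0.card := by
    rw [Fintype.card_prod, Fintype.card_fin, Fintype.card_coe]
  have hcγ : Fintype.card (Fin (D / 2) × T) = T.card * (D / 2) := by
    rw [Fintype.card_prod, Fintype.card_fin, Fintype.card_coe, mul_comm]
  have hcκ : Fintype.card (Fin (dimF P W - 1) × (Fin (D / 2) × T)) =
      (dimF P W - 1) * (T.card * (D / 2)) := by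
    rw [Fintype.card_prod, Fintype.card_fin, hcγ]
  have hprod1 : 1 ≤ ∏ p ∈ Q, p ^ p :=
    Nat.one_le_iff_ne_zero.2 (Finset.prod_ne_zero_iff.2 fun p hp =>
      pow_ne_zero _ (hQ p hp).2.1.ne_zero)
  have hγ : Nonempty (Fin (D / 2) × T) := by
    obtain ⟨t, ht⟩ := hTn
    rcases Nat.eq_zero_or_pos (D / 2) with h1 | h1
    · rw [h1, mul_zero, mul_zero, pow_zero, pow_zero, mul_one] at hbox
      omega
    · exact ⟨⟨⟨0, h1⟩, ⟨t, ht⟩⟩⟩
  have hX : 1 ≤ D * 2 ^ (3 * D) * E m := by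
    have h4 : 1 ≤ 2 ^ (3 * D) := Nat.one_le_pow _ _ (by norm_num)
    exact Nat.one_le_iff_ne_zero.2 (by positivity)
  have hle : 2 * (D * S0.card) * (H0 * (C * 2 ^ (3 * D) * E m)) + 1 ≤
      (2 * S0.card * H0 * C + 1) * D * 2 ^ (3 * D) * E m := by
    have h5 : (2 * S0.card * H0 * C + 1) * D * 2 ^ (3 * D) * E m =
      2 * (D * S0.card) * (H0 * (C * 2 ^ (3 * D) * E m)) + D * 2 ^ (3 * D) * E m := by ring
    rw [h5]
    omega
  have hpig : Fintype.card ((p : Q) → Fin p.1 → ZMod p.1) *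
      (2 * Fintype.card (Fin D × S0) * (H0 * (C * 2 ^ (3 * D) * E m)) + 1) ^
        Fintype.card (Fin (dimF P W - 1) × (Fin (D / 2) × T)) <
      (Y + 1) ^ Fintype.card (Fin (D / 2) × T) := by
    rw [hcT, hcι, hcκ, hcγ]
    refine lt_of_le_of_lt ?_ hbox
    exact Nat.mul_le_mul_left _ (Nat.pow_le_pow_left hle _)
  obtain ⟨z, z', hz, hz', hFz, hak, g, hg⟩ := pig a b (H0 * (C * 2 ^ (3 * D) * E m)) haH hind hγ F
    Y hpig
  obtain ⟨y, hy⟩ : ∃ y : Fin D × S0 → ℤ, y = fun q => (z q : ℤ) - z' q := ⟨_, rfl⟩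
  have hyq : ∀ q, y q = (z q : ℤ) - z' q := fun q => by rw [hy]
  have hyY : ∀ q, |y q| ≤ (Y : ℤ) := by
    intro q
    rw [hyq, abs_le]
    have h1 := hz q
    have h2 := hz' q
    constructor <;> omega
  obtain ⟨Δ, hΔ⟩ : ∃ Δ : ℤ, Δ = ∑ q, y q * b g q := ⟨_, rfl⟩
  have hΔ0 : Δ ≠ 0 := by
    rw [hΔ]
    have h1 : ∑ q, y q * b g q = ∑ q, ((z q : ℤ) - z' q) * b g q :=
      Finset.sum_congr rfl fun q _ => by rw [hyq]
    rw [h1]
    exact hg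
  obtain ⟨N, hN⟩ : ∃ N : W → ℤ, N = fun l => ∑ q, y q * n g q l := ⟨_, rfl⟩
  have hswap : ∀ f : W → ℤ, ∑ l : W, f l * N l = ∑ q, y q * ∑ l : W, f l * n g q l := by
    intro f
    have h1 : ∀ l : W, f l * N l = ∑ q, y q * (f l * n g q l) := by
      intro l
      rw [hN]
      rw [Finset.mul_sum]
      refine Finset.sum_congr rfl fun q _ => ?_
      ring
    rw [Finset.sum_congr rfl fun l _ => h1 l, Finset.sum_comm]
    refine Finset.sum_congr rfl fun q _ => ?_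
    rw [Finset.mul_sum]
  have hN0 : ∀ i, ∑ l : W, ψ i l * N l = 0 := by
    intro i
    rw [hswap]
    have h1 := hak (i, g)
    rw [ha] at h1
    rw [← h1]
    exact Finset.sum_congr rfl fun q _ => by rw [hyq]
  have hN1 : ∑ l' : W, ψ0 l' * N l' = Δ := by
    rw [hswap, hΔ, hb]
  have hrel := hψN N hN0
  rw [hN1] at hrel
  have hzero : ∀ p ∈ Q, (Δ : ZMod p) = 0 := by
    intro p hp
    obtain ⟨hpP, hpp, hp0, hpm⟩ := hQ p hp
    have h1 := hP0 _ hrel p hpP hpp hp0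
    refine FCore_modp W hW p (ψ0 ⟨[], hW⟩) Δ N h1 y (n g) (fun l => by rw [hN]) (E m : ZMod p)
      (range p) (fun M => (((M + 1).choose ((g.1 : ℕ) + 1) : ℕ) : ZMod p) * hs (wp p) g.2 M)
      (fun q M => (((M + 1).choose (q.1 : ℕ) : ℕ) : ZMod p) * hs (wp p) q.2 M) ?_ ?_
    · intro q
      rw [← hn2 g q p hpp hpm]
      congr 1
      refine Finset.sum_congr rfl fun M _ => ?_
      ring
    · intro M hM
      have h2 := congrFun (congrFun hFz ⟨p, hp⟩) ⟨M, Finset.mem_range.1 hM⟩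
      have h3 : ∑ q : Fin D × S0, (((z q : ℕ) : ZMod p)) *
          ((((M + 1).choose (q.1 : ℕ) : ℕ) : ZMod p) * hs (wp p) q.2 M) =
        ∑ q : Fin D × S0, (((z' q : ℕ) : ZMod p)) *
          ((((M + 1).choose (q.1 : ℕ) : ℕ) : ZMod p) * hs (wp p) q.2 M) := h2
      have h4 : ∀ q : Fin D × S0, ((y q : ℤ) : ZMod p) *
          ((((M + 1).choose (q.1 : ℕ) : ℕ) : ZMod p) * hs (wp p) q.2 M) =
          (((z q : ℕ) : ZMod p)) *
          ((((M + 1).choose (q.1 : ℕ) : ℕ) : ZMod p) * hs (wp p) q.2 M) -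
          (((z' q : ℕ) : ZMod p)) *
          ((((M + 1).choose (q.1 : ℕ) : ℕ) : ZMod p) * hs (wp p) q.2 M) := by
        intro q
        rw [hyq]
        push_cast
        ring
      rw [Finset.sum_congr rfl fun q _ => h4 q, Finset.sum_sub_distrib, h3, sub_self]
  have hK : |Δ| ≤ (((2 * S0.card * H0 * C + 1) * D * Y * 2 ^ (3 * D) * E m : ℕ) : ℤ) := by
    rw [hΔ]
    have h1 : |∑ q, y q * b g q| ≤
        ((D * S0.card * (Y * (H0 * (C * 2 ^ (3 * D) * E m))) : ℕ) : ℤ) := by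
      calc |∑ q, y q * b g q| ≤ ∑ q, |y q * b g q| := Finset.abs_sum_le_sum_abs _ _
        _ ≤ ∑ _q : Fin D × S0, ((Y : ℤ) * ((H0 * (C * 2 ^ (3 * D) * E m) : ℕ) : ℤ)) :=
            Finset.sum_le_sum fun q _ => by
              rw [abs_mul]
              exact mul_le_mul (hyY q) (hbH g q) (abs_nonneg _) (Int.natCast_nonneg _)
        _ = ((D * S0.card * (Y * (H0 * (C * 2 ^ (3 * D) * E m))) : ℕ) : ℤ) := by
            rw [Finset.sum_const, Finset.card_univ, hcι, nsmul_eq_mul]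
            push_cast
            ring
    refine h1.trans ?_
    have h2 : D * S0.card * (Y * (H0 * (C * 2 ^ (3 * D) * E m))) ≤
        (2 * S0.card * H0 * C + 1) * D * Y * 2 ^ (3 * D) * E m := by
      have h3 : (2 * S0.card * H0 * C + 1) * D * Y * 2 ^ (3 * D) * E m =
          D * S0.card * (Y * (H0 * (C * 2 ^ (3 * D) * E m))) +
          (D * S0.card * (Y * (H0 * (C * 2 ^ (3 * D) * E m))) + D * Y * 2 ^ (3 * D) * E m) := by
        ring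
      rw [h3]
      exact Nat.le_add_right _ _
    exact_mod_cast h2
  exact FCore_prod Q (fun p hp => (hQ p hp).2.1) Δ hΔ0 hzero _ hK

end Pool.MZFin
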