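import Pool.Agent.Lib.MZFin.Defs

/-! MP_c511df_nt, finite multiple zeta values, module `PBq` (110 lines): the binomial polynomials
`bq i = C(X, i)`.

PROOF. `bq_natDegree`: `descPochhammer_natDegree` (monic: `monic_descPochhammer`),
`natDegree_C_mul` with `1 / i! ≠ 0`. `bq_eval`: `descPochhammer_eval_eq_descFactorial`,
`Nat.descFactorial_eq_factorial_mul_choose`. `bq_lin`: suppose `∑_i c i • bq (i+1) = 0`, `c ≠ 0`; let `i`
be the largest index with `c i ≠ 0`: the coefficient of `X^(i+1)` of the sum is `c i / (i+1)! ≠ 0` (or: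
evaluate at `X = 1, 2, .., D`: triangular, strong induction on `i`: `(bq (i+1)).eval (k+1) = C(k+1, i+1)`
is `0` for `k < i` and `1` for `k = i`).
`bq_test`: a linear functional vanishing on `bq 0, .., bq E` vanishes on all polynomials of degree
`≤ E`: induction on the degree, as `test_all` in `MZExp/ZFwd.lean` (subtract a multiple of
`bq (natDegree p)`). -/

open Finset Polynomial

namespace Pool.MZFin

private lemma bq_fac (i : ℕ) : (1 / (i.factorial : ℚ)) ≠ 0 :=
  one_div_ne_zero (by exact_mod_cast Nat.factorial_ne_zero i)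

theorem bq_natDegree (i : ℕ) : (bq i).natDegree = i := by
  unfold bq
  rw [natDegree_C_mul (bq_fac i), descPochhammer_natDegree]

theorem bq_eval (i n : ℕ) : (bq i).eval (n : ℚ) = ((n.choose i : ℕ) : ℚ) := by
  unfold bq
  rw [eval_mul, eval_C, descPochhammer_eval_eq_descFactorial,
    Nat.descFactorial_eq_factorial_mul_choose]
  have h : (i.factorial : ℚ) ≠ 0 := by exact_mod_cast Nat.factorial_ne_zero i
  push_cast
  field_simp

private lemma bq_lc (i : ℕ) : (bq i).coeff i ≠ 0 := by
  have h1 : (bq i).leadingCoeff ≠ 0 := by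
    unfold bq
    rw [leadingCoeff_mul, leadingCoeff_C, (monic_descPochhammer ℚ i).leadingCoeff, mul_one]
    exact bq_fac i
  unfold leadingCoeff at h1
  rwa [bq_natDegree] at h1

theorem bq_lin (D : ℕ) (c : Fin D → ℚ) (h : ∑ i : Fin D, C (c i) * bq ((i : ℕ) + 1) = 0) :
    c = 0 := by
  have key : ∀ n : ℕ, ∀ k : Fin D, (k : ℕ) = n → c k = 0 := by
    intro n
    induction n using Nat.strong_induction_on with
    | _ n ih =>
      intro k hk
      have h1 := congrArg (eval (((k : ℕ) + 1 : ℕ) : ℚ)) h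
      rw [eval_finsetSum, eval_zero, Finset.sum_eq_single k] at h1
      · rw [eval_mul, eval_C, bq_eval, Nat.choose_self] at h1
        simpa using h1
      · intro i _ hik
        rw [eval_mul, eval_C, bq_eval]
        rcases Nat.lt_trichotomy (i : ℕ) (k : ℕ) with h2 | h2 | h2
        · rw [ih (i : ℕ) (by omega) i rfl, zero_mul]
        · exact absurd (Fin.ext h2) hik
        · rw [Nat.choose_eq_zero_of_lt (by omega)]
          simp
      · intro h2
        exact absurd (Finset.mem_univ k) h2
  funext k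
  exact key k k rfl

private lemma bq_all (L : ℚ[X] →ₗ[ℚ] ℚ) (E : ℕ) (h : ∀ i ≤ E, L (bq i) = 0) :
    ∀ (d : ℕ) (p : ℚ[X]), p.natDegree ≤ d → d ≤ E → L p = 0 := by
  intro d
  induction d with
  | zero =>
    intro p hp _
    have h0 := h 0 (Nat.zero_le _)
    have h1 : p = C (p.coeff 0) := eq_C_of_natDegree_le_zero hp
    have h2 : bq 0 = C ((bq 0).coeff 0) := eq_C_of_natDegree_le_zero (by rw [bq_natDegree])
    have h3 : p = (p.coeff 0 / (bq 0).coeff 0) • bq 0 := by
      rw [h2, h1, smul_C]
      simp only [coeff_C_zero]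
      rw [smul_eq_mul, div_mul_cancel₀ _ (bq_lc 0)]
    rw [h3, map_smul, h0, smul_zero]
  | succ d ih =>
    intro p hp hd
    set c := p.coeff (d + 1) / (bq (d + 1)).coeff (d + 1) with hc
    have h1 : (p - c • bq (d + 1)).natDegree ≤ d := by
      rw [natDegree_le_iff_coeff_eq_zero]
      intro n hn
      rcases Nat.lt_or_ge (d + 1) n with h2 | h2
      · rw [coeff_sub, coeff_smul, coeff_eq_zero_of_natDegree_lt (lt_of_le_of_lt hp h2),
          coeff_eq_zero_of_natDegree_lt (by rw [bq_natDegree]; exact h2)]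
        simp
      · have h3 : n = d + 1 := le_antisymm h2 hn
        subst h3
        rw [coeff_sub, coeff_smul, smul_eq_mul, hc, div_mul_cancel₀ _ (bq_lc (d + 1)), sub_self]
    have h2 := ih (p - c • bq (d + 1)) h1 (by omega)
    rw [map_sub, map_smul, h (d + 1) hd, smul_zero, sub_zero] at h2
    exact h2

theorem bq_test (L : ℚ[X] →ₗ[ℚ] ℚ) (E : ℕ) (h : ∀ j ≤ E, L (bq j) = 0) (p : ℚ[X])
    (hp : p.natDegree ≤ E) : L p = 0 :=
  bq_all L E h E p hp le_rfl

end Pool.MZFin
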