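import Pool.Agent.Lib.MZFin.Defs

/-! MP_c511df_nt, finite multiple zeta values, module `PForm` (170 lines): the integer vectors of the
forms `∑_(t ≤ p) f_y(t) C(t,j) h_v(t)`, `f_y = ∑_(i,u) y(i,u) C(t,i+1) h_u(t)`.

PROOF. `Lmom_apply`: `Polynomial.lsum`, `Polynomial.sum_over_range'` (or `sum_def`, coefficients
beyond the degree vanish).
`forms`: put `m = D + D/2 + 1`. For `i : Fin (D/2+1)`, `v ∈ B`, `q : Fin D × A` apply `h q.2 _ v _ (q.1+1) i m`
(`1 ≤ q.1 + 1 ≤ D`, `q.1 + 1 + i + 1 ≤ D + D/2 + 1`) and choose `n i v q : W → ℤ`. Let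
`b (i, v) l = ∑ q, y q * n i v q l`.
Height: `|b (i,v) l| ≤ ∑_q |y q| * |n i v q l| ≤ (D * A.card) * (Y * (C * 2^(q.1+1+2i) * E m))` and
`q.1 + 1 + 2 * i ≤ D + 2 * (D/2) ≤ 2 * D`, `2^(2D) = 4^D` (`|n l| ≤ ∑ |n|`, `single_le_sum`).
Evaluation: exchange the sums: `∑_l b l * fz p l = ∑_q y q * ∑_l n q l * fz p l = ∑_q y q * (E m * ∑_M
C(M+1,q.1+1) * C(M+1,i) * hs q.2 M * hs v M)`, which is the right side (`Finset.mul_sum`, `sum_comm`,
`ring`; `push_cast`).
Moments: in the same way, `∑_(k < q.1+1+i+1) (bq * bq).coeff k * mom .. k = Lmom (..) (bq (q.1+1) * bq i)` by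
`Lmom_apply`, the degree of the product is `≤ q.1 + 1 + i` (`natDegree (bq i) ≤ i`: `natDegree_C_mul_le`,
`descPochhammer_natDegree`). -/

open Finset Polynomial

namespace Pool.MZFin

/-- the linear functional on polynomials with moments `m` -/
noncomputable def Lmom (m : ℕ → ℚ) : ℚ[X] →ₗ[ℚ] ℚ :=
  Polynomial.lsum fun k => (m k) • (LinearMap.id : ℚ →ₗ[ℚ] ℚ)

theorem Lmom_apply (m : ℕ → ℚ) (q : ℚ[X]) (N : ℕ) (h : q.natDegree < N) :
    Lmom m q = ∑ k ∈ range N, q.coeff k * m k := by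
  unfold Lmom
  rw [Polynomial.lsum_apply, Polynomial.sum_over_range' _ _ N h]
  · refine sum_congr rfl fun k _ => ?_
    simp [mul_comm]
  · intro n
    simp

private lemma PForm_deg (i : ℕ) : (bq i).natDegree ≤ i := by
  unfold bq
  refine (natDegree_C_mul_le _ _).trans ?_
  rw [descPochhammer_natDegree]

theorem forms (A B W : Finset (List ℕ))
    (mom : (List ℕ → ℚ) → List ℕ → List ℕ → ℕ → ℚ) (E : ℕ → ℕ) (C : ℕ)
    (h : HRed A B W mom E C) (D : ℕ) (y : Fin D × A → ℤ) (Y : ℕ) (hy : ∀ q, |y q| ≤ (Y : ℤ)) :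
    ∃ b : Fin (D / 2 + 1) × B → W → ℤ,
      (∀ i l, |b i l| ≤ ((C * A.card * D * Y * 4 ^ D * E (D + D / 2 + 1) : ℕ) : ℤ)) ∧
      (∀ p : ℕ, p.Prime → D + D / 2 + 1 < p → ∀ i, ∑ l : W, (b i l : ZMod p) * fz p l =
        (E (D + D / 2 + 1) : ZMod p) * ∑ M ∈ range p,
          (((M + 1).choose (i.1 : ℕ) : ℕ) : ZMod p) * hs (wp p) i.2 M *
          ∑ q : Fin D × A, (y q : ZMod p) *
            ((((M + 1).choose ((q.1 : ℕ) + 1) : ℕ) : ZMod p) * hs (wp p) q.2 M)) ∧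
      ∀ (φ : List ℕ → ℚ) (i : Fin (D / 2 + 1) × B), ∑ l : W, (b i l : ℚ) * φ l =
        (E (D + D / 2 + 1) : ℚ) * ∑ q : Fin D × A,
          (y q : ℚ) * Lmom (mom φ q.2 i.2) (bq ((q.1 : ℕ) + 1) * bq (i.1 : ℕ)) := by
  classical
  have key := fun (i : Fin (D / 2 + 1) × B) (q : Fin D × A) =>
    h q.2 q.2.2 i.2 i.2.2 ((q.1 : ℕ) + 1) (i.1 : ℕ) (D + D / 2 + 1) (by omega)
      (by have := q.1.2; have := i.1.2; omega)
  choose n hn1 hn2 hn3 using key
  refine ⟨fun i l => ∑ q, y q * n i q l, ?_, ?_, ?_⟩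
  · intro i l
    have hb : ∀ q : Fin D × A,
        |y q * n i q l| ≤ ((Y * (C * 4 ^ D * E (D + D / 2 + 1)) : ℕ) : ℤ) := by
      intro q
      rw [abs_mul]
      have h1 : |n i q l| ≤ ((C * 4 ^ D * E (D + D / 2 + 1) : ℕ) : ℤ) := by
        have h2 : |n i q l| ≤ ∑ l : W, |n i q l| :=
          single_le_sum (f := fun l : W => |n i q l|) (fun _ _ => abs_nonneg _) (mem_univ l)
        refine h2.trans ((hn1 i q).trans ?_)
        have h3 : (2 : ℕ) ^ ((q.1 : ℕ) + 1 + 2 * (i.1 : ℕ)) ≤ 4 ^ D := by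
          have h4 : (4 : ℕ) ^ D = 2 ^ (2 * D) := by
            rw [pow_mul]
            norm_num
          rw [h4]
          exact Nat.pow_le_pow_right (by norm_num) (by have := q.1.2; have := i.1.2; omega)
        exact_mod_cast Nat.mul_le_mul_right _ (Nat.mul_le_mul_left _ h3)
      calc |y q| * |n i q l| ≤ (Y : ℤ) * ((C * 4 ^ D * E (D + D / 2 + 1) : ℕ) : ℤ) :=
            mul_le_mul (hy q) h1 (abs_nonneg _) (Int.natCast_nonneg _)
        _ = ((Y * (C * 4 ^ D * E (D + D / 2 + 1)) : ℕ) : ℤ) := by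
            push_cast
            ring
    calc |∑ q, y q * n i q l| ≤ ∑ q, |y q * n i q l| := abs_sum_le_sum_abs _ _
      _ ≤ ∑ _q : Fin D × A, ((Y * (C * 4 ^ D * E (D + D / 2 + 1)) : ℕ) : ℤ) :=
          sum_le_sum fun q _ => hb q
      _ = ((C * A.card * D * Y * 4 ^ D * E (D + D / 2 + 1) : ℕ) : ℤ) := by
          rw [sum_const, card_univ, Fintype.card_prod, Fintype.card_fin, Fintype.card_coe,
            nsmul_eq_mul]
          push_cast
          ring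
  · intro p hp hpm i
    have e1 : ∑ l : W, ((∑ q, y q * n i q l : ℤ) : ZMod p) * fz p l =
        ∑ q, (y q : ZMod p) * ∑ l : W, (n i q l : ZMod p) * fz p l := by
      simp only [Int.cast_sum, Int.cast_mul, sum_mul, mul_sum, mul_assoc]
      exact sum_comm
    have e2 := fun q : Fin D × A => congrArg (fun z => (y q : ZMod p) * z)
      (hn2 i q p hp hpm).symm
    rw [e1, sum_congr rfl fun q _ => e2 q]
    simp only [mul_sum]
    rw [sum_comm]
    refine sum_congr rfl fun M _ => sum_congr rfl fun q _ => ?_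
    ring
  · intro φ i
    have e1 : ∑ l : W, ((∑ q, y q * n i q l : ℤ) : ℚ) * φ l =
        ∑ q, (y q : ℚ) * ∑ l : W, (n i q l : ℚ) * φ l := by
      simp only [Int.cast_sum, Int.cast_mul, sum_mul, mul_sum, mul_assoc]
      exact sum_comm
    have e2 := fun q : Fin D × A => congrArg (fun z => (y q : ℚ) * z) (hn3 i q φ).symm
    rw [e1, sum_congr rfl fun q _ => e2 q, mul_sum]
    refine sum_congr rfl fun q _ => ?_
    rw [Lmom_apply (mom φ q.2 i.2) (bq ((q.1 : ℕ) + 1) * bq (i.1 : ℕ))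
      ((q.1 : ℕ) + 1 + (i.1 : ℕ) + 1)]
    · ring
    · have h1 := natDegree_mul_le (p := bq ((q.1 : ℕ) + 1)) (q := bq (i.1 : ℕ))
      have h2 := PForm_deg ((q.1 : ℕ) + 1)
      have h3 := PForm_deg (i.1 : ℕ)
      omega

end Pool.MZFin
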