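import Pool.Agent.Lib.MZFin.Defs

/-! MP_c511df_nt, finite multiple zeta values, module `PPow` (80 lines): the finite multiple zeta
values of depth one vanish.

PROOF. `fz_single`: `fz p [c] = ∑ n ∈ range (p-1), ((n+1 : ZMod p)⁻¹)^c` (`hs_cons`, `hs_nil`; unfold
`fz`, `wp`). The map `n ↦ n + 1` is a bijection from `range (p-1)` onto the nonzero elements of
`ZMod p`; `x ↦ x⁻¹` permutes them; so the sum is `∑_(x : (ZMod p)ˣ) (x^c : ZMod p)`, which is `0` if
`(p - 1) ∤ c` (`FiniteField.sum_pow_units`), and `1 ≤ c < p - 1`. (Alternative: `c' = p - 1 - c`,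
`x^(-c) = x^c'` (Fermat), `FiniteField.sum_pow_lt_card_sub_one`.)
`single_mem_Rel`: `mem_Rel` with `P0 = c + 1`; the sum has one term `rc p 1 * fz p [c]`
(`Finset.sum_eq_single`, `rc p 0 = 0`). -/

open Finset

namespace Pool.MZFin

private theorem pp_sum (p : ℕ) [NeZero p] (f : ZMod p → ZMod p) :
    ∑ x : ZMod p, f x = ∑ n ∈ range p, f (n : ZMod p) := by
  refine Finset.sum_nbij' (fun x => x.val) (fun n => (n : ZMod p)) ?_ ?_ ?_ ?_ ?_
  · intro x _
    exact mem_range.2 (ZMod.val_lt x)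
  · intro n _
    exact mem_univ _
  · intro x _
    exact ZMod.natCast_rightInverse x
  · intro n hn
    exact ZMod.val_natCast_of_lt (mem_range.1 hn)
  · intro x _
    rw [ZMod.natCast_rightInverse x]

theorem fz_single (p : ℕ) (hp : p.Prime) (c : ℕ) (hc : 1 ≤ c) (hcp : c + 1 < p) : fz p [c] = 0 := by
  have hF : Fact p.Prime := ⟨hp⟩
  have h1 : fz p [c] = ∑ n ∈ range (p - 1), ((n + 1 : ℕ) : ZMod p) ^ (p - 1 - c) := by
    unfold fz
    rw [hs_cons]
    refine sum_congr rfl fun n hn => ?_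
    rw [hs_nil, mul_one, wp]
    have hx : ((n + 1 : ℕ) : ZMod p) ≠ 0 := by
      intro h0
      rw [ZMod.natCast_eq_zero_iff] at h0
      have h2 := Nat.le_of_dvd (Nat.succ_pos n) h0
      have h3 := mem_range.1 hn
      omega
    have h4 : ((n + 1 : ℕ) : ZMod p) ^ (p - 1 - c) * ((n + 1 : ℕ) : ZMod p) ^ c = 1 := by
      rw [← pow_add, Nat.sub_add_cancel (by omega), ZMod.pow_card_sub_one_eq_one hx]
    rw [inv_pow]
    exact (eq_inv_of_mul_eq_one_left h4).symm
  have h2 : ∑ x : ZMod p, x ^ (p - 1 - c) = 0 :=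
    FiniteField.sum_pow_lt_card_sub_one (K := ZMod p) (p - 1 - c) (by rw [ZMod.card]; omega)
  rw [pp_sum p fun x => x ^ (p - 1 - c)] at h2
  obtain ⟨m, hm⟩ : ∃ m, p = m + 1 := ⟨p - 1, by omega⟩
  have h3 : ∑ n ∈ range p, ((n : ℕ) : ZMod p) ^ (p - 1 - c) =
      ∑ n ∈ range (p - 1), ((n + 1 : ℕ) : ZMod p) ^ (p - 1 - c) := by
    have h4 : range p = range ((p - 1) + 1) := by
      congr 1
      omega
    rw [h4, sum_range_succ', Nat.cast_zero, zero_pow (by omega), add_zero]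
  rw [h1, ← h3, h2]

theorem single_mem_Rel (P : Set ℕ) (W : Finset (List ℕ)) (c : ℕ) (hc : 1 ≤ c) (hW : [c] ∈ W) :
    (Pi.single (⟨[c], hW⟩ : W) 1 : W → ℚ) ∈ Rel P W := by
  rw [mem_Rel]
  refine ⟨c + 1, fun p _ hp hpc => ?_⟩
  rw [Finset.sum_eq_single (⟨[c], hW⟩ : W)]
  · rw [fz_single p hp c hc hpc, mul_zero]
  · intro l _ hl
    rw [Pi.single_eq_of_ne hl]
    simp [rc]
  · intro h
    exact absurd (mem_univ _) h

end Pool.MZFin
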