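import Pool.Agent.Lib.MZFin.YMain
import Pool.Agent.Lib.MZFin.PForm
import Pool.Agent.Lib.MZFin.PBq
import Pool.Agent.Lib.MZFin.PPow

/-! MP_c511df_nt, finite multiple zeta values: the bound `C K r^(3/2) 2^(-K/2)` for the density of a
set of primes at which the values of weight `≤ K` span a space of dimension `r` (exponent `1/3`,
after helper56 and helper65): definitions. -/

open Finset Polynomial Pool.MZExp

namespace Pool.MZFin

/-- the recursion of the moments `m u v n = φ(∑_(t=1)^p h_u(t) h_v(t) t^n)` for a functional `φ` with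
the value `e` at the empty word and the value `0` at the words of length one -/
def RecE (e : ℚ) (m : List ℕ → List ℕ → ℕ → ℚ) : Prop :=
  ∃ R : List ℕ → List ℕ → ℚ[X], R [] [] = 0 ∧
    (∀ c : ℕ, 1 ≤ c → R [] [c] = C ((-1) ^ (c + 1) * e) * X ^ (c + 1)) ∧
    (∀ u v, (R u v).natDegree ≤ u.sum + v.sum + 1 ∧ (R u v).coeff 0 = 0) ∧
    ∀ u v : List ℕ, (∀ a ∈ u, 1 ≤ a) → (∀ a ∈ v, 1 ≤ a) → ∀ n : ℕ,
      ∑ k ∈ Finset.range (n + 1), (n.choose k : ℚ) * (-1) ^ (n - k) * m u v k =
        tq (fun u' n' => tq (fun v' n'' => m u' v' n'') v n') u n +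
          (-1) ^ n * (R u v).coeff (n + 1)

/-- the coded words: the words `v` of `S` with the letter `L + i` at the end (the `i`-th copy of
`v`), and the empty word -/
def Enc (S : Finset (List ℕ)) (L r : ℕ) : Finset (List ℕ) :=
  insert [] ((S ×ˢ range r).image fun q => q.1 ++ [L + q.2])

/-- no word of `S` is a proper extension of `v` -/
def IsTop (S : Finset (List ℕ)) (v : List ℕ) : Prop := v ∈ S ∧ ∀ u, v ++ u ∈ S → u = []

/-- `(d_a f) u = f (a :: u)` -/
def dder {K : Type*} [Zero K] (S : Finset (List ℕ)) (a : ℕ) (f : S → K) : S → K :=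
  fun u => if h : a :: u.1 ∈ S then f ⟨a :: u.1, h⟩ else 0

end Pool.MZFin
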