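import Pool.Agent.Lib.MZExp.ZDefs

/-! MP_c511df_nt, exponential growth of the spaces of finite multiple zeta values (helper63's theorem):
definitions for the ZERO ESTIMATE AT INFINITY (pure algebra, only Mathlib and `MZExp/ZDefs`).
Words are lists, `u = 1/x`, formal Laurent series in `u`, `iota` is the embedding of the polynomials
in `x`, `Fil m` says that the order in `u` is at least `m`. -/

open Polynomial Pool.MZExp

namespace Pool.MZFin

/-- the shift operator on functions of a word and an exponent: `(T f)(a :: u, n) = f (a :: u, n) +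
f (u, n - a)`, the last term only if `a ≤ n` -/
def tq (f : List ℕ → ℕ → ℚ) : List ℕ → ℕ → ℚ
  | [], n => f [] n
  | a :: u, n => f (a :: u) n + if a ≤ n then f u (n - a) else 0

/-- the recursion of the moments `m u v n = φ(∑_(t=1)^p h_u(t) h_v(t) t^n)`, which expresses
`∑_(t=1)^p h_u(t) h_v(t) (t-1)^n = ∑_(t=0)^(p-1) h_u(t+1) h_v(t+1) t^n` -/
def RecM (m : List ℕ → List ℕ → ℕ → ℚ) : Prop :=
  ∃ R : List ℕ → List ℕ → ℚ[X], R [] [] = 0 ∧
    (∀ c : ℕ, 1 ≤ c → R [] [c] = C ((-1) ^ (c + 1)) * X ^ (c + 1)) ∧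
    (∀ u v, (R u v).natDegree ≤ u.sum + v.sum + 1 ∧ (R u v).coeff 0 = 0) ∧
    ∀ u v : List ℕ, (∀ a ∈ u, 1 ≤ a) → (∀ a ∈ v, 1 ≤ a) → ∀ n : ℕ,
      ∑ k ∈ Finset.range (n + 1), (n.choose k : ℚ) * (-1) ^ (n - k) * m u v k =
        tq (fun u' n' => tq (fun v' n'' => m u' v' n'') v n') u n +
          (-1) ^ n * (R u v).coeff (n + 1)

/-- Laurent series in `u = 1/x` -/
abbrev LS : Type := LaurentSeries ℚ

/-- the embedding of the polynomials in `x = 1/u` -/
noncomputable def iota : ℚ[X] →+* LS :=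
  eval₂RingHom (algebraMap ℚ LS) (HahnSeries.single (-1 : ℤ) (1 : ℚ))

/-- order at least `m` in `u` -/
def Fil (m : ℤ) (f : LS) : Prop := ∀ n : ℤ, n < m → f.coeff n = 0

/-- the series `∑_(n ≥ 0) g_n u^(n+1)` -/
noncomputable def ser (g : ℕ → ℚ) : LS :=
  HahnSeries.ofPowerSeries ℤ ℚ (PowerSeries.X * PowerSeries.mk g)

/-- the pairs `(a, b)` of vectors of polynomials of degrees `≤ y`, `≤ z` with
`∑ a_u C(u, v) - b_v` of order `≥ m`, as a subspace of the vectors of rational functions -/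
noncomputable def QM (S0 S1 : Finset (List ℕ)) (Cs : List ℕ → List ℕ → LS) (m : ℤ) (y z : ℕ) :
    Submodule ℚ ((S0 → KK) × (S1 → KK)) where
  carrier := {p | ∃ (a : S0 → ℚ[X]) (b : S1 → ℚ[X]), (∀ u, (a u).natDegree ≤ y) ∧
    (∀ v, (b v).natDegree ≤ z) ∧
    (∀ v : S1, Fil m (∑ u : S0, iota (a u) * Cs u v - iota (b v))) ∧
    p = (fun u => algebraMap ℚ[X] KK (a u), fun v => algebraMap ℚ[X] KK (b v))}
  add_mem' := by
    rintro p q ⟨a, b, ha, hb, hc, rfl⟩ ⟨a', b', ha', hb', hc', rfl⟩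
    refine ⟨a + a', b + b', fun u => ?_, fun v => ?_, fun v n hn => ?_, ?_⟩
    · exact (natDegree_add_le _ _).trans (max_le (ha u) (ha' u))
    · exact (natDegree_add_le _ _).trans (max_le (hb v) (hb' v))
    · have h : (∑ u : S0, iota ((a + a') u) * Cs u v - iota ((b + b') v)) =
          (∑ u : S0, iota (a u) * Cs u v - iota (b v)) +
            (∑ u : S0, iota (a' u) * Cs u v - iota (b' v)) := by
        simp only [Pi.add_apply, map_add, add_mul, Finset.sum_add_distrib]
        ring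
      rw [h, HahnSeries.coeff_add, hc v n hn, hc' v n hn, add_zero]
    · ext i <;> simp
  zero_mem' := by
    refine ⟨0, 0, fun u => ?_, fun v => ?_, fun v n hn => ?_, ?_⟩ <;> simp
    rfl
  smul_mem' := by
    rintro k p ⟨a, b, ha, hb, hc, rfl⟩
    refine ⟨k • a, k • b, fun u => ?_, fun v => ?_, fun v n hn => ?_, ?_⟩
    · exact (natDegree_smul_le k _).trans (ha u)
    · exact (natDegree_smul_le k _).trans (hb v)
    · have h : (∑ u : S0, iota ((k • a) u) * Cs u v - iota ((k • b) v)) =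
          k • (∑ u : S0, iota (a u) * Cs u v - iota (b v)) := by
        have h1 : ∀ p : ℚ[X], iota (k • p) = k • iota p := fun p => map_rat_smul iota k p
        simp only [Pi.smul_apply, h1, smul_sub, Finset.smul_sum, smul_mul_assoc]
      rw [h, HahnSeries.coeff_smul, hc v n hn, smul_zero]
    · ext i
      · exact (map_rat_smul (algebraMap ℚ[X] KK) k (a i)).symm
      · exact (map_rat_smul (algebraMap ℚ[X] KK) k (b i)).symm

end Pool.MZFin
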