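import Pool.Agent.Lib.MZFin.RedSys
import Pool.Agent.Lib.MZFin.YDefs
import Pool.Agent.Lib.MZFin.PBq

/-! MP_c511df_nt, the moments `mom φ u v n`, `φ` an arbitrary function on words: formally
`φ(∑_(t=1)^p h_u(t) h_v(t) t^n)`. They satisfy the recursion `RecM` of the zero estimate. -/

open Finset Polynomial

namespace Pool.MZFin

theorem bq_ext {P Q : ℚ[X]} (h : ∀ n : ℕ, P.eval (n : ℚ) = Q.eval (n : ℚ)) : P = Q := by
  refine eq_of_infinite_eval_eq P Q ?_
  refine Set.Infinite.mono (s := Set.range fun n : ℕ => (n : ℚ)) ?_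
    (Set.infinite_range_of_injective Nat.cast_injective)
  rintro _ ⟨n, rfl⟩
  exact h n

theorem bq_zero : bq 0 = 1 := bq_ext fun n => by
  rw [bq_eval, eval_one, Nat.choose_zero_right, Nat.cast_one]

theorem bq_degree (i : ℕ) : (bq i).degree = i := by
  unfold bq
  rw [degree_C_mul (by
    rw [one_div]
    exact inv_ne_zero (by exact_mod_cast i.factorial_ne_zero)),
    degree_eq_natDegree (monic_descPochhammer ℚ i).ne_zero, descPochhammer_natDegree]

theorem bq_succ_eval_zero (k : ℕ) : (bq (k + 1)).eval 0 = 0 := by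
  have h := bq_eval (k + 1) 0
  rwa [Nat.cast_zero, Nat.choose_zero_succ, Nat.cast_zero] at h

private theorem redQ_mul (n k : ℕ) : n * n.choose k = (k + 1) * n.choose (k + 1) + k * n.choose k := by
  have h3 := Nat.choose_succ_right_eq n k
  rcases le_or_gt k n with h | h
  · have h4 : n * n.choose k = n.choose k * (n - k) + k * n.choose k := by
      rw [mul_comm k, ← mul_add, Nat.sub_add_cancel h, mul_comm]
    rw [h4, ← h3]
    ring
  · rw [Nat.choose_eq_zero_of_lt h, Nat.choose_eq_zero_of_lt (by omega : n < k + 1)]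
    ring

theorem X_mul_bq (k : ℕ) : X * bq k = ((k : ℚ) + 1) • bq (k + 1) + (k : ℚ) • bq k :=
  bq_ext fun n => by
    rw [eval_mul, eval_X, eval_add, eval_smul, eval_smul, bq_eval, bq_eval, smul_eq_mul,
      smul_eq_mul]
    exact_mod_cast redQ_mul n k

theorem bq_comp (k : ℕ) : (bq (k + 1)).comp (X + 1) = bq (k + 1) + bq k :=
  bq_ext fun n => by
    have h : eval (n : ℚ) (X + 1 : ℚ[X]) = ((n + 1 : ℕ) : ℚ) := by
      rw [eval_add, eval_X, eval_one, Nat.cast_succ]
    rw [eval_comp, h, eval_add, bq_eval, bq_eval, bq_eval, Nat.choose_succ_succ, Nat.cast_add,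
      add_comm]

/-- the binomial polynomials as a sequence of polynomials -/
noncomputable def bqSeq : Polynomial.Sequence ℚ where
  elems' := bq
  degree_eq' := bq_degree

/-- the binomial polynomials as a basis -/
noncomputable def bqBasis : Module.Basis ℕ ℚ ℚ[X] :=
  bqSeq.basis fun i => isUnit_iff_ne_zero.2 (leadingCoeff_ne_zero.2 (bqSeq.ne_zero i))

theorem bqBasis_apply (i : ℕ) : bqBasis i = bq i := bqSeq.basis_eq_self _ i

/-- the linear functional with the value `g k` at `C(X, k)` -/
noncomputable def psi (g : ℕ → ℚ) : ℚ[X] →ₗ[ℚ] ℚ := bqBasis.constr ℚ g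

theorem psi_bq (g : ℕ → ℚ) (k : ℕ) : psi g (bq k) = g k := by
  unfold psi
  rw [← bqBasis_apply, Module.Basis.constr_basis]

theorem psi_ext {f f' : ℚ[X] →ₗ[ℚ] ℚ} (h : ∀ k, f (bq k) = f' (bq k)) : f = f' :=
  bqBasis.ext fun k => by rw [bqBasis_apply, h]

/-- the division by `t` -/
def dvq (g : ℕ → ℚ) (c : ℚ) : ℕ → ℚ
  | 0 => c
  | k + 1 => (g k - k * dvq g c k) / (k + 1)

/-- from the sums without a power of `t` to the sums with `t^(-a)` -/
def frq (φ : List ℕ → ℚ) (l : List ℕ) (g : ℕ → ℚ) : ℕ → ℕ → ℚ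
  | 0 => g
  | a + 1 => dvq (frq φ l g a) (φ ((a + 1) :: l))

/-- the sums without a power of `t` -/
def g0q (φ : List ℕ → ℚ) : List ℕ → ℕ → ℚ
  | [], k => if k = 0 then -φ [] else 0
  | a :: l, k => -(frq φ l (g0q φ l) a (k + 1) + frq φ l (g0q φ l) a k)

/-- the formal sums `∑_(t=1)^(p-1) C(t,k) t^(-a) h_l(t)` -/
def Gq (φ : List ℕ → ℚ) (l : List ℕ) (a k : ℕ) : ℚ := frq φ l (g0q φ l) a k

theorem Gq_zero (φ : List ℕ → ℚ) (l : List ℕ) (a : ℕ) : Gq φ l (a + 1) 0 = φ ((a + 1) :: l) := rfl

theorem Gq_step (φ : List ℕ → ℚ) (l : List ℕ) (a k : ℕ) :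
    ((k : ℚ) + 1) * Gq φ l (a + 1) (k + 1) + (k : ℚ) * Gq φ l (a + 1) k = Gq φ l a k := by
  have h : Gq φ l (a + 1) (k + 1) = (Gq φ l a k - k * Gq φ l (a + 1) k) / (k + 1) := rfl
  have h2 : (k : ℚ) + 1 ≠ 0 := by positivity
  rw [h, mul_div_cancel₀ _ h2]
  ring

theorem Gq_cons (φ : List ℕ → ℚ) (a : ℕ) (l : List ℕ) (k : ℕ) :
    Gq φ (a :: l) 0 k = -(Gq φ l a (k + 1) + Gq φ l a k) := rfl

theorem Gq_nil (φ : List ℕ → ℚ) (k : ℕ) : Gq φ [] 0 k = if k = 0 then -φ [] else 0 := rfl

theorem sys_Gq (m : ℕ) (φ : List ℕ → ℚ) : Sys m φ (Gq φ) where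
  zero l a := Gq_zero φ l a
  step l a k _ := by
    rw [nsmul_eq_mul, nsmul_eq_mul, Nat.cast_succ]
    exact Gq_step φ l a k
  cons a l k _ _ := Gq_cons φ a l k
  nil k _ := Gq_nil φ k

/-- the formal sum `∑_(t=1)^p P(t) h_w(t)` -/
noncomputable def Lam (φ : List ℕ → ℚ) (w : List ℕ) : ℚ[X] →ₗ[ℚ] ℚ :=
  psi (Gq φ w 0) + (φ w) • leval 0

theorem Lam_apply (φ : List ℕ → ℚ) (w : List ℕ) (P : ℚ[X]) :
    Lam φ w P = psi (Gq φ w 0) P + φ w * P.eval 0 := rfl

theorem Lam_nil (φ : List ℕ → ℚ) : Lam φ [] = 0 := by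
  refine psi_ext fun k => ?_
  rw [Lam_apply, psi_bq, Gq_nil, LinearMap.zero_apply]
  cases k with
  | zero => rw [if_pos rfl, bq_zero, eval_one, mul_one, neg_add_cancel]
  | succ k => rw [if_neg (Nat.succ_ne_zero k), bq_succ_eval_zero, mul_zero, add_zero]

/-- the shift of the summation variable -/
theorem psi_shift (φ : List ℕ → ℚ) (a : ℕ) (ha : 1 ≤ a) (l : List ℕ) (P : ℚ[X]) :
    psi (Gq φ (a :: l) 0) P + φ (a :: l) * P.eval 0 =
      psi (Gq φ (a :: l) 0) (P.comp (X + 1)) + psi (Gq φ l a) (P.comp (X + 1)) := by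
  have h : psi (Gq φ (a :: l) 0) + (φ (a :: l)) • leval 0 =
      psi (Gq φ (a :: l) 0) ∘ₗ (aeval (X + 1 : ℚ[X])).toLinearMap +
        psi (Gq φ l a) ∘ₗ (aeval (X + 1 : ℚ[X])).toLinearMap := by
    refine psi_ext fun k => ?_
    change psi (Gq φ (a :: l) 0) (bq k) + φ (a :: l) * (bq k).eval 0 =
      psi (Gq φ (a :: l) 0) (aeval (X + 1 : ℚ[X]) (bq k)) +
        psi (Gq φ l a) (aeval (X + 1 : ℚ[X]) (bq k))
    rw [← comp_eq_aeval]
    cases k with
    | zero =>
      obtain ⟨b, rfl⟩ : ∃ b, a = b + 1 := ⟨a - 1, by omega⟩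
      have h1 : (bq 0).comp (X + 1) = bq 0 := by rw [bq_zero, one_comp]
      rw [h1, psi_bq, psi_bq, Gq_zero, bq_zero, eval_one, mul_one]
    | succ k =>
      rw [bq_comp, map_add, map_add, psi_bq, psi_bq, psi_bq, psi_bq, bq_succ_eval_zero, Gq_cons,
        Gq_cons]
      ring
  exact LinearMap.congr_fun h P

/-- the multiplication by `t` -/
theorem psi_mul (φ : List ℕ → ℚ) (l : List ℕ) (a : ℕ) (P : ℚ[X]) :
    psi (Gq φ l (a + 1)) (X * P) = psi (Gq φ l a) P := by
  have h : psi (Gq φ l (a + 1)) ∘ₗ LinearMap.mulLeft ℚ (X : ℚ[X]) = psi (Gq φ l a) := by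
    refine psi_ext fun k => ?_
    rw [LinearMap.comp_apply, LinearMap.mulLeft_apply, X_mul_bq, map_add, map_smul, map_smul, psi_bq, psi_bq, psi_bq, smul_eq_mul, smul_eq_mul,
      Gq_step]
  exact LinearMap.congr_fun h P

theorem psi_pow_le (φ : List ℕ → ℚ) (l : List ℕ) (a n : ℕ) :
    psi (Gq φ l a) (X ^ (n + a)) = psi (Gq φ l 0) (X ^ n) := by
  induction a with
  | zero => rfl
  | succ a ih => rw [← add_assoc, pow_succ', psi_mul, ih]

theorem psi_pow_lt (φ : List ℕ → ℚ) (l : List ℕ) (a n : ℕ) :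
    psi (Gq φ l (a + 1 + n)) (X ^ n) = φ ((a + 1) :: l) := by
  induction n with
  | zero => rw [pow_zero, ← bq_zero, psi_bq, add_zero, Gq_zero]
  | succ n ih => rw [← add_assoc, pow_succ', psi_mul, ih]

/-- the coefficients of the rational term of the recursion -/
def cf (φ : List ℕ → ℚ) (a : ℕ) (l : List ℕ) (n : ℕ) : ℚ :=
  if n = 0 then 0 else if n = a then -((-1) ^ a * φ l) else (-1) ^ n * φ ((a - n) :: l)

/-- the rational term of the recursion -/
noncomputable def Rw (φ : List ℕ → ℚ) : List ℕ → ℚ[X]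
  | [] => 0
  | a :: l => ∑ n ∈ range (a + 1), C (cf φ a l n) * X ^ (n + 1)

theorem Rw_coeff_cons (φ : List ℕ → ℚ) (a : ℕ) (l : List ℕ) (n : ℕ) :
    (Rw φ (a :: l)).coeff (n + 1) = if n < a + 1 then cf φ a l n else 0 := by
  unfold Rw
  rw [finsetSum_coeff]
  simp only [coeff_C_mul, coeff_X_pow]
  simp

theorem Rw_coeff_zero (φ : List ℕ → ℚ) (w : List ℕ) : (Rw φ w).coeff 0 = 0 := by
  cases w with
  | nil => simp [Rw]
  | cons a l =>
    unfold Rw
    rw [finsetSum_coeff]
    exact sum_eq_zero fun n _ => by simp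

theorem Rw_natDegree (φ : List ℕ → ℚ) (w : List ℕ) : (Rw φ w).natDegree ≤ w.sum + 1 := by
  cases w with
  | nil => simp [Rw]
  | cons a l =>
    unfold Rw
    refine natDegree_sum_le_of_forall_le _ _ fun n hn => ?_
    refine (natDegree_C_mul_X_pow_le _ _).trans ?_
    have := mem_range.1 hn
    rw [List.sum_cons]
    omega

/-- the recursion for one word -/
theorem Lam_rec (φ : List ℕ → ℚ) (w : List ℕ) (hw : ∀ a ∈ w, 1 ≤ a) (n : ℕ) :
    Lam φ w ((X - 1) ^ n) = tq (fun w' n' => Lam φ w' (X ^ n')) w n +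
      (-1) ^ n * (Rw φ w).coeff (n + 1) := by
  cases w with
  | nil =>
    rw [tq, Lam_nil, LinearMap.zero_apply, LinearMap.zero_apply, Rw, coeff_zero, mul_zero, add_zero]
  | cons a l =>
    have ha : 1 ≤ a := hw a List.mem_cons_self
    have h1 := psi_shift φ a ha l ((X - 1) ^ n)
    have h2 : ((X - 1 : ℚ[X]) ^ n).comp (X + 1) = X ^ n := by
      rw [pow_comp, sub_comp, X_comp, one_comp, add_sub_cancel_right]
    rw [h2] at h1
    rw [Lam_apply, h1, tq, Rw_coeff_cons]
    beta_reduce
    rw [Lam_apply, Lam_apply]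
    rcases Nat.lt_trichotomy n a with h | h | h
    · -- `n < a`
      obtain ⟨b, rfl⟩ : ∃ b, a = b + 1 + n := ⟨a - n - 1, by omega⟩
      rw [psi_pow_lt, if_neg (by omega), if_pos (by omega), add_zero]
      unfold cf
      rcases Nat.eq_zero_or_pos n with rfl | hn
      · rw [if_pos rfl, pow_zero, eval_one]
        ring
      · have h3 : b + 1 + n - n = b + 1 := by omega
        rw [if_neg (by omega), if_neg (by omega), h3, eval_pow, eval_X, zero_pow (by omega)]
        have h4 : ((-1 : ℚ) ^ n) * (-1) ^ n = 1 := by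
          rw [← mul_pow]
          norm_num
        linear_combination (-φ ((b + 1) :: l)) * h4
    · -- `n = a`
      subst h
      have h3 := psi_pow_le φ l n 0
      rw [zero_add] at h3
      rw [h3, if_pos le_rfl, if_pos (by omega), Nat.sub_self]
      unfold cf
      rw [if_neg (by omega), if_pos rfl, eval_pow, eval_X, zero_pow (by omega), pow_zero, eval_one]
      have h4 : ((-1 : ℚ) ^ n) * (-1) ^ n = 1 := by
        rw [← mul_pow]
        norm_num
      linear_combination (φ l) * h4
    · -- `n > a`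
      obtain ⟨b, rfl⟩ : ∃ b, n = b + 1 + a := ⟨n - a - 1, by omega⟩
      have h3 : b + 1 + a - a = b + 1 := by omega
      rw [psi_pow_le, if_pos (by omega), if_neg (by omega), h3, eval_pow, eval_X,
        zero_pow (by omega), eval_pow, eval_X, zero_pow (by omega)]
      ring

/-- the moments `φ(∑_(t=1)^p h_u(t) h_v(t) t^n)` -/
noncomputable def mom (φ : List ℕ → ℚ) (u v : List ℕ) (n : ℕ) : ℚ :=
  ((stf u v).map fun w => Lam φ w (X ^ n)).sum

private theorem redQ_list (L : List (List ℕ)) (f g : List ℕ → ℚ) :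
    (L.map fun w => f w + g w).sum = (L.map f).sum + (L.map g).sum := by
  induction L with
  | nil => simp
  | cons x L ih =>
    simp only [List.map_cons, List.sum_cons] at *
    rw [ih]
    ring

private theorem redQ_if (L : List (List ℕ)) (a n : ℕ) (F : List ℕ → ℕ → ℚ) :
    ((L.map fun x => a :: x).map fun w => tq F w n).sum =
      ((L.map fun x => a :: x).map fun w => F w n).sum +
        if a ≤ n then (L.map fun w => F w (n - a)).sum else 0 := by
  have h : ((L.map fun x => a :: x).map fun w => tq F w n).sum =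
      (L.map fun x => F (a :: x) n + if a ≤ n then F x (n - a) else 0).sum := by
    rw [List.map_map]
    rfl
  rw [h, redQ_list, List.map_map]
  congr 1
  split_ifs with h1
  · rfl
  · simp

/-- the shift operator is an automorphism of the stuffle product -/
theorem tq_stf (F : List ℕ → ℕ → ℚ) (u v : List ℕ) (n : ℕ) :
    ((stf u v).map fun w => tq F w n).sum =
      tq (fun u' n' => tq (fun v' n'' => ((stf u' v').map fun w => F w n'').sum) v n') u n := by
  cases u with
  | nil =>
    have h : (fun (v' : List ℕ) (n'' : ℕ) => ((stf [] v').map fun w => F w n'').sum) = F := by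
      funext v' n''
      rw [stf_nil_left, List.map_singleton, List.sum_singleton]
    rw [stf_nil_left, List.map_singleton, List.sum_singleton, tq, h]
  | cons a u =>
    cases v with
    | nil =>
      rw [stf_nil_right, List.map_singleton, List.sum_singleton, tq, tq, tq, tq, stf_nil_right,
        stf_nil_right, List.map_singleton, List.sum_singleton, List.map_singleton,
        List.sum_singleton]
    | cons b v =>
      rw [tq, tq, tq]
      rw [stf_cons a b u v]
      simp only [List.map_append, List.sum_append]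
      rw [redQ_if, redQ_if, redQ_if]
      by_cases ha : a ≤ n
      · by_cases hb : b ≤ n
        · by_cases hab : a + b ≤ n
          · have h1 : b ≤ n - a := by omega
            have h2 : n - a - b = n - (a + b) := by omega
            rw [if_pos ha, if_pos hb, if_pos hab, if_pos ha, if_pos h1, h2]
            ring
          · have h1 : ¬ b ≤ n - a := by omega
            rw [if_pos ha, if_pos hb, if_neg hab, if_pos ha, if_neg h1]
            ring
        · have hab : ¬ a + b ≤ n := by omega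
          have h1 : ¬ b ≤ n - a := by omega
          rw [if_pos ha, if_neg hb, if_neg hab, if_pos ha, if_neg h1]
          ring
      · have hab : ¬ a + b ≤ n := by omega
        rw [if_neg ha, if_neg hab, if_neg ha]
        ring

private theorem redQ_lin (L : List (List ℕ)) (f : List ℕ → ℚ[X] →ₗ[ℚ] ℚ) (P : ℚ[X]) :
    (L.map fun w => f w P).sum = (L.map f).sum P := by
  induction L with
  | nil => simp
  | cons x L ih =>
    rw [List.map_cons, List.sum_cons, List.map_cons, List.sum_cons, ih, LinearMap.add_apply]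

theorem mom_eq (φ : List ℕ → ℚ) (u v : List ℕ) (P : ℚ[X]) :
    ((stf u v).map fun w => Lam φ w P).sum =
      ∑ k ∈ range (P.natDegree + 1), P.coeff k * mom φ u v k := by
  unfold mom
  simp only [redQ_lin]
  conv_lhs => rw [P.as_sum_range_C_mul_X_pow, map_sum]
  refine sum_congr rfl fun k _ => ?_
  rw [← smul_eq_C_mul, map_smul, smul_eq_mul]

/-- the moments satisfy the recursion of the zero estimate -/
theorem mom_rec (φ : List ℕ → ℚ) (h1 : φ [] = 1) (h0 : ∀ c : ℕ, 1 ≤ c → φ [c] = 0) :
    RecM (mom φ) := by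
  refine ⟨fun u v => ((stf u v).map (Rw φ)).sum, ?_, ?_, ?_, ?_⟩
  · beta_reduce
    rw [stf_nil_left, List.map_singleton, List.sum_singleton]
    rfl
  · intro c hc
    beta_reduce
    rw [stf_nil_left, List.map_singleton, List.sum_singleton]
    ext k
    cases k with
    | zero => rw [Rw_coeff_zero, coeff_C_mul, coeff_X_pow, if_neg (by omega), mul_zero]
    | succ n =>
      rw [Rw_coeff_cons, coeff_C_mul, coeff_X_pow]
      unfold cf
      rw [h1]
      rcases Nat.lt_trichotomy n c with h | h | h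
      · rw [if_pos (by omega), if_neg (by omega : ¬ n + 1 = c + 1), mul_zero]
        split_ifs with h2 h3
        · rfl
        · omega
        · rw [h0 (c - n) (by omega), mul_zero]
      · subst h
        rw [if_pos (by omega), if_neg (by omega), if_pos rfl, if_pos rfl, mul_one, mul_one, pow_succ]
        ring
      · rw [if_neg (by omega), if_neg (by omega), mul_zero]
  · intro u v
    have key : ∀ L : List (List ℕ), (∀ w ∈ L, w.sum ≤ u.sum + v.sum) →
        ((L.map (Rw φ)).sum).natDegree ≤ u.sum + v.sum + 1 ∧ ((L.map (Rw φ)).sum).coeff 0 = 0 := by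
      intro L
      induction L with
      | nil => simp
      | cons x L ih =>
        intro hL
        obtain ⟨h2, h3⟩ := ih fun w hw => hL w (List.mem_cons_of_mem _ hw)
        rw [List.map_cons, List.sum_cons]
        refine ⟨(natDegree_add_le _ _).trans (max_le ?_ h2), ?_⟩
        · have := Rw_natDegree φ x
          have := hL x List.mem_cons_self
          omega
        · rw [coeff_add, h3, Rw_coeff_zero, add_zero]
    exact key _ fun w hw => (stf_mem u v w hw).1.le
  · intro u v hu hv n
    have e1 : ((stf u v).map fun w => Lam φ w ((X - 1) ^ n)).sum =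
        ∑ k ∈ range (n + 1), (n.choose k : ℚ) * (-1) ^ (n - k) * mom φ u v k := by
      unfold mom
      simp only [redQ_lin]
      rw [sub_eq_add_neg, add_pow, map_sum]
      refine sum_congr rfl fun k _ => ?_
      have h2 : (X : ℚ[X]) ^ k * (-1) ^ (n - k) * (n.choose k : ℚ[X]) =
          ((n.choose k : ℚ) * (-1) ^ (n - k)) • X ^ k := by
        rw [smul_eq_C_mul, C_mul, C_pow, C_neg, C_1, map_natCast]
        ring
      rw [h2, map_smul, smul_eq_mul]
    have e2 : ((stf u v).map fun w => Lam φ w ((X - 1) ^ n)).sum =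
        ((stf u v).map fun w => tq (fun w' n' => Lam φ w' (X ^ n')) w n).sum +
          (-1) ^ n * (((stf u v).map (Rw φ)).sum).coeff (n + 1) := by
      have h2 : ∀ L : List (List ℕ), (∀ w ∈ L, ∀ a ∈ w, 1 ≤ a) →
          (L.map fun w => Lam φ w ((X - 1) ^ n)).sum =
          (L.map fun w => tq (fun w' n' => Lam φ w' (X ^ n')) w n).sum +
            (-1) ^ n * ((L.map (Rw φ)).sum).coeff (n + 1) := by
        intro L
        induction L with
        | nil => simp
        | cons x L ih =>
          intro hL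
          rw [List.map_cons, List.sum_cons, List.map_cons, List.sum_cons, List.map_cons,
            List.sum_cons, ih fun w hw => hL w (List.mem_cons_of_mem _ hw),
            Lam_rec φ x (hL x List.mem_cons_self), coeff_add]
          ring
      exact h2 _ fun w hw => (stf_mem u v w hw).2.2 hu hv
    rw [← e1, e2, tq_stf]
    rfl

end Pool.MZFin
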