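import Pool.Agent.Lib.MZFin.FDefs
import Pool.Agent.Lib.MZFin.RedQ

/-! MP_c511df_nt, exponent 1/3, module `FRec`: the recursion of the moments for a functional with an
arbitrary value at the empty word. -/

open Finset Polynomial Pool.MZExp

namespace Pool.MZFin

private theorem frec_lin (L : List (List ℕ)) (f : List ℕ → ℚ[X] →ₗ[ℚ] ℚ) (P : ℚ[X]) :
    (L.map fun w => f w P).sum = (L.map f).sum P := by
  induction L with
  | nil => simp
  | cons w L ih =>
    rw [List.map_cons, List.sum_cons, List.map_cons, List.sum_cons, ih, LinearMap.add_apply]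

theorem mom_recE (φ : List ℕ → ℚ) (h0 : ∀ c : ℕ, 1 ≤ c → φ [c] = 0) : RecE (φ []) (mom φ) := by
  refine ⟨fun u v => ((stf u v).map (Rw φ)).sum, ?_, ?_, ?_, ?_⟩
  · beta_reduce
    rw [stf_nil_left, List.map_singleton, List.sum_singleton]
    rfl
  · intro c hc
    beta_reduce
    rw [stf_nil_left, List.map_singleton, List.sum_singleton]
    ext k
    cases k with
    | zero => rw [Rw_coeff_zero, coeff_C_mul, coeff_X_pow, if_neg (by omega), mul_zero]
    | succ n =>
      rw [Rw_coeff_cons, coeff_C_mul, coeff_X_pow]
      unfold cf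
      rcases Nat.lt_trichotomy n c with h | h | h
      · rw [if_pos (by omega), if_neg (by omega : ¬ n + 1 = c + 1), mul_zero]
        split_ifs with h2 h3
        · rfl
        · omega
        · rw [h0 (c - n) (by omega), mul_zero]
      · subst h
        rw [if_pos (by omega), if_neg (by omega), if_pos rfl, if_pos rfl, mul_one, pow_succ]
        ring
      · rw [if_neg (by omega), if_neg (by omega), mul_zero]
  · intro u v
    have key : ∀ L : List (List ℕ), (∀ w ∈ L, w.sum ≤ u.sum + v.sum) →
        ((L.map (Rw φ)).sum).natDegree ≤ u.sum + v.sum + 1 ∧ ((L.map (Rw φ)).sum).coeff 0 = 0 := by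
      intro L
      induction L with
      | nil => simp
      | cons x L ih =>
        intro hL
        obtain ⟨h2, h3⟩ := ih fun w hw => hL w (List.mem_cons_of_mem _ hw)
        rw [List.map_cons, List.sum_cons]
        refine ⟨(natDegree_add_le _ _).trans (max_le ?_ h2), ?_⟩
        · have := Rw_natDegree φ x
          have := hL x List.mem_cons_self
          omega
        · rw [coeff_add, h3, Rw_coeff_zero, add_zero]
    exact key _ fun w hw => (stf_mem u v w hw).1.le
  · intro u v hu hv n
    have e1 : ((stf u v).map fun w => Lam φ w ((X - 1) ^ n)).sum =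
        ∑ k ∈ range (n + 1), (n.choose k : ℚ) * (-1) ^ (n - k) * mom φ u v k := by
      unfold mom
      simp only [frec_lin]
      rw [sub_eq_add_neg, add_pow, map_sum]
      refine sum_congr rfl fun k _ => ?_
      have h2 : (X : ℚ[X]) ^ k * (-1) ^ (n - k) * (n.choose k : ℚ[X]) =
          ((n.choose k : ℚ) * (-1) ^ (n - k)) • X ^ k := by
        rw [smul_eq_C_mul, C_mul, C_pow, C_neg, C_1, map_natCast]
        ring
      rw [h2, map_smul, smul_eq_mul]
    have e2 : ((stf u v).map fun w => Lam φ w ((X - 1) ^ n)).sum =
        ((stf u v).map fun w => tq (fun w' n' => Lam φ w' (X ^ n')) w n).sum +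
          (-1) ^ n * (((stf u v).map (Rw φ)).sum).coeff (n + 1) := by
      have h2 : ∀ L : List (List ℕ), (∀ w ∈ L, ∀ a ∈ w, 1 ≤ a) →
          (L.map fun w => Lam φ w ((X - 1) ^ n)).sum =
          (L.map fun w => tq (fun w' n' => Lam φ w' (X ^ n')) w n).sum +
            (-1) ^ n * ((L.map (Rw φ)).sum).coeff (n + 1) := by
        intro L
        induction L with
        | nil => simp
        | cons x L ih =>
          intro hL
          rw [List.map_cons, List.sum_cons, List.map_cons, List.sum_cons, List.map_cons,
            List.sum_cons, ih fun w hw => hL w (List.mem_cons_of_mem _ hw),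
            Lam_rec φ x (hL x List.mem_cons_self), coeff_add]
          ring
      exact h2 _ fun w hw => (stf_mem u v w hw).2.2 hu hv
    rw [← e1, e2, tq_stf]
    rfl

end Pool.MZFin
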