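import Pool.Agent.Lib.MZFin.PIneq
import Pool.Agent.Lib.MZFin.PMono

/-! MP_c511df_nt, finite multiple zeta values, module `PExp`: the main inequality for all words of
bounded weight. -/

open Finset

namespace Pool.MZFin

theorem tc1_Wd (K : ℕ) : TC1 (Wd K) := by
  refine ⟨mem_Wd.2 ⟨by simp, by simp⟩, fun l hl => (mem_Wd.1 hl).1, fun a l h => ?_⟩
  obtain ⟨h1, h2⟩ := mem_Wd.1 h
  rw [List.sum_cons] at h2
  exact mem_Wd.2 ⟨fun b hb => h1 b (List.mem_cons_of_mem _ hb), by omega⟩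

/-- the data of the reduction for all words of bounded weight -/
def HExp (mom : (List ℕ → ℚ) → List ℕ → List ℕ → ℕ → ℚ) : Prop :=
  (∀ φ : List ℕ → ℚ, φ [] = 1 → (∀ c, 1 ≤ c → φ [c] = 0) → RecM (mom φ)) ∧
  ∀ w : ℕ, ∃ C : ℕ, HRed (Wd w) (Wd (w + 3)) (Wd (2 * w + 3)) mom
    (fun m => Nat.lcmUpto m ^ (2 * w + 3)) C

open Classical in
theorem exp_ineq {mom : (List ℕ → ℚ) → List ℕ → List ℕ → ℕ → ℚ} (hm : HExp mom)
    (P : Set ℕ) (δ : ℝ) (hδ : 0 ≤ δ)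
    (hP : ∀ X0 : ℕ, ∃ X : ℕ, X0 ≤ X ∧
      δ * X ≤ ∑ p ∈ (range (X + 1)).filter (fun p => p ∈ P ∧ p.Prime), Real.log p)
    (w κ x : ℕ) (hκ : κ ^ 2 ≤ x * 2 ^ w) :
    δ * κ - 3 / 2 * Real.log 4 ≤
      (dimF P (Wd (2 * w + 3)) : ℝ) * (Real.log 4 * ((x : ℝ) + 1 + 3 / 2 * (2 * w + 3))) := by
  obtain ⟨C, hC⟩ := hm.2 w
  have hE : ∀ m, 1 ≤ Nat.lcmUpto m ^ (2 * w + 3) := fun m =>
    Nat.one_le_pow _ _ (Nat.lcmUpto_pos m)
  have key : ∀ ε : ℝ, 0 < ε → δ * κ - 3 / 2 * Real.log 4 ≤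
      (dimF P (Wd (2 * w + 3)) : ℝ) * (Real.log 4 * ((x : ℝ) + 1) +
        3 / 2 * ((Real.log 4 + ε) * (2 * w + 3))) := by
    intro ε hε
    obtain ⟨m0, hm0⟩ := lcm_exp ε hε
    refine main_ineq (Wd w) (Wd (w + 3)) (Wd (2 * w + 3)) (tc1_Wd _) (tc1_Wd _) ?_
      (tc1_Wd _).1 mom hm.1 _ hE C hC _ ⟨m0, fun m hm => ?_⟩ P δ hδ hP κ x ?_
    · rw [Wd_card, Wd_card, pow_add]
      have : 0 < 2 ^ w := by positivity
      omega
    · have h1 := hm0 m hm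
      have h2 : (0 : ℝ) ≤ ((Nat.lcmUpto m : ℕ) : ℝ) := Nat.cast_nonneg _
      calc (((Nat.lcmUpto m) ^ (2 * w + 3) : ℕ) : ℝ) = ((Nat.lcmUpto m : ℕ) : ℝ) ^ (2 * w + 3) := by
            push_cast
            rfl
        _ ≤ (Real.exp ((Real.log 4 + ε) * m)) ^ (2 * w + 3) := pow_le_pow_left₀ h2 h1 _
        _ = Real.exp ((Real.log 4 + ε) * (2 * w + 3) * m) := by
            rw [← Real.exp_nat_mul]
            congr 1
            push_cast
            ring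
    · rw [Wd_card]
      exact hκ
  have hlim : δ * κ - 3 / 2 * Real.log 4 ≤ (dimF P (Wd (2 * w + 3)) : ℝ) *
      (Real.log 4 * ((x : ℝ) + 1 + 3 / 2 * (2 * w + 3))) := by
    by_contra hcon
    push Not at hcon
    set r : ℝ := (dimF P (Wd (2 * w + 3)) : ℝ) with hr
    have hr0 : 0 ≤ r := Nat.cast_nonneg _
    set g : ℝ := δ * κ - 3 / 2 * Real.log 4 -
      r * (Real.log 4 * ((x : ℝ) + 1 + 3 / 2 * (2 * w + 3))) with hg
    have hg0 : 0 < g := by
      rw [hg]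
      linarith
    set s : ℝ := r * (3 / 2 * (2 * w + 3)) + 1 with hs
    have hs0 : 0 < s := by positivity
    have h1 := key (g / (2 * s)) (by positivity)
    have h2 : r * (Real.log 4 * ((x : ℝ) + 1) + 3 / 2 * ((Real.log 4 + g / (2 * s)) * (2 * w + 3))) =
        r * (Real.log 4 * ((x : ℝ) + 1 + 3 / 2 * (2 * w + 3))) + (s - 1) * (g / (2 * s)) := by
      rw [hs]
      ring
    rw [h2] at h1
    have h3 : (s - 1) * (g / (2 * s)) < g := by
      have h4 : s * (g / (2 * s)) = g / 2 := by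
        field_simp
      have h5 : 0 < g / (2 * s) := by positivity
      nlinarith
    rw [hg] at h3
    linarith
  exact hlim

/-- all primes: `κ/2 - 3/2 ≤ dim (x + 1 + (3/2)(2w+3))` -/
theorem exp_ineq_univ {mom : (List ℕ → ℚ) → List ℕ → List ℕ → ℕ → ℚ} (hm : HExp mom)
    (w κ x : ℕ) (hκ : κ ^ 2 ≤ x * 2 ^ w) :
    (κ : ℝ) / 2 - 3 / 2 ≤
      (dimF Set.univ (Wd (2 * w + 3)) : ℝ) * ((x : ℝ) + 1 + 3 / 2 * (2 * w + 3)) := by
  classical
  have hl2 : 0 < Real.log 2 := Real.log_pos (by norm_num)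
  have hl4 : Real.log 4 = 2 * Real.log 2 := by
    have : (4 : ℝ) = 2 ^ 2 := by norm_num
    rw [this, Real.log_pow]
    norm_num
  have key : ∀ ε : ℝ, 0 < ε → ε < Real.log 2 → (Real.log 2 - ε) * κ - 3 / 2 * Real.log 4 ≤
      (dimF Set.univ (Wd (2 * w + 3)) : ℝ) *
        (Real.log 4 * ((x : ℝ) + 1 + 3 / 2 * (2 * w + 3))) := by
    intro ε hε hε2
    obtain ⟨n0, hn0⟩ := theta_freq (Real.log 2 - ε) (by linarith)
    refine exp_ineq hm Set.univ (Real.log 2 - ε) (by linarith) (fun X0 => ?_) w κ x hκ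
    refine ⟨max X0 n0, le_max_left _ _, (hn0 _ (le_max_right _ _)).trans (le_of_eq ?_)⟩
    refine Finset.sum_congr ?_ fun _ _ => rfl
    ext p
    simp only [Finset.mem_filter]
  have hlim : Real.log 2 * κ - 3 / 2 * Real.log 4 ≤ (dimF Set.univ (Wd (2 * w + 3)) : ℝ) *
      (Real.log 4 * ((x : ℝ) + 1 + 3 / 2 * (2 * w + 3))) := by
    by_contra hcon
    push Not at hcon
    set R : ℝ := (dimF Set.univ (Wd (2 * w + 3)) : ℝ) *
      (Real.log 4 * ((x : ℝ) + 1 + 3 / 2 * (2 * w + 3))) with hR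
    set g : ℝ := Real.log 2 * κ - 3 / 2 * Real.log 4 - R with hg
    have hg0 : 0 < g := by
      rw [hg]
      linarith
    have hκ0 : (0 : ℝ) ≤ κ := Nat.cast_nonneg _
    set e : ℝ := min (Real.log 2 / 2) (g / (2 * (κ + 1))) with he
    have he0 : 0 < e := lt_min (by positivity) (by positivity)
    have he1 : e < Real.log 2 := lt_of_le_of_lt (min_le_left _ _) (by linarith)
    have h1 := key e he0 he1
    have h2 : e * κ < g := by
      have h3 : e ≤ g / (2 * (κ + 1)) := min_le_right _ _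
      have h4 : g / (2 * (κ + 1)) * (κ + 1) = g / 2 := by
        field_simp
      nlinarith
    rw [hg] at h2
    linarith
  rw [hl4] at hlim
  have h5 : Real.log 2 * ((κ : ℝ) / 2 - 3 / 2) ≤ Real.log 2 *
      ((dimF Set.univ (Wd (2 * w + 3)) : ℝ) * ((x : ℝ) + 1 + 3 / 2 * (2 * w + 3))) := by
    nlinarith
  exact le_of_mul_le_mul_left h5 hl2

end Pool.MZFin
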