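import Pool.Agent.Lib.MZFin.Red
import Pool.Agent.Lib.MZFin.PExp

/-! MP_c511df_nt: the reduction for all words of bounded weight. -/

open Finset Polynomial

namespace Pool.MZFin

/-- a word with letters `≥ 1` has length at most its weight -/
theorem length_le_sum {u : List ℕ} (hu : ∀ a ∈ u, 1 ≤ a) : u.length ≤ u.sum := by
  induction u with
  | nil => simp
  | cons a u ih =>
    have h1 := hu a List.mem_cons_self
    have h2 := ih fun b hb => hu b (List.mem_cons_of_mem _ hb)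
    rw [List.length_cons, List.sum_cons]
    omega

/-- the reduction for words `u ∈ A`, `v ∈ B` of total weight at most `K` and total length at most
`L`, with general denominators `E m` -/
theorem hred_gen (A B W : Finset (List ℕ)) (K L : ℕ) (hA : ∀ u ∈ A, ∀ a ∈ u, 1 ≤ a)
    (hB : ∀ v ∈ B, ∀ a ∈ v, 1 ≤ a) (hAB : ∀ u ∈ A, ∀ v ∈ B, u.sum + v.sum ≤ K)
    (hAB' : ∀ u ∈ A, ∀ v ∈ B, u.length + v.length ≤ L)
    (hW : ∀ w : List ℕ, (∀ a ∈ w, 1 ≤ a) → w.sum ≤ K → w.length ≤ L → w ∈ W)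
    (P : ℕ → ℕ → ℕ → ℕ → ℕ → Prop) (hP : ∀ m, DenP m (P m)) (E : ℕ → ℕ)
    (hE : ∀ m r n k, r ≤ L → n ≤ K → k ≤ m → P m r n k (E m)) :
    HRed A B W mom E (6 ^ L) := by
  intro u hu v hv i j m hi hm
  have hs := hAB u hu v hv
  have hL := hAB' u hu v hv
  obtain ⟨n, n1, n2, n3, n4⟩ := redP u v (hA u hu) (hB v hv) i j m hi hm (P m) (hP m) (E m)
    fun r k hr hk => hE m r _ k (hr.trans hL) hs (by omega)
  have hsub : n.support ⊆ W := fun w hw => hW w (n1 w hw).1 ((n1 w hw).2.1.trans hs)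
    ((n1 w hw).2.2.trans hL)
  refine ⟨fun l => n l, ?_, fun p hp hmp => ?_, fun φ => ?_⟩
  · rw [sum_coe_sort W fun l => |n l|]
    have h1 : ∑ l ∈ W, |n l| = n.sum fun _ z => |z| :=
      (Finsupp.sum_of_support_subset n hsub _ fun _ _ => abs_zero).symm
    rw [h1]
    refine n2.trans ?_
    have h2 : (3 : ℤ) ^ (u.length + v.length) * 2 ^ (u.length + v.length) ≤ 6 ^ L := by
      rw [← mul_pow]
      exact pow_le_pow_right₀ (by norm_num) hL
    push_cast
    rw [mul_assoc, mul_assoc (6 ^ L : ℤ)]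
    exact mul_le_mul_of_nonneg_right h2 (by positivity)
  · have h3 := n3 p hp hmp
    rw [Finsupp.sum_of_support_subset n hsub _ fun _ _ => by rw [Int.cast_zero, zero_mul]] at h3
    rw [sum_coe_sort W fun l => ((n l : ℤ) : ZMod p) * fz p l]
    exact h3
  · have h3 := n4 φ (i + j + 1) le_rfl
    rw [Finsupp.sum_of_support_subset n hsub _ fun _ _ => by rw [Int.cast_zero, zero_mul]] at h3
    rw [sum_coe_sort W fun l => ((n l : ℤ) : ℚ) * φ l]
    exact h3

/-- the reduction for words `u ∈ A`, `v ∈ B` of total weight at most `K` -/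
theorem hred_of (A B W : Finset (List ℕ)) (K : ℕ) (hA : ∀ u ∈ A, ∀ a ∈ u, 1 ≤ a)
    (hB : ∀ v ∈ B, ∀ a ∈ v, 1 ≤ a) (hAB : ∀ u ∈ A, ∀ v ∈ B, u.sum + v.sum ≤ K)
    (hW : ∀ w : List ℕ, (∀ a ∈ w, 1 ≤ a) → w.sum ≤ K → w ∈ W) :
    HRed A B W mom (fun m => Nat.lcmUpto m ^ K) (6 ^ K) :=
  hred_gen A B W K K hA hB hAB
    (fun u hu v hv => by
      have h1 := length_le_sum (hA u hu)
      have h2 := length_le_sum (hB v hv)
      have h3 := hAB u hu v hv
      omega)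
    (fun w h1 h2 _ => hW w h1 h2) (fun m _ n k N => k ≤ m ∧ Nat.lcmUpto m ^ n ∣ N) denP_lcm _
    fun _ _ _ _ _ hn hk => ⟨hk, pow_dvd_pow _ hn⟩

/-- the data of the reduction for all words of bounded weight -/
theorem hexp : HExp mom := by
  refine ⟨mom_rec, fun w => ⟨6 ^ (2 * w + 3), hred_of (Wd w) (Wd (w + 3)) (Wd (2 * w + 3))
    (2 * w + 3) (fun u hu => (mem_Wd.1 hu).1) (fun v hv => (mem_Wd.1 hv).1)
    (fun u hu v hv => ?_) (fun x h1 h2 => mem_Wd.2 ⟨h1, h2⟩)⟩⟩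
  have h1 := (mem_Wd.1 hu).2
  have h2 := (mem_Wd.1 hv).2
  omega

end Pool.MZFin
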