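import Pool.Agent.Lib.MZFin.FIneq
import Pool.Agent.Lib.MZFin.FRec
import Pool.Agent.Lib.MZFin.RedExp
import Pool.Agent.Lib.MZFin.DVan

/-! MP_c511df_nt, exponent 1/3, module `FExp`: for every set `P` of primes of upper density at least
`δ > 0` (in the sense of sums of `log p`) the dimension `r` of the span of the finite multiple zeta
values of weight `≤ K`, seen modulo the primes of `P`, satisfies `δ^2 2^K ≤ 13500 (K + 2)^2 r^3`. -/

open Finset

namespace Pool.MZFin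

theorem isTop_Ws (n : ℕ) (v : List ℕ) (hv : v ∈ Ws n) : IsTop (Wd n) v := by
  obtain ⟨h1, h2⟩ := mem_Ws.1 hv
  refine ⟨mem_Wd.2 ⟨h1, h2.le⟩, fun u hu => ?_⟩
  obtain ⟨h3, h4⟩ := mem_Wd.1 hu
  rw [List.sum_append, h2] at h4
  cases u with
  | nil => rfl
  | cons a u =>
    have h5 := h3 a (List.mem_append_right _ List.mem_cons_self)
    rw [List.sum_cons] at h4
    omega

theorem fin_ineq (w w' : ℕ) {P : Set ℕ} {δ : ℝ} (hδ : 0 < δ) (hP : Freq P δ)
    (hcard : 2 * (dimF P (Wd (w + w')) * 2 ^ w' + 1) < 2 ^ w) (κ : ℕ) :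
    δ * κ * (1 - 2 * (κ : ℝ) / 2 ^ (w' - 1)) - 3 / 2 * Real.log 4 ≤
      (dimF P (Wd (w + w')) : ℝ) * (3 * Real.log 2 * (1 + (w + w'))) := by
  classical
  have hred : HRed (Wd w') (Wd w) (Wd (w + w')) mom (fun m => Nat.lcmUpto m ^ (w + w'))
      (6 ^ (w + w')) := by
    refine hred_of (Wd w') (Wd w) (Wd (w + w')) (w + w') (fun u hu => (mem_Wd.1 hu).1)
      (fun v hv => (mem_Wd.1 hv).1) (fun u hu v hv => ?_) (fun x h1 h2 => mem_Wd.2 ⟨h1, h2⟩)
    have h1 := (mem_Wd.1 hu).2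
    have h2 := (mem_Wd.1 hv).2
    omega
  have hE : ∀ m, 1 ≤ Nat.lcmUpto m ^ (w + w') := fun m =>
    Nat.one_le_pow _ _ (Nat.lcmUpto_pos m)
  have hcardT : ((Ws w').card : ℝ) = 2 ^ (w' - 1) := by
    rw [Ws_card]
    push_cast
    rfl
  have hTn : (Ws w').Nonempty := by
    rw [← Finset.card_pos, Ws_card]
    positivity
  have hl4 : Real.log 4 = 2 * Real.log 2 := by
    rw [show (4 : ℝ) = 2 ^ 2 by norm_num, Real.log_pow]
    norm_num
  have key : ∀ ε : ℝ, 0 < ε → δ * κ * (1 - 2 * (κ : ℝ) / 2 ^ (w' - 1)) - 3 / 2 * Real.log 4 ≤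
      (dimF P (Wd (w + w')) : ℝ) *
        (3 * Real.log 2 + 3 / 2 * ((Real.log 4 + ε) * (w + w'))) := by
    intro ε hε
    obtain ⟨m0, hm0⟩ := lcm_exp ε hε
    rw [← hcardT]
    refine main_ineqF (Wd w') (Wd w) (Wd (w + w')) (tc1_Wd _) (tc1_Wd _) (Ws w') (isTop_Ws w')
      hTn (tc1_Wd _).1 mom (fun φ h0 => mom_recE φ h0) _ hE _ hred _ ⟨m0, fun m hm => ?_⟩ P
      (fun n => hP.exists_prime hδ n) (by rw [Wd_card, Wd_card]; exact hcard) δ hδ.le
      (fun X0 => ?_) κ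
    · have h1 := hm0 m hm
      have h2 : (0 : ℝ) ≤ ((Nat.lcmUpto m : ℕ) : ℝ) := Nat.cast_nonneg _
      calc (((Nat.lcmUpto m) ^ (w + w') : ℕ) : ℝ) = ((Nat.lcmUpto m : ℕ) : ℝ) ^ (w + w') := by
            push_cast
            rfl
        _ ≤ (Real.exp ((Real.log 4 + ε) * m)) ^ (w + w') := pow_le_pow_left₀ h2 h1 _
        _ = Real.exp ((Real.log 4 + ε) * (w + w') * m) := by
            rw [← Real.exp_nat_mul]
            congr 1
            push_cast
            ring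
    · obtain ⟨X, h1, h2⟩ := hP X0
      refine ⟨X, h1, ?_⟩
      rw [lsum_eq] at h2
      exact h2
  by_contra hcon
  push Not at hcon
  set r : ℝ := (dimF P (Wd (w + w')) : ℝ) with hr
  have hr0 : 0 ≤ r := Nat.cast_nonneg _
  set L : ℝ := δ * κ * (1 - 2 * (κ : ℝ) / 2 ^ (w' - 1)) - 3 / 2 * Real.log 4 with hL
  set g : ℝ := L - r * (3 * Real.log 2 * (1 + (w + w'))) with hg
  have hg0 : 0 < g := by
    rw [hg]
    linarith
  set s : ℝ := r * (3 / 2 * (w + w')) + 1 with hs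
  have hs0 : 0 < s := by positivity
  have h1 := key (g / (2 * s)) (by positivity)
  have h2 : r * (3 * Real.log 2 + 3 / 2 * ((Real.log 4 + g / (2 * s)) * (w + w'))) =
      r * (3 * Real.log 2 * (1 + (w + w'))) + (s - 1) * (g / (2 * s)) := by
    rw [hs, hl4]
    ring
  rw [h2] at h1
  have h3 : (s - 1) * (g / (2 * s)) < g := by
    have h4 : s * (g / (2 * s)) = g / 2 := by
      field_simp
    have h5 : 0 < g / (2 * s) := by positivity
    nlinarith
  rw [hg] at h3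
  linarith

/-- the general bound, exponent `1/3` -/
theorem fin_growth {P : Set ℕ} {δ : ℝ} (hδ : 0 < δ) (hP : Freq P δ) (K : ℕ) :
    δ ^ 2 * 2 ^ K ≤ 13500 * (K + 2) ^ 2 * (dimF P (Wd K) : ℝ) ^ 3 := by
  have hl2 : 0 < Real.log 2 := Real.log_pos (by norm_num)
  have hl2' : Real.log 2 < 0.6931471808 := Real.log_two_lt_d9
  have hl2'' : 0.6931471803 < Real.log 2 := Real.log_two_gt_d9
  have hl4 : Real.log 4 = 2 * Real.log 2 := by
    rw [show (4 : ℝ) = 2 ^ 2 by norm_num, Real.log_pow]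
    norm_num
  -- the density is at most `log 4`
  have hδ4 : δ ≤ Real.log 4 := by
    obtain ⟨X, hX1, hX2⟩ := hP 1
    have h1 := lsum_le P X
    have h2 : (0 : ℝ) < X := by exact_mod_cast hX1
    exact le_of_mul_le_mul_right (hX2.trans h1) h2
  have hr1 : 1 ≤ dimF P (Wd K) := dimF_pos P (fun n => hP.exists_prime hδ n) (tc1_Wd K).1
  have hr1' : (1 : ℝ) ≤ (dimF P (Wd K) : ℝ) := by exact_mod_cast hr1
  obtain ⟨r, hr⟩ : ∃ r, r = dimF P (Wd K) := ⟨_, rfl⟩
  rw [← hr] at hr1 hr1' ⊢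
  have hK0 : (0 : ℝ) ≤ K := Nat.cast_nonneg _
  set a : ℝ := 48 * Real.log 2 * (K + 2) / δ with ha
  have ha1 : 48 ≤ a := by
    rw [ha, le_div_iff₀ hδ]
    nlinarith
  have har : 0 < a * r := by positivity
  -- the smallest exponent with `2^w' > a r`
  have hex : ∃ n : ℕ, a * r < 2 ^ n := pow_unbounded_of_one_lt _ (by norm_num)
  classical
  obtain ⟨w', hw'⟩ : ∃ w', w' = Nat.find hex := ⟨_, rfl⟩
  have h1 : a * r < 2 ^ w' := by
    rw [hw']
    exact Nat.find_spec hex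
  have har48 : 48 ≤ a * r := by nlinarith
  have hw3 : 5 ≤ w' := by
    by_contra hlt
    have h2 : (2 : ℝ) ^ w' ≤ 2 ^ 5 := pow_le_pow_right₀ (by norm_num) (by omega)
    norm_num at h2
    linarith
  have h2 : (2 : ℝ) ^ w' ≤ 2 * (a * r) := by
    have h3 := Nat.find_min hex (m := w' - 1) (by omega)
    push Not at h3
    have h4 : (2 : ℝ) ^ w' = 2 * 2 ^ (w' - 1) := by
      rw [← pow_succ', Nat.sub_add_cancel (by omega)]
    rw [h4]
    linarith
  have hfin : (2 : ℝ) ^ K ≤ 12 * a ^ 2 * (r : ℝ) ^ 3 := by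
    rcases Nat.lt_or_ge K w' with hlt | hge
    · have h3 : (2 : ℝ) ^ K ≤ 2 ^ w' := pow_le_pow_right₀ (by norm_num) hlt.le
      have h4 : a * r ≤ (a * r) ^ 2 := by nlinarith
      have h5 : (a * r) ^ 2 ≤ a ^ 2 * (r : ℝ) ^ 3 := by
        have : (r : ℝ) ^ 2 ≤ (r : ℝ) ^ 3 := pow_le_pow_right₀ hr1' (by norm_num)
        calc (a * r) ^ 2 = a ^ 2 * (r : ℝ) ^ 2 := by ring
          _ ≤ _ := mul_le_mul_of_nonneg_left this (by positivity)
      have h6 : 0 ≤ a ^ 2 * (r : ℝ) ^ 3 := by positivity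
      linarith
    · obtain ⟨w, rfl⟩ : ∃ w, K = w + w' := ⟨K - w', by omega⟩
      have hnot : ¬ 2 * (r * 2 ^ w' + 1) < 2 ^ w := by
        intro hcard
        rw [hr] at hcard
        have h3 := fin_ineq w w' hδ hP hcard (2 ^ (w' - 3))
        rw [← hr] at h3
        have h4 : 2 * (((2 ^ (w' - 3) : ℕ)) : ℝ) / 2 ^ (w' - 1) = 1 / 2 := by
          have h5 : (2 : ℝ) ^ (w' - 1) = 4 * 2 ^ (w' - 3) := by
            rw [show w' - 1 = (w' - 3) + 2 by omega, pow_add]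
            ring
          rw [h5]
          push_cast
          field_simp
          norm_num
        rw [h4] at h3
        have h5 : (2 : ℝ) ^ w' = 8 * 2 ^ (w' - 3) := by
          rw [show w' = (w' - 3) + 3 by omega, pow_add, Nat.add_sub_cancel]
          ring
        push_cast at h3 h1 ha hK0
        have h6 : δ * 2 ^ w' ≤ 48 * Real.log 2 * (r * ((w : ℝ) + w' + 1) + 1) := by
          rw [h5]
          rw [hl4] at h3
          linarith
        have h7 : δ * (a * r) < δ * 2 ^ w' := mul_lt_mul_of_pos_left h1 hδ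
        have h8 : δ * (a * r) = 48 * Real.log 2 * ((w : ℝ) + w' + 2) * r := by
          rw [ha]
          field_simp
        rw [h8] at h7
        nlinarith
      have h3 : 2 ^ w ≤ 2 * (r * 2 ^ w' + 1) := not_lt.1 hnot
      have h4 : (2 : ℝ) ^ w ≤ 2 * (r * 2 ^ w' + 1) := by exact_mod_cast h3
      have h5 : (2 : ℝ) ≤ r * 2 ^ w' := by
        have h6 : (2 : ℝ) ^ 1 ≤ 2 ^ w' := pow_le_pow_right₀ (by norm_num) (by omega)
        nlinarith
      have h6 : (0 : ℝ) < 2 ^ w' := by positivity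
      calc (2 : ℝ) ^ (w + w') = 2 ^ w * 2 ^ w' := pow_add _ _ _
        _ ≤ (3 * (r * 2 ^ w')) * 2 ^ w' := mul_le_mul_of_nonneg_right (by linarith) h6.le
        _ = 3 * r * (2 ^ w' * 2 ^ w') := by ring
        _ ≤ 3 * r * ((2 * (a * r)) * (2 * (a * r))) := by
            refine mul_le_mul_of_nonneg_left ?_ (by positivity)
            exact mul_le_mul h2 h2 h6.le (by positivity)
        _ = 12 * a ^ 2 * (r : ℝ) ^ 3 := by ring
  have h3 : δ ^ 2 * 2 ^ K ≤ δ ^ 2 * (12 * a ^ 2 * (r : ℝ) ^ 3) :=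
    mul_le_mul_of_nonneg_left hfin (by positivity)
  have h4 : δ ^ 2 * (12 * a ^ 2 * (r : ℝ) ^ 3) =
      12 * (48 * Real.log 2) ^ 2 * (K + 2) ^ 2 * (r : ℝ) ^ 3 := by
    rw [ha]
    field_simp
  have h5 : 12 * (48 * Real.log 2) ^ 2 ≤ 13500 := by nlinarith
  calc δ ^ 2 * 2 ^ K ≤ 12 * (48 * Real.log 2) ^ 2 * (K + 2) ^ 2 * (r : ℝ) ^ 3 := h3.trans_eq h4
    _ = 12 * (48 * Real.log 2) ^ 2 * ((K + 2) ^ 2 * (r : ℝ) ^ 3) := by ring
    _ ≤ 13500 * ((K + 2) ^ 2 * (r : ℝ) ^ 3) := mul_le_mul_of_nonneg_right h5 (by positivity)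
    _ = _ := by ring

end Pool.MZFin
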