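import Pool.Agent.Lib.MZFin.FZst

/-! MP_c511df_nt, exponent 1/3, module `FInd` (150 lines): the functionals of the first coordinate are
linearly independent modulo the functionals of the other coordinates.

PROOF. Let `G = Fin (D/2) × T`. `φ 0 w = if h : w ∈ W then ψ0 ⟨w, h⟩ else 0` (rational), `φ (i+1)` in the
same way from `ψ i` (`i < r'`), `φ i = 0` for `i > r'`; `φ 0 [] = d0 ≠ 0`, `φ (i+1) [] = 0`, `φ i [c] = 0` for
`c ≥ 1`. So `RecE d0 (mom (φ 0))`, `RecE 0 (mom (φ i))`. Put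
`P 0 v = ∑_(j : Fin (D/2)) C (ζ (j, v)) * bq (j+1)`, `P (i+1) v = ∑_j C (ξ (i, (j, v))) * bq (j+1)` for
`v ∈ T` and `0` for `v ∉ T` (and for `i > r'`): degrees `≤ D/2` (`bq_natDegree`,
`natDegree_sum_le_of_forall_le`). For `q = (i0, u)`: by `hn` with `φ = φ i`
(`∑_l ψ_i l * n g q l = e0 * Lmom (mom (φ i) g.2 u) (bq (g.1+1) * bq i0)`) the hypothesis says
`e0 * ℒ (bq i0) = 0`, where `ℒ : ℚ[X] →ₗ[ℚ] ℚ`, `ℒ f = ∑_(i ≤ r') ∑_(v ∈ S) Lmom (mom (φ i) v u) (P i v * f)`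
(only `v ∈ T ⊆ S` count). By `bq_test` (`E = D - 1`) `ℒ (X^n) = 0` for `n < D`, and
`Lmom m (P * X^n) = ∑_(k ∈ range (D/2+1)) P.coeff k * m (k+n)` (as in `PSpan`, step (3)). `zstar` with
`r = r' + 1` gives `P 0 v = 0` for `v ∈ T`, and `bq_lin` gives `ζ = 0`. -/

/-! MP_c511df_nt, exponent 1/3, module `FInd` (150 lines): the functionals of the first coordinate are
linearly independent modulo the functionals of the other coordinates.

PROOF. Let `G = Fin (D/2) × T`. `φ 0 w = if h : w ∈ W then ψ0 ⟨w, h⟩ else 0` (rational), `φ (i+1)` in the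
same way from `ψ i` (`i < r'`), `φ i = 0` for `i > r'`; `φ 0 [] = d0 ≠ 0`, `φ (i+1) [] = 0`, `φ i [c] = 0` for
`c ≥ 1`. So `RecE d0 (mom (φ 0))`, `RecE 0 (mom (φ i))`. Put
`P 0 v = ∑_(j : Fin (D/2)) C (ζ (j, v)) * bq (j+1)`, `P (i+1) v = ∑_j C (ξ (i, (j, v))) * bq (j+1)` for
`v ∈ T` and `0` for `v ∉ T` (and for `i > r'`): degrees `≤ D/2` (`bq_natDegree`,
`natDegree_sum_le_of_forall_le`). For `q = (i0, u)`: by `hn` with `φ = φ i`
(`∑_l ψ_i l * n g q l = e0 * Lmom (mom (φ i) g.2 u) (bq (g.1+1) * bq i0)`) the hypothesis says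
`e0 * ℒ (bq i0) = 0`, where `ℒ : ℚ[X] →ₗ[ℚ] ℚ`, `ℒ f = ∑_(i ≤ r') ∑_(v ∈ S) Lmom (mom (φ i) v u) (P i v * f)`
(only `v ∈ T ⊆ S` count). By `bq_test` (`E = D - 1`) `ℒ (X^n) = 0` for `n < D`, and
`Lmom m (P * X^n) = ∑_(k ∈ range (D/2+1)) P.coeff k * m (k+n)` (as in `PSpan`, step (3)). `zstar` with
`r = r' + 1` gives `P 0 v = 0` for `v ∈ T`, and `bq_lin` gives `ζ = 0`. -/

open Finset Polynomial

namespace Pool.MZFin

private lemma fi_coeff (m : ℕ → ℚ) (a : ℚ[X]) (D n : ℕ) (h : a.natDegree ≤ D) :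
    Lmom m (a * X ^ n) = ∑ k ∈ Finset.range (D + 1), a.coeff k * m (k + n) := by
  have h1 : (a * X ^ n).natDegree < n + (D + 1) := by
    refine lt_of_le_of_lt natDegree_mul_le ?_
    rw [natDegree_X_pow]
    omega
  rw [Lmom_apply m _ _ h1, Finset.sum_range_add]
  have h2 : ∑ k ∈ Finset.range n, (a * X ^ n).coeff k * m k = 0 := by
    refine Finset.sum_eq_zero fun k hk => ?_
    have h3 := Finset.mem_range.1 hk
    rw [coeff_mul_X_pow', if_neg (by omega), zero_mul]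
  rw [h2, zero_add]
  refine Finset.sum_congr rfl fun k _ => ?_
  rw [Nat.add_comm n k, coeff_mul_X_pow]

private noncomputable def fiP (T : Finset (List ℕ)) (N : ℕ) (c : Fin N × T → ℚ) (v : List ℕ) :
    ℚ[X] :=
  if h : v ∈ T then ∑ j : Fin N, C (c (j, ⟨v, h⟩)) * bq ((j : ℕ) + 1) else 0

private def fiF (W : Finset (List ℕ)) (F : W → ℤ) (w : List ℕ) : ℚ :=
  if h : w ∈ W then ((F ⟨w, h⟩ : ℤ) : ℚ) else 0

private lemma fiP_natDegree (T : Finset (List ℕ)) (N : ℕ) (c : Fin N × T → ℚ) (v : List ℕ) :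
    (fiP T N c v).natDegree ≤ N := by
  unfold fiP
  split_ifs with h
  · refine natDegree_sum_le_of_forall_le _ _ fun i _ => ?_
    refine (natDegree_C_mul_le _ _).trans ?_
    rw [bq_natDegree]
    exact i.2
  · rw [natDegree_zero]
    exact Nat.zero_le _

/-- one family of forms -/
private lemma fi_one (S T : Finset (List ℕ)) (hTS : T ⊆ S) (N : ℕ) (W : Finset (List ℕ))
    (F : W → ℤ) (c : Fin N × T → ℚ) (mm : List ℕ → ℕ → ℚ) (e0 : ℚ) (b : ℚ[X])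
    (n : Fin N × T → W → ℤ)
    (hn : ∀ g, ∑ l : W, (n g l : ℚ) * fiF W F l = e0 * Lmom (mm g.2) (bq ((g.1 : ℕ) + 1) * b)) :
    e0 * ∑ v ∈ S, Lmom (mm v) (fiP T N c v * b) =
      ∑ g, c g * ((∑ l : W, F l * n g l : ℤ) : ℚ) := by
  have h1 : ∑ v ∈ S, Lmom (mm v) (fiP T N c v * b) =
      ∑ v ∈ T, Lmom (mm v) (fiP T N c v * b) := by
    refine (Finset.sum_subset hTS fun v _ hv => ?_).symm
    unfold fiP
    rw [dif_neg hv, zero_mul, map_zero]
  have h2 : ∀ v : T, Lmom (mm v) (fiP T N c v * b) =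
      ∑ j : Fin N, c (j, v) * Lmom (mm v) (bq ((j : ℕ) + 1) * b) := by
    intro v
    unfold fiP
    rw [dif_pos v.2, Finset.sum_mul, map_sum]
    refine Finset.sum_congr rfl fun j _ => ?_
    rw [mul_assoc, ← smul_eq_C_mul, map_smul, smul_eq_mul]
  rw [h1, ← Finset.sum_coe_sort T (fun v => Lmom (mm v) (fiP T N c v * b)), Finset.mul_sum,
    Fintype.sum_prod_type_right]
  refine Finset.sum_congr rfl fun v _ => ?_
  rw [h2 v, Finset.mul_sum]
  refine Finset.sum_congr rfl fun j _ => ?_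
  have h3 := hn (j, v)
  have h4 : ((∑ l : W, F l * n (j, v) l : ℤ) : ℚ) = ∑ l : W, (n (j, v) l : ℚ) * fiF W F l := by
    rw [Int.cast_sum]
    refine Finset.sum_congr rfl fun l _ => ?_
    unfold fiF
    rw [dif_pos l.2, Int.cast_mul, mul_comm]
  rw [h4, h3]
  ring

theorem ind_forms (S S0 : Finset (List ℕ)) (hS : TC1 S) (hS0 : TC1 S0) (T : Finset (List ℕ))
    (hT : ∀ v ∈ T, IsTop S v) (r' : ℕ) (hcard : 2 * ((r' + 1) * S.card + 1) < S0.card) :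
    ∃ D0 : ℕ, ∀ D : ℕ, D0 ≤ D → ∀ (W : Finset (List ℕ)) (hW : [] ∈ W)
      (mom : (List ℕ → ℚ) → List ℕ → List ℕ → ℕ → ℚ)
      (_ : ∀ φ : List ℕ → ℚ, (∀ c, 1 ≤ c → φ [c] = 0) → RecE (φ []) (mom φ))
      (ψ0 : W → ℤ) (ψ : Fin r' → W → ℤ), ψ0 ⟨[], hW⟩ ≠ 0 → (∀ i, ψ i ⟨[], hW⟩ = 0) →
      (∀ c (h : [c] ∈ W), 1 ≤ c → ψ0 ⟨[c], h⟩ = 0 ∧ ∀ i, ψ i ⟨[c], h⟩ = 0) →
      ∀ (n : Fin (D / 2) × T → Fin D × S0 → W → ℤ) (e0 : ℚ), e0 ≠ 0 →
      (∀ g q (φ : List ℕ → ℚ), ∑ l : W, (n g q l : ℚ) * φ l =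
        e0 * Lmom (mom φ g.2 q.2) (bq ((g.1 : ℕ) + 1) * bq (q.1 : ℕ))) →
      ∀ (ξ : Fin r' × (Fin (D / 2) × T) → ℚ) (ζ : Fin (D / 2) × T → ℚ),
        (∀ q, ∑ k, ξ k * ((∑ l : W, ψ k.1 l * n k.2 q l : ℤ) : ℚ) +
          ∑ g, ζ g * ((∑ l : W, ψ0 l * n g q l : ℤ) : ℚ) = 0) → ζ = 0 := by
  obtain ⟨D0, hD0⟩ := zstar S S0 hS hS0 (r' + 1) (Nat.succ_le_succ (Nat.zero_le _)) hcard
  refine ⟨max D0 1, fun D hD W hW mom hmom ψ0 ψ hψ0 hψ hψc n e0 he0 hn ξ ζ hsum => ?_⟩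
  have hD1 : D0 ≤ D := (le_max_left _ _).trans hD
  have hD2 : 1 ≤ D := (le_max_right _ _).trans hD
  have hTS : T ⊆ S := fun v hv => (hT v hv).1
  -- the functionals
  set φ : ℕ → List ℕ → ℚ := fun i => match i with
    | 0 => fiF W ψ0
    | i + 1 => if hi : i < r' then fiF W (ψ ⟨i, hi⟩) else fun _ => 0 with hφ
  have hφ0 : φ 0 = fiF W ψ0 := rfl
  have hφs : ∀ i (hi : i < r'), φ (i + 1) = fiF W (ψ ⟨i, hi⟩) := by
    intro i hi
    show (if hi : i < r' then fiF W (ψ ⟨i, hi⟩) else fun _ => 0) = _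
    rw [dif_pos hi]
  set P : ℕ → List ℕ → ℚ[X] := fun i => match i with
    | 0 => fiP T (D / 2) ζ
    | i + 1 => if hi : i < r' then fiP T (D / 2) (fun g => ξ (⟨i, hi⟩, g)) else fun _ => 0 with hP
  have hP0 : P 0 = fiP T (D / 2) ζ := rfl
  have hPs : ∀ i (hi : i < r'), P (i + 1) = fiP T (D / 2) (fun g => ξ (⟨i, hi⟩, g)) := by
    intro i hi
    show (if hi : i < r' then fiP T (D / 2) (fun g => ξ (⟨i, hi⟩, g)) else fun _ => 0) = _
    rw [dif_pos hi]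
  have hPn : ∀ i, ¬ i < r' → P (i + 1) = fun _ => 0 := by
    intro i hi
    show (if hi : i < r' then fiP T (D / 2) (fun g => ξ (⟨i, hi⟩, g)) else fun _ => 0) = _
    rw [dif_neg hi]
  have hdeg : ∀ i v, (P i v).natDegree ≤ D / 2 := by
    intro i v
    cases i with
    | zero => rw [hP0]; exact fiP_natDegree _ _ _ _
    | succ i =>
      by_cases hi : i < r'
      · rw [hPs i hi]; exact fiP_natDegree _ _ _ _
      · rw [hPn i hi]
        show (0 : ℚ[X]).natDegree ≤ D / 2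
        rw [natDegree_zero]
        exact Nat.zero_le _
  -- the recursions
  have hR0 : RecE (φ 0 []) (mom (φ 0)) := by
    refine hmom (φ 0) fun c hc => ?_
    rw [hφ0]
    unfold fiF
    by_cases h : [c] ∈ W
    · rw [dif_pos h, (hψc c h hc).1, Int.cast_zero]
    · rw [dif_neg h]
  have hRs : ∀ i, 1 ≤ i → i < r' + 1 → RecE 0 (mom (φ i)) := by
    intro i hi1 hi2
    obtain ⟨i, rfl⟩ : ∃ k, i = k + 1 := ⟨i - 1, by omega⟩
    have hi : i < r' := by omega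
    have h0 : φ (i + 1) [] = 0 := by
      rw [hφs i hi]
      unfold fiF
      rw [dif_pos hW, hψ, Int.cast_zero]
    have h1 := hmom (φ (i + 1)) fun c hc => by
      rw [hφs i hi]
      unfold fiF
      by_cases h : [c] ∈ W
      · rw [dif_pos h, (hψc c h hc).2, Int.cast_zero]
      · rw [dif_neg h]
    rwa [h0] at h1
  have hd0 : φ 0 [] ≠ 0 := by
    rw [hφ0]
    unfold fiF
    rw [dif_pos hW]
    exact_mod_cast hψ0
  -- the linear functional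
  have hvan : ∀ u ∈ S0, ∀ k < D, ∑ i ∈ range (r' + 1), ∑ v ∈ S, ∑ j ∈ range (D / 2 + 1),
      (P i v).coeff j * mom (φ i) v u (j + k) = 0 := by
    intro u hu k hk
    set L : ℚ[X] →ₗ[ℚ] ℚ := ∑ i ∈ range (r' + 1), ∑ v ∈ S,
      (Lmom (mom (φ i) v u)) ∘ₗ (LinearMap.mulLeft ℚ (P i v)) with hL
    have hLapp : ∀ f, L f = ∑ i ∈ range (r' + 1), ∑ v ∈ S,
        Lmom (mom (φ i) v u) (P i v * f) := by
      intro f
      simp [hL, LinearMap.sum_apply]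
    have hLb : ∀ j ≤ D - 1, L (bq j) = 0 := by
      intro j hj
      have hjD : j < D := by omega
      have h1 := hsum (⟨j, hjD⟩, ⟨u, hu⟩)
      have h2 : e0 * L (bq j) = 0 := by
        rw [hLapp, Finset.sum_range_succ', mul_add]
        rw [← h1]
        congr 1
        · rw [Finset.mul_sum, Fintype.sum_prod_type, Finset.sum_range]
          refine Finset.sum_congr rfl fun i _ => ?_
          rw [hPs i i.2, hφs i i.2]
          exact fi_one S T hTS (D / 2) W (ψ i) (fun g => ξ (i, g))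
            (fun v => mom (fiF W (ψ i)) v u) e0 (bq j)
            (fun g => n g (⟨j, hjD⟩, ⟨u, hu⟩))
            (fun g => hn g (⟨j, hjD⟩, ⟨u, hu⟩) (fiF W (ψ i)))
        · rw [hP0, hφ0]
          exact fi_one S T hTS (D / 2) W ψ0 ζ
            (fun v => mom (fiF W ψ0) v u) e0 (bq j)
            (fun g => n g (⟨j, hjD⟩, ⟨u, hu⟩))
            (fun g => hn g (⟨j, hjD⟩, ⟨u, hu⟩) (fiF W ψ0))
      exact (mul_eq_zero.1 h2).resolve_left he0
    have hLX : L (X ^ k) = 0 :=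
      bq_test L (D - 1) hLb _ (by rw [natDegree_X_pow]; omega)
    rw [hLapp] at hLX
    rw [← hLX]
    refine Finset.sum_congr rfl fun i _ => Finset.sum_congr rfl fun v _ => ?_
    exact (fi_coeff _ _ _ _ (hdeg i v)).symm
  have hzero := hD0 D hD1 (fun i => mom (φ i)) (φ 0 []) hd0 hR0 hRs P hdeg hvan
  funext g
  obtain ⟨j, v⟩ := g
  have h1 := hzero v (hT v v.2)
  rw [hP0] at h1
  unfold fiP at h1
  rw [dif_pos v.2] at h1
  have h2 := bq_lin (D / 2) (fun j => ζ (j, v)) h1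
  exact congrFun h2 j

end Pool.MZFin
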