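import Pool.Agent.Lib.MZFin.FCore
import Pool.Agent.Lib.MZFin.PChb

/-! MP_c511df_nt, exponent 1/3, module `FIneq`: the main inequality. With `T0 = T.card`, `r = dimF P W`,
`S = ∑_(p ∈ P, p ≤ n) log p`, `n = κ D`, `log Y = 2 κ S / T0 + (r - 1) log H`, `H = C' D 2^(3D) E m`:
`S (1 - 2 κ / T0) ≤ D (r (3 log 2 + (3/2) η) + (3/2) log 4) + o(D)`. -/

open Finset

namespace Pool.MZFin

private theorem fineq_asymp (r : ℕ) (K0 g : ℝ) (hg : 0 < g) : ∃ D1 : ℕ, ∀ D : ℕ, D1 ≤ D →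
    K0 + (r : ℝ) * Real.log D < g * D := by
  have hr : (0 : ℝ) ≤ r := Nat.cast_nonneg r
  have hc : 0 < g / (2 * ((r : ℝ) + 1)) := by positivity
  have h := Real.isLittleO_log_id_atTop.def hc
  have h2 := (tendsto_natCast_atTop_atTop (R := ℝ)).eventually h
  obtain ⟨m1, hm1⟩ := Filter.eventually_atTop.1 h2
  obtain ⟨m2, hm2⟩ := exists_nat_gt (2 * K0 / g)
  refine ⟨max m1 m2, fun D hD => ?_⟩
  have h3 := hm1 D ((le_max_left _ _).trans hD)
  rw [Real.norm_eq_abs, abs_of_nonneg (Real.log_natCast_nonneg D), id, Real.norm_eq_abs,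
    abs_of_nonneg (Nat.cast_nonneg D)] at h3
  have h4 : (m2 : ℝ) ≤ D := by exact_mod_cast (le_max_right _ _).trans hD
  have h5 : 2 * K0 / g < D := lt_of_lt_of_le hm2 h4
  have h6 : 2 * K0 < D * g := (div_lt_iff₀ hg).mp h5
  have h7 : (r : ℝ) * Real.log D ≤ g / 2 * D := by
    calc (r : ℝ) * Real.log D ≤ r * (g / (2 * ((r : ℝ) + 1)) * D) :=
          mul_le_mul_of_nonneg_left h3 hr
      _ = (r / ((r : ℝ) + 1)) * (g / 2 * D) := by
          field_simp
      _ ≤ 1 * (g / 2 * D) := by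
          refine mul_le_mul_of_nonneg_right ?_ (by positivity)
          rw [div_le_one (by positivity)]
          linarith
      _ = g / 2 * D := one_mul _
  nlinarith [h6, h7]

private theorem fineq_prod (Q : Finset ℕ) (n : ℕ) (S : ℝ) (hQ : ∀ p ∈ Q, p.Prime ∧ p ≤ n)
    (hS : ∑ p ∈ Q, Real.log p ≤ S) :
    ((∏ p ∈ Q, p ^ p : ℕ) : ℝ) ≤ Real.exp (n * S) := by
  have h1 : ∏ p ∈ Q, p ^ p ≤ (∏ p ∈ Q, p) ^ n :=
    calc ∏ p ∈ Q, p ^ p ≤ ∏ p ∈ Q, p ^ n :=
          Finset.prod_le_prod' fun p hp => Nat.pow_le_pow_right (hQ p hp).1.pos (hQ p hp).2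
      _ = (∏ p ∈ Q, p) ^ n := Finset.prod_pow Q n fun p => p
  have h2 : ((∏ p ∈ Q, p : ℕ) : ℝ) ≤ Real.exp S := by
    rw [← Real.log_le_iff_le_exp]
    · rw [Nat.cast_prod, Real.log_prod]
      · exact hS
      · intro p hp
        have := (hQ p hp).1.pos
        positivity
    · exact_mod_cast Finset.prod_pos fun p hp => (hQ p hp).1.pos
  calc ((∏ p ∈ Q, p ^ p : ℕ) : ℝ) ≤ (((∏ p ∈ Q, p) ^ n : ℕ) : ℝ) := by exact_mod_cast h1
    _ = ((∏ p ∈ Q, p : ℕ) : ℝ) ^ n := by push_cast; rfl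
    _ ≤ (Real.exp S) ^ n := pow_le_pow_left₀ (Nat.cast_nonneg _) h2 n
    _ = Real.exp (n * S) := by rw [← Real.exp_nat_mul]


open Classical in
theorem main_ineqF (S S0 W : Finset (List ℕ)) (hS : TC1 S) (hS0 : TC1 S0) (T : Finset (List ℕ))
    (hT : ∀ v ∈ T, IsTop S v) (hTn : T.Nonempty) (hW : [] ∈ W)
    (mom : (List ℕ → ℚ) → List ℕ → List ℕ → ℕ → ℚ)
    (hmom : ∀ φ : List ℕ → ℚ, (∀ c, 1 ≤ c → φ [c] = 0) → RecE (φ []) (mom φ))
    (E : ℕ → ℕ) (hE : ∀ m, 1 ≤ E m) (C : ℕ) (h : HRed S S0 W mom E C) (η : ℝ)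
    (hη : ∃ m0 : ℕ, ∀ m : ℕ, m0 ≤ m → (E m : ℝ) ≤ Real.exp (η * m))
    (P : Set ℕ) (hPi : ∀ n : ℕ, ∃ p ∈ P, p.Prime ∧ n < p)
    (hcard : 2 * (dimF P W * S.card + 1) < S0.card) (δ : ℝ) (hδ : 0 ≤ δ)
    (hP : ∀ X0 : ℕ, ∃ X : ℕ, X0 ≤ X ∧
      δ * X ≤ ∑ p ∈ (range (X + 1)).filter (fun p => p ∈ P ∧ p.Prime), Real.log p)
    (κ : ℕ) :
    δ * κ * (1 - 2 * (κ : ℝ) / T.card) - 3 / 2 * Real.log 4 ≤
      (dimF P W : ℝ) * (3 * Real.log 2 + 3 / 2 * η) := by
  have hl4 : 0 < Real.log 4 := Real.log_pos (by norm_num)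
  have hl2 : 0 < Real.log 2 := Real.log_pos (by norm_num)
  have hη0 : 0 ≤ η := by
    obtain ⟨m0, hm0⟩ := hη
    have h1 := hm0 (max m0 1) (le_max_left _ _)
    have h2 : (1 : ℝ) ≤ (E (max m0 1) : ℝ) := by exact_mod_cast hE _
    have h3 : Real.exp 0 ≤ Real.exp (η * ((max m0 1 : ℕ) : ℝ)) := by
      rw [Real.exp_zero]
      exact h2.trans h1
    have h4 : 0 ≤ η * ((max m0 1 : ℕ) : ℝ) := Real.exp_le_exp.mp h3
    have h5 : (0 : ℝ) < ((max m0 1 : ℕ) : ℝ) := by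
      exact_mod_cast lt_of_lt_of_le Nat.zero_lt_one (le_max_right m0 1)
    by_contra hneg
    push Not at hneg
    nlinarith [h4, h5, hneg]
  have hr1 : 1 ≤ dimF P W := by
    by_contra hlt
    have h0 : Pi.single (⟨[], hW⟩ : W) 1 ∈ Rel P W := by
      have h1 : Module.finrank ℚ ((W → ℚ) ⧸ Rel P W) = 0 := by
        have : dimF P W = 0 := by omega
        exact this
      have h2 : Subsingleton ((W → ℚ) ⧸ Rel P W) := Module.finrank_zero_iff.1 h1
      rw [← Submodule.Quotient.mk_eq_zero]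
      exact Subsingleton.elim _ _
    obtain ⟨P0, h1⟩ := mem_Rel.1 h0
    obtain ⟨p, hp1, hp2, hp3⟩ := hPi P0
    have h2 := h1 p hp1 hp2 hp3
    rw [Finset.sum_eq_single (⟨[], hW⟩ : W)] at h2
    · have : Fact p.Prime := ⟨hp2⟩
      rw [Pi.single_eq_same, fz_nil, mul_one, rc_eq, Rat.cast_one] at h2
      exact one_ne_zero h2
    · intro b _ hb
      rw [Pi.single_eq_of_ne hb]
      simp [rc]
    · intro h3
      exact absurd (mem_univ _) h3
  obtain ⟨C', D0, P0, hC', hcore⟩ := coreF S S0 W hS hS0 T hT hTn hW mom hmom E hE C h P hPi hcard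
  obtain ⟨m0, hm0⟩ := hη
  set r := dimF P W with hrdef
  have hr : (1 : ℝ) ≤ (r : ℝ) := by exact_mod_cast hr1
  have hc0 : 0 ≤ 3 * Real.log 2 + 3 / 2 * η := by positivity
  by_contra hcon
  push Not at hcon
  have hT1 : 1 ≤ T.card := Finset.card_pos.2 hTn
  have hT1' : (0 : ℝ) < T.card := by exact_mod_cast hT1
  set ρ : ℝ := 1 - 2 * (κ : ℝ) / T.card with hρ
  have hrc : 0 ≤ (r : ℝ) * (3 * Real.log 2 + 3 / 2 * η) := mul_nonneg (by linarith) hc0
  have hpos : 0 < δ * κ * ρ := by linarith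
  have hδκ : 0 ≤ δ * κ := mul_nonneg hδ (Nat.cast_nonneg _)
  have hρ0 : 0 < ρ := by
    by_contra hneg
    push Not at hneg
    have := mul_nonpos_of_nonneg_of_nonpos hδκ hneg
    linarith
  have hρ1 : ρ ≤ 1 := by
    rw [hρ]
    have : 0 ≤ 2 * (κ : ℝ) / T.card := by positivity
    linarith
  have hκpos : 0 < κ := by
    rcases Nat.eq_zero_or_pos κ with h0 | h0
    · rw [h0, Nat.cast_zero, mul_zero, zero_mul] at hpos
      exact absurd hpos (lt_irrefl _)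
    · exact h0
  set g : ℝ := δ * κ * ρ - 3 / 2 * Real.log 4 -
    (r : ℝ) * (3 * Real.log 2 + 3 / 2 * η) with hgdef
  have hg : 0 < g := by
    rw [hgdef]
    linarith
  obtain ⟨D1, hD1⟩ := fineq_asymp r (2 * (δ * κ) + Real.log 4 + r * Real.log C' + r * η) g hg
  obtain ⟨X, hX, hXs⟩ := hP (2 * κ * (D1 + D0 + P0 + m0))
  obtain ⟨D', hD'def⟩ : ∃ D', D' = X / (2 * κ) + 1 := ⟨_, rfl⟩
  have h2κ : 0 < 2 * κ := by omega
  have hD2 : D1 + D0 + P0 + m0 ≤ X / (2 * κ) := by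
    rw [Nat.le_div_iff_mul_le h2κ, mul_comm]
    exact hX
  have hXle : X ≤ 2 * κ * D' := by
    have h1 := Nat.lt_div_mul_add (a := X) h2κ
    rw [hD'def]
    have h2 : 2 * κ * (X / (2 * κ) + 1) = X / (2 * κ) * (2 * κ) + 2 * κ := by ring
    omega
  have hleX : 2 * κ * D' ≤ X + 2 * κ := by
    have h1 := Nat.div_mul_le_self X (2 * κ)
    rw [hD'def]
    have h2 : 2 * κ * (X / (2 * κ) + 1) = X / (2 * κ) * (2 * κ) + 2 * κ := by ring
    omega
  obtain ⟨D, hDdef⟩ : ∃ D, D = 2 * D' := ⟨_, rfl⟩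
  have hDhalf : D / 2 = D' := by omega
  have hDpos : 1 ≤ D := by omega
  have hD'pos : 1 ≤ D' := by omega
  obtain ⟨m, hmdef⟩ : ∃ m, m = D + D / 2 + 1 := ⟨_, rfl⟩
  obtain ⟨n, hndef⟩ : ∃ n, n = 2 * κ * D' := ⟨_, rfl⟩
  have hDr : (1 : ℝ) ≤ D := by exact_mod_cast hDpos
  have hD'r : (1 : ℝ) ≤ D' := by exact_mod_cast hD'pos
  set U : ℝ := ∑ p ∈ (range (n + 1)).filter (fun p => p ∈ P ∧ p.Prime), Real.log p with hU
  have hU0 : 0 ≤ U := Finset.sum_nonneg fun p _ => Real.log_natCast_nonneg p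
  have hlog := log_prod P m n
  rw [← hU] at hlog
  have hC'r : (1 : ℝ) ≤ C' := by exact_mod_cast hC'
  have hEr : (1 : ℝ) ≤ (E m : ℝ) := by exact_mod_cast hE m
  obtain ⟨H, hHdef⟩ : ∃ H, H = C' * D * 2 ^ (3 * D) * E m := ⟨_, rfl⟩
  have hH1 : 1 ≤ H := by
    rw [hHdef]
    exact Nat.one_le_iff_ne_zero.2 (by
      have := hE m
      positivity)
  have hHr : (1 : ℝ) ≤ H := by exact_mod_cast hH1
  obtain ⟨Y, hYdef⟩ : ∃ Y, Y = ⌊Real.exp (2 * κ * U / T.card) * (H : ℝ) ^ (r - 1)⌋₊ := ⟨_, rfl⟩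
  have hY0 : 1 ≤ Real.exp (2 * κ * U / T.card) * (H : ℝ) ^ (r - 1) :=
    one_le_mul_of_one_le_of_one_le (Real.one_le_exp (by positivity)) (one_le_pow₀ hHr)
  have hY1 : 1 ≤ Y := by
    rw [hYdef, Nat.one_le_floor_iff]
    exact hY0
  have hYle : (Y : ℝ) ≤ Real.exp (2 * κ * U / T.card) * (H : ℝ) ^ (r - 1) := by
    rw [hYdef]
    exact Nat.floor_le (by linarith)
  have hYlt : Real.exp (2 * κ * U / T.card) * (H : ℝ) ^ (r - 1) < (Y : ℝ) + 1 := by
    rw [hYdef]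
    exact Nat.lt_floor_add_one _
  have hbox : (∏ p ∈ (range (n + 1)).filter (fun p => p ∈ P ∧ p.Prime ∧ m < p), p ^ p) *
      H ^ ((r - 1) * (T.card * (D / 2))) < (Y + 1) ^ (T.card * (D / 2)) := by
    rw [hDhalf]
    have h1 := fineq_prod ((range (n + 1)).filter (fun p => p ∈ P ∧ p.Prime ∧ m < p)) n U (by
      intro p hp
      obtain ⟨hp0, _, hp2, _⟩ := mem_filter.1 hp
      exact ⟨hp2, by have := mem_range.1 hp0; omega⟩) (by
      rw [hU]
      refine Finset.sum_le_sum_of_subset_of_nonneg ?_ fun p _ _ => Real.log_natCast_nonneg p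
      intro p hp
      obtain ⟨h1, h2, h3, _⟩ := mem_filter.1 hp
      exact mem_filter.2 ⟨h1, h2, h3⟩)
    have h2 : Real.exp (n * U) * (H : ℝ) ^ ((r - 1) * (T.card * D')) =
        (Real.exp (2 * κ * U / T.card) * (H : ℝ) ^ (r - 1)) ^ (T.card * D') := by
      rw [mul_pow, ← pow_mul, ← Real.exp_nat_mul]
      congr 2
      rw [hndef]
      push_cast
      field_simp
    have h3 : (Real.exp (2 * κ * U / T.card) * (H : ℝ) ^ (r - 1)) ^ (T.card * D') <
        ((Y : ℝ) + 1) ^ (T.card * D') :=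
      pow_lt_pow_left₀ hYlt (by linarith) (Nat.mul_ne_zero (by omega) (by omega))
    have h4 : (((∏ p ∈ (range (n + 1)).filter (fun p => p ∈ P ∧ p.Prime ∧ m < p), p ^ p) *
        H ^ ((r - 1) * (T.card * D')) : ℕ) : ℝ) < (((Y + 1) ^ (T.card * D') : ℕ) : ℝ) := by
      have h5 : (((∏ p ∈ (range (n + 1)).filter (fun p => p ∈ P ∧ p.Prime ∧ m < p), p ^ p) *
          H ^ ((r - 1) * (T.card * D')) : ℕ) : ℝ) ≤
          Real.exp (n * U) * (H : ℝ) ^ ((r - 1) * (T.card * D')) := by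
        rw [Nat.cast_mul, Nat.cast_pow H]
        exact mul_le_mul_of_nonneg_right h1 (by positivity)
      rw [h2] at h5
      refine lt_of_le_of_lt h5 ?_
      push_cast
      exact h3
    exact_mod_cast h4
  rw [hHdef, hmdef] at hbox
  have hcore2 := hcore D (by omega) Y hY1
    ((range (n + 1)).filter (fun p => p ∈ P ∧ p.Prime ∧ m < p)) (by
      intro p hp
      obtain ⟨_, hp1, hp2, hp3⟩ := mem_filter.1 hp
      exact ⟨hp1, hp2, by omega, by omega⟩) (by rw [hmdef]; exact hbox)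
  rw [← hmdef] at hcore2
  -- the sum over the primes up to `n`
  have hsum : δ * X ≤ U := by
    refine hXs.trans (Finset.sum_le_sum_of_subset_of_nonneg ?_ fun p _ _ =>
      Real.log_natCast_nonneg p)
    intro p hp
    obtain ⟨h1, h2⟩ := mem_filter.1 hp
    refine mem_filter.2 ⟨mem_range.2 ?_, h2⟩
    have := mem_range.1 h1
    omega
  have hprodpos : 0 < ∏ p ∈ (range (n + 1)).filter (fun p => p ∈ P ∧ p.Prime ∧ m < p), p := by
    refine Finset.prod_pos fun p hp => ?_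
    exact (mem_filter.1 hp).2.2.1.pos
  have hYr : (1 : ℝ) ≤ Y := by exact_mod_cast hY1
  have hlogH : Real.log H = Real.log C' + Real.log D + 3 * D * Real.log 2 + Real.log (E m) := by
    rw [hHdef]
    push_cast
    rw [Real.log_mul (by positivity) (by positivity), Real.log_mul (by positivity) (by positivity),
      Real.log_mul (by positivity) (by positivity), Real.log_pow]
    push_cast
    ring
  have hup : Real.log ((∏ p ∈ (range (n + 1)).filter (fun p => p ∈ P ∧ p.Prime ∧ m < p), p : ℕ) :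
      ℝ) ≤ Real.log H + Real.log Y := by
    have h1 : Real.log ((∏ p ∈ (range (n + 1)).filter (fun p => p ∈ P ∧ p.Prime ∧ m < p), p :
        ℕ) : ℝ) ≤ Real.log ((C' * D * Y * 2 ^ (3 * D) * E m : ℕ) : ℝ) :=
      Real.log_le_log (by exact_mod_cast hprodpos) (by exact_mod_cast hcore2)
    have h2 : ((C' * D * Y * 2 ^ (3 * D) * E m : ℕ) : ℝ) = (H : ℝ) * Y := by
      rw [hHdef]
      push_cast
      ring
    rw [h2, Real.log_mul (by positivity) (by positivity)] at h1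
    exact h1
  have hlogY : Real.log Y ≤ 2 * κ * U / T.card + (r - 1) * Real.log H := by
    have h1 : Real.log Y ≤ Real.log (Real.exp (2 * κ * U / T.card) * (H : ℝ) ^ (r - 1)) :=
      Real.log_le_log (by linarith) hYle
    rw [Real.log_mul (Real.exp_pos _).ne' (by positivity), Real.log_exp, Real.log_pow,
      Nat.cast_sub hr1, Nat.cast_one] at h1
    exact h1
  have hlogE : Real.log (E m) ≤ η * m := by
    have h1 := hm0 m (by omega)
    exact (Real.log_le_iff_le_exp (by linarith)).mpr h1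
  have hmr : (m : ℝ) = 3 / 2 * D + 1 := by
    have h1 : 2 * m = 3 * D + 2 := by omega
    have h2 : (2 : ℝ) * m = 3 * D + 2 := by exact_mod_cast h1
    linarith
  rw [hmr] at hlogE hlog
  have hDD' : (D : ℝ) = 2 * D' := by
    rw [hDdef]
    push_cast
    ring
  have hXr : δ * (κ * D - 2 * κ) ≤ δ * X := by
    refine mul_le_mul_of_nonneg_left ?_ hδ
    have h2 : 2 * (κ : ℝ) * D' ≤ X + 2 * κ := by exact_mod_cast hleX
    rw [hDD']
    linarith
  have hfin := hD1 D (by omega)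
  have h9 : (r : ℝ) * Real.log H ≤ r * (Real.log C' + Real.log D + 3 * D * Real.log 2 +
        η * (3 / 2 * D + 1)) :=
    mul_le_mul_of_nonneg_left (by rw [hlogH]; linarith) (by linarith)
  have h10 : 2 * κ * U / T.card = U * (1 - ρ) := by
    rw [hρ]
    ring
  have h11 : δ * (κ * D - 2 * κ) * ρ ≤ U * ρ :=
    mul_le_mul_of_nonneg_right (hXr.trans hsum) hρ0.le
  have h12 : δ * κ * ρ ≤ δ * κ := by
    calc δ * κ * ρ ≤ δ * κ * 1 := mul_le_mul_of_nonneg_left hρ1 hδκ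
      _ = δ * κ := mul_one _
  rw [hgdef] at hfin
  nlinarith [hlog, hup, hlogY, h9, hfin, h10, h11, h12]

end Pool.MZFin
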