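import Pool.Agent.Lib.MZFin.YUni
import Pool.Agent.Lib.MZExp.ZUni

/-! MP_c511df_nt, finite multiple zeta values, ZERO ESTIMATE AT INFINITY, module `YLem` (280 lines):
LEMMA Z AT LEVEL ONE. Compare `MZExp/ZLem.lean` (steps (Z1), (Z2) are the same).

PROOF. Suppose `finrank K J < S1.card`.
(Z1) exactly as in ZLem: `p0 ∈ J` with `p0.1 = e`, `e = (1 at [], 0 elsewhere)`.
(Z2) `B = {b | (0, b) ∈ J}`; `finrank B + 1 ≤ finrank J`: `(0, B)` and `p0` are independent
(`p0.1 ≠ 0`): e.g. `B` embeds in the kernel of `p ↦ p.1` on `J`, whose dimension is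
`finrank J - finrank (range) ≤ finrank J - 1` (`LinearMap.finrank_range_add_finrank_ker`). So
`finrank B < S1.card - 1`. `Bp = {μ | ∀ b ∈ B, ∑ v, μ v * b v = 0}`, stable in the sense of the
second alternative of `uni_min` (proof in ZLem). `Bp` has an element with a nonzero coordinate at a
word `v ≠ []`: otherwise `Bp` is contained in the line of `e' = (1 at [], 0 elsewhere)`, so every
functional vanishing on `B` is a multiple of the coordinate at `[]`, and `B` contains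
`{b | b [] = 0}`, of dimension `S1.card - 1` (e.g. dimension of `Bp` is `S1.card - finrank B ≥ 2`).
`uni_min` gives `e' ∈ Bp`: `b [] = 0` for all `b ∈ B`. `uni_min1` gives `f ∈ Bp` with `f v = 0` for
`length v ≥ 2`, `τ (f v) = f v` for `v ≠ []`, not all zero at words of length 1.
(Z3) Take `q ∈ J` for `p0`: `q.1 = e` (as in ZLem), so `q.2 - p0.2 ∈ B`. Put `κ = p0.2 []`. `Rel` at
`v = []`: `q.2 [] = τ κ - Rx [] [] = τ κ`, and `q.2 [] = κ`, so `τ κ = κ`. `Rel` at `v = [c]`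
(`Tm_vecMul_cons`): `q.2 [c] + (-x⁻¹)^c * κ = τ (p0.2 [c]) - (-x⁻¹)^(c+1)`. Multiply by `f [c]` and
sum over the words `[c] ∈ S1`: with `G = ∑_c f [c] * p0.2 [c]` and
`∑ f v * (q.2 - p0.2) v = 0`, where the coordinate `[]` drops out (`(q.2 - p0.2) [] = 0`) and
`f v = 0` for `length v ≥ 2`:
`G - τ G = -∑_c f [c] * (κ * (-x⁻¹)^c + (-x⁻¹)^(c+1))`. By `hNo` with the invariant coefficients
`κ_m = -(κ * f [m] + f [m-1])` (`f [c] := 0` if `[c] ∉ S1` or `c = 0`; `κ_0 = 0`): all vanish. Let `c`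
be the largest letter with `f [c] ≠ 0`; at `m = c + 1`: `f [c] = 0`, contradiction. (Words of length
1 in `S1` are `[c]` with `c ≥ 1`.) -/

open Polynomial Pool.MZExp

namespace Pool.MZFin

private theorem yl_Bp_ne {K : Type*} [Field K] (S1 : Finset (List ℕ))
    (B : Submodule K (S1 → K)) (hB : Module.finrank K B < S1.card) :
    ∃ μ : S1 → K, μ ≠ 0 ∧ ∀ b ∈ B, ∑ v, μ v * b v = 0 := by
  classical
  have hlt : B < ⊤ := by
    rw [lt_top_iff_ne_top]
    intro h
    rw [h, finrank_top, Module.finrank_fintype_fun_eq_card, Fintype.card_coe] at hB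
    exact lt_irrefl _ hB
  obtain ⟨φ, hφ, hle⟩ := Submodule.exists_le_ker_of_lt_top B hlt
  have hsum : ∀ b : S1 → K, φ b = ∑ v, φ (fun j => if v = j then 1 else 0) * b v := by
    intro b
    rw [LinearMap.pi_apply_eq_sum_univ φ b]
    apply Finset.sum_congr rfl
    intro v _
    rw [smul_eq_mul, mul_comm]
  refine ⟨fun v => φ (fun j => if v = j then 1 else 0), ?_, ?_⟩
  · intro h
    apply hφ
    apply LinearMap.ext
    intro b
    rw [hsum b, LinearMap.zero_apply]
    apply Finset.sum_eq_zero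
    intro v _
    have h1 : φ (fun j => if v = j then 1 else 0) = 0 := congrFun h v
    rw [h1, zero_mul]
  · intro b hb
    have h1 : φ b = 0 := hle hb
    exact (hsum b).symm.trans h1

private def ylBp {K : Type*} [Field K] {S1 : Finset (List ℕ)} (B : Submodule K (S1 → K)) :
    Submodule K (S1 → K) where
  carrier := {μ | ∀ b ∈ B, ∑ v, μ v * b v = 0}
  add_mem' := by
    intro μ ν hμ hν b hb
    have h : ∑ v, (μ + ν) v * b v = ∑ v, μ v * b v + ∑ v, ν v * b v := by
      rw [← Finset.sum_add_distrib]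
      apply Finset.sum_congr rfl
      intro v _
      rw [Pi.add_apply, add_mul]
    rw [h, hμ b hb, hν b hb, add_zero]
  zero_mem' := by
    intro b _
    apply Finset.sum_eq_zero
    intro v _
    rw [Pi.zero_apply, zero_mul]
  smul_mem' := by
    intro k μ hμ b hb
    have h : ∑ v, (k • μ) v * b v = k * ∑ v, μ v * b v := by
      rw [Finset.mul_sum]
      apply Finset.sum_congr rfl
      intro v _
      rw [Pi.smul_apply, smul_eq_mul, mul_assoc]
    rw [h, hμ b hb, mul_zero]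

private theorem yl_stab {K : Type*} [Field K] (τ : K ≃+* K) (x : K) (S1 : Finset (List ℕ))
    (B : Submodule K (S1 → K))
    (hB : ∀ b ∈ B, ∃ b' ∈ B, ∀ v : S1, Matrix.vecMul b' (Tm x S1) v = τ (b v))
    (μ : S1 → K) (hμ : μ ∈ ylBp B) :
    ∃ g ∈ ylBp B, (Tm x S1).mulVec (fun u => τ (g u)) = μ := by
  obtain ⟨U, hU⟩ := Tm_isUnit x S1
  obtain ⟨ν, hν⟩ : ∃ ν : S1 → K, (Tm x S1).mulVec ν = μ := by
    refine ⟨(U⁻¹).val.mulVec μ, ?_⟩
    rw [← hU, Matrix.mulVec_mulVec, Units.mul_inv, Matrix.one_mulVec]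
  refine ⟨fun v => τ.symm (ν v), ?_, ?_⟩
  · intro b hb
    obtain ⟨b', hb', hv⟩ := hB b hb
    have h1 : ∑ v, μ v * b' v = 0 := hμ b' hb'
    have h2 : b' ⬝ᵥ (Tm x S1).mulVec ν = 0 := by
      rw [hν, dotProduct_comm]
      exact h1
    rw [Matrix.dotProduct_mulVec] at h2
    have h3 : ∑ v, τ (b v) * ν v = 0 := by
      rw [← h2]
      apply Finset.sum_congr rfl
      intro v _
      rw [hv v]
    have h4 := congrArg τ.symm h3
    rw [map_sum, map_zero] at h4
    rw [← h4]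
    apply Finset.sum_congr rfl
    intro v _
    rw [map_mul, RingEquiv.symm_apply_apply, mul_comm]
  · rw [← hν]
    congr 1
    funext u
    exact RingEquiv.apply_symm_apply τ (ν u)

private theorem yl_nil {K : Type*} [Field K] (S1 : Finset (List ℕ)) (h1 : [] ∈ S1)
    (e : S1 → K) (he : ∀ u : S1, e u = if u.1 = [] then 1 else 0) (b : S1 → K) :
    ∑ v, e v * b v = b ⟨[], h1⟩ := by
  rw [Finset.sum_eq_single (⟨[], h1⟩ : S1)]
  · rw [he, if_pos rfl, one_mul]
  · intro v _ hv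
    rw [he, if_neg (fun h => hv (Subtype.ext h)), zero_mul]
  · intro h
    exact absurd (Finset.mem_univ _) h

private theorem yl_fix {K : Type*} [Field K] (τ : K ≃+* K) (x : K) (S0 : Finset (List ℕ))
    (e : S0 → K) (he : ∀ u : S0, e u = if u.1 = [] then 1 else 0) :
    (Tm x S0).mulVec (fun u => τ (e u)) = e := by
  funext u
  rw [Tm_mulVec]
  have h1 : ∑ w : S0, (if w.1 = w.1.headI :: u.1 then (-x⁻¹) ^ w.1.headI else 0) * τ (e w) = 0 := by
    apply Finset.sum_eq_zero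
    intro w _
    by_cases hw : w.1 = []
    · have h2 : ¬ (w.1 = w.1.headI :: u.1) := by
        rw [hw]
        exact (List.cons_ne_nil _ _).symm
      rw [if_neg h2, zero_mul]
    · rw [he w, if_neg hw, map_zero, mul_zero]
  rw [h1, add_zero, he u]
  split_ifs
  · exact map_one τ
  · exact map_zero τ


private theorem yl_final {K : Type*} [Field K] (τ : K ≃+* K) (x : K) (hNo : NoSol τ x)
    (S1 : Finset (List ℕ)) (hp1 : ∀ l ∈ S1, ∀ a ∈ l, 1 ≤ a) (f b r : S1 → K) (k0 : K)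
    (hk0 : τ k0 = k0) (hf0 : ∀ v : S1, f v ≠ 0 → ∃ c : ℕ, v.1 = [c])
    (hfτ : ∀ v : S1, τ (f v) = f v) (hne : ∃ v : S1, f v ≠ 0)
    (hr : ∑ v, f v * r v = 0)
    (hrel : ∀ (v : S1) (c : ℕ), v.1 = [c] → r v = τ (b v) - b v - (-x⁻¹) ^ (c + 1) -
      (-x⁻¹) ^ c * k0) : False := by
  classical
  obtain ⟨κ, hκ⟩ : ∃ κ : ℕ →₀ K, κ = -∑ v : S1, (Finsupp.single (v.1.headI + 1) (f v) +
    Finsupp.single v.1.headI (k0 * f v)) := ⟨_, rfl⟩
  have hκa : ∀ m, κ m = -∑ v : S1, ((if v.1.headI + 1 = m then f v else 0) +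
      (if v.1.headI = m then k0 * f v else 0)) := by
    intro m
    rw [hκ, Finsupp.neg_apply, Finsupp.finsetSum_apply]
    congr 1
    refine Finset.sum_congr rfl fun v _ => ?_
    rw [Finsupp.add_apply, Finsupp.single_apply, Finsupp.single_apply]
  have hsum : κ.sum (fun m k => k * (-x⁻¹) ^ m) =
      -∑ v : S1, (f v * (-x⁻¹) ^ (v.1.headI + 1) + k0 * f v * (-x⁻¹) ^ v.1.headI) := by
    have h1 : κ.sum (fun m k => k * (-x⁻¹) ^ m) =
        Finsupp.linearCombination K (fun m : ℕ => (-x⁻¹) ^ m) κ := by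
      rw [Finsupp.linearCombination_apply]
      rfl
    rw [h1, hκ, map_neg, map_sum]
    congr 1
    refine Finset.sum_congr rfl fun v _ => ?_
    rw [map_add, Finsupp.linearCombination_single, Finsupp.linearCombination_single,
      smul_eq_mul, smul_eq_mul]
  have hc1 : ∀ v : S1, f v ≠ 0 → 1 ≤ v.1.headI := by
    intro v hv
    obtain ⟨c, hc⟩ := hf0 v hv
    have h1 : c ∈ v.1 := by rw [hc]; exact List.mem_singleton.2 rfl
    have h2 := hp1 v.1 v.2 c h1
    rw [hc]
    exact h2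
  have hzero : κ = 0 := by
    refine hNo κ (∑ v, f v * b v) ?_ ?_ ?_
    · intro m
      rw [hκa m, map_neg, map_sum]
      congr 1
      refine Finset.sum_congr rfl fun v _ => ?_
      rw [map_add]
      congr 1
      · split_ifs
        · exact hfτ v
        · exact map_zero τ
      · split_ifs
        · rw [map_mul, hfτ v, hk0]
        · exact map_zero τ
    · rw [hκa 0, neg_eq_zero]
      refine Finset.sum_eq_zero fun v _ => ?_
      rw [if_neg (Nat.succ_ne_zero _), zero_add]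
      by_cases hv : f v = 0
      · rw [hv, mul_zero, ite_self]
      · have := hc1 v hv
        rw [if_neg (by omega)]
    · rw [hsum, map_sum, ← Finset.sum_sub_distrib]
      have h1 : ∑ v : S1, (f v * b v - τ (f v * b v)) =
          ∑ v : S1, (-(f v * r v) - (f v * (-x⁻¹) ^ (v.1.headI + 1) +
            k0 * f v * (-x⁻¹) ^ v.1.headI)) := by
        refine Finset.sum_congr rfl fun v _ => ?_
        rw [map_mul, hfτ v]
        by_cases hv : f v = 0
        · rw [hv]
          ring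
        · obtain ⟨c, hc⟩ := hf0 v hv
          have h2 : v.1.headI = c := by rw [hc]; rfl
          rw [hrel v c hc, h2]
          ring
      rw [h1, Finset.sum_sub_distrib, Finset.sum_neg_distrib, hr]
      ring
  obtain ⟨v0, hv0⟩ := hne
  obtain ⟨w, hw, hmax⟩ := Finset.exists_max_image (Finset.univ.filter (fun v : S1 => f v ≠ 0))
    (fun v => v.1.headI) ⟨v0, Finset.mem_filter.2 ⟨Finset.mem_univ _, hv0⟩⟩
  have hfw : f w ≠ 0 := (Finset.mem_filter.1 hw).2
  have h1 := DFunLike.congr_fun hzero (w.1.headI + 1)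
  rw [hκa, Finsupp.zero_apply, neg_eq_zero, Finset.sum_eq_single w] at h1
  · rw [if_pos rfl, if_neg (by omega), add_zero] at h1
    exact hfw h1
  · intro v _ hvw
    by_cases hv : f v = 0
    · rw [hv, mul_zero, ite_self, ite_self, add_zero]
    · have h2 : v.1.headI ≤ w.1.headI := hmax v (Finset.mem_filter.2 ⟨Finset.mem_univ _, hv⟩)
      have h3 : v.1.headI ≠ w.1.headI := by
        intro h
        apply hvw
        obtain ⟨c, hc⟩ := hf0 v hv
        obtain ⟨c', hc'⟩ := hf0 w hfw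
        apply Subtype.ext
        rw [hc, hc'] at h
        have h4 : c = c' := h
        rw [hc, hc', h4]
      rw [if_neg (by omega), if_neg (by omega), add_zero]
  · intro h
    exact absurd (Finset.mem_univ _) h

private theorem yl_sep {K : Type*} [Field K] (S1 : Finset (List ℕ)) (h1 : [] ∈ S1)
    (B : Submodule K (S1 → K)) (hB : Module.finrank K B + 1 < S1.card) :
    ∃ f ∈ ylBp B, ∃ u : S1, u.1 ≠ [] ∧ f u ≠ 0 := by
  classical
  obtain ⟨C, hC⟩ : ∃ C : Submodule K (S1 → K),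
    C = B ⊔ Submodule.span K {(Pi.single (⟨[], h1⟩ : S1) (1 : K) : S1 → K)} := ⟨_, rfl⟩
  have hCfin : Module.finrank K C < S1.card := by
    have h2 := Submodule.finrank_add_le_finrank_add_finrank B
      (Submodule.span K {(Pi.single (⟨[], h1⟩ : S1) (1 : K) : S1 → K)})
    have h3 : Module.finrank K (Submodule.span K {(Pi.single (⟨[], h1⟩ : S1) (1 : K) : S1 → K)}) ≤ 1 :=
      (finrank_span_le_card _).trans (by simp)
    rw [← hC] at h2
    omega
  obtain ⟨μ, hμ, hμC⟩ := yl_Bp_ne S1 C hCfin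
  refine ⟨μ, fun b hb => hμC b (hC ▸ Submodule.mem_sup_left hb), ?_⟩
  by_contra hcon
  push Not at hcon
  apply hμ
  funext u
  rw [Pi.zero_apply]
  by_cases hu : u.1 = []
  · have h2 := hμC (Pi.single (⟨[], h1⟩ : S1) (1 : K) : S1 → K)
      (hC ▸ Submodule.mem_sup_right (Submodule.mem_span_singleton_self _))
    rw [Finset.sum_eq_single (⟨[], h1⟩ : S1)] at h2
    · rw [Pi.single_eq_same, mul_one] at h2
      have h3 : u = ⟨[], h1⟩ := Subtype.ext hu
      rw [h3]
      exact h2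
    · intro v _ hv
      rw [Pi.single_eq_of_ne hv, mul_zero]
    · intro h
      exact absurd (Finset.mem_univ _) h
  · exact hcon u hu

theorem lemZ1 {K : Type*} [Field K] (τ : K ≃+* K) (x : K) (hNo : NoSol τ x)
    (S0 S1 : Finset (List ℕ)) (hS0 : ∀ a l, a :: l ∈ S0 → l ∈ S0)
    (hS1 : ∀ a l, a :: l ∈ S1 → l ∈ S1) (hp0 : ∀ l ∈ S0, ∀ a ∈ l, 1 ≤ a)
    (hp1 : ∀ l ∈ S1, ∀ a ∈ l, 1 ≤ a) (h0 : [] ∈ S0) (h1 : [] ∈ S1)
    (Rx : List ℕ → List ℕ → K) (hR : Rx [] [] = 0)
    (hR1 : ∀ c : ℕ, 1 ≤ c → Rx [] [c] = (-x⁻¹) ^ (c + 1))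
    (J : Submodule K ((S0 → K) × (S1 → K)))
    (hst : ∀ p ∈ J, ∃ q ∈ J, Rel τ x S0 S1 Rx p q) (hne : ∃ p ∈ J, p.1 ≠ 0) :
    S1.card ≤ Module.finrank K J := by
  classical
  by_contra hlt
  rw [not_le] at hlt
  -- (Z1)
  have hA : J.map (LinearMap.fst K (S0 → K) (S1 → K)) ≠ ⊥ := by
    obtain ⟨p, hp, hp1'⟩ := hne
    intro h
    apply hp1'
    have h2 : p.1 ∈ J.map (LinearMap.fst K (S0 → K) (S1 → K)) := ⟨p, hp, rfl⟩
    rw [h, Submodule.mem_bot] at h2
    exact h2
  obtain ⟨e, heA, he⟩ := uni_min τ x hNo S0 hS0 hp0 _ hA (by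
    rintro f ⟨p, hp, rfl⟩
    obtain ⟨q, hq, hrel⟩ := hst p hp
    exact ⟨q.1, ⟨q, hq, rfl⟩, Or.inl hrel.1⟩)
  obtain ⟨p0, hp0J, hp0e⟩ := heA
  have hp0e' : p0.1 = e := hp0e
  -- (Z2)
  obtain ⟨B, hBdef⟩ : ∃ B : Submodule K (S1 → K), B = J.comap (LinearMap.inr K (S0 → K) (S1 → K)) :=
    ⟨_, rfl⟩
  have hBmem : ∀ b : S1 → K, b ∈ B ↔ ((0 : S0 → K), b) ∈ J := by
    intro b
    rw [hBdef, Submodule.mem_comap]
    exact Iff.rfl
  have hBfin1 : Module.finrank K B + 1 < S1.card := by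
    refine lt_of_le_of_lt ?_ hlt
    have hinj : Function.Injective (LinearMap.inr K (S0 → K) (S1 → K)) := LinearMap.inr_injective
    have hle : B.map (LinearMap.inr K (S0 → K) (S1 → K)) ≤ J := by
      rintro _ ⟨b, hb, rfl⟩
      exact (hBmem b).1 hb
    have hlt' : B.map (LinearMap.inr K (S0 → K) (S1 → K)) < J := by
      refine lt_of_le_of_ne hle ?_
      intro h
      have h2 : p0 ∈ B.map (LinearMap.inr K (S0 → K) (S1 → K)) := by
        rw [h]
        exact hp0J
      obtain ⟨b, -, hb⟩ := h2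
      have h3 : p0.1 = 0 := by
        rw [← hb]
        rfl
      have h4 := congrFun h3 ⟨[], h0⟩
      rw [hp0e', he, if_pos rfl, Pi.zero_apply] at h4
      exact one_ne_zero h4
    have h5 := Submodule.finrank_lt_finrank_of_lt hlt'
    have h6 := LinearEquiv.finrank_eq (Submodule.equivMapOfInjective
      (LinearMap.inr K (S0 → K) (S1 → K)) hinj B)
    omega
  have hBfin : Module.finrank K B < S1.card := by omega
  have hBst : ∀ b ∈ B, ∃ b' ∈ B, ∀ v : S1, Matrix.vecMul b' (Tm x S1) v = τ (b v) := by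
    intro b hb
    obtain ⟨q, hq, hrel1, hrel2⟩ := hst _ ((hBmem b).1 hb)
    have hq1 : q.1 = 0 := by
      rw [hrel1]
      have h2 : (fun u => τ (((0 : S0 → K), b).1 u)) = (0 : S0 → K) := by
        funext u
        exact map_zero τ
      rw [h2, Matrix.mulVec_zero]
    refine ⟨q.2, ?_, ?_⟩
    · rw [hBmem, ← hq1]
      exact hq
    · intro v
      rw [hrel2 v]
      have h2 : ∑ u : S0, τ (((0 : S0 → K), b).1 u) * Rx u v = 0 := by
        apply Finset.sum_eq_zero
        intro u _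
        have h3 : τ (((0 : S0 → K), b).1 u) = 0 := map_zero τ
        rw [h3, zero_mul]
      rw [h2, sub_zero]
  have hBp : ylBp B ≠ ⊥ := by
    obtain ⟨μ, hμ, hμB⟩ := yl_Bp_ne S1 B hBfin
    intro h
    apply hμ
    have h2 : μ ∈ ylBp B := hμB
    rw [h, Submodule.mem_bot] at h2
    exact h2
  obtain ⟨e', he'B, he'⟩ := uni_min τ x hNo S1 hS1 hp1 (ylBp B) hBp (by
    intro μ hμ
    obtain ⟨g, hg, hgm⟩ := yl_stab τ x S1 B hBst μ hμ
    exact ⟨g, hg, Or.inr hgm⟩)
  have hBnil : ∀ b ∈ B, b ⟨[], h1⟩ = 0 := by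
    intro b hb
    rw [← yl_nil S1 h1 e' he' b]
    exact he'B b hb
  -- (Z3)
  obtain ⟨q, hq, hrel1, hrel2⟩ := hst p0 hp0J
  have hq1 : q.1 = p0.1 := by
    rw [hrel1, hp0e', yl_fix τ x S0 e he]
  have hdiff : q.2 - p0.2 ∈ B := by
    rw [hBmem]
    have h2 : q - p0 ∈ J := J.sub_mem hq hp0J
    have h3 : q - p0 = ((0 : S0 → K), q.2 - p0.2) := by
      apply Prod.ext
      · rw [Prod.fst_sub, hq1, sub_self]
      · rw [Prod.snd_sub]
    rw [← h3]
    exact h2
  have h2 : q.2 ⟨[], h1⟩ = p0.2 ⟨[], h1⟩ := by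
    have h3 := hBnil _ hdiff
    rw [Pi.sub_apply] at h3
    exact sub_eq_zero.1 h3
  have h3 := hrel2 ⟨[], h1⟩
  rw [Tm_vecMul_nil x S1 q.2 ⟨[], h1⟩ rfl, h2] at h3
  have hRsum : ∀ v : S1, ∑ u : S0, τ (p0.1 u) * Rx u v = Rx [] v := by
    intro v
    rw [Finset.sum_eq_single (⟨[], h0⟩ : S0)]
    · rw [hp0e', he, if_pos rfl, map_one, one_mul]
    · intro w _ hw
      rw [hp0e', he, if_neg (fun h => hw (Subtype.ext h)), map_zero, zero_mul]
    · intro h
      exact absurd (Finset.mem_univ _) h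
  rw [hRsum, hR, sub_zero] at h3
  have hstμ : ∀ μ ∈ ylBp B, ∃ g ∈ ylBp B, g = (Tm x S1).mulVec (fun u => τ (μ u)) ∨
      (Tm x S1).mulVec (fun u => τ (g u)) = μ := by
    intro μ hμ
    obtain ⟨g, hg, hgm⟩ := yl_stab τ x S1 B hBst μ hμ
    exact ⟨g, hg, Or.inr hgm⟩
  obtain ⟨f, hfB, hf2, hfτ, u0, hu0, hfu0⟩ := uni_min1 τ x hNo S1 hS1 hp1 (ylBp B)
    (yl_sep S1 h1 B hBfin1) hstμ
  refine yl_final τ x hNo S1 hp1 (fun v => if v.1 = [] then 0 else f v) p0.2 (q.2 - p0.2)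
    (p0.2 ⟨[], h1⟩) h3.symm ?_ ?_ ⟨u0, ?_⟩ ?_ ?_
  · intro v hv
    have hv1 : v.1 ≠ [] := by
      intro h
      exact hv (if_pos h)
    have hv2 : f v ≠ 0 := by
      intro h
      apply hv
      show (if v.1 = [] then (0 : K) else f v) = 0
      rw [if_neg hv1]
      exact h
    have hv3 : v.1.length < 2 := by
      by_contra h
      exact hv2 (hf2 v (not_lt.1 h))
    obtain ⟨l, hl⟩ : ∃ l : List ℕ, l = v.1 := ⟨_, rfl⟩
    rw [← hl] at hv1 hv3 ⊢
    rcases l with _ | ⟨c, _ | ⟨c', l⟩⟩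
    · exact absurd rfl hv1
    · exact ⟨c, rfl⟩
    · simp only [List.length_cons] at hv3
      omega
  · intro v
    by_cases hv : v.1 = []
    · show τ (if v.1 = [] then (0 : K) else f v) = (if v.1 = [] then (0 : K) else f v)
      rw [if_pos hv, map_zero]
    · show τ (if v.1 = [] then (0 : K) else f v) = (if v.1 = [] then (0 : K) else f v)
      rw [if_neg hv]
      exact hfτ v hv
  · show (if u0.1 = [] then (0 : K) else f u0) ≠ 0
    rw [if_neg hu0]
    exact hfu0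
  · have h4 : ∑ v, f v * (q.2 - p0.2) v = 0 := hfB _ hdiff
    refine Eq.trans (Finset.sum_congr rfl fun v _ => ?_) h4
    by_cases hv : v.1 = []
    · have h5 : v = ⟨[], h1⟩ := Subtype.ext hv
      have h6 : (q.2 - p0.2) v = 0 := by
        rw [h5]
        exact hBnil _ hdiff
      rw [h6, mul_zero, mul_zero]
    · show (if v.1 = [] then (0 : K) else f v) * (q.2 - p0.2) v = f v * (q.2 - p0.2) v
      rw [if_neg hv]
  · intro v c hc
    have h4 := hrel2 v
    rw [Tm_vecMul_cons x S1 q.2 v ⟨[], h1⟩ c hc, h2, hRsum] at h4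
    have hc1 : 1 ≤ c := hp1 v.1 v.2 c (by rw [hc]; exact List.mem_singleton.2 rfl)
    have h5 : Rx [] v.1 = (-x⁻¹) ^ (c + 1) := by
      rw [hc]
      exact hR1 c hc1
    rw [h5] at h4
    rw [Pi.sub_apply, eq_sub_of_add_eq h4]
    ring

end Pool.MZFin
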