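import Pool.Agent.Lib.MZFin.FDefs
import Pool.Agent.Lib.MZFin.FCon
import Pool.Agent.Lib.MZFin.YLem

/-! MP_c511df_nt, exponent 1/3, module `FLem` (230 lines): the algebraic lemma at level one for coded
words. Compare `YLem` (`lemZ1`): the private lemmas `yl_Bp_ne`, `ylBp`, `yl_stab`, `yl_nil`, `yl_final`,
`yl_sep` of `YLem.lean` can be copied.

PROOF. Suppose `finrank K J < S1.card`. Write `e = Pi.single ⟨[], h0⟩ 1`.
(1) `A = J.map fst` is stable under `f ↦ Tm x S0 *ᵥ (τ ∘ f)` (first part of `Rel`, `hst`). `con_inv`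
with `w = v0 ++ [L]`: `f1 ∈ A`, `τ (f1 u) = f1 u` for all `u`, `f1 (v0 ++ [L]) ≠ 0`. Apply `dder S0 a` for
the letters `a` of `v0`, first letter first (`con_der`; induction on `v0`: for every word `v` and
`f1 ∈ A` invariant the function `f2 u = f1 (v ++ u)` (`0` if `v ++ u ∉ S0`) is in `A` and invariant).
So `f2 ∈ A`, `f2 u = f1 (v0 ++ u)`, invariant, `f2 [L] ≠ 0` (`[L] ∈ S0` by `hS0`, tails of `v0 ++ [L]`),
`f2 u = 0` unless `u = []` or `u = [a]` with `a ≥ L` (`hv0`). `f = f2 - f2 [] • e ∈ A` (`he`): invariant,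
`f [] = 0`, `f u = 0` unless `u = [a]`, `a ≥ L`, `φ := f [L] ≠ 0`.
(2) `p0 ∈ J` with `p0.1 = f`, `q ∈ J` with `Rel p0 q`. `q.1 u = f u` for `u ≠ []` (`Tm_mulVec`: the words
`a :: u` with `u ≠ []` have length `≥ 2`, where `f` vanishes, and `τ (f w) = f w`), so `q.1 - f` is a
multiple of `e` and with `he`: `(0, q.2 - p0.2) ∈ J`.
(3) `B = {b | (0, b) ∈ J}`: `finrank B < finrank J` since `p0 ∉ 0 × B` (`f ≠ 0`), so
`finrank B + 1 < S1.card`. As in `lemZ1`: `B` is stable, `Bp = B^⊥` (`ylBp`), `uni_min` gives `e' ∈ Bp`,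
i.e. `b [] = 0` for `b ∈ B`; `yl_sep` and `uni_min1` give `g ∈ Bp` with support on words of length
`≤ 1`, `τ (g v) = g v` for `v ≠ []`, not all zero there.
(4) `Rel` at `v = []`: `q.2 [] = τ (p0.2 []) - ∑_u τ (f u) Rx u [] = τ (p0.2 [])` (`hR0`), and
`q.2 [] = p0.2 []` by (3). At `v = [c]`: `q.2 [c] + (-x⁻¹)^c * q.2 [] = τ (p0.2 [c]) - φ d0 (-x⁻¹)^(c+1)`
(`hR1`, `hR2`). Divide by `φ d0` (invariant, `≠ 0`): `b v = p0.2 v / (φ d0)`, `r v = (q.2 - p0.2) v / (φ d0)`,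
`k0 = p0.2 [] / (φ d0)`: `yl_final` applied to `g` restricted to nonempty words (as in `lemZ1`) is the
contradiction. -/

open Polynomial Pool.MZExp

namespace Pool.MZFin

private theorem flem_Bp_ne {K : Type*} [Field K] (S1 : Finset (List ℕ))
    (B : Submodule K (S1 → K)) (hB : Module.finrank K B < S1.card) :
    ∃ μ : S1 → K, μ ≠ 0 ∧ ∀ b ∈ B, ∑ v, μ v * b v = 0 := by
  classical
  have hlt : B < ⊤ := by
    rw [lt_top_iff_ne_top]
    intro h
    rw [h, finrank_top, Module.finrank_fintype_fun_eq_card, Fintype.card_coe] at hB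
    exact lt_irrefl _ hB
  obtain ⟨φ, hφ, hle⟩ := Submodule.exists_le_ker_of_lt_top B hlt
  have hsum : ∀ b : S1 → K, φ b = ∑ v, φ (fun j => if v = j then 1 else 0) * b v := by
    intro b
    rw [LinearMap.pi_apply_eq_sum_univ φ b]
    apply Finset.sum_congr rfl
    intro v _
    rw [smul_eq_mul, mul_comm]
  refine ⟨fun v => φ (fun j => if v = j then 1 else 0), ?_, ?_⟩
  · intro h
    apply hφ
    apply LinearMap.ext
    intro b
    rw [hsum b, LinearMap.zero_apply]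
    apply Finset.sum_eq_zero
    intro v _
    have h1 : φ (fun j => if v = j then 1 else 0) = 0 := congrFun h v
    rw [h1, zero_mul]
  · intro b hb
    have h1 : φ b = 0 := hle hb
    exact (hsum b).symm.trans h1

private def flemBp {K : Type*} [Field K] {S1 : Finset (List ℕ)} (B : Submodule K (S1 → K)) :
    Submodule K (S1 → K) where
  carrier := {μ | ∀ b ∈ B, ∑ v, μ v * b v = 0}
  add_mem' := by
    intro μ ν hμ hν b hb
    have h : ∑ v, (μ + ν) v * b v = ∑ v, μ v * b v + ∑ v, ν v * b v := by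
      rw [← Finset.sum_add_distrib]
      apply Finset.sum_congr rfl
      intro v _
      rw [Pi.add_apply, add_mul]
    rw [h, hμ b hb, hν b hb, add_zero]
  zero_mem' := by
    intro b _
    apply Finset.sum_eq_zero
    intro v _
    rw [Pi.zero_apply, zero_mul]
  smul_mem' := by
    intro k μ hμ b hb
    have h : ∑ v, (k • μ) v * b v = k * ∑ v, μ v * b v := by
      rw [Finset.mul_sum]
      apply Finset.sum_congr rfl
      intro v _
      rw [Pi.smul_apply, smul_eq_mul, mul_assoc]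
    rw [h, hμ b hb, mul_zero]

private theorem flem_stab {K : Type*} [Field K] (τ : K ≃+* K) (x : K) (S1 : Finset (List ℕ))
    (B : Submodule K (S1 → K))
    (hB : ∀ b ∈ B, ∃ b' ∈ B, ∀ v : S1, Matrix.vecMul b' (Tm x S1) v = τ (b v))
    (μ : S1 → K) (hμ : μ ∈ flemBp B) :
    ∃ g ∈ flemBp B, (Tm x S1).mulVec (fun u => τ (g u)) = μ := by
  obtain ⟨U, hU⟩ := Tm_isUnit x S1
  obtain ⟨ν, hν⟩ : ∃ ν : S1 → K, (Tm x S1).mulVec ν = μ := by
    refine ⟨(U⁻¹).val.mulVec μ, ?_⟩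
    rw [← hU, Matrix.mulVec_mulVec, Units.mul_inv, Matrix.one_mulVec]
  refine ⟨fun v => τ.symm (ν v), ?_, ?_⟩
  · intro b hb
    obtain ⟨b', hb', hv⟩ := hB b hb
    have h1 : ∑ v, μ v * b' v = 0 := hμ b' hb'
    have h2 : b' ⬝ᵥ (Tm x S1).mulVec ν = 0 := by
      rw [hν, dotProduct_comm]
      exact h1
    rw [Matrix.dotProduct_mulVec] at h2
    have h3 : ∑ v, τ (b v) * ν v = 0 := by
      rw [← h2]
      apply Finset.sum_congr rfl
      intro v _
      rw [hv v]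
    have h4 := congrArg τ.symm h3
    rw [map_sum, map_zero] at h4
    rw [← h4]
    apply Finset.sum_congr rfl
    intro v _
    rw [map_mul, RingEquiv.symm_apply_apply, mul_comm]
  · rw [← hν]
    congr 1
    funext u
    exact RingEquiv.apply_symm_apply τ (ν u)

private theorem flem_nil {K : Type*} [Field K] (S1 : Finset (List ℕ)) (h1 : [] ∈ S1)
    (e : S1 → K) (he : ∀ u : S1, e u = if u.1 = [] then 1 else 0) (b : S1 → K) :
    ∑ v, e v * b v = b ⟨[], h1⟩ := by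
  rw [Finset.sum_eq_single (⟨[], h1⟩ : S1)]
  · rw [he, if_pos rfl, one_mul]
  · intro v _ hv
    rw [he, if_neg (fun h => hv (Subtype.ext h)), zero_mul]
  · intro h
    exact absurd (Finset.mem_univ _) h

private theorem flem_final {K : Type*} [Field K] (τ : K ≃+* K) (x : K) (hNo : NoSol τ x)
    (S1 : Finset (List ℕ)) (hp1 : ∀ l ∈ S1, ∀ a ∈ l, 1 ≤ a) (f b r : S1 → K) (k0 : K)
    (hk0 : τ k0 = k0) (hf0 : ∀ v : S1, f v ≠ 0 → ∃ c : ℕ, v.1 = [c])
    (hfτ : ∀ v : S1, τ (f v) = f v) (hne : ∃ v : S1, f v ≠ 0)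
    (hr : ∑ v, f v * r v = 0)
    (hrel : ∀ (v : S1) (c : ℕ), v.1 = [c] → r v = τ (b v) - b v - (-x⁻¹) ^ (c + 1) -
      (-x⁻¹) ^ c * k0) : False := by
  classical
  obtain ⟨κ, hκ⟩ : ∃ κ : ℕ →₀ K, κ = -∑ v : S1, (Finsupp.single (v.1.headI + 1) (f v) +
    Finsupp.single v.1.headI (k0 * f v)) := ⟨_, rfl⟩
  have hκa : ∀ m, κ m = -∑ v : S1, ((if v.1.headI + 1 = m then f v else 0) +
      (if v.1.headI = m then k0 * f v else 0)) := by
    intro m
    rw [hκ, Finsupp.neg_apply, Finsupp.finsetSum_apply]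
    congr 1
    refine Finset.sum_congr rfl fun v _ => ?_
    rw [Finsupp.add_apply, Finsupp.single_apply, Finsupp.single_apply]
  have hsum : κ.sum (fun m k => k * (-x⁻¹) ^ m) =
      -∑ v : S1, (f v * (-x⁻¹) ^ (v.1.headI + 1) + k0 * f v * (-x⁻¹) ^ v.1.headI) := by
    have h1 : κ.sum (fun m k => k * (-x⁻¹) ^ m) =
        Finsupp.linearCombination K (fun m : ℕ => (-x⁻¹) ^ m) κ := by
      rw [Finsupp.linearCombination_apply]
      rfl
    rw [h1, hκ, map_neg, map_sum]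
    congr 1
    refine Finset.sum_congr rfl fun v _ => ?_
    rw [map_add, Finsupp.linearCombination_single, Finsupp.linearCombination_single,
      smul_eq_mul, smul_eq_mul]
  have hc1 : ∀ v : S1, f v ≠ 0 → 1 ≤ v.1.headI := by
    intro v hv
    obtain ⟨c, hc⟩ := hf0 v hv
    have h1 : c ∈ v.1 := by rw [hc]; exact List.mem_singleton.2 rfl
    have h2 := hp1 v.1 v.2 c h1
    rw [hc]
    exact h2
  have hzero : κ = 0 := by
    refine hNo κ (∑ v, f v * b v) ?_ ?_ ?_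
    · intro m
      rw [hκa m, map_neg, map_sum]
      congr 1
      refine Finset.sum_congr rfl fun v _ => ?_
      rw [map_add]
      congr 1
      · split_ifs
        · exact hfτ v
        · exact map_zero τ
      · split_ifs
        · rw [map_mul, hfτ v, hk0]
        · exact map_zero τ
    · rw [hκa 0, neg_eq_zero]
      refine Finset.sum_eq_zero fun v _ => ?_
      rw [if_neg (Nat.succ_ne_zero _), zero_add]
      by_cases hv : f v = 0
      · rw [hv, mul_zero, ite_self]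
      · have := hc1 v hv
        rw [if_neg (by omega)]
    · rw [hsum, map_sum, ← Finset.sum_sub_distrib]
      have h1 : ∑ v : S1, (f v * b v - τ (f v * b v)) =
          ∑ v : S1, (-(f v * r v) - (f v * (-x⁻¹) ^ (v.1.headI + 1) +
            k0 * f v * (-x⁻¹) ^ v.1.headI)) := by
        refine Finset.sum_congr rfl fun v _ => ?_
        rw [map_mul, hfτ v]
        by_cases hv : f v = 0
        · rw [hv]
          ring
        · obtain ⟨c, hc⟩ := hf0 v hv
          have h2 : v.1.headI = c := by rw [hc]; rfl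
          rw [hrel v c hc, h2]
          ring
      rw [h1, Finset.sum_sub_distrib, Finset.sum_neg_distrib, hr]
      ring
  obtain ⟨v0, hv0⟩ := hne
  obtain ⟨w, hw, hmax⟩ := Finset.exists_max_image (Finset.univ.filter (fun v : S1 => f v ≠ 0))
    (fun v => v.1.headI) ⟨v0, Finset.mem_filter.2 ⟨Finset.mem_univ _, hv0⟩⟩
  have hfw : f w ≠ 0 := (Finset.mem_filter.1 hw).2
  have h1 := DFunLike.congr_fun hzero (w.1.headI + 1)
  rw [hκa, Finsupp.zero_apply, neg_eq_zero, Finset.sum_eq_single w] at h1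
  · rw [if_pos rfl, if_neg (by omega), add_zero] at h1
    exact hfw h1
  · intro v _ hvw
    by_cases hv : f v = 0
    · rw [hv, mul_zero, ite_self, ite_self, add_zero]
    · have h2 : v.1.headI ≤ w.1.headI := hmax v (Finset.mem_filter.2 ⟨Finset.mem_univ _, hv⟩)
      have h3 : v.1.headI ≠ w.1.headI := by
        intro h
        apply hvw
        obtain ⟨c, hc⟩ := hf0 v hv
        obtain ⟨c', hc'⟩ := hf0 w hfw
        apply Subtype.ext
        rw [hc, hc'] at h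
        have h4 : c = c' := h
        rw [hc, hc', h4]
      rw [if_neg (by omega), if_neg (by omega), add_zero]
  · intro h
    exact absurd (Finset.mem_univ _) h

private theorem flem_sep {K : Type*} [Field K] (S1 : Finset (List ℕ)) (h1 : [] ∈ S1)
    (B : Submodule K (S1 → K)) (hB : Module.finrank K B + 1 < S1.card) :
    ∃ f ∈ flemBp B, ∃ u : S1, u.1 ≠ [] ∧ f u ≠ 0 := by
  classical
  obtain ⟨C, hC⟩ : ∃ C : Submodule K (S1 → K),
    C = B ⊔ Submodule.span K {(Pi.single (⟨[], h1⟩ : S1) (1 : K) : S1 → K)} := ⟨_, rfl⟩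
  have hCfin : Module.finrank K C < S1.card := by
    have h2 := Submodule.finrank_add_le_finrank_add_finrank B
      (Submodule.span K {(Pi.single (⟨[], h1⟩ : S1) (1 : K) : S1 → K)})
    have h3 : Module.finrank K (Submodule.span K {(Pi.single (⟨[], h1⟩ : S1) (1 : K) : S1 → K)}) ≤ 1 :=
      (finrank_span_le_card _).trans (by simp)
    rw [← hC] at h2
    omega
  obtain ⟨μ, hμ, hμC⟩ := flem_Bp_ne S1 C hCfin
  refine ⟨μ, fun b hb => hμC b (hC ▸ Submodule.mem_sup_left hb), ?_⟩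
  by_contra hcon
  push Not at hcon
  apply hμ
  funext u
  rw [Pi.zero_apply]
  by_cases hu : u.1 = []
  · have h2 := hμC (Pi.single (⟨[], h1⟩ : S1) (1 : K) : S1 → K)
      (hC ▸ Submodule.mem_sup_right (Submodule.mem_span_singleton_self _))
    rw [Finset.sum_eq_single (⟨[], h1⟩ : S1)] at h2
    · rw [Pi.single_eq_same, mul_one] at h2
      have h3 : u = ⟨[], h1⟩ := Subtype.ext hu
      rw [h3]
      exact h2
    · intro v _ hv
      rw [Pi.single_eq_of_ne hv, mul_zero]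
    · intro h
      exact absurd (Finset.mem_univ _) h
  · exact hcon u hu

private theorem flem_tail (S : Finset (List ℕ)) (hS : ∀ a l, a :: l ∈ S → l ∈ S) :
    ∀ v u : List ℕ, v ++ u ∈ S → u ∈ S := by
  intro v
  induction v with
  | nil => intro u h; exact h
  | cons a v ih => intro u h; exact ih u (hS a _ h)

private theorem flem_der {K : Type*} [Field K] (τ : K ≃+* K) (x : K) (hNo : NoSol τ x)
    (S : Finset (List ℕ)) (hS : ∀ a l, a :: l ∈ S → l ∈ S) (hpos : ∀ l ∈ S, ∀ a ∈ l, 1 ≤ a)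
    (A : Submodule K (S → K)) (hst : ∀ f ∈ A, (Tm x S).mulVec (fun u => τ (f u)) ∈ A) :
    ∀ (v : List ℕ) (f1 : S → K), f1 ∈ A → (∀ u, τ (f1 u) = f1 u) → ∃ f2 ∈ A,
      (∀ u, τ (f2 u) = f2 u) ∧
      (∀ (u : S) (h : v ++ u.1 ∈ S), f2 u = f1 ⟨v ++ u.1, h⟩) ∧
      (∀ u : S, v ++ u.1 ∉ S → f2 u = 0) := by
  intro v
  induction v with
  | nil =>
    intro f1 hf hτ
    exact ⟨f1, hf, hτ, fun u h => rfl, fun u h => absurd u.2 h⟩
  | cons a v ih =>
    intro f1 hf hτ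
    obtain ⟨f2, h2A, h2τ, h2, h2'⟩ := ih (dder S a f1) (con_der τ x hNo S hS hpos A hst a f1 hf) (by
      intro u
      unfold dder
      split_ifs with h
      · exact hτ _
      · exact map_zero τ)
    refine ⟨f2, h2A, h2τ, ?_, ?_⟩
    · intro u h
      have h3 : v ++ u.1 ∈ S := hS a _ h
      rw [h2 u h3]
      unfold dder
      rw [dif_pos (show a :: (v ++ u.1) ∈ S from h)]
      rfl
    · intro u h
      by_cases h3 : v ++ u.1 ∈ S
      · rw [h2 u h3]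
        unfold dder
        rw [dif_neg (show ¬ (a :: (v ++ u.1) ∈ S) from h)]
      · exact h2' u h3

theorem lemZF {K : Type*} [Field K] (τ : K ≃+* K) (x : K) (hNo : NoSol τ x)
    (S0 S1 : Finset (List ℕ)) (hS0 : ∀ a l, a :: l ∈ S0 → l ∈ S0)
    (hS1 : ∀ a l, a :: l ∈ S1 → l ∈ S1) (hp0 : ∀ l ∈ S0, ∀ a ∈ l, 1 ≤ a)
    (hp1 : ∀ l ∈ S1, ∀ a ∈ l, 1 ≤ a) (h0 : [] ∈ S0) (h1 : [] ∈ S1)
    (Rx : List ℕ → List ℕ → K) (L : ℕ) (d0 : K) (hd0 : d0 ≠ 0) (hd0τ : τ d0 = d0)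
    (hR0 : ∀ a, L ≤ a → Rx [a] [] = 0)
    (hR1 : ∀ c : ℕ, 1 ≤ c → Rx [L] [c] = d0 * (-x⁻¹) ^ (c + 1))
    (hR2 : ∀ a c : ℕ, L < a → 1 ≤ c → Rx [a] [c] = 0)
    (J : Submodule K ((S0 → K) × (S1 → K)))
    (hst : ∀ p ∈ J, ∃ q ∈ J, Pool.MZExp.Rel τ x S0 S1 Rx p q)
    (he : ((Pi.single (⟨[], h0⟩ : S0) 1 : S0 → K), (0 : S1 → K)) ∈ J)
    (v0 : List ℕ) (hL : v0 ++ [L] ∈ S0)
    (hv0 : ∀ u, v0 ++ u ∈ S0 → u ≠ [] → ∃ a, L ≤ a ∧ u = [a])
    (hne : ∃ p ∈ J, p.1 ⟨v0 ++ [L], hL⟩ ≠ 0) :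
    S1.card ≤ Module.finrank K J := by
  classical
  by_contra hlt
  rw [not_le] at hlt
  -- (1)
  obtain ⟨A, hAdef⟩ : ∃ A : Submodule K (S0 → K),
    A = J.map (LinearMap.fst K (S0 → K) (S1 → K)) := ⟨_, rfl⟩
  have hAmem : ∀ f : S0 → K, f ∈ A ↔ ∃ p ∈ J, p.1 = f := by
    intro f
    rw [hAdef, Submodule.mem_map]
    exact Iff.rfl
  have hstA : ∀ f ∈ A, (Tm x S0).mulVec (fun u => τ (f u)) ∈ A := by
    intro f hf
    obtain ⟨p, hp, rfl⟩ := (hAmem f).1 hf
    obtain ⟨q, hq, hrel⟩ := hst p hp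
    exact (hAmem _).2 ⟨q, hq, hrel.1⟩
  obtain ⟨f1, hf1A, hf1τ, hf1w⟩ := con_inv τ x hNo S0 hS0 hp0 A hstA ⟨v0 ++ [L], hL⟩ (by
    obtain ⟨p, hp, hpne⟩ := hne
    exact ⟨p.1, (hAmem _).2 ⟨p, hp, rfl⟩, hpne⟩)
  obtain ⟨f2, hf2A, hf2τ, hf2, hf2'⟩ := flem_der τ x hNo S0 hS0 hp0 A hstA v0 f1 hf1A hf1τ
  have hLS : [L] ∈ S0 := flem_tail S0 hS0 v0 [L] hL
  have hf2L : f2 ⟨[L], hLS⟩ ≠ 0 := by
    rw [hf2 ⟨[L], hLS⟩ hL]
    exact hf1w
  have hf2z : ∀ u : S0, f2 u ≠ 0 → u.1 ≠ [] → ∃ a, L ≤ a ∧ u.1 = [a] := by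
    intro u hu hu1
    have h2 : v0 ++ u.1 ∈ S0 := by
      by_contra h
      exact hu (hf2' u h)
    exact hv0 u.1 h2 hu1
  obtain ⟨e, he'⟩ : ∃ e : S0 → K, e = (Pi.single (⟨[], h0⟩ : S0) 1 : S0 → K) := ⟨_, rfl⟩
  rw [← he'] at he
  have hen : e ⟨[], h0⟩ = 1 := by
    rw [he', Pi.single_eq_same]
  have hez : ∀ u : S0, u.1 ≠ [] → e u = 0 := by
    intro u hu
    rw [he', Pi.single_eq_of_ne (fun h => hu (by rw [h]))]
  have heA : e ∈ A := (hAmem _).2 ⟨_, he, rfl⟩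
  obtain ⟨f, hfdef⟩ : ∃ f : S0 → K, f = f2 - f2 ⟨[], h0⟩ • e := ⟨_, rfl⟩
  have hfA : f ∈ A := by
    rw [hfdef]
    exact A.sub_mem hf2A (A.smul_mem _ heA)
  have hfn : f ⟨[], h0⟩ = 0 := by
    rw [hfdef, Pi.sub_apply, Pi.smul_apply, hen, smul_eq_mul, mul_one, sub_self]
  have hff : ∀ u : S0, u.1 ≠ [] → f u = f2 u := by
    intro u hu
    rw [hfdef, Pi.sub_apply, Pi.smul_apply, hez u hu, smul_zero, sub_zero]
  have hfn' : ∀ u : S0, u.1 = [] → f u = 0 := by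
    intro u hu
    have h2 : u = ⟨[], h0⟩ := Subtype.ext hu
    rw [h2]
    exact hfn
  have hfz : ∀ u : S0, f u ≠ 0 → ∃ a, L ≤ a ∧ u.1 = [a] := by
    intro u hu
    have hu1 : u.1 ≠ [] := fun h => hu (hfn' u h)
    refine hf2z u ?_ hu1
    rw [← hff u hu1]
    exact hu
  have hfτ : ∀ u : S0, τ (f u) = f u := by
    intro u
    by_cases hu : u.1 = []
    · rw [hfn' u hu, map_zero]
    · rw [hff u hu]
      exact hf2τ u
  have hfL : f ⟨[L], hLS⟩ ≠ 0 := by
    rw [hff _ (List.cons_ne_nil _ _)]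
    exact hf2L
  -- (2)
  obtain ⟨p0, hp0J, hp0f⟩ := (hAmem f).1 hfA
  obtain ⟨q, hq, hrel1, hrel2⟩ := hst p0 hp0J
  have hq1 : ∀ u : S0, u.1 ≠ [] → q.1 u = f u := by
    intro u hu
    rw [hrel1, hp0f, Tm_mulVec]
    have h2 : ∑ w : S0, (if w.1 = w.1.headI :: u.1 then (-x⁻¹) ^ w.1.headI else 0) *
        τ (f w) = 0 := by
      apply Finset.sum_eq_zero
      intro w _
      split_ifs with hw
      · have h3 : f w = 0 := by
          by_contra h4
          obtain ⟨a, -, ha⟩ := hfz w h4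
          rw [ha] at hw
          have h5 := (List.cons.inj hw).2
          exact hu h5.symm
        rw [h3, map_zero, mul_zero]
      · rw [zero_mul]
    rw [h2, add_zero]
    exact hfτ u
  have hdJ : ((0 : S0 → K), q.2 - p0.2) ∈ J := by
    have h2 : q - p0 - (q.1 ⟨[], h0⟩ - p0.1 ⟨[], h0⟩) • (e, (0 : S1 → K)) ∈ J :=
      J.sub_mem (J.sub_mem hq hp0J) (J.smul_mem _ he)
    have h3 : q - p0 - (q.1 ⟨[], h0⟩ - p0.1 ⟨[], h0⟩) • (e, (0 : S1 → K)) =
        ((0 : S0 → K), q.2 - p0.2) := by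
      apply Prod.ext
      · funext u
        show q.1 u - p0.1 u - (q.1 ⟨[], h0⟩ - p0.1 ⟨[], h0⟩) * e u = 0
        by_cases hu : u.1 = []
        · have h4 : u = ⟨[], h0⟩ := Subtype.ext hu
          rw [h4, hen, mul_one, sub_self]
        · rw [hez u hu, mul_zero, sub_zero, hq1 u hu, hp0f, sub_self]
      · funext u
        show q.2 u - p0.2 u - (q.1 ⟨[], h0⟩ - p0.1 ⟨[], h0⟩) * 0 = (q.2 - p0.2) u
        rw [mul_zero, sub_zero, Pi.sub_apply]
    rw [← h3]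
    exact h2
  -- (3)
  obtain ⟨B, hBdef⟩ : ∃ B : Submodule K (S1 → K), B = J.comap (LinearMap.inr K (S0 → K) (S1 → K)) :=
    ⟨_, rfl⟩
  have hBmem : ∀ b : S1 → K, b ∈ B ↔ ((0 : S0 → K), b) ∈ J := by
    intro b
    rw [hBdef, Submodule.mem_comap]
    exact Iff.rfl
  have hBfin1 : Module.finrank K B + 1 < S1.card := by
    refine lt_of_le_of_lt ?_ hlt
    have hinj : Function.Injective (LinearMap.inr K (S0 → K) (S1 → K)) := LinearMap.inr_injective
    have hle : B.map (LinearMap.inr K (S0 → K) (S1 → K)) ≤ J := by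
      rintro _ ⟨b, hb, rfl⟩
      exact (hBmem b).1 hb
    have hlt' : B.map (LinearMap.inr K (S0 → K) (S1 → K)) < J := by
      refine lt_of_le_of_ne hle ?_
      intro h
      have h2 : p0 ∈ B.map (LinearMap.inr K (S0 → K) (S1 → K)) := by
        rw [h]
        exact hp0J
      obtain ⟨b, -, hb⟩ := h2
      have h3 : p0.1 = 0 := by
        rw [← hb]
        rfl
      have h4 := congrFun h3 ⟨[L], hLS⟩
      rw [hp0f, Pi.zero_apply] at h4
      exact hfL h4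
    have h5 := Submodule.finrank_lt_finrank_of_lt hlt'
    have h6 := LinearEquiv.finrank_eq (Submodule.equivMapOfInjective
      (LinearMap.inr K (S0 → K) (S1 → K)) hinj B)
    omega
  have hBfin : Module.finrank K B < S1.card := by omega
  have hBst : ∀ b ∈ B, ∃ b' ∈ B, ∀ v : S1, Matrix.vecMul b' (Tm x S1) v = τ (b v) := by
    intro b hb
    obtain ⟨q, hq, hrel1, hrel2⟩ := hst _ ((hBmem b).1 hb)
    have hq1 : q.1 = 0 := by
      rw [hrel1]
      have h2 : (fun u => τ (((0 : S0 → K), b).1 u)) = (0 : S0 → K) := by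
        funext u
        exact map_zero τ
      rw [h2, Matrix.mulVec_zero]
    refine ⟨q.2, ?_, ?_⟩
    · rw [hBmem, ← hq1]
      exact hq
    · intro v
      rw [hrel2 v]
      have h2 : ∑ u : S0, τ (((0 : S0 → K), b).1 u) * Rx u v = 0 := by
        apply Finset.sum_eq_zero
        intro u _
        have h3 : τ (((0 : S0 → K), b).1 u) = 0 := map_zero τ
        rw [h3, zero_mul]
      rw [h2, sub_zero]
  have hBp : flemBp B ≠ ⊥ := by
    obtain ⟨μ, hμ, hμB⟩ := flem_Bp_ne S1 B hBfin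
    intro h
    apply hμ
    have h2 : μ ∈ flemBp B := hμB
    rw [h, Submodule.mem_bot] at h2
    exact h2
  obtain ⟨e1, he1B, he1⟩ := uni_min τ x hNo S1 hS1 hp1 (flemBp B) hBp (by
    intro μ hμ
    obtain ⟨g, hg, hgm⟩ := flem_stab τ x S1 B hBst μ hμ
    exact ⟨g, hg, Or.inr hgm⟩)
  have hBnil : ∀ b ∈ B, b ⟨[], h1⟩ = 0 := by
    intro b hb
    rw [← flem_nil S1 h1 e1 he1 b]
    exact he1B b hb
  -- (4)
  have hdiff : q.2 - p0.2 ∈ B := (hBmem _).2 hdJ
  have h2 : q.2 ⟨[], h1⟩ = p0.2 ⟨[], h1⟩ := by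
    have h3 := hBnil _ hdiff
    rw [Pi.sub_apply] at h3
    exact sub_eq_zero.1 h3
  have h3 := hrel2 ⟨[], h1⟩
  rw [Tm_vecMul_nil x S1 q.2 ⟨[], h1⟩ rfl, h2] at h3
  have hR0s : ∑ u : S0, τ (p0.1 u) * Rx u [] = 0 := by
    apply Finset.sum_eq_zero
    intro u _
    rw [hp0f]
    by_cases hu : f u = 0
    · rw [hu, map_zero, zero_mul]
    · obtain ⟨a, ha, hua⟩ := hfz u hu
      rw [hua, hR0 a ha, mul_zero]
  have h3' : p0.2 ⟨[], h1⟩ = τ (p0.2 ⟨[], h1⟩) := by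
    rw [hR0s, sub_zero] at h3
    exact h3
  have hRsum : ∀ c : ℕ, 1 ≤ c → ∑ u : S0, τ (p0.1 u) * Rx u [c] =
      f ⟨[L], hLS⟩ * d0 * (-x⁻¹) ^ (c + 1) := by
    intro c hc
    rw [Finset.sum_eq_single (⟨[L], hLS⟩ : S0)]
    · rw [hp0f, hfτ, hR1 c hc, mul_assoc]
    · intro w _ hw
      rw [hp0f]
      by_cases hu : f w = 0
      · rw [hu, map_zero, zero_mul]
      · obtain ⟨a, ha, hua⟩ := hfz w hu
        have ha' : L < a := by
          refine lt_of_le_of_ne ha ?_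
          intro h
          apply hw
          apply Subtype.ext
          show w.1 = [L]
          rw [hua, ← h]
        rw [hua, hR2 a c ha' hc, mul_zero]
    · intro h
      exact absurd (Finset.mem_univ _) h
  obtain ⟨δ, hδ⟩ : ∃ δ : K, δ = f ⟨[L], hLS⟩ * d0 := ⟨_, rfl⟩
  have hδ0 : δ ≠ 0 := by
    rw [hδ]
    exact mul_ne_zero hfL hd0
  have hδτ : τ δ = δ := by
    rw [hδ, map_mul, hfτ, hd0τ]
  have hstμ : ∀ μ ∈ flemBp B, ∃ g ∈ flemBp B, g = (Tm x S1).mulVec (fun u => τ (μ u)) ∨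
      (Tm x S1).mulVec (fun u => τ (g u)) = μ := by
    intro μ hμ
    obtain ⟨g, hg, hgm⟩ := flem_stab τ x S1 B hBst μ hμ
    exact ⟨g, hg, Or.inr hgm⟩
  obtain ⟨g, hgB, hg2, hgτ, u0, hu0, hgu0⟩ := uni_min1 τ x hNo S1 hS1 hp1 (flemBp B)
    (flem_sep S1 h1 B hBfin1) hstμ
  refine flem_final τ x hNo S1 hp1 (fun v => if v.1 = [] then 0 else g v)
    (fun v => p0.2 v / δ) (fun v => (q.2 - p0.2) v / δ) (p0.2 ⟨[], h1⟩ / δ) ?_ ?_ ?_ ⟨u0, ?_⟩ ?_ ?_
  · rw [map_div₀, hδτ, ← h3']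
  · intro v hv
    have hv1 : v.1 ≠ [] := by
      intro h
      exact hv (if_pos h)
    have hv2 : g v ≠ 0 := by
      intro h
      apply hv
      show (if v.1 = [] then (0 : K) else g v) = 0
      rw [if_neg hv1]
      exact h
    have hv3 : v.1.length < 2 := by
      by_contra h
      exact hv2 (hg2 v (not_lt.1 h))
    obtain ⟨l, hl⟩ : ∃ l : List ℕ, l = v.1 := ⟨_, rfl⟩
    rw [← hl] at hv1 hv3 ⊢
    rcases l with _ | ⟨c, _ | ⟨c', l⟩⟩
    · exact absurd rfl hv1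
    · exact ⟨c, rfl⟩
    · simp only [List.length_cons] at hv3
      omega
  · intro v
    by_cases hv : v.1 = []
    · show τ (if v.1 = [] then (0 : K) else g v) = (if v.1 = [] then (0 : K) else g v)
      rw [if_pos hv, map_zero]
    · show τ (if v.1 = [] then (0 : K) else g v) = (if v.1 = [] then (0 : K) else g v)
      rw [if_neg hv]
      exact hgτ v hv
  · show (if u0.1 = [] then (0 : K) else g u0) ≠ 0
    rw [if_neg hu0]
    exact hgu0
  · have h4 : ∑ v, g v * (q.2 - p0.2) v = 0 := hgB _ hdiff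
    have h5 : ∑ v : S1, (if v.1 = [] then (0 : K) else g v) * ((q.2 - p0.2) v / δ) =
        (∑ v, g v * (q.2 - p0.2) v) / δ := by
      rw [Finset.sum_div]
      refine Finset.sum_congr rfl fun v _ => ?_
      by_cases hv : v.1 = []
      · have h5 : v = ⟨[], h1⟩ := Subtype.ext hv
        have h6 : (q.2 - p0.2) v = 0 := by
          rw [h5]
          exact hBnil _ hdiff
        rw [h6, zero_div, mul_zero, mul_zero, zero_div]
      · rw [if_neg hv, mul_div_assoc]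
    rw [h4, zero_div] at h5
    exact h5
  · intro v c hc
    have h4 := hrel2 v
    have hc1 : 1 ≤ c := hp1 v.1 v.2 c (by rw [hc]; exact List.mem_singleton.2 rfl)
    rw [Tm_vecMul_cons x S1 q.2 v ⟨[], h1⟩ c hc, h2] at h4
    have h5 : ∑ u : S0, τ (p0.1 u) * Rx u v.1 = δ * (-x⁻¹) ^ (c + 1) := by
      rw [hc, hRsum c hc1, hδ]
    rw [h5] at h4
    show (q.2 - p0.2) v / δ = τ (p0.2 v / δ) - p0.2 v / δ - (-x⁻¹) ^ (c + 1) -
      (-x⁻¹) ^ c * (p0.2 ⟨[], h1⟩ / δ)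
    rw [map_div₀, hδτ, Pi.sub_apply, eq_sub_of_add_eq h4]
    field_simp
    ring

end Pool.MZFin
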