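import Pool.Agent.Lib.MZFin.FAlg
import Pool.Agent.Lib.MZFin.YSig
import Pool.Agent.Lib.MZFin.YRec
import Pool.Agent.Lib.MZFin.YPad

/-! MP_c511df_nt, exponent 1/3, module `FZst` (220 lines): the zero estimate (Z*) of helper56 and
helper65 at infinity, for `r` families of moments at the same time (CODED WORDS).

PROOF. `L = S.sup List.sum + 1`, larger than all letters of words of `S`. `S' = Enc S L r`: closed under
tails (`v ++ [L + i]`, `v = a :: v'`: tail `v' ++ [L + i]`; `v = []`: tail `[]`), letters `≥ 1`,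
`[] ∈ S'`, `S'.card ≤ r * S.card + 1` (`Finset.card_insert_le`, `card_image_le`, `card_product`), so
`2 * S'.card < S0.card`. For `i < r` and `u, v` put `mm w v n = 0` for `w = []` and
`mm w v n = m (w.getLast - L) w.dropLast v n` for `w ≠ []` with `L ≤ w.getLast` (`0` otherwise), and
`R' w v` in the same way from the polynomials `R i` of `RecE` (`choose`; for `i ≥ r` take `0`). For a word
`w = v1 ++ [L + i]`: `mm w v n = m i v1 v n`, and for a function `F` of words with `F [] = 0`:
`tq F (v1 ++ [L + i]) n = tq (fun v' n' => F (v' ++ [L + i]) n') v1 n` (cases on `v1`). So the `RecE` of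
`m i` at `(v1, v)` is the recursion for `mm` at `(w, v)`; for `w = []` all terms are `0`. `rec_series`
(sets `S'`, `S0`) gives the hypothesis of `zero_algF` for `Cs w v = ser (fun n => (-1)^n * mm w v n)`
(`Cs [] v = ser 0 = 0`). `R' [a] [] = R i [] [] = 0`; `R' [L] [c] = R 0 [] [c]`; for `a > L`:
`R' [a] [c] = R i [] [c] = C ((-1)^(c+1) * 0) * X^(c+1) = 0` (or `0` if `i ≥ r`). Degrees of `R' w v` for
`w ∈ S'`, `v ∈ S0`: at most `S.sup List.sum + S0.sup List.sum + 1 =: d`. `D0` from `zero_algF`, at least `1`.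
Given `P`: `a w = 0` for `w = []`, `a (v ++ [L + i]) = P i v`; the hypothesis is
`∑ w : S', ∑ k ∈ range (D/2+1), (a w).coeff k * mm w u (k + n) = 0` for `u ∈ S0`, `n ≤ D - 1` (sum over
the image of an injective map: `(v, i) ↦ v ++ [L + i]`, `List.append_inj'`). `exists_pade (D/2) (D-1)`
(`(D-1) + 2 = D + 1`) gives the hypothesis of `zero_algF` for `(a w).comp (-X)`. With
`v0 = v` (`IsTop S v`): if `v ++ u ∈ S'`, `u ≠ []`, then `v ++ u = v' ++ [L + i]`, `u = u' ++ [L + i]`,
`v' = v ++ u' ∈ S`, so `u' = []`. Result: `(P 0 v).comp (-X) = 0`, so `P 0 v = 0` (as in `YMain`). -/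

open Finset Polynomial Pool.MZExp

namespace Pool.MZFin

/-- the moments for the coded words -/
private def fzst_mm (L : ℕ) (m : ℕ → List ℕ → List ℕ → ℕ → ℚ) (w v : List ℕ) (n : ℕ) : ℚ :=
  if L ≤ w.getLastD 0 then m (w.getLastD 0 - L) w.dropLast v n else 0

/-- the polynomials for the coded words -/
private noncomputable def fzst_R (L r : ℕ) (R : ℕ → List ℕ → List ℕ → ℚ[X]) (w v : List ℕ) : ℚ[X] :=
  if L ≤ w.getLastD 0 ∧ w.getLastD 0 < L + r then R (w.getLastD 0 - L) w.dropLast v else 0

private lemma fzst_last (v : List ℕ) (b : ℕ) : (v ++ [b]).getLastD 0 = b := by simp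

private lemma fzst_drop (v : List ℕ) (b : ℕ) : (v ++ [b]).dropLast = v := by simp

private lemma fzst_mm_coded (L : ℕ) (m : ℕ → List ℕ → List ℕ → ℕ → ℚ) (v1 v : List ℕ) (i n : ℕ) :
    fzst_mm L m (v1 ++ [L + i]) v n = m i v1 v n := by
  unfold fzst_mm
  rw [fzst_last, fzst_drop, if_pos (by omega), Nat.add_sub_cancel_left]

private lemma fzst_mm_nil (L : ℕ) (hL : 1 ≤ L) (m : ℕ → List ℕ → List ℕ → ℕ → ℚ) (v : List ℕ)
    (n : ℕ) : fzst_mm L m [] v n = 0 := by
  unfold fzst_mm
  rw [if_neg]
  simp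
  omega

private lemma fzst_R_coded (L r : ℕ) (R : ℕ → List ℕ → List ℕ → ℚ[X]) (v1 v : List ℕ) (i : ℕ)
    (hi : i < r) : fzst_R L r R (v1 ++ [L + i]) v = R i v1 v := by
  unfold fzst_R
  rw [fzst_last, fzst_drop, if_pos ⟨by omega, by omega⟩, Nat.add_sub_cancel_left]

private lemma fzst_R_nil (L r : ℕ) (hL : 1 ≤ L) (R : ℕ → List ℕ → List ℕ → ℚ[X]) (v : List ℕ) :
    fzst_R L r R [] v = 0 := by
  unfold fzst_R
  rw [if_neg]
  simp
  omega

private lemma fzst_tq (F : List ℕ → ℕ → ℚ) (hF : ∀ n, F [] n = 0) (v1 : List ℕ) (b n : ℕ) :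
    tq F (v1 ++ [b]) n = tq (fun u' n' => F (u' ++ [b]) n') v1 n := by
  cases v1 with
  | nil =>
    change F [b] n + (if b ≤ n then F [] (n - b) else 0) = F ([] ++ [b]) n
    rw [hF, List.nil_append]
    simp
  | cons a t => rfl

private lemma fzst_tq_zero (F : List ℕ → ℕ → ℚ) (hF : ∀ v n, F v n = 0) (v : List ℕ) (n : ℕ) :
    tq F v n = 0 := by
  cases v with
  | nil => exact hF _ _
  | cons a t =>
    change F (a :: t) n + (if a ≤ n then F t (n - a) else 0) = 0
    rw [hF, hF]
    simp

private lemma fzst_mem (S : Finset (List ℕ)) (L r : ℕ) (w : List ℕ) :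
    w ∈ Enc S L r ↔ w = [] ∨ ∃ v ∈ S, ∃ i, i < r ∧ w = v ++ [L + i] := by
  unfold Enc
  rw [mem_insert, mem_image]
  constructor
  · rintro (h | ⟨q, hq, rfl⟩)
    · exact Or.inl h
    · rw [mem_product, mem_range] at hq
      exact Or.inr ⟨q.1, hq.1, q.2, hq.2, rfl⟩
  · rintro (h | ⟨v, hv, i, hi, rfl⟩)
    · exact Or.inl h
    · exact Or.inr ⟨(v, i), by rw [mem_product, mem_range]; exact ⟨hv, hi⟩, rfl⟩

private lemma fzst_sum (S : Finset (List ℕ)) (L r : ℕ) (g : List ℕ → ℚ) (hg : g [] = 0) :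
    ∑ w : Enc S L r, g w = ∑ i ∈ range r, ∑ v ∈ S, g (v ++ [L + i]) := by
  rw [Finset.sum_coe_sort (Enc S L r) g]
  unfold Enc
  rw [sum_insert, hg, zero_add, sum_image, sum_product, sum_comm]
  · intro p _ q _ h
    have h' : p.1 ++ [L + p.2] = q.1 ++ [L + q.2] := h
    obtain ⟨h1, h2⟩ := List.append_inj' h' rfl
    have h3 : L + p.2 = L + q.2 := by simpa using h2
    exact Prod.ext h1 (by omega)
  · rw [mem_image]
    rintro ⟨q, _, h⟩
    exact (List.append_ne_nil_of_right_ne_nil q.1 (List.cons_ne_nil (L + q.2) [])) h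

theorem zstar (S S0 : Finset (List ℕ)) (hS : TC1 S) (hS0 : TC1 S0) (r : ℕ) (hr : 1 ≤ r)
    (hcard : 2 * (r * S.card + 1) < S0.card) :
    ∃ D0 : ℕ, ∀ D : ℕ, D0 ≤ D → ∀ (m : ℕ → List ℕ → List ℕ → ℕ → ℚ) (d0 : ℚ), d0 ≠ 0 →
      RecE d0 (m 0) → (∀ i, 1 ≤ i → i < r → RecE 0 (m i)) →
      ∀ P : ℕ → List ℕ → ℚ[X], (∀ i v, (P i v).natDegree ≤ D / 2) →
      (∀ u ∈ S0, ∀ n < D, ∑ i ∈ range r, ∑ v ∈ S, ∑ k ∈ range (D / 2 + 1),
        (P i v).coeff k * m i v u (k + n) = 0) →
      ∀ v, IsTop S v → P 0 v = 0 := by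
  obtain ⟨hS1, hS2, hS3⟩ := hS
  obtain ⟨hA1, hA2, hA3⟩ := hS0
  set L := S.sup List.sum + 1 with hLdef
  have hL1 : 1 ≤ L := by omega
  have hE1 : [] ∈ Enc S L r := (fzst_mem S L r []).2 (Or.inl rfl)
  have hE2 : ∀ l ∈ Enc S L r, ∀ a ∈ l, 1 ≤ a := by
    intro l hl a ha
    rcases (fzst_mem S L r l).1 hl with rfl | ⟨v, hv, i, _, rfl⟩
    · simp at ha
    · rcases List.mem_append.1 ha with h | h
      · exact hS2 v hv a h
      · rw [List.mem_singleton] at h
        omega
  have hE3 : ∀ a l, a :: l ∈ Enc S L r → l ∈ Enc S L r := by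
    intro a l hl
    rcases (fzst_mem S L r _).1 hl with h | ⟨v, hv, i, hi, h⟩
    · simp at h
    · cases v with
      | nil =>
        rw [List.nil_append] at h
        have h2 : l = [] := (List.cons.inj h).2
        rw [h2]
        exact hE1
      | cons b t =>
        rw [List.cons_append] at h
        have h2 : l = t ++ [L + i] := (List.cons.inj h).2
        rw [h2]
        exact (fzst_mem S L r _).2 (Or.inr ⟨t, hS3 b t hv, i, hi, rfl⟩)
  have hcard2 : 2 * (Enc S L r).card < S0.card := by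
    have h1 : (Enc S L r).card ≤ r * S.card + 1 := by
      unfold Enc
      refine (card_insert_le _ _).trans ?_
      have h2 : ((S ×ˢ range r).image fun q : List ℕ × ℕ => q.1 ++ [L + q.2]).card ≤
          (S ×ˢ range r).card := card_image_le
      rw [card_product, card_range, mul_comm] at h2
      omega
    omega
  obtain ⟨σ, hσ1, hσ2, hσ3⟩ := exists_sigma
  obtain ⟨D0, hD0⟩ := zero_algF (Enc S L r) S0 hE3 hA3 hE2 hA2 hE1 hA1
    (S.sup List.sum + S0.sup List.sum + 1) L hcard2
  refine ⟨max D0 1, fun D hD m d0 hd0 hrec0 hrec P hdeg hvan v hv => ?_⟩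
  have hD1 : D0 ≤ D := (le_max_left _ _).trans hD
  have hD2 : 1 ≤ D := (le_max_right _ _).trans hD
  have hex : ∀ i, i < r → ∃ R : List ℕ → List ℕ → ℚ[X], R [] [] = 0 ∧
      (∀ c : ℕ, 1 ≤ c → R [] [c] = C ((-1) ^ (c + 1) * (if i = 0 then d0 else 0)) * X ^ (c + 1)) ∧
      (∀ u v, (R u v).natDegree ≤ u.sum + v.sum + 1 ∧ (R u v).coeff 0 = 0) ∧
      ∀ u v : List ℕ, (∀ a ∈ u, 1 ≤ a) → (∀ a ∈ v, 1 ≤ a) → ∀ n : ℕ,
        ∑ k ∈ Finset.range (n + 1), (n.choose k : ℚ) * (-1) ^ (n - k) * m i u v k =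
          tq (fun u' n' => tq (fun v' n'' => m i u' v' n'') v n') u n +
            (-1) ^ n * (R u v).coeff (n + 1) := by
    intro i hi
    by_cases h0 : i = 0
    · subst h0
      rw [if_pos rfl]
      exact hrec0
    · rw [if_neg h0]
      exact hrec i (by omega) hi
  choose! R hR using hex
  have hvL : v ++ [L] ∈ Enc S L r :=
    (fzst_mem S L r _).2 (Or.inr ⟨v, hv.1, 0, by omega, by rw [add_zero]⟩)
  have key : (if (v ++ [L] : List ℕ) = [] then (0 : ℚ[X]) else
      P ((v ++ [L]).getLastD 0 - L) (v ++ [L]).dropLast).comp (-X) = 0 := by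
    refine hD0 D hD1 σ (fun w u => ser fun n => (-1) ^ n * fzst_mm L m w u n) (fzst_R L r R) d0 hd0
      hσ1 hσ2 ?_ ?_ ?_ ?_ ?_ ?_ (fun w : Enc S L r => ((if w.1 = [] then (0 : ℚ[X]) else
      P (w.1.getLastD 0 - L) w.1.dropLast).comp (-X))) ?_ ?_ v hvL ?_
    · intro w hw u hu
      rcases (fzst_mem S L r w).1 hw with rfl | ⟨v1, hv1, i, hi, rfl⟩
      · rw [fzst_R_nil L r hL1]
        simp
      · rw [fzst_R_coded L r R v1 u i hi]
        have h1 : v1.sum ≤ S.sup List.sum := Finset.le_sup (f := List.sum) hv1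
        have h2 : u.sum ≤ S0.sup List.sum := Finset.le_sup (f := List.sum) hu
        exact ((hR i hi).2.2.1 v1 u).1.trans (by omega)
    · intro a ha
      by_cases h : a < L + r
      · have h1 : fzst_R L r R ([] ++ [L + (a - L)]) [] = R (a - L) [] [] :=
          fzst_R_coded L r R [] [] (a - L) (by omega)
        rw [List.nil_append, Nat.add_sub_cancel' ha] at h1
        rw [h1]
        exact (hR (a - L) (by omega)).1
      · unfold fzst_R
        rw [if_neg]
        intro hc
        have : ([a] : List ℕ).getLastD 0 = a := fzst_last [] a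
        rw [this] at hc
        exact h hc.2
    · intro c hc
      have h1 : fzst_R L r R ([] ++ [L + 0]) [c] = R 0 [] [c] :=
        fzst_R_coded L r R [] [c] 0 (by omega)
      rw [List.nil_append, add_zero] at h1
      rw [h1, (hR 0 (by omega)).2.1 c hc, if_pos rfl]
    · intro a c ha hc
      by_cases h : a < L + r
      · have h1 : fzst_R L r R ([] ++ [L + (a - L)]) [c] = R (a - L) [] [c] :=
          fzst_R_coded L r R [] [c] (a - L) (by omega)
        rw [List.nil_append, Nat.add_sub_cancel' ha.le] at h1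
        rw [h1, (hR (a - L) (by omega)).2.1 c hc, if_neg (by omega)]
        simp
      · unfold fzst_R
        rw [if_neg]
        intro hc
        have : ([a] : List ℕ).getLastD 0 = a := fzst_last [] a
        rw [this] at hc
        exact h hc.2
    · intro u
      have h1 : (fun n : ℕ => (-1 : ℚ) ^ n * fzst_mm L m [] u n) = fun _ => 0 := by
        funext n
        rw [fzst_mm_nil L hL1, mul_zero]
      rw [h1]
      refine LS_ext (fun n hn => ?_) fun n => ?_
      · rw [ser_coeff_nonpos _ _ hn]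
        simp
      · rw [ser_coeff]
        simp
    · intro w u
      refine rec_series σ hσ3 (Enc S L r) S0 hE3 hA3 (fzst_mm L m) (fzst_R L r R w u) ?_ w u ?_
      · rcases (fzst_mem S L r w.1).1 w.2 with h | ⟨v1, hv1, i, hi, h⟩
        · rw [h, fzst_R_nil L r hL1]
          simp
        · rw [h, fzst_R_coded L r R v1 u i hi]
          exact ((hR i hi).2.2.1 v1 u).2
      · intro n
        rcases (fzst_mem S L r w.1).1 w.2 with h | ⟨v1, hv1, i, hi, h⟩
        · rw [h, fzst_R_nil L r hL1]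
          have h1 : ∀ k, fzst_mm L m [] u k = 0 := fun k => fzst_mm_nil L hL1 m u k
          have h2 : ∑ k ∈ Finset.range (n + 1), (n.choose k : ℚ) * (-1) ^ (n - k) *
              fzst_mm L m [] u k = 0 := sum_eq_zero fun k _ => by rw [h1, mul_zero]
          rw [h2]
          have h3 : tq (fun u' n' => tq (fun v' n'' => fzst_mm L m u' v' n'') u n') [] n = 0 :=
            fzst_tq_zero _ (fun v' n'' => fzst_mm_nil L hL1 m v' n'') u n
          rw [h3]
          simp
        · rw [h, fzst_R_coded L r R v1 u i hi]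
          rw [fzst_tq (fun u' n' => tq (fun v' n'' => fzst_mm L m u' v' n'') u n')
            (fun n' => fzst_tq_zero _ (fun v' n'' => fzst_mm_nil L hL1 m v' n'') u n')]
          simp only [fzst_mm_coded]
          exact (hR i hi).2.2.2 v1 u (hS2 v1 hv1) (hA2 u u.2) n
    · intro w
      refine natDegree_comp_le.trans ?_
      rw [natDegree_neg, natDegree_X, mul_one]
      split_ifs
      · simp
      · exact hdeg _ _
    · intro u
      have h1 := exists_pade (D / 2) (D - 1) (fun w : Enc S L r => if w.1 = [] then (0 : ℚ[X]) else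
          P (w.1.getLastD 0 - L) w.1.dropLast) (fun w => by
            split_ifs
            · simp
            · exact hdeg _ _) (fun w => fzst_mm L m w u) (fun n hn => by
            have h2 := fzst_sum S L r (fun w => ∑ k ∈ range (D / 2 + 1),
              (if w = [] then (0 : ℚ[X]) else P (w.getLastD 0 - L) w.dropLast).coeff k *
                fzst_mm L m w u (k + n)) (sum_eq_zero fun k _ => by
                  rw [fzst_mm_nil L hL1, mul_zero])
            refine h2.trans ?_
            rw [← hvan u u.2 n (by omega)]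
            refine sum_congr rfl fun i _ => sum_congr rfl fun v1 _ => sum_congr rfl fun k _ => ?_
            rw [fzst_mm_coded, if_neg (List.append_ne_nil_of_right_ne_nil v1
              (List.cons_ne_nil (L + i) [])), fzst_last, fzst_drop, Nat.add_sub_cancel_left])
      have h3 : ((D - 1 : ℕ) : ℤ) + 2 = (D : ℤ) + 1 := by omega
      rw [h3] at h1
      exact h1
    · intro u hu hne
      rcases (fzst_mem S L r _).1 hu with h | ⟨v', hv', i, hi, h⟩
      · exact absurd (List.append_eq_nil_iff.1 h).2 hne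
      · have hu' : u = u.dropLast ++ [u.getLast hne] := (List.dropLast_append_getLast hne).symm
        rw [hu', ← List.append_assoc] at h
        obtain ⟨h1, h2⟩ := List.append_inj' h rfl
        have h3 : u.dropLast = [] := hv.2 _ (h1 ▸ hv')
        have h4 : u.getLast hne = L + i := by simpa using h2
        refine ⟨L + i, by omega, ?_⟩
        rw [hu', h3, h4, List.nil_append]
  have hne : (v ++ [L] : List ℕ) ≠ [] :=
    List.append_ne_nil_of_right_ne_nil v (List.cons_ne_nil L [])
  have key2 : (P 0 v).comp (-X) = 0 := by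
    have h1 := key
    rw [if_neg hne, fzst_last, fzst_drop, Nat.sub_self] at h1
    exact h1
  have h1 : ((P 0 v).comp (-X)).comp (-X) = P 0 v := by
    rw [comp_assoc]
    simp
  rw [← h1, key2]
  simp

end Pool.MZFin
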