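import Pool.Agent.Lib.MZFin.Defs

/-! MP_c511df_nt, finite multiple zeta values, module `PBox` (90 lines): BOX PRINCIPLE WITH CONGRUENCES.

PROOF. `T := Fin D × A → Fin (Y + 1)` has `(Y+1)^(D * A.card)` elements (`Fintype.card_fun`,
`Fintype.card_prod`, `Fintype.card_coe`). Let `F : T → (p : Q) → Fin p.1 → ZMod p.1`,
`F z p M = ∑ q, (z q : ZMod p) * (C(M+1, q.1+1) * hs (wp p) q.2 M)`. The target has
`∏_(p : Q) p^p = ∏ p ∈ Q, p^p` elements (`Fintype.card_pi`, `Fintype.card_fun`, `ZMod.card`,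
`Finset.prod_coe_sort`; `ZMod p.1` is a `Fintype` because `p.1 ≠ 0` (prime): give the instance
`fun p : Q => (inferInstance : Fintype (ZMod p.1))` from `NeZero`). By the pigeonhole principle
(`Fintype.exists_ne_map_eq_of_card_lt`) there are `z ≠ z'` with `F z = F z'`; `y q = z q - z' q`
(integers): `y ≠ 0`, `|y q| ≤ Y`, and the sum for `y` is `F z p M - F z' p M = 0` (`M < p`). -/

open Finset

namespace Pool.MZFin

theorem box_p (Q : Finset ℕ) (hQ : ∀ p ∈ Q, p.Prime) (A : Finset (List ℕ)) (D Y : ℕ)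
    (h : ∏ p ∈ Q, p ^ p < (Y + 1) ^ (D * A.card)) :
    ∃ y : Fin D × A → ℤ, y ≠ 0 ∧ (∀ q, |y q| ≤ (Y : ℤ)) ∧
      ∀ p ∈ Q, ∀ M < p, ∑ q : Fin D × A, (y q : ZMod p) *
        ((((M + 1).choose ((q.1 : ℕ) + 1) : ℕ) : ZMod p) * hs (wp p) q.2 M) = 0 := by
  classical
  haveI hN : ∀ p : Q, NeZero p.1 := fun p => ⟨(hQ p.1 p.2).ne_zero⟩
  let F : (Fin D × A → Fin (Y + 1)) → ((p : Q) → Fin p.1 → ZMod p.1) := fun z p M =>
    ∑ q : Fin D × A, (((z q : ℕ) : ZMod p.1)) *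
      (((((M : ℕ) + 1).choose ((q.1 : ℕ) + 1) : ℕ) : ZMod p.1) * hs (wp p.1) q.2 (M : ℕ))
  have hcT : Fintype.card ((p : Q) → Fin p.1 → ZMod p.1) = ∏ p ∈ Q, p ^ p := by
    rw [Fintype.card_pi, ← Finset.prod_coe_sort Q (fun p => p ^ p)]
    refine Finset.prod_congr rfl fun p _ => ?_
    rw [Fintype.card_fun, ZMod.card, Fintype.card_fin]
  have hcS : Fintype.card (Fin D × A → Fin (Y + 1)) = (Y + 1) ^ (D * A.card) := by
    rw [Fintype.card_fun, Fintype.card_prod, Fintype.card_fin, Fintype.card_fin,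
      Fintype.card_coe]
  have hlt : Fintype.card ((p : Q) → Fin p.1 → ZMod p.1) <
      Fintype.card (Fin D × A → Fin (Y + 1)) := by
    rw [hcT, hcS]
    exact h
  obtain ⟨z, z', hne, hF⟩ := Fintype.exists_ne_map_eq_of_card_lt F hlt
  refine ⟨fun q => ((z q : ℕ) : ℤ) - ((z' q : ℕ) : ℤ), ?_, fun q => ?_, fun p hp M hM => ?_⟩
  · intro h0
    apply hne
    funext q
    have h1 := congrFun h0 q
    have h2 : ((z q : ℕ) : ℤ) - ((z' q : ℕ) : ℤ) = 0 := h1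
    apply Fin.ext
    omega
  · show |((z q : ℕ) : ℤ) - ((z' q : ℕ) : ℤ)| ≤ (Y : ℤ)
    have h1 := (z q).2
    have h2 := (z' q).2
    rw [abs_le]
    constructor <;> omega
  · have h1 := congrFun (congrFun hF ⟨p, hp⟩) ⟨M, hM⟩
    have h2 : ∑ q : Fin D × A, (((z q : ℕ) : ZMod p)) *
        ((((M + 1).choose ((q.1 : ℕ) + 1) : ℕ) : ZMod p) * hs (wp p) q.2 M) =
      ∑ q : Fin D × A, (((z' q : ℕ) : ZMod p)) *
        ((((M + 1).choose ((q.1 : ℕ) + 1) : ℕ) : ZMod p) * hs (wp p) q.2 M) := h1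
    have h3 : ∀ q : Fin D × A, ((((z q : ℕ) : ℤ) - ((z' q : ℕ) : ℤ) : ℤ) : ZMod p) *
        ((((M + 1).choose ((q.1 : ℕ) + 1) : ℕ) : ZMod p) * hs (wp p) q.2 M) =
        (((z q : ℕ) : ZMod p)) *
        ((((M + 1).choose ((q.1 : ℕ) + 1) : ℕ) : ZMod p) * hs (wp p) q.2 M) -
        (((z' q : ℕ) : ZMod p)) *
        ((((M + 1).choose ((q.1 : ℕ) + 1) : ℕ) : ZMod p) * hs (wp p) q.2 M) := by
      intro q
      push_cast
      ring
    rw [Finset.sum_congr rfl fun q _ => h3 q, Finset.sum_sub_distrib, h2, sub_self]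

end Pool.MZFin
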