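import Mathlib

/-! MP_c511df_nt, finite multiple zeta values, module `PCram` (220 lines, ONLY MATHLIB):
CRAMER'S RULE FOR INTEGER VECTORS. A vector `e` in the rational span of integer vectors `ρ_j`
(independent, entries `≤ H0`) and `B_i` (entries `≤ H`) has a nonzero integer multiple `Δ e` in
their integer span, with `Δ` at most linear in each of at most `n - κ` of the vectors `B_i`.

PROOF. Write `N = Fintype.card n`, `k = Fintype.card κ`. Index type `I = κ ⊕ (ι ⊕ n)`, family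
`v : I → (n → ℚ)`: `v (inl j) = ρ j`, `v (inr (inl i)) = B i`, `v (inr (inr l)) = Pi.single l 1`.
(1) `s0 = range inl` is linearly independent. `exists_linearIndepOn_extension` (with
`t = range inl ∪ range (inr ∘ inl)`) gives `s1 ⊇ s0`, `s1 ⊆ t`, independent, `v '' t ⊆ span (v '' s1)`;
again with `t = univ`: `s2 ⊇ s1` independent, `v '' univ ⊆ span (v '' s2)`, so `span (v '' s2) = ⊤`
(it contains the standard basis). So `v` restricted to `s2` is a basis of `n → ℚ` and
`card s2 = N` (`Module.finrank_fintype_fun_eq_card`, `finrank_eq_card_basis`); choose an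
equivalence `σ : n ≃ s2` (`Fintype.equivOfCardEq`).
(2) Integer matrix `M : Matrix n n ℤ`, `M l = the integer vector of index σ l` (`ρ j`, `B i` or the
unit vector); rows independent over `ℚ`, so `Δ := M.det ≠ 0` (`Matrix.linearIndependent_rows_iff_isUnit`
or `Matrix.nondegenerate..` for `M.map (Int.cast : ℤ → ℚ)`, `Int.cast` of the determinant:
`RingHom.map_det` / `Matrix.map_det..`).
(3) `lam := Matrix.vecMul e M.adjugate` (integers): `vecMul lam M = Δ • e`
(`Matrix.vecMul_vecMul`, `Matrix.adjugate_mul`).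
(4) the coefficients `lam l` at the unit vectors vanish: `e` is in the rational span of `v '' t`, so of
`v '' s1`: `e = ∑_(i ∈ s1) x_i v i`, and `Δ e = ∑_l lam l v (σ l)`; linear independence of `v` on `s2`
gives `lam l = Δ x_(σ l)` if `σ l ∈ s1` and `lam l = 0` otherwise. So
`Δ e = ∑_(l, σ l = inr (inl i)) lam l B i + ∑_(l, σ l = inl j) lam l ρ j`: put
`s i = lam (σ⁻¹ (inr (inl i)))` if `inr (inl i) ∈ s2`, else `0`; similarly `t j`.
(5) Bound: `|det M| ≤ ∑_σ ∏ |M (σ i) i|` (`Matrix.det_apply`, triangle inequality)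
`≤ N! * ∏_l c_l`, `c_l` = the bound of the row `l` (`H0`, `H`, `1`), and `∏ c_l = H0^(number of ρ rows) *
H^(number R of B rows)`; the number of `ρ` rows is `k` (all of `s0` is in `s2`), `k + R ≤ N`, so
`R ≤ N - k` and `H^R ≤ H^(N-k)` (`1 ≤ H`). (A row bound for a permutation product: `∏_i |M (σ i) i| ≤
∏_i c_(σ i) = ∏_l c_l`, `Equiv.prod_comp`.) -/

open Finset

set_option linter.unusedVariables false

namespace Pool.MZFin

private lemma pcram_det {n : Type} [Fintype n] [DecidableEq n] (M : Matrix n n ℤ) (c : n → ℕ)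
    (h : ∀ i j, |M i j| ≤ (c i : ℤ)) :
    |M.det| ≤ (((Fintype.card n).factorial * ∏ i, c i : ℕ) : ℤ) := by
  rw [Matrix.det_apply]
  refine (Finset.abs_sum_le_sum_abs _ _).trans ?_
  have h1 : ∀ σ ∈ (univ : Finset (Equiv.Perm n)),
      |Equiv.Perm.sign σ • ∏ i, M (σ i) i| ≤ ∏ i, (c i : ℤ) := by
    intro σ _
    have h2 : |Equiv.Perm.sign σ • ∏ i, M (σ i) i| = |∏ i, M (σ i) i| := by
      rcases Int.units_eq_one_or (Equiv.Perm.sign σ) with h | h
      · rw [h, one_smul]
      · rw [h, Units.neg_smul, one_smul, abs_neg]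
    rw [h2, Finset.abs_prod, ← Equiv.prod_comp σ (fun i => (c i : ℤ))]
    exact Finset.prod_le_prod (fun i _ => abs_nonneg _) fun i _ => h _ _
  refine (Finset.sum_le_sum h1).trans ?_
  rw [sum_const, card_univ, Fintype.card_perm, nsmul_eq_mul]
  push_cast
  exact le_rfl

theorem cram_int {n κ ι : Type} [Fintype n] [DecidableEq n] [Fintype κ] [Fintype ι]
    (ρ : κ → n → ℤ) (hρ : LinearIndependent ℚ (fun (j : κ) (l : n) => (ρ j l : ℚ)))
    (B : ι → n → ℤ) (H0 H : ℕ) (h0 : 1 ≤ H0) (h1 : 1 ≤ H) (hρb : ∀ j l, |ρ j l| ≤ (H0 : ℤ))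
    (hB : ∀ i l, |B i l| ≤ (H : ℤ)) (e : n → ℤ)
    (he : (fun l => (e l : ℚ)) ∈ Submodule.span ℚ
      (Set.range (fun (j : κ) (l : n) => (ρ j l : ℚ)) ∪
        Set.range (fun (i : ι) (l : n) => (B i l : ℚ)))) :
    ∃ Δ : ℤ, Δ ≠ 0 ∧
      |Δ| ≤ (((Fintype.card n).factorial * H0 ^ Fintype.card κ *
        H ^ (Fintype.card n - Fintype.card κ) : ℕ) : ℤ) ∧
      ∃ (s : ι → ℤ) (t : κ → ℤ), ∀ l, Δ * e l = ∑ i, s i * B i l + ∑ j, t j * ρ j l := by
  classical
  -- the family
  let vi : κ ⊕ (ι ⊕ n) → n → ℤ := Sum.elim ρ (Sum.elim B fun l => Pi.single l 1)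
  let v : κ ⊕ (ι ⊕ n) → n → ℚ := fun x l => (vi x l : ℚ)
  let c : κ ⊕ (ι ⊕ n) → ℕ := Sum.elim (fun _ => H0) (Sum.elim (fun _ => H) fun _ => 1)
  have hvc : ∀ x l, |vi x l| ≤ (c x : ℤ) := by
    rintro (j | i | k) l
    · exact hρb j l
    · exact hB i l
    · change |(Pi.single k 1 : n → ℤ) l| ≤ ((1 : ℕ) : ℤ)
      rw [Pi.single_apply]
      split_ifs <;> simp
  have hs0 : LinearIndepOn ℚ v (Set.range (Sum.inl : κ → κ ⊕ (ι ⊕ n))) := by
    have : LinearIndependent ℚ (v ∘ (Sum.inl : κ → κ ⊕ (ι ⊕ n))) := hρ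
    exact (linearIndepOn_range_iff Sum.inl_injective v).2 this
  let t0 : Set (κ ⊕ (ι ⊕ n)) := Set.range Sum.inl ∪ Set.range (fun i : ι => Sum.inr (Sum.inl i))
  obtain ⟨s1, hs1t, hs01, hsp1, hli1⟩ := exists_linearIndepOn_extension hs0
    (show Set.range Sum.inl ⊆ t0 from Set.subset_union_left)
  obtain ⟨s2, _, hs12, hsp2, hli2⟩ := exists_linearIndepOn_extension hli1 (Set.subset_univ s1)
  have htop : Submodule.span ℚ (v '' s2) = ⊤ := by
    rw [eq_top_iff]
    rw [← (Pi.basisFun ℚ n).span_eq, Submodule.span_le]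
    rintro _ ⟨l, rfl⟩
    refine hsp2 ⟨Sum.inr (Sum.inr l), Set.mem_univ _, ?_⟩
    funext l'
    change (((Pi.single l 1 : n → ℤ) l' : ℤ) : ℚ) = _
    rw [Pi.basisFun_apply, Pi.single_apply, Pi.single_apply]
    split_ifs <;> simp
  have hspr : Submodule.span ℚ (Set.range fun x : s2 => v x) = ⊤ := by
    rw [← htop]
    congr 1
    ext w
    simp
  let b : Module.Basis s2 ℚ (n → ℚ) := Module.Basis.mk hli2 hspr.ge
  have hcard : Fintype.card s2 = Fintype.card n := by
    rw [← Module.finrank_eq_card_basis b, Module.finrank_fintype_fun_eq_card]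
  obtain ⟨σ⟩ : Nonempty (n ≃ s2) := ⟨Fintype.equivOfCardEq hcard.symm⟩
  let M : Matrix n n ℤ := fun l => vi (σ l)
  have hdet : M.det ≠ 0 := by
    have h2 : LinearIndependent ℚ (M.map (Int.castRingHom ℚ)).row := by
      have : LinearIndependent ℚ ((fun x : s2 => v x) ∘ σ) := hli2.comp σ σ.injective
      exact this
    rw [Matrix.linearIndependent_rows_iff_isUnit, Matrix.isUnit_iff_isUnit_det,
      isUnit_iff_ne_zero] at h2
    intro h
    apply h2
    rw [← RingHom.mapMatrix_apply, ← RingHom.map_det, h, map_zero]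
  -- Cramer
  let lam : n → ℤ := Matrix.vecMul e M.adjugate
  have hlam : ∀ l, ∑ l', lam l' * M l' l = M.det * e l := by
    intro l
    have h2 : Matrix.vecMul lam M = M.det • e := by
      change Matrix.vecMul (Matrix.vecMul e M.adjugate) M = _
      rw [Matrix.vecMul_vecMul, Matrix.adjugate_mul, Matrix.vecMul_smul, Matrix.vecMul_one]
    have h3 := congrFun h2 l
    exact h3
  -- the coefficients outside of `s1` vanish
  have heS : (fun l => (e l : ℚ)) ∈ Submodule.span ℚ (v '' s1) := by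
    refine Submodule.span_le.2 ?_ he
    rintro w (⟨j, rfl⟩ | ⟨i, rfl⟩)
    · exact hsp1 ⟨Sum.inl j, Or.inl ⟨j, rfl⟩, rfl⟩
    · exact hsp1 ⟨Sum.inr (Sum.inl i), Or.inr ⟨i, rfl⟩, rfl⟩
  have hzero : ∀ l0, (σ l0 : κ ⊕ (ι ⊕ n)) ∉ s1 → lam l0 = 0 := by
    intro l0 hl0
    have h2 : (lam l0 : ℚ) • v (σ l0) ∈ Submodule.span ℚ (v '' (s2 \ {(σ l0 : κ ⊕ (ι ⊕ n))})) := by
      have h3 : (lam l0 : ℚ) • v (σ l0) = (M.det : ℚ) • (fun l => (e l : ℚ)) -
          ∑ l' ∈ univ.erase l0, (lam l' : ℚ) • v (σ l') := by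
        rw [eq_sub_iff_add_eq, Finset.add_sum_erase univ
          (fun l' => (lam l' : ℚ) • v (σ l')) (mem_univ l0)]
        funext l
        have h4 := hlam l
        have h5 : ∑ l', (lam l' : ℚ) * (M l' l : ℚ) = (M.det : ℚ) * (e l : ℚ) := by
          rw [← Int.cast_mul, ← h4, Int.cast_sum]
          exact sum_congr rfl fun _ _ => (Int.cast_mul _ _).symm
        rw [Finset.sum_apply]
        simp only [Pi.smul_apply, smul_eq_mul]
        exact h5
      rw [h3]
      refine Submodule.sub_mem _ (Submodule.smul_mem _ _ ?_) (Submodule.sum_mem _ fun l' hl' => ?_)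
      · refine Submodule.span_mono (Set.image_mono ?_) heS
        intro x hx
        refine ⟨hs12 hx, ?_⟩
        rintro rfl
        exact hl0 hx
      · refine Submodule.smul_mem _ _ (Submodule.subset_span ⟨_, ⟨(σ l').2, ?_⟩, rfl⟩)
        intro h
        rw [Set.mem_singleton_iff] at h
        exact (mem_erase.1 hl').1 (σ.injective (Subtype.ext h))
    have h3 := hli2.eq_zero_of_smul_mem_span (σ l0).2 _ h2
    exact_mod_cast h3
  let g : κ ⊕ (ι ⊕ n) → ℤ := fun x => if h : x ∈ s2 then lam (σ.symm ⟨x, h⟩) else 0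
  have hg : ∀ l, ∑ x, g x * vi x l = M.det * e l := by
    intro l
    rw [← hlam l, ← Equiv.sum_comp σ.symm]
    symm
    refine Fintype.sum_of_injective (Subtype.val : s2 → κ ⊕ (ι ⊕ n)) Subtype.val_injective _ _ ?_ ?_
    · intro x hx
      rw [Subtype.range_coe] at hx
      simp only [g, dif_neg hx, zero_mul]
    · intro x
      simp only [g, dif_pos x.2]
      change lam (σ.symm x) * vi (σ (σ.symm x)) l = lam (σ.symm x) * vi x l
      rw [Equiv.apply_symm_apply]
  have hg0 : ∀ k : n, g (Sum.inr (Sum.inr k)) = 0 := by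
    intro k
    by_cases h : Sum.inr (Sum.inr k) ∈ s2
    · simp only [g, dif_pos h]
      apply hzero
      rw [Equiv.apply_symm_apply]
      intro h2
      rcases hs1t h2 with ⟨j, hj⟩ | ⟨i, hi⟩
      · cases hj
      · cases hi
    · simp only [g, dif_neg h]
  refine ⟨M.det, hdet, ?_, fun i => g (Sum.inr (Sum.inl i)), fun j => g (Sum.inl j), fun l => ?_⟩
  · refine (pcram_det M (fun l => c (σ l)) fun l l' => hvc _ _).trans ?_
    have h2 : ∏ l, c (σ l) = ∏ x, if x ∈ s2 then c x else 1 := by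
      rw [Equiv.prod_comp σ (fun x : s2 => c x)]
      refine Fintype.prod_of_injective (Subtype.val : s2 → κ ⊕ (ι ⊕ n)) Subtype.val_injective _ _
        ?_ ?_
      · intro x hx
        rw [Subtype.range_coe] at hx
        rw [if_neg hx]
      · intro x
        rw [if_pos x.2]
    have h3 : ∀ j : κ, Sum.inl j ∈ s2 := fun j => hs12 (hs01 ⟨j, rfl⟩)
    have h4 : ∏ x, (if x ∈ s2 then c x else 1) = H0 ^ Fintype.card κ *
        H ^ (univ.filter fun i : ι => Sum.inr (Sum.inl i) ∈ s2).card := by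
      rw [Fintype.prod_sum_type, Fintype.prod_sum_type]
      have e1 : ∏ j : κ, (if (Sum.inl j : κ ⊕ (ι ⊕ n)) ∈ s2 then c (Sum.inl j) else 1)
          = H0 ^ Fintype.card κ := by
        rw [Finset.prod_congr rfl fun j _ => if_pos (h3 j)]
        change ∏ _j : κ, H0 = _
        rw [prod_const, card_univ]
      have e2 : ∏ i : ι, (if (Sum.inr (Sum.inl i) : κ ⊕ (ι ⊕ n)) ∈ s2
          then c (Sum.inr (Sum.inl i)) else 1)
          = H ^ (univ.filter fun i : ι => Sum.inr (Sum.inl i) ∈ s2).card := by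
        change ∏ i : ι, (if (Sum.inr (Sum.inl i) : κ ⊕ (ι ⊕ n)) ∈ s2 then H else 1) = _
        rw [← prod_filter, prod_const]
      have e3 : ∏ k : n, (if (Sum.inr (Sum.inr k) : κ ⊕ (ι ⊕ n)) ∈ s2
          then c (Sum.inr (Sum.inr k)) else 1) = 1 := by
        refine prod_eq_one fun k _ => ?_
        change (if (Sum.inr (Sum.inr k) : κ ⊕ (ι ⊕ n)) ∈ s2 then 1 else 1) = 1
        split_ifs <;> rfl
      rw [e1, e2, e3, mul_one]
    have h5 : (univ.filter fun i : ι => (Sum.inr (Sum.inl i) : κ ⊕ (ι ⊕ n)) ∈ s2).card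
        ≤ Fintype.card n - Fintype.card κ := by
      have h6 : Fintype.card κ + (univ.filter fun i : ι =>
          (Sum.inr (Sum.inl i) : κ ⊕ (ι ⊕ n)) ∈ s2).card ≤ Fintype.card s2 := by
        rw [← Fintype.card_coe, ← Fintype.card_sum]
        refine Fintype.card_le_of_injective (Sum.elim
          (fun j => (⟨Sum.inl j, h3 j⟩ : s2))
          (fun i : {i // i ∈ univ.filter fun i : ι => (Sum.inr (Sum.inl i) : κ ⊕ (ι ⊕ n)) ∈ s2} =>
            (⟨Sum.inr (Sum.inl i.1), (mem_filter.1 i.2).2⟩ : s2))) ?_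
        rintro (j | i) (j' | i') h
        · have h7 := congrArg Subtype.val h
          have h8 : (Sum.inl j : κ ⊕ (ι ⊕ n)) = Sum.inl j' := h7
          rw [Sum.inl.inj h8]
        · have h7 := congrArg Subtype.val h
          have h8 : (Sum.inl j : κ ⊕ (ι ⊕ n)) = Sum.inr (Sum.inl i'.1) := h7
          cases h8
        · have h7 := congrArg Subtype.val h
          have h8 : (Sum.inr (Sum.inl i.1) : κ ⊕ (ι ⊕ n)) = Sum.inl j' := h7
          cases h8
        · have h7 := congrArg Subtype.val h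
          have h8 : (Sum.inr (Sum.inl i.1) : κ ⊕ (ι ⊕ n)) = Sum.inr (Sum.inl i'.1) := h7
          rw [Subtype.ext (Sum.inl.inj (Sum.inr.inj h8))]
      rw [hcard] at h6
      omega
    rw [h2, h4]
    have h6 : H ^ (univ.filter fun i : ι => (Sum.inr (Sum.inl i) : κ ⊕ (ι ⊕ n)) ∈ s2).card
        ≤ H ^ (Fintype.card n - Fintype.card κ) := Nat.pow_le_pow_right h1 h5
    rw [mul_assoc]
    exact_mod_cast Nat.mul_le_mul_left _ (Nat.mul_le_mul_left _ h6)
  · rw [← hg l, Fintype.sum_sum_type, Fintype.sum_sum_type]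
    have h2 : ∑ k : n, g (Sum.inr (Sum.inr k)) * vi (Sum.inr (Sum.inr k)) l = 0 :=
      sum_eq_zero fun k _ => by rw [hg0 k, zero_mul]
    rw [h2, add_zero, add_comm]
    rfl

end Pool.MZFin
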