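import Pool.Agent.Lib.MZFin.Defs

/-! MP_c511df_nt, finite multiple zeta values, module `PRel` (150 lines): an INTEGER BASIS of the
space of relations, and dimensions.

PROOF. `dimF_add`: `Submodule.finrank_quotient_add_finrank`, `Module.finrank_fintype_fun_eq_card`,
`Fintype.card_coe`.
`rel_basis`: `b = Module.finBasis ℚ (Rel P W)`. Common denominator: `q : ℕ`, `q ≠ 0`, with
`q * (b j).1 l = (ρ j l : ℚ)`, `ρ j l : ℤ`, for all `j, l`
(`IsLocalization.exist_integer_multiples_of_finite (nonZeroDivisors ℤ)` for the family indexed by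
`Fin _ × W`, as in `lemA` of `MZExp/Cram.lean`; or the product of all denominators). The vectors
`ρ j = q • b j` are independent with the same span as the `(b j).1` (`q ≠ 0`;
`LinearIndependent.units_smul`, `b.linearIndependent.map' (Submodule.subtype _) (ker_subtype _)`,
`Submodule.span_smul_eq..` or `le_antisymm` by hand; `span (range (subtype ∘ b)) = Rel P W` from
`b.span_eq` by `Submodule.map_span`, `Submodule.map_subtype_top`).
`ρ j ∈ Rel P W` gives by `mem_Rel` a bound `P0 j`, take the sum of the `P0 j`; `rc_intCast` turns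
`rc p (ρ j l : ℚ)` into `(ρ j l : ZMod p)`. -/

open Finset

namespace Pool.MZFin

theorem dimF_add (P : Set ℕ) (W : Finset (List ℕ)) :
    dimF P W + Module.finrank ℚ (Rel P W) = W.card := by
  unfold dimF
  rw [Submodule.finrank_quotient_add_finrank, Module.finrank_fintype_fun_eq_card, Fintype.card_coe]

theorem rel_basis (P : Set ℕ) (W : Finset (List ℕ)) :
    ∃ ρ : Fin (Module.finrank ℚ (Rel P W)) → W → ℤ,
      LinearIndependent ℚ (fun j (l : W) => (ρ j l : ℚ)) ∧
      Submodule.span ℚ (Set.range (fun j (l : W) => (ρ j l : ℚ))) = Rel P W ∧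
      ∃ P0 : ℕ, ∀ p ∈ P, p.Prime → P0 < p → ∀ j, ∑ l : W, (ρ j l : ZMod p) * fz p l = 0 := by
  classical
  let b := Module.finBasis ℚ (Rel P W)
  let f : Fin (Module.finrank ℚ (Rel P W)) × W → ℚ := fun x => (b x.1).1 x.2
  obtain ⟨q, hq⟩ := IsLocalization.exist_integer_multiples_of_finite (nonZeroDivisors ℤ) f
  have hq0 : ((q : ℤ) : ℚ) ≠ 0 := by
    have := nonZeroDivisors.coe_ne_zero q
    exact_mod_cast this
  choose w hw using hq
  have hw' : ∀ a, ((w a : ℤ) : ℚ) = ((q : ℤ) : ℚ) * f a := by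
    intro a
    have := hw a
    rw [zsmul_eq_mul] at this
    simpa using this
  have hvec : (fun j (l : W) => ((w (j, l) : ℤ) : ℚ)) = fun j => ((q : ℤ) : ℚ) • ((b j : W → ℚ)) := by
    funext j l
    rw [Pi.smul_apply, smul_eq_mul, hw']
  have hli0 : LinearIndependent ℚ (fun j => (b j : W → ℚ)) :=
    b.linearIndependent.map' (Rel P W).subtype (Submodule.ker_subtype _)
  have hspan0 : Submodule.span ℚ (Set.range (fun j => (b j : W → ℚ))) = Rel P W := by
    have h1 : Set.range (fun j => (b j : W → ℚ)) = (Rel P W).subtype '' Set.range b := by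
      rw [← Set.range_comp]
      rfl
    rw [h1, Submodule.span_image, b.span_eq, Submodule.map_subtype_top]
  have hli : LinearIndependent ℚ (fun j (l : W) => ((w (j, l) : ℤ) : ℚ)) := by
    rw [hvec, Fintype.linearIndependent_iff]
    intro g hg
    have h1 : ∑ j, (g j * ((q : ℤ) : ℚ)) • (b j : W → ℚ) = 0 := by
      rw [← hg]
      exact Finset.sum_congr rfl fun j _ => (smul_smul _ _ _).symm
    intro j
    have h2 := Fintype.linearIndependent_iff.1 hli0 _ h1 j
    rcases mul_eq_zero.1 h2 with h | h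
    · exact h
    · exact absurd h hq0
  have hspan : Submodule.span ℚ (Set.range (fun j (l : W) => ((w (j, l) : ℤ) : ℚ))) = Rel P W := by
    rw [hvec]
    refine Eq.trans ?_ hspan0
    apply le_antisymm
    · rw [Submodule.span_le]
      rintro _ ⟨j, rfl⟩
      exact Submodule.smul_mem _ _ (Submodule.subset_span ⟨j, rfl⟩)
    · rw [Submodule.span_le]
      rintro _ ⟨j, rfl⟩
      have h1 : (b j : W → ℚ) = ((q : ℤ) : ℚ)⁻¹ • (((q : ℤ) : ℚ) • (b j : W → ℚ)) := by
        rw [smul_smul, inv_mul_cancel₀ hq0, one_smul]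
      show (b j : W → ℚ) ∈ _
      rw [h1]
      exact Submodule.smul_mem _ _ (Submodule.subset_span ⟨j, rfl⟩)
  refine ⟨fun j l => w (j, l), hli, hspan, ?_⟩
  have hmem : ∀ j, (fun l : W => ((w (j, l) : ℤ) : ℚ)) ∈ Rel P W := by
    intro j
    have h1 : (fun l : W => ((w (j, l) : ℤ) : ℚ)) ∈
        Submodule.span ℚ (Set.range (fun j (l : W) => ((w (j, l) : ℤ) : ℚ))) :=
      Submodule.subset_span ⟨j, rfl⟩
    rw [hspan] at h1
    exact h1
  choose P0 hP0 using fun j => mem_Rel.1 (hmem j)
  refine ⟨∑ j, P0 j, fun p hp hpp hlt j => ?_⟩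
  have h1 := hP0 j p hp hpp
    (lt_of_le_of_lt (Finset.single_le_sum (f := P0) (fun _ _ => Nat.zero_le _) (mem_univ j)) hlt)
  rw [← h1]
  exact Finset.sum_congr rfl fun l _ => by rw [rc_intCast]

end Pool.MZFin
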