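import Pool.Agent.Lib.MZFin.PSpan
import Pool.Agent.Lib.MZFin.PBox
import Pool.Agent.Lib.MZFin.PCram
import Pool.Agent.Lib.MZFin.PRel

/-! MP_c511df_nt, finite multiple zeta values, module `PCore` (150 lines): the product of the primes
of the box is bounded.

PROOF. `ρ, P0` from `rel_basis P W`; `k = finrank (Rel P W)`, `N = W.card`, `N - k = dimF P W`
(`dimF_add`). `H0 : ℕ` with `1 ≤ H0` and `|ρ j l| ≤ H0` for all `j, l` (`1 + ∑_(j,l) |ρ j l|`, `Int.toNat` /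
`natAbs`). `D0` from `span_of_zero`, at least `1`. `C' = N! * H0^k + (C * A.card + 1)`.
Given `D, Y, Q`: `y` from `box_p Q _ A D Y`; `b` from `forms` (`m = D + D/2 + 1`);
`H = (C * A.card + 1) * D * Y * 4^D * E m ≥ 1` bounds all `|b i l|`. `span_of_zero` (with
`e0 = E m ≠ 0`): the unit vector of `[]` is in `span (range b) ⊔ Rel P W = span (range ρ ∪ range b)`
(`Submodule.span_union`, `sup_comm`). `cram_int` with `n = W`, `κ = Fin k`, `ι = Fin (D/2+1) × B`,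
`e = Pi.single ⟨[], hW⟩ 1` (cast of the integer unit vector): `Δ ≠ 0`, `s`, `t`.
For `p ∈ Q`: multiply `Δ e l = ∑ s_i b_i l + ∑ t_j ρ_j l` by `fz p l` in `ZMod p` and sum over `l`: the left
side is `Δ * fz p [] = Δ` (`fz_nil`); `∑_l ρ_j l fz p l = 0` (`P0 < p`); `∑_l b_i l fz p l = E m * ∑_M (..) * 0 = 0`
by `box_p` (`M < p`). So `(Δ : ZMod p) = 0`, `(p : ℤ) ∣ Δ` (`ZMod.intCast_zmod_eq_zero_iff_dvd` /
`ZMod.intCast_eq_zero_iff_dvd`). All `p ∈ Q` are primes dividing `Δ.natAbs`, so `∏ p ∣ Δ.natAbs`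
(`Finset.prod_primes_dvd`), `∏ p ≤ Δ.natAbs ≤ N! * H0^k * H^(N-k) ≤ C' * (C' * D * Y * 4^D * E m)^(dimF P W)`
(`Fintype.card_coe`, `Fintype.card_fin`, `Nat.mul_le_mul`, `Nat.pow_le_pow_left`). -/

open Finset

namespace Pool.MZFin

private theorem pcore_zero (W : Finset (List ℕ)) (hW : [] ∈ W) {κ ι : Type} [Fintype κ] [Fintype ι]
    (p : ℕ) (Δ : ℤ) (s : ι → ℤ) (t : κ → ℤ) (b : ι → W → ℤ) (ρ : κ → W → ℤ)
    (hst : ∀ l, Δ * (Pi.single (⟨[], hW⟩ : W) 1 : W → ℤ) l =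
      ∑ i, s i * b i l + ∑ j, t j * ρ j l)
    (hb : ∀ i, ∑ l : W, (b i l : ZMod p) * fz p l = 0)
    (hρ : ∀ j, ∑ l : W, (ρ j l : ZMod p) * fz p l = 0) : (Δ : ZMod p) = 0 := by
  classical
  have h1 : ∑ l : W, ((Δ * (Pi.single (⟨[], hW⟩ : W) 1 : W → ℤ) l : ℤ) : ZMod p) * fz p l =
      (Δ : ZMod p) := by
    rw [Finset.sum_eq_single (⟨[], hW⟩ : W)]
    · rw [Pi.single_eq_same, mul_one, fz_nil, mul_one]
    · intro l _ hl
      rw [Pi.single_eq_of_ne hl, mul_zero, Int.cast_zero, zero_mul]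
    · intro h
      exact absurd (Finset.mem_univ _) h
  rw [← h1]
  have h2 : ∀ l : W, ((Δ * (Pi.single (⟨[], hW⟩ : W) 1 : W → ℤ) l : ℤ) : ZMod p) * fz p l =
      ∑ i, (s i : ZMod p) * ((b i l : ZMod p) * fz p l) +
        ∑ j, (t j : ZMod p) * ((ρ j l : ZMod p) * fz p l) := by
    intro l
    rw [hst l, Int.cast_add, add_mul, Int.cast_sum, Int.cast_sum, Finset.sum_mul, Finset.sum_mul]
    congr 1
    · refine Finset.sum_congr rfl fun i _ => ?_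
      rw [Int.cast_mul, mul_assoc]
    · refine Finset.sum_congr rfl fun i _ => ?_
      rw [Int.cast_mul, mul_assoc]
  rw [Finset.sum_congr rfl fun l _ => h2 l, Finset.sum_add_distrib, Finset.sum_comm,
    Finset.sum_comm (s := (univ : Finset W)) (t := (univ : Finset κ))]
  have h3 : ∀ i, ∑ l : W, (s i : ZMod p) * ((b i l : ZMod p) * fz p l) = 0 := by
    intro i
    rw [← Finset.mul_sum, hb i, mul_zero]
  have h4 : ∀ j, ∑ l : W, (t j : ZMod p) * ((ρ j l : ZMod p) * fz p l) = 0 := by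
    intro j
    rw [← Finset.mul_sum, hρ j, mul_zero]
  rw [Finset.sum_eq_zero fun i _ => h3 i, Finset.sum_eq_zero fun j _ => h4 j, add_zero]

private theorem pcore_prod (Q : Finset ℕ) (hQ : ∀ p ∈ Q, p.Prime) (Δ : ℤ) (hΔ : Δ ≠ 0)
    (h : ∀ p ∈ Q, (Δ : ZMod p) = 0) (K : ℕ) (hK : |Δ| ≤ (K : ℤ)) : ∏ p ∈ Q, p ≤ K := by
  have h1 : ∏ p ∈ Q, p ∣ Δ.natAbs := by
    refine Finset.prod_primes_dvd _ (fun p hp => (hQ p hp).prime) fun p hp => ?_
    have h2 := (ZMod.intCast_zmod_eq_zero_iff_dvd Δ p).1 (h p hp)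
    exact Int.natCast_dvd.1 h2
  have h2 : ∏ p ∈ Q, p ≤ Δ.natAbs := Nat.le_of_dvd (Int.natAbs_pos.2 hΔ) h1
  have h3 : Δ.natAbs ≤ K := by
    rw [Int.abs_eq_natAbs] at hK
    exact_mod_cast hK
  exact h2.trans h3

theorem core (A B W : Finset (List ℕ)) (hA : TC1 A) (hB : TC1 B) (h4 : 4 * A.card < B.card)
    (hW : [] ∈ W) (mom : (List ℕ → ℚ) → List ℕ → List ℕ → ℕ → ℚ)
    (hmom : ∀ φ : List ℕ → ℚ, φ [] = 1 → (∀ c, 1 ≤ c → φ [c] = 0) → RecM (mom φ))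
    (E : ℕ → ℕ) (hE : ∀ m, 1 ≤ E m) (C : ℕ) (h : HRed A B W mom E C) (P : Set ℕ) :
    ∃ C' D0 P0 : ℕ, 1 ≤ C' ∧ ∀ D : ℕ, D0 ≤ D → ∀ Y : ℕ, 1 ≤ Y → ∀ Q : Finset ℕ,
      (∀ p ∈ Q, p ∈ P ∧ p.Prime ∧ P0 < p ∧ D + D / 2 + 1 < p) →
      ∏ p ∈ Q, p ^ p < (Y + 1) ^ (D * A.card) →
      ∏ p ∈ Q, p ≤ C' * (C' * D * Y * 4 ^ D * E (D + D / 2 + 1)) ^ (dimF P W) := by
  classical
  obtain ⟨ρ, hρi, hρs, P0, hP0⟩ := rel_basis P W
  obtain ⟨D0, hD0⟩ := span_of_zero A B hA hB h4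
  have hdim := dimF_add P W
  generalize hk : Module.finrank ℚ (Rel P W) = k at ρ hdim
  obtain ⟨H0, h0, hρb⟩ : ∃ H0 : ℕ, 1 ≤ H0 ∧ ∀ j l, |ρ j l| ≤ (H0 : ℤ) := by
    refine ⟨1 + ∑ j, ∑ l, (ρ j l).natAbs, by omega, fun j l => ?_⟩
    have h1 : (ρ j l).natAbs ≤ ∑ l, (ρ j l).natAbs :=
      Finset.single_le_sum (f := fun l => (ρ j l).natAbs) (fun _ _ => Nat.zero_le _)
        (Finset.mem_univ l)
    have h2 : ∑ l, (ρ j l).natAbs ≤ ∑ j, ∑ l, (ρ j l).natAbs :=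
      Finset.single_le_sum (f := fun j => ∑ l, (ρ j l).natAbs) (fun _ _ => Nat.zero_le _)
        (Finset.mem_univ j)
    rw [Int.abs_eq_natAbs]
    have h3 : (ρ j l).natAbs ≤ 1 + ∑ j, ∑ l, (ρ j l).natAbs := by omega
    exact_mod_cast h3
  refine ⟨W.card.factorial * H0 ^ k + (C * A.card + 1), max D0 1, P0, by omega, ?_⟩
  intro D hD Y hY Q hQ hbox
  have hD1 : 1 ≤ D := (le_max_right _ _).trans hD
  obtain ⟨y, hy0, hyY, hyp⟩ := box_p Q (fun p hp => (hQ p hp).2.1) A D Y hbox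
  obtain ⟨b, hb1, hb2, hb3⟩ := forms A B W mom E C h D y Y hyY
  generalize hm : D + D / 2 + 1 = m at hb1 hb2 hb3 hQ ⊢
  have hE1 := hE m
  have hH1 : 1 ≤ (C * A.card + 1) * D * Y * 4 ^ D * E m := by
    have h4 : 1 ≤ 4 ^ D := Nat.one_le_pow _ _ (by norm_num)
    exact Nat.one_le_iff_ne_zero.2 (by positivity)
  have hbH : ∀ i l, |b i l| ≤ (((C * A.card + 1) * D * Y * 4 ^ D * E m : ℕ) : ℤ) := by
    intro i l
    refine (hb1 i l).trans ?_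
    have h5 : C * A.card * D * Y * 4 ^ D * E m ≤ (C * A.card + 1) * D * Y * 4 ^ D * E m := by
      gcongr
      omega
    exact_mod_cast h5
  have hEm : (E m : ℚ) ≠ 0 := by
    have : E m ≠ 0 := by omega
    exact_mod_cast this
  have hspan := hD0 D ((le_max_left _ _).trans hD) W hW mom hmom y hy0 b (E m) hEm hb3 P
  have he : (fun l : W => (((Pi.single (⟨[], hW⟩ : W) 1 : W → ℤ) l : ℤ) : ℚ)) ∈
      Submodule.span ℚ (Set.range (fun j (l : W) => (ρ j l : ℚ)) ∪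
        Set.range (fun i (l : W) => (b i l : ℚ))) := by
    rw [Submodule.span_union, hρs, sup_comm]
    have h6 : (fun l : W => (((Pi.single (⟨[], hW⟩ : W) 1 : W → ℤ) l : ℤ) : ℚ)) =
        (Pi.single (⟨[], hW⟩ : W) 1 : W → ℚ) := by
      funext l
      by_cases hl : l = ⟨[], hW⟩
      · rw [hl, Pi.single_eq_same, Pi.single_eq_same, Int.cast_one]
      · rw [Pi.single_eq_of_ne hl, Pi.single_eq_of_ne hl, Int.cast_zero]
    rw [h6]
    exact hspan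
  obtain ⟨Δ, hΔ0, hΔb, s, t, hst⟩ := cram_int ρ hρi b H0 _ h0 hH1 hρb hbH _ he
  have hz : ∀ p ∈ Q, (Δ : ZMod p) = 0 := by
    intro p hp
    obtain ⟨hpP, hpp, hp0, hpm⟩ := hQ p hp
    refine pcore_zero W hW p Δ s t b ρ hst (fun i => ?_) (fun j => hP0 p hpP hpp hp0 j)
    rw [hb2 p hpp hpm i]
    rw [Finset.sum_eq_zero, mul_zero]
    intro M hM
    rw [hyp p hp M (Finset.mem_range.1 hM), mul_zero]
  refine (pcore_prod Q (fun p hp => (hQ p hp).2.1) Δ hΔ0 hz _ hΔb).trans ?_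
  rw [Fintype.card_coe, Fintype.card_fin]
  have hNk : W.card - k = dimF P W := by omega
  rw [hNk]
  have h7 : W.card.factorial * H0 ^ k ≤ W.card.factorial * H0 ^ k + (C * A.card + 1) := by omega
  have h8 : (C * A.card + 1) * D * Y * 4 ^ D * E m ≤
      (W.card.factorial * H0 ^ k + (C * A.card + 1)) * D * Y * 4 ^ D * E m :=
    Nat.mul_le_mul_right _ (Nat.mul_le_mul_right _ (Nat.mul_le_mul_right _
      (Nat.mul_le_mul_right _ (Nat.le_add_left _ _))))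
  exact Nat.mul_le_mul h7 (Nat.pow_le_pow_left h8 _)

end Pool.MZFin
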