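import Pool.Agent.Lib.MZFin.PIneq2
import Pool.Agent.Lib.MZFin.DVan

/-! MP_c511df_nt, finite multiple zeta values, module `PExp2`: the main inequality with a sparse box
for all words of bounded weight, and the density of the primes at which all values of the weights
`1, .., K` vanish. -/

open Finset

namespace Pool.MZFin

theorem freq_ineq_sp {mom : (List ℕ → ℚ) → List ℕ → List ℕ → ℕ → ℚ} (hm : HExp mom) (w : ℕ)
    {P : Set ℕ} {δ : ℝ} (hδ : 0 ≤ δ) (hP : Freq P δ) (κ : ℕ) :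
    δ * κ * (1 - (dimF P (Wd (2 * w + 3)) : ℝ) * κ / 2 ^ w) - 3 / 2 * Real.log 4 ≤
      (dimF P (Wd (2 * w + 3)) : ℝ) * (Real.log 4 * (1 + 3 / 2 * (2 * w + 3))) := by
  classical
  obtain ⟨C, hC⟩ := hm.2 w
  have hE : ∀ m, 1 ≤ Nat.lcmUpto m ^ (2 * w + 3) := fun m =>
    Nat.one_le_pow _ _ (Nat.lcmUpto_pos m)
  have hcard : ((Wd w).card : ℝ) = 2 ^ w := by
    rw [Wd_card]
    push_cast
    rfl
  have key : ∀ ε : ℝ, 0 < ε →
      δ * κ * (1 - (dimF P (Wd (2 * w + 3)) : ℝ) * κ / 2 ^ w) - 3 / 2 * Real.log 4 ≤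
      (dimF P (Wd (2 * w + 3)) : ℝ) * (Real.log 4 +
        3 / 2 * ((Real.log 4 + ε) * (2 * w + 3))) := by
    intro ε hε
    obtain ⟨m0, hm0⟩ := lcm_exp ε hε
    rw [← hcard]
    refine main_ineq_sp (Wd w) (Wd (w + 3)) (Wd (2 * w + 3)) (tc1_Wd _) (tc1_Wd _) ?_
      (tc1_Wd _).1 mom hm.1 _ hE C hC _ ⟨m0, fun m hm => ?_⟩ P δ hδ (fun X0 => ?_) κ
    · rw [Wd_card, Wd_card, pow_add]
      have : 0 < 2 ^ w := by positivity
      omega
    · have h1 := hm0 m hm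
      have h2 : (0 : ℝ) ≤ ((Nat.lcmUpto m : ℕ) : ℝ) := Nat.cast_nonneg _
      calc (((Nat.lcmUpto m) ^ (2 * w + 3) : ℕ) : ℝ) = ((Nat.lcmUpto m : ℕ) : ℝ) ^ (2 * w + 3) := by
            push_cast
            rfl
        _ ≤ (Real.exp ((Real.log 4 + ε) * m)) ^ (2 * w + 3) := pow_le_pow_left₀ h2 h1 _
        _ = Real.exp ((Real.log 4 + ε) * (2 * w + 3) * m) := by
            rw [← Real.exp_nat_mul]
            congr 1
            push_cast
            ring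
    · obtain ⟨X, h1, h2⟩ := hP X0
      refine ⟨X, h1, ?_⟩
      rw [lsum_eq] at h2
      exact h2
  by_contra hcon
  push Not at hcon
  set r : ℝ := (dimF P (Wd (2 * w + 3)) : ℝ) with hr
  have hr0 : 0 ≤ r := Nat.cast_nonneg _
  set g : ℝ := δ * κ * (1 - r * κ / 2 ^ w) - 3 / 2 * Real.log 4 -
    r * (Real.log 4 * (1 + 3 / 2 * (2 * w + 3))) with hg
  have hg0 : 0 < g := by
    rw [hg]
    linarith
  set s : ℝ := r * (3 / 2 * (2 * w + 3)) + 1 with hs
  have hs0 : 0 < s := by positivity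
  have h1 := key (g / (2 * s)) (by positivity)
  have h2 : r * (Real.log 4 + 3 / 2 * ((Real.log 4 + g / (2 * s)) * (2 * w + 3))) =
      r * (Real.log 4 * (1 + 3 / 2 * (2 * w + 3))) + (s - 1) * (g / (2 * s)) := by
    rw [hs]
    ring
  rw [h2] at h1
  have h3 : (s - 1) * (g / (2 * s)) < g := by
    have h4 : s * (g / (2 * s)) = g / 2 := by
      field_simp
    have h5 : 0 < g / (2 * s) := by positivity
    nlinarith
  rw [hg] at h3
  linarith

/-- the primes at which all values of the weights `1, .., 2w+3` vanish: the upper density is at most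
`4 log 4 (3w + 7) / 2^w` -/
theorem freq_van_sp {mom : (List ℕ → ℚ) → List ℕ → List ℕ → ℕ → ℚ} (hm : HExp mom) (w : ℕ)
    (hw : 1 ≤ w) {δ : ℝ} (hδ : 0 ≤ δ) (hF : Freq (Van (2 * w + 3)) δ) :
    δ * 2 ^ w ≤ 4 * Real.log 4 * (3 * w + 7) := by
  have hl4 : 0 < Real.log 4 := Real.log_pos (by norm_num)
  have h1 := freq_ineq_sp hm w hδ hF (2 ^ (w - 1))
  have hd : (dimF (Van (2 * w + 3)) (Wd (2 * w + 3)) : ℝ) ≤ 1 := by
    exact_mod_cast dimF_Van (2 * w + 3)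
  have hd0 : (0 : ℝ) ≤ (dimF (Van (2 * w + 3)) (Wd (2 * w + 3)) : ℝ) := Nat.cast_nonneg _
  generalize (dimF (Van (2 * w + 3)) (Wd (2 * w + 3)) : ℝ) = r at h1 hd hd0
  obtain ⟨v, rfl⟩ : ∃ v, w = v + 1 := ⟨w - 1, by omega⟩
  rw [Nat.add_sub_cancel] at h1
  push_cast at h1 ⊢
  have hv : (0 : ℝ) < 2 ^ v := by positivity
  have h2 : r * 2 ^ v / 2 ^ (v + 1) = r / 2 := by
    rw [pow_succ]
    field_simp
  rw [h2] at h1
  have hv0 : (0 : ℝ) ≤ v := Nat.cast_nonneg _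
  have h3 : 0 ≤ δ * 2 ^ v := mul_nonneg hδ hv.le
  have h4 : δ * 2 ^ v * (1 / 2) ≤ δ * 2 ^ v * (1 - r / 2) :=
    mul_le_mul_of_nonneg_left (by linarith) h3
  have h5 : r * (Real.log 4 * (1 + 3 / 2 * (2 * ((v : ℝ) + 1) + 3))) ≤
      1 * (Real.log 4 * (1 + 3 / 2 * (2 * ((v : ℝ) + 1) + 3))) :=
    mul_le_mul_of_nonneg_right hd (by positivity)
  rw [pow_succ]
  nlinarith [h1, h4, h5]

/-- the primes at which all values of the weights `1, .., K` vanish have upper density at most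
`34 (K + 2) 2^(-K/2)` -/
theorem van_density_sp {mom : (List ℕ → ℚ) → List ℕ → List ℕ → ℕ → ℚ} (hm : HExp mom) (K : ℕ) :
    ∃ X0 : ℕ, ∀ X : ℕ, X0 ≤ X →
      lsum (Van K) X ≤ 34 * (K + 2) * (2 : ℝ) ^ (-((K : ℝ) / 2)) * X := by
  have hl2 : 0 < Real.log 2 := Real.log_pos (by norm_num)
  have hl2' : Real.log 2 < 0.6931471808 := Real.log_two_lt_d9
  have hl4 : Real.log 4 = 2 * Real.log 2 := by
    rw [show (4 : ℝ) = 2 ^ 2 by norm_num, Real.log_pow]
    norm_num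
  have hK0 : (0 : ℝ) ≤ K := Nat.cast_nonneg _
  set δ : ℝ := 34 * (K + 2) * (2 : ℝ) ^ (-((K : ℝ) / 2)) with hδ
  have hpow : (2 : ℝ) ^ (-((K : ℝ) / 2)) * (2 : ℝ) ^ ((K : ℝ) / 2) = 1 := by
    rw [← Real.rpow_add (by norm_num), neg_add_cancel, Real.rpow_zero]
  have hδ2 : δ * (2 : ℝ) ^ ((K : ℝ) / 2) = 34 * (K + 2) := by
    rw [hδ, mul_assoc, hpow, mul_one]
  have hp1 : 0 < (2 : ℝ) ^ (-((K : ℝ) / 2)) := by positivity
  have hδ0 : 0 < δ := by positivity
  rcases Nat.lt_or_ge K 5 with hK5 | hK5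
  · refine ⟨0, fun X _ => ?_⟩
    have h1 := lsum_le (Van K) X
    have h3 : (2 : ℝ) ^ ((K : ℝ) / 2) ≤ 4 := by
      calc (2 : ℝ) ^ ((K : ℝ) / 2) ≤ (2 : ℝ) ^ (2 : ℝ) := by
            apply Real.rpow_le_rpow_of_exponent_le (by norm_num)
            have : (K : ℝ) ≤ 4 := by exact_mod_cast (by omega : K ≤ 4)
            linarith
        _ = 4 := by norm_num
    have h4 : 2 ≤ δ := by
      by_contra hcon
      push Not at hcon
      have : δ * (2 : ℝ) ^ ((K : ℝ) / 2) ≤ 2 * 4 :=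
        mul_le_mul hcon.le h3 (by positivity) (by norm_num)
      rw [hδ2] at this
      linarith
    have hX0 : (0 : ℝ) ≤ X := Nat.cast_nonneg _
    rw [hl4] at h1
    nlinarith
  · obtain ⟨w, hw⟩ : ∃ w, w = (K - 3) / 2 := ⟨_, rfl⟩
    have hw1 : 2 * w + 3 ≤ K := by omega
    have hw2 : K ≤ 2 * w + 4 := by omega
    have hw3 : 1 ≤ w := by omega
    have hw1' : (2 * w + 3 : ℝ) ≤ K := by exact_mod_cast hw1
    have hw2' : (K : ℝ) ≤ 2 * w + 4 := by exact_mod_cast hw2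
    have hnot : ¬ Freq (Van K) δ := by
      intro hF
      have h1 := freq_van_sp hm w hw3 hδ0.le (hF.mono (Van_anti hw1))
      have h2 : (2 : ℝ) ^ ((K : ℝ) / 2) ≤ 4 * 2 ^ w := by
        calc (2 : ℝ) ^ ((K : ℝ) / 2) ≤ (2 : ℝ) ^ ((w : ℝ) + 2) := by
              apply Real.rpow_le_rpow_of_exponent_le (by norm_num)
              linarith
          _ = 4 * 2 ^ w := by
              rw [Real.rpow_add (by norm_num), Real.rpow_natCast]
              norm_num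
              ring
      have h3 : δ * (2 : ℝ) ^ ((K : ℝ) / 2) ≤ δ * (4 * 2 ^ w) :=
        mul_le_mul_of_nonneg_left h2 hδ0.le
      rw [hδ2] at h3
      rw [hl4] at h1
      have hw0 : (0 : ℝ) ≤ w := Nat.cast_nonneg _
      nlinarith [h1, h3, mul_nonneg hl2.le hw0]
    obtain ⟨X0, h⟩ := not_freq hnot
    exact ⟨X0, fun X hX => (h X hX).le⟩

theorem nonvan_lower {K : ℕ} {δ c : ℝ} (hδ : ¬ Freq (Van K) δ) (hc : c < Real.log 2 - δ) :
    ∃ X0 : ℕ, ∀ X : ℕ, X0 ≤ X → c * (X : ℝ) ≤ lsum (Van K)ᶜ X := by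
  obtain ⟨X1, h1⟩ := not_freq hδ
  obtain ⟨X2, h2⟩ := theta_freq (c + δ) (by linarith)
  refine ⟨max X1 X2, fun X hX => ?_⟩
  have h3 := h1 X (le_trans (le_max_left _ _) hX)
  have h4 : (c + δ) * X ≤ lsum Set.univ X := by
    classical
    rw [lsum_eq]
    refine (h2 X (le_trans (le_max_right _ _) hX)).trans (le_of_eq ?_)
    refine Finset.sum_congr ?_ fun _ _ => rfl
    ext p
    simp only [Finset.mem_filter]
  have h5 : lsum Set.univ X ≤ lsum (Van K) X + lsum (Van K)ᶜ X := by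
    simp only [lsum_lterm]
    rw [← Finset.sum_add_distrib]
    refine Finset.sum_le_sum fun p _ => ?_
    by_cases hp : p.Prime
    · rw [lterm_pos (Set.mem_univ _) hp]
      by_cases hv : p ∈ Van K
      · rw [lterm_pos hv hp]
        exact le_add_of_nonneg_right (lterm_nonneg _ _)
      · rw [lterm_pos (show p ∈ (Van K)ᶜ from hv) hp]
        exact le_add_of_nonneg_left (lterm_nonneg _ _)
    · rw [lterm_neg fun h => hp h.2]
      exact add_nonneg (lterm_nonneg _ _) (lterm_nonneg _ _)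
  linarith

theorem nonvan_density19 {mom : (List ℕ → ℚ) → List ℕ → List ℕ → ℕ → ℚ} (hm : HExp mom) :
    ∃ X0 : ℕ, ∀ X : ℕ, X0 ≤ X → 1 / 50 * (X : ℝ) ≤ lsum (Van 19)ᶜ X := by
  have hl2 : 0.6931471803 < Real.log 2 := Real.log_two_gt_d9
  have hl2' : Real.log 2 < 0.6931471808 := Real.log_two_lt_d9
  have hl4 : Real.log 4 = 2 * Real.log 2 := by
    rw [show (4 : ℝ) = 2 ^ 2 by norm_num, Real.log_pow]
    norm_num
  refine nonvan_lower (δ := 673 / 1000) ?_ (by linarith)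
  intro hF
  have h1 := freq_van_sp hm 8 (by norm_num) (by norm_num) hF
  rw [hl4] at h1
  norm_num at h1
  linarith

theorem nonvan_density21 {mom : (List ℕ → ℚ) → List ℕ → List ℕ → ℕ → ℚ} (hm : HExp mom) :
    ∃ X0 : ℕ, ∀ X : ℕ, X0 ≤ X → 8 / 25 * (X : ℝ) ≤ lsum (Van 21)ᶜ X := by
  have hl2 : 0.6931471803 < Real.log 2 := Real.log_two_gt_d9
  have hl2' : Real.log 2 < 0.6931471808 := Real.log_two_lt_d9
  have hl4 : Real.log 4 = 2 * Real.log 2 := by
    rw [show (4 : ℝ) = 2 ^ 2 by norm_num, Real.log_pow]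
    norm_num
  refine nonvan_lower (δ := 37 / 100) ?_ (by linarith)
  intro hF
  have h1 := freq_van_sp hm 9 (by norm_num) (by norm_num) hF
  rw [hl4] at h1
  norm_num at h1
  linarith

end Pool.MZFin
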