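import Pool.Agent.Lib.MZFin.PIneq3
import Pool.Agent.Lib.MZFin.PExp2
import Pool.Agent.Lib.MZFin.RedExp

/-! MP_c511df_nt, finite multiple zeta values, module `PExp3`: the natural density of the primes modulo
which all finite multiple zeta values of the weights `1, .., K` vanish (with the prime number
theorem). -/

open Finset Filter

namespace Pool.MZFin

/-- the main inequality for general sets of words, with the prime number theorem -/
theorem freq_gen (A B : Finset (List ℕ)) (K : ℕ) (hA : TC1 A) (hB : TC1 B)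
    (h4 : 4 * A.card < B.card) (hAB : ∀ u ∈ A, ∀ v ∈ B, u.sum + v.sum ≤ K)
    {P : Set ℕ} {δ : ℝ} (hδ : 0 ≤ δ) (hP : Freq P δ) (κ : ℕ) :
    δ * κ * (1 - (dimF P (Wd K) : ℝ) * κ / A.card) - 3 / 2 ≤
      (dimF P (Wd K) : ℝ) * (Real.log 4 + 3 / 2 * K) := by
  classical
  have hred : HRed A B (Wd K) mom (fun m => Nat.lcmUpto m ^ K) (6 ^ K) :=
    hred_of A B (Wd K) K hA.2.1 hB.2.1 hAB fun x h1 h2 => mem_Wd.2 ⟨h1, h2⟩
  have hE : ∀ m, 1 ≤ Nat.lcmUpto m ^ K := fun m => Nat.one_le_pow _ _ (Nat.lcmUpto_pos m)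
  have key : ∀ ε : ℝ, 0 < ε →
      δ * κ * (1 - (dimF P (Wd K) : ℝ) * κ / A.card) - 3 / 2 * (1 + ε) ≤
      (dimF P (Wd K) : ℝ) * (Real.log 4 + 3 / 2 * ((1 + ε) * K)) := by
    intro ε hε
    obtain ⟨m0, hm0⟩ := lcm_pnt ε hε
    obtain ⟨m1, hm1⟩ := theta_pnt ε hε
    refine main_ineq_lam A B (Wd K) hA hB h4 (tc1_Wd _).1 mom mom_rec _ hE _ hred _
      ⟨m0, fun m hm => ?_⟩ P δ hδ (fun X0 => ?_) κ (1 + ε) ⟨m1, fun m hm => (hm1 m hm).2⟩
    · have h1 := hm0 m hm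
      have h2 : (0 : ℝ) ≤ ((Nat.lcmUpto m : ℕ) : ℝ) := Nat.cast_nonneg _
      calc (((Nat.lcmUpto m) ^ K : ℕ) : ℝ) = ((Nat.lcmUpto m : ℕ) : ℝ) ^ K := by
            push_cast
            rfl
        _ ≤ (Real.exp ((1 + ε) * m)) ^ K := pow_le_pow_left₀ h2 h1 _
        _ = Real.exp ((1 + ε) * K * m) := by
            rw [← Real.exp_nat_mul]
            congr 1
            ring
    · obtain ⟨X, h1, h2⟩ := hP X0
      refine ⟨X, h1, ?_⟩
      rw [lsum_eq] at h2
      exact h2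
  by_contra hcon
  push Not at hcon
  set r : ℝ := (dimF P (Wd K) : ℝ) with hr
  have hr0 : 0 ≤ r := Nat.cast_nonneg _
  set L : ℝ := δ * κ * (1 - r * κ / A.card) with hL
  set g : ℝ := L - 3 / 2 - r * (Real.log 4 + 3 / 2 * K) with hg
  have hg0 : 0 < g := by
    rw [hg]
    linarith
  set s : ℝ := r * (3 / 2 * K) + 3 / 2 + 1 with hs
  have hs0 : 0 < s := by positivity
  have h1 := key (g / (2 * s)) (by positivity)
  have h2 : r * (Real.log 4 + 3 / 2 * ((1 + g / (2 * s)) * K)) =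
      r * (Real.log 4 + 3 / 2 * K) + (s - 1) * (g / (2 * s)) - 3 / 2 * (g / (2 * s)) := by
    rw [hs]
    ring
  rw [h2] at h1
  have h3 : (s - 1) * (g / (2 * s)) < g := by
    have h4 : s * (g / (2 * s)) = g / 2 := by
      field_simp
    have h5 : 0 < g / (2 * s) := by positivity
    nlinarith
  rw [hg] at h3
  nlinarith

theorem freq_van_gen (A B : Finset (List ℕ)) (K : ℕ) (hA : TC1 A) (hB : TC1 B)
    (h4 : 4 * A.card < B.card) (hAB : ∀ u ∈ A, ∀ v ∈ B, u.sum + v.sum ≤ K)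
    {δ : ℝ} (hδ : 0 ≤ δ) (hP : Freq (Van K) δ) (κ : ℕ) (hκ : κ ≤ A.card) :
    δ * κ * (1 - (κ : ℝ) / A.card) ≤ 3 / 2 + Real.log 4 + 3 / 2 * K := by
  have hl4 : 0 < Real.log 4 := Real.log_pos (by norm_num)
  have h1 := freq_gen A B K hA hB h4 hAB hδ hP κ
  have hd : (dimF (Van K) (Wd K) : ℝ) ≤ 1 := by exact_mod_cast dimF_Van K
  have hd0 : (0 : ℝ) ≤ (dimF (Van K) (Wd K) : ℝ) := Nat.cast_nonneg _
  generalize (dimF (Van K) (Wd K) : ℝ) = r at h1 hd hd0
  have hA0 : (0 : ℝ) < A.card := by exact_mod_cast Finset.card_pos.2 ⟨[], hA.1⟩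
  have h2 : r * κ / A.card ≤ κ / A.card := by
    rw [div_le_div_iff_of_pos_right hA0]
    exact (mul_le_mul_of_nonneg_right hd (Nat.cast_nonneg κ)).trans_eq (one_mul _)
  have h3 : 0 ≤ δ * κ := mul_nonneg hδ (Nat.cast_nonneg _)
  have h4 : δ * κ * (1 - κ / A.card) ≤ δ * κ * (1 - r * κ / A.card) :=
    mul_le_mul_of_nonneg_left (by linarith) h3
  have h5 : r * (Real.log 4 + 3 / 2 * K) ≤ 1 * (Real.log 4 + 3 / 2 * K) :=
    mul_le_mul_of_nonneg_right hd (by positivity)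
  linarith

/-- even weights `K = 2 w + 2`: one maximal word is removed from the words of weight `≤ w` -/
theorem freq_van_even (w : ℕ) (hw : 1 ≤ w) {δ : ℝ} (hδ : 0 ≤ δ) (hP : Freq (Van (2 * w + 2)) δ) :
    δ * 2 ^ (w - 1) * (1 - (2 : ℝ) ^ (w - 1) / (2 ^ w - 1)) ≤ 3 * w + 9 / 2 + Real.log 4 := by
  have hmem : [w] ∈ Wd w := mem_Wd.2 ⟨by simpa using hw, by simp⟩
  have hcard : ((Wd w).erase [w]).card = 2 ^ w - 1 := by
    rw [Finset.card_erase_of_mem hmem, Wd_card]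
  have h2w : 1 ≤ 2 ^ w := Nat.one_le_two_pow
  have hA : TC1 ((Wd w).erase [w]) := by
    obtain ⟨h1, h2, h3⟩ := tc1_Wd w
    refine ⟨Finset.mem_erase.2 ⟨by simp, h1⟩, fun l hl => h2 l (Finset.mem_of_mem_erase hl),
      fun a l hl => ?_⟩
    obtain ⟨h4, h5⟩ := Finset.mem_erase.1 hl
    refine Finset.mem_erase.2 ⟨fun h6 => ?_, h3 a l h5⟩
    subst h6
    obtain ⟨h7, h8⟩ := mem_Wd.1 h5
    have h9 := h7 a List.mem_cons_self
    rw [List.sum_cons, List.sum_singleton] at h8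
    omega
  have h1 := freq_van_gen ((Wd w).erase [w]) (Wd (w + 2)) (2 * w + 2) hA (tc1_Wd _)
    (by rw [hcard, Wd_card, pow_add]; omega)
    (fun u hu v hv => by
      have h3 := (mem_Wd.1 (Finset.mem_of_mem_erase hu)).2
      have h4 := (mem_Wd.1 hv).2
      omega) hδ hP (2 ^ (w - 1)) (by
      rw [hcard]
      obtain ⟨v, rfl⟩ : ∃ v, w = v + 1 := ⟨w - 1, by omega⟩
      rw [Nat.add_sub_cancel, pow_succ]
      have : 1 ≤ 2 ^ v := Nat.one_le_two_pow
      omega)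
  rw [hcard, Nat.cast_sub h2w] at h1
  push_cast at h1
  linarith

/-- odd weights `K = 2 w + 3` -/
theorem freq_van_odd (w : ℕ) (hw : 1 ≤ w) {δ : ℝ} (hδ : 0 ≤ δ) (hP : Freq (Van (2 * w + 3)) δ) :
    δ * 2 ^ w ≤ 4 * (3 * w + 6 + Real.log 4) := by
  have h1 := freq_van_gen (Wd w) (Wd (w + 3)) (2 * w + 3) (tc1_Wd _) (tc1_Wd _)
    (by
      rw [Wd_card, Wd_card, pow_add]
      have : 0 < 2 ^ w := by positivity
      omega)
    (fun u hu v hv => by
      have h3 := (mem_Wd.1 hu).2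
      have h4 := (mem_Wd.1 hv).2
      omega) hδ hP (2 ^ (w - 1)) (by
      rw [Wd_card]
      exact Nat.pow_le_pow_right (by norm_num) (by omega))
  obtain ⟨v, rfl⟩ : ∃ v, w = v + 1 := ⟨w - 1, by omega⟩
  rw [Wd_card] at h1
  rw [Nat.add_sub_cancel] at h1
  push_cast at h1 ⊢
  have hv : (0 : ℝ) < 2 ^ v := by positivity
  have h2 : (2 : ℝ) ^ v / 2 ^ (v + 1) = 1 / 2 := by
    rw [pow_succ]
    field_simp
  rw [h2] at h1
  rw [pow_succ]
  linarith

/-- upper density, sums of logarithms -/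
theorem van_density_pnt (K : ℕ) : ∃ δ : ℝ, 0 < δ ∧
    δ < 17 * (K + 2) * (2 : ℝ) ^ (-((K : ℝ) / 2)) ∧ ∃ X0 : ℕ, ∀ X : ℕ, X0 ≤ X →
      lsum (Van K) X ≤ δ * X := by
  have hl2 : 0 < Real.log 2 := Real.log_pos (by norm_num)
  have hl2' : Real.log 2 < 0.6931471808 := Real.log_two_lt_d9
  have hl4 : Real.log 4 = 2 * Real.log 2 := by
    rw [show (4 : ℝ) = 2 ^ 2 by norm_num, Real.log_pow]
    norm_num
  have hK0 : (0 : ℝ) ≤ K := Nat.cast_nonneg _
  have hp1 : 0 < (2 : ℝ) ^ (-((K : ℝ) / 2)) := by positivity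
  have hpow : (2 : ℝ) ^ (-((K : ℝ) / 2)) * (2 : ℝ) ^ ((K : ℝ) / 2) = 1 := by
    rw [← Real.rpow_add (by norm_num), neg_add_cancel, Real.rpow_zero]
  set δ : ℝ := (17 * K + 33) * (2 : ℝ) ^ (-((K : ℝ) / 2)) with hδ
  have hδ0 : 0 < δ := by positivity
  have hδ2 : δ * (2 : ℝ) ^ ((K : ℝ) / 2) = 17 * K + 33 := by
    rw [hδ, mul_assoc, hpow, mul_one]
  refine ⟨δ, hδ0, by rw [hδ]; nlinarith, ?_⟩
  rcases Nat.lt_or_ge K 8 with hK8 | hK8
  · refine ⟨0, fun X _ => ?_⟩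
    have h1 := lsum_le (Van K) X
    have h4 : 2 ≤ δ := by
      have h3 : (2 : ℝ) ^ ((K : ℝ) / 2) ≤ 2 ^ ((7 : ℝ) / 2) := by
        apply Real.rpow_le_rpow_of_exponent_le (by norm_num)
        have : (K : ℝ) ≤ 7 := by exact_mod_cast (by omega : K ≤ 7)
        linarith
      have h5 : (2 : ℝ) ^ ((7 : ℝ) / 2) ≤ 16 := by
        calc (2 : ℝ) ^ ((7 : ℝ) / 2) ≤ (2 : ℝ) ^ (4 : ℝ) := by
              apply Real.rpow_le_rpow_of_exponent_le (by norm_num)
              norm_num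
          _ = 16 := by norm_num
      by_contra hcon
      push Not at hcon
      have : δ * (2 : ℝ) ^ ((K : ℝ) / 2) ≤ 2 * 16 :=
        mul_le_mul hcon.le (h3.trans h5) (by positivity) (by norm_num)
      rw [hδ2] at this
      linarith
    have hX0 : (0 : ℝ) ≤ X := Nat.cast_nonneg _
    rw [hl4] at h1
    nlinarith
  · have hnot : ¬ Freq (Van K) δ := by
      intro hF
      rcases Nat.even_or_odd' K with ⟨k, hk | hk⟩
      · -- `K = 2 w + 2`
        obtain ⟨w, rfl⟩ : ∃ w, k = w + 1 := ⟨k - 1, by omega⟩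
        have hK : K = 2 * w + 2 := by omega
        have hw : 3 ≤ w := by omega
        subst hK
        have h1 := freq_van_even w (by omega) hδ0.le hF
        obtain ⟨v, rfl⟩ : ∃ v, w = v + 1 := ⟨w - 1, by omega⟩
        rw [Nat.add_sub_cancel] at h1
        have hv : (4 : ℝ) ≤ 2 ^ v := by
          calc (4 : ℝ) = 2 ^ 2 := by norm_num
            _ ≤ 2 ^ v := pow_le_pow_right₀ (by norm_num) (by omega)
        have hpos : (0 : ℝ) < 2 ^ (v + 1) - 1 := by
          rw [pow_succ]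
          linarith
        have e1 : 1 - (2 : ℝ) ^ v / (2 ^ (v + 1) - 1) = (2 ^ v - 1) / (2 ^ (v + 1) - 1) := by
          rw [eq_div_iff hpos.ne', sub_mul, div_mul_cancel₀ _ hpos.ne', pow_succ]
          ring
        rw [e1, mul_div_assoc', div_le_iff₀ hpos] at h1
        have e2 : (2 : ℝ) ^ (((2 * (v + 1) + 2 : ℕ) : ℝ) / 2) = 4 * 2 ^ v := by
          have e3 : ((2 * (v + 1) + 2 : ℕ) : ℝ) / 2 = ((v + 2 : ℕ) : ℝ) := by
            push_cast
            ring
          rw [e3, Real.rpow_natCast, pow_add]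
          ring
        rw [e2] at hδ2
        have hKr : ((2 * (v + 1) + 2 : ℕ) : ℝ) = 2 * v + 4 := by
          push_cast
          ring
        rw [hKr] at hδ2
        have hv0 : (0 : ℝ) ≤ v := Nat.cast_nonneg _
        have h2 : (17 * (2 * (v : ℝ) + 4) + 33) * (2 ^ v - 1) ≤
            4 * ((3 * ((v : ℝ) + 1) + 9 / 2 + Real.log 4) * (2 ^ (v + 1) - 1)) := by
          have h3 : δ * (4 * 2 ^ v) * (2 ^ v - 1) = (17 * (2 * (v : ℝ) + 4) + 33) * (2 ^ v - 1) := by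
            rw [hδ2]
          rw [← h3]
          push_cast at h1
          linarith
        rw [pow_succ, hl4] at h2
        have h5 : (17 * (2 * (v : ℝ) + 4) + 33) * (2 ^ v - 1) ≤
            4 * ((3 * ((v : ℝ) + 1) + 9 / 2 + 2 * 0.6931471808) * (2 ^ v * 2 - 1)) := by
          refine h2.trans ?_
          refine mul_le_mul_of_nonneg_left (mul_le_mul_of_nonneg_right (by linarith) ?_)
            (by norm_num)
          linarith
        nlinarith [mul_nonneg hv0 (by linarith : (0 : ℝ) ≤ 2 ^ v - 4)]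
      · -- `K = 2 w + 3`
        obtain ⟨w, rfl⟩ : ∃ w, k = w + 1 := ⟨k - 1, by omega⟩
        have hK : K = 2 * w + 3 := by omega
        have hw : 1 ≤ w := by omega
        subst hK
        have h1 := freq_van_odd w hw hδ0.le hF
        have e2 : (2 : ℝ) ^ (((2 * w + 3 : ℕ) : ℝ) / 2) = 2 ^ w * 2 ^ ((3 : ℝ) / 2) := by
          have e3 : ((2 * w + 3 : ℕ) : ℝ) / 2 = (w : ℝ) + 3 / 2 := by
            push_cast
            ring
          rw [e3, Real.rpow_add (by norm_num), Real.rpow_natCast]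
        have e4 : (2 : ℝ) ^ ((3 : ℝ) / 2) < 2.8285 := by
          have e5 : (2 : ℝ) ^ ((3 : ℝ) / 2) * (2 : ℝ) ^ ((3 : ℝ) / 2) = 8 := by
            rw [← Real.rpow_add (by norm_num)]
            norm_num
          have e6 : (0 : ℝ) < (2 : ℝ) ^ ((3 : ℝ) / 2) := by positivity
          nlinarith
        rw [e2, ← mul_assoc] at hδ2
        have hw0 : (0 : ℝ) ≤ w := Nat.cast_nonneg _
        have h2 : (17 * ((2 * w + 3 : ℕ) : ℝ) + 33) ≤ 4 * (3 * w + 6 + Real.log 4) * 2.8285 := by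
          rw [← hδ2]
          have h3 : (0 : ℝ) < (2 : ℝ) ^ ((3 : ℝ) / 2) := by positivity
          have h4 : (0 : ℝ) ≤ 4 * (3 * w + 6 + Real.log 4) := by rw [hl4]; positivity
          calc δ * 2 ^ w * 2 ^ ((3 : ℝ) / 2) ≤ 4 * (3 * w + 6 + Real.log 4) * 2 ^ ((3 : ℝ) / 2) :=
                mul_le_mul_of_nonneg_right h1 h3.le
            _ ≤ _ := mul_le_mul_of_nonneg_left e4.le h4
        push_cast at h2
        rw [hl4] at h2
        nlinarith
    obtain ⟨X0, h⟩ := not_freq hnot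
    exact ⟨X0, fun X hX => (h X hX).le⟩

theorem nonvan_pnt {K : ℕ} {δ c : ℝ} (hδ : ¬ Freq (Van K) δ) (hc : c < 1 - δ) :
    ∃ X0 : ℕ, ∀ X : ℕ, X0 ≤ X → c * (X : ℝ) ≤ lsum (Van K)ᶜ X := by
  obtain ⟨X1, h1⟩ := not_freq hδ
  obtain ⟨X2, h2⟩ := theta_pnt (1 - δ - c) (by linarith)
  refine ⟨max X1 X2, fun X hX => ?_⟩
  have h3 := h1 X (le_trans (le_max_left _ _) hX)
  have h4 := (h2 X (le_trans (le_max_right _ _) hX)).1
  rw [theta_nat] at h4
  have h5 : lsum Set.univ X ≤ lsum (Van K) X + lsum (Van K)ᶜ X := by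
    simp only [lsum_lterm]
    rw [← Finset.sum_add_distrib]
    refine Finset.sum_le_sum fun p _ => ?_
    by_cases hp : p.Prime
    · rw [lterm_pos (Set.mem_univ _) hp]
      by_cases hv : p ∈ Van K
      · rw [lterm_pos hv hp]
        exact le_add_of_nonneg_right (lterm_nonneg _ _)
      · rw [lterm_pos (show p ∈ (Van K)ᶜ from hv) hp]
        exact le_add_of_nonneg_left (lterm_nonneg _ _)
    · rw [lterm_neg fun h => hp h.2]
      exact add_nonneg (lterm_nonneg _ _) (lterm_nonneg _ _)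
  linarith

theorem nonvan_16 : ∃ X0 : ℕ, ∀ X : ℕ, X0 ≤ X → 153 / 1000 * (X : ℝ) ≤ lsum (Van 16)ᶜ X := by
  have hl2' : Real.log 2 < 0.6931471808 := Real.log_two_lt_d9
  have hl4 : Real.log 4 = 2 * Real.log 2 := by
    rw [show (4 : ℝ) = 2 ^ 2 by norm_num, Real.log_pow]
    norm_num
  refine nonvan_pnt (δ := 8469 / 10000) ?_ (by norm_num)
  intro hF
  have h1 := freq_van_even 7 (by norm_num) (by norm_num) hF
  rw [hl4] at h1
  norm_num at h1
  linarith

theorem nonvan_18 : ∃ X0 : ℕ, ∀ X : ℕ, X0 ≤ X → 531 / 1000 * (X : ℝ) ≤ lsum (Van 18)ᶜ X := by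
  have hl2' : Real.log 2 < 0.6931471808 := Real.log_two_lt_d9
  have hl4 : Real.log 4 = 2 * Real.log 2 := by
    rw [show (4 : ℝ) = 2 ^ 2 by norm_num, Real.log_pow]
    norm_num
  refine nonvan_pnt (δ := 46885 / 100000) ?_ (by norm_num)
  intro hF
  have h1 := freq_van_even 8 (by norm_num) (by norm_num) hF
  rw [hl4] at h1
  norm_num at h1
  linarith

/-! natural densities -/

/-- the number of primes `p ≤ X` in `Q` -/
noncomputable def cnt (Q : Set ℕ) (X : ℕ) : ℕ := by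
  classical
  exact ((range (X + 1)).filter (fun p => p ∈ Q ∧ p.Prime)).card

theorem pi_pnt (ε : ℝ) (hε : 0 < ε) : ∃ X0 : ℕ, ∀ X : ℕ, X0 ≤ X →
    (1 - ε) * X ≤ (Nat.primeCounting X : ℝ) * Real.log X ∧
      (Nat.primeCounting X : ℝ) * Real.log X ≤ (1 + ε) * X := by
  have h1 := Chebyshev.primeCounting_sub_theta_div_log_isBigO
  obtain ⟨C, hC⟩ := h1.bound
  have h2 := tendsto_natCast_atTop_atTop (R := ℝ) |>.eventually hC
  obtain ⟨n0, hn0⟩ := eventually_atTop.1 h2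
  obtain ⟨n1, hn1⟩ := theta_pnt (ε / 2) (by linarith)
  have h3 : Tendsto (fun n : ℕ => Real.log (n : ℝ)) atTop atTop :=
    Real.tendsto_log_atTop.comp tendsto_natCast_atTop_atTop
  obtain ⟨n2, hn2⟩ := eventually_atTop.1 (h3.eventually_ge_atTop (2 * |C| / ε + 1))
  refine ⟨max (max n0 n1) n2, fun X hX => ?_⟩
  have hX0 := hn0 X (by omega)
  have hX1 := hn1 X (by omega)
  have hX2 := hn2 X (by omega)
  have hlog : 0 < Real.log X := lt_of_lt_of_le (by positivity) hX2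
  have hXn : (0 : ℝ) ≤ X := Nat.cast_nonneg _
  rw [Nat.floor_natCast, Real.norm_eq_abs, Real.norm_eq_abs, abs_of_nonneg
    (by positivity : 0 ≤ (X : ℝ) / Real.log X ^ 2)] at hX0
  have h4 : |(Nat.primeCounting X : ℝ) * Real.log X - Chebyshev.theta X| ≤ ε / 2 * X := by
    have h5 : (Nat.primeCounting X : ℝ) * Real.log X - Chebyshev.theta X =
        ((Nat.primeCounting X : ℝ) - Chebyshev.theta X / Real.log X) * Real.log X := by
      field_simp
    rw [h5, abs_mul, abs_of_pos hlog]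
    have h6 : |(Nat.primeCounting X : ℝ) - Chebyshev.theta X / Real.log X| * Real.log X ≤
        C * (X / Real.log X ^ 2) * Real.log X := mul_le_mul_of_nonneg_right hX0 hlog.le
    refine h6.trans ?_
    have h7 : C * (X / Real.log X ^ 2) * Real.log X = C / Real.log X * X := by
      field_simp
    rw [h7]
    refine mul_le_mul_of_nonneg_right ?_ hXn
    rw [div_le_iff₀ hlog]
    have h8 : C ≤ |C| := le_abs_self C
    have h9 : 2 * |C| / ε ≤ Real.log X := by linarith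
    rw [div_le_iff₀ hε] at h9
    linarith
  rw [abs_le] at h4
  constructor
  · linarith [h4.1, hX1.1]
  · linarith [h4.2, hX1.2]

theorem lsum_le_cnt (Q : Set ℕ) (X : ℕ) : lsum Q X ≤ (cnt Q X : ℝ) * Real.log X := by
  classical
  have h : ∀ p ∈ (range (X + 1)).filter (fun p => p ∈ Q ∧ p.Prime), Real.log p ≤ Real.log X := by
    intro p hp
    obtain ⟨h1, _, h2⟩ := mem_filter.1 hp
    have h3 : (p : ℝ) ≤ X := by
      exact_mod_cast Nat.lt_succ_iff.1 (mem_range.1 h1)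
    exact Real.log_le_log (by exact_mod_cast h2.pos) h3
  rw [lsum_eq]
  have h1 := Finset.sum_le_card_nsmul _ _ _ h
  rw [nsmul_eq_mul] at h1
  refine h1.trans (le_of_eq ?_)
  unfold cnt
  congr

theorem cnt_lower {Q : Set ℕ} {c c' : ℝ} (hc : c' < c) (hc0 : 0 ≤ c')
    (h : ∃ X0 : ℕ, ∀ X : ℕ, X0 ≤ X → c * (X : ℝ) ≤ lsum Q X) :
    ∃ X0 : ℕ, ∀ X : ℕ, X0 ≤ X → c' * (Nat.primeCounting X : ℝ) ≤ (cnt Q X : ℝ) := by
  obtain ⟨X0, h0⟩ := h
  have hcpos : 0 < c := lt_of_le_of_lt hc0 hc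
  have hε : 0 < (c - c') / c := div_pos (by linarith) hcpos
  obtain ⟨X1, h1⟩ := pi_pnt ((c - c') / c) hε
  refine ⟨max (max X0 X1) 3, fun X hX => ?_⟩
  have h2 := h0 X (by omega)
  have h3 := (h1 X (by omega)).2
  have h4 := lsum_le_cnt Q X
  have hX3 : (3 : ℝ) ≤ X := by exact_mod_cast (le_trans (le_max_right _ _) hX)
  have hlog : 0 < Real.log X := Real.log_pos (by linarith)
  have hXn : (0 : ℝ) < X := by linarith
  -- `c' (1 + ε) ≤ c`
  have h5 : c' * (1 + (c - c') / c) ≤ c := by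
    have h6 : c' / c ≤ 1 := (div_le_one hcpos).2 hc.le
    have h7 : c' * ((c - c') / c) = (c' / c) * (c - c') := by ring
    rw [mul_add, mul_one, h7]
    nlinarith
  have h8 : c' * (Nat.primeCounting X : ℝ) * Real.log X ≤ (cnt Q X : ℝ) * Real.log X := by
    calc c' * (Nat.primeCounting X : ℝ) * Real.log X =
          c' * ((Nat.primeCounting X : ℝ) * Real.log X) := by ring
      _ ≤ c' * ((1 + (c - c') / c) * X) := mul_le_mul_of_nonneg_left h3 hc0
      _ = c' * (1 + (c - c') / c) * X := by ring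
      _ ≤ c * X := mul_le_mul_of_nonneg_right h5 hXn.le
      _ ≤ _ := h2.trans h4
  exact le_of_mul_le_mul_right h8 hlog

theorem cnt_add (Q : Set ℕ) (X : ℕ) : cnt Q X + cnt Qᶜ X = Nat.primeCounting X := by
  classical
  have h1 : Nat.primeCounting X = ((range (X + 1)).filter (fun p => p.Prime)).card := by
    rw [Nat.primeCounting, Nat.primeCounting', Nat.count_eq_card_filter_range]
  rw [h1]
  unfold cnt
  rw [← Finset.card_union_of_disjoint]
  · congr 1
    ext p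
    simp only [mem_union, mem_filter, Set.mem_compl_iff]
    tauto
  · rw [Finset.disjoint_left]
    intro p hp hp'
    simp only [mem_filter, Set.mem_compl_iff] at hp hp'
    exact hp'.2.1 hp.2.1

theorem cnt_upper {Q : Set ℕ} {c c' : ℝ} (hc : c < c')
    (h : ∃ X0 : ℕ, ∀ X : ℕ, X0 ≤ X → lsum Q X ≤ c * (X : ℝ)) :
    ∃ X0 : ℕ, ∀ X : ℕ, X0 ≤ X → (cnt Q X : ℝ) ≤ c' * (Nat.primeCounting X : ℝ) := by
  rcases lt_or_ge 1 c' with h1c | h1c
  · refine ⟨0, fun X _ => ?_⟩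
    have h1 : (cnt Q X : ℝ) ≤ Nat.primeCounting X := by
      have := cnt_add Q X
      exact_mod_cast (by omega : cnt Q X ≤ Nat.primeCounting X)
    have h2 : (0 : ℝ) ≤ Nat.primeCounting X := Nat.cast_nonneg _
    nlinarith
  obtain ⟨X0, h0⟩ := h
  obtain ⟨X1, h1⟩ := theta_pnt ((c' - c) / 2) (by linarith)
  have h2 : ∃ X0 : ℕ, ∀ X : ℕ, X0 ≤ X → (1 - (c + c') / 2) * (X : ℝ) ≤ lsum Qᶜ X := by
    refine ⟨max X0 X1, fun X hX => ?_⟩
    have h3 := h0 X (by omega)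
    have h4 := (h1 X (by omega)).1
    rw [theta_nat] at h4
    have h5 : lsum Set.univ X ≤ lsum Q X + lsum Qᶜ X := by
      simp only [lsum_lterm]
      rw [← Finset.sum_add_distrib]
      refine Finset.sum_le_sum fun p _ => ?_
      by_cases hp : p.Prime
      · rw [lterm_pos (Set.mem_univ _) hp]
        by_cases hv : p ∈ Q
        · rw [lterm_pos hv hp]
          exact le_add_of_nonneg_right (lterm_nonneg _ _)
        · rw [lterm_pos (show p ∈ Qᶜ from hv) hp]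
          exact le_add_of_nonneg_left (lterm_nonneg _ _)
      · rw [lterm_neg fun h => hp h.2]
        exact add_nonneg (lterm_nonneg _ _) (lterm_nonneg _ _)
    linarith
  obtain ⟨X2, h3⟩ := cnt_lower (c' := 1 - c') (by linarith) (by linarith) h2
  refine ⟨X2, fun X hX => ?_⟩
  have h4 := h3 X hX
  have h5 : (cnt Q X : ℝ) + cnt Qᶜ X = Nat.primeCounting X := by exact_mod_cast cnt_add Q X
  linarith

/-- natural density of the primes modulo which all values of the weights `1, .., K` vanish -/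
theorem van_count (K : ℕ) : ∃ X0 : ℕ, ∀ X : ℕ, X0 ≤ X →
    (cnt (Van K) X : ℝ) ≤ 17 * (K + 2) * (2 : ℝ) ^ (-((K : ℝ) / 2)) * Nat.primeCounting X := by
  obtain ⟨δ, _, h1, h2⟩ := van_density_pnt K
  exact cnt_upper h1 h2

theorem nonvan_count16 : ∃ X0 : ℕ, ∀ X : ℕ, X0 ≤ X →
    3 / 20 * (Nat.primeCounting X : ℝ) ≤ (cnt (Van 16)ᶜ X : ℝ) :=
  cnt_lower (by norm_num) (by norm_num) nonvan_16

theorem nonvan_count18 : ∃ X0 : ℕ, ∀ X : ℕ, X0 ≤ X →
    53 / 100 * (Nat.primeCounting X : ℝ) ≤ (cnt (Van 18)ᶜ X : ℝ) :=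
  cnt_lower (by norm_num) (by norm_num) nonvan_18

end Pool.MZFin
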