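import Pool.Agent.Lib.MZFin.PChb
import Pool.Agent.Lib.MZFin.DDens
import Pool.Agent.Lib.PNT.Theta

/-! MP_c511df_nt, finite multiple zeta values, module `PPnt`: the prime number theorem in the form
needed for the densities. -/

open Finset Filter

namespace Pool.MZFin

theorem theta_nat (n : ℕ) : Chebyshev.theta (n : ℝ) = lsum Set.univ n := by
  classical
  rw [lsum_eq, Chebyshev.theta_eq_sum_Icc, Nat.floor_natCast]
  refine Finset.sum_congr ?_ fun _ _ => rfl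
  ext p
  simp only [mem_filter, mem_Icc, mem_range, Set.mem_univ, true_and]
  constructor
  · rintro ⟨⟨_, h⟩, hp⟩
    exact ⟨by omega, hp⟩
  · rintro ⟨h, hp⟩
    exact ⟨⟨by omega, by omega⟩, hp⟩

private theorem ppnt_ev (f : ℝ → ℝ) (h : Tendsto (fun x : ℝ => f x / x) atTop (nhds 1)) (ε : ℝ)
    (hε : 0 < ε) : ∃ m0 : ℕ, ∀ m : ℕ, m0 ≤ m → (1 - ε) * m ≤ f m ∧ f m ≤ (1 + ε) * m := by
  have h1 := (h.comp tendsto_natCast_atTop_atTop)
  have h2 := (Metric.tendsto_nhds.1 h1 ε hε)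
  obtain ⟨m0, hm0⟩ := Filter.eventually_atTop.1 h2
  refine ⟨max m0 1, fun m hm => ?_⟩
  have h3 := hm0 m ((le_max_left _ _).trans hm)
  have hm1 : (0 : ℝ) < m := by exact_mod_cast lt_of_lt_of_le Nat.zero_lt_one ((le_max_right _ _).trans hm)
  rw [Real.dist_eq, abs_lt] at h3
  obtain ⟨h4, h5⟩ := h3
  simp only [Function.comp] at h4 h5
  have h6 : f m / m * m = f m := div_mul_cancel₀ _ hm1.ne'
  constructor
  · nlinarith
  · nlinarith

theorem theta_pnt (ε : ℝ) (hε : 0 < ε) : ∃ m0 : ℕ, ∀ m : ℕ, m0 ≤ m →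
    (1 - ε) * m ≤ Chebyshev.theta m ∧ Chebyshev.theta m ≤ (1 + ε) * m :=
  ppnt_ev _ PNT.theta_tendsto ε hε

theorem lcm_pnt (ε : ℝ) (hε : 0 < ε) : ∃ m0 : ℕ, ∀ m : ℕ, m0 ≤ m →
    ((Nat.lcmUpto m : ℕ) : ℝ) ≤ Real.exp ((1 + ε) * m) := by
  obtain ⟨m0, hm0⟩ := ppnt_ev _ PNT.psi_tendsto ε hε
  refine ⟨m0, fun m hm => ?_⟩
  have h2 := (hm0 m hm).2
  rw [Chebyshev.psi_eq_log_lcmUpto] at h2
  have hpos : (0 : ℝ) < ((Nat.lcmUpto m : ℕ) : ℝ) := by
    exact_mod_cast Nat.pos_of_ne_zero (Nat.lcmUpto_ne_zero m)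
  rw [← Real.log_le_iff_le_exp hpos]
  exact h2

open Classical in
theorem log_prod_lam (P : Set ℕ) (m n : ℕ) :
    (∑ p ∈ (range (n + 1)).filter (fun p => p ∈ P ∧ p.Prime), Real.log p) - Chebyshev.theta m ≤
      Real.log ((∏ p ∈ (range (n + 1)).filter (fun p => p ∈ P ∧ p.Prime ∧ m < p), p : ℕ) : ℝ) := by
  have hprod : Real.log ((∏ p ∈ (range (n + 1)).filter (fun p => p ∈ P ∧ p.Prime ∧ m < p), p :
      ℕ) : ℝ) = ∑ p ∈ (range (n + 1)).filter (fun p => p ∈ P ∧ p.Prime ∧ m < p), Real.log p := by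
    rw [Nat.cast_prod, Real.log_prod]
    intro p hp
    have := (mem_filter.1 hp).2.2.1.pos
    positivity
  rw [hprod, theta_nat, lsum_eq]
  have hsub : (range (n + 1)).filter (fun p => p ∈ P ∧ p.Prime) ⊆
      (range (n + 1)).filter (fun p => p ∈ P ∧ p.Prime ∧ m < p) ∪
        (range (m + 1)).filter (fun p => p ∈ Set.univ ∧ p.Prime) := by
    intro p hp
    obtain ⟨h1, h2, h3⟩ := mem_filter.1 hp
    rcases Nat.lt_or_ge m p with h | h
    · exact mem_union_left _ (mem_filter.2 ⟨h1, h2, h3, h⟩)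
    · exact mem_union_right _ (mem_filter.2 ⟨mem_range.2 (by omega), Set.mem_univ _, h3⟩)
  have hnn : ∀ p : ℕ, 0 ≤ Real.log (p : ℝ) := fun p => Real.log_natCast_nonneg p
  have h1 : (∑ p ∈ (range (n + 1)).filter (fun p => p ∈ P ∧ p.Prime), Real.log p) ≤
      ∑ p ∈ (range (n + 1)).filter (fun p => p ∈ P ∧ p.Prime ∧ m < p) ∪
        (range (m + 1)).filter (fun p => p ∈ Set.univ ∧ p.Prime), Real.log p :=
    Finset.sum_le_sum_of_subset_of_nonneg hsub fun p _ _ => hnn p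
  have h2 : (∑ p ∈ (range (n + 1)).filter (fun p => p ∈ P ∧ p.Prime ∧ m < p) ∪
        (range (m + 1)).filter (fun p => p ∈ Set.univ ∧ p.Prime), Real.log p) ≤
      (∑ p ∈ (range (n + 1)).filter (fun p => p ∈ P ∧ p.Prime ∧ m < p), Real.log p) +
        ∑ p ∈ (range (m + 1)).filter (fun p => p ∈ Set.univ ∧ p.Prime), Real.log p := by
    rw [← Finset.sum_union_inter]
    exact le_add_of_nonneg_right (Finset.sum_nonneg fun p _ => hnn p)
  linarith [h1, h2]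

end Pool.MZFin
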