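import Pool.Agent.Lib.MZFin.PCore
import Pool.Agent.Lib.MZFin.PChb
import Pool.Agent.Lib.MZFin.PPnt

/-! MP_c511df_nt, finite multiple zeta values, module `PIneq3`: the main inequality with a SPARSE
box and the prime number theorem: only the primes of `P` are counted in the box principle. With `S = ∑_(p ∈ P, p ≤ n) log p`,
`n = κ D` and `log Y = κ S / |A|` the determinant gives
`S (1 - r κ / |A|) ≤ D (r (log 4 + (3/2) η) + (3/2) log 4) + o(D)`. -/

open Finset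

namespace Pool.MZFin

private theorem pineq3_asymp (r : ℕ) (K0 g : ℝ) (hg : 0 < g) : ∃ D1 : ℕ, ∀ D : ℕ, D1 ≤ D →
    K0 + (r : ℝ) * Real.log D < g * D := by
  have hr : (0 : ℝ) ≤ r := Nat.cast_nonneg r
  have hc : 0 < g / (2 * ((r : ℝ) + 1)) := by positivity
  have h := Real.isLittleO_log_id_atTop.def hc
  have h2 := (tendsto_natCast_atTop_atTop (R := ℝ)).eventually h
  obtain ⟨m1, hm1⟩ := Filter.eventually_atTop.1 h2
  obtain ⟨m2, hm2⟩ := exists_nat_gt (2 * K0 / g)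
  refine ⟨max m1 m2, fun D hD => ?_⟩
  have h3 := hm1 D ((le_max_left _ _).trans hD)
  rw [Real.norm_eq_abs, abs_of_nonneg (Real.log_natCast_nonneg D), id, Real.norm_eq_abs,
    abs_of_nonneg (Nat.cast_nonneg D)] at h3
  have h4 : (m2 : ℝ) ≤ D := by exact_mod_cast (le_max_right _ _).trans hD
  have h5 : 2 * K0 / g < D := lt_of_lt_of_le hm2 h4
  have h6 : 2 * K0 < D * g := (div_lt_iff₀ hg).mp h5
  have h7 : (r : ℝ) * Real.log D ≤ g / 2 * D := by
    calc (r : ℝ) * Real.log D ≤ r * (g / (2 * ((r : ℝ) + 1)) * D) :=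
          mul_le_mul_of_nonneg_left h3 hr
      _ = (r / ((r : ℝ) + 1)) * (g / 2 * D) := by
          field_simp
      _ ≤ 1 * (g / 2 * D) := by
          refine mul_le_mul_of_nonneg_right ?_ (by positivity)
          rw [div_le_one (by positivity)]
          linarith
      _ = g / 2 * D := one_mul _
  nlinarith [h6, h7]


private theorem pineq3_prod (Q : Finset ℕ) (n : ℕ) (S : ℝ) (hQ : ∀ p ∈ Q, p.Prime ∧ p ≤ n)
    (hS : ∑ p ∈ Q, Real.log p ≤ S) :
    ((∏ p ∈ Q, p ^ p : ℕ) : ℝ) ≤ Real.exp (n * S) := by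
  have h1 : ∏ p ∈ Q, p ^ p ≤ (∏ p ∈ Q, p) ^ n :=
    calc ∏ p ∈ Q, p ^ p ≤ ∏ p ∈ Q, p ^ n :=
          Finset.prod_le_prod' fun p hp => Nat.pow_le_pow_right (hQ p hp).1.pos (hQ p hp).2
      _ = (∏ p ∈ Q, p) ^ n := Finset.prod_pow Q n fun p => p
  have h2 : ((∏ p ∈ Q, p : ℕ) : ℝ) ≤ Real.exp S := by
    rw [← Real.log_le_iff_le_exp]
    · rw [Nat.cast_prod, Real.log_prod]
      · exact hS
      · intro p hp
        have := (hQ p hp).1.pos
        positivity
    · exact_mod_cast Finset.prod_pos fun p hp => (hQ p hp).1.pos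
  calc ((∏ p ∈ Q, p ^ p : ℕ) : ℝ) ≤ (((∏ p ∈ Q, p) ^ n : ℕ) : ℝ) := by exact_mod_cast h1
    _ = ((∏ p ∈ Q, p : ℕ) : ℝ) ^ n := by push_cast; rfl
    _ ≤ (Real.exp S) ^ n := pow_le_pow_left₀ (Nat.cast_nonneg _) h2 n
    _ = Real.exp (n * S) := by rw [← Real.exp_nat_mul]

open Classical in
theorem main_ineq_lam (A B W : Finset (List ℕ)) (hA : TC1 A) (hB : TC1 B)
    (h4 : 4 * A.card < B.card) (hW : [] ∈ W)
    (mom : (List ℕ → ℚ) → List ℕ → List ℕ → ℕ → ℚ)
    (hmom : ∀ φ : List ℕ → ℚ, φ [] = 1 → (∀ c, 1 ≤ c → φ [c] = 0) → RecM (mom φ))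
    (E : ℕ → ℕ) (hE : ∀ m, 1 ≤ E m) (C : ℕ) (h : HRed A B W mom E C) (η : ℝ)
    (hη : ∃ m0 : ℕ, ∀ m : ℕ, m0 ≤ m → (E m : ℝ) ≤ Real.exp (η * m))
    (P : Set ℕ) (δ : ℝ) (hδ : 0 ≤ δ)
    (hP : ∀ X0 : ℕ, ∃ X : ℕ, X0 ≤ X ∧
      δ * X ≤ ∑ p ∈ (range (X + 1)).filter (fun p => p ∈ P ∧ p.Prime), Real.log p)
    (κ : ℕ) (lam : ℝ) (hlam : ∃ m1 : ℕ, ∀ m : ℕ, m1 ≤ m → Chebyshev.theta m ≤ lam * m) :
    δ * κ * (1 - (dimF P W : ℝ) * κ / A.card) - 3 / 2 * lam ≤
      (dimF P W : ℝ) * (Real.log 4 + 3 / 2 * η) := by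
  have hl4 : 0 < Real.log 4 := Real.log_pos (by norm_num)
  have hlam0 : 0 ≤ lam := by
    obtain ⟨m1, h1⟩ := hlam
    have h2 := h1 (max m1 1) (le_max_left _ _)
    have h3 := Chebyshev.theta_nonneg ((max m1 1 : ℕ) : ℝ)
    have h4 : (0 : ℝ) < ((max m1 1 : ℕ) : ℝ) := by
      exact_mod_cast lt_of_lt_of_le Nat.zero_lt_one (le_max_right m1 1)
    by_contra hneg
    push Not at hneg
    nlinarith [h2, h3, h4]
  have hη0 : 0 ≤ η := by
    obtain ⟨m0, hm0⟩ := hη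
    have h1 := hm0 (max m0 1) (le_max_left _ _)
    have h2 : (1 : ℝ) ≤ (E (max m0 1) : ℝ) := by exact_mod_cast hE _
    have h3 : Real.exp 0 ≤ Real.exp (η * ((max m0 1 : ℕ) : ℝ)) := by
      rw [Real.exp_zero]
      exact h2.trans h1
    have h4 : 0 ≤ η * ((max m0 1 : ℕ) : ℝ) := Real.exp_le_exp.mp h3
    have h5 : (0 : ℝ) < ((max m0 1 : ℕ) : ℝ) := by
      exact_mod_cast lt_of_lt_of_le Nat.zero_lt_one (le_max_right m0 1)
    by_contra hneg
    push Not at hneg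
    nlinarith [h4, h5, hneg]
  have hr : (0 : ℝ) ≤ (dimF P W : ℝ) := Nat.cast_nonneg _
  have hc0 : 0 ≤ Real.log 4 + 3 / 2 * η := by positivity
  by_contra hcon
  push Not at hcon
  have hA1 : 1 ≤ A.card := Finset.card_pos.2 ⟨[], hA.1⟩
  have hA1' : (0 : ℝ) < A.card := by exact_mod_cast hA1
  obtain ⟨C', D0, P0, hC', hcore⟩ := core A B W hA hB h4 hW mom hmom E hE C h P
  obtain ⟨m0, hm0⟩ := hη
  obtain ⟨m1, hm1⟩ := hlam
  set r := dimF P W with hrdef
  set ρ : ℝ := 1 - (r : ℝ) * κ / A.card with hρ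
  have hrc : 0 ≤ (r : ℝ) * (Real.log 4 + 3 / 2 * η) := mul_nonneg hr hc0
  have hpos : 0 < δ * κ * ρ := by linarith
  have hδκ : 0 ≤ δ * κ := mul_nonneg hδ (Nat.cast_nonneg _)
  have hρ0 : 0 < ρ := by
    by_contra hneg
    push Not at hneg
    have := mul_nonpos_of_nonneg_of_nonpos hδκ hneg
    linarith
  have hρ1 : ρ ≤ 1 := by
    rw [hρ]
    have : 0 ≤ (r : ℝ) * κ / A.card := by positivity
    linarith
  have hκpos : 0 < κ := by
    rcases Nat.eq_zero_or_pos κ with h0 | h0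
    · rw [h0, Nat.cast_zero, mul_zero, zero_mul] at hpos
      exact absurd hpos (lt_irrefl _)
    · exact h0
  set g : ℝ := δ * κ * ρ - 3 / 2 * lam -
    (r : ℝ) * (Real.log 4 + 3 / 2 * η) with hgdef
  have hg : 0 < g := by
    rw [hgdef]
    linarith
  obtain ⟨D1, hD1⟩ := pineq3_asymp r (δ * κ + lam + (1 + (r : ℝ)) * Real.log C' + r * η) g hg
  obtain ⟨X, hX, hXs⟩ := hP (κ * (D1 + D0 + P0 + m0 + m1))
  obtain ⟨D, hDdef⟩ : ∃ D, D = X / κ + 1 := ⟨_, rfl⟩
  have hD2 : D1 + D0 + P0 + m0 + m1 ≤ X / κ := by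
    rw [Nat.le_div_iff_mul_le hκpos, mul_comm]
    exact hX
  have hXle : X ≤ κ * D := by
    have h1 := Nat.lt_div_mul_add (a := X) hκpos
    rw [hDdef]
    have h2 : κ * (X / κ + 1) = X / κ * κ + κ := by ring
    omega
  have hleX : κ * D ≤ X + κ := by
    have h1 := Nat.div_mul_le_self X κ
    rw [hDdef]
    have h2 : κ * (X / κ + 1) = X / κ * κ + κ := by ring
    omega
  have hDpos : 1 ≤ D := by omega
  obtain ⟨m, hmdef⟩ : ∃ m, m = D + D / 2 + 1 := ⟨_, rfl⟩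
  obtain ⟨n, hndef⟩ : ∃ n, n = κ * D := ⟨_, rfl⟩
  have hDr : (1 : ℝ) ≤ D := by exact_mod_cast hDpos
  set S : ℝ := ∑ p ∈ (range (n + 1)).filter (fun p => p ∈ P ∧ p.Prime), Real.log p with hS
  have hS0 : 0 ≤ S := Finset.sum_nonneg fun p _ => Real.log_natCast_nonneg p
  have hlog := log_prod_lam P m n
  rw [← hS] at hlog
  obtain ⟨Y, hYdef⟩ : ∃ Y, Y = ⌊Real.exp (κ * S / A.card)⌋₊ := ⟨_, rfl⟩
  have hY1 : 1 ≤ Y := by
    rw [hYdef, Nat.one_le_floor_iff]
    exact Real.one_le_exp (by positivity)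
  have hYle : (Y : ℝ) ≤ Real.exp (κ * S / A.card) := by
    rw [hYdef]
    exact Nat.floor_le (Real.exp_pos _).le
  have hYlt : Real.exp (κ * S / A.card) < (Y : ℝ) + 1 := by
    rw [hYdef]
    exact Nat.lt_floor_add_one _
  have hbox : ∏ p ∈ (range (n + 1)).filter (fun p => p ∈ P ∧ p.Prime ∧ m < p), p ^ p <
      (Y + 1) ^ (D * A.card) := by
    have h1 := pineq3_prod ((range (n + 1)).filter (fun p => p ∈ P ∧ p.Prime ∧ m < p)) n S (by
      intro p hp
      obtain ⟨hp0, _, hp2, _⟩ := mem_filter.1 hp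
      exact ⟨hp2, by have := mem_range.1 hp0; omega⟩) (by
      rw [hS]
      refine Finset.sum_le_sum_of_subset_of_nonneg ?_ fun p _ _ => Real.log_natCast_nonneg p
      intro p hp
      obtain ⟨h1, h2, h3, _⟩ := mem_filter.1 hp
      exact mem_filter.2 ⟨h1, h2, h3⟩)
    have h2 : Real.exp (n * S) = (Real.exp (κ * S / A.card)) ^ (D * A.card) := by
      rw [← Real.exp_nat_mul]
      congr 1
      rw [hndef]
      push_cast
      field_simp
    have h3 : (Real.exp (κ * S / A.card)) ^ (D * A.card) < ((Y : ℝ) + 1) ^ (D * A.card) :=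
      pow_lt_pow_left₀ hYlt (Real.exp_pos _).le (Nat.mul_ne_zero (by omega) (by omega))
    have h4 : ((∏ p ∈ (range (n + 1)).filter (fun p => p ∈ P ∧ p.Prime ∧ m < p), p ^ p : ℕ) : ℝ) <
        (((Y + 1) ^ (D * A.card) : ℕ) : ℝ) := by
      push_cast at h1 ⊢
      rw [h2] at h1
      exact lt_of_le_of_lt h1 h3
    exact_mod_cast h4
  have hcore2 := hcore D (by omega) Y hY1
    ((range (n + 1)).filter (fun p => p ∈ P ∧ p.Prime ∧ m < p)) (by
      intro p hp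
      obtain ⟨_, hp1, hp2, hp3⟩ := mem_filter.1 hp
      exact ⟨hp1, hp2, by omega, by omega⟩) hbox
  rw [← hmdef] at hcore2
  -- the sum over the primes up to `n`
  have hsum : δ * X ≤ S := by
    refine hXs.trans (Finset.sum_le_sum_of_subset_of_nonneg ?_ fun p _ _ =>
      Real.log_natCast_nonneg p)
    intro p hp
    obtain ⟨h1, h2⟩ := mem_filter.1 hp
    refine mem_filter.2 ⟨mem_range.2 ?_, h2⟩
    have := mem_range.1 h1
    omega
  have hprodpos : 0 < ∏ p ∈ (range (n + 1)).filter (fun p => p ∈ P ∧ p.Prime ∧ m < p), p := by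
    refine Finset.prod_pos fun p hp => ?_
    exact (mem_filter.1 hp).2.2.1.pos
  have hC'r : (1 : ℝ) ≤ C' := by exact_mod_cast hC'
  have hEr : (1 : ℝ) ≤ (E m : ℝ) := by exact_mod_cast hE m
  have hYr : (1 : ℝ) ≤ Y := by exact_mod_cast hY1
  have hup : Real.log ((∏ p ∈ (range (n + 1)).filter (fun p => p ∈ P ∧ p.Prime ∧ m < p), p : ℕ) :
      ℝ) ≤ Real.log C' + r * (Real.log C' + Real.log D + Real.log Y +
        D * Real.log 4 + Real.log (E m)) := by
    have h1 : Real.log ((∏ p ∈ (range (n + 1)).filter (fun p => p ∈ P ∧ p.Prime ∧ m < p), p :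
        ℕ) : ℝ) ≤ Real.log ((C' * (C' * D * Y * 4 ^ D * E m) ^ r : ℕ) : ℝ) :=
      Real.log_le_log (by exact_mod_cast hprodpos) (by exact_mod_cast hcore2)
    refine h1.trans (le_of_eq ?_)
    push_cast
    rw [Real.log_mul (by positivity) (by positivity), Real.log_pow,
      Real.log_mul (by positivity) (by positivity), Real.log_mul (by positivity) (by positivity),
      Real.log_mul (by positivity) (by positivity), Real.log_mul (by positivity) (by positivity),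
      Real.log_pow]
  have hlogY : Real.log Y ≤ κ * S / A.card :=
    (Real.log_le_iff_le_exp (by linarith)).mpr hYle
  have hlogE : Real.log (E m) ≤ η * m := by
    have h1 := hm0 m (by omega)
    exact (Real.log_le_iff_le_exp (by linarith)).mpr h1
  have hmr : (m : ℝ) ≤ 3 / 2 * D + 1 := by
    have h1 : 2 * m ≤ 3 * D + 2 := by omega
    have h2 : (2 : ℝ) * m ≤ 3 * D + 2 := by exact_mod_cast h1
    linarith
  have hXr : δ * (κ * D - κ) ≤ δ * X := by
    refine mul_le_mul_of_nonneg_left ?_ hδ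
    have h2 : (κ : ℝ) * D ≤ X + κ := by exact_mod_cast hleX
    linarith
  have hlogE2 : Real.log (E m) ≤ η * (3 / 2 * D + 1) :=
    hlogE.trans (mul_le_mul_of_nonneg_left hmr hη0)
  have h4m : Chebyshev.theta m ≤ lam * (3 / 2 * D + 1) :=
    (hm1 m (by omega)).trans (mul_le_mul_of_nonneg_left hmr hlam0)
  have hfin := hD1 D (by omega)
  have h9 : (r : ℝ) * (Real.log C' + Real.log D + Real.log Y +
        D * Real.log 4 + Real.log (E m)) ≤ r * (Real.log C' + Real.log D + κ * S / A.card +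
        D * Real.log 4 + η * (3 / 2 * D + 1)) :=
    mul_le_mul_of_nonneg_left (by linarith) hr
  have h10 : (r : ℝ) * (κ * S / A.card) = S * (1 - ρ) := by
    rw [hρ]
    ring
  have h11 : δ * (κ * D - κ) * ρ ≤ S * ρ :=
    mul_le_mul_of_nonneg_right (hXr.trans hsum) hρ0.le
  have h12 : δ * κ * ρ ≤ δ * κ := by
    calc δ * κ * ρ ≤ δ * κ * 1 := mul_le_mul_of_nonneg_left hρ1 hδκ
      _ = δ * κ := mul_one _
  rw [hgdef] at hfin
  linarith [hlog, hup, h4m, h9, hfin, h10, h11, h12]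

end Pool.MZFin
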