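import Pool.Agent.Lib.MZFin.YMain
import Pool.Agent.Lib.MZFin.PForm
import Pool.Agent.Lib.MZFin.PBq
import Pool.Agent.Lib.MZFin.PPow

/-! MP_c511df_nt, finite multiple zeta values, module `PSpan` (190 lines): by the zero estimate the
unit vector of the empty word lies in the rational span of the forms and the relations.

PROOF. `D0` from `zero_estM A B hA hB h4`. Suppose the claim is false for some `D ≥ D0`, `y ≠ 0`, `b`.
(1) `S` := the submodule on the right. `Submodule.exists_dual_map_eq_bot_of_notMem` (or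
`Submodule.exists_le_ker_of_notMem`) gives a linear functional with value `≠ 0` at the unit vector `e`
and `0` on `S`; divide by the value: `ψ e = 1`. Put
`φ w = if h : w ∈ W then ψ (Pi.single ⟨w, h⟩ 1) else 0`. `φ [] = 1`; `φ [c] = 0` for `c ≥ 1`
(`single_mem_Rel` if `[c] ∈ W`). For every vector `x : W → ℚ`: `ψ x = ∑_l x l * φ l`
(`pi_eq_sum_univ'`-type lemma / `LinearMap.pi_apply_eq_sum_univ`). So `RecM (mom φ)` by `hmom`.
(2) `a u = ∑_(i : Fin D) C (y (i, u)) * bq (i + 1)` (`u : A`), `natDegree (a u) ≤ D` (`bq_natDegree`,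
`natDegree_sum_le_of_forall_le`), `a ≠ 0` (otherwise `bq_lin` for every `u` gives `y = 0`).
`zero_estM`: there are `n ≤ D/2`, `v ∈ B` with `∑_u ∑_(k ≤ D) (a u).coeff k * mom φ u v (k+n) ≠ 0`.
(3) Let `L : ℚ[X] →ₗ ℚ`, `L g = ∑_u Lmom (mom φ u v) (a u * g)` (`∑_u (Lmom ..) ∘ₗ (LinearMap.mulLeft ℚ (a u))`).
`L (X^n)` is the sum in (2): `(a u * X^n).coeff (k + n) = (a u).coeff k`, `Lmom_apply` with
`N = D + n + 1`, coefficients below `n` vanish (`coeff_mul_X_pow'`, `Finset.sum_range_add`-type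
reindexing: `range (n + (D+1))`, `Finset.sum_range_add_..`, `prod_range_add`). By `bq_test`
(`E = D/2`, contraposition with `p = X^n`) there is `j ≤ D/2` with `L (bq j) ≠ 0`.
(4) `L (bq j) = ∑_u ∑_i y (i,u) * Lmom (mom φ u v) (bq (i+1) * bq j)` (linearity, `C c * p = c • p`), and by
`hb ((j, v)) φ`: `e0 * L (bq j) = ∑_l b (j,v) l * φ l = ψ (b (j,v)) = 0` since `b (j,v) ∈ S`. So
`L (bq j) = 0`, contradiction. (`Fin D × A`: `Fintype.sum_prod_type_right`.) -/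

open Finset Polynomial

namespace Pool.MZFin

private lemma ps_coeff (m : ℕ → ℚ) (a : ℚ[X]) (D n : ℕ) (h : a.natDegree ≤ D) :
    Lmom m (a * X ^ n) = ∑ k ∈ Finset.range (D + 1), a.coeff k * m (k + n) := by
  have h1 : (a * X ^ n).natDegree < n + (D + 1) := by
    refine lt_of_le_of_lt natDegree_mul_le ?_
    rw [natDegree_X_pow]
    omega
  rw [Lmom_apply m _ _ h1, Finset.sum_range_add]
  have h2 : ∑ k ∈ Finset.range n, (a * X ^ n).coeff k * m k = 0 := by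
    refine Finset.sum_eq_zero fun k hk => ?_
    have h3 := Finset.mem_range.1 hk
    rw [coeff_mul_X_pow', if_neg (by omega), zero_mul]
  rw [h2, zero_add]
  refine Finset.sum_congr rfl fun k _ => ?_
  rw [Nat.add_comm n k, coeff_mul_X_pow]

private lemma ps_dual {ι : Type*} [Fintype ι] [DecidableEq ι] (S : Submodule ℚ (ι → ℚ)) (e : ι → ℚ)
    (he : e ∉ S) : ∃ ψ : (ι → ℚ) →ₗ[ℚ] ℚ, ψ e = 1 ∧ ∀ x ∈ S, ψ x = 0 := by
  obtain ⟨f, hf, hS⟩ := Submodule.exists_le_ker_of_notMem he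
  refine ⟨(f e)⁻¹ • f, ?_, fun x hx => ?_⟩
  · simp [inv_mul_cancel₀ hf]
  · have h1 : f x = 0 := LinearMap.mem_ker.1 (hS hx)
    simp [h1]

private lemma ps_sum {ι : Type*} [Fintype ι] [DecidableEq ι] (ψ : (ι → ℚ) →ₗ[ℚ] ℚ) (x : ι → ℚ) :
    ψ x = ∑ l, x l * ψ (Pi.single l 1) := by
  rw [LinearMap.pi_apply_eq_sum_univ ψ x]
  refine Finset.sum_congr rfl fun l _ => ?_
  rw [smul_eq_mul]
  congr 2
  funext j
  by_cases h : j = l
  · subst h; simp
  · simp [Pi.single_eq_of_ne h, Ne.symm h]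

theorem span_of_zero (A B : Finset (List ℕ)) (hA : TC1 A) (hB : TC1 B)
    (h4 : 4 * A.card < B.card) : ∃ D0 : ℕ, ∀ D : ℕ, D0 ≤ D →
      ∀ (W : Finset (List ℕ)) (hW : [] ∈ W)
        (mom : (List ℕ → ℚ) → List ℕ → List ℕ → ℕ → ℚ),
        (∀ φ : List ℕ → ℚ, φ [] = 1 → (∀ c, 1 ≤ c → φ [c] = 0) → RecM (mom φ)) →
        ∀ y : Fin D × A → ℤ, y ≠ 0 → ∀ (b : Fin (D / 2 + 1) × B → W → ℤ) (e0 : ℚ), e0 ≠ 0 →
        (∀ (φ : List ℕ → ℚ) (i : Fin (D / 2 + 1) × B), ∑ l : W, (b i l : ℚ) * φ l =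
          e0 * ∑ q : Fin D × A,
            (y q : ℚ) * Lmom (mom φ q.2 i.2) (bq ((q.1 : ℕ) + 1) * bq (i.1 : ℕ))) →
        ∀ P : Set ℕ, (Pi.single (⟨[], hW⟩ : W) 1 : W → ℚ) ∈
          Submodule.span ℚ (Set.range (fun i (l : W) => (b i l : ℚ))) ⊔ Rel P W := by
  classical
  obtain ⟨D0, hD0⟩ := zero_estM A B hA hB h4
  refine ⟨D0, fun D hD W hW mom hmom y hy b e0 he0 hb P => ?_⟩
  by_contra hcon
  obtain ⟨ψ, hψe, hψS⟩ := ps_dual _ _ hcon
  set φ : List ℕ → ℚ := fun w => if h : w ∈ W then ψ (Pi.single (⟨w, h⟩ : W) 1) else 0 with hφ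
  have hφ0 : φ [] = 1 := by
    simp only [hφ, dif_pos hW]
    exact hψe
  have hφ1 : ∀ c, 1 ≤ c → φ [c] = 0 := by
    intro c hc
    simp only [hφ]
    by_cases h : [c] ∈ W
    · rw [dif_pos h]
      exact hψS _ (Submodule.mem_sup_right (single_mem_Rel P W c hc h))
    · rw [dif_neg h]
  have hψφ : ∀ x : W → ℚ, ψ x = ∑ l : W, x l * φ l := by
    intro x
    rw [ps_sum ψ x]
    refine Finset.sum_congr rfl fun l _ => ?_
    simp only [hφ, dif_pos l.2]
  have hR := hmom φ hφ0 hφ1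
  -- the polynomials `a u`
  set a : A → ℚ[X] := fun u => ∑ i : Fin D, C ((y (i, u) : ℤ) : ℚ) * bq ((i : ℕ) + 1) with ha
  have hadeg : ∀ u, (a u).natDegree ≤ D := by
    intro u
    refine natDegree_sum_le_of_forall_le _ _ fun i _ => ?_
    refine (natDegree_C_mul_le _ _).trans ?_
    rw [bq_natDegree]
    exact i.2
  have ha0 : a ≠ 0 := by
    intro h
    apply hy
    funext q
    have h1 : a q.2 = 0 := congrFun h q.2
    have h2 := bq_lin D (fun i => ((y (i, q.2) : ℤ) : ℚ)) h1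
    have h3 := congrFun h2 q.1
    simp only [Pi.zero_apply] at h3
    exact_mod_cast h3
  obtain ⟨n, hn, v, hv, hne⟩ := hD0 D hD (mom φ) hR a ha0 hadeg
  -- the functional `L`
  set L : ℚ[X] →ₗ[ℚ] ℚ := ∑ u : A, (Lmom (mom φ u v)) ∘ₗ (LinearMap.mulLeft ℚ (a u)) with hL
  have hLapp : ∀ g, L g = ∑ u : A, Lmom (mom φ u v) (a u * g) := by
    intro g
    simp [hL, LinearMap.sum_apply]
  have hLX : L (X ^ n) ≠ 0 := by
    rw [hLapp]
    intro h
    apply hne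
    rw [← h]
    exact Finset.sum_congr rfl fun u _ => (ps_coeff _ _ D n (hadeg u)).symm
  have hex : ∃ j, j ≤ D / 2 ∧ L (bq j) ≠ 0 := by
    by_contra hno
    push Not at hno
    apply hLX
    exact bq_test L (D / 2) hno _ (by rw [natDegree_X_pow]; exact hn)
  obtain ⟨j, hj, hLj⟩ := hex
  apply hLj
  have h1 := hb φ (⟨j, by omega⟩, ⟨v, hv⟩)
  have h2 : ∑ l : W, (b (⟨j, by omega⟩, ⟨v, hv⟩) l : ℚ) * φ l = 0 := by
    rw [← hψφ]
    exact hψS _ (Submodule.mem_sup_left (Submodule.subset_span ⟨_, rfl⟩))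
  rw [h2] at h1
  have h3 := (mul_eq_zero.1 h1.symm).resolve_left he0
  rw [hLapp, ← h3, Fintype.sum_prod_type_right]
  refine Finset.sum_congr rfl fun u _ => ?_
  simp only [ha, Finset.sum_mul, map_sum]
  refine Finset.sum_congr rfl fun i _ => ?_
  rw [mul_assoc, ← smul_eq_C_mul, map_smul, smul_eq_mul]

end Pool.MZFin
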