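import Pool.Agent.Lib.PNT.Theta
import Pool.Agent.Lib.MZFin.DVan

/-! MP_c511df_nt: consequences of the prime number theorem, used for the sharp constants and for the
statements with the number of primes. -/

open Finset

namespace Pool.MZFin

theorem lcm_exp1 (ε : ℝ) (hε : 0 < ε) : ∃ m0 : ℕ, ∀ m : ℕ, m0 ≤ m →
    ((Nat.lcmUpto m : ℕ) : ℝ) ≤ Real.exp ((1 + ε) * m) := by
  have h1 := PNT.psi_tendsto.eventually_le_const (show (1 : ℝ) < 1 + ε by linarith)
  have h2 := (tendsto_natCast_atTop_atTop (R := ℝ)).eventually h1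
  obtain ⟨m1, hm1⟩ := Filter.eventually_atTop.1 h2
  refine ⟨max m1 1, fun m hm => ?_⟩
  have h3 := hm1 m ((le_max_left _ _).trans hm)
  have hm2 : (0 : ℝ) < m := by
    have : 1 ≤ m := (le_max_right _ _).trans hm
    exact_mod_cast this
  rw [div_le_iff₀ hm2, Chebyshev.psi_eq_log_lcmUpto] at h3
  have hpos : (0 : ℝ) < ((Nat.lcmUpto m : ℕ) : ℝ) := by
    exact_mod_cast Nat.pos_of_ne_zero (Nat.lcmUpto_ne_zero m)
  rw [← Real.log_le_iff_le_exp hpos]
  exact h3

theorem lsum_univ (X : ℕ) : lsum Set.univ X = Chebyshev.theta (X : ℝ) := by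
  classical
  rw [lsum_eq, Chebyshev.theta_eq_sum_Icc, Nat.floor_natCast]
  refine Finset.sum_congr ?_ fun _ _ => rfl
  ext p
  simp only [mem_filter, mem_Icc, mem_range]
  constructor
  · rintro ⟨h, _, hp⟩
    exact ⟨⟨by omega, by omega⟩, hp⟩
  · rintro ⟨⟨_, h⟩, hp⟩
    exact ⟨by omega, Set.mem_univ _, hp⟩

theorem theta_lower (c : ℝ) (hc : c < 1) : ∃ X0 : ℕ, ∀ X : ℕ, X0 ≤ X →
    c * X ≤ lsum Set.univ X := by
  have h1 := PNT.theta_tendsto.eventually_const_le hc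
  have h2 := (tendsto_natCast_atTop_atTop (R := ℝ)).eventually h1
  obtain ⟨m1, hm1⟩ := Filter.eventually_atTop.1 h2
  refine ⟨max m1 1, fun m hm => ?_⟩
  have h3 := hm1 m ((le_max_left _ _).trans hm)
  have hm2 : (0 : ℝ) < m := by
    have : 1 ≤ m := (le_max_right _ _).trans hm
    exact_mod_cast this
  rw [le_div_iff₀ hm2] at h3
  rw [lsum_univ]
  exact h3

theorem theta_upper (c : ℝ) (hc : 1 < c) : ∃ X0 : ℕ, ∀ X : ℕ, X0 ≤ X →
    lsum Set.univ X ≤ c * X := by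
  have h1 := PNT.theta_tendsto.eventually_le_const hc
  have h2 := (tendsto_natCast_atTop_atTop (R := ℝ)).eventually h1
  obtain ⟨m1, hm1⟩ := Filter.eventually_atTop.1 h2
  refine ⟨max m1 1, fun m hm => ?_⟩
  have h3 := hm1 m ((le_max_left _ _).trans hm)
  have hm2 : (0 : ℝ) < m := by
    have : 1 ≤ m := (le_max_right _ _).trans hm
    exact_mod_cast this
  rw [div_le_iff₀ hm2] at h3
  rw [lsum_univ]
  exact h3

open Classical in
/-- the number of the primes `p ≤ X` of the set `V` -/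
noncomputable def ncount (V : Set ℕ) (X : ℕ) : ℕ :=
  ((range (X + 1)).filter (fun p => p ∈ V ∧ p.Prime)).card

theorem ncount_eq (V : Set ℕ) (X : ℕ) [DecidablePred fun p => p ∈ V ∧ p.Prime] :
    ncount V X = ((range (X + 1)).filter (fun p => p ∈ V ∧ p.Prime)).card := by
  unfold ncount
  congr 1
  ext p
  simp only [mem_filter]

theorem lsum_le_count (V : Set ℕ) (X : ℕ) : lsum V X ≤ ncount V X * Real.log X := by
  classical
  rw [ncount_eq, lsum_eq, ← nsmul_eq_mul, ← Finset.sum_const]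
  refine Finset.sum_le_sum fun p hp => ?_
  obtain ⟨h1, _, h3⟩ := mem_filter.1 hp
  have h4 := mem_range.1 h1
  exact Real.log_le_log (by exact_mod_cast h3.pos) (by exact_mod_cast (by omega : p ≤ X))

/-- a lower bound for the number of the primes `p ≤ X` -/
theorem pi_lower (c : ℝ) (hc : c < 1) : ∃ X0 : ℕ, 2 ≤ X0 ∧ ∀ X : ℕ, X0 ≤ X →
    c * (X / Real.log X) ≤ ncount Set.univ X := by
  obtain ⟨X0, h⟩ := theta_lower c hc
  refine ⟨max X0 2, le_max_right _ _, fun X hX => ?_⟩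
  have h1 := h X ((le_max_left _ _).trans hX)
  have h2 : (2 : ℝ) ≤ X := by exact_mod_cast (le_max_right _ _).trans hX
  have h3 : 0 < Real.log X := Real.log_pos (by linarith)
  rw [← mul_div_assoc, div_le_iff₀ h3]
  exact h1.trans (lsum_le_count _ _)

/-- the number of the primes of a set, from the sum of their logarithms -/
theorem count_le_aux (V : Set ℕ) (X : ℕ) (hX : 2 ≤ X) (ε : ℝ) (hε0 : 0 < ε) (hε1 : ε < 1) :
    (ncount V X : ℝ) ≤ (X : ℝ) ^ (1 - ε) + lsum V X / ((1 - ε) * Real.log X) := by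
  classical
  have hX2 : (2 : ℝ) ≤ X := by exact_mod_cast hX
  have hX0 : (0 : ℝ) < X := by linarith
  have hlog : 0 < Real.log X := Real.log_pos (by linarith)
  have hεX : 0 < (1 - ε) * Real.log X := mul_pos (by linarith) hlog
  set Y : ℝ := (X : ℝ) ^ (1 - ε) with hY
  have hY0 : 0 < Y := by positivity
  have hYlog : Real.log Y = (1 - ε) * Real.log X := by
    rw [hY, Real.log_rpow hX0]
  have h1 : ncount V X ≤ ((range (X + 1)).filter (fun p => (p ∈ V ∧ p.Prime) ∧ (p : ℝ) ≤ Y)).card +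
      ((range (X + 1)).filter (fun p => (p ∈ V ∧ p.Prime) ∧ ¬ (p : ℝ) ≤ Y)).card := by
    rw [ncount_eq]
    refine (Finset.card_le_card ?_).trans (Finset.card_union_le _ _)
    intro p hp
    rw [mem_filter] at hp
    rw [mem_union, mem_filter, mem_filter]
    by_cases h : (p : ℝ) ≤ Y
    · exact Or.inl ⟨hp.1, hp.2, h⟩
    · exact Or.inr ⟨hp.1, hp.2, h⟩
  have h2 : (((range (X + 1)).filter (fun p => (p ∈ V ∧ p.Prime) ∧ (p : ℝ) ≤ Y)).card : ℝ) ≤ Y := by
    have h3 : (range (X + 1)).filter (fun p => (p ∈ V ∧ p.Prime) ∧ (p : ℝ) ≤ Y) ⊆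
        Finset.Icc 1 ⌊Y⌋₊ := by
      intro p hp
      obtain ⟨_, ⟨_, h4⟩, h5⟩ := mem_filter.1 hp
      exact mem_Icc.2 ⟨h4.one_lt.le, Nat.le_floor h5⟩
    have h4 := Finset.card_le_card h3
    rw [Nat.card_Icc, Nat.add_sub_cancel] at h4
    calc (((range (X + 1)).filter (fun p => (p ∈ V ∧ p.Prime) ∧ (p : ℝ) ≤ Y)).card : ℝ) ≤
        (⌊Y⌋₊ : ℝ) := by exact_mod_cast h4
      _ ≤ Y := Nat.floor_le hY0.le
  have h3 : (((range (X + 1)).filter (fun p => (p ∈ V ∧ p.Prime) ∧ ¬ (p : ℝ) ≤ Y)).card : ℝ) *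
      ((1 - ε) * Real.log X) ≤ lsum V X := by
    rw [← nsmul_eq_mul, ← Finset.sum_const, lsum_eq]
    calc ∑ _p ∈ (range (X + 1)).filter (fun p => (p ∈ V ∧ p.Prime) ∧ ¬ (p : ℝ) ≤ Y),
          (1 - ε) * Real.log X
        ≤ ∑ p ∈ (range (X + 1)).filter (fun p => (p ∈ V ∧ p.Prime) ∧ ¬ (p : ℝ) ≤ Y),
          Real.log p := by
          refine Finset.sum_le_sum fun p hp => ?_
          obtain ⟨_, _, h5⟩ := mem_filter.1 hp
          rw [← hYlog]
          exact Real.log_le_log hY0 (not_le.1 h5).le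
      _ ≤ _ := by
          refine Finset.sum_le_sum_of_subset_of_nonneg ?_ fun p _ _ => Real.log_natCast_nonneg p
          intro p hp
          rw [mem_filter] at hp ⊢
          exact ⟨hp.1, hp.2.1⟩
  have h4 : (((range (X + 1)).filter (fun p => (p ∈ V ∧ p.Prime) ∧ ¬ (p : ℝ) ≤ Y)).card : ℝ) ≤
      lsum V X / ((1 - ε) * Real.log X) := by
    rw [le_div_iff₀ hεX]
    exact h3
  have h5 : (ncount V X : ℝ) ≤
      (((range (X + 1)).filter (fun p => (p ∈ V ∧ p.Prime) ∧ (p : ℝ) ≤ Y)).card : ℝ) +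
      (((range (X + 1)).filter (fun p => (p ∈ V ∧ p.Prime) ∧ ¬ (p : ℝ) ≤ Y)).card : ℝ) := by
    exact_mod_cast h1
  linarith

/-- a set of primes with small upper density in the sense of sums of logarithms has small relative
upper density -/
theorem count_le {V : Set ℕ} {δ δ' : ℝ} (hδ0 : 0 ≤ δ) (hδ : δ < δ') (h : ¬ Freq V δ) :
    ∃ X0 : ℕ, ∀ X : ℕ, X0 ≤ X → (ncount V X : ℝ) ≤ δ' * ncount Set.univ X := by
  have hδ' : 0 < δ' := by linarith
  set ε : ℝ := (δ' - δ) / (1 + 2 * δ') with hε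
  have hε0 : 0 < ε := div_pos (by linarith) (by linarith)
  have hε2 : ε * (1 + 2 * δ') = δ' - δ := by
    rw [hε]
    field_simp
  have hε1 : ε < 1 / 2 := by
    by_contra hcon
    push Not at hcon
    nlinarith
  have hδε : 0 ≤ δ' - ε := by
    have h1 : ε ≤ ε * (1 + 2 * δ') := le_mul_of_one_le_right hε0.le (by linarith)
    linarith
  have hkey : δ ≤ (1 - ε) * ((1 - ε) * (δ' - ε)) := by
    have h1 : 0 ≤ ε ^ 2 * (δ' - ε) := mul_nonneg (sq_nonneg _) hδε
    have h2 : (1 - ε) * ((1 - ε) * (δ' - ε)) =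
        δ' - ε * (1 + 2 * δ') + 2 * ε ^ 2 + ε ^ 2 * (δ' - ε) := by ring
    rw [h2, hε2]
    have h3 : 0 ≤ ε ^ 2 := sq_nonneg _
    linarith
  obtain ⟨X1, h1⟩ := not_freq h
  obtain ⟨X2, hX2, h2⟩ := pi_lower (1 - ε) (by linarith)
  have h3 : ∀ᶠ x : ℝ in Filter.atTop, ‖Real.log x‖ ≤ ε / 2 * ‖x ^ ε‖ :=
    (isLittleO_log_rpow_atTop hε0).def (by positivity)
  obtain ⟨X3, h4⟩ := Filter.eventually_atTop.1 ((tendsto_natCast_atTop_atTop (R := ℝ)).eventually h3)
  refine ⟨max X1 (max X2 X3), fun X hX => ?_⟩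
  have hXX1 : X1 ≤ X := (le_max_left _ _).trans hX
  have hXX2 : X2 ≤ X := (le_max_left _ _).trans ((le_max_right _ _).trans hX)
  have hXX3 : X3 ≤ X := (le_max_right _ _).trans ((le_max_right _ _).trans hX)
  have hXn : 2 ≤ X := hX2.trans hXX2
  have hXr : (2 : ℝ) ≤ X := by exact_mod_cast hXn
  have hX0 : (0 : ℝ) < X := by linarith
  have hlog : 0 < Real.log X := Real.log_pos (by linarith)
  have e1 := h1 X hXX1
  have e2 := h2 X hXX2
  have e3 := h4 X hXX3
  have hp : 0 < (X : ℝ) ^ ε := Real.rpow_pos_of_pos hX0 _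
  rw [Real.norm_eq_abs, Real.norm_eq_abs, abs_of_pos hlog, abs_of_pos hp] at e3
  have e4 := count_le_aux V X hXn ε hε0 (by linarith)
  have hpow : (X : ℝ) ^ (1 - ε) * (X : ℝ) ^ ε = X := by
    rw [← Real.rpow_add hX0, sub_add_cancel, Real.rpow_one]
  have e5 : (X : ℝ) ^ (1 - ε) ≤ ε * ((1 - ε) * (X / Real.log X)) := by
    have h5 : (X : ℝ) ^ (1 - ε) * Real.log X ≤ ε / 2 * X := by
      calc (X : ℝ) ^ (1 - ε) * Real.log X ≤ (X : ℝ) ^ (1 - ε) * (ε / 2 * (X : ℝ) ^ ε) :=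
            mul_le_mul_of_nonneg_left e3 (by positivity)
        _ = ε / 2 * ((X : ℝ) ^ (1 - ε) * (X : ℝ) ^ ε) := by ring
        _ = ε / 2 * X := by rw [hpow]
    have h6 : ε * ((1 - ε) * (X / Real.log X)) = (ε * (1 - ε) * X) / Real.log X := by ring
    rw [h6, le_div_iff₀ hlog]
    refine h5.trans ?_
    have h7 : (0 : ℝ) ≤ ε * X := by positivity
    nlinarith
  have e6 : lsum V X / ((1 - ε) * Real.log X) ≤ (δ' - ε) * ((1 - ε) * (X / Real.log X)) := by
    have h5 : 0 < (1 - ε) * Real.log X := mul_pos (by linarith) hlog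
    rw [div_le_iff₀ h5]
    have h6 : (δ' - ε) * ((1 - ε) * (X / Real.log X)) * ((1 - ε) * Real.log X) =
        (1 - ε) * ((1 - ε) * (δ' - ε)) * X := by
      field_simp
    rw [h6]
    refine e1.le.trans ?_
    exact mul_le_mul_of_nonneg_right hkey hX0.le
  have e7 : (δ' - ε) * ((1 - ε) * (X / Real.log X)) ≤ (δ' - ε) * ncount Set.univ X :=
    mul_le_mul_of_nonneg_left e2 hδε
  have e8 : ε * ((1 - ε) * (X / Real.log X)) ≤ ε * ncount Set.univ X :=
    mul_le_mul_of_nonneg_left e2 hε0.le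
  linarith

/-- the complementary statement -/
theorem count_ge {V : Set ℕ} {δ c : ℝ} (hδ0 : 0 ≤ δ) (hc : c < 1 - δ) (h : ¬ Freq V δ) :
    ∃ X0 : ℕ, ∀ X : ℕ, X0 ≤ X → c * ncount Set.univ X ≤ (ncount Vᶜ X : ℝ) := by
  classical
  obtain ⟨X0, h1⟩ := count_le hδ0 (show δ < 1 - c by linarith) h
  refine ⟨X0, fun X hX => ?_⟩
  have h2 := h1 X hX
  have h3 : ncount Set.univ X = ncount V X + ncount Vᶜ X := by
    rw [ncount_eq, ncount_eq, ncount_eq, ← Finset.card_union_of_disjoint]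
    · congr 1
      ext p
      simp only [mem_union, mem_filter, Set.mem_univ, true_and, Set.mem_compl_iff]
      tauto
    · rw [Finset.disjoint_filter]
      intro p _ h4 h5
      exact h5.1 h4.1
  have h4 : (ncount Set.univ X : ℝ) = ncount V X + ncount Vᶜ X := by exact_mod_cast h3
  linarith

end Pool.MZFin
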