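import Pool.Agent.Lib.MZFin.PExp3
import Pool.Agent.Lib.MZFin.QPnt

/-! MP_c511df_nt: the primes at which all values of the weights `1, .., K` vanish (constants of `PExp3`),
and a value which does not vanish at a set of primes of positive upper density. -/

open Finset

namespace Pool.MZFin

theorem ncount_cnt (V : Set ℕ) (X : ℕ) : ncount V X = cnt V X := by
  classical
  rw [ncount_eq]
  unfold cnt
  congr

theorem ncount_pi (X : ℕ) : ncount Set.univ X = Nat.primeCounting X := by
  classical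
  have h1 : Nat.primeCounting X = ((range (X + 1)).filter (fun p => p.Prime)).card := by
    rw [Nat.primeCounting, Nat.primeCounting', Nat.count_eq_card_filter_range]
  rw [h1, ncount_eq]
  congr 1
  ext p
  simp only [mem_filter, Set.mem_univ, true_and]

theorem not_freq_van16 : ¬ Freq (Van 16) (8469 / 10000) := by
  intro hF
  have hl2' : Real.log 2 < 0.6931471808 := Real.log_two_lt_d9
  have hl4 : Real.log 4 = 2 * Real.log 2 := by
    rw [show (4 : ℝ) = 2 ^ 2 by norm_num, Real.log_pow]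
    norm_num
  have h1 := freq_van_even 7 (by norm_num) (by norm_num) hF
  rw [hl4] at h1
  norm_num at h1
  linarith

theorem nonvan_24 : ∃ X0 : ℕ, ∀ X : ℕ, X0 ≤ X → 92 / 100 * (X : ℝ) ≤ lsum (Van 24)ᶜ X := by
  have hl2' : Real.log 2 < 0.6931471808 := Real.log_two_lt_d9
  have hl4 : Real.log 4 = 2 * Real.log 2 := by
    rw [show (4 : ℝ) = 2 ^ 2 by norm_num, Real.log_pow]
    norm_num
  refine nonvan_pnt (δ := 761 / 10000) ?_ (by norm_num)
  intro hF
  have h1 := freq_van_even 11 (by norm_num) (by norm_num) hF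
  rw [hl4] at h1
  norm_num at h1
  linarith

theorem nonvan_count24 : ∃ X0 : ℕ, ∀ X : ℕ, X0 ≤ X →
    9 / 10 * (Nat.primeCounting X : ℝ) ≤ (cnt (Van 24)ᶜ X : ℝ) :=
  cnt_lower (by norm_num) (by norm_num) nonvan_24

/-- one value which does not vanish at a set of primes of positive upper density -/
theorem exists_word_of_not_freq1 (K : ℕ) (δ : ℝ) (hδ : δ < 1) (h : ¬ Freq (Van K) δ) :
    ∃ w ∈ Wd K, w ≠ [] ∧ ∃ ε : ℝ, 0 < ε ∧ Freq {p | fz p w ≠ 0} ε := by
  classical
  set δ2 : ℝ := (δ + 1) / 2 with hδ2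
  set ε : ℝ := (δ2 - δ) / 2 ^ K with hε
  have hε0 : 0 < ε := by
    rw [hε]
    apply div_pos _ (by positivity)
    rw [hδ2]
    linarith
  by_contra hcon
  push Not at hcon
  have hnf : ∀ l : List ℕ, l ∈ Wd K → l ≠ [] → ∃ X0 : ℕ, ∀ X : ℕ, X0 ≤ X →
      lsum {p | fz p l ≠ 0} X < ε * X := fun l hl hne => not_freq (hcon l hl hne ε hε0)
  choose! Xf hXf using hnf
  obtain ⟨n0, hn0⟩ := theta_lower δ2 (by rw [hδ2]; linarith)
  obtain ⟨X1, hX1⟩ := not_freq h
  set X : ℕ := n0 + X1 + ∑ l ∈ Wd K, Xf l with hX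
  have h1 : δ2 * X ≤ lsum Set.univ X := hn0 X (by omega)
  have h2 := hX1 X (by omega)
  have h3 : ∀ l ∈ (Wd K).erase [], lsum {p | fz p l ≠ 0} X ≤ ε * X := by
    intro l hl
    rw [mem_erase] at hl
    refine (hXf l hl.2 hl.1 X ?_).le
    have := single_le_sum (f := Xf) (fun _ _ => Nat.zero_le _) hl.2
    omega
  have h4 : lsum Set.univ X ≤ lsum (Van K) X +
      ∑ l ∈ (Wd K).erase [], lsum {p | fz p l ≠ 0} X := by
    simp only [lsum_lterm]
    rw [Finset.sum_comm, ← Finset.sum_add_distrib]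
    refine Finset.sum_le_sum fun p _ => ?_
    have hnn : ∀ l ∈ (Wd K).erase [], (0 : ℝ) ≤ lterm {p | fz p l ≠ 0} p :=
      fun l _ => lterm_nonneg _ _
    by_cases hp : p.Prime
    · rw [lterm_pos (Set.mem_univ _) hp]
      by_cases hv : p ∈ Van K
      · rw [lterm_pos hv hp]
        exact le_add_of_nonneg_right (Finset.sum_nonneg hnn)
      · rw [lterm_neg fun h => hv h.1, zero_add]
        have hv2 : ∃ l ∈ Wd K, l ≠ [] ∧ fz p l ≠ 0 := by
          by_contra hc
          push Not at hc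
          exact hv hc
        obtain ⟨l, hl, hne, hf⟩ := hv2
        have h5 := Finset.single_le_sum hnn (mem_erase.2 ⟨hne, hl⟩)
        rwa [lterm_pos (show p ∈ {p | fz p l ≠ 0} from hf) hp] at h5
    · rw [lterm_neg fun h => hp h.2, lterm_neg fun h => hp h.2, zero_add]
      exact Finset.sum_nonneg hnn
  have h5 := Finset.sum_le_sum h3
  rw [Finset.sum_const, nsmul_eq_mul] at h5
  have h6 : (((Wd K).erase []).card : ℝ) ≤ 2 ^ K := by
    have h7 : ((Wd K).erase []).card ≤ 2 ^ K := by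
      rw [← Wd_card K]
      exact Finset.card_le_card (Finset.erase_subset _ _)
    exact_mod_cast h7
  have h7 : (((Wd K).erase []).card : ℝ) * (ε * X) ≤ (δ2 - δ) * X := by
    have h8 : (2 : ℝ) ^ K * (ε * X) = (δ2 - δ) * X := by
      rw [hε]
      field_simp
    rw [← h8]
    exact mul_le_mul_of_nonneg_right h6 (by positivity)
  linarith

end Pool.MZFin
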