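import Pool.Agent.Lib.MZFin.FExp
import Pool.Agent.Lib.MZFin.QSp
import Pool.Agent.Lib.MZFin.DFin

/-! MP_c511df_nt: the exponent `1/3`, with the constants of the prime number theorem, and the final
statements. -/

open Finset

namespace Pool.MZFin

theorem fin_ineq1 (w w' : ℕ) {P : Set ℕ} {δ : ℝ} (hδ : 0 < δ) (hP : Freq P δ)
    (hcard : 2 * (dimF P (Wd (w + w')) * 2 ^ w' + 1) < 2 ^ w) (κ : ℕ) :
    δ * κ * (1 - 2 * (κ : ℝ) / 2 ^ (w' - 1)) - 3 / 2 * Real.log 4 ≤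
      (dimF P (Wd (w + w')) : ℝ) * (3 * Real.log 2 + 3 / 2 * (w + w')) := by
  classical
  have hred : HRed (Wd w') (Wd w) (Wd (w + w')) mom (fun m => Nat.lcmUpto m ^ (w + w'))
      (6 ^ (w + w')) := by
    refine hred_of (Wd w') (Wd w) (Wd (w + w')) (w + w') (fun u hu => (mem_Wd.1 hu).1)
      (fun v hv => (mem_Wd.1 hv).1) (fun u hu v hv => ?_) (fun x h1 h2 => mem_Wd.2 ⟨h1, h2⟩)
    have h1 := (mem_Wd.1 hu).2
    have h2 := (mem_Wd.1 hv).2
    omega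
  have hE : ∀ m, 1 ≤ Nat.lcmUpto m ^ (w + w') := fun m =>
    Nat.one_le_pow _ _ (Nat.lcmUpto_pos m)
  have hcardT : ((Ws w').card : ℝ) = 2 ^ (w' - 1) := by
    rw [Ws_card]
    push_cast
    rfl
  have hTn : (Ws w').Nonempty := by
    rw [← Finset.card_pos, Ws_card]
    positivity
  have key : ∀ ε : ℝ, 0 < ε → δ * κ * (1 - 2 * (κ : ℝ) / 2 ^ (w' - 1)) - 3 / 2 * Real.log 4 ≤
      (dimF P (Wd (w + w')) : ℝ) *
        (3 * Real.log 2 + 3 / 2 * ((1 + ε) * (w + w'))) := by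
    intro ε hε
    obtain ⟨m0, hm0⟩ := lcm_exp1 ε hε
    rw [← hcardT]
    refine main_ineqF (Wd w') (Wd w) (Wd (w + w')) (tc1_Wd _) (tc1_Wd _) (Ws w') (isTop_Ws w')
      hTn (tc1_Wd _).1 mom (fun φ h0 => mom_recE φ h0) _ hE _ hred _ ⟨m0, fun m hm => ?_⟩ P
      (fun n => hP.exists_prime hδ n) (by rw [Wd_card, Wd_card]; exact hcard) δ hδ.le
      (fun X0 => ?_) κ
    · have h1 := hm0 m hm
      have h2 : (0 : ℝ) ≤ ((Nat.lcmUpto m : ℕ) : ℝ) := Nat.cast_nonneg _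
      calc (((Nat.lcmUpto m) ^ (w + w') : ℕ) : ℝ) = ((Nat.lcmUpto m : ℕ) : ℝ) ^ (w + w') := by
            push_cast
            rfl
        _ ≤ (Real.exp ((1 + ε) * m)) ^ (w + w') := pow_le_pow_left₀ h2 h1 _
        _ = Real.exp ((1 + ε) * (w + w') * m) := by
            rw [← Real.exp_nat_mul]
            congr 1
            push_cast
            ring
    · obtain ⟨X, h1, h2⟩ := hP X0
      refine ⟨X, h1, ?_⟩
      rw [lsum_eq] at h2
      exact h2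
  by_contra hcon
  push Not at hcon
  set r : ℝ := (dimF P (Wd (w + w')) : ℝ) with hr
  have hr0 : 0 ≤ r := Nat.cast_nonneg _
  set L : ℝ := δ * κ * (1 - 2 * (κ : ℝ) / 2 ^ (w' - 1)) - 3 / 2 * Real.log 4 with hL
  set g : ℝ := L - r * (3 * Real.log 2 + 3 / 2 * (w + w')) with hg
  have hg0 : 0 < g := by
    rw [hg]
    linarith
  set s : ℝ := r * (3 / 2 * (w + w')) + 1 with hs
  have hs0 : 0 < s := by positivity
  have h1 := key (g / (2 * s)) (by positivity)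
  have h2 : r * (3 * Real.log 2 + 3 / 2 * ((1 + g / (2 * s)) * (w + w'))) =
      r * (3 * Real.log 2 + 3 / 2 * (w + w')) + (s - 1) * (g / (2 * s)) := by
    rw [hs]
    ring
  rw [h2] at h1
  have h3 : (s - 1) * (g / (2 * s)) < g := by
    have h4 : s * (g / (2 * s)) = g / 2 := by
      field_simp
    have h5 : 0 < g / (2 * s) := by positivity
    nlinarith
  rw [hg] at h3
  linarith

/-- the upper density of a set of primes is at most `1` -/
theorem Freq.le_one {P : Set ℕ} {δ : ℝ} (h : Freq P δ) : δ ≤ 1 := by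
  by_contra hcon
  push Not at hcon
  obtain ⟨X0, h0⟩ := theta_upper ((1 + δ) / 2) (by linarith)
  obtain ⟨X, h1, h2⟩ := h (max X0 1)
  have h3 := h0 X ((le_max_left _ _).trans h1)
  have h4 : (1 : ℝ) ≤ X := by exact_mod_cast (le_max_right _ _).trans h1
  have h5 := lsum_mono (Set.subset_univ P) X
  nlinarith

/-- the general bound, exponent `1/3`: for a set `P` of primes of upper density at least `δ` -/
theorem fin_growth1 {P : Set ℕ} {δ : ℝ} (hδ : 0 < δ) (hP : Freq P δ) (K : ℕ) :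
    δ ^ 2 * 2 ^ K ≤ 4640 * (K + 3) ^ 2 * (dimF P (Wd K) : ℝ) ^ 3 := by
  have hl2 : 0 < Real.log 2 := Real.log_pos (by norm_num)
  have hl2' : Real.log 2 < 0.6931471808 := Real.log_two_lt_d9
  have hl4 : Real.log 4 = 2 * Real.log 2 := by
    rw [show (4 : ℝ) = 2 ^ 2 by norm_num, Real.log_pow]
    norm_num
  have hδ1 : δ ≤ 1 := hP.le_one
  have hr1 : 1 ≤ dimF P (Wd K) := dimF_pos P (fun n => hP.exists_prime hδ n) (tc1_Wd K).1
  have hr1' : (1 : ℝ) ≤ (dimF P (Wd K) : ℝ) := by exact_mod_cast hr1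
  obtain ⟨r, hr⟩ : ∃ r, r = dimF P (Wd K) := ⟨_, rfl⟩
  rw [← hr] at hr1 hr1' ⊢
  have hK0 : (0 : ℝ) ≤ K := Nat.cast_nonneg _
  set a : ℝ := 24 * (K + 3) / δ with ha
  have ha1 : 72 ≤ a := by
    rw [ha, le_div_iff₀ hδ]
    nlinarith
  have har : 0 < a * r := by positivity
  have hex : ∃ n : ℕ, a * r < 2 ^ n := pow_unbounded_of_one_lt _ (by norm_num)
  classical
  obtain ⟨w', hw'⟩ : ∃ w', w' = Nat.find hex := ⟨_, rfl⟩
  have h1 : a * r < 2 ^ w' := by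
    rw [hw']
    exact Nat.find_spec hex
  have har72 : 72 ≤ a * r := by nlinarith
  have hw3 : 5 ≤ w' := by
    by_contra hlt
    have h2 : (2 : ℝ) ^ w' ≤ 2 ^ 5 := pow_le_pow_right₀ (by norm_num) (by omega)
    norm_num at h2
    linarith
  have h2 : (2 : ℝ) ^ w' ≤ 2 * (a * r) := by
    have h3 := Nat.find_min hex (m := w' - 1) (by omega)
    push Not at h3
    have h4 : (2 : ℝ) ^ w' = 2 * 2 ^ (w' - 1) := by
      rw [← pow_succ', Nat.sub_add_cancel (by omega)]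
    rw [h4]
    linarith
  have har3 : 72 * (a * r) ≤ a ^ 2 * (r : ℝ) ^ 3 := by
    have h3 : 72 * (a * r) ≤ (a * r) * (a * r) := mul_le_mul_of_nonneg_right har72 har.le
    have h4 : (r : ℝ) ^ 2 ≤ (r : ℝ) ^ 3 := pow_le_pow_right₀ hr1' (by norm_num)
    calc 72 * (a * r) ≤ (a * r) * (a * r) := h3
      _ = a ^ 2 * (r : ℝ) ^ 2 := by ring
      _ ≤ _ := mul_le_mul_of_nonneg_left h4 (by positivity)
  have hfin : (2 : ℝ) ^ K ≤ 145 / 18 * (a ^ 2 * (r : ℝ) ^ 3) := by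
    rcases Nat.lt_or_ge K w' with hlt | hge
    · have h3 : (2 : ℝ) ^ K ≤ 2 ^ w' := pow_le_pow_right₀ (by norm_num) hlt.le
      have h6 : 0 ≤ a ^ 2 * (r : ℝ) ^ 3 := by positivity
      linarith
    · obtain ⟨w, rfl⟩ : ∃ w, K = w + w' := ⟨K - w', by omega⟩
      have hnot : ¬ 2 * (r * 2 ^ w' + 1) < 2 ^ w := by
        intro hcard
        rw [hr] at hcard
        have h3 := fin_ineq1 w w' hδ hP hcard (2 ^ (w' - 3))
        rw [← hr] at h3
        have h4 : 2 * (((2 ^ (w' - 3) : ℕ)) : ℝ) / 2 ^ (w' - 1) = 1 / 2 := by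
          have h5 : (2 : ℝ) ^ (w' - 1) = 4 * 2 ^ (w' - 3) := by
            rw [show w' - 1 = (w' - 3) + 2 by omega, pow_add]
            ring
          rw [h5]
          push_cast
          field_simp
          norm_num
        rw [h4] at h3
        have h5 : (2 : ℝ) ^ w' = 8 * 2 ^ (w' - 3) := by
          rw [show w' = (w' - 3) + 3 by omega, pow_add, Nat.add_sub_cancel]
          ring
        push_cast at h3 h1 ha hK0
        have h6 : δ * 2 ^ w' ≤ 16 * (r * (3 * Real.log 2 + 3 / 2 * ((w : ℝ) + w')) +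
            3 * Real.log 2) := by
          rw [h5]
          rw [hl4] at h3
          linarith
        have h7 : δ * (a * r) < δ * 2 ^ w' := mul_lt_mul_of_pos_left h1 hδ
        have h8 : δ * (a * r) = 24 * ((w : ℝ) + w' + 3) * r := by
          rw [ha]
          field_simp
        rw [h8] at h7
        nlinarith
      have h3 : 2 ^ w ≤ 2 * (r * 2 ^ w' + 1) := not_lt.1 hnot
      have h4 : (2 : ℝ) ^ w ≤ 2 * (r * 2 ^ w' + 1) := by exact_mod_cast h3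
      have h6 : (0 : ℝ) < 2 ^ w' := by positivity
      have h7 : (2 : ℝ) ^ w' * 2 ^ w' ≤ (2 * (a * r)) * (2 * (a * r)) :=
        mul_le_mul h2 h2 h6.le (by positivity)
      have h8 : (r : ℝ) * (2 ^ w' * 2 ^ w') ≤ r * ((2 * (a * r)) * (2 * (a * r))) :=
        mul_le_mul_of_nonneg_left h7 (by positivity)
      calc (2 : ℝ) ^ (w + w') = 2 ^ w * 2 ^ w' := pow_add _ _ _
        _ ≤ (2 * (r * 2 ^ w' + 1)) * 2 ^ w' := mul_le_mul_of_nonneg_right h4 h6.le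
        _ = 2 * (r * (2 ^ w' * 2 ^ w')) + 2 * 2 ^ w' := by ring
        _ ≤ 2 * (r * ((2 * (a * r)) * (2 * (a * r)))) + 2 * (2 * (a * r)) := by linarith
        _ = 8 * (a ^ 2 * (r : ℝ) ^ 3) + 4 * (a * r) := by ring
        _ ≤ 8 * (a ^ 2 * (r : ℝ) ^ 3) + 4 / 72 * (a ^ 2 * (r : ℝ) ^ 3) := by linarith
        _ = 145 / 18 * (a ^ 2 * (r : ℝ) ^ 3) := by ring
  have h3 : δ ^ 2 * 2 ^ K ≤ δ ^ 2 * (145 / 18 * (a ^ 2 * (r : ℝ) ^ 3)) :=
    mul_le_mul_of_nonneg_left hfin (by positivity)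
  have h4 : δ ^ 2 * (145 / 18 * (a ^ 2 * (r : ℝ) ^ 3)) = 4640 * (K + 3) ^ 2 * (r : ℝ) ^ 3 := by
    rw [ha]
    field_simp
    norm_num
  exact h3.trans_eq h4

theorem freq_univ {δ : ℝ} (hδ : δ < 1) : Freq Set.univ δ := by
  obtain ⟨X1, h⟩ := theta_lower δ hδ
  exact fun X0 => ⟨max X0 X1, le_max_left _ _, h _ (le_max_right _ _)⟩

/-- all primes -/
theorem fin_growth_univ (K : ℕ) :
    (2 : ℝ) ^ K ≤ 4640 * (K + 3) ^ 2 * (dimF Set.univ (Wd K) : ℝ) ^ 3 := by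
  refine le_of_forall_pos_lt_add fun ε hε => ?_
  have h2 : (0 : ℝ) < 2 ^ K := by positivity
  set η : ℝ := min (1 / 2) (ε / (4 * 2 ^ K)) with hη
  have hη0 : 0 < η := lt_min (by norm_num) (by positivity)
  have hη1 : η ≤ 1 / 2 := min_le_left _ _
  have hη2 : η * (4 * 2 ^ K) ≤ ε := by
    have h3 : η ≤ ε / (4 * 2 ^ K) := min_le_right _ _
    rwa [le_div_iff₀ (by positivity)] at h3
  have h1 := fin_growth1 (show 0 < 1 - η by linarith) (freq_univ (show 1 - η < 1 by linarith)) K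
  nlinarith

/-- exponential growth of the dimensions in every window of at most `16` consecutive weights -/
theorem dims_window1 :
    ∃ c : ℝ, 0 < c ∧ ∃ g : ℕ, 1 ≤ g ∧ g ≤ 16 ∧
    ∀ n : ℕ, 1 ≤ n → ∃ k, n ≤ k ∧ k < n + g ∧
      ∀ d, IsDim k d → c * (2 : ℝ) ^ n ≤ (n : ℝ) ^ 5 * (d : ℝ) ^ 3 := by
  obtain ⟨w0, hw0, hne, ε, hε, hF⟩ :=
    exists_word_of_not_freq1 16 (8469 / 10000) (by norm_num) not_freq_van16
  obtain ⟨hw1, hw2⟩ := mem_Wd.1 hw0
  have hw3 : 1 ≤ w0.sum := by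
    cases w0 with
    | nil => exact absurd rfl hne
    | cons a l =>
      rw [List.sum_cons]
      have := hw1 a List.mem_cons_self
      omega
  refine ⟨ε ^ 2 / 593920, by positivity, w0.sum, hw3, hw2, fun n hn => ?_⟩
  obtain ⟨T, hT, hi, hTc⟩ := exists_indep_dimF {p | fz p w0 ≠ 0} (Wd n)
  obtain ⟨k, hk, T', hT', hi', hc'⟩ := exists_weight hi n hT
  obtain ⟨k', hk1, hk2, T'', hT'', hi'', hc''⟩ :=
    exists_indep_window hi' hT' w0 hw1 hw3 (fun p hp _ => hp) n hk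
  refine ⟨k', hk1, hk2, fun d hd => ?_⟩
  have h1 : (T''.card : ℝ) ≤ d := by exact_mod_cast isDim_ge hi'' hT'' hd
  have h2 : (T'.card : ℝ) ≤ T''.card := by exact_mod_cast hc''
  have h3 := fin_growth1 hε hF n
  rw [hTc] at hc'
  have hn1 : (1 : ℝ) ≤ n := by exact_mod_cast hn
  set r : ℝ := (dimF {p | fz p w0 ≠ 0} (Wd n) : ℝ) with hr
  have hr0 : 0 ≤ r := Nat.cast_nonneg _
  have h4 : r ≤ 2 * n * d := by
    rw [div_le_iff₀ (by positivity)] at hc'
    have h5 : (T'.card : ℝ) * (n + 1) ≤ d * (2 * n) :=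
      mul_le_mul (h2.trans h1) (by linarith) (by positivity) (Nat.cast_nonneg _)
    linarith
  have h5 : r ^ 3 ≤ (2 * n * d) ^ 3 := pow_le_pow_left₀ hr0 h4 3
  have h6 : ((n : ℝ) + 3) ^ 2 ≤ 16 * n ^ 2 := by nlinarith
  have h7 : ε ^ 2 * 2 ^ n ≤ 593920 * ((n : ℝ) ^ 5 * (d : ℝ) ^ 3) := by
    calc ε ^ 2 * 2 ^ n ≤ 4640 * (n + 3) ^ 2 * r ^ 3 := h3
      _ ≤ 4640 * (16 * n ^ 2) * (2 * n * d) ^ 3 :=
          mul_le_mul (mul_le_mul_of_nonneg_left h6 (by norm_num)) h5 (by positivity) (by positivity)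
      _ = _ := by ring
  calc ε ^ 2 / 593920 * (2 : ℝ) ^ n = (ε ^ 2 * 2 ^ n) / 593920 := by ring
    _ ≤ _ := by
        rw [div_le_iff₀ (by norm_num)]
        linarith

/-- the sum of the dimensions grows exponentially -/
theorem sum_dims_ge1 {a : ℕ → ℕ} (ha : ∀ k, 1 ≤ k → IsDim k (a k)) (K : ℕ) :
    (2 : ℝ) ^ K ≤ 4640 * (K + 3) ^ 2 * (1 + ∑ k ∈ Icc 1 K, (a k : ℝ)) ^ 3 := by
  refine (fin_growth_univ K).trans ?_
  have h := dimF_le_sum ha K
  have h2 : (dimF Set.univ (Wd K) : ℝ) ≤ ((1 + ∑ k ∈ Icc 1 K, a k : ℕ) : ℝ) := by exact_mod_cast h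
  push_cast at h2
  exact mul_le_mul_of_nonneg_left (pow_le_pow_left₀ (Nat.cast_nonneg _) h2 3) (by positivity)

end Pool.MZFin
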