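import Pool.Agent.Lib.MZFin.QFin

/-! MP_c511df_nt: the final statements in the terms of the frozen statement S18415 (exponent `1/3`). -/

open Finset

namespace Pool.MZFin

/-- a set of primes of relative upper density `≥ δ` -/
theorem freq_of_count {P : Set ℕ} {δ δ' : ℝ} (h0 : 0 ≤ δ') (hδ : δ' < δ)
    (h : ∀ X0 : ℕ, ∃ X : ℕ, X0 ≤ X ∧ δ * ncount Set.univ X ≤ ncount P X) : Freq P δ' := by
  by_contra hcon
  obtain ⟨X1, h1⟩ := count_le h0 (show δ' < (δ' + δ) / 2 by linarith) hcon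
  obtain ⟨X, h2, h3⟩ := h (max X1 2)
  have h4 := h1 X ((le_max_left _ _).trans h2)
  have hX : 2 ≤ X := (le_max_right _ _).trans h2
  have h5 : 1 ≤ ncount Set.univ X := by
    classical
    rw [ncount_eq, Nat.one_le_iff_ne_zero, Ne, Finset.card_eq_zero]
    intro he
    have h6 : (2 : ℕ) ∈ (range (X + 1)).filter (fun p => p ∈ (Set.univ : Set ℕ) ∧ p.Prime) :=
      mem_filter.2 ⟨mem_range.2 (by omega), Set.mem_univ _, Nat.prime_two⟩
    rw [he] at h6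
    exact absurd h6 (Finset.notMem_empty _)
  have h6 : (1 : ℝ) ≤ ncount Set.univ X := by exact_mod_cast h5
  nlinarith

theorem growth_on {P : Set ℕ} {δ : ℝ} (hδ : 0 < δ)
    (h : ∀ X0 : ℕ, ∃ X : ℕ, X0 ≤ X ∧ δ * ncount Set.univ X ≤ ncount P X) (K : ℕ) :
    δ ^ 2 * 2 ^ K ≤ 4640 * (K + 3) ^ 2 * (dimF P (Wd K) : ℝ) ^ 3 := by
  have key : ∀ δ' : ℝ, 0 < δ' → δ' < δ →
      δ' ^ 2 * 2 ^ K ≤ 4640 * (K + 3) ^ 2 * (dimF P (Wd K) : ℝ) ^ 3 := fun δ' h1 h2 =>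
    fin_growth1 h1 (freq_of_count h1.le h2 h) K
  refine le_of_forall_pos_lt_add fun ε hε => ?_
  have h2 : (0 : ℝ) < 2 ^ K := by positivity
  set η : ℝ := min (δ / 2) (ε / (4 * δ * 2 ^ K)) with hη
  have hη0 : 0 < η := lt_min (by linarith) (by positivity)
  have hη1 : η ≤ δ / 2 := min_le_left _ _
  have hη2 : η * (4 * δ * 2 ^ K) ≤ ε := by
    have h3 : η ≤ ε / (4 * δ * 2 ^ K) := min_le_right _ _
    rwa [le_div_iff₀ (by positivity)] at h3
  have h1 := key (δ - η) (by linarith) (by linarith)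
  have h3 : (δ - η) ^ 2 * 2 ^ K = δ ^ 2 * 2 ^ K - 2 * (η * (δ * 2 ^ K)) + η ^ 2 * 2 ^ K := by ring
  have h4 : 0 ≤ η ^ 2 * 2 ^ K := by positivity
  nlinarith

/-- independent values of weight at most `K`, only the primes of `P` being taken into account -/
theorem exists_family (P : Set ℕ) (K : ℕ) :
    ∃ len : Fin (dimF P (Wd K)) → ℕ, ∃ kk : (j : Fin (dimF P (Wd K))) → Fin (len j) → ℕ,
      (∀ j, (∀ a, 1 ≤ kk j a) ∧ ∑ a, kk j a ≤ K) ∧
      ∀ c : Fin (dimF P (Wd K)) → ℚ,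
        (∃ N : ℕ, ∀ p ∈ P, p.Prime → N < p →
          ∑ j, ((c j).num : ZMod p) * ((c j).den : ZMod p)⁻¹ * fsum p (len j) (kk j) = 0) →
        ∀ j, c j = 0 := by
  classical
  obtain ⟨S, hk, hS, hc⟩ := exists_indep_dimF P (Wd K)
  rw [← hc]
  let e : Fin S.card ≃ S := S.equivFin.symm
  refine ⟨fun j => ((e j : List ℕ)).length, fun j a => (e j : List ℕ).get a, fun j => ⟨fun a => ?_, ?_⟩,
    fun c hc j => ?_⟩
  · exact (mem_Wd.1 (hk (e j).2)).1 _ (List.get_mem _ _)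
  · have h := (mem_Wd.1 (hk (e j).2)).2
    rw [← List.sum_ofFn]
    have h2 : List.ofFn (fun a => (e j : List ℕ).get a) = (e j : List ℕ) := List.ofFn_get _
    rw [h2]
    exact h
  · obtain ⟨N, hN⟩ := hc
    have h3 := hS (fun l => if h : l ∈ S then c (e.symm ⟨l, h⟩) else 0) ⟨N, fun p hP hp hNp => by
      rw [← hN p hP hp hNp, ← Finset.sum_coe_sort S, ← e.sum_comp]
      refine Finset.sum_congr rfl fun i _ => ?_
      rw [dif_pos (e i).2]
      have h5 : e.symm ⟨(e i : List ℕ), (e i).2⟩ = i := by simp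
      rw [h5, fsum_eq p hp]
      have h2 : List.ofFn (fun a => (e i : List ℕ).get a) = (e i : List ℕ) := List.ofFn_get _
      rw [h2, rc]⟩ (e j) (e j).2
    rw [dif_pos (e j).2] at h3
    have h5 : e.symm ⟨(e j : List ℕ), (e j).2⟩ = j := by simp
    rwa [h5] at h3

theorem ncount_vanish (K X : ℕ) [DecidablePred fun p => p.Prime ∧ Vanish K p] :
    ((range (X + 1)).filter (fun p => p.Prime ∧ Vanish K p)).card = ncount (Van K) X := by
  classical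
  rw [ncount_eq]
  congr 1
  ext p
  simp only [mem_filter]
  constructor
  · rintro ⟨h1, h2, h3⟩
    exact ⟨h1, (vanish_iff h2).1 h3, h2⟩
  · rintro ⟨h1, h2, h3⟩
    exact ⟨h1, h3, (vanish_iff h3).2 h2⟩

theorem ncount_not_vanish (K X : ℕ) [DecidablePred fun p => p.Prime ∧ ¬ Vanish K p] :
    ((range (X + 1)).filter (fun p => p.Prime ∧ ¬ Vanish K p)).card = ncount (Van K)ᶜ X := by
  classical
  rw [ncount_eq]
  congr 1
  ext p
  simp only [mem_filter]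
  constructor
  · rintro ⟨h1, h2, h3⟩
    exact ⟨h1, fun h => h3 ((vanish_iff h2).2 h), h2⟩
  · rintro ⟨h1, h2, h3⟩
    exact ⟨h1, h3, fun h => h2 ((vanish_iff h3).1 h)⟩

theorem ncount_univ (X : ℕ) [DecidablePred Nat.Prime] :
    ((range (X + 1)).filter Nat.Prime).card = ncount Set.univ X := by
  classical
  rw [ncount_eq]
  congr 1
  ext p
  simp only [mem_filter, Set.mem_univ, true_and]

/-- the growth of the dimensions -/
theorem final_growth :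
    (∀ k : ℕ, ∃! d : ℕ, IsDim k d) ∧
    ∀ a : ℕ → ℕ, (∀ k, 1 ≤ k → IsDim k (a k)) →
      (∀ K : ℕ, 2 ^ K ≤ 4640 * (K + 3) ^ 2 * (1 + ∑ k ∈ Icc 1 K, a k) ^ 3) ∧
      ∃ c : ℝ, 0 < c ∧ ∀ n : ℕ, 1 ≤ n → ∃ k, n ≤ k ∧ k ≤ n + 15 ∧
        c * (2 : ℝ) ^ n ≤ (n : ℝ) ^ 5 * (a k : ℝ) ^ 3 := by
  refine ⟨fun k => ?_, fun a ha => ⟨fun K => ?_, ?_⟩⟩
  · obtain ⟨d, hd⟩ := exists_isDim k
    exact ⟨d, hd, fun d' hd' => isDim_unique hd' hd⟩
  · have h := sum_dims_ge1 ha K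
    exact_mod_cast h
  · obtain ⟨c, hc, g, hg1, hg2, h⟩ := dims_window1
    refine ⟨c, hc, fun n hn => ?_⟩
    obtain ⟨k, hk1, hk2, hk⟩ := h n hn
    exact ⟨k, hk1, by omega, hk (a k) (ha k (by omega))⟩

open Classical in
/-- the primes at which the values vanish, and values at a set of primes of positive density -/
theorem final_density :
    (∀ K : ℕ, ∃ X0 : ℕ, ∀ X : ℕ, X0 ≤ X →
      (((range (X + 1)).filter (fun p => p.Prime ∧ Vanish K p)).card : ℝ) ≤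
        17 * (K + 2) * (2 : ℝ) ^ (-((K : ℝ) / 2)) * ((range (X + 1)).filter Nat.Prime).card) ∧
    (∃ X0 : ℕ, ∀ X : ℕ, X0 ≤ X →
      3 / 20 * (((range (X + 1)).filter Nat.Prime).card : ℝ) ≤
        ((range (X + 1)).filter (fun p => p.Prime ∧ ¬ Vanish 16 p)).card) ∧
    (∃ X0 : ℕ, ∀ X : ℕ, X0 ≤ X →
      53 / 100 * (((range (X + 1)).filter Nat.Prime).card : ℝ) ≤
        ((range (X + 1)).filter (fun p => p.Prime ∧ ¬ Vanish 18 p)).card) ∧
    (∃ X0 : ℕ, ∀ X : ℕ, X0 ≤ X →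
      9 / 10 * (((range (X + 1)).filter Nat.Prime).card : ℝ) ≤
        ((range (X + 1)).filter (fun p => p.Prime ∧ ¬ Vanish 24 p)).card) ∧
    ∀ (P : Set ℕ) (δ : ℝ), 0 < δ →
      (∀ X0 : ℕ, ∃ X : ℕ, X0 ≤ X ∧ δ * (((range (X + 1)).filter Nat.Prime).card : ℝ) ≤
        ((range (X + 1)).filter (fun p => p ∈ P ∧ p.Prime)).card) →
      ∀ K : ℕ, ∃ d : ℕ, δ ^ 2 * 2 ^ K ≤ 4640 * ((K : ℝ) + 3) ^ 2 * (d : ℝ) ^ 3 ∧
        ∃ len : Fin d → ℕ, ∃ kk : (j : Fin d) → Fin (len j) → ℕ,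
          (∀ j, (∀ a, 1 ≤ kk j a) ∧ ∑ a, kk j a ≤ K) ∧
          ∀ c : Fin d → ℚ,
            (∃ N : ℕ, ∀ p ∈ P, p.Prime → N < p →
              ∑ j, ((c j).num : ZMod p) * ((c j).den : ZMod p)⁻¹ * fsum p (len j) (kk j) = 0) →
            ∀ j, c j = 0 := by
  refine ⟨fun K => ?_, ?_, ?_, ?_, fun P δ hδ h K => ?_⟩
  · obtain ⟨X0, h⟩ := van_count K
    refine ⟨X0, fun X hX => ?_⟩
    rw [ncount_vanish, ncount_univ, ncount_pi, ncount_cnt]
    exact h X hX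
  · obtain ⟨X0, h⟩ := nonvan_count16
    refine ⟨X0, fun X hX => ?_⟩
    rw [ncount_not_vanish, ncount_univ, ncount_pi, ncount_cnt]
    exact h X hX
  · obtain ⟨X0, h⟩ := nonvan_count18
    refine ⟨X0, fun X hX => ?_⟩
    rw [ncount_not_vanish, ncount_univ, ncount_pi, ncount_cnt]
    exact h X hX
  · obtain ⟨X0, h⟩ := nonvan_count24
    refine ⟨X0, fun X hX => ?_⟩
    rw [ncount_not_vanish, ncount_univ, ncount_pi, ncount_cnt]
    exact h X hX
  · refine ⟨dimF P (Wd K), growth_on hδ (fun X0 => ?_) K, exists_family P K⟩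
    obtain ⟨X, h1, h2⟩ := h X0
    refine ⟨X, h1, ?_⟩
    rw [ncount_univ] at h2
    rw [ncount_eq P X]
    exact h2

end Pool.MZFin
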