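import Pool.Agent.Lib.MZFin.RedZ
import Pool.Agent.Lib.MZFin.RedQ

/-! MP_c511df_nt: the REDUCTION of the sums `∑_(t=1)^p C(t,i) C(t,j) h_u(t) h_v(t)` to finite
multiple zeta values of weight at most `|u| + |v|`, with denominators dividing `d_m^(|u| + |v|)`,
`m ≥ i + j + 1`, for all primes `p > m` at once and for the formal sums (`mom`). -/

open Finset Polynomial

namespace Pool.MZFin

/-- the product of two binomial coefficients -/
theorem choose_mul_choose (i j t : ℕ) : t.choose i * t.choose j =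
    ∑ ab ∈ antidiagonal i, (j.choose ab.1 * (j + ab.2).choose j) * t.choose (j + ab.2) := by
  rcases lt_or_ge t j with h | h
  · rw [Nat.choose_eq_zero_of_lt h, mul_zero]
    symm
    refine sum_eq_zero fun ab _ => ?_
    rw [Nat.choose_eq_zero_of_lt (by omega : t < j + ab.2), mul_zero]
  · have h1 := Nat.add_choose_eq j (t - j) i
    rw [Nat.add_sub_cancel' h] at h1
    rw [h1, sum_mul]
    refine sum_congr rfl fun ab _ => ?_
    rcases le_or_gt (j + ab.2) t with h2 | h2
    · have h3 := Nat.choose_mul (n := t) (Nat.le_add_right j ab.2)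
      rw [Nat.add_sub_cancel_left] at h3
      calc j.choose ab.1 * (t - j).choose ab.2 * t.choose j
          = j.choose ab.1 * (t.choose j * (t - j).choose ab.2) := by ring
        _ = j.choose ab.1 * (t.choose (j + ab.2) * (j + ab.2).choose j) := by rw [h3]
        _ = _ := by ring
    · rw [Nat.choose_eq_zero_of_lt h2, Nat.choose_eq_zero_of_lt (by omega : t - j < ab.2)]
      ring

theorem choose_coef (i j : ℕ) :
    ∑ ab ∈ antidiagonal i, j.choose ab.1 * (j + ab.2).choose j ≤ 2 ^ (i + 2 * j) := by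
  have h1 : ∑ ab ∈ antidiagonal i, j.choose ab.1 * (j + ab.2).choose j ≤
      ∑ ab ∈ antidiagonal i, j.choose ab.1 * 2 ^ (i + j) := by
    refine sum_le_sum fun ab hab => Nat.mul_le_mul_left _ ((Nat.choose_le_two_pow _ _).trans
      (Nat.pow_le_pow_right (by norm_num) ?_))
    have := mem_antidiagonal.1 hab
    omega
  have h2 : ∑ ab ∈ antidiagonal i, j.choose ab.1 ≤ 2 ^ j := by
    rw [Finset.Nat.sum_antidiagonal_eq_sum_range_succ_mk, ← Nat.sum_range_choose j]
    refine sum_le_sum_of_ne_zero fun a _ ha => mem_range.2 ?_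
    by_contra h
    exact ha (Nat.choose_eq_zero_of_lt (by omega))
  refine h1.trans ?_
  rw [← sum_mul]
  calc (∑ ab ∈ antidiagonal i, j.choose ab.1) * 2 ^ (i + j) ≤ 2 ^ j * 2 ^ (i + j) :=
        Nat.mul_le_mul_right _ h2
    _ = 2 ^ (i + 2 * j) := by
        rw [← pow_add]
        congr 1
        ring

theorem bq_mul (i j : ℕ) : bq i * bq j =
    ∑ ab ∈ antidiagonal i, ((j.choose ab.1 * (j + ab.2).choose j : ℕ) : ℚ) • bq (j + ab.2) :=
  bq_ext fun n => by
    rw [eval_mul, bq_eval, bq_eval, eval_finsetSum, ← Nat.cast_mul, choose_mul_choose i j n,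
      Nat.cast_sum]
    exact sum_congr rfl fun ab _ => by rw [eval_smul, bq_eval, smul_eq_mul, Nat.cast_mul]

theorem mom_eq' (φ : List ℕ → ℚ) (u v : List ℕ) (P : ℚ[X]) {N : ℕ} (hN : P.natDegree + 1 ≤ N) :
    ∑ k ∈ range N, P.coeff k * mom φ u v k = ((stf u v).map fun w => Lam φ w P).sum := by
  rw [mom_eq]
  symm
  refine sum_subset (range_mono hN) fun k _ hk => ?_
  rw [coeff_eq_zero_of_natDegree_lt (by
    rw [mem_range] at hk
    omega), zero_mul]

private theorem red_list {α β : Type} [AddCommMonoid β] (L : List α) (s : Finset ℕ)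
    (f : α → ℕ → β) :
    ∑ M ∈ s, (L.map fun x => f x M).sum = (L.map fun x => ∑ M ∈ s, f x M).sum := by
  induction L with
  | nil => simp
  | cons x L ih => simp only [List.map_cons, List.sum_cons, sum_add_distrib, ih]

private theorem red_listmul {α β : Type} [CommRing β] (L : List α) (c : β) (f : α → β) :
    c * (L.map f).sum = (L.map fun x => c * f x).sum := by
  induction L with
  | nil => simp
  | cons x L ih => simp only [List.map_cons, List.sum_cons, mul_add, ih]

/-- the reduction theorem with an abstract denominator predicate -/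
theorem redP (u v : List ℕ) (hu : ∀ a ∈ u, 1 ≤ a) (hv : ∀ a ∈ v, 1 ≤ a) (i j m : ℕ) (hi : 1 ≤ i)
    (hm : i + j + 1 ≤ m) (P : ℕ → ℕ → ℕ → ℕ → Prop) (hP : DenP m P) (D : ℕ)
    (hD : ∀ r k, r ≤ u.length + v.length → k ≤ i + j → P r (u.sum + v.sum) k D) :
    ∃ n : List ℕ →₀ ℤ,
      (∀ w ∈ n.support, (∀ a ∈ w, 1 ≤ a) ∧ w.sum ≤ u.sum + v.sum ∧
        w.length ≤ u.length + v.length) ∧
      (n.sum fun _ z => |z|) ≤ 3 ^ (u.length + v.length) * 2 ^ (u.length + v.length) *
        2 ^ (i + 2 * j) * (D : ℤ) ∧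
      (∀ p : ℕ, p.Prime → m < p → (D : ZMod p) *
        (∑ M ∈ range p, ((M + 1).choose i : ZMod p) * ((M + 1).choose j : ZMod p) *
          hs (wp p) u M * hs (wp p) v M) = n.sum fun l z => (z : ZMod p) * fz p l) ∧
      (∀ (φ : List ℕ → ℚ) (N : ℕ), i + j + 1 ≤ N → (D : ℚ) *
        (∑ k ∈ range N, (bq i * bq j).coeff k * mom φ u v k) =
          n.sum fun l z => (z : ℚ) * φ l) := by
  -- one word
  have h1 : ∀ w ∈ stf u v, Rep m (u.sum + v.sum) (u.length + v.length)
      (2 ^ (i + 2 * j) * (2 ^ (u.length + v.length) * (D : ℤ)))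
      fun M _ _ G => ∑ ab ∈ antidiagonal i, ((j.choose ab.1 * (j + ab.2).choose j : ℕ) : ℤ) •
        ((D : ℤ) • G w 0 (j + ab.2)) := by
    intro w hw
    obtain ⟨hw1, hw2, hw3⟩ := stf_mem u v w hw
    have h2 : ∀ ab ∈ antidiagonal i, Rep m (u.sum + v.sum) (u.length + v.length)
        (((j.choose ab.1 * (j + ab.2).choose j : ℕ) : ℤ) *
          (2 ^ (u.length + v.length) * (D : ℤ)))
        fun M _ _ G => ((j.choose ab.1 * (j + ab.2).choose j : ℕ) : ℤ) •
          ((D : ℤ) • G w 0 (j + ab.2)) := by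
      intro ab hab
      have hab' := mem_antidiagonal.1 hab
      have h3 := sys_coreP m P hP w (hw3 hu hv) 0 (j + ab.2) D (by omega) (fun _ => by omega)
        (by
          rw [add_zero, hw1]
          exact hD _ _ hw2 (by omega))
      rw [add_zero, hw1] at h3
      refine (((h3.mono_left le_rfl (by omega)).mono
        (B' := 2 ^ (u.length + v.length) * (D : ℤ)) ?_).smul
          ((j.choose ab.1 * (j + ab.2).choose j : ℕ) : ℤ)).mono ?_
      · exact mul_le_mul_of_nonneg_right (pow_le_pow_right₀ (by norm_num) hw2) (Nat.cast_nonneg _)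
      · rw [Nat.abs_cast]
    refine (Rep.sum _ _ _ h2).mono ?_
    rw [← sum_mul]
    refine mul_le_mul_of_nonneg_right ?_ (by positivity)
    exact_mod_cast choose_coef i j
  obtain ⟨n, n1, n2, n3⟩ := Rep.listSum (stf u v) _ _ h1
  refine ⟨n, fun w hw => (Finsupp.mem_supported ℤ n).1 n1 hw, ?_, fun p hp hmp => ?_,
    fun φ N hN => ?_⟩
  · refine n2.trans ?_
    have h3 : ((stf u v).length : ℤ) ≤ 3 ^ (u.length + v.length) := by
      exact_mod_cast stf_length u v
    calc ((stf u v).length : ℤ) * (2 ^ (i + 2 * j) * (2 ^ (u.length + v.length) * (D : ℤ)))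
        ≤ 3 ^ (u.length + v.length) * (2 ^ (i + 2 * j) * (2 ^ (u.length + v.length) *
          (D : ℤ))) := mul_le_mul_of_nonneg_right h3 (by positivity)
      _ = _ := by ring
  · have h3 := n3 (ZMod p) (fz p) (Gz p) (sys_Gz hp hmp)
    have h4 : Finsupp.linearCombination ℤ (fz p) n = n.sum fun l z => (z : ZMod p) * fz p l := by
      rw [Finsupp.linearCombination_apply]
      exact Finsupp.sum_congr fun l _ => by rw [zsmul_eq_mul]
    rw [← h4, ← h3]
    have h5 : ∑ M ∈ range p, ((M + 1).choose i : ZMod p) * ((M + 1).choose j : ZMod p) *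
        hs (wp p) u M * hs (wp p) v M = ((stf u v).map fun w => ∑ ab ∈ antidiagonal i,
          ((j.choose ab.1 * (j + ab.2).choose j : ℕ) : ZMod p) * Gz p w 0 (j + ab.2)).sum := by
      have h6 := sum_range_p hp hi (by omega) fun M => ((M + 1).choose j : ZMod p) *
        (hs (wp p) u M * hs (wp p) v M)
      have h7 : ∀ M, ((M + 1).choose i : ZMod p) * ((M + 1).choose j : ZMod p) *
          hs (wp p) u M * hs (wp p) v M = ((M + 1).choose i : ZMod p) *
            (((M + 1).choose j : ZMod p) * (hs (wp p) u M * hs (wp p) v M)) := fun M => by ring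
      rw [sum_congr rfl fun M _ => h7 M, h6]
      have h8 : ∀ M, ((M + 1).choose i : ZMod p) *
          (((M + 1).choose j : ZMod p) * (hs (wp p) u M * hs (wp p) v M)) =
          ((stf u v).map fun w => ∑ ab ∈ antidiagonal i,
            ((j.choose ab.1 * (j + ab.2).choose j : ℕ) : ZMod p) *
              (((M + 1).choose (j + ab.2) : ZMod p) * hs (wp p) w M)).sum := by
        intro M
        rw [← mul_assoc, ← Nat.cast_mul, choose_mul_choose, hs_mul, red_listmul]
        congr 1
        refine List.map_congr_left fun w _ => ?_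
        rw [Nat.cast_sum, sum_mul]
        exact sum_congr rfl fun ab _ => by
          push_cast
          ring
      rw [sum_congr rfl fun M _ => h8 M, red_list]
      congr 1
      refine List.map_congr_left fun w _ => ?_
      rw [sum_comm]
      refine sum_congr rfl fun ab _ => ?_
      unfold Gz
      rw [mul_sum]
      exact sum_congr rfl fun M _ => by rw [pow_zero, one_mul]
    rw [h5, red_listmul]
    congr 1
    refine List.map_congr_left fun w _ => ?_
    rw [mul_sum]
    refine sum_congr rfl fun ab _ => ?_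
    rw [zsmul_eq_mul, zsmul_eq_mul]
    push_cast
    ring
  · have h3 := n3 ℚ φ (Gq φ) (sys_Gq m φ)
    have h4 : Finsupp.linearCombination ℤ φ n = n.sum fun l z => (z : ℚ) * φ l := by
      rw [Finsupp.linearCombination_apply]
      exact Finsupp.sum_congr fun l _ => by rw [zsmul_eq_mul]
    rw [← h4, ← h3]
    have hdeg : (bq i * bq j).natDegree = i + j := by
      rw [natDegree_mul (fun h => by
        have := bq_degree i
        rw [h, degree_zero] at this
        exact absurd this (by simp)) (fun h => by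
        have := bq_degree j
        rw [h, degree_zero] at this
        exact absurd this (by simp)), bq_natDegree, bq_natDegree]
    rw [mom_eq' φ u v _ (by rw [hdeg]; exact hN), red_listmul]
    congr 1
    refine List.map_congr_left fun w _ => ?_
    have h5 : (bq i * bq j).eval 0 = 0 := by
      obtain ⟨i', rfl⟩ : ∃ i', i = i' + 1 := ⟨i - 1, by omega⟩
      rw [eval_mul, bq_succ_eval_zero, zero_mul]
    rw [Lam_apply, h5, mul_zero, add_zero, bq_mul, map_sum, mul_sum]
    refine sum_congr rfl fun ab _ => ?_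
    rw [map_smul, psi_bq, smul_eq_mul, zsmul_eq_mul, zsmul_eq_mul]
    push_cast
    ring

/-- the reduction theorem with the denominators `d_m^(|u| + |v|)` -/
theorem red (u v : List ℕ) (hu : ∀ a ∈ u, 1 ≤ a) (hv : ∀ a ∈ v, 1 ≤ a) (i j m : ℕ) (hi : 1 ≤ i)
    (hm : i + j + 1 ≤ m) :
    ∃ n : List ℕ →₀ ℤ,
      (∀ w ∈ n.support, (∀ a ∈ w, 1 ≤ a) ∧ w.sum ≤ u.sum + v.sum) ∧
      (n.sum fun _ z => |z|) ≤ 3 ^ (u.length + v.length) * 2 ^ (u.length + v.length) *
        2 ^ (i + 2 * j) * (Nat.lcmUpto m : ℤ) ^ (u.sum + v.sum) ∧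
      (∀ p : ℕ, p.Prime → m < p → (Nat.lcmUpto m : ZMod p) ^ (u.sum + v.sum) *
        (∑ M ∈ range p, ((M + 1).choose i : ZMod p) * ((M + 1).choose j : ZMod p) *
          hs (wp p) u M * hs (wp p) v M) = n.sum fun l z => (z : ZMod p) * fz p l) ∧
      (∀ (φ : List ℕ → ℚ) (N : ℕ), i + j + 1 ≤ N → (Nat.lcmUpto m : ℚ) ^ (u.sum + v.sum) *
        (∑ k ∈ range N, (bq i * bq j).coeff k * mom φ u v k) =
          n.sum fun l z => (z : ℚ) * φ l) := by
  obtain ⟨n, n1, n2, n3, n4⟩ := redP u v hu hv i j m hi hm _ (denP_lcm m)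
    (Nat.lcmUpto m ^ (u.sum + v.sum)) fun r k _ hk => ⟨by omega, dvd_rfl⟩
  refine ⟨n, fun w hw => ⟨(n1 w hw).1, (n1 w hw).2.1⟩, ?_, fun p hp hmp => ?_, fun φ N hN => ?_⟩
  · have h := n2
    push_cast at h
    exact h
  · have h := n3 p hp hmp
    push_cast at h
    exact h
  · have h := n4 φ N hN
    push_cast at h
    exact h

end Pool.MZFin
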