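import Pool.Agent.Lib.MZFin.Defs

/-! MP_c511df_nt, reduction of sums modulo `p` to finite multiple zeta values: the stuffle product
of words (with multiplicity, as a list of words). -/

open Finset

namespace Pool.MZFin

/-- the stuffle product of two words -/
def stf : List ℕ → List ℕ → List (List ℕ)
  | [], v => [v]
  | a :: u, [] => [a :: u]
  | a :: u, b :: v => (stf u (b :: v)).map (fun x => a :: x) ++
      ((stf (a :: u) v).map (fun x => b :: x) ++ (stf u v).map (fun x => (a + b) :: x))
termination_by u v => u.length + v.length

theorem stf_nil_left (v : List ℕ) : stf [] v = [v] := by rw [stf]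

theorem stf_nil_right (u : List ℕ) : stf u [] = [u] := by
  cases u <;> rw [stf]

theorem stf_cons (a b : ℕ) (u v : List ℕ) : stf (a :: u) (b :: v) =
    (stf u (b :: v)).map (fun x => a :: x) ++
      ((stf (a :: u) v).map (fun x => b :: x) ++ (stf u v).map (fun x => (a + b) :: x)) := by
  rw [stf]

/-- all the words of the stuffle product -/
theorem stf_mem : ∀ (u v w : List ℕ), w ∈ stf u v → w.sum = u.sum + v.sum ∧
    w.length ≤ u.length + v.length ∧ ((∀ a ∈ u, 1 ≤ a) → (∀ a ∈ v, 1 ≤ a) → ∀ a ∈ w, 1 ≤ a)
  | [], v, w, h => by
    rw [stf_nil_left, List.mem_singleton] at h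
    subst h
    exact ⟨by simp, by simp, fun _ h => h⟩
  | a :: u, [], w, h => by
    rw [stf_nil_right, List.mem_singleton] at h
    subst h
    exact ⟨by simp, by simp, fun h _ => h⟩
  | a :: u, b :: v, w, h => by
    rw [stf_cons, List.mem_append, List.mem_append, List.mem_map, List.mem_map, List.mem_map] at h
    rcases h with ⟨x, hx, rfl⟩ | ⟨x, hx, rfl⟩ | ⟨x, hx, rfl⟩
    · obtain ⟨h1, h2, h3⟩ := stf_mem u (b :: v) x hx
      refine ⟨?_, ?_, fun hu hv c hc => ?_⟩
      · simp only [List.sum_cons] at *
        omega
      · simp only [List.length_cons] at *
        omega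
      · rcases List.mem_cons.1 hc with rfl | hc
        · exact hu _ (List.mem_cons_self)
        · exact h3 (fun d hd => hu d (List.mem_cons_of_mem _ hd)) hv c hc
    · obtain ⟨h1, h2, h3⟩ := stf_mem (a :: u) v x hx
      refine ⟨?_, ?_, fun hu hv c hc => ?_⟩
      · simp only [List.sum_cons] at *
        omega
      · simp only [List.length_cons] at *
        omega
      · rcases List.mem_cons.1 hc with rfl | hc
        · exact hv _ (List.mem_cons_self)
        · exact h3 hu (fun d hd => hv d (List.mem_cons_of_mem _ hd)) c hc
    · obtain ⟨h1, h2, h3⟩ := stf_mem u v x hx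
      refine ⟨?_, ?_, fun hu hv c hc => ?_⟩
      · simp only [List.sum_cons] at *
        omega
      · simp only [List.length_cons] at *
        omega
      · rcases List.mem_cons.1 hc with rfl | hc
        · have := hu a (List.mem_cons_self)
          omega
        · exact h3 (fun d hd => hu d (List.mem_cons_of_mem _ hd))
            (fun d hd => hv d (List.mem_cons_of_mem _ hd)) c hc
termination_by u v => u.length + v.length

/-- the number of words of the stuffle product -/
theorem stf_length : ∀ (u v : List ℕ), (stf u v).length ≤ 3 ^ (u.length + v.length)
  | [], v => by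
    rw [stf_nil_left]
    exact Nat.one_le_pow _ _ (by norm_num)
  | a :: u, [] => by
    rw [stf_nil_right]
    exact Nat.one_le_pow _ _ (by norm_num)
  | a :: u, b :: v => by
    rw [stf_cons, List.length_append, List.length_append, List.length_map, List.length_map,
      List.length_map]
    have h1 := stf_length u (b :: v)
    have h2 := stf_length (a :: u) v
    have h3 := stf_length u v
    simp only [List.length_cons] at *
    have e1 : u.length + (v.length + 1) = u.length + v.length + 1 := by omega
    have e2 : u.length + 1 + v.length = u.length + v.length + 1 := by omega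
    have e3 : u.length + 1 + (v.length + 1) = u.length + v.length + 1 + 1 := by omega
    rw [e1] at h1
    rw [e2] at h2
    rw [e3, pow_succ]
    have h4 : 3 ^ (u.length + v.length) ≤ 3 ^ (u.length + v.length + 1) :=
      Nat.pow_le_pow_right (by norm_num) (by omega)
    omega
termination_by u v => u.length + v.length

/-- the stuffle product formula for multiple harmonic sums -/
theorem hs_mul {R : Type*} [CommRing R] (w : ℕ → R) : ∀ (u v : List ℕ) (M : ℕ),
    hs w u M * hs w v M = ((stf u v).map fun x => hs w x M).sum
  | [], v, M => by
    rw [stf_nil_left, hs_nil, one_mul, List.map_singleton, List.sum_singleton]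
  | a :: u, [], M => by
    rw [stf_nil_right, hs_nil, mul_one, List.map_singleton, List.sum_singleton]
  | a :: u, b :: v, M => by
    induction M with
    | zero =>
      rw [hs_cons, range_zero, sum_empty, zero_mul, stf_cons]
      symm
      refine List.sum_eq_zero fun y hy => ?_
      obtain ⟨x, hx, rfl⟩ := List.mem_map.1 hy
      rw [List.mem_append, List.mem_append, List.mem_map, List.mem_map, List.mem_map] at hx
      rcases hx with ⟨x, -, rfl⟩ | ⟨x, -, rfl⟩ | ⟨x, -, rfl⟩ <;>
        rw [hs_cons, range_zero, sum_empty]
    | succ M ih =>
      have h1 := hs_mul w u (b :: v) M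
      have h2 := hs_mul w (a :: u) v M
      have h3 := hs_mul w u v M
      have key : ∀ (c : ℕ) (L : List (List ℕ)),
          ((L.map fun x => c :: x).map fun x => hs w x (M + 1)).sum =
          ((L.map fun x => c :: x).map fun x => hs w x M).sum +
            w (M + 1) ^ c * (L.map fun x => hs w x M).sum := by
        intro c L
        induction L with
        | nil => simp
        | cons x L ihL =>
          simp only [List.map_cons, List.sum_cons] at *
          rw [ihL, hs_succ]
          ring
      rw [stf_cons] at ih ⊢
      simp only [List.map_append, List.sum_append] at ih ⊢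
      rw [key, key, key, hs_succ, hs_succ, ← h1, ← h2, ← h3]
      rw [pow_add]
      linear_combination ih
termination_by u v => u.length + v.length

end Pool.MZFin
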