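import Pool.Agent.Lib.MZFin.RedStf

/-! MP_c511df_nt, reduction of sums modulo `p` to finite multiple zeta values.

`Sys m φ G`: the system of relations satisfied by the sums
`G l a k = ∑_(t=1)^(p-1) C(t,k) t^(-a) h_l(t)`, `φ` = finite multiple zeta values, for `k + 1 ≤ m`.
`sys_coreP`: `N G l a k` is an integral combination of the values of `φ`, the same combination for
all systems, of small `ℓ¹`-norm, if the denominator `N` satisfies an abstract predicate `DenP`. -/

open Finset

namespace Pool.MZFin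

/-- the relations between the sums `G l a k = ∑_(t=1)^(p-1) C(t,k) t^(-a) h_l(t)` -/
structure Sys (m : ℕ) {M : Type} [AddCommGroup M] (φ : List ℕ → M) (G : List ℕ → ℕ → ℕ → M) :
    Prop where
  zero : ∀ (l : List ℕ) (a : ℕ), G l (a + 1) 0 = φ ((a + 1) :: l)
  step : ∀ (l : List ℕ) (a k : ℕ), k + 1 ≤ m →
    (k + 1) • G l (a + 1) (k + 1) + k • G l (a + 1) k = G l a k
  cons : ∀ (a : ℕ) (l : List ℕ) (k : ℕ), 1 ≤ a → k + 1 ≤ m →
    G (a :: l) 0 k = -(G l a (k + 1) + G l a k)
  nil : ∀ k : ℕ, k + 1 ≤ m → G [] 0 k = if k = 0 then -φ [] else 0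

/-- the sum of the absolute values of the coefficients -/
def nrm (n : List ℕ →₀ ℤ) : ℤ := n.sum fun _ z => |z|

theorem nrm_eq (n : List ℕ →₀ ℤ) {s : Finset (List ℕ)} (hs : n.support ⊆ s) :
    nrm n = ∑ w ∈ s, |n w| :=
  Finsupp.sum_of_support_subset n hs _ fun _ _ => abs_zero

theorem nrm_add (n n' : List ℕ →₀ ℤ) : nrm (n + n') ≤ nrm n + nrm n' := by
  classical
  rw [nrm_eq (n + n') Finsupp.support_add, nrm_eq n (s := n.support ∪ n'.support)
    subset_union_left, nrm_eq n' (s := n.support ∪ n'.support) subset_union_right,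
    ← sum_add_distrib]
  exact sum_le_sum fun w _ => by
    rw [Finsupp.add_apply]
    exact abs_add_le _ _

theorem nrm_smul (c : ℤ) (n : List ℕ →₀ ℤ) : nrm (c • n) = |c| * nrm n := by
  rw [nrm_eq (c • n) Finsupp.support_smul, nrm_eq n (subset_refl _), mul_sum]
  exact sum_congr rfl fun w _ => by rw [Finsupp.smul_apply, smul_eq_mul, abs_mul]

theorem nrm_zero : nrm 0 = 0 := by
  unfold nrm
  exact Finsupp.sum_zero_index

theorem nrm_single (w : List ℕ) (z : ℤ) : nrm (Finsupp.single w z) = |z| := by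
  unfold nrm
  exact Finsupp.sum_single_index abs_zero

/-- the words with letters `≥ 1`, weight at most `s` and length at most `r` -/
def Sup (s r : ℕ) : Set (List ℕ) := {w | (∀ a ∈ w, 1 ≤ a) ∧ w.sum ≤ s ∧ w.length ≤ r}

theorem Sup_mono {s s' r r' : ℕ} (h : s ≤ s') (h' : r ≤ r') : Sup s r ⊆ Sup s' r' :=
  fun _ hw => ⟨hw.1, hw.2.1.trans h, hw.2.2.trans h'⟩

/-- an expression `g` in `φ` and `G` is, for all systems, an integral combination of values of `φ`
at words of weight at most `s` and length at most `r`, with `ℓ¹`-norm at most `B` -/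
def Rep (m s r : ℕ) (B : ℤ)
    (g : ∀ (M : Type) [AddCommGroup M], (List ℕ → M) → (List ℕ → ℕ → ℕ → M) → M) : Prop :=
  ∃ n : List ℕ →₀ ℤ, n ∈ Finsupp.supported ℤ ℤ (Sup s r) ∧ nrm n ≤ B ∧
    ∀ (M : Type) [AddCommGroup M] (φ : List ℕ → M) (G : List ℕ → ℕ → ℕ → M), Sys m φ G →
      g M φ G = Finsupp.linearCombination ℤ φ n

section

variable {m s r : ℕ} {B B' : ℤ}
  {g g' : ∀ (M : Type) [AddCommGroup M], (List ℕ → M) → (List ℕ → ℕ → ℕ → M) → M}

theorem Rep.congr (h : Rep m s r B g)
    (e : ∀ (M : Type) [AddCommGroup M] (φ : List ℕ → M) (G : List ℕ → ℕ → ℕ → M), Sys m φ G →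
      g' M φ G = g M φ G) : Rep m s r B g' := by
  obtain ⟨n, h1, h2, h3⟩ := h
  exact ⟨n, h1, h2, fun M _ φ G hG => (e M φ G hG).trans (h3 M φ G hG)⟩

theorem Rep.mono (h : Rep m s r B g) (hB : B ≤ B') : Rep m s r B' g := by
  obtain ⟨n, h1, h2, h3⟩ := h
  exact ⟨n, h1, h2.trans hB, h3⟩

theorem Rep.mono_left {s' r' : ℕ} (h : Rep m s r B g) (hs : s ≤ s') (hr : r ≤ r') :
    Rep m s' r' B g := by
  obtain ⟨n, h1, h2, h3⟩ := h
  exact ⟨n, Finsupp.supported_mono (Sup_mono hs hr) h1, h2, h3⟩

theorem Rep.zero : Rep m s r 0 fun M _ _ _ => (0 : M) :=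
  ⟨0, Submodule.zero_mem _, nrm_zero.le, fun _ _ _ _ _ => (map_zero _).symm⟩

theorem Rep.add (h : Rep m s r B g) (h' : Rep m s r B' g') :
    Rep m s r (B + B') fun M _ φ G => g M φ G + g' M φ G := by
  obtain ⟨n, h1, h2, h3⟩ := h
  obtain ⟨n', h1', h2', h3'⟩ := h'
  refine ⟨n + n', Submodule.add_mem _ h1 h1', (nrm_add n n').trans (add_le_add h2 h2'),
    fun M _ φ G hG => ?_⟩
  beta_reduce
  rw [h3 M φ G hG, h3' M φ G hG, map_add]

theorem Rep.smul (c : ℤ) (h : Rep m s r B g) : Rep m s r (|c| * B) fun M _ φ G => c • g M φ G := by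
  obtain ⟨n, h1, h2, h3⟩ := h
  refine ⟨c • n, Submodule.smul_mem _ c h1, ?_, fun M _ φ G hG => ?_⟩
  · rw [nrm_smul]
    exact mul_le_mul_of_nonneg_left h2 (abs_nonneg c)
  · beta_reduce
    rw [h3 M φ G hG, map_smul]

theorem Rep.sum {ι : Type} (t : Finset ι) (B : ι → ℤ)
    (g : ι → ∀ (M : Type) [AddCommGroup M], (List ℕ → M) → (List ℕ → ℕ → ℕ → M) → M)
    (h : ∀ i ∈ t, Rep m s r (B i) (g i)) :
    Rep m s r (∑ i ∈ t, B i) fun M _ φ G => ∑ i ∈ t, g i M φ G := by
  classical
  induction t using Finset.induction_on with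
  | empty =>
    refine (Rep.zero (m := m) (s := s) (r := r)).congr fun M _ φ G _ => ?_
    rw [sum_empty]
  | insert i t hi ih =>
    rw [sum_insert hi]
    refine ((h i (mem_insert_self _ _)).add (ih fun j hj => h j (mem_insert_of_mem hj))).congr
      fun M _ φ G _ => ?_
    rw [sum_insert hi]

theorem Rep.listSum {ι : Type} (t : List ι) (B : ℤ)
    (g : ι → ∀ (M : Type) [AddCommGroup M], (List ℕ → M) → (List ℕ → ℕ → ℕ → M) → M)
    (h : ∀ i ∈ t, Rep m s r B (g i)) :
    Rep m s r (t.length * B) fun M _ φ G => (t.map fun i => g i M φ G).sum := by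
  induction t with
  | nil =>
    refine ((Rep.zero (m := m) (s := s) (r := r)).mono ?_).congr fun M _ φ G _ => ?_
    · rw [List.length_nil, Nat.cast_zero, zero_mul]
    · rw [List.map_nil, List.sum_nil]
  | cons i t ih =>
    refine (((h i List.mem_cons_self).add
      (ih fun j hj => h j (List.mem_cons_of_mem _ hj))).mono ?_).congr fun M _ φ G _ => ?_
    · rw [List.length_cons, Nat.cast_succ]
      exact le_of_eq (by ring)
    · rw [List.map_cons, List.sum_cons]

theorem Rep.single (c : ℤ) {w : List ℕ} (h1 : ∀ a ∈ w, 1 ≤ a) (h2 : w.sum ≤ s)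
    (h3 : w.length ≤ r) : Rep m s r |c| fun M _ φ _ => c • φ w := by
  refine ⟨Finsupp.single w c, Finsupp.single_mem_supported ℤ c ⟨h1, h2, h3⟩, (nrm_single w c).le,
    fun M _ φ G _ => ?_⟩
  rw [Finsupp.linearCombination_single]

end

/-- the division by `t` in the form of an alternating sum -/
theorem Sys.alt {m : ℕ} {M : Type} [AddCommGroup M] {φ : List ℕ → M} {G : List ℕ → ℕ → ℕ → M}
    (hG : Sys m φ G) (l : List ℕ) (a k : ℕ) (hk : k ≤ m) :
    k • G l (a + 1) k = ∑ i ∈ range k, ((-1 : ℤ) ^ (k - 1 - i)) • G l a i := by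
  induction k with
  | zero => rw [zero_smul, range_zero, sum_empty]
  | succ k ih =>
    have h1 := ih (by omega)
    have h2 := hG.step l a k hk
    have h3 : (k + 1) • G l (a + 1) (k + 1) = G l a k - k • G l (a + 1) k :=
      eq_sub_of_add_eq h2
    rw [h3, h1, sum_range_succ, ← sub_eq_zero]
    have h4 : k + 1 - 1 - k = 0 := by omega
    rw [h4, pow_zero, one_smul]
    have h5 : ∑ x ∈ range k, ((-1 : ℤ) ^ (k + 1 - 1 - x)) • G l a x =
        -∑ i ∈ range k, ((-1 : ℤ) ^ (k - 1 - i)) • G l a i := by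
      rw [← sum_neg_distrib]
      refine sum_congr rfl fun x hx => ?_
      have h6 : k + 1 - 1 - x = (k - 1 - x) + 1 := by
        have := mem_range.1 hx
        omega
      rw [h6, pow_succ, mul_neg_one, neg_smul]
    rw [h5]
    abel

/-- an abstract denominator predicate: `P r n k N` (depth budget `r`, weight budget `n`, index `k`,
denominator `N`) -/
structure DenP (m : ℕ) (P : ℕ → ℕ → ℕ → ℕ → Prop) : Prop where
  mono : ∀ r n k N j, P r n k N → j ≤ k → P r n j N
  div : ∀ r n k N, P r (n + 1) (k + 1) N → ∃ N', N = (k + 1) * N' ∧ P r n k N'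
  abel : ∀ r n k N, P (r + 1) n k N → k + 1 ≤ m → P r n (k + 1) N

/-- the simplest denominators: powers of `lcm (1, .., m)` -/
theorem denP_lcm (m : ℕ) : DenP m fun _ n k N => k ≤ m ∧ Nat.lcmUpto m ^ n ∣ N where
  mono _ _ _ _ _ h hj := ⟨hj.trans h.1, h.2⟩
  div _ n k N h := by
    obtain ⟨hk, c, rfl⟩ := h
    obtain ⟨q, hq⟩ : (k + 1) ∣ Nat.lcmUpto m := by
      unfold Nat.lcmUpto
      exact Finset.dvd_lcm (f := id) (mem_Icc.2 ⟨by omega, hk⟩)
    refine ⟨Nat.lcmUpto m ^ n * (q * c), ?_, by omega, Dvd.intro _ rfl⟩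
    have h1 : Nat.lcmUpto m ^ (n + 1) * c = Nat.lcmUpto m ^ n * (Nat.lcmUpto m * c) := by
      rw [pow_succ]
      ring
    rw [h1]
    conv_lhs => rw [hq]
    generalize Nat.lcmUpto m = D at *
    subst hq
    ring
  abel _ _ _ _ h hk := ⟨hk, h.2⟩

/-- `N G l a k` is an integral combination of the values of `φ` -/
theorem sys_coreP (m : ℕ) (P : ℕ → ℕ → ℕ → ℕ → Prop) (hP : DenP m P) (l : List ℕ)
    (hl : ∀ a ∈ l, 1 ≤ a) (a k N : ℕ) (hk : k ≤ m) (hk' : a = 0 → k + 1 ≤ m)
    (hN : P l.length (l.sum + a) k N) :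
    Rep m (l.sum + a) (l.length + min a 1) (2 ^ l.length * (N : ℤ)) fun M _ _ G =>
      (N : ℤ) • G l a k := by
  -- from `a` to `a + 1`
  have step : ∀ (l : List ℕ) (_ : ∀ a ∈ l, 1 ≤ a)
      (_ : ∀ k N, k + 1 ≤ m → P l.length l.sum k N → Rep m l.sum l.length
        (2 ^ l.length * (N : ℤ)) fun M _ _ G => (N : ℤ) • G l 0 k) (a k N : ℕ), k ≤ m →
      (a = 0 → k + 1 ≤ m) → P l.length (l.sum + a) k N →
      Rep m (l.sum + a) (l.length + min a 1) (2 ^ l.length * (N : ℤ)) fun M _ _ G =>
        (N : ℤ) • G l a k := by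
    intro l hl h0 a
    induction a with
    | zero => exact fun k N _ hk' hN => h0 k N (hk' rfl) hN
    | succ a ih =>
      intro k N hk _ hN
      cases k with
      | zero =>
        refine ((Rep.single (m := m) (s := l.sum + (a + 1)) (r := l.length + min (a + 1) 1)
          (N : ℤ) (w := (a + 1) :: l) ?_ ?_ ?_).mono ?_).congr fun M _ φ G hG => ?_
        · intro b hb
          rcases List.mem_cons.1 hb with rfl | hb
          · omega
          · exact hl b hb
        · rw [List.sum_cons]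
          omega
        · rw [List.length_cons]
          omega
        · rw [Nat.abs_cast]
          exact le_mul_of_one_le_left (Nat.cast_nonneg _) (one_le_pow₀ (by norm_num))
        · rw [hG.zero]
      | succ k =>
        obtain ⟨N', rfl, hN'⟩ := hP.div _ _ _ _ hN
        have h1 : ∀ i ∈ range (k + 1), Rep m (l.sum + a) (l.length + min a 1)
            (2 ^ l.length * (N' : ℤ)) fun M _ _ G =>
            ((-1 : ℤ) ^ (k + 1 - 1 - i)) • ((N' : ℤ) • G l a i) := by
          intro i hi
          have hi' := mem_range.1 hi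
          refine ((ih i N' (by omega) (fun _ => by omega)
            (hP.mono _ _ _ _ _ hN' (by omega))).smul ((-1 : ℤ) ^ (k + 1 - 1 - i))).mono ?_
          rw [abs_pow, abs_neg, abs_one, one_pow, one_mul]
        refine (((Rep.sum (range (k + 1)) _ _ h1).mono ?_).mono_left
          (s' := l.sum + (a + 1)) (r' := l.length + min (a + 1) 1) (by omega)
          (by omega)).congr fun M _ φ G hG => ?_
        · rw [sum_const, card_range, nsmul_eq_mul]
          push_cast
          exact le_of_eq (by ring)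
        · have h2 : ∑ i ∈ range (k + 1), ((-1 : ℤ) ^ (k + 1 - 1 - i)) • ((N' : ℤ) • G l a i) =
              (N' : ℤ) • ((k + 1) • G l (a + 1) (k + 1)) := by
            rw [hG.alt l a (k + 1) hk, smul_sum]
            exact sum_congr rfl fun i _ => smul_comm _ _ _
          rw [h2, ← natCast_zsmul (G l (a + 1) (k + 1)) (k + 1), smul_smul]
          congr 1
          push_cast
          ring
  refine step l hl ?_ a k N hk hk' hN
  clear hk hk' hN a k N
  -- the case `a = 0`
  induction l with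
  | nil =>
    intro k N hk _
    refine ((Rep.single (m := m) (s := List.sum ([] : List ℕ)) (r := List.length ([] : List ℕ))
      (if k = 0 then -(N : ℤ) else 0) (w := []) (by simp) (by simp) (by simp)).mono ?_).congr
      fun M _ φ G hG => ?_
    · split_ifs <;> simp
    · rw [hG.nil k hk]
      split_ifs <;> simp
  | cons b l ih =>
    intro k N hk hN
    have hl' : ∀ a ∈ l, 1 ≤ a := fun a ha => hl a (List.mem_cons_of_mem _ ha)
    have hb : 1 ≤ b := hl b List.mem_cons_self
    rw [List.length_cons, List.sum_cons, add_comm b l.sum] at hN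
    have hN1 := hP.abel _ _ _ _ hN hk
    have hN0 := hP.mono _ _ _ _ k hN1 (by omega)
    have h1 := step l hl' (ih hl') b (k + 1) N hk (fun h => by omega) hN1
    have h2 := step l hl' (ih hl') b k N (by omega) (fun h => by omega) hN0
    refine ((((h1.add h2).smul (-1)).mono ?_).mono_left (s' := (b :: l).sum)
      (r' := (b :: l).length) ?_ ?_).congr fun M _ φ G hG => ?_
    · rw [List.length_cons, pow_succ]
      refine le_of_eq ?_
      rw [abs_neg, abs_one]
      ring
    · rw [List.sum_cons]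
      omega
    · rw [List.length_cons]
      omega
    · rw [hG.cons b l k hb hk, ← smul_add, neg_smul, one_smul, smul_neg]

end Pool.MZFin
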