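import Pool.Agent.Lib.MZFin.RedSys

/-! MP_c511df_nt, reduction of sums modulo `p` to finite multiple zeta values: the sums
`∑_(t=1)^(p-1) C(t,k) t^(-a) h_l(t)` in `ZMod p` form a system. -/

open Finset

namespace Pool.MZFin

/-- the sum `∑_(t=1)^(p-1) C(t,k) t^(-a) h_l(t)` modulo `p` -/
def Gz (p : ℕ) (l : List ℕ) (a k : ℕ) : ZMod p :=
  ∑ M ∈ range (p - 1), ((M + 1).choose k : ZMod p) * (wp p (M + 1) ^ a * hs (wp p) l M)

private theorem gz_abel {R : Type*} [CommRing R] (w : ℕ → R) (a : ℕ) (l : List ℕ) (k n : ℕ) :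
    ∑ M ∈ range n, ((M + 1).choose k : R) * hs w (a :: l) M =
      ((n + 1).choose (k + 1) : R) * hs w (a :: l) n -
        ∑ M ∈ range n, ((M + 2).choose (k + 1) : R) * (w (M + 1) ^ a * hs w l M) := by
  induction n with
  | zero => simp [hs_cons]
  | succ n ih =>
    rw [sum_range_succ, sum_range_succ, ih, hs_succ]
    have h1 : ((n + 1 + 1).choose (k + 1) : R) =
        ((n + 1).choose k : R) + ((n + 1).choose (k + 1) : R) := by
      rw [Nat.choose_succ_succ]
      push_cast
      ring
    have h2 : n + 2 = n + 1 + 1 := rfl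
    rw [h2, h1]
    ring

private theorem gz_hockey (k n : ℕ) :
    (∑ M ∈ range n, (M + 1).choose k) + (if k = 0 then 1 else 0) = (n + 1).choose (k + 1) := by
  induction n with
  | zero =>
    cases k with
    | zero => simp
    | succ k =>
      rw [Nat.choose_eq_zero_of_lt (by omega : 0 + 1 < k + 1 + 1)]
      simp
  | succ n ih =>
    rw [sum_range_succ, Nat.choose_succ_succ (n + 1) k, ← ih]
    ring

private theorem gz_choose {p : ℕ} (hp : p.Prime) {k : ℕ} (h1 : 1 ≤ k) (h2 : k < p) :
    (p.choose k : ZMod p) = 0 := by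
  rw [ZMod.natCast_eq_zero_iff]
  exact hp.dvd_choose_self (by omega) h2

private theorem gz_inv {p : ℕ} (hp : p.Prime) {t : ℕ} (h1 : 1 ≤ t) (h2 : t < p) :
    (t : ZMod p) * wp p t = 1 := by
  haveI := Fact.mk hp
  unfold wp
  refine mul_inv_cancel₀ ?_
  rw [Ne, ZMod.natCast_eq_zero_iff]
  exact fun h => absurd (Nat.le_of_dvd (by omega) h) (by omega)

theorem sys_Gz {m p : ℕ} (hp : p.Prime) (hm : m < p) : Sys m (fz p) (Gz p) where
  zero l a := by
    unfold Gz fz
    rw [hs_cons]
    exact sum_congr rfl fun M _ => by rw [Nat.choose_zero_right, Nat.cast_one, one_mul]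
  step l a k hk := by
    unfold Gz
    rw [nsmul_eq_mul, nsmul_eq_mul, mul_sum, mul_sum, ← sum_add_distrib]
    refine sum_congr rfl fun M hM => ?_
    have hM' := mem_range.1 hM
    have h1 : (M + 1) * (M + 1).choose k =
        (k + 1) * (M + 1).choose (k + 1) + k * (M + 1).choose k := by
      have h3 := Nat.choose_succ_right_eq (M + 1) k
      rcases le_or_gt k (M + 1) with h | h
      · have h4 : (M + 1) * (M + 1).choose k = (M + 1).choose k * (M + 1 - k) +
            k * (M + 1).choose k := by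
          rw [mul_comm k, ← mul_add, Nat.sub_add_cancel h, mul_comm]
        rw [h4, ← h3]
        ring
      · rw [Nat.choose_eq_zero_of_lt h, Nat.choose_eq_zero_of_lt (by omega : M + 1 < k + 1)]
        ring
    have h2 : ((M + 1 : ℕ) : ZMod p) * ((M + 1).choose k : ZMod p) =
        ((k + 1 : ℕ) : ZMod p) * ((M + 1).choose (k + 1) : ZMod p) +
          (k : ZMod p) * ((M + 1).choose k : ZMod p) := by
      rw [← Nat.cast_mul, h1]
      push_cast
      ring
    have h3 := gz_inv hp (t := M + 1) (by omega) (by omega)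
    calc ((k + 1 : ℕ) : ZMod p) * (((M + 1).choose (k + 1) : ZMod p) *
          (wp p (M + 1) ^ (a + 1) * hs (wp p) l M)) +
          (k : ZMod p) * (((M + 1).choose k : ZMod p) *
          (wp p (M + 1) ^ (a + 1) * hs (wp p) l M))
        = (((k + 1 : ℕ) : ZMod p) * ((M + 1).choose (k + 1) : ZMod p) +
          (k : ZMod p) * ((M + 1).choose k : ZMod p)) *
          (wp p (M + 1) ^ (a + 1) * hs (wp p) l M) := by ring
      _ = ((M + 1).choose k : ZMod p) * (((M + 1 : ℕ) : ZMod p) * wp p (M + 1)) *
          (wp p (M + 1) ^ a * hs (wp p) l M) := by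
          rw [← h2, pow_succ]
          ring
      _ = ((M + 1).choose k : ZMod p) * (wp p (M + 1) ^ a * hs (wp p) l M) := by
          rw [h3, mul_one]
  cons a l k ha hk := by
    have h1 := gz_abel (wp p) a l k (p - 1)
    have h2 : p - 1 + 1 = p := Nat.sub_add_cancel hp.one_le
    rw [h2, gz_choose hp (by omega) (by omega), zero_mul, zero_sub] at h1
    unfold Gz
    simp only [pow_zero, one_mul]
    rw [h1, ← sum_add_distrib]
    congr 1
    refine sum_congr rfl fun M _ => ?_
    have h3 : M + 2 = M + 1 + 1 := rfl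
    rw [h3, Nat.choose_succ_succ (M + 1) k]
    push_cast
    ring
  nil k hk := by
    have h1 := gz_hockey k (p - 1)
    have h2 : p - 1 + 1 = p := Nat.sub_add_cancel hp.one_le
    rw [h2] at h1
    have h3 := congrArg (Nat.cast : ℕ → ZMod p) h1
    rw [gz_choose hp (by omega) (by omega)] at h3
    push_cast at h3
    unfold Gz
    simp only [pow_zero, one_mul, hs_nil, mul_one, fz_nil]
    rw [eq_neg_of_add_eq_zero_left h3]
    split_ifs <;> simp

/-- the sum over the full period: the last term vanishes if `1 ≤ k < p` -/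
theorem sum_range_p {p : ℕ} (hp : p.Prime) {i : ℕ} (h1 : 1 ≤ i) (h2 : i < p) (f : ℕ → ZMod p) :
    ∑ M ∈ range p, ((M + 1).choose i : ZMod p) * f M =
      ∑ M ∈ range (p - 1), ((M + 1).choose i : ZMod p) * f M := by
  have h3 : range p = range (p - 1 + 1) := by rw [Nat.sub_add_cancel hp.one_le]
  rw [h3, sum_range_succ, Nat.sub_add_cancel hp.one_le, gz_choose hp h1 h2, zero_mul, add_zero]

end Pool.MZFin
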