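import Pool.Agent.Lib.MZFin.YLem
import Pool.Agent.Lib.MZFin.YUp
import Pool.Agent.Lib.MZFin.YShift
import Pool.Agent.Lib.MZExp.ZNo
import Pool.Agent.Lib.MZExp.ZGrow

/-! MP_c511df_nt, finite multiple zeta values, ZERO ESTIMATE AT INFINITY, module `YAlg` (200 lines).
COPY of the PROVED file `MZExp/ZAlg.lean` with small changes.

PROOF. `s` from `exists_shiftM S0 S1 hS1 d`; `D0 = 8 * (s * (4 * S0.card + 1)) + 2 * S0.card + 8`.
Let `D ≥ D0`, `m0 = D/2 + 2`, `Q i = QM S0 S1 Cs (m0 - i) (D + i) (D + i)`,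
`J i = span KK (Q i)`. `J` is increasing (`QM_mono`, `Submodule.span_mono`).
(1) For `i ≤ D/8` and `i' = 3*D/8`: `m0 - i - i' ≥ 1`, so `rank_countM` and `QM_finrank_le` give
`(i'+1) * finrank (J i) ≤ (D + i + i' + 1) * S0.card`. As `8*(i'+1) ≥ 3D+1`,
`8*(D+i+i'+1) ≤ 12D + 8`: if `finrank ≥ 4*card+1` then `3D + 1 ≤ 4*card`, false. So
`finrank (J i) ≤ 4 * S0.card`.
(2) `exists_stable` with `R = 4 * S0.card`, `n = D/8`: `i` with `i + s ≤ D/8`, `J (i+s) = J i`.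
(3) Stability of `J i` as in ZAlg (`exists_shiftM`; `m0 - i - s = m0 - (i+s)`).
(4) the pair `p0 = (algebraMap ∘ a, algebraMap ∘ b) ∈ Q 0 ⊆ Q i` (`b` chosen from `hab`) has
`p0.1 ≠ 0`.
(5) `lemZ1 tau xx noSol ..` (`Rx [] [] = (0 : ℚ[X]).eval₂ .. = 0`, `Rx [] [c] =
(C ((-1)^(c+1)) * X^(c+1)).eval₂ _ xx⁻¹ = (-xx⁻¹)^(c+1)`) gives
`S1.card ≤ finrank (J i) ≤ 4 * S0.card < S1.card`, contradiction. -/

open Polynomial Pool.MZExp

namespace Pool.MZFin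

private lemma yalg_zero {K : Type*} [Field K] (τ : K ≃+* K) (x : K) (S0 S1 : Finset (List ℕ))
    (Rx : List ℕ → List ℕ → K) : Rel τ x S0 S1 Rx 0 0 := by
  refine ⟨?_, fun v => ?_⟩
  · ext u
    simp [Matrix.mulVec, dotProduct]
  · simp [Matrix.vecMul, dotProduct]

private lemma yalg_add {K : Type*} [Field K] (τ : K ≃+* K) (x : K) (S0 S1 : Finset (List ℕ))
    (Rx : List ℕ → List ℕ → K) {p q p' q' : (S0 → K) × (S1 → K)}
    (h : Rel τ x S0 S1 Rx p q) (h' : Rel τ x S0 S1 Rx p' q') :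
    Rel τ x S0 S1 Rx (p + p') (q + q') := by
  obtain ⟨h1, h2⟩ := h
  obtain ⟨h1', h2'⟩ := h'
  refine ⟨?_, fun v => ?_⟩
  · have e : (fun u => τ ((p + p').1 u)) = (fun u => τ (p.1 u)) + (fun u => τ (p'.1 u)) := by
      ext u
      simp
    rw [e, Matrix.mulVec_add, ← h1, ← h1']
    rfl
  · have e : Matrix.vecMul (q + q').2 (Tm x S1) v
        = Matrix.vecMul q.2 (Tm x S1) v + Matrix.vecMul q'.2 (Tm x S1) v := by
      have e2 : (q + q').2 = q.2 + q'.2 := rfl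
      rw [e2, Matrix.add_vecMul]
      rfl
    rw [e, h2 v, h2' v]
    have e3 : ∑ u : S0, τ ((p + p').1 u) * Rx u v
        = ∑ u : S0, τ (p.1 u) * Rx u v + ∑ u : S0, τ (p'.1 u) * Rx u v := by
      rw [← Finset.sum_add_distrib]
      refine Finset.sum_congr rfl fun u _ => ?_
      have : (p + p').1 u = p.1 u + p'.1 u := rfl
      rw [this, map_add, add_mul]
    rw [e3]
    have e4 : (p + p').2 v = p.2 v + p'.2 v := rfl
    rw [e4, map_add]
    ring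

private lemma yalg_smul {K : Type*} [Field K] (τ : K ≃+* K) (x : K) (S0 S1 : Finset (List ℕ))
    (Rx : List ℕ → List ℕ → K) (k : K) {p q : (S0 → K) × (S1 → K)}
    (h : Rel τ x S0 S1 Rx p q) : Rel τ x S0 S1 Rx (k • p) (τ k • q) := by
  obtain ⟨h1, h2⟩ := h
  refine ⟨?_, fun v => ?_⟩
  · have e : (fun u => τ ((k • p).1 u)) = τ k • (fun u => τ (p.1 u)) := by
      ext u
      have : (k • p).1 u = k * p.1 u := rfl
      rw [this, map_mul]
      rfl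
    rw [e, Matrix.mulVec_smul, ← h1]
    rfl
  · have e : Matrix.vecMul (τ k • q).2 (Tm x S1) v
        = τ k * Matrix.vecMul q.2 (Tm x S1) v := by
      have e2 : (τ k • q).2 = τ k • q.2 := rfl
      rw [e2, Matrix.smul_vecMul]
      rfl
    rw [e, h2 v]
    have e3 : ∑ u : S0, τ ((k • p).1 u) * Rx u v = τ k * ∑ u : S0, τ (p.1 u) * Rx u v := by
      rw [Finset.mul_sum]
      refine Finset.sum_congr rfl fun u _ => ?_
      have : (k • p).1 u = k * p.1 u := rfl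
      rw [this, map_mul, mul_assoc]
    rw [e3]
    have e4 : (k • p).2 v = k * p.2 v := rfl
    rw [e4, map_mul]
    ring

private lemma yalg_arith (N i r cd : ℕ) (hi : i ≤ N / 8) (hN : 2 * cd + 8 ≤ N)
    (h : (3 * N / 8 + 1) * r ≤ (N + i + 3 * N / 8 + 1) * cd) : r ≤ 4 * cd := by
  by_contra hr
  push Not at hr
  have a1 : 3 * N + 1 ≤ 8 * (3 * N / 8 + 1) := by omega
  have a2 : 8 * (N + i + 3 * N / 8 + 1) ≤ 12 * N + 8 := by omega
  have a3 : (3 * N + 1) * (4 * cd + 1) ≤ (12 * N + 8) * cd := by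
    calc (3 * N + 1) * (4 * cd + 1) ≤ (8 * (3 * N / 8 + 1)) * r := Nat.mul_le_mul a1 hr
      _ = 8 * ((3 * N / 8 + 1) * r) := by ring
      _ ≤ 8 * ((N + i + 3 * N / 8 + 1) * cd) := Nat.mul_le_mul_left _ h
      _ = (8 * (N + i + 3 * N / 8 + 1)) * cd := by ring
      _ ≤ (12 * N + 8) * cd := Nat.mul_le_mul_right _ a2
  nlinarith

theorem zero_algM (S0 S1 : Finset (List ℕ)) (hS0 : ∀ a l, a :: l ∈ S0 → l ∈ S0)
    (hS1 : ∀ a l, a :: l ∈ S1 → l ∈ S1) (hp0 : ∀ l ∈ S0, ∀ a ∈ l, 1 ≤ a)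
    (hp1 : ∀ l ∈ S1, ∀ a ∈ l, 1 ≤ a) (h0 : [] ∈ S0) (h1 : [] ∈ S1) (d : ℕ)
    (hcard : 4 * S0.card < S1.card) :
    ∃ D0 : ℕ, ∀ D : ℕ, D0 ≤ D → ∀ (σ : LS →+* LS) (Cs : List ℕ → List ℕ → LS)
      (R : List ℕ → List ℕ → ℚ[X]),
      (∀ p : ℚ[X], σ (iota p) = iota (p.comp (X - 1))) →
      (∀ (m : ℤ) (f : LS), Fil m f → Fil m (σ f)) →
      (∀ u ∈ S0, ∀ v ∈ S1, (R u v).natDegree ≤ d) → R [] [] = 0 →
      (∀ c : ℕ, 1 ≤ c → R [] [c] = C ((-1) ^ (c + 1)) * X ^ (c + 1)) →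
      (∀ (u : S0) (v : S1), σ (Cs u v) = (∑ u' : S0, ∑ v' : S1,
        Tm (iota X) S0 u' u * Tm (iota X) S1 v' v * Cs u' v') +
          (R u v).eval₂ (algebraMap ℚ LS) (iota X)⁻¹) →
      ∀ a : S0 → ℚ[X], a ≠ 0 → (∀ u, (a u).natDegree ≤ D) →
      (∀ v : S1, ∃ b : ℚ[X], b.natDegree ≤ D ∧
        Fil (((D / 2 : ℕ) : ℤ) + 2) (∑ u : S0, iota (a u) * Cs u v - iota b)) →
      False := by
  classical
  obtain ⟨s, hs⟩ := exists_shiftM S0 S1 hS1 d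
  refine ⟨8 * (s * (4 * S0.card + 1)) + 2 * S0.card + 8, ?_⟩
  intro D hD σ Cs R hσ1 hσ2 hRd hR0 hR1 hrec a ha haN hab
  choose b hb1 hb2 using hab
  let m0 : ℤ := ((D / 2 : ℕ) : ℤ) + 2
  have hm0 : m0 = ((D / 2 : ℕ) : ℤ) + 2 := rfl
  let Q : ℕ → Submodule ℚ ((S0 → KK) × (S1 → KK)) := fun i =>
    QM S0 S1 Cs (m0 - (i : ℤ)) (D + i) (D + i)
  let J : ℕ → Submodule KK ((S0 → KK) × (S1 → KK)) := fun i => Submodule.span KK (Q i : Set _)
  have hfin : ∀ i, i ≤ D / 8 → Module.finrank KK (J i) ≤ 4 * S0.card := by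
    intro i hi
    have h1 := rank_countM (S0 := S0) (S1 := S1) (Cs := Cs) (m := m0 - (i : ℤ)) (y := D + i)
      (z := D + i) (3 * D / 8)
    have h2 : Module.finrank ℚ (QM S0 S1 Cs (m0 - (i : ℤ) - ((3 * D / 8 : ℕ) : ℤ))
        (D + i + 3 * D / 8) (D + i + 3 * D / 8))
        ≤ (D + i + 3 * D / 8 + 1) * S0.card := QM_finrank_le (by omega)
    exact yalg_arith D i _ S0.card hi (by omega) (h1.trans h2)
  have hmono : ∀ i, J i ≤ J (i + 1) := by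
    intro i
    exact Submodule.span_mono (QM_mono (by push_cast; omega) (by omega) (by omega))
  obtain ⟨i, hi1, hi2⟩ := exists_stable J hmono s (4 * S0.card) (D / 8) hfin (by omega)
  have hiN : i ≤ D / 8 := by omega
  have hst : ∀ p ∈ J i, ∃ q ∈ J i, Rel tau xx S0 S1
      (fun u v => (R u v).eval₂ (algebraMap ℚ KK) xx⁻¹) p q := by
    intro p hp
    induction hp using Submodule.span_induction with
    | mem p hp =>
      obtain ⟨q, hq1, hq2⟩ := hs σ Cs R hσ1 hσ2 hRd hrec (m0 - (i : ℤ)) (D + i) (D + i) le_rfl p hp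
      refine ⟨q, ?_, hq1⟩
      rw [← hi2]
      have hx : (xx ^ s : KK) ≠ 0 := pow_ne_zero _ xx_ne_zero
      have e : q = (xx ^ s)⁻¹ • (xx ^ s • q) := by
        rw [smul_smul, inv_mul_cancel₀ hx, one_smul]
      rw [e]
      refine Submodule.smul_mem _ _ (Submodule.subset_span ?_)
      exact QM_mono (by push_cast; omega) (by omega) (by omega) hq2
    | zero => exact ⟨0, Submodule.zero_mem _, yalg_zero _ _ _ _ _⟩
    | add p p' _ _ h h' =>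
      obtain ⟨q, hq, hr⟩ := h
      obtain ⟨q', hq', hr'⟩ := h'
      exact ⟨q + q', Submodule.add_mem _ hq hq', yalg_add _ _ _ _ _ hr hr'⟩
    | smul k p _ h =>
      obtain ⟨q, hq, hr⟩ := h
      exact ⟨tau k • q, Submodule.smul_mem _ _ hq, yalg_smul _ _ _ _ _ k hr⟩
  have hne : ∃ p ∈ J i, p.1 ≠ 0 := by
    refine ⟨(fun u => algebraMap ℚ[X] KK (a u), fun v => algebraMap ℚ[X] KK (b v)), ?_, ?_⟩
    · refine Submodule.subset_span ?_
      have h0 : ((fun u => algebraMap ℚ[X] KK (a u), fun v => algebraMap ℚ[X] KK (b v)) :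
          (S0 → KK) × (S1 → KK)) ∈ QM S0 S1 Cs m0 D D :=
        ⟨a, b, haN, hb1, hb2, rfl⟩
      exact QM_mono (by omega) (by omega) (by omega) h0
    · intro h
      apply ha
      ext1 u
      have hu : algebraMap ℚ[X] KK (a u) = 0 := congrFun h u
      exact (map_eq_zero_iff _ (IsFractionRing.injective ℚ[X] KK)).1 hu
  have hRx : (fun u v => (R u v).eval₂ (algebraMap ℚ KK) xx⁻¹) [] [] = 0 := by
    show (R [] []).eval₂ (algebraMap ℚ KK) xx⁻¹ = 0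
    rw [hR0, eval₂_zero]
  have hRx1 : ∀ c : ℕ, 1 ≤ c →
      (fun u v => (R u v).eval₂ (algebraMap ℚ KK) xx⁻¹) [] [c] = (-xx⁻¹) ^ (c + 1) := by
    intro c hc
    show (R [] [c]).eval₂ (algebraMap ℚ KK) xx⁻¹ = (-xx⁻¹) ^ (c + 1)
    rw [hR1 c hc, eval₂_mul, eval₂_C, eval₂_X_pow, map_pow, map_neg, map_one, ← mul_pow, neg_one_mul]
  have hfinal := lemZ1 tau xx noSol S0 S1 hS0 hS1 hp0 hp1 h0 h1
    (fun u v => (R u v).eval₂ (algebraMap ℚ KK) xx⁻¹) hRx hRx1 (J i) hst hne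
  have := hfin i hiN
  omega

end Pool.MZFin
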