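import Pool.Agent.Lib.MZFin.YDefs

/-! MP_c511df_nt, finite multiple zeta values, ZERO ESTIMATE AT INFINITY, module `YLau` (220 lines).

ONLY MATHLIB + YDefs. The order filtration of Laurent series and the embedding `iota`.
PROOF. `Fil_add`, `Fil_neg`, `Fil_sub`, `Fil_sum`, `Fil_mono`: coefficientwise. `Fil_mul`: if
`n < m1 + m2` then `(f * g).coeff n = ∑ over pairs i + j = n in the supports` (`HahnSeries.coeff_mul`),
and `i + j = n < m1 + m2` gives `i < m1` or `j < m2`, so every term vanishes. `iota_coeff`: by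
linearity (`Polynomial.induction_on'` or `eval₂_eq_sum_range`): `iota (C a * X^k) = single (-k) a`
(`HahnSeries.single_pow`, `single_mul_single`, `algebraMap ℚ LS a = single 0 a`/`HahnSeries.C a`),
`HahnSeries.coeff_single`. So `(iota p).coeff n = p.coeff k` if `n = -k`, and `0` for `n > 0`.
`Fil_iota`: coefficients of index `< -y` are `p.coeff k`, `k > y ≥ natDegree p`.
`iota_eq_zero`: all coefficients of index `≤ 0` are coefficients of `p`. `iota_X`, `iota_X_inv`:
`single 1 1 * single (-1) 1 = 1`. `Fil_Xinv_pow`: `single 1 1 ^ k = single k 1`. `ser_coeff`: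
`HahnSeries.ofPowerSeries_apply_coeff`, `PowerSeries.coeff_succ_X_mul`, `coeff_mk`; index `≤ 0`:
`PowerSeries.coeff_zero_X_mul`, negative index: `HahnSeries.embDomain_notin_range` (or
`ofPowerSeries_apply` and support in the naturals). -/

open Polynomial Pool.MZExp

namespace Pool.MZFin

theorem Fil_mono {m m' : ℤ} (h : m' ≤ m) {f : LS} (hf : Fil m f) : Fil m' f := by
  intro n hn
  exact hf n (lt_of_lt_of_le hn h)

theorem Fil_add {m : ℤ} {f g : LS} (hf : Fil m f) (hg : Fil m g) : Fil m (f + g) := by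
  intro n hn
  rw [HahnSeries.coeff_add, hf n hn, hg n hn, add_zero]

theorem Fil_neg {m : ℤ} {f : LS} (hf : Fil m f) : Fil m (-f) := by
  intro n hn
  rw [HahnSeries.coeff_neg, hf n hn, neg_zero]

theorem Fil_sub {m : ℤ} {f g : LS} (hf : Fil m f) (hg : Fil m g) : Fil m (f - g) := by
  intro n hn
  rw [HahnSeries.coeff_sub, hf n hn, hg n hn, sub_zero]

theorem Fil_mul {m m' : ℤ} {f g : LS} (hf : Fil m f) (hg : Fil m' g) : Fil (m + m') (f * g) := by
  intro n hn
  rw [HahnSeries.coeff_mul]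
  apply Finset.sum_eq_zero
  rintro ⟨i, j⟩ hij
  rw [Finset.mem_antidiagonal] at hij
  have h3 := hij.2.2
  simp only at h3
  by_cases hi : i < m
  · rw [hf i hi, zero_mul]
  · rw [hg j (by omega), mul_zero]

theorem iota_monomial (k : ℕ) (a : ℚ) :
    iota (monomial k a) = HahnSeries.single (-(k : ℤ)) a := by
  have h1 : iota (monomial k a) =
      algebraMap ℚ LS a * (HahnSeries.single (-1 : ℤ) (1 : ℚ)) ^ k := by
    simp only [iota, coe_eval₂RingHom, eval₂_monomial]
  have h2 : algebraMap ℚ LS a = HahnSeries.single (0 : ℤ) a :=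
    RingHom.congr_fun (Subsingleton.elim (algebraMap ℚ LS) HahnSeries.C) a
  rw [h1, h2, HahnSeries.single_pow, HahnSeries.single_mul_single]
  simp

theorem iota_coeff_neg (p : ℚ[X]) (k : ℕ) : (iota p).coeff (-(k : ℤ)) = p.coeff k := by
  induction p using Polynomial.induction_on' with
  | add p q hp hq => rw [map_add, HahnSeries.coeff_add, hp, hq, coeff_add]
  | monomial n a =>
    rw [iota_monomial, coeff_monomial, HahnSeries.coeff_single]
    by_cases h : n = k
    · subst h; simp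
    · rw [if_neg h, if_neg (by omega)]

theorem iota_coeff_pos (p : ℚ[X]) (n : ℤ) (hn : 0 < n) : (iota p).coeff n = 0 := by
  induction p using Polynomial.induction_on' with
  | add p q hp hq => rw [map_add, HahnSeries.coeff_add, hp, hq, add_zero]
  | monomial k a =>
    rw [iota_monomial, HahnSeries.coeff_single, if_neg (by omega)]

theorem Fil_iota {p : ℚ[X]} {y : ℕ} (h : p.natDegree ≤ y) : Fil (-(y : ℤ)) (iota p) := by
  intro n hn
  obtain ⟨k, hk⟩ : ∃ k : ℕ, n = -(k : ℤ) := ⟨(-n).toNat, by omega⟩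
  subst hk
  rw [iota_coeff_neg]
  exact coeff_eq_zero_of_natDegree_lt (by omega)

theorem iota_eq_zero {p : ℚ[X]} (h : Fil 1 (iota p)) : p = 0 := by
  ext k
  rw [← iota_coeff_neg, h _ (by omega), coeff_zero]

theorem iota_X : iota X = HahnSeries.single (-1 : ℤ) (1 : ℚ) := by
  simp only [iota, coe_eval₂RingHom, eval₂_X]

theorem iota_X_ne_zero : iota X ≠ 0 := by
  rw [iota_X]
  exact HahnSeries.single_ne_zero one_ne_zero

theorem iota_X_inv : (iota X)⁻¹ = HahnSeries.single (1 : ℤ) (1 : ℚ) := by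
  apply inv_eq_of_mul_eq_one_left
  rw [iota_X, HahnSeries.single_mul_single]
  simp

theorem Fil_Xinv_pow (k : ℕ) : Fil k ((iota X)⁻¹ ^ k) := by
  intro n hn
  rw [iota_X_inv, HahnSeries.single_pow, HahnSeries.coeff_single, if_neg]
  simp only [nsmul_eq_mul, mul_one]
  omega

theorem Fil_X_pow (k : ℕ) : Fil (-(k : ℤ)) (iota X ^ k) := by
  rw [← map_pow]
  apply Fil_iota
  rw [natDegree_X_pow]

theorem ser_coeff (g : ℕ → ℚ) (n : ℕ) : (ser g).coeff ((n : ℤ) + 1) = g n := by
  have h := HahnSeries.ofPowerSeries_apply_coeff (Γ := ℤ) (PowerSeries.X * PowerSeries.mk g) (n + 1)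
  rw [PowerSeries.coeff_succ_X_mul, PowerSeries.coeff_mk] at h
  rw [← h, ser]
  push_cast
  rfl

theorem ser_coeff_nonpos (g : ℕ → ℚ) (n : ℤ) (hn : n ≤ 0) : (ser g).coeff n = 0 := by
  rcases eq_or_lt_of_le hn with rfl | hlt
  · have h := HahnSeries.ofPowerSeries_apply_coeff (Γ := ℤ) (PowerSeries.X * PowerSeries.mk g) 0
    rw [PowerSeries.coeff_zero_X_mul] at h
    rw [← h, ser]
    rfl
  · rw [ser, HahnSeries.ofPowerSeries_apply, HahnSeries.embDomain_of_notMem_range]
    rintro ⟨m, hm⟩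
    have : (m : ℤ) = n := hm
    omega

theorem LS_ext {f g : LS} (h1 : ∀ n : ℤ, n ≤ 0 → f.coeff n = g.coeff n)
    (h2 : ∀ n : ℕ, f.coeff ((n : ℤ) + 1) = g.coeff ((n : ℤ) + 1)) : f = g := by
  ext n
  by_cases h : n ≤ 0
  · exact h1 n h
  · obtain ⟨k, hk⟩ : ∃ k : ℕ, n = (k : ℤ) + 1 := ⟨(n - 1).toNat, by omega⟩
    rw [hk]
    exact h2 k

end Pool.MZFin
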